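import Mathlib

/-! Closed hyperbolic surfaces as quotients of the upper half-plane, their systole, and the
critical points of the systole function in the sense of Akrout. -/

namespace Pool.Agent.P.MP_d39174_gt

open UpperHalfPlane MatrixGroups

noncomputable section

/-- `Γ` is the full preimage in `SL(2, ℝ)` of the deck group of a closed oriented hyperbolic
surface `Γ \ ℍ` of genus `g`: discrete, acting freely modulo `± 1`, cocompact, and the first
Betti number `dim Hom(Γ, ℝ)` equals `2 g`. -/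
structure IsSurfaceGroup (g : ℕ) (Γ : Subgroup SL(2, ℝ)) : Prop where
  neg_one_mem : -1 ∈ Γ
  discrete : DiscreteTopology Γ
  free : ∀ γ ∈ Γ, ∀ z : ℍ, γ • z = z → γ = 1 ∨ γ = -1
  cocompact : ∃ K : Set ℍ, IsCompact K ∧ ∀ z : ℍ, ∃ γ ∈ Γ, γ • z ∈ K
  genus : Module.finrank ℝ (Additive Γ →+ ℝ) = 2 * g

/-- Translation length of `γ`: the length of the closed geodesic in the class of `γ`. -/
def len (γ : SL(2, ℝ)) : ℝ := ⨅ z : ℍ, dist z (γ • z)

/-- The systole of `Γ \ ℍ`. -/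
def sys (Γ : Subgroup SL(2, ℝ)) : ℝ := sInf (len '' {γ | γ ∈ Γ ∧ γ ≠ 1 ∧ γ ≠ -1})

/-- `γ` represents a shortest closed geodesic. -/
def IsSystolic (Γ : Subgroup SL(2, ℝ)) (γ : SL(2, ℝ)) : Prop :=
  γ ∈ Γ ∧ γ ≠ 1 ∧ γ ≠ -1 ∧ len γ = sys Γ

/-- `γ` and `δ` represent the same unoriented closed geodesic: they agree up to conjugation
in `Γ`, inversion and sign. -/
def SameGeodesic (Γ : Subgroup SL(2, ℝ)) (γ δ : SL(2, ℝ)) : Prop :=
  ∃ h ∈ Γ, δ = h * γ * h⁻¹ ∨ δ = -(h * γ * h⁻¹) ∨ δ = h * γ⁻¹ * h⁻¹ ∨ δ = -(h * γ⁻¹ * h⁻¹)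

/-- A cocycle `Γ → sl(2, ℝ)` for the adjoint action. The classes of such cocycles form the
tangent space `H¹(Γ, sl(2, ℝ))` of Teichmueller space; `u` is the velocity of a deformation
`γ ↦ (1 + t u(γ) + o(t)) γ`. -/
def IsCocycle (Γ : Subgroup SL(2, ℝ)) (u : SL(2, ℝ) → Matrix (Fin 2) (Fin 2) ℝ) : Prop :=
  (∀ γ ∈ Γ, (u γ).trace = 0) ∧
    ∀ γ ∈ Γ, ∀ δ ∈ Γ, u (γ * δ) = u γ + γ.1 * u δ * (γ⁻¹).1

/-- The differential of the length function `2 arcosh (|trace| / 2)` at `γ` in the direction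
of the deformation `(1 + t X) γ`. -/
def dlen (γ : SL(2, ℝ)) (X : Matrix (Fin 2) (Fin 2) ℝ) : ℝ :=
  deriv (fun t : ℝ => 2 * Real.arcosh (|((1 + t • X) * γ.1).trace| / 2)) 0

/-- Critical point of the systole function: `T` contains exactly one representative of each
shortest closed geodesic, and a combination with positive coefficients of the differentials
of their lengths vanishes. -/
def IsCritical (Γ : Subgroup SL(2, ℝ)) : Prop :=
  ∃ T : Finset SL(2, ℝ), (∀ γ ∈ T, IsSystolic Γ γ) ∧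
    (∀ δ, IsSystolic Γ δ → ∃! γ, γ ∈ T ∧ SameGeodesic Γ γ δ) ∧
    ∃ c : SL(2, ℝ) → ℝ, (∀ γ ∈ T, 0 < c γ) ∧
      ∀ u, IsCocycle Γ u → ∑ γ ∈ T, c γ * dlen γ (u γ) = 0

/-- The point of moduli space defined by `Γ`: its conjugacy class. -/
def cls (Γ : Subgroup SL(2, ℝ)) : Set (Subgroup SL(2, ℝ)) :=
  {Δ | ∃ M : SL(2, ℝ), ∀ γ, γ ∈ Δ ↔ M⁻¹ * γ * M ∈ Γ}

/-- The critical points of the systole function in the moduli space of genus `g`. -/
def Crit (g : ℕ) : Set (Set (Subgroup SL(2, ℝ))) :=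
  cls '' {Γ | IsSurfaceGroup g Γ ∧ IsCritical Γ}

/-- The critical points with systole less than `C`. -/
def CritLt (g : ℕ) (C : ℝ) : Set (Set (Subgroup SL(2, ℝ))) :=
  cls '' {Γ | IsSurfaceGroup g Γ ∧ IsCritical Γ ∧ sys Γ < C}

end

end Pool.Agent.P.MP_d39174_gt
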