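import Pool.Agent.P.MP_d39174_gt.SysG

/-! Areas: ideal triangles, balls, walls. -/

namespace Pool.Agent.P.MP_d39174_gt

open UpperHalfPlane MatrixGroups

noncomputable section

open MeasureTheory ENNReal

/-- The ideal triangle with vertices `∞, r, s`. -/
def Δ (r s : ℝ) : Set ℍ := {z | r ≤ z.re ∧ z.re ≤ s ∧ (z.re - r) * (s - z.re) ≤ z.im ^ 2}

lemma vol_smul (g : SL(2, ℝ)) (S : Set ℍ) : volume ((fun z => g • z) ⁻¹' S) = volume S :=
  measure_preimage_smul volume (Matrix.SpecialLinearGroup.mapGL ℝ g) S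

lemma measurableSet_Δ (r s : ℝ) : MeasurableSet (Δ r s) := by
  have h1 := UpperHalfPlane.continuous_re
  have h2 := UpperHalfPlane.continuous_im
  have h3 : IsClosed {z : ℍ | (z.re - r) * (s - z.re) ≤ z.im ^ 2} :=
    isClosed_le (by fun_prop) (by fun_prop)
  exact IsClosed.measurableSet (IsClosed.inter (isClosed_le continuous_const h1)
    (IsClosed.inter (isClosed_le h1 continuous_const) h3))

lemma Area1_aff {t : ℝ} (ht : 0 < t) (b : ℝ) :
    ∃ g : SL(2, ℝ), ∀ z : ℍ, (g • z).re = t * z.re + b ∧ (g • z).im = t * z.im := by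
  obtain ⟨u, hu, rfl⟩ : ∃ u : ℝ, 0 < u ∧ t = u * u :=
    ⟨√t, Real.sqrt_pos.2 ht, (Real.mul_self_sqrt ht.le).symm⟩
  refine ⟨⟨!![u, b / u; 0, 1 / u], by rw [Matrix.det_fin_two_of]; field_simp; ring⟩, fun z => ?_⟩
  obtain ⟨D, -, h1, h2, h3⟩ := VH_re_im
    ⟨!![u, b / u; 0, 1 / u], by rw [Matrix.det_fin_two_of]; field_simp; ring⟩ z
  rw [h2, h3, h1]
  constructor <;> simp <;> field_simp

lemma Area1_inv (b : ℝ) : ∃ g : SL(2, ℝ), ∀ z : ℍ,
    (g • z).re = -(z.re - b) / ((z.re - b) ^ 2 + z.im ^ 2) ∧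
      (g • z).im = z.im / ((z.re - b) ^ 2 + z.im ^ 2) := by
  refine ⟨⟨!![0, -1; 1, -b], by rw [Matrix.det_fin_two_of]; ring⟩, fun z => ?_⟩
  obtain ⟨D, -, h1, h2, h3⟩ := VH_re_im
    ⟨!![0, -1; 1, -b], by rw [Matrix.det_fin_two_of]; ring⟩ z
  rw [h2, h3, h1]
  constructor <;> simp [sub_eq_add_neg]

lemma Area1_cusp {x y : ℝ} (h0 : 0 < y) (h1 : y ≤ 1 / 4) (h2 : |x| ≤ 1 / 2)
    (h3 : |x| ≤ x ^ 2 + y ^ 2) : |-x / (x ^ 2 + y ^ 2)| ≤ 1 ∧ 1 / 4 < y / (x ^ 2 + y ^ 2) := by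
  have h4 : 0 < x ^ 2 + y ^ 2 := by positivity
  have h5 := abs_nonneg x
  rw [abs_div, abs_neg, abs_of_pos h4, div_le_one h4, lt_div_iff₀ h4]
  refine ⟨h3, ?_⟩
  rw [← sq_abs x] at h3 ⊢
  have h6 : |x| ≤ 2 * y ^ 2 := by nlinarith
  nlinarith

lemma Area1_strip : volume {z : ℍ | |z.re| ≤ 1 ∧ 1 / 4 < z.im} < ⊤ := by
  have h1 := Complex.volume_preserving_equiv_real_prod.setLIntegral_comp_preimage_emb
    Complex.measurableEquivRealProd.measurableEmbedding
    (fun p : ℝ × ℝ => (((1 / ‖p.2‖₊) ^ 2 : NNReal) : ℝ≥0∞)) (Set.Icc (-1) 1 ×ˢ Set.Ioi (1 / 4))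
  have h2 := (integrableOn_Ioi_rpow_of_lt (a := -2) (by norm_num) (c := 1 / 4) (by norm_num)).2
  rw [volume_eq_lintegral]
  refine lt_of_le_of_lt (lintegral_mono_set ?_) (h1.trans_lt ?_)
  · rintro _ ⟨z, hz, rfl⟩
    exact ⟨abs_le.1 hz.1, hz.2⟩
  · rw [Measure.volume_eq_prod, ← Measure.prod_restrict, lintegral_prod _ (by fun_prop)]
    simp only [lintegral_const]
    refine ENNReal.mul_lt_top (lt_of_eq_of_lt ?_ h2) (by simp)
    refine setLIntegral_congr_fun measurableSet_Ioi fun y hy => ?_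
    have h3 : (0 : ℝ) < y := lt_trans (by norm_num) hy
    simp only [enorm_eq_nnnorm, ENNReal.coe_inj]
    ext
    simp [Real.rpow_neg h3.le]

lemma Area1_univ : volume (Set.univ : Set ℍ) = ⊤ := by
  have h1 : volume (Complex.measurableEquivRealProd ⁻¹' (Set.univ ×ˢ Set.Ioo 0 1)) = ⊤ := by
    rw [Complex.volume_preserving_equiv_real_prod.measure_preimage_equiv, Measure.volume_eq_prod,
      Measure.prod_prod]
    simp
  rw [eq_top_iff, volume_eq_lintegral, ← h1, ← setLIntegral_one]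
  refine (setLIntegral_mono' (Complex.measurableEquivRealProd.measurable
    (MeasurableSet.univ.prod measurableSet_Ioo)) fun z hz => ?_).trans (lintegral_mono_set ?_)
  · have h2 : 0 < z.im ∧ z.im < 1 := hz.2
    rw [ENNReal.one_le_coe_iff, ← NNReal.coe_le_coe]
    simp only [NNReal.coe_pow, NNReal.coe_div, NNReal.coe_one, coe_nnnorm, Real.norm_eq_abs,
      abs_of_pos h2.1]
    exact one_le_pow₀ (one_le_one_div h2.1 h2.2.le)
  · exact fun z hz => ⟨⟨z, hz.2.1⟩, trivial, rfl⟩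

theorem vol_Δ : ∃ c : ℝ≥0∞, c ≠ ⊤ ∧ ∀ r s : ℝ, r < s → volume (Δ r s) ≤ c := by
  refine ⟨volume (Δ 0 1), ?_, fun r s h => ?_⟩
  · obtain ⟨g, hg⟩ := Area1_inv 0
    obtain ⟨k, hk⟩ := Area1_inv 1
    set S : Set ℍ := {z : ℍ | |z.re| ≤ 1 ∧ 1 / 4 < z.im}
    have h1 : Δ 0 1 ⊆ S ∪ ((fun z => g • z) ⁻¹' S ∪ (fun z => k • z) ⁻¹' S) := by
      rintro z ⟨h1, h2, h3⟩
      rcases lt_or_ge (1 / 4) z.im with h4 | h4
      · exact .inl ⟨abs_le.2 ⟨by linarith, h2⟩, h4⟩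
      rcases le_total z.re (1 / 2) with h5 | h5
      · refine .inr (.inl ?_)
        change |(g • z).re| ≤ 1 ∧ 1 / 4 < (g • z).im
        rw [(hg z).1, (hg z).2]
        refine Area1_cusp z.im_pos h4 ?_ ?_ <;> rw [abs_of_nonneg (by linarith)] <;> nlinarith
      · refine .inr (.inr ?_)
        change |(k • z).re| ≤ 1 ∧ 1 / 4 < (k • z).im
        rw [(hk z).1, (hk z).2]
        refine Area1_cusp z.im_pos h4 ?_ ?_ <;> rw [abs_of_nonpos (by linarith)] <;> nlinarith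
    refine ((measure_mono h1).trans_lt (measure_union_lt_top Area1_strip
      (measure_union_lt_top ?_ ?_))).ne <;> rw [vol_smul] <;> exact Area1_strip
  · have h0 := sub_pos.2 h
    obtain ⟨g, hg⟩ := Area1_aff h0 r
    rw [← vol_smul g]
    refine measure_mono fun z hz => ?_
    obtain ⟨h1, h2, h3⟩ : r ≤ (g • z).re ∧ (g • z).re ≤ s ∧
      ((g • z).re - r) * (s - (g • z).re) ≤ (g • z).im ^ 2 := hz
    rw [(hg z).1] at h1 h2 h3
    rw [(hg z).2] at h3
    refine ⟨le_of_mul_le_mul_left (by linarith) h0, le_of_mul_le_mul_left (by linarith) h0,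
      le_of_mul_le_mul_left ?_ (pow_pos h0 2)⟩
    linarith

theorem vol_ball {c : ℝ≥0∞} (hc : c ≠ ⊤) :
    ∃ R : ℝ, ∀ l, R ≤ l → ∀ z : ℍ, c < volume (Metric.ball z l) := by
  have h1 := tendsto_measure_iUnion_atTop (μ := (volume : Measure ℍ))
    (s := fun n : ℕ => Metric.ball I (n : ℝ))
    fun m n h => Metric.ball_subset_ball (Nat.cast_le.2 h)
  rw [Metric.iUnion_ball_nat, Area1_univ] at h1
  obtain ⟨n, hn⟩ := (h1.eventually (lt_mem_nhds hc.lt_top)).exists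
  refine ⟨n, fun l hl z => hn.trans_le ?_⟩
  rw [← vol_smul z.toSL2R (Metric.ball z l)]
  refine measure_mono fun w hw => ?_
  have h2 := dist_smul z.toSL2R w I
  rw [toSL2R_smul_I] at h2
  exact (h2.trans_lt hw).trans_le hl

theorem vol_wall {n : V} (hn : B n n = 1) : volume {z : ℍ | B n (Hy z) = 0} = 0 := by
  have h1 : volume (Complex.measurableEquivRealProd ⁻¹' ({0} ×ˢ Set.univ)) = 0 := by
    rw [Complex.volume_preserving_equiv_real_prod.measure_preimage_equiv, Measure.volume_eq_prod,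
      Measure.prod_prod]
    simp
  rw [← vol_smul (fr n), volume_eq_lintegral]
  refine setLIntegral_measure_zero _ _ (measure_mono_null ?_ h1)
  rintro _ ⟨z, hz, rfl⟩
  have h2 : B n (Hy (fr n • z)) = 0 := hz
  have h3 := B_ad (fr n) w0 (Hy z)
  rw [fr_w0 hn, ← Hy_smul, h2] at h3
  refine ⟨?_, trivial⟩
  simpa [B, w0, Hy, z.im_ne_zero] using h3.symm

lemma Nice.countable {Γ : Subgroup SL(2, ℝ)} (h : Nice Γ) : (Γ : Set SL(2, ℝ)).Countable :=
  (Set.countable_iUnion fun n : ℕ => (h.fin I n).countable).mono fun γ hγ =>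
    Set.mem_iUnion.2 ⟨⌈dist I (γ • I)⌉₊, And.intro hγ (Nat.le_ceil _)⟩

/-- An embedded ball is not larger than sets whose translates cover almost everything. -/
theorem vol_ball_le {Γ : Subgroup SL(2, ℝ)} {l : ℝ} (h : Nice Γ) (s : Sys Γ l) {ι : Type}
    [Fintype ι] {T : ι → Set ℍ} (hT : ∀ i, MeasurableSet (T i)) {N : Set ℍ} (hN : volume N = 0)
    (cov : ∀ z, z ∉ N → ∃ i, ∃ γ ∈ Γ, γ • z ∈ T i) (z : ℍ) :
    volume (Metric.ball z l) ≤ ∑ i, volume (T i) := by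
  let P : Set SL(2, ℝ) := {γ | γ ∈ Γ ∧ (0 < γ 1 0 ∨ (γ 1 0 = 0 ∧ 0 < γ 1 1))}
  have : Countable P := (h.countable.mono fun _ hγ => hγ.1).to_subtype
  have h1 : ∀ γ ∈ Γ, ∃ δ : P, PM γ δ := fun γ hγ => by
    have h2 := (PM.neg γ).mem h.neg_one_mem hγ
    rcases lt_trichotomy 0 (γ 1 0) with e | e | e
    · exact ⟨⟨γ, hγ, .inl e⟩, PM.refl _⟩
    · rcases lt_trichotomy 0 (γ 1 1) with e' | e' | e'
      · exact ⟨⟨γ, hγ, .inr ⟨e.symm, e'⟩⟩, PM.refl _⟩
      · have := det_eq γ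
        rw [← e, ← e'] at this
        simp at this
      · exact ⟨⟨-γ, h2, .inr ⟨by rw [neg_apply', ← e, neg_zero], by rw [neg_apply']; linarith⟩⟩,
          PM.neg _⟩
    · exact ⟨⟨-γ, h2, .inl (by rw [neg_apply']; linarith)⟩, PM.neg _⟩
  have h2 : ∀ γ δ : P, γ ≠ δ → Disjoint (Metric.ball (γ.1 • z) l) (Metric.ball (δ.1 • z) l) :=
    fun γ δ e => by
      have h3 : ¬ PM γ.1 δ.1 := by
        rintro (e' | e')
        · exact e (Subtype.ext e'.symm)
        · have h4 := γ.2.2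
          have h5 := δ.2.2
          rw [e', neg_apply', neg_apply'] at h5
          rcases h4 with h4 | h4 <;> rcases h5 with h5 | h5 <;> linarith
      have h4 := s.le_dist h (mul_mem (inv_mem γ.2.1) δ.2.1) (mt (pm_iff_inv_mul _ _).2 h3) z
      rw [← dist_smul γ.1, mul_smul, smul_inv_smul] at h4
      exact Metric.ball_disjoint_ball (by linarith)
  have h3 : Metric.ball z l ⊆
      N ∪ ⋃ i, ⋃ δ : P, (fun w => δ.1 • w) ⁻¹' (Metric.ball (δ.1 • z) l ∩ T i) := fun w hw => by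
    refine or_iff_not_imp_left.2 fun h4 => ?_
    obtain ⟨i, γ, hγ, e⟩ := cov w h4
    obtain ⟨δ, e'⟩ := h1 γ hγ
    rw [e'.act w] at e
    exact Set.mem_iUnion₂.2 ⟨i, δ, (dist_smul δ.1 w z).trans_lt hw, e⟩
  refine (measure_mono h3).trans ((measure_union_le _ _).trans ?_)
  rw [hN, zero_add]
  refine (measure_iUnion_fintype_le _ _).trans (Finset.sum_le_sum fun i _ => ?_)
  refine (measure_iUnion_le _).trans ?_
  simp only [vol_smul]
  rw [← measure_iUnion (fun γ δ e => (h2 γ δ e).mono Set.inter_subset_left Set.inter_subset_left)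
    fun _ => measurableSet_ball.inter (hT i)]
  exact measure_mono (Set.iUnion_subset fun _ => Set.inter_subset_right)

end

end Pool.Agent.P.MP_d39174_gt
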