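import Pool.Agent.P.MP_d39174_gt.TriDef

/-! Delaunay pairs: local properties. -/

namespace Pool.Agent.P.MP_d39174_gt

open UpperHalfPlane MatrixGroups

noncomputable section

variable {Γ : Subgroup SL(2, ℝ)} {A : Set V}

lemma WallSys.lf (h : Nice Γ) (w : WallSys Γ A) : LF A := by
  obtain ⟨F, hF⟩ := w.fin
  exact h.lf_of_fin w.per hF

lemma Wit.ad (w : WallSys Γ A) {p : V} (hp : Wit A p) {g : SL(2, ℝ)} (hg : g ∈ Γ) :
    Wit A (g • p) := by
  refine ⟨hp.1.ad g, fun n hn => ?_⟩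
  rw [B_ad_right]
  exact hp.2 _ (w.inv _ (Γ.inv_mem hg) _ hn)

lemma Del.symm {a b : V} (h : Del A a b) : Del A b a := by
  obtain ⟨ha, hb, hne, p, hp, h1, h2⟩ := h
  exact ⟨hb, ha, hne.symm, p, hp, h2, h1⟩

lemma Del.ad (w : WallSys Γ A) {a b : V} (h : Del A a b) {g : SL(2, ℝ)} (hg : g ∈ Γ) :
    Del A (g • a) (g • b) := by
  obtain ⟨ha, hb, hne, p, hp, h1, h2⟩ := h
  exact ⟨w.inv g hg a ha, w.inv g hg b hb, fun e => hne (MulAction.injective g e), g • p,
    hp.ad w hg, by rw [B_ad, h1], by rw [B_ad, h2]⟩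

/-- A nearest wall lies on the side of `p` of every other wall. -/
lemma nearest_fac (w : WallSys Γ A) {p x c : V} (hp : Wit A p) (hx : x ∈ A) (hxp : B x p = 1)
    (hc : c ∈ A) (hcp : 0 < B c p) (hne : c ≠ x) : Fac c x := by
  have ux := (w.per x hx).1
  have uc := (w.per c hc).1
  have h1 : 1 ≤ B c p := by
    have h2 := hp.2 c hc
    rwa [abs_of_pos hcp] at h2
  have hf : Fut (p - x) := by
    have h2 := hp.1.foot ux zero_le_one le_rfl
    rwa [hxp, one_mul, one_smul] at h2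
  have h0 : B x (p - x) = 0 := by rw [B_sub_right, hxp, ux, sub_self]
  have h2 : x ≠ -c := by
    intro e
    rw [e, B_neg_left] at hxp
    linarith
  have h3 := w.sep c hc x hx hne.symm h2
  refine fac_of_point uc ux h3 hf h0 ?_
  by_contra h4
  have h5 : B c (p - x) ≤ 0 := not_lt.1 h4
  have h6 : 1 ≤ B c x := by
    rw [B_sub_right] at h5
    linarith
  rw [abs_of_pos (by linarith)] at h3
  rcases nested_of_gt uc ux h3 with h7 | h7
  · have h8 := h7.B_neg hp.1
    rw [B_sub_left, hxp] at h8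
    linarith
  · have h8 := h7.B_neg hf
    rw [B_sub_left, h0] at h8
    linarith

lemma Del.fac (w : WallSys Γ A) {a b : V} (h : Del A a b) : Fac a b := by
  obtain ⟨ha, hb, hne, p, hp, h1, h2⟩ := h
  exact nearest_fac w hp hb h2 ha (by rw [h1]; exact one_pos) hne

lemma Del.not_cr_wall (w : WallSys Γ A) {x y c : V} (h : Del A x y) (hc : c ∈ A) :
    ¬ Cr c (-c) x y := by
  obtain ⟨hx, hy, -, p, hp, h1, h2⟩ := h
  have key : ∀ c ∈ A, 0 < B c p → ¬ Cr c (-c) x y := by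
    intro c hc hcp hcr
    obtain ⟨-, xc, -, yc, -, -⟩ := hcr.ne
    have f1 := (nearest_fac w hp hx h1 hc hcp xc.symm).1
    have f2 := (nearest_fac w hp hy h2 hc hcp yc.symm).1
    unfold Cr at hcr
    rw [ori_swap' c x (-c), ori_swap' c y (-c), neg_mul_neg] at hcr
    exact absurd (mul_pos f1 f2) (not_lt.2 hcr.le)
  intro hcr
  rcases lt_or_ge 0 (B c p) with h3 | h3
  · exact key c hc h3 hcr
  · refine key (-c) (w.neg c hc) ?_ (by rw [neg_neg]; exact hcr.swap_left)
    have h4 := hp.2 c hc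
    rw [abs_of_nonpos h3] at h4
    rw [B_neg_left]
    linarith

private lemma Del1_ge {p c : V} (hp : Wit A p) (hc : c ∈ A) (h : 0 < B c p) : 1 ≤ B c p := by
  have h1 := hp.2 c hc
  rwa [abs_of_pos h] at h1

private lemma Del1_pos (h : Nice Γ) (w : WallSys Γ A) {p x y c d : V} (hp : Wit A p)
    (hx : x ∈ A) (hy : y ∈ A) (hc : c ∈ A) (hd : d ∈ A) (h1 : B x p = 1) (h2 : B y p = 1)
    (hf : Fac c d) (hcr : Cr c d x y) : 0 < B c p := by
  by_contra hn
  have h3 : 0 < B (-c) p := by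
    have h4 := hp.2 c hc
    rw [abs_of_nonpos (not_lt.1 hn)] at h4
    rw [B_neg_left]
    linarith
  have uc := (w.per c hc).1
  obtain ⟨cd, xc, -, yc, -, -⟩ := hcr.ne
  have fd : Fin' c d := h.fin' (w.per c hc) (w.per d hd) cd
  have ld : crd c d < 0 := (side_iff uc fd).1.1 hf.1
  have key : ∀ z ∈ A, B z p = 1 → z ≠ c → Fin' c z ∧ 0 ≤ crd c z := by
    intro z hz hzp hzc
    have fz : Fin' c z := h.fin' (w.per c hc) (w.per z hz) hzc.symm
    refine ⟨fz, ?_⟩
    by_cases e : -c = z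
    · rw [← e, crd_neg_self uc]
    · have f := nearest_fac w hp hz hzp (w.neg c hc) h3 e
      have fz' : Fin' c (-z) := h.fin' (w.per c hc) (w.per _ (w.neg z hz))
        (fun e' => e (by rw [e', neg_neg]))
      exact ((fac_iff_crd uc fz fz').2.1 f).1.le
  obtain ⟨fx, lx⟩ := key x hx h1 xc
  obtain ⟨fy, ly⟩ := key y hy h2 yc
  have h5 := (Cr_crd' uc fd fx fy).1 hcr
  have h6 : 0 < (crd c x - crd c d) * (crd c y - crd c d) :=
    mul_pos (by linarith) (by linarith)
  linarith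

private lemma Del1_share (h : Nice Γ) (w : WallSys Γ A) {p q x y c d : V} (hp : Wit A p)
    (hq : Wit A q) (hx : x ∈ A) (hy : y ∈ A) (hc : c ∈ A) (hd : d ∈ A) (h1 : B x p = 1)
    (h2 : B y p = 1) (h3 : B c q = 1) (h4 : B d q = 1) (o1 : ori x y c < 0)
    (o2 : 0 < ori x y d) : B c p = 1 ∧ B d p = 1 := by
  have hcr : Cr x y c d := mul_neg_of_neg_of_pos o1 o2
  obtain ⟨xy, cx, cy, dx, dy, cd⟩ := hcr.ne
  have ux := (w.per x hx).1
  have uy := (w.per y hy).1
  have uc := (w.per c hc).1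
  have ud := (w.per d hd).1
  have fxy : Fac x y := nearest_fac w hp hy h2 hx (by rw [h1]; exact one_pos) xy
  have fyx : Fac y x := nearest_fac w hp hx h1 hy (by rw [h2]; exact one_pos) xy.symm
  have fcd : Fac c d := nearest_fac w hq hd h4 hc (by rw [h3]; exact one_pos) cd
  have fdc : Fac d c := nearest_fac w hq hc h3 hd (by rw [h4]; exact one_pos) cd.symm
  have pc : 0 < B c p := Del1_pos h w hp hx hy hc hd h1 h2 fcd hcr.symm
  have pd : 0 < B d p := Del1_pos h w hp hx hy hd hc h1 h2 fdc hcr.symm.swap_left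
  have qx : 0 < B x q := Del1_pos h w hq hc hd hx hy h3 h4 fxy hcr
  have qy : 0 < B y q := Del1_pos h w hq hc hd hy hx h3 h4 fyx hcr.swap_left
  have fcx : Fac c x := nearest_fac w hp hx h1 hc pc cx
  have fcy : Fac c y := nearest_fac w hp hy h2 hc pc cy
  have fdx : Fac d x := nearest_fac w hp hx h1 hd pd dx
  have fdy : Fac d y := nearest_fac w hp hy h2 hd pd dy
  have fxc : Fac x c := nearest_fac w hq hc h3 hx qx cx.symm
  have fxd : Fac x d := nearest_fac w hq hd h4 hx qx dx.symm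
  have fyc : Fac y c := nearest_fac w hq hc h3 hy qy cy.symm
  have fyd : Fac y d := nearest_fac w hq hd h4 hy qy dy.symm
  obtain ⟨o3, o4⟩ := ori_of_cross o1 o2
  have d1 : 0 < det3 x y c :=
    pos_of_mul_neg_left (det3_ori ux uy uc fxy fyx fyc fcy fxc fcx) o1.le
  have d2 : det3 x y d < 0 :=
    neg_of_mul_neg_left (det3_ori ux uy ud fxy fyx fyd fdy fxd fdx) o2.le
  have d3 : det3 x c d < 0 := by
    rw [← det3_cyc]
    exact neg_of_mul_neg_left (det3_ori uc ud ux fcd fdc fdx fxd fcx fxc) o3.le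
  have d4 : 0 < det3 y c d := by
    rw [← det3_cyc]
    exact pos_of_mul_neg_left (det3_ori uc ud uy fcd fdc fdy fyd fcy fyc) o4.le
  have e1 := congrArg (fun v => B v p) (cramer x y c d)
  have e2 := congrArg (fun v => B v q) (cramer x y c d)
  simp only [B_sub_left, B_add_left, B_smul_left, B_zero_left, h1, h2, h3, h4, mul_one] at e1 e2
  have g1 := Del1_ge hp hc pc
  have g2 := Del1_ge hp hd pd
  have g3 := Del1_ge hq hx qx
  have g4 := Del1_ge hq hy qy
  have m1 : 0 ≤ -det3 x y d * (B c p - 1) := mul_nonneg (by linarith) (by linarith)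
  have m2 : 0 ≤ det3 x y c * (B d p - 1) := mul_nonneg d1.le (by linarith)
  have m3 : 0 ≤ det3 y c d * (B x q - 1) := mul_nonneg d4.le (by linarith)
  have m4 : 0 ≤ -det3 x c d * (B y q - 1) := mul_nonneg (by linarith) (by linarith)
  have z1 : -det3 x y d * (B c p - 1) = 0 := by linarith
  have z2 : det3 x y c * (B d p - 1) = 0 := by linarith
  constructor
  · rcases mul_eq_zero.1 z1 with e | e
    · linarith
    · linarith
  · rcases mul_eq_zero.1 z2 with e | e
    · linarith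
    · linarith

/-- Crossing Delaunay pairs belong to the same cell. -/
lemma share (h : Nice Γ) (w : WallSys Γ A) {p q x y c d : V} (hp : Wit A p) (hq : Wit A q)
    (hx : x ∈ A) (hy : y ∈ A) (hc : c ∈ A) (hd : d ∈ A) (h1 : B x p = 1) (h2 : B y p = 1)
    (h3 : B c q = 1) (h4 : B d q = 1) (hcr : Cr x y c d) : B c p = 1 ∧ B d p = 1 := by
  rcases mul_neg_iff.1 hcr with ⟨o1, o2⟩ | ⟨o1, o2⟩
  · exact (Del1_share h w hp hq hx hy hd hc h1 h2 h4 h3 o2 o1).symm
  · exact Del1_share h w hp hq hx hy hc hd h1 h2 h3 h4 o1 o2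

lemma wit_uniq (h : Nice Γ) (w : WallSys Γ A) {p q a b c : V} (hp : Wit A p) (ha : a ∈ A)
    (hb : b ∈ A) (hc : c ∈ A) (ab : a ≠ b) (bc : b ≠ c) (ca : c ≠ a) (h1 : B a p = 1)
    (h2 : B b p = 1) (h3 : B c p = 1) (h4 : B a q = 1) (h5 : B b q = 1) (h6 : B c q = 1) :
    p = q := by
  have pa : 0 < B a p := by rw [h1]; exact one_pos
  have pb : 0 < B b p := by rw [h2]; exact one_pos
  have pc : 0 < B c p := by rw [h3]; exact one_pos
  have hd := det3_ori (w.per a ha).1 (w.per b hb).1 (w.per c hc).1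
    (nearest_fac w hp hb h2 ha pa ab) (nearest_fac w hp ha h1 hb pb ab.symm)
    (nearest_fac w hp hc h3 hb pb bc) (nearest_fac w hp hb h2 hc pc bc.symm)
    (nearest_fac w hp hc h3 ha pa ca.symm) (nearest_fac w hp ha h1 hc pc ca)
  have hd' : det3 a b c ≠ 0 := by
    intro e
    rw [e, zero_mul] at hd
    exact lt_irrefl _ hd
  refine sub_eq_zero.1 (eq_zero_of_det3 hd' ?_ ?_ ?_)
  · rw [B_sub_right, h1, h4, sub_self]
  · rw [B_sub_right, h2, h5, sub_self]
  · rw [B_sub_right, h3, h6, sub_self]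

lemma cell_finite (h : Nice Γ) (w : WallSys Γ A) {p : V} (hp : Fut p) :
    {x | x ∈ A ∧ B x p = 1}.Finite := by
  refine ((w.lf h).finite_seg (fun n hn => (w.per n hn).1) hp hp 1).subset ?_
  rintro x ⟨hx, h1⟩
  refine ⟨hx, 0, ⟨le_rfl, zero_le_one⟩, ?_⟩
  rw [sub_zero, one_smul, zero_smul, add_zero, h1, abs_one]

/-- A Delaunay pair does not cross its own translates. -/
lemma Del.not_cr_self (h : Nice Γ) (w : WallSys Γ A) {a b : V} (hd : Del A a b) {g : SL(2, ℝ)}
    (hg : g ∈ Γ) : ¬ Cr a b (g • a) (g • b) := by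
  intro hcr
  obtain ⟨ha, hb, hne, p, hp, h1, h2⟩ := hd
  have ha' := w.inv g hg a ha
  have hb' := w.inv g hg b hb
  have h3 : B (g • a) (g • p) = 1 := by rw [B_ad, h1]
  have h4 : B (g • b) (g • p) = 1 := by rw [B_ad, h2]
  obtain ⟨h5, -⟩ := share h w hp (hp.ad w hg) ha hb ha' hb' h1 h2 h3 h4 hcr
  obtain ⟨h6, h7⟩ := share h w (hp.ad w hg) hp ha' hb' ha hb h3 h4 h1 h2 hcr.symm
  obtain ⟨-, n1, n2, -, -, -⟩ := hcr.ne
  have e := wit_uniq h w hp ha hb ha' hne n2.symm n1 h1 h2 h5 h6 h7 h3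
  have e' := (h.pm_of_fix hg hp.1.1 e.symm).ad a
  rw [one_smul] at e'
  exact n1 e'.symm

end

end Pool.Agent.P.MP_d39174_gt
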