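import Pool.Agent.P.MP_d39174_gt.TriDef

/-! Fans of darts along a wall. -/

namespace Pool.Agent.P.MP_d39174_gt

open UpperHalfPlane MatrixGroups

noncomputable section

namespace Tr

variable {Γ : Subgroup SL(2, ℝ)} {T : Tr Γ}

/-- The period of the fan modulo `Γ`. -/
def D.f (d : T.D) : ℕ := sInf {i : ℕ | 0 < i ∧ ∃ g : Γ, (T.φ ^ i) d = g • d}

lemma fin' {a b : V} (ha : a ∈ T.A) (hb : b ∈ T.A) (h : a ≠ b) : Fin' a b :=
  T.nice.fin' (T.ws.per _ ha) (T.ws.per _ hb) h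
lemma fan_fin_c (d : T.D) : Fin' d.a d.c := fin' d.a_mem d.c_mem (T.del _ d.mem_ca).2.2.1.symm
lemma D.B_lt (d : T.D) : B d.a d.b < -1 := Fac.lt d.a_unit d.b_unit d.fac (T.ι d).fac
lemma D.b_ne_neg (d : T.D) : d.b ≠ -d.a := fun e => by
  have h := d.B_lt
  rw [e, B_neg_right, d.a_unit] at h
  exact lt_irrefl _ h
lemma D.r_neg (d : T.D) : d.r < 0 :=
  (side_iff d.a_unit (fin' d.a_mem d.b_mem d.a_ne_b)).1.1 d.fac.1
lemma D.r_lt (d : T.D) : d.r < (T.φ d).r := by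
  rw [D.r, D.r, φ_a, φ_b]
  exact (ori_pos_iff d.a_unit (fin' d.a_mem d.b_mem d.a_ne_b) (fan_fin_c d)).1 d.ori_pos
lemma eq_of_r {d e : T.D} (h : e.a = d.a) (h' : e.r = d.r) : e = d := by
  have f := fin' e.a_mem e.b_mem e.a_ne_b
  rw [D.r, D.r, h] at h'
  rw [h] at f
  exact D.ext h (T.nice.eq_of_br (T.ws.per _ e.b_mem) (T.ws.per _ d.b_mem)
    ((crd_eq_iff d.a_unit f (fin' d.a_mem d.b_mem d.a_ne_b)).1 h'))
lemma no_between {d e : T.D} (h : e.a = d.a) (h' : d.r < e.r) : (T.φ d).r ≤ e.r := by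
  by_contra hlt
  have f := fin' e.a_mem e.b_mem e.a_ne_b
  have m := e.mem
  rw [not_le, D.r, D.r, φ_a, φ_b, h] at hlt
  rw [D.r, D.r, h] at h'
  rw [h] at f m
  exact T.ncr _ m _ d.mem_bc ((Cr_crd' d.a_unit f (fin' d.a_mem d.b_mem d.a_ne_b) (fan_fin_c d)).2
    (mul_neg_of_neg_of_pos (by linarith) (by linarith)))
lemma fan_inv (σ : Equiv.Perm T.D) (d : T.D) : σ (σ⁻¹ d) = d := σ.apply_symm_apply d
lemma φ_zpow_a (d : T.D) (i : ℤ) : ((T.φ ^ i) d).a = d.a := by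
  induction i using Int.induction_on generalizing d with
  | zero => rfl
  | succ i ih => rw [zpow_add_one, Equiv.Perm.mul_apply, ih, φ_a]
  | pred i ih =>
    rw [zpow_sub_one, Equiv.Perm.mul_apply, ih, ← φ_a (T.φ⁻¹ d), fan_inv]
lemma φ_pow_a (d : T.D) (i : ℕ) : ((T.φ ^ i) d).a = d.a := by
  rw [← zpow_natCast, φ_zpow_a]
lemma φ_zpow_smul (g : Γ) (d : T.D) (i : ℤ) : (T.φ ^ i) (g • d) = g • (T.φ ^ i) d := by
  induction i using Int.induction_on generalizing d with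
  | zero => rfl
  | succ i ih => rw [zpow_add_one, Equiv.Perm.mul_apply, φ_smul, ih, Equiv.Perm.mul_apply]
  | pred i ih =>
    have e : T.φ⁻¹ (g • d) = g • T.φ⁻¹ d := T.φ.injective (by
      rw [φ_smul, fan_inv, fan_inv])
    rw [zpow_sub_one, Equiv.Perm.mul_apply, e, ih, Equiv.Perm.mul_apply]
lemma φ_pow_smul (g : Γ) (d : T.D) (i : ℕ) : (T.φ ^ i) (g • d) = g • (T.φ ^ i) d := by
  rw [← zpow_natCast, φ_zpow_smul]
lemma r_zpow_strictMono (d : T.D) : StrictMono fun i : ℤ => ((T.φ ^ i) d).r :=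
  strictMono_int_of_lt_succ fun i => by
    rw [add_comm, zpow_one_add, Equiv.Perm.mul_apply]
    exact D.r_lt _
lemma fan_mono (d : T.D) : StrictMono fun i : ℕ => ((T.φ ^ i) d).r :=
  strictMono_nat_of_lt_succ fun i => by
    rw [pow_succ', Equiv.Perm.mul_apply]
    exact D.r_lt _
lemma φ_inv_apply (d : T.D) : T.φ⁻¹ d = T.ν (T.ι d) := T.φ.injective (by
  rw [fan_inv, φ_apply, ν_ν_ν, ι_ι])
lemma pm_of_smul_eq {g : Γ} {d : T.D} (h : g • d = d) : PM 1 g := by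
  refine pm_of_ad (n := d.a) (m := d.b) (fun e => ?_) ?_ ?_
  · have h1 := B_cr_cr d.a d.b
    rw [e, B_zero_left, d.a_unit, d.b_unit] at h1
    nlinarith [d.B_lt]
  · rw [one_smul, ← smul_a, h]
  · rw [one_smul, ← smul_b, h]
lemma smul_of_pm {g h : Γ} (e : PM g h) (d : T.D) : g • d = h • d := D.ext (e.ad _) (e.ad _)
lemma r_ex {g : Γ} {d : T.D} {t : ℝ} (h : PM (ex t d.a) g) :
    (g • d).a = d.a ∧ (g • d).r = Real.exp (2 * t) * d.r := by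
  have e : (g • d).a = d.a := by rw [smul_a, ← h.ad, ex_ad_self]
  exact ⟨e, by rw [D.r, D.r, e, smul_b, ← h.ad, crd_ex d.a_unit d.b_unit]⟩
instance : Nonempty T.D := by
  obtain ⟨a, ha⟩ := T.ws.ne
  obtain ⟨b, hb⟩ := T.has a ha
  exact ⟨⟨(a, b), hb⟩⟩
lemma fan_reps : ∃ S : Set T.D, S.Finite ∧ ∀ d : T.D, ∃ g : Γ, ∃ e ∈ S, d = g • e := by
  obtain ⟨F, hF⟩ := T.fin
  refine ⟨_, F.finite_toSet.preimage Subtype.val_injective.injOn, fun d => ?_⟩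
  obtain ⟨g, hg, e, he, h⟩ := hF d.1 d.2
  refine ⟨⟨g, hg⟩, (⟨g, hg⟩ : Γ)⁻¹ • d, ?_, (smul_inv_smul _ _).symm⟩
  have h1 : d.a = g • e.1 := congrArg Prod.fst h
  have h2 : d.b = g • e.2 := congrArg Prod.snd h
  show (g⁻¹ • d.a, g⁻¹ • d.b) ∈ (F : Set (V × V))
  rwa [h1, h2, inv_smul_smul, inv_smul_smul]
lemma fan_int {t u : ℝ} (ht : 0 < t) (hu : 0 < u) (v : ℝ) :
    {m : ℤ | u ≤ Real.exp (2 * (m * t)) ∧ Real.exp (2 * (m * t)) ≤ v}.Finite := by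
  refine (Set.finite_Icc ⌈Real.log u / (2 * t)⌉ ⌊v / (2 * t)⌋).subset fun m hm => ⟨?_, ?_⟩
  · rw [Int.ceil_le, div_le_iff₀ (by positivity)]
    linarith [(Real.log_le_iff_le_exp hu).2 hm.1]
  · rw [Int.le_floor, le_div_iff₀ (by positivity)]
    linarith [hm.2, Real.add_one_le_exp (2 * (m * t))]
instance : Finite (MulAction.orbitRel.Quotient Γ T.D) := by
  obtain ⟨S, hS, h⟩ := fan_reps (T := T)
  refine Set.finite_univ_iff.1 ((hS.image (Quotient.mk (MulAction.orbitRel Γ T.D))).subset ?_)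
  rintro ⟨d⟩ -
  obtain ⟨g, e, he, rfl⟩ := h d
  exact ⟨e, he, (Quotient.sound (MulAction.mem_orbit e g)).symm⟩
lemma finite_window (a : V) {r₁ r₂ : ℝ} (h : r₂ < 0) :
    {e : T.D | e.a = a ∧ r₁ ≤ e.r ∧ e.r ≤ r₂}.Finite := by
  obtain ⟨S, hS, hr⟩ := fan_reps (T := T)
  refine (hS.biUnion (t := fun e₀ => {e : T.D | (e.a = a ∧ r₁ ≤ e.r ∧ e.r ≤ r₂) ∧
    ∃ g : Γ, e = g • e₀}) fun e₀ _ => ?_).subset fun e he => ?_
  · by_contra hn
    obtain ⟨e₁, ⟨rfl, -⟩, g₁, h1⟩ := Set.Infinite.nonempty hn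
    refine hn ?_
    obtain ⟨t, ht⟩ := T.nice.exists_prim (T.ws.per _ e₁.a_mem)
    have r0 := e₁.r_neg
    refine Set.Finite.of_finite_image (f := D.r) (((fan_int ht.pos (div_pos_of_neg_of_neg h r0)
      (r₁ / e₁.r)).image fun m : ℤ => Real.exp (2 * (m * t)) * e₁.r).subset ?_)
      fun e he e' he' h' => eq_of_r (he.1.1.trans he'.1.1.symm) h'
    rintro _ ⟨e, ⟨⟨h2, h3, h4⟩, g, h5⟩, rfl⟩
    have h6 : e = (g * g₁⁻¹) • e₁ := by rw [h5, h1, mul_smul, inv_smul_smul]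
    obtain ⟨m, hm⟩ := ht.gen _ (g * g₁⁻¹).2 (by rw [← smul_a, ← h6, h2])
    have h7 := (r_ex hm).2
    rw [← h6] at h7
    refine ⟨m, ⟨?_, ?_⟩, h7.symm⟩
    · rwa [div_le_iff_of_neg r0, ← h7]
    · rwa [le_div_iff_of_neg r0, ← h7]
  · obtain ⟨g, e₀, h0, h1⟩ := hr e
    exact Set.mem_biUnion h0 ⟨he, g, h1⟩
lemma fan_nat {d e : T.D} (h : e.a = d.a) (h' : d.r ≤ e.r) : ∃ i : ℕ, e = (T.φ ^ i) d := by
  classical
  have hex : ∃ i : ℕ, e.r < ((T.φ ^ i) d).r := by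
    by_contra hn
    refine (finite_window d.a (r₁ := d.r) e.r_neg).not_infinite
      (Set.infinite_of_injective_forall_mem (f := fun i : ℕ => (T.φ ^ i) d)
        (Function.Injective.of_comp (f := D.r) (fan_mono d).injective) fun i =>
        ⟨φ_pow_a d i, ?_, not_lt.1 fun h1 => hn ⟨i, h1⟩⟩)
    simpa only [pow_zero, Equiv.Perm.one_apply] using (fan_mono d).monotone (Nat.zero_le i)
  have h1 := Nat.find_spec hex
  have h2 := fun j => Nat.find_min hex (m := j)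
  generalize Nat.find hex = i at h1 h2
  rcases i with _ | i
  · rw [pow_zero, Equiv.Perm.one_apply] at h1
    exact absurd h' (not_le.2 h1)
  · have h3 := h.trans (φ_pow_a d i).symm
    refine ⟨i, eq_of_r h3 (le_antisymm (not_lt.1 fun h4 => ?_) (not_lt.1 (h2 i i.lt_succ_self)))⟩
    rw [pow_succ', Equiv.Perm.mul_apply] at h1
    exact (no_between h3 h4).not_gt h1
lemma fan {d e : T.D} (h : e.a = d.a) : ∃ i : ℤ, e = (T.φ ^ i) d := by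
  rcases le_total d.r e.r with h1 | h1
  · obtain ⟨i, hi⟩ := fan_nat h h1
    exact ⟨i, by rw [zpow_natCast, hi]⟩
  · obtain ⟨i, hi⟩ := fan_nat h.symm h1
    exact ⟨-i, by rw [zpow_neg, zpow_natCast, Equiv.Perm.eq_inv_iff_eq, hi]⟩
lemma exists_first {a : V} (ha : a ∈ T.A) {ω : ℝ} (hω : ω < 0) :
    ∃ d : T.D, d.a = a ∧ ω < d.r ∧ ∀ e : T.D, e.a = a → ω < e.r → d.r ≤ e.r := by
  obtain ⟨b, hb⟩ := T.has a ha
  obtain ⟨-, t, ht, hm⟩ := T.ws.per a ha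
  obtain ⟨d₀, rfl⟩ : ∃ d : T.D, d.a = a := ⟨⟨(a, b), hb⟩, rfl⟩
  have r0 := d₀.r_neg
  obtain ⟨n, hn⟩ := exists_pow_lt_of_lt_one (div_pos_of_neg_of_neg hω r0)
    (Real.exp_lt_one_iff.2 (show 2 * -t < 0 by linarith))
  have hg : ex (n * -t) d₀.a ∈ Γ := by
    rw [← ex_pow, ex_neg]
    exact Γ.pow_mem (Γ.inv_mem hm) n
  obtain ⟨h1, h2⟩ := r_ex (g := ⟨_, hg⟩) (PM.refl _)
  generalize (⟨_, hg⟩ : Γ) • d₀ = d₁ at h1 h2
  have h3 : ω < d₁.r := by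
    rw [h2, ← lt_div_iff_of_neg r0, mul_left_comm, Real.exp_nat_mul]
    exact hn
  obtain ⟨d, hd, hmin⟩ := Set.exists_min_image {e : T.D | e.a = d₀.a ∧ ω < e.r ∧ e.r ≤ d₁.r} D.r
    ((finite_window d₀.a (r₁ := ω) d₁.r_neg).subset fun e he => ⟨he.1, he.2.1.le, he.2.2⟩)
    ⟨d₁, h1, h3, le_rfl⟩
  refine ⟨d, hd.1, hd.2.1, fun e he he' => ?_⟩
  rcases le_total e.r d₁.r with h4 | h4
  · exact hmin e ⟨he, he', h4⟩
  · exact hd.2.2.trans h4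
lemma fan_mem {a : V} {t : ℝ} (h : Prim Γ a t) : ex (-t) a ∈ Γ := by
  rw [ex_neg]
  exact Γ.inv_mem h.mem
lemma fan_step (d : T.D) {t : ℝ} (h : Prim Γ d.a t) {γ : Γ} (e : PM (ex (-t) d.a) γ) :
    ∃ i : ℕ, 0 < i ∧ (T.φ ^ i) d = γ • d := by
  obtain ⟨h1, h2⟩ := r_ex e
  have h3 : d.r < (γ • d).r := by
    rw [h2]
    nlinarith [d.r_neg, Real.exp_lt_one_iff.2 (show 2 * -t < 0 by linarith [h.pos])]
  obtain ⟨i, hi⟩ := fan_nat h1 h3.le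
  refine ⟨i, Nat.pos_of_ne_zero ?_, hi.symm⟩
  rintro rfl
  rw [hi, pow_zero, Equiv.Perm.one_apply] at h3
  exact lt_irrefl _ h3
lemma fan_iter {d : T.D} {f : ℕ} {γ : Γ} (h : (T.φ ^ f) d = γ • d) (k : ℤ) :
    (T.φ ^ (f * k)) d = γ ^ k • d := by
  rw [← zpow_natCast] at h
  induction k using Int.induction_on with
  | zero => rw [mul_zero, zpow_zero, zpow_zero, one_smul, Equiv.Perm.one_apply]
  | succ k ih =>
    rw [mul_add, mul_one, zpow_add, Equiv.Perm.mul_apply, h, φ_zpow_smul, ih, ← mul_smul,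
      ← zpow_one_add, add_comm]
  | pred k ih =>
    refine (T.φ ^ (f : ℤ)).injective ?_
    rw [φ_zpow_smul, h, ← mul_smul, ← zpow_add_one, ← Equiv.Perm.mul_apply, ← zpow_add,
      sub_add_cancel, ← ih]
    congr 2
    ring
lemma D.f_pos (d : T.D) : 0 < d.f := by
  obtain ⟨t, ht⟩ := T.nice.exists_prim (T.ws.per _ d.a_mem)
  obtain ⟨i, h0, hi⟩ := fan_step d ht (γ := ⟨_, fan_mem ht⟩) (PM.refl _)
  exact (Nat.sInf_mem (s := {i : ℕ | 0 < i ∧ ∃ g : Γ, (T.φ ^ i) d = g • d}) ⟨i, h0, _, hi⟩).1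
lemma D.f_spec (d : T.D) {t : ℝ} (h : Prim Γ d.a t) {γ : Γ} (e : PM (ex (-t) d.a) γ) :
    (T.φ ^ d.f) d = γ • d := by
  obtain ⟨i, h0, hi⟩ := fan_step d h e
  obtain ⟨h1, g, hg⟩ : 0 < d.f ∧ ∃ g : Γ, (T.φ ^ d.f) d = g • d :=
    Nat.sInf_mem (s := {i : ℕ | 0 < i ∧ ∃ g : Γ, (T.φ ^ i) d = g • d}) ⟨i, h0, _, hi⟩
  have h2 : d.f ≤ i := Nat.sInf_le ⟨h0, _, hi⟩
  obtain ⟨m, hm⟩ := h.gen _ g.2 (by rw [← smul_a, ← hg, φ_pow_a])
  have r0 := d.r_neg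
  have h3 := fan_mono d h1
  have h4 := (r_ex hm).2
  have h5 := (r_ex e).2
  have h6 : Real.exp (2 * (m * t)) < 1 := by
    simp only [hg, h4, pow_zero, Equiv.Perm.one_apply] at h3
    nlinarith
  have h7 : (m : ℝ) + 1 ≤ 0 := by
    have h8 := Real.exp_lt_one_iff.1 h6
    have h9 : (m : ℝ) < 0 := by nlinarith [h.pos]
    exact_mod_cast h9
  have h8 : Real.exp (2 * (m * t)) ≤ Real.exp (2 * -t) :=
    Real.exp_le_exp.2 (by nlinarith [h.pos])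
  have h9 : i ≤ d.f := (fan_mono d).le_iff_le.1 (by
    simp only [hg, hi, h4, h5]
    exact mul_le_mul_of_nonpos_right h8 r0.le)
  rw [le_antisymm h2 h9, hi]
lemma D.pm_of_f (d : T.D) {t : ℝ} (h : Prim Γ d.a t) {γ : Γ} (e : (T.φ ^ d.f) d = γ • d) :
    PM (ex (-t) d.a) γ := by
  have h1 := d.f_spec h (γ := ⟨_, fan_mem h⟩) (PM.refl _)
  refine (pm_iff_inv_mul _ _).2 (pm_of_smul_eq (g := (⟨_, fan_mem h⟩ : Γ)⁻¹ * γ) (d := d) ?_)
  rw [mul_smul, ← e, h1, inv_smul_smul]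
lemma D.f_dvd (d : T.D) (i : ℤ) : (∃ g : Γ, (T.φ ^ i) d = g • d) ↔ (d.f : ℤ) ∣ i := by
  obtain ⟨t, ht⟩ := T.nice.exists_prim (T.ws.per _ d.a_mem)
  have h1 := fan_iter (d.f_spec ht (γ := ⟨_, fan_mem ht⟩) (PM.refl _))
  generalize (⟨_, fan_mem ht⟩ : Γ) = γ at h1
  refine ⟨fun ⟨g, hg⟩ => ?_, fun ⟨k, hk⟩ => ⟨_, hk ▸ h1 k⟩⟩
  have f0 : (0 : ℤ) < d.f := by exact_mod_cast d.f_pos
  have h2 := Int.emod_nonneg i f0.ne'
  have h3 := Int.emod_lt_of_pos i f0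
  by_contra hn
  have h4 : i % d.f ≠ 0 := fun e => hn (Int.dvd_of_emod_eq_zero e)
  rw [← Int.emod_add_mul_ediv i d.f, zpow_add, Equiv.Perm.mul_apply, h1, φ_zpow_smul,
    ← eq_inv_smul_iff, ← mul_smul, ← Int.toNat_of_nonneg h2, zpow_natCast] at hg
  have h5 : d.f ≤ (i % d.f).toNat := Nat.sInf_le ⟨by omega, _, hg⟩
  omega
lemma f_eq {d e : T.D} (h : e.a = d.a) : e.f = d.f := by
  obtain ⟨j, rfl⟩ := fan h
  refine congrArg sInf (Set.ext fun i => and_congr_right fun _ => exists_congr fun g => ?_)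
  rw [← φ_zpow_smul, ← Equiv.Perm.mul_apply, ← zpow_natCast, ← zpow_add, add_comm, zpow_add,
    Equiv.Perm.mul_apply, Equiv.apply_eq_iff_eq]
lemma f_smul (g : Γ) (d : T.D) : (g • d).f = d.f := by
  refine congrArg sInf (Set.ext fun i => and_congr_right fun _ => ⟨fun ⟨k, hk⟩ => ?_,
    fun ⟨k, hk⟩ => ?_⟩)
  · exact ⟨g⁻¹ * k * g, by rw [mul_smul, mul_smul, ← hk, φ_pow_smul, inv_smul_smul]⟩
  · exact ⟨g * k * g⁻¹, by rw [mul_smul, mul_smul, inv_smul_smul, φ_pow_smul, hk]⟩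
/-- An index in a fan is controlled by the positions. -/
lemma index_le {d : T.D} {t : ℝ} (h : Prim Γ d.a t) {i m : ℕ}
    (hr : ((T.φ ^ i) d).r ≤ Real.exp (-(2 * m * t)) * d.r) : i ≤ m * d.f := by
  have h1 := fan_iter (d.f_spec h (γ := ⟨_, fan_mem h⟩) (PM.refl _)) m
  have h2 := (r_ex (g := (⟨_, fan_mem h⟩ : Γ) ^ (m : ℤ)) (d := d) (t := (m : ℤ) * -t) (by
    rw [← ex_zpow]
    exact PM.refl _)).2
  rw [← h1, ← Nat.cast_mul, zpow_natCast, mul_comm d.f] at h2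
  refine (fan_mono d).le_iff_le.1 (hr.trans (le_of_eq ?_))
  simp only [h2]
  congr 2
  push_cast
  ring
lemma conn_darts {U : Set T.D} (h1 : ∀ d ∈ U, T.ι d ∈ U) (h2 : ∀ d ∈ U, T.ν d ∈ U)
    (h3 : ∀ a ∈ T.A, ∃ d d' : T.D, d.a = a ∧ d'.a = -a ∧ (d ∈ U → d' ∈ U)) (h4 : U.Nonempty) :
    U = Set.univ := by
  have k1 : ∀ (i : ℤ), ∀ d ∈ U, (T.φ ^ i) d ∈ U := fun i => by
    induction i using Int.induction_on with
    | zero => exact fun d hd => hd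
    | succ i ih =>
      intro d hd
      rw [zpow_add_one, Equiv.Perm.mul_apply]
      exact ih _ (h1 _ (h2 _ (h2 _ hd)))
    | pred i ih =>
      intro d hd
      rw [zpow_sub_one, Equiv.Perm.mul_apply, φ_inv_apply]
      exact ih _ (h2 _ (h1 _ hd))
  have k2 : ∀ d ∈ U, ∀ e : T.D, e.a = d.a → e ∈ U := fun d hd e he => by
    obtain ⟨i, rfl⟩ := fan he
    exact k1 i d hd
  have k3 := T.conn {a | ∃ d ∈ U, d.a = a} (by
    rintro _ ⟨d, hd, rfl⟩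
    obtain ⟨e, e', a1, a2, a3⟩ := h3 _ d.a_mem
    exact ⟨e', a3 (k2 d hd e a1), a2⟩) (by
    rintro _ ⟨d, hd, rfl⟩ b hb
    exact ⟨_, h1 _ (k2 d hd ⟨(d.a, b), hb⟩ rfl), rfl⟩) (by
    obtain ⟨d, hd⟩ := h4
    exact ⟨d.a, d.a_mem, d, hd, rfl⟩)
  refine Set.eq_univ_of_forall fun e => ?_
  obtain ⟨d, hd, he⟩ := k3 e.a_mem
  exact k2 d hd e he.symm

end Tr

end

end Pool.Agent.P.MP_d39174_gt
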