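import Pool.Agent.P.MP_d39174_gt.Area1
import Pool.Agent.P.MP_d39174_gt.Fan
import Pool.Agent.P.MP_d39174_gt.Del1

/-! Sides of the edges of a triangulation. -/

namespace Pool.Agent.P.MP_d39174_gt

open UpperHalfPlane MatrixGroups

noncomputable section

/-- Abscissa of `z` when `e(a) = ∞`, `e(-a) = 0`. -/
def zc (a : V) (z : ℍ) : ℝ := ((fr a)⁻¹ • z).re

lemma zc_neg_iff {a : V} (ha : B a a = 1) (z : ℍ) : zc a z < 0 ↔ 0 < B a (Hy z) := by
  have e : B a (Hy z) = -zc a z / ((fr a)⁻¹ • z).im := by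
    rw [← B_ad (fr a)⁻¹, VW2_inv ha, ← Hy_smul]
    simp only [B, w0, Hy, zc]
    ring
  rw [e, div_pos_iff_of_pos_right (im_pos _), neg_pos]

/-- Diagonal matrices act on abscissas by a dilation. -/
lemma Area2_diag {h : SL(2, ℝ)} (h2 : h 0 1 = 0) (h3 : h 1 0 = 0) (z : ℍ) :
    (h • z).re = h 0 0 / h 1 1 * z.re := by
  obtain ⟨D, h0, hD, e, -⟩ := VH_re_im h z
  have h4 : h 1 1 ≠ 0 := fun e => h0 (by rw [hD, h3, e]; ring)
  rw [e, hD, h2, h3]
  field_simp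
  ring

lemma zc_ex {a : V} (ha : B a a = 1) (t : ℝ) (z : ℍ) :
    zc a (ex t a • z) = Real.exp (2 * t) * zc a z := by
  have e2 : (fr a)⁻¹ • ex t a • z = ex t w0 • (fr a)⁻¹ • z := by
    have e3 := ex_conj (fr a) t w0
    rw [fr_w0 ha] at e3
    rw [← e3, mul_smul, mul_smul, inv_smul_smul]
  obtain ⟨k1, k2, k3, k4⟩ := ex_apply B_w0 t
  have a1 : w0.a = 1 := rfl
  have a2 : w0.b = 0 := rfl
  have a3 : w0.c = 0 := rfl
  simp only [a1, a2, a3, mul_one, mul_zero, Real.cosh_add_sinh, Real.cosh_sub_sinh] at k1 k2 k3 k4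
  rw [zc, e2, Area2_diag k2 k3, k1, k4, ← Real.exp_sub, show t - -t = 2 * t by ring, zc]

lemma Area2_ad (g : SL(2, ℝ)) {w : V} (hw : B w w = 1) :
    ∃ k : ℝ, 0 < k ∧ (∀ a, B a a = 1 → crd (g • w) (g • a) = k * crd w a) ∧
      ∀ z, zc (g • w) (g • z) = k * zc w z := by
  have hw' : B (g • w) (g • w) = 1 := by rwa [B_ad]
  obtain ⟨h, hh⟩ : ∃ h, h = (fr (g • w))⁻¹ * g * fr w := ⟨_, rfl⟩
  have e : h • w0 = w0 := by rw [hh, mul_smul, mul_smul, fr_w0 hw, VW2_inv hw']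
  have ea := congrArg V.a e
  have eb := congrArg V.b e
  have ec := congrArg V.c e
  simp only [ad_a, ad_b, ad_c, w0] at ea eb ec
  have h1 : h 0 0 * h 1 1 = 1 := by linear_combination (ea + det_eq h) / 2
  have h2 : h 0 1 = 0 := by linear_combination -h 1 1 / 2 * eb - h 0 1 * h1
  have h3 : h 1 0 = 0 := by linear_combination h 0 0 / 2 * ec - h 1 0 * h1
  have h4 : h 0 0 ≠ 0 := left_ne_zero_of_mul (h1.trans_ne one_ne_zero)
  have h5 : h 0 0 / h 1 1 = h 0 0 ^ 2 := by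
    rw [div_eq_iff (right_ne_zero_of_mul (h1.trans_ne one_ne_zero))]
    linear_combination -h 0 0 * h1
  refine ⟨h 0 0 ^ 2, by positivity, fun a ha => ?_, fun z => ?_⟩
  · obtain ⟨t, ht, e1⟩ := ev_ad g ha
    have e2 : (fr (g • w))⁻¹ • g • ev a = h • VW2X w a := by
      rw [hh, VW2X, mul_smul, mul_smul, smul_inv_smul]
    rw [VW2_crd, VW2X, e1, VW2_sc, e2, mul_div_mul_left _ _ ht, act_p, act_q, h2, h3, zero_mul,
      zero_mul, add_zero, zero_add, mul_div_mul_comm, h5, VW2_crd]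
  · have e2 : (fr (g • w))⁻¹ • g • z = h • (fr w)⁻¹ • z := by
      rw [hh, mul_smul, mul_smul, smul_inv_smul]
    rw [zc, e2, Area2_diag h2 h3, h5, zc]

/-- Change of frame between two walls with distinct endpoints. -/
lemma Area2_chg {a b : V} (ha : B a a = 1) (hb : B b b = 1) (hab : Fin' a b) :
    ∃ k : ℝ, 0 < k ∧
      (∀ c, Fin' a c → Fin' b c → crd b c = crd b a - k / (crd a c - crd a b)) ∧
      ∀ z, zc b z = crd b a - k * ((zc a z - crd a b) /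
        ((zc a z - crd a b) ^ 2 + ((fr a)⁻¹ • z).im ^ 2)) := by
  obtain ⟨g, hg⟩ : ∃ g, g = (fr b)⁻¹ * fr a := ⟨_, rfl⟩
  have eX : ∀ c, VW2X b c = g • VW2X a c := fun c => by
    rw [hg, VW2X, VW2X, mul_smul, smul_inv_smul]
  have hd := det_eq g
  have h1 : g 1 1 = -(g 1 0 * crd a b) := by
    obtain ⟨s, -, e⟩ := VW2_self hb
    have e1 := congrArg W.q (eX b)
    rw [e, act_q, VW2_p ha hab] at e1
    exact mul_right_cancel₀ (VW2_q ha hab) (by linear_combination -e1)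
  have h2 : g 1 0 ≠ 0 := fun e => by
    rw [h1, e] at hd
    simp at hd
  have h3 : g 0 1 = -(g 0 0 * crd a b) - 1 / g 1 0 := by
    field_simp
    rw [h1] at hd
    linear_combination -hd
  have h4 : crd b a = g 0 0 / g 1 0 := by
    obtain ⟨s, hs, e⟩ := VW2_self ha
    rw [VW2_crd, eX, e, act_p, act_q]
    field_simp
    ring
  refine ⟨1 / g 1 0 ^ 2, by positivity, fun c hc hc' => ?_, fun z => ?_⟩
  · have h5 : crd a c - crd a b ≠ 0 := sub_ne_zero.2 fun e =>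
      hc' ((crd_eq_iff ha hab hc).1 e.symm)
    have h6 := VW2_q ha hc
    have h7 : (VW2X b c).q = g 1 0 * (crd a c - crd a b) * (VW2X a c).q := by
      rw [eX, act_q, VW2_p ha hc, h1]
      ring
    rw [VW2_crd b c, h7, eX, act_p, VW2_p ha hc, h4, h3]
    field_simp
    ring
  · have e2 : (fr b)⁻¹ • z = g • (fr a)⁻¹ • z := by rw [hg, mul_smul, smul_inv_smul]
    obtain ⟨D, -, hD, e, -⟩ := VH_re_im g ((fr a)⁻¹ • z)
    have h5 := ((fr a)⁻¹ • z).im_pos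
    have h6 : D = g 1 0 ^ 2 * ((zc a z - crd a b) ^ 2 + ((fr a)⁻¹ • z).im ^ 2) := by
      rw [hD, h1, zc]
      ring
    have h7 : (zc a z - crd a b) ^ 2 + ((fr a)⁻¹ • z).im ^ 2 ≠ 0 := by positivity
    rw [zc, e2, e, h6, h4, h3, h1, ← zc]
    field_simp
    ring

lemma Area2_surj (a : V) (t : ℝ) : ∃ z, zc a z = t :=
  ⟨fr a • (⟨⟨t, 1⟩, one_pos⟩ : ℍ), by rw [zc, inv_smul_smul]; rfl⟩

namespace Tr

variable {Γ : Subgroup SL(2, ℝ)} {T : Tr Γ}

/-- `z` is on the side of the triangle of `d`. -/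
def Pos (d : T.D) (z : ℍ) : Prop := d.r ≤ zc d.a z

lemma pos_ι (d : T.D) (z : ℍ) : Pos (T.ι d) z ↔ zc d.a z ≤ d.r := by
  obtain ⟨k, hk, -, e⟩ := Area2_chg d.a_unit d.b_unit (fin' d.a_mem d.b_mem d.a_ne_b)
  have h5 := ((fr d.a)⁻¹ • z).im_pos
  have h7 : 0 < (zc d.a z - crd d.a d.b) ^ 2 + ((fr d.a)⁻¹ • z).im ^ 2 := by positivity
  rw [Pos, D.r, D.r, ι_a, ι_b, e, le_sub_self_iff, ← not_lt, mul_pos_iff_of_pos_left hk,
    div_pos_iff_of_pos_right h7, sub_pos, not_lt]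

lemma pos_ν (d : T.D) (z : ℍ) : Pos (T.ν d) z ↔
    (zc d.a z - d.r) * ((T.φ d).r - zc d.a z) ≤ ((fr d.a)⁻¹ • z).im ^ 2 := by
  obtain ⟨k, hk, e', e⟩ := Area2_chg d.a_unit d.b_unit (fin' d.a_mem d.b_mem d.a_ne_b)
  have h5 := ((fr d.a)⁻¹ • z).im_pos
  have h7 : 0 < (zc d.a z - crd d.a d.b) ^ 2 + ((fr d.a)⁻¹ • z).im ^ 2 := by positivity
  have h8 := sub_pos.2 d.r_lt
  rw [D.r, D.r, φ_a, φ_b] at h8
  rw [Pos, D.r, D.r, D.r, ν_a, ν_b, φ_a, φ_b, e, e' _ (fan_fin_c d)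
    (fin' d.b_mem d.c_mem (T.ν d).a_ne_b), sub_le_sub_iff_left, div_eq_mul_one_div k,
    mul_le_mul_iff_right₀ hk, div_le_div_iff₀ h7 h8]
  constructor <;> intro h <;> linarith

lemma pos_smul (g : Γ) (d : T.D) (z : ℍ) : Pos (g • d) ((g : SL(2, ℝ)) • z) ↔ Pos d z := by
  obtain ⟨k, hk, e, e'⟩ := Area2_ad (g : SL(2, ℝ)) d.a_unit
  rw [Pos, Pos, D.r, D.r, smul_a, smul_b, e _ d.b_unit, e', mul_le_mul_iff_right₀ hk]

lemma pos_of_φ {d : T.D} {z : ℍ} (h : Pos (T.φ d) z) : Pos d z := by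
  rw [Pos, φ_a] at h
  exact d.r_lt.le.trans h

lemma Area2_pos (d : T.D) (z : ℍ) : Pos d z ↔ zc (T.ν d).a z ≤ (T.φ (T.ν d)).r := by
  rw [← φ_a (T.ν d), ← pos_ι, φ_apply, ν_ν_ν, ι_ι]

lemma pos_of_ψ {d : T.D} {z : ℍ} (h : Pos (T.ψ d) z) : Pos d z := by
  rw [ψ_apply, pos_ι] at h
  exact (Area2_pos d z).2 (h.trans (T.ν d).r_lt.le)

lemma exists_pos_φ (d : T.D) : ∃ z, Pos d z ∧ ¬ Pos (T.φ d) z := by
  obtain ⟨z, hz⟩ := Area2_surj d.a d.r
  refine ⟨z, hz.ge, ?_⟩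
  rw [Pos, φ_a, hz, not_le]
  exact d.r_lt

lemma exists_pos_ψ (d : T.D) : ∃ z, Pos d z ∧ ¬ Pos (T.ψ d) z := by
  obtain ⟨z, hz⟩ := Area2_surj (T.ν d).a (T.φ (T.ν d)).r
  refine ⟨z, (Area2_pos d z).2 hz.le, ?_⟩
  rw [ψ_apply, pos_ι, hz, not_le]
  exact (T.ν d).r_lt

lemma mem_Δ {d : T.D} {z : ℍ} (h1 : Pos d z) (h2 : ¬ Pos (T.φ d) z) (h3 : ¬ Pos (T.ψ d) z) :
    (fr d.a)⁻¹ • z ∈ Δ d.r (T.φ d).r := by
  rw [Pos, φ_a, not_le] at h2
  rw [ψ_apply, pos_ι, not_le] at h3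
  exact ⟨h1, h2.le, (pos_ν d z).1 h3.le⟩

/-- A connected component of the graph stays on one side of each of its walls. -/
lemma Area2_side {b x : V} (hb : b ∈ T.A)
    (h : Relation.ReflTransGen (fun x y => (x, y) ∈ T.E) x b) :
    x = b ∨ (x ≠ -b ∧ crd b x < 0) := by
  induction h using Relation.ReflTransGen.head_induction_on with
  | refl => exact Or.inl rfl
  | @head x y hxy _ ih =>
    by_cases hy : y = b
    · subst hy
      exact Or.inr ⟨D.b_ne_neg (T := T) ⟨(y, x), T.symm _ _ hxy⟩,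
        D.r_neg (T := T) ⟨(y, x), T.symm _ _ hxy⟩⟩
    obtain ⟨h1, h2⟩ := ih.resolve_left hy
    by_cases hx : x = b
    · exact Or.inl hx
    have ub := unit hb
    have mx : x ∈ T.A := (T.del _ hxy).1
    have my : y ∈ T.A := (T.del _ hxy).2.1
    have fy := fin' hb my (Ne.symm hy)
    have fx := fin' hb mx (Ne.symm hx)
    have h3 : x ≠ -b := by
      rintro rfl
      have h4 := ((fac_iff_crd ub fy (fin' hb (T.ws.neg _ my) fun e => h1 (by
        rw [e, neg_neg]))).2.1 (T.fac _ hxy)).1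
      linarith
    refine Or.inr ⟨h3, (lt_or_gt_of_ne (crd_ne_zero ub fx
      (fin' (T.ws.neg _ hb) mx h3.symm))).resolve_right fun h4 => T.ncw _ hxy b hb ?_⟩
    rw [Cr_crd' ub (fin'_neg ub) fx fy, crd_neg_self ub, sub_zero, sub_zero]
    exact mul_neg_of_pos_of_neg h4 h2

/-- The chamber of a point that is on no wall. -/
theorem exists_chamber {z : ℍ} (hz : ∀ a ∈ T.A, B a (Hy z) ≠ 0) : ∃ U : Set V, ∃ a ∈ T.A,
    a ∈ U ∧ (∀ d : T.D, d.a ∈ U → d.b ∈ U) ∧ (∀ b ∈ U, 0 < B b (Hy z)) ∧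
      ∀ g ∈ Γ, g • a = a → ∀ b ∈ U, g • b ∈ U := by
  obtain ⟨a, ha, a0, am⟩ : ∃ a ∈ T.A, 0 < B a (Hy z) ∧ ∀ n ∈ T.A, B a (Hy z) ≤ |B n (Hy z)| := by
    obtain ⟨m, hm, -⟩ := VH3_min (T.ws.lf T.nice) (fun _ => unit) T.ws.ne
    obtain ⟨h1, h2⟩ := hm z
    rcases lt_or_gt_of_ne (hz _ h1) with h | h
    · refine ⟨-m z, T.ws.neg _ h1, by rw [B_neg_left]; linarith, fun n hn => ?_⟩
      rw [B_neg_left]
      exact (neg_le_abs _).trans (h2 n hn)
    · exact ⟨m z, h1, h, fun n hn => (le_abs_self _).trans (h2 n hn)⟩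
  have i0 := inv_pos.2 a0
  have hp : Wit T.A ((B a (Hy z))⁻¹ • Hy z) := ⟨(Hy_fut z).smul i0, fun n hn => by
    rw [B_smul_right, abs_mul, abs_of_pos i0, ← div_eq_inv_mul, one_le_div a0]
    exact am n hn⟩
  refine ⟨{b | Relation.ReflTransGen (fun x y => (x, y) ∈ T.E) a b}, a, ha,
    Relation.ReflTransGen.refl, fun d hd => Relation.ReflTransGen.tail hd d.mem, fun b hb => ?_,
    fun g hg e b hb => ?_⟩
  · have mb : b ∈ T.A := by
      rcases Relation.ReflTransGen.cases_tail hb with rfl | ⟨c, -, hc⟩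
      exacts [ha, (T.del _ hc).2.1]
    by_cases hab : a = b
    · exact hab ▸ a0
    obtain ⟨h1, h2⟩ := (Area2_side mb hb).resolve_left hab
    refine (lt_or_gt_of_ne (hz b mb)).resolve_left fun h3 => ?_
    have h4 := nearest_fac T.ws hp ha (by rw [B_smul_right, inv_mul_cancel₀ a0.ne'])
      (T.ws.neg _ mb) (by
        rw [B_smul_right, B_neg_left]
        exact mul_pos i0 (neg_pos.2 h3)) h1.symm
    have h5 := ((fac_iff_crd (unit mb) (fin' mb ha (Ne.symm hab)) (fin' mb (T.ws.neg _ ha)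
      fun e => h1 (by rw [e, neg_neg]))).2.1 h4).1
    linarith
  · induction hb with
    | refl => exact e.symm ▸ Relation.ReflTransGen.refl
    | tail _ h ih => exact Relation.ReflTransGen.tail ih (T.inv g hg _ _ h)

end Tr

end

end Pool.Agent.P.MP_d39174_gt
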