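import Pool.Agent.P.MP_d39174_gt.Fan

/-! Base pairs and jumps across walls. -/

namespace Pool.Agent.P.MP_d39174_gt

open UpperHalfPlane MatrixGroups

noncomputable section

open Finset

namespace Tr

variable {Γ : Subgroup SL(2, ℝ)} {T : Tr Γ} {M : Type*} [AddCommGroup M] [Module ℝ M]

lemma exists_base (Q : T.D → T.D → Prop) (h1 : ∀ (g : Γ) d d', Q d d' → Q (g • d) (g • d'))
    (h2 : ∀ d d', d'.a = -d.a → Q d d' → Q d' d)
    (h3 : ∀ a ∈ T.A, ∃ d d' : T.D, d.a = a ∧ d'.a = -a ∧ Q d d') :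
    ∃ Bs : T.Base, ∀ p ∈ Bs.S, Q p.1 p.2 := by
  let σ : Setoid V := ⟨Eqw Γ, Eqw.refl Γ, Eqw.symm, Eqw.trans⟩
  let R : Set V := {a | a ∈ T.A ∧ (Quotient.mk σ a).out = a}
  have hR : ∀ a ∈ T.A, ∃ r ∈ R, Eqw Γ r a := fun a ha => by
    have e : Eqw Γ (Quotient.mk σ a).out a := Quotient.mk_out (s := σ) a
    refine ⟨_, ⟨?_, by rw [Quotient.out_eq]⟩, e⟩
    obtain ⟨g, hg, e | e⟩ := e.symm <;> rw [e]
    exacts [T.ws.inv g hg a ha, T.ws.neg _ (T.ws.inv g hg a ha)]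
  have hR' : ∀ a ∈ R, ∀ b ∈ R, Eqw Γ a b → a = b := fun a ha b hb e => by
    rw [← ha.2, ← hb.2, Quotient.sound (s := σ) e]
  choose! u v hu hv hQ using h3
  have hs : ∀ (g g' : Γ) (d : T.D), (g' * g⁻¹) • g • d = g' • d := fun g g' d => by
    rw [mul_smul, inv_smul_smul]
  refine ⟨⟨{p | ∃ a ∈ R, ∃ g : Γ, p = (g • u a, g • v a) ∨ p = (g • v a, g • u a)},
    ?_, ?_, ?_, ?_, ?_⟩, ?_⟩
  · rintro _ ⟨a, ha, g, rfl | rfl⟩ <;> simp [hu a ha.1, hv a ha.1]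
  · rintro _ ⟨a, ha, g, rfl | rfl⟩
    exacts [⟨a, ha, g, Or.inr rfl⟩, ⟨a, ha, g, Or.inl rfl⟩]
  · rintro g' _ ⟨a, ha, g, rfl | rfl⟩
    exacts [⟨a, ha, g' * g, Or.inl (by simp only [mul_smul])⟩,
      ⟨a, ha, g' * g, Or.inr (by simp only [mul_smul])⟩]
  · intro a ha
    obtain ⟨r, hr, g, hg, e | e⟩ := hR a ha
    · exact ⟨_, ⟨r, hr, ⟨g, hg⟩, Or.inl rfl⟩, by simp [hu r hr.1, e]⟩
    · exact ⟨_, ⟨r, hr, ⟨g, hg⟩, Or.inr rfl⟩, by simp [hv r hr.1, e]⟩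
  · have hf : ∀ a ∈ R, ∀ b ∈ R, ∀ g g' : Γ, (g : SL(2, ℝ)) • a ≠ -((g' : SL(2, ℝ)) • b) := by
      intro a ha b hb g g' e
      have e' : ((g'⁻¹ * g : Γ) : SL(2, ℝ)) • a = -b := by
        rw [Subgroup.coe_mul, Subgroup.coe_inv, mul_smul, e, smul_neg, inv_smul_smul]
      obtain rfl := hR' a ha b hb ⟨_, (g'⁻¹ * g).2, Or.inr (by rw [e', neg_neg])⟩
      exact T.nice.noflip (g'⁻¹ * g).2 (unit ha.1) e'
    have he : ∀ a ∈ R, ∀ b ∈ R, ∀ g g' : Γ, (g : SL(2, ℝ)) • a = (g' : SL(2, ℝ)) • b → a = b :=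
      fun a ha b hb g g' e => hR' a ha b hb ⟨_, (g'⁻¹ * g).2, Or.inl (by
        rw [Subgroup.coe_mul, Subgroup.coe_inv, mul_smul, e, inv_smul_smul])⟩
    rintro _ ⟨a, ha, g, rfl | rfl⟩ _ ⟨b, hb, g', rfl | rfl⟩ e <;>
      simp only [smul_a, hu a ha.1, hv a ha.1, hu b hb.1, hv b hb.1, smul_neg, neg_inj] at e
    · obtain rfl := he a ha b hb g g' e
      exact ⟨g' * g⁻¹, by simp only [hs]⟩
    · exact absurd e (hf a ha b hb g g')
    · exact absurd e.symm (hf b hb a ha g' g)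
    · obtain rfl := he a ha b hb g g' e
      exact ⟨g' * g⁻¹, by simp only [hs]⟩
  · rintro _ ⟨a, ha, g, rfl | rfl⟩
    · exact h1 g _ _ (hQ a ha.1)
    · exact h1 g _ _ (h2 _ _ (by rw [hu a ha.1, hv a ha.1]) (hQ a ha.1))

lemma Base.snd_eq (Bs : T.Base) {β β' β'' : T.D} (h : (β, β') ∈ Bs.S) (h' : (β, β'') ∈ Bs.S) :
    β'' = β' := by
  obtain ⟨g, e⟩ := Bs.uniq _ h _ h' rfl
  obtain ⟨e1, e2⟩ := Prod.ext_iff.1 e
  rw [show β'' = g • β' from e2, ← smul_of_pm (g := 1) (pm_of_smul_eq e1.symm), one_smul]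

lemma Base.not_orbit (Bs : T.Base) {p : T.D × T.D} (h : p ∈ Bs.S) (g : Γ) : g • p.1 ≠ p.2 :=
  fun e => T.nice.noflip g.2 p.1.a_unit (by rw [← Bs.opp p h, ← e, smul_a])

lemma Base.conn (Bs : T.Base) {U : Set T.D} (h1 : ∀ d ∈ U, T.ι d ∈ U) (h2 : ∀ d ∈ U, T.ν d ∈ U)
    (h3 : ∀ p ∈ Bs.S, p.1 ∈ U → p.2 ∈ U) (h4 : U.Nonempty) : U = Set.univ := by
  refine conn_darts h1 h2 (fun a ha => ?_) h4
  obtain ⟨p, hp, e⟩ := Bs.ex a ha
  exact ⟨p.1, p.2, e, by rw [Bs.opp p hp, e], h3 p hp⟩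

lemma f_opp {d d' : T.D} (h : d'.a = -d.a) {γ : Γ} (e : (T.φ ^ d.f) d = γ • d) :
    (T.φ ^ d'.f) (γ • d') = d' := by
  obtain ⟨t, ht⟩ := T.nice.exists_prim (T.ws.per _ d.a_mem)
  have h1 := (d.pm_of_f ht e).inv
  rw [← ex_neg, ← ex_neg_right, ← h] at h1
  rw [φ_pow_smul, d'.f_spec (γ := γ⁻¹) (h ▸ ht.neg) h1, smul_inv_smul]

omit [AddCommGroup M] [Module ℝ M] in
lemma BaseL_const {F : T.D → M} (hF : ∀ d, F (T.φ d) = F d) {d e : T.D} (h : e.a = d.a) :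
    F e = F d := by
  obtain ⟨i, rfl⟩ := fan h
  induction i using Int.induction_on with
  | zero => rfl
  | succ i ih => rw [add_comm, zpow_add, zpow_one, Equiv.Perm.mul_apply, hF, ih (φ_zpow_a _ _)]
  | pred i ih =>
    rw [← hF, ← Equiv.Perm.mul_apply, ← zpow_one_add, add_sub_cancel, ih (φ_zpow_a _ _)]

omit [Module ℝ M] in
lemma BaseL_int (u : ℤ → M) : ∃ σ : ℤ → M, ∀ i, σ (i + 1) = σ i + u (i + 1) := by
  refine ⟨fun i => ∑ m ∈ range i.toNat, u (m + 1) - ∑ m ∈ range (-i).toNat, u (-m), fun i => ?_⟩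
  rcases le_or_gt 0 i with hi | hi
  · lift i to ℕ using hi
    have h1 : (-((i : ℤ) + 1)).toNat = 0 := by omega
    have h2 : (-(i : ℤ)).toNat = 0 := by omega
    have h3 : ((i : ℤ) + 1).toNat = i + 1 := by omega
    simp only [h1, h2, h3, Int.toNat_natCast, sum_range_succ, sum_range_zero, sub_zero]
  · obtain ⟨n, rfl⟩ : ∃ n : ℕ, i = -n - 1 := ⟨(-i - 1).toNat, by omega⟩
    have h1 : (-(n : ℤ) - 1).toNat = 0 := by omega
    have h2 : (-(n : ℤ)).toNat = 0 := by omega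
    have h3 : (-(-(n : ℤ) - 1)).toNat = n + 1 := by omega
    simp only [sub_add_cancel, h1, h2, h3, neg_neg, Int.toNat_natCast, sum_range_succ,
      sum_range_zero]
    abel

omit [Module ℝ M] in
lemma BaseL_pot (h : T.D → M) : ∃ Ψ : T.D → M, ∀ d, Ψ (T.φ d) = Ψ d + h (T.φ d) := by
  have h1 : ∀ a ∈ T.A, ∃ d : T.D, d.a = a := fun a ha =>
    (T.has a ha).elim fun b hb => ⟨⟨(a, b), hb⟩, rfl⟩
  choose! b hb using h1
  choose σ hσ using fun d : T.D => BaseL_int fun i => h ((T.φ ^ i) d)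
  choose n hn using fun d : T.D => fan (hb d.a d.a_mem).symm
  refine ⟨fun d => σ (b d.a) (n d), fun d => ?_⟩
  have h2 : T.φ d = (T.φ ^ (n d + 1)) (b d.a) := by
    rw [add_comm, zpow_add, zpow_one, Equiv.Perm.mul_apply, ← hn]
  have h3 := hn (T.φ d)
  rw [φ_a] at h3
  have h4 : n (T.φ d) = n d + 1 :=
    (r_zpow_strictMono (b d.a)).injective (congrArg D.r (h3.symm.trans h2))
  simp only [φ_a, h4, hσ, ← h2]

omit [Module ℝ M] in
lemma BaseL_pow {h Ψ : T.D → M} (hΨ : ∀ d, Ψ (T.φ d) = Ψ d + h (T.φ d)) (d : T.D) (n : ℕ) :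
    Ψ ((T.φ ^ n) d) = Ψ d + ∑ m ∈ range n, h ((T.φ ^ (m + 1)) d) := by
  induction n with
  | zero => simp
  | succ n ih => rw [sum_range_succ, pow_succ', Equiv.Perm.mul_apply, hΨ, ih, add_assoc]

lemma BaseL_fix {n k : V} (hn : B n n = 1) (hk : B k n = 0) {t : ℝ} (ht : t ≠ 0)
    (e : ex t n • k = k) : k = 0 := by
  rw [B_comm] at hk
  rw [ex_ad_perp hn hk] at e
  have e2 := congrArg (cr n) e
  rw [cr_add_right, cr_smul_right, cr_smul_right, cr_cr, hn, hk, one_smul, zero_smul,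
    sub_zero] at e2
  have h1 : 1 < Real.cosh (2 * t) := Real.one_lt_cosh.2 (mul_ne_zero two_ne_zero ht)
  have h2 := Real.cosh_sq (2 * t)
  have e3 : (2 - 2 * Real.cosh (2 * t)) • k = 0 := by
    linear_combination (norm := module) (Real.cosh (2 * t) - 1) • e - Real.sinh (2 * t) • e2 - h2 • k
  exact (smul_eq_zero.1 e3).resolve_left (by linarith)

/-- Extension of jumps from base pairs to all pairs. -/
theorem exK (Bs : T.Base) (ρ : Γ → M →ₗ[ℝ] M) (s : ℝ) (hs : s * s = 1) (h : T.D → M)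
    (hh : ∀ (g : Γ) d, h (g • d) = ρ g (h d)) (K0 : T.D → T.D → M)
    (e1 : ∀ g : Γ, ∀ p ∈ Bs.S, K0 (g • p.1) (g • p.2) = ρ g (K0 p.1 p.2))
    (e2 : ∀ p ∈ Bs.S, K0 p.2 p.1 = s • K0 p.1 p.2)
    (e3 : ∀ p ∈ Bs.S, ∀ γ : Γ, (T.φ ^ p.1.f) p.1 = γ • p.1 →
      K0 (γ • p.1) (γ • p.2) = K0 p.1 p.2 + ∑ m ∈ range p.1.f, h ((T.φ ^ (m + 1)) p.1) -
        s • ∑ m ∈ range p.2.f, h ((T.φ ^ (m + 1)) (γ • p.2))) :
    ∃ K : T.D → T.D → M, (∀ p ∈ Bs.S, K p.1 p.2 = K0 p.1 p.2) ∧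
      (∀ (g : Γ) d d', d'.a = -d.a → K (g • d) (g • d') = ρ g (K d d')) ∧
      (∀ d d', d'.a = -d.a → K d' d = s • K d d') ∧
      ∀ d d', d'.a = -d.a → K (T.φ d) d' = K d d' + h (T.φ d) := by
  obtain ⟨Ψ, hΨ⟩ := BaseL_pot h
  have hρ : ∀ (g : Γ) (d e : T.D), e.a = d.a → Ψ (g • e) - ρ g (Ψ e) = Ψ (g • d) - ρ g (Ψ d) :=
    fun g d e he => BaseL_const (F := fun d => Ψ (g • d) - ρ g (Ψ d)) (fun d => by
      rw [← φ_smul, hΨ, hΨ, φ_smul, hh, map_add]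
      abel) he
  let C : T.D × T.D → M := fun p => K0 p.1 p.2 - Ψ p.1 - s • Ψ p.2
  have hC : ∀ p ∈ Bs.S, ∀ q ∈ Bs.S, p.1.a = q.1.a → C q = C p := by
    intro p hp q hq e
    obtain ⟨g, rfl⟩ := Bs.uniq p hp q hq e
    obtain ⟨t, ht⟩ := T.nice.exists_prim (T.ws.per _ p.1.a_mem)
    obtain ⟨m, hm⟩ := ht.gen g g.2 e.symm
    let γ : Γ := ⟨ex t p.1.a, ht.mem⟩⁻¹
    have hγ : (γ : SL(2, ℝ)) = ex (-t) p.1.a := (ex_neg _ _).symm
    have h1 : ∀ q ∈ Bs.S, q.1.a = p.1.a → C (γ • q.1, γ • q.2) = C q := fun q hq e => by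
      have h2 := q.1.f_spec (γ := γ) (e ▸ ht) (by rw [e, hγ]; exact PM.refl _)
      have h3 := BaseL_pow hΨ q.1 q.1.f
      have h4 := BaseL_pow hΨ (γ • q.2) q.2.f
      rw [f_opp (Bs.opp q hq) h2] at h4
      rw [h2] at h3
      simp only [C, e3 q hq γ h2, h3, h4, smul_add]
      abel
    have h2 : ∀ i : ℤ, ((γ ^ i) • p.1).a = p.1.a := fun i => by
      rw [smul_a, Subgroup.coe_zpow, hγ, ex_zpow, ex_ad_self]
    have h3 : ∀ i : ℤ, C ((γ ^ (1 + i)) • p.1, (γ ^ (1 + i)) • p.2) =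
        C ((γ ^ i) • p.1, (γ ^ i) • p.2) := fun i => by
      rw [zpow_one_add, mul_smul, mul_smul]
      exact h1 _ (Bs.inv _ p hp) (h2 i)
    have h4 : ∀ i : ℤ, C ((γ ^ i) • p.1, (γ ^ i) • p.2) = C p := fun i => by
      induction i using Int.induction_on with
      | zero => simp
      | succ i ih => rw [add_comm, h3, ih]
      | pred i ih => rw [← h3, add_sub_cancel, ih]
    have h5 : PM ((γ ^ (-m) : Γ) : SL(2, ℝ)) g := by
      rwa [Subgroup.coe_zpow, hγ, ex_zpow, Int.cast_neg, neg_mul_neg]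
    rw [← smul_of_pm h5, ← smul_of_pm h5, h4]
  choose! b hb hb' using Bs.ex
  have hK : ∀ p ∈ Bs.S, ∀ d : T.D, d.a = p.1.a → C (b d.a) = C p := fun p hp d e =>
    hC p hp _ (hb _ d.a_mem) (by rw [hb' _ d.a_mem, e])
  refine ⟨fun d d' => C (b d.a) + Ψ d + s • Ψ d', fun p hp => ?_, fun g d d' e => ?_,
    fun d d' e => ?_, fun d d' _ => ?_⟩
  · simp only [hK p hp p.1 rfl, C]
    abel
  · have hp := hb _ d.a_mem
    have h1 := hb' _ d.a_mem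
    have h2 := hρ g d _ h1
    have h3 := hρ g d' (b d.a).2 (by rw [Bs.opp _ hp, h1, e])
    simp only [hK _ (Bs.inv g _ hp) (g • d) (by rw [smul_a, smul_a, h1])]
    simp only [C, e1 g _ hp, map_add, map_sub, map_smul]
    linear_combination (norm := module) -h2 - s • h3
  · have hp := hb _ d.a_mem
    simp only [hK _ (Bs.symm _ hp) d' (by rw [Bs.opp _ hp, hb' _ d.a_mem, e])]
    simp only [C, e2 _ hp, smul_add, smul_sub, smul_smul, hs, one_smul]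
    abel
  · simp only [φ_a, hΨ]
    abel

/-- Balanced jumps in `V` extend across the walls. -/
theorem exK_V (h : T.D → V) (hh : ∀ (g : Γ) d, h (g • d) = (g : SL(2, ℝ)) • h d)
    (bal : ∀ d d' : T.D, d'.a = -d.a → B (∑ m ∈ range d.f, h ((T.φ ^ (m + 1)) d)) d.a =
      B (∑ m ∈ range d'.f, h ((T.φ ^ (m + 1)) d')) d'.a) :
    ∃ K : T.D → T.D → V,
      (∀ (g : Γ) d d', d'.a = -d.a → K (g • d) (g • d') = (g : SL(2, ℝ)) • K d d') ∧
      (∀ d d', d'.a = -d.a → K d' d = -K d d') ∧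
      ∀ d d', d'.a = -d.a → K (T.φ d) d' = K d d' + h (T.φ d) := by
  obtain ⟨Bs, -⟩ := exists_base (T := T) (fun _ _ => True) (fun _ _ _ _ => trivial)
    (fun _ _ _ _ => trivial) fun a ha => by
      obtain ⟨b, hb⟩ := T.has a ha
      obtain ⟨b', hb'⟩ := T.has _ (T.ws.neg a ha)
      exact ⟨⟨(a, b), hb⟩, ⟨(-a, b'), hb'⟩, rfl, rfl, trivial⟩
  let Sol : T.D → T.D → V → Prop := fun d d' k => B k d.a = 0 ∧ ∀ γ : Γ,
    (T.φ ^ d.f) d = γ • d → (γ : SL(2, ℝ)) • k - k = ∑ m ∈ range d.f, h ((T.φ ^ (m + 1)) d) +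
      ∑ m ∈ range d'.f, h ((T.φ ^ (m + 1)) (γ • d'))
  have hs : ∀ (g : Γ) (d : T.D) (n : ℕ), ∑ m ∈ range n, h ((T.φ ^ (m + 1)) (g • d)) =
      (g : SL(2, ℝ)) • ∑ m ∈ range n, h ((T.φ ^ (m + 1)) d) := fun g d n => by
    simp only [φ_pow_smul, hh, smul_sum]
  have hex : ∀ d d' : T.D, d'.a = -d.a → ∃! k, Sol d d' k := fun d d' e => by
    obtain ⟨t, ht⟩ := T.nice.exists_prim (T.ws.per _ d.a_mem)
    let γ : Γ := ⟨ex t d.a, ht.mem⟩⁻¹
    have hγ : (γ : SL(2, ℝ)) = ex (-t) d.a := (ex_neg _ _).symm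
    have ht' : -t ≠ 0 := neg_ne_zero.2 ht.pos.ne'
    have h1 : (γ • d').a = -d.a := by rw [smul_a, e, smul_neg, hγ, ex_ad_self]
    have h2 := bal d _ h1
    rw [f_smul, h1, B_neg_right] at h2
    obtain ⟨k, hk⟩ := exists_ad_sub (v := ∑ m ∈ range d.f, h ((T.φ ^ (m + 1)) d) +
      ∑ m ∈ range d'.f, h ((T.φ ^ (m + 1)) (γ • d'))) d.a_unit ht' (by
        rw [B_add_left, h2, neg_add_cancel])
    have h3 : Sol d d' (k - B k d.a • d.a) := by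
      refine ⟨by simp [d.a_unit], fun g hg => ?_⟩
      have h4 := d.pm_of_f ht hg
      rw [← h4.ad, ← smul_of_pm (g := γ) (hγ ▸ h4), ← hk, smul_sub, ad_real, ex_ad_self]
      abel
    refine ⟨_, h3, fun k' h4 => sub_eq_zero.1 (BaseL_fix d.a_unit
      (by rw [B_sub_left, h4.1, h3.1, sub_zero]) ht' ?_)⟩
    have h5 := d.f_spec (γ := γ) ht (hγ ▸ PM.refl _)
    have h6 := (h4.2 γ h5).trans (h3.2 γ h5).symm
    rw [← hγ, smul_sub]
    linear_combination (norm := abel1) h6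
  choose! K0 hK0 hU using hex
  have e1 : ∀ (g : Γ) (d d' : T.D), d'.a = -d.a →
      K0 (g • d) (g • d') = (g : SL(2, ℝ)) • K0 d d' := fun g d d' e => by
    refine (hU _ _ (by rw [smul_a, smul_a, e, smul_neg]) _
      ⟨by rw [smul_a, B_ad, (hK0 d d' e).1], fun γ hγ => ?_⟩).symm
    rw [f_smul, φ_pow_smul, ← eq_inv_smul_iff, ← mul_smul, ← mul_smul] at hγ
    have h1 := congrArg ((g : SL(2, ℝ)) • ·) ((hK0 d d' e).2 _ hγ)
    simp only [smul_sub, smul_add, ← hs, mul_smul, Subgroup.coe_mul, Subgroup.coe_inv,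
      smul_inv_smul] at h1
    rw [f_smul, f_smul, h1]
  have e2 : ∀ d d' : T.D, d'.a = -d.a → K0 d' d = (-1 : ℝ) • K0 d d' := fun d d' e => by
    have e' : d.a = -d'.a := by rw [e, neg_neg]
    refine (hU _ _ e' _ ⟨by simp [e, (hK0 _ _ e).1], fun γ hγ => ?_⟩).symm
    have h1 := f_opp e' hγ
    rw [φ_pow_smul, ← eq_inv_smul_iff] at h1
    have h2 := congrArg ((γ : SL(2, ℝ)) • ·) ((hK0 _ _ e).2 _ h1)
    simp only [smul_sub, smul_add, ← hs, Subgroup.coe_inv, smul_inv_smul] at h2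
    rw [neg_one_smul, smul_neg]
    linear_combination (norm := abel1) h2
  obtain ⟨K, -, k1, k2, k3⟩ := exK Bs (fun g => DistribSMul.toLinearMap ℝ V (g : SL(2, ℝ))) (-1)
    (by norm_num) h hh K0 (fun g p hp => e1 g _ _ (Bs.opp p hp))
    (fun p hp => e2 _ _ (Bs.opp p hp)) fun p hp γ hγ => by
      rw [e1 γ _ _ (Bs.opp p hp), neg_one_smul]
      linear_combination (norm := abel1) (hK0 _ _ (Bs.opp p hp)).2 γ hγ
  exact ⟨K, k1, fun d d' e => by rw [k2 d d' e, neg_one_smul], k3⟩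

end Tr

end

end Pool.Agent.P.MP_d39174_gt
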