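import Pool.Agent.P.MP_d39174_gt.MdlDef

/-! Merging and splitting cycles. -/

set_option linter.unusedSectionVars false

namespace Pool.Agent.P.MP_d39174_gt

open UpperHalfPlane MatrixGroups

noncomputable section

open Equiv Equiv.Perm

variable {X : Type} [Fintype X] [DecidableEq X]

omit [DecidableEq X] in
/-- A set closed under `σ` is a union of cycles. -/
lemma PermA_closed {σ : Perm X} {U : X → Prop} (hU : ∀ a, U a → U (σ a)) {a b : X}
    (h : σ.SameCycle a b) (ha : U a) : U b := by
  obtain ⟨i, rfl⟩ := h.exists_nat_pow_eq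
  induction i with
  | zero => exact ha
  | succ i ih => rw [pow_succ', Perm.mul_apply]; exact hU _ (ih ⟨i, by simp⟩)

omit [DecidableEq X] in
lemma PermA_imp {σ τ : Perm X} (hs : ∀ a, τ.SameCycle a (σ a)) {a b : X}
    (h : σ.SameCycle a b) : τ.SameCycle a b :=
  PermA_closed (U := fun b => τ.SameCycle a b) (fun b hb => hb.trans (hs b)) h (SameCycle.refl _ _)

omit [DecidableEq X] in
lemma PermA_le {σ τ : Perm X} (h : ∀ a b, σ.SameCycle a b → τ.SameCycle a b) : cyc τ ≤ cyc σ := by
  refine Nat.card_le_card_of_surjective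
    (Quotient.map' (s₁ := SameCycle.setoid σ) (s₂ := SameCycle.setoid τ) id h) fun q => ?_
  induction q using Quotient.inductionOn with
  | h a => exact ⟨Quotient.mk _ a, rfl⟩

omit [DecidableEq X] in
lemma PermA_pos (σ : Perm X) (a : X) : 0 < Function.minimalPeriod σ a :=
  Function.minimalPeriod_pos_of_mem_periodicPts (σ.injective.mem_periodicPts a)

lemma PermA_card (σ : Perm X) (a : X) :
    (Finset.univ.filter fun b => σ.SameCycle a b).card = Function.minimalPeriod σ a := by
  refine Finset.card_eq_of_bijective (fun i _ => σ^[i] a) (fun b hb => ?_) (fun i _ => ?_)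
    (fun i j hi hj e => Function.iterate_injOn_Iio_minimalPeriod hi hj e)
  · obtain ⟨i, rfl⟩ := (Finset.mem_filter.1 hb).2.exists_nat_pow_eq
    exact ⟨i % Function.minimalPeriod σ a, Nat.mod_lt _ (PermA_pos σ a),
      Function.iterate_mod_minimalPeriod_eq⟩
  · exact Finset.mem_filter.2 ⟨Finset.mem_univ _, ⟨i, by rw [zpow_natCast]; rfl⟩⟩

/-- Merging two classes lowers the number of classes by one. -/
lemma card_quot_merge {r r' : Setoid X} {x y : X} (h : ¬ r x y)
    (e : ∀ a b, r' a b ↔ r a b ∨ ((r a x ∨ r a y) ∧ (r b x ∨ r b y))) :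
    Nat.card (Quotient r') + 1 = Nat.card (Quotient r) := by
  classical
  rw [← Nat.card_congr (optionSubtypeNe (Quotient.mk r y)), Finite.card_option]
  congr 1
  symm
  refine Nat.card_eq_of_bijective (fun q => Quotient.map' (s₁ := r) (s₂ := r') id
    (fun a b hab => (e a b).2 (Or.inl hab)) q.1) ⟨?_, fun q => ?_⟩
  · rintro ⟨p, hp⟩ ⟨q, hq⟩ hpq
    induction p using Quotient.inductionOn with
    | h a =>
    induction q using Quotient.inductionOn with
    | h b =>
    have h1 : r' a b := Quotient.exact hpq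
    have ha : ¬ r a y := fun h => hp (Quotient.sound h)
    have hb : ¬ r b y := fun h => hq (Quotient.sound h)
    refine Subtype.ext (Quotient.sound ?_)
    rcases (e a b).1 h1 with h2 | ⟨h2, h3⟩
    · exact h2
    · exact r.trans (h2.resolve_right ha) (r.symm (h3.resolve_right hb))
  · induction q using Quotient.inductionOn with
    | h a =>
    by_cases ha : r a y
    · refine ⟨⟨Quotient.mk r x, fun h' => h (Quotient.exact h')⟩, Quotient.sound ?_⟩
      exact (e x a).2 (Or.inr ⟨Or.inl (r.refl x), Or.inr ha⟩)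
    · exact ⟨⟨Quotient.mk r a, fun h' => ha (Quotient.exact h')⟩, rfl⟩

lemma sameCycle_mul_swap {σ : Perm X} {x y : X} (h : ¬ σ.SameCycle x y) (a b : X) :
    (σ * swap x y).SameCycle a b ↔ σ.SameCycle a b ∨
      ((σ.SameCycle a x ∨ σ.SameCycle a y) ∧ (σ.SameCycle b x ∨ σ.SameCycle b y)) := by
  have ex : (σ * swap x y) x = σ y := by simp
  have ey : (σ * swap x y) y = σ x := by simp
  have eo : ∀ c, c ≠ x → c ≠ y → (σ * swap x y) c = σ c := fun c h1 h2 => by
    rw [Perm.mul_apply, swap_apply_of_ne_of_ne h1 h2]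
  constructor
  · intro hab
    refine PermA_closed (U := fun b => σ.SameCycle a b ∨
      ((σ.SameCycle a x ∨ σ.SameCycle a y) ∧ (σ.SameCycle b x ∨ σ.SameCycle b y))) (fun c hc => ?_)
      hab (Or.inl (SameCycle.refl _ _))
    by_cases h1 : c = x
    · subst h1
      rw [ex]
      exact Or.inr ⟨hc.elim Or.inl And.left, Or.inr (sameCycle_apply_left.2 (SameCycle.refl _ _))⟩
    by_cases h2 : c = y
    · subst h2
      rw [ey]
      exact Or.inr ⟨hc.elim Or.inr And.left, Or.inl (sameCycle_apply_left.2 (SameCycle.refl _ _))⟩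
    rw [eo c h1 h2]
    simpa only [sameCycle_apply_left, sameCycle_apply_right] using hc
  · have hxy : (σ * swap x y).SameCycle x y := by
      by_contra hn
      refine hn (PermA_closed (σ := σ)
        (U := fun c => (σ * swap x y).SameCycle x c ∧ σ.SameCycle y c) (fun c hc => ?_)
        (a := σ y) (b := y) (sameCycle_apply_left.2 (SameCycle.refl _ _))
        ⟨ex ▸ sameCycle_apply_right.2 (SameCycle.refl _ _),
          sameCycle_apply_right.2 (SameCycle.refl _ _)⟩).1
      have h1 : c ≠ x := fun e => h (e ▸ hc.2).symm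
      have h2 : c ≠ y := fun e => hn (e ▸ hc.1)
      exact ⟨eo c h1 h2 ▸ sameCycle_apply_right.2 hc.1, sameCycle_apply_right.2 hc.2⟩
    have hs : ∀ c, (σ * swap x y).SameCycle c (σ c) := fun c => by
      by_cases h1 : c = x
      · subst h1
        exact ey ▸ sameCycle_apply_right.2 hxy
      by_cases h2 : c = y
      · subst h2
        exact ex ▸ sameCycle_apply_right.2 hxy.symm
      exact eo c h1 h2 ▸ sameCycle_apply_right.2 (SameCycle.refl _ _)
    have hx : ∀ c, σ.SameCycle c x ∨ σ.SameCycle c y → (σ * swap x y).SameCycle c x := fun c hc =>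
      hc.elim (PermA_imp hs) fun h' => (PermA_imp hs h').trans hxy.symm
    rintro (hab | ⟨h1, h2⟩)
    · exact PermA_imp hs hab
    · exact (hx a h1).trans (hx b h2).symm

lemma cyc_mul_swap {σ : Perm X} {x y : X} (h : ¬ σ.SameCycle x y) :
    cyc (σ * swap x y) + 1 = cyc σ :=
  card_quot_merge (r := SameCycle.setoid σ) (r' := SameCycle.setoid (σ * swap x y)) h
    (sameCycle_mul_swap h)

lemma cyc_mul_swap_le (σ : Perm X) (x y : X) : cyc (σ * swap x y) ≤ cyc σ + 1 := by
  by_cases h : (σ * swap x y).SameCycle x y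
  · refine (PermA_le fun a b => PermA_imp fun c => ?_).trans (Nat.le_succ _)
    have e : σ c = (σ * swap x y) (swap x y c) := by simp
    rw [e, sameCycle_apply_right]
    by_cases h1 : c = x
    · subst h1
      rwa [swap_apply_left]
    by_cases h2 : c = y
    · subst h2
      rw [swap_apply_right]
      exact h.symm
    rw [swap_apply_of_ne_of_ne h1 h2]
  · have := cyc_mul_swap h
    rw [mul_assoc, swap_mul_self, mul_one] at this
    omega

lemma cyc_inv (σ : Perm X) : cyc σ⁻¹ = cyc σ :=
  le_antisymm (PermA_le fun _ _ => sameCycle_inv.2) (PermA_le fun _ _ => sameCycle_inv.1)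

lemma cyc_permCongr {Y : Type} [Fintype Y] [DecidableEq Y] (e : X ≃ Y) (σ : Perm X) :
    cyc (e.permCongr σ) = cyc σ := by
  refine (Nat.card_congr (Quotient.congr (ra := SameCycle.setoid σ)
    (rb := SameCycle.setoid (e.permCongr σ)) e fun a b => ?_)).symm
  have hz : ∀ i : ℤ, (e.permCongr σ) ^ i = e.permCongr (σ ^ i) := fun i =>
    (map_zpow e.permCongrHom σ i).symm
  change σ.SameCycle a b ↔ (e.permCongr σ).SameCycle (e a) (e b)
  simp only [SameCycle, hz, permCongr_apply, symm_apply_apply, EmbeddingLike.apply_eq_iff_eq]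

lemma cyc_eq_one_iff [Nonempty X] (σ : Perm X) : cyc σ = 1 ↔ ∀ a b, σ.SameCycle a b := by
  rw [cyc, Nat.card_eq_one_iff_unique]
  constructor
  · rintro ⟨h, -⟩ a b
    exact Quotient.exact (s := SameCycle.setoid σ) (Subsingleton.elim _ _)
  · intro h
    refine ⟨⟨fun p q => ?_⟩, ⟨Quotient.mk _ (Classical.arbitrary X)⟩⟩
    induction p using Quotient.inductionOn with
    | h a =>
    induction q using Quotient.inductionOn with
    | h b => exact Quotient.sound (h a b)

lemma exists_rotate {σ : Perm X} (h : cyc σ = 1) :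
    ∃ e : X ≃ Fin (Fintype.card X), e.permCongr σ = finRotate _ := by
  obtain ⟨q⟩ := (Nat.card_eq_one_iff_unique.1 h).2
  have x₀ : X := q.out
  have : Nonempty X := ⟨x₀⟩
  have hall := (cyc_eq_one_iff σ).1 h
  have hm : Function.minimalPeriod σ x₀ = Fintype.card X := by
    rw [← PermA_card, Finset.filter_true_of_mem fun b _ => hall x₀ b, Finset.card_univ]
  have hb : Function.Bijective fun i : Fin (Fintype.card X) => σ^[i] x₀ := by
    refine (Fintype.bijective_iff_injective_and_card _).2 ⟨fun i j e => Fin.ext ?_, by simp⟩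
    exact Function.iterate_injOn_Iio_minimalPeriod (i.2.trans_eq hm.symm) (j.2.trans_eq hm.symm) e
  have hmod : ∀ k, σ^[k % Fintype.card X] x₀ = σ^[k] x₀ := fun k => by
    rw [← hm, Function.iterate_mod_minimalPeriod_eq]
  refine ⟨(Equiv.ofBijective _ hb).symm, Equiv.ext fun i => ?_⟩
  rw [permCongr_apply, symm_symm, Equiv.symm_apply_eq, ofBijective_apply, ofBijective_apply,
    finRotate_apply, Fin.val_add, Fin.val_one', Nat.add_mod_mod, hmod,
    Function.iterate_succ_apply']

lemma three_mul_cyc {ν : Perm X} (h : ∀ d, ν (ν (ν d)) = d) (h' : ∀ d, ν d ≠ d) :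
    3 * cyc ν = Fintype.card X := by
  classical
  have : Fact (Nat.Prime 3) := ⟨Nat.prime_three⟩
  let := Fintype.ofFinite (Quotient (SameCycle.setoid ν))
  rw [← Finset.card_univ, Finset.card_eq_sum_card_fiberwise
    (f := Quotient.mk (SameCycle.setoid ν)) (t := Finset.univ) fun _ _ => Finset.mem_univ _,
    cyc, Nat.card_eq_fintype_card, ← Finset.card_univ, mul_comm, ← smul_eq_mul,
    ← Finset.sum_const]
  refine Finset.sum_congr rfl fun q _ => ?_
  induction q using Quotient.inductionOn with
  | h a =>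
  rw [← Function.minimalPeriod_eq_prime (f := ν) (p := 3) (x := a) (h a) (h' a), ← PermA_card]
  congr 1
  ext b
  simp only [Finset.mem_filter, Finset.mem_univ, true_and]
  exact ⟨fun hb => Quotient.sound hb.symm, fun hb => (Quotient.exact hb).symm⟩

lemma cyc_eq_card {σ : Perm X} {s : Finset X} (h : ∀ d, ∃ i : ℕ, (σ ^ i) d ∈ s)
    (h' : ∀ a ∈ s, ∀ b ∈ s, σ.SameCycle a b → a = b) : cyc σ = s.card := by
  rw [← Fintype.card_coe, ← Nat.card_eq_fintype_card]
  refine (Nat.card_eq_of_bijective (fun a : s => Quotient.mk (SameCycle.setoid σ) a.1)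
    ⟨fun a b e => Subtype.ext (h' _ a.2 _ b.2 (Quotient.exact e)), fun q => ?_⟩).symm
  induction q using Quotient.inductionOn with
  | h a =>
  obtain ⟨i, hi⟩ := h a
  exact ⟨⟨_, hi⟩, Quotient.sound (sameCycle_pow_left.2 (SameCycle.refl _ _))⟩

lemma sum_minimalPeriod_le {σ : Perm X} {s : Finset X}
    (h' : ∀ a ∈ s, ∀ b ∈ s, σ.SameCycle a b → a = b) :
    ∑ a ∈ s, Function.minimalPeriod σ a ≤ Fintype.card X := by
  simp only [← PermA_card]
  rw [← Finset.card_biUnion]
  · exact Finset.card_le_univ _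
  · intro a ha b hb hab
    refine Finset.disjoint_left.2 fun c h1 h2 => hab (h' a ha b hb ?_)
    exact (Finset.mem_filter.1 h1).2.trans (Finset.mem_filter.1 h2).2.symm

/-- Spanning tree: a part of the involution `j` that joins all cycles of `σ` into one. -/
lemma exists_tree [Nonempty X] (σ j : Perm X) (hj : ∀ x, j (j x) = x)
    (h : ∀ U : Set X, (∀ d ∈ U, σ d ∈ U) → (∀ d ∈ U, j d ∈ U) → U.Nonempty → U = Set.univ) :
    ∃ t : Perm X, (∀ x, t x = x ∨ t x = j x) ∧ (∀ x, t (t x) = x) ∧ cyc (σ * t) = 1 ∧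
      t.support.card + 2 = 2 * cyc σ := by
  induction hn : cyc σ using Nat.strong_induction_on generalizing σ j with
  | _ n ih =>
  by_cases h1 : ∀ x, σ.SameCycle x (j x)
  · have h2 : cyc σ = 1 := (cyc_eq_one_iff σ).2 fun a b => by
      have := h {c | σ.SameCycle a c} (fun d hd => sameCycle_apply_right.2 hd)
        (fun d hd => SameCycle.trans hd (h1 d)) ⟨a, SameCycle.refl _ _⟩
      exact (this.symm ▸ Set.mem_univ b : b ∈ {c | σ.SameCycle a c})
    exact ⟨1, fun _ => Or.inl rfl, fun _ => rfl, by rwa [mul_one], by simp [← hn, h2]⟩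
  obtain ⟨x, hx⟩ := not_forall.1 h1
  have hne : x ≠ j x := fun e => hx (e ▸ SameCycle.refl _ _)
  have hc := cyc_mul_swap hx
  have e1 : (j * swap x (j x)) x = x := by simp [hj]
  have e2 : (j * swap x (j x)) (j x) = j x := by simp
  have e3 : ∀ c, c ≠ x → c ≠ j x → (j * swap x (j x)) c = j c := fun c a b => by
    rw [Perm.mul_apply, swap_apply_of_ne_of_ne a b]
  have e4 : ∀ c, c ≠ x → c ≠ j x → j c ≠ x ∧ j c ≠ j x := fun c a b =>
    ⟨fun e => b (by rw [← e, hj]), fun e => a (j.injective e)⟩
  obtain ⟨t, t1, t2, t3, t4⟩ := ih _ (by omega) (σ * swap x (j x)) (j * swap x (j x))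
    (fun c => by
      by_cases a : c = x
      · rw [a, e1, e1]
      by_cases b : c = j x
      · rw [b, e2, e2]
      rw [e3 c a b, e3 _ (e4 c a b).1 (e4 c a b).2, hj])
    (fun U hU hU' hne => by
      have hcl : ∀ a b, (σ * swap x (j x)).SameCycle a b → a ∈ U → b ∈ U := fun a b hab =>
        PermA_closed (U := fun c => c ∈ U) hU hab
      refine h U (fun d hd => hcl d _ ((sameCycle_mul_swap hx _ _).2
        (Or.inl (sameCycle_apply_right.2 (SameCycle.refl _ _)))) hd) (fun d hd => ?_) hne
      have hxy : (σ * swap x (j x)).SameCycle x (j x) := (sameCycle_mul_swap hx _ _).2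
        (Or.inr ⟨Or.inl (SameCycle.refl _ _), Or.inr (SameCycle.refl _ _)⟩)
      by_cases a : d = x
      · rw [a] at hd ⊢
        exact hcl _ _ hxy hd
      by_cases b : d = j x
      · rw [b] at hd ⊢
        rw [hj]
        exact hcl _ _ hxy.symm hd
      exact e3 d a b ▸ hU' d hd) rfl
  have f1 : t x = x := (t1 x).elim id fun e => e.trans e1
  have f2 : t (j x) = j x := (t1 (j x)).elim id fun e => e.trans e2
  have hd : Perm.Disjoint (swap x (j x)) t := fun c => by
    by_cases a : c = x
    · exact Or.inr (a ▸ f1)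
    by_cases b : c = j x
    · exact Or.inr (b ▸ f2)
    exact Or.inl (swap_apply_of_ne_of_ne a b)
  refine ⟨swap x (j x) * t, fun c => ?_, fun c => ?_, by rwa [← mul_assoc], ?_⟩
  · by_cases a : c = x
    · rw [a, Perm.mul_apply, f1, swap_apply_left]
      exact Or.inr rfl
    by_cases b : c = j x
    · rw [b, Perm.mul_apply, f2, swap_apply_right, hj]
      exact Or.inr rfl
    rcases t1 c with e | e
    · rw [Perm.mul_apply, e, swap_apply_of_ne_of_ne a b]
      exact Or.inl rfl
    · rw [Perm.mul_apply, e, e3 c a b, swap_apply_of_ne_of_ne (e4 c a b).1 (e4 c a b).2]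
      exact Or.inr rfl
  · rw [Perm.mul_apply, hd.commute.eq, Perm.mul_apply, t2, swap_apply_self]
  · rw [hd.card_support_mul, card_support_swap hne]
    omega

end

end Pool.Agent.P.MP_d39174_gt
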