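import Pool.Agent.P.MP_d39174_gt.Pot
import Pool.Agent.P.MP_d39174_gt.BaseL
import Pool.Agent.P.MP_d39174_gt.PermA

/-! The number of darts is bounded by the first Betti number. -/

namespace Pool.Agent.P.MP_d39174_gt

open UpperHalfPlane MatrixGroups

noncomputable section

open Module Finset

lemma betti_lin {P H A K : Type} [AddCommGroup P] [Module ℝ P] [AddCommGroup H] [Module ℝ H]
    [AddCommGroup A] [Module ℝ A] [AddCommGroup K] [Module ℝ K] [Module.Finite ℝ H]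
    [Module.Finite ℝ A] [Module.Finite ℝ K] (i : P →ₗ[ℝ] H) (hi : Function.Injective i)
    (Ψ : P →ₗ[ℝ] A × K) (L : A →ₗ[ℝ] K) (h : ∀ a k, L a = 0 → ∃ Φ, Ψ Φ = (a, k)) :
    finrank ℝ A ≤ finrank ℝ H := by
  have := Module.Finite.of_injective i hi
  have h1 := (L ∘ₗ LinearMap.fst ℝ A K).finrank_range_add_finrank_ker
  have h2 := Submodule.finrank_mono (show LinearMap.ker (L ∘ₗ LinearMap.fst ℝ A K) ≤
    LinearMap.range Ψ from fun v hv => h v.1 v.2 hv)
  have h3 := Ψ.finrank_range_le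
  have h4 := LinearMap.finrank_le_finrank_of_injective hi
  have h5 := (LinearMap.range (L ∘ₗ LinearMap.fst ℝ A K)).finrank_le
  rw [finrank_prod] at h1
  omega

namespace Tr

variable {Γ : Subgroup SL(2, ℝ)} {T : Tr Γ}

lemma betti_ι (g : Γ) (d : T.D) : T.ι d ≠ g • d := fun e => by
  have h1 : d.b = (g : SL(2, ℝ)) • d.a := congrArg D.a e
  have h2 : d.a = (g : SL(2, ℝ)) • d.b := congrArg D.b e
  have h3 := T.nice.pm_of_fix g.2 (p := d.a + d.b) (by
    simp only [B_add_left, B_add_right, d.a_unit, d.b_unit, B_comm d.b d.a]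
    linarith [d.B_lt]) (by rw [smul_add, ← h1, ← h2, add_comm])
  rw [← h3.ad, one_smul] at h1
  exact d.a_ne_b h1.symm

lemma betti_ν (g : Γ) (d : T.D) : T.ν d ≠ g • d := fun e => by
  have h1 : d.b = (g : SL(2, ℝ)) • d.a := congrArg D.a e
  have h2 : d.c = (g : SL(2, ℝ)) • d.b := congrArg D.b e
  have h4 : d.a = (g : SL(2, ℝ)) • d.c := by rw [← smul_c, ← e, ν_c]
  have b1 := d.B_lt
  have b2 := (T.ν d).B_lt
  have b3 := (T.ν (T.ν d)).B_lt
  simp only [ν_a, ν_b, ν_c] at b2 b3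
  have h3 := T.nice.pm_of_fix g.2 (p := d.a + d.b + d.c) (by
    simp only [B_add_left, B_add_right, d.a_unit, d.b_unit, d.c_unit, B_comm d.b d.a,
      B_comm d.c d.b, B_comm d.a d.c]
    linarith) (by rw [smul_add, smul_add, ← h1, ← h2, ← h4]; abel)
  rw [← h3.ad, one_smul] at h1
  exact d.a_ne_b h1.symm

/-- Functions on triangles that change by a constant under each element of the group. -/
def bettiP (T : Tr Γ) : Submodule ℝ (T.D → ℝ) where
  carrier := {Φ | (∀ d, Φ (T.ν d) = Φ d) ∧ ∀ g : Γ, ∃ c, ∀ d, Φ (g • d) = c + Φ d}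
  zero_mem' := ⟨fun _ => rfl, fun _ => ⟨0, fun _ => by simp⟩⟩
  add_mem' := fun {a b} ha hb => ⟨fun d => by simp only [Pi.add_apply, ha.1, hb.1], fun g => by
    obtain ⟨c, hc⟩ := ha.2 g
    obtain ⟨c', hc'⟩ := hb.2 g
    exact ⟨c + c', fun d => by simp only [Pi.add_apply, hc, hc']; ring⟩⟩
  smul_mem' := fun t a ha => ⟨fun d => by simp only [Pi.smul_apply, ha.1], fun g => by
    obtain ⟨c, hc⟩ := ha.2 g
    exact ⟨t * c, fun d => by simp only [Pi.smul_apply, hc, smul_eq_mul]; ring⟩⟩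

lemma betti_sub (Φ : bettiP T) (g : Γ) (d e : T.D) :
    Φ.1 (g • d) - Φ.1 d = Φ.1 (g • e) - Φ.1 e := by
  obtain ⟨c, hc⟩ := Φ.2.2 g
  rw [hc, hc]
  ring

/-- The periods. -/
def bettiH (d : T.D) : bettiP T →ₗ[ℝ] (Additive Γ →+ ℝ) where
  toFun Φ := AddMonoidHom.mk' (fun g => Φ.1 (g.toMul • d) - Φ.1 d) fun g h => by
    rw [toMul_add, mul_smul, betti_sub Φ g.toMul d (h.toMul • d)]
    ring
  map_add' a b := AddMonoidHom.ext fun g => by simp; ring
  map_smul' t a := AddMonoidHom.ext fun g => by simp; ring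

lemma betti_pot (Bs : T.Base) (j : T.D → ℝ) (k : T.D → ℝ) (h1 : ∀ d, j (T.ι d) = -j d)
    (h2 : ∀ (g : Γ) d, j (g • d) = j d) (h3 : ∀ (g : Γ) d, k (g • d) = k d)
    (h4 : ∀ p ∈ Bs.S, ∑ m ∈ range p.1.f, j ((T.φ ^ (m + 1)) p.1) +
      ∑ m ∈ range p.2.f, j ((T.φ ^ (m + 1)) p.2) = 0) :
    ∃ Φ : bettiP T, (∀ d, Φ.1 (T.ι d) - Φ.1 d = j d) ∧
      ∀ p ∈ Bs.S, Φ.1 p.2 - Φ.1 p.1 = k p.1 - k p.2 := by
  obtain ⟨K, a1, a2, a3, a4⟩ := exK Bs (fun _ => LinearMap.id) (-1) (by norm_num) j h2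
    (fun d d' => k d - k d') (fun g p _ => by simp [h3]) (fun p _ => by simp) (fun p hp γ _ => by
      simp only [h3, φ_pow_smul, h2, smul_eq_mul]
      linarith [h4 p hp])
  obtain ⟨Φ, b1, b2, b3⟩ := pot j K h1 (fun d d' e => by simpa using a3 d d' e) a4
  refine ⟨⟨Φ, b1, pot_equiv (fun _ => LinearMap.id) b1 b2 b3 h2 a2⟩, fun d => by simp [b2],
    fun p hp => ?_⟩
  simp [b3 _ _ (Bs.opp p hp), a1 p hp]

theorem card_le_betti [Module.Finite ℝ (Additive Γ →+ ℝ)] {D : Type} [Fintype D] {π : T.D → D}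
    (h1 : Function.Surjective π) (h2 : ∀ d e, π d = π e ↔ ∃ g : Γ, e = g • d) :
    Fintype.card D ≤ 6 * Module.finrank ℝ (Additive Γ →+ ℝ) := by
  classical
  obtain ⟨s, hs⟩ := h1.hasRightInverse
  have hπ : ∀ (g : Γ) d, π (g • d) = π d := fun g d => ((h2 d _).2 ⟨g, rfl⟩).symm
  have hs' : ∀ d, ∃ g : Γ, s (π d) = g • d := fun d => (h2 d _).1 (hs _).symm
  have hι : ∀ d, π (T.ι (s (π d))) = π (T.ι d) := fun d => by
    obtain ⟨g, hg⟩ := hs' d
    rw [hg, ι_smul, hπ]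
  have hν : ∀ d, π (T.ν (s (π d))) = π (T.ν d) := fun d => by
    obtain ⟨g, hg⟩ := hs' d
    rw [hg, ν_smul, hπ]
  obtain ⟨Bs, -⟩ := exists_base (T := T) (fun _ _ => True) (fun _ _ _ _ => trivial)
    (fun _ _ _ _ => trivial) fun a ha => by
      obtain ⟨b, hb⟩ := T.has a ha
      obtain ⟨c, hc⟩ := T.has _ (T.ws.neg a ha)
      exact ⟨⟨_, hb⟩, ⟨_, hc⟩, rfl, rfl, trivial⟩
  let ν' : Equiv.Perm D := ⟨fun q => π (T.ν (s q)), fun q => π (T.ν (s (π (T.ν (s q))))),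
    fun q => by simp only [hν, ν_ν_ν, hs q], fun q => by simp only [hν, ν_ν_ν, hs q]⟩
  have c3 := three_mul_cyc (ν := ν') ν'.left_inv fun q e => by
    obtain ⟨g, hg⟩ := (h2 (s q) _).1 ((hs q).trans e.symm)
    exact betti_ν g _ hg
  let e := Fintype.equivFin D
  let O₁ := {q : D // e q < e (π (T.ι (s q)))}
  let O₂ := {q : D // ∃ p ∈ Bs.S, π p.1 = q ∧ e (π p.1) < e (π p.2)}
  have c2 : Fintype.card D ≤ Fintype.card (O₁ ⊕ O₁) := Fintype.card_le_of_surjective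
    (Sum.elim (fun q => q.1) fun q => π (T.ι (s q.1))) fun q => by
      rcases lt_trichotomy (e q) (e (π (T.ι (s q)))) with c | c | c
      · exact ⟨Sum.inl ⟨q, c⟩, rfl⟩
      · obtain ⟨g, hg⟩ := (h2 (s q) _).1 ((hs q).trans (e.injective c))
        exact absurd hg (betti_ι g _)
      · exact ⟨Sum.inr ⟨π (T.ι (s q)), by rwa [hι, ι_ι, hs q]⟩, by simp [hι, hs q]⟩
  have hp : ∀ o : O₂, ∃ p ∈ Bs.S, π p.1 = o.1 ∧ e (π p.1) < e (π p.2) := fun o => o.2
  choose p p1 p2 p3 using hp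
  have hq : ∀ q ∈ Bs.S, ∀ o : O₂, π q.1 = o.1 → ∃ g : Γ, q.1 = g • (p o).1 ∧ q.2 = g • (p o).2 :=
    fun q hq o h => by
      obtain ⟨g, hg⟩ := (h2 _ _).1 ((p2 o).trans h.symm)
      refine ⟨g, hg, Bs.snd_eq (Bs.inv g _ (p1 o)) ?_⟩
      rwa [← hg]
  obtain ⟨d₀⟩ : Nonempty T.D := inferInstance
  let Q := Quotient (Equiv.Perm.SameCycle.setoid ν')
  let pr : T.D → (T.D → ℝ) →ₗ[ℝ] ℝ := fun d => LinearMap.proj d
  let pq : D → (D → ℝ) →ₗ[ℝ] ℝ := fun d => LinearMap.proj d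
  let J : T.D → (D → ℝ) →ₗ[ℝ] ℝ := fun d => pq (π d) - pq (π (T.ι d))
  let F : T.D → (D → ℝ) →ₗ[ℝ] ℝ := fun d => ∑ m ∈ range d.f, J ((T.φ ^ (m + 1)) d)
  have hF : ∀ (g : Γ) d, F (g • d) = F d := fun g d => by
    simp only [F, J, f_smul, φ_pow_smul, ι_smul, hπ]
  have key := betti_lin
    ((bettiH d₀).prod ((LinearMap.pi fun c : Q => pr (s c.out)) ∘ₗ (bettiP T).subtype))
    ((injective_iff_map_eq_zero _).2 fun Φ h => ?_)
    (((LinearMap.pi fun q : O₁ => pr (T.ι (s q.1)) - pr (s q.1)).prod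
      (LinearMap.pi fun o : O₂ => pr (p o).2 - pr (p o).1)) ∘ₗ (bettiP T).subtype)
    ((LinearMap.pi fun o : O₂ => F (p o).1 + F (p o).2) ∘ₗ
      Function.ExtendByZero.linearMap ℝ (Subtype.val : O₁ → D)) fun u k h => ?_
  · rw [finrank_prod, finrank_fintype_fun_eq_card, finrank_fintype_fun_eq_card,
      ← Nat.card_eq_fintype_card (α := Q)] at key
    rw [Fintype.card_sum] at c2
    have : cyc ν' = Nat.card Q := rfl
    omega
  · have a1 : ∀ (g : Γ) d, Φ.1 (g • d) = Φ.1 d := fun g d => by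
      rw [← sub_eq_zero, betti_sub Φ g d d₀]
      exact DFunLike.congr_fun (congrArg Prod.fst h) (Additive.ofMul g)
    have a2 : ∀ d, Φ.1 (s (π d)) = Φ.1 d := fun d => by
      obtain ⟨g, hg⟩ := hs' d
      rw [hg, a1]
    have a3 : ∀ (i : ℕ) q, Φ.1 (s ((ν' ^ i) q)) = Φ.1 (s q) := fun i q => by
      induction i with
      | zero => rfl
      | succ i ih =>
        rw [pow_succ', Equiv.Perm.mul_apply, ← ih]
        exact (a2 _).trans (Φ.2.1 _)
    ext d
    obtain ⟨i, -, hi⟩ := Equiv.Perm.SameCycle.exists_pow_eq'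
      (Quotient.mk_out (s := Equiv.Perm.SameCycle.setoid ν') (π d))
    rw [← a2, ← hi, a3]
    exact congrFun (congrArg Prod.snd h) _
  · set u' := Function.ExtendByZero.linearMap ℝ (Subtype.val : O₁ → D) u with hu
    set k' := Function.ExtendByZero.linearMap ℝ (Subtype.val : O₂ → D) k with hk
    have a1 : ∀ o : O₂, F (p o).1 u' + F (p o).2 u' = 0 := fun o => congrFun h o
    have a2 : ∀ q ∈ Bs.S, e (π q.1) < e (π q.2) → F q.1 u' + F q.2 u' = 0 := fun q hq' c => by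
      obtain ⟨o, ho⟩ : ∃ o : O₂, π q.1 = o.1 := ⟨⟨_, q, hq', rfl, c⟩, rfl⟩
      obtain ⟨g, b1, b2⟩ := hq q hq' o ho
      rw [b1, b2, hF, hF, a1]
    obtain ⟨Φ, b1, b2⟩ := betti_pot Bs (fun d => J d u') (fun d => k' (π d))
      (fun d => by simp [J, pq]) (fun g d => by simp only [J, ι_smul, hπ]) (fun g d => by rw [hπ])
      fun q hq' => by
        rw [← LinearMap.sum_apply, ← LinearMap.sum_apply]
        rcases lt_trichotomy (e (π q.1)) (e (π q.2)) with c | c | c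
        · exact a2 q hq' c
        · obtain ⟨g, hg⟩ := (h2 _ _).1 (e.injective c)
          exact absurd hg.symm (Bs.not_orbit hq' g)
        · rw [add_comm]
          exact a2 (q.2, q.1) (Bs.symm q hq') c
    refine ⟨Φ, Prod.ext (funext fun q => (b1 _).trans ?_) (funext fun o => (b2 _ (p1 o)).trans ?_)⟩
    · have c1 : u' q.1 = u q := Subtype.val_injective.extend_apply _ _ _
      have c2 : u' (π (T.ι (s q.1))) = 0 := Function.extend_apply' _ _ _ fun ⟨r, hr⟩ => by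
        have := r.2
        rw [hr, hι, ι_ι, hs] at this
        exact lt_asymm this q.2
      simp [J, pq, hs q.1, c1, c2]
    · have c1 : k' o.1 = k o := Subtype.val_injective.extend_apply _ _ _
      have c2 : k' (π (p o).2) = 0 := Function.extend_apply' _ _ _ fun ⟨r, hr⟩ => by
        obtain ⟨g, d1, d2⟩ := hq _ (Bs.symm _ (p1 o)) r hr.symm
        have := p3 o
        rw [show (p o).1 = _ from d2, show (p o).2 = _ from d1, hπ, hπ] at this
        exact lt_asymm this (p3 r)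
      simp [p2, c1, c2]

end Tr

end

end Pool.Agent.P.MP_d39174_gt
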