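import Pool.Agent.P.MP_d39174_gt.Grp2

/-! From the statement to the working definitions and back. -/

namespace Pool.Agent.P.MP_d39174_gt

open UpperHalfPlane MatrixGroups

noncomputable section

variable {Γ : Subgroup SL(2, ℝ)}

/-- The traceless part of a group element. -/
private def Bridge_x (g : SL(2, ℝ)) : V := ⟨(g 0 0 - g 1 1) / 2, g 0 1, g 1 0⟩

private lemma Bridge_xx (g : SL(2, ℝ)) : B (Bridge_x g) (Bridge_x g) = (tr g / 2) ^ 2 - 1 := by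
  have hd := det_eq g
  simp only [B, Bridge_x, tr]
  linear_combination (-1 : ℝ) * hd

private lemma Bridge_fix (g : SL(2, ℝ)) : g • Bridge_x g = Bridge_x g := by
  have hd := det_eq g
  ext
  · simp only [ad_a, Bridge_x]
    linear_combination ((g 0 0 - g 1 1) / 2) * hd
  · simp only [ad_b, Bridge_x]
    linear_combination (g 0 1) * hd
  · simp only [ad_c, Bridge_x]
    linear_combination (g 1 0) * hd

private lemma Bridge_disp (g : SL(2, ℝ)) (z : ℍ) :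
    Real.cosh (dist z (g • z)) =
      1 + 2 * B (Bridge_x g) (Bridge_x g) + 2 * B (Bridge_x g) (Hy z) ^ 2 := by
  rw [cosh_dist_eq, Hy_smul]
  have hp := Hy_unit z
  have hd := det_eq g
  generalize Hy z = p at hp
  simp only [B, Bridge_x, ad_a, ad_b, ad_c] at hp ⊢
  linear_combination
    (-(((g 0 0 + g 1 1) / 2) ^ 2 + (((g 0 0 - g 1 1) / 2) ^ 2 + g 0 1 * g 1 0))) * hp + hd

private lemma Bridge_null {x : V} (hx : B x x = 0) :
    ∃ k : ℝ, ∀ s : ℝ, 0 < s → ∃ z : ℍ, B x (Hy z) = k * s := by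
  unfold B at hx
  by_cases hc : x.c = 0
  · have ha : x.a = 0 := by
      rw [hc] at hx
      have : x.a * x.a = 0 := by linarith
      exact mul_self_eq_zero.1 this
    refine ⟨-x.b / 2, fun s hs => ⟨⟨⟨0, s⁻¹⟩, inv_pos.2 hs⟩, ?_⟩⟩
    simp only [B, Hy, ha, hc]
    change 0 * (-(0 : ℝ) / s⁻¹) + (x.b * (-1 / s⁻¹) + 0 * (((0 : ℝ) ^ 2 + s⁻¹ ^ 2) / s⁻¹)) / 2 = _
    field_simp
    ring
  · refine ⟨x.c / 2, fun s hs => ⟨⟨⟨x.a / x.c, s⟩, hs⟩, ?_⟩⟩
    simp only [B, Hy]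
    change x.a * (-(x.a / x.c) / s) +
      (x.b * (-1 / s) + x.c * (((x.a / x.c) ^ 2 + s ^ 2) / s)) / 2 = _
    have hb : x.b = -(x.a ^ 2) / x.c := by
      field_simp
      linarith
    rw [hb]
    field_simp
    ring

/-- An element that is not hyperbolic has arbitrarily small displacements. -/
private lemma Bridge_small {g : SL(2, ℝ)} (hg : |tr g| ≤ 2) {ε : ℝ} (hε : 0 < ε) :
    ∃ z : ℍ, dist z (g • z) < ε := by
  have hx := Bridge_xx g
  have h2 : (tr g / 2) ^ 2 ≤ 1 := by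
    have := abs_le.1 hg
    nlinarith [this.1, this.2]
  rcases (show B (Bridge_x g) (Bridge_x g) ≤ 0 by linarith).lt_or_eq with hlt | heq
  · rcases Fut.or_neg hlt with hf | hf
    · refine ⟨pt (Bridge_x g), ?_⟩
      rw [← pt_ad g hf, Bridge_fix, dist_self]
      exact hε
    · refine ⟨pt (-Bridge_x g), ?_⟩
      rw [← pt_ad g hf, smul_neg, Bridge_fix, dist_self]
      exact hε
  · obtain ⟨k, hk⟩ := Bridge_null heq
    have hc : 1 < Real.cosh ε := Real.one_lt_cosh.2 hε.ne'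
    have ht : Filter.Tendsto (fun s : ℝ => 1 + 2 * (k * s) ^ 2) (nhdsWithin 0 (Set.Ioi 0))
        (nhds 1) := by
      have : Continuous (fun s : ℝ => 1 + 2 * (k * s) ^ 2) := by fun_prop
      have h0 := this.tendsto 0
      simp only [mul_zero, ne_eq, OfNat.ofNat_ne_zero, not_false_eq_true, zero_pow,
        add_zero] at h0
      exact h0.mono_left nhdsWithin_le_nhds
    obtain ⟨s, hs1, hs2⟩ := ((ht.eventually (gt_mem_nhds hc)).and self_mem_nhdsWithin).exists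
    obtain ⟨z, hz⟩ := hk s hs2
    refine ⟨z, ?_⟩
    have hd := Bridge_disp g z
    rw [heq, hz] at hd
    have h3 : Real.cosh (dist z (g • z)) < Real.cosh ε := by
      rw [hd]
      linarith
    have h4 := Real.cosh_lt_cosh.1 h3
    rwa [abs_of_nonneg dist_nonneg, abs_of_pos hε] at h4

private lemma Bridge_fin {g : ℕ} (h : IsSurfaceGroup g Γ) (z : ℍ) (R : ℝ) :
    {γ : SL(2, ℝ) | γ ∈ Γ ∧ dist z (γ • z) ≤ R}.Finite := by
  have := h.discrete
  have hf := finite_disjoint_inter_image (Γ := Γ) (isCompact_singleton (x := z))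
    (isCompact_closedBall z R)
  refine (hf.image Subtype.val).subset ?_
  rintro γ ⟨hγ, hd⟩
  refine ⟨⟨γ, hγ⟩, ⟨γ • z, ⟨z, rfl, rfl⟩, ?_⟩, rfl⟩
  rw [Metric.mem_closedBall, dist_comm]
  exact hd

/-- Displacements of nontrivial elements are bounded below. -/
private lemma Bridge_lower {g : ℕ} (h : IsSurfaceGroup g Γ) :
    ∃ ε : ℝ, 0 < ε ∧ ∀ γ ∈ Γ, γ ≠ 1 → γ ≠ -1 → ∀ z : ℍ, ε ≤ dist z (γ • z) := by
  obtain ⟨K, hK, hcov⟩ := h.cocompact
  obtain ⟨R, hR⟩ := hK.isBounded.subset_closedBall I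
  have hF : {γ : SL(2, ℝ) | (γ ∈ Γ ∧ dist I (γ • I) ≤ 2 * R + 1) ∧ γ ≠ 1 ∧ γ ≠ -1}.Finite :=
    (Bridge_fin h I (2 * R + 1)).subset fun γ hγ => hγ.1
  have hev : ∀ᶠ ε in nhdsWithin (0 : ℝ) (Set.Ioi 0),
      ∀ γ ∈ {γ : SL(2, ℝ) | (γ ∈ Γ ∧ dist I (γ • I) ≤ 2 * R + 1) ∧ γ ≠ 1 ∧ γ ≠ -1},
        ∀ z ∈ K, ε ≤ dist z (γ • z) := by
    rw [Filter.eventually_all_finite hF]
    rintro γ ⟨⟨hγ, -⟩, h1, h2⟩
    have hc : Continuous fun z : ℍ => dist z (γ • z) := by fun_prop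
    obtain ⟨a, ha, hb⟩ := hK.exists_forall_le' hc.continuousOn (a := 0) fun z _ => by
      rw [dist_pos]
      intro e
      rcases h.free γ hγ z e.symm with e' | e'
      · exact h1 e'
      · exact h2 e'
    filter_upwards [nhdsWithin_le_nhds (gt_mem_nhds ha)] with ε hε z hz
    exact le_trans (le_of_lt hε) (hb z hz)
  obtain ⟨ε, ⟨hε1, hε2⟩, hε3⟩ := ((hev.and self_mem_nhdsWithin).and
    (nhdsWithin_le_nhds (gt_mem_nhds (zero_lt_one' ℝ)))).exists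
  refine ⟨ε, hε2, fun γ hγ h1 h2 z => ?_⟩
  obtain ⟨k, hk, hkz⟩ := hcov z
  have e : dist z (γ • z) = dist (k • z) ((k * γ * k⁻¹) • k • z) := by
    rw [← mul_smul, inv_mul_cancel_right, mul_smul, dist_smul]
  rw [e]
  by_contra hlt
  rw [not_le] at hlt
  refine absurd (hε1 (k * γ * k⁻¹) ⟨⟨Γ.mul_mem (Γ.mul_mem hk hγ) (Γ.inv_mem hk), ?_⟩, ?_, ?_⟩
    (k • z) hkz) (not_le.2 hlt)
  · have h3 : dist (k • z) I ≤ R := hR hkz
    have h4 : dist ((k * γ * k⁻¹) • k • z) ((k * γ * k⁻¹) • I) = dist (k • z) I := dist_smul _ _ _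
    have h5 := dist_triangle4 I (k • z) ((k * γ * k⁻¹) • k • z) ((k * γ * k⁻¹) • I)
    rw [dist_comm I (k • z)] at h5
    have h6 : ε < 1 := hε3
    linarith
  · intro e'
    apply h1
    calc γ = k⁻¹ * (k * γ * k⁻¹) * k := by group
      _ = 1 := by rw [e']; group
  · intro e'
    apply h2
    calc γ = k⁻¹ * (k * γ * k⁻¹) * k := by group
      _ = -1 := by rw [e']; simp

private lemma Bridge_not_pm {γ : SL(2, ℝ)} (h1 : γ ≠ 1) (h2 : γ ≠ -1) : ¬ PM 1 γ := fun e => by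
  rcases (pm_one_iff γ).1 e with e | e
  · exact h1 e
  · exact h2 e

private lemma Bridge_mat_inj {x y : V} (h : x.mat = y.mat) : x = y := by
  rw [← ofMat_mat x, h, ofMat_mat]

private lemma Bridge_same_of_pm {γ δ : SL(2, ℝ)} (e : PM γ δ) : SameGeodesic Γ γ δ := by
  refine ⟨1, Γ.one_mem, ?_⟩
  rcases e with e | e
  · exact Or.inl (by simpa using e)
  · exact Or.inr (Or.inl (by simpa using e))

lemma IsSurfaceGroup.nice {g : ℕ} (h : IsSurfaceGroup g Γ) : Nice Γ := by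
  refine ⟨h.neg_one_mem, Bridge_fin h, ?_, fun γ hγ h1 h2 => ?_⟩
  · obtain ⟨K, hK, hcov⟩ := h.cocompact
    obtain ⟨R, hR⟩ := hK.isBounded.subset_closedBall I
    refine ⟨R, fun z => ?_⟩
    obtain ⟨γ, hγ, hz⟩ := hcov z
    exact ⟨γ, hγ, hR hz⟩
  · by_contra hle
    obtain ⟨ε, hε, hlow⟩ := Bridge_lower h
    obtain ⟨z, hz⟩ := Bridge_small (not_lt.1 hle) hε
    exact absurd (hlow γ hγ h1 h2 z) (not_le.2 hz)

lemma Nice.isSurfaceGroup (h : Nice Γ) {g : ℕ}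
    (hg : Module.finrank ℝ (Additive Γ →+ ℝ) = 2 * g) : IsSurfaceGroup g Γ := by
  refine ⟨h.neg_one_mem, ?_, fun γ hγ z e => ?_, ?_, hg⟩
  · apply discreteTopology_of_isOpen_singleton_one
    have hc : Continuous fun γ : Γ => dist I ((γ : SL(2, ℝ)) • I) := by fun_prop
    refine isOpen_singleton_of_finite_mem_nhds (1 : Γ)
      (s := {γ : Γ | dist I ((γ : SL(2, ℝ)) • I) < 1}) ?_ ?_
    · refine (isOpen_lt hc continuous_const).mem_nhds ?_
      simp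
    · refine ((h.fin I 1).preimage Subtype.val_injective.injOn).subset ?_
      intro γ hγ
      exact ⟨γ.2, le_of_lt hγ⟩
  · refine (pm_one_iff γ).1 (h.pm_of_fix hγ (p := Hy z) ?_ ?_)
    · rw [Hy_unit]
      norm_num
    · rw [← Hy_smul, e]
  · obtain ⟨R, hR⟩ := h.coc
    exact ⟨Metric.closedBall I R, isCompact_closedBall I R, hR⟩

lemma Sys.sys_eq (h : Nice Γ) {l : ℝ} (s : Sys Γ l) : sys Γ = 2 * l := by
  apply IsLeast.csInf_eq
  constructor
  · obtain ⟨n, hn, hm⟩ := s.ne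
    obtain ⟨h1, h2⟩ := ex_ne_one hn s.pos.ne'
    exact ⟨ex l n, ⟨hm, h1, h2⟩, by rw [len_ex hn, abs_of_pos s.pos]⟩
  · rintro _ ⟨γ, ⟨hγ, h1, h2⟩, rfl⟩
    obtain ⟨n, t, hn, ht, e, hm⟩ := h.exists_ex hγ (Bridge_not_pm h1 h2)
    have := s.le_of_mem hn ht.ne' hm
    rw [← len_pm e, len_ex hn]
    linarith

lemma Sys.isSystolic_iff (h : Nice Γ) {l : ℝ} (s : Sys Γ l) (γ : SL(2, ℝ)) :
    IsSystolic Γ γ ↔ ∃ n ∈ SS Γ l, PM (ex l n) γ := by
  constructor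
  · rintro ⟨hγ, h1, h2, hl⟩
    obtain ⟨n, t, hn, ht, e, hm⟩ := h.exists_ex hγ (Bridge_not_pm h1 h2)
    rw [← len_pm e, len_ex hn, s.sys_eq h, abs_of_pos ht] at hl
    obtain rfl : t = l := by linarith
    exact ⟨n, ⟨hn, hm⟩, e⟩
  · rintro ⟨n, ⟨hn, hm⟩, e⟩
    have hne := ex_ne_one hn s.pos.ne'
    have h0 : ¬ PM 1 γ := fun e' => Bridge_not_pm hne.1 hne.2 (e'.trans e.symm)
    refine ⟨e.mem h.neg_one_mem hm, fun e' => h0 ((pm_one_iff γ).2 (Or.inl e')),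
      fun e' => h0 ((pm_one_iff γ).2 (Or.inr e')), ?_⟩
    rw [← len_pm e, len_ex hn, s.sys_eq h, abs_of_pos s.pos]

lemma sameGeodesic_iff (h : Nice Γ) {l : ℝ} (hl : 0 < l) {m n : V} (hm : B m m = 1)
    (hn : B n n = 1) {γ δ : SL(2, ℝ)} (e : PM (ex l m) γ) (e' : PM (ex l n) δ) :
    SameGeodesic Γ γ δ ↔ Eqw Γ m n := by
  have k1 : ∀ g : SL(2, ℝ), PM (ex l (g • m)) (g * γ * g⁻¹) := fun g => by
    rw [← ex_conj]
    exact ((PM.refl g).mul e).mul (PM.refl _)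
  have k2 : ∀ g : SL(2, ℝ), PM (ex l (-(g • m))) (g * γ⁻¹ * g⁻¹) := fun g => by
    rw [← smul_neg, ← ex_conj, ex_neg_right, ex_neg]
    exact ((PM.refl g).mul e.inv).mul (PM.refl _)
  have u1 : ∀ g : SL(2, ℝ), B (g • m) (g • m) = 1 := fun g => by rw [B_ad, hm]
  have u2 : ∀ g : SL(2, ℝ), B (-(g • m)) (-(g • m)) = 1 := fun g => by
    rw [B_neg_left, B_neg_right, neg_neg, u1]
  constructor
  · rintro ⟨g, hg, hd⟩
    refine ⟨g, hg, ?_⟩
    have hd' : PM (g * γ * g⁻¹) δ ∨ PM (g * γ⁻¹ * g⁻¹) δ := by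
      rcases hd with hd | hd | hd | hd
      · exact Or.inl (Or.inl hd)
      · exact Or.inl (Or.inr hd)
      · exact Or.inr (Or.inl hd)
      · exact Or.inr (Or.inr hd)
    rcases hd' with hd' | hd'
    · exact Or.inl (ex_inj (u1 g) hn hl.ne' (((k1 g).trans hd').trans e'.symm)).symm
    · exact Or.inr (ex_inj (u2 g) hn hl.ne' (((k2 g).trans hd').trans e'.symm)).symm
  · rintro ⟨g, hg, hd⟩
    refine ⟨g, hg, ?_⟩
    rcases hd with rfl | rfl
    · rcases (k1 g).symm.trans e' with hd | hd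
      · exact Or.inl hd
      · exact Or.inr (Or.inl hd)
    · rcases (k2 g).symm.trans e' with hd | hd
      · exact Or.inr (Or.inr (Or.inl hd))
      · exact Or.inr (Or.inr (Or.inr hd))

lemma dlen_eq {l : ℝ} (hl : 0 < l) {n : V} (hn : B n n = 1) {γ : SL(2, ℝ)} (e : PM (ex l n) γ)
    (x : V) : dlen γ x.mat = 2 * B x n := by
  have ht : ∀ t : ℝ, ((1 + t • x.mat) * (ex l n).1).trace =
      2 * (Real.cosh l + t * (Real.sinh l * B x n)) := fun t => by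
    rw [add_mul, one_mul, smul_mul_assoc, Matrix.trace_add, Matrix.trace_smul, ← tr_eq, tr_ex hn,
      trace_mat_mul_ex hn, smul_eq_mul]
    ring
  have habs : ∀ t : ℝ, |((1 + t • x.mat) * γ.1).trace| / 2 =
      |Real.cosh l + t * (Real.sinh l * B x n)| := fun t => by
    rcases e with rfl | rfl
    · rw [ht, abs_mul, abs_two]
      ring
    · rw [Matrix.SpecialLinearGroup.coe_neg, mul_neg, Matrix.trace_neg, abs_neg, ht, abs_mul,
        abs_two]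
      ring
  have hc : 1 < Real.cosh l := Real.one_lt_cosh.2 hl.ne'
  have hs : 0 < Real.sinh l := Real.sinh_pos_iff.2 hl
  have d1 : HasDerivAt (fun t : ℝ => Real.cosh l + t * (Real.sinh l * B x n))
      (Real.sinh l * B x n) 0 := by
    simpa using ((hasDerivAt_id (0 : ℝ)).mul_const (Real.sinh l * B x n)).const_add (Real.cosh l)
  have d2 : HasDerivAt Real.arcosh (Real.sinh l)⁻¹
      (Real.cosh l + 0 * (Real.sinh l * B x n)) := by
    rw [zero_mul, add_zero]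
    have := Real.hasDerivAt_arcosh (x := Real.cosh l) hc
    rwa [show Real.cosh l ^ 2 - 1 = Real.sinh l ^ 2 by rw [Real.cosh_sq]; ring,
      Real.sqrt_sq hs.le] at this
  have d3 := (d2.comp (0 : ℝ) d1).const_mul 2
  have hev : (fun t : ℝ => 2 * Real.arcosh (|((1 + t • x.mat) * γ.1).trace| / 2)) =ᶠ[nhds 0]
      fun t : ℝ => 2 * (Real.arcosh ∘ fun t : ℝ =>
        Real.cosh l + t * (Real.sinh l * B x n)) t := by
    have h0 : ∀ᶠ t in nhds (0 : ℝ), 0 < Real.cosh l + t * (Real.sinh l * B x n) :=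
      d1.continuousAt.eventually (lt_mem_nhds (by simpa using Real.cosh_pos l))
    filter_upwards [h0] with t h1
    rw [habs, abs_of_pos h1]
    rfl
  unfold dlen
  rw [hev.deriv_eq, d3.deriv]
  field_simp

lemma isCritical_iff (h : Nice Γ) {l : ℝ} (s : Sys Γ l) : IsCritical Γ ↔ CritV Γ l := by
  classical
  constructor
  · rintro ⟨T, hT, hU, c, hc, hs⟩
    have hν : ∀ γ ∈ T, ∃ n ∈ SS Γ l, PM (ex l n) γ := fun γ hγ =>
      (s.isSystolic_iff h γ).1 (hT γ hγ)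
    choose! ν hν1 hν2 using hν
    have hinj : Set.InjOn ν (T : Set SL(2, ℝ)) := fun γ hγ δ hδ e => by
      have e1 : PM γ δ := (hν2 γ hγ).symm.trans (e ▸ hν2 δ hδ)
      exact (hU δ (hT δ hδ)).unique ⟨hγ, Bridge_same_of_pm e1⟩
        ⟨hδ, Bridge_same_of_pm (PM.refl δ)⟩
    refine ⟨T.image ν, ?_, fun n hn => ?_, fun n => c (Function.invFunOn ν T n), ?_,
      fun u hu => ?_⟩
    · intro n hn
      obtain ⟨γ, hγ, rfl⟩ := Finset.mem_image.1 hn
      exact hν1 γ hγ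
    · obtain ⟨γ, ⟨hγ, hsame⟩, huniq⟩ :=
        hU (ex l n) ((s.isSystolic_iff h _).2 ⟨n, hn, PM.refl _⟩)
      refine ⟨ν γ, ⟨Finset.mem_image_of_mem ν hγ,
        (sameGeodesic_iff h s.pos (hν1 γ hγ).1 hn.1 (hν2 γ hγ) (PM.refl _)).1 hsame⟩, ?_⟩
      rintro m ⟨hm, hmn⟩
      obtain ⟨δ, hδ, rfl⟩ := Finset.mem_image.1 hm
      rw [huniq δ ⟨hδ,
        (sameGeodesic_iff h s.pos (hν1 δ hδ).1 hn.1 (hν2 δ hδ) (PM.refl _)).2 hmn⟩]
    · intro n hn
      obtain ⟨γ, hγ, rfl⟩ := Finset.mem_image.1 hn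
      show 0 < c (Function.invFunOn ν T (ν γ))
      rw [hinj.leftInvOn_invFunOn hγ]
      exact hc γ hγ
    · have h1 := hs (fun γ => (u γ).mat) ⟨fun γ _ => mat_trace _, fun γ hγ δ hδ => by
        show (u (γ * δ)).mat = (u γ).mat + γ.1 * (u δ).mat * (γ⁻¹).1
        rw [hu γ hγ δ hδ, mat_add, mat_ad]⟩
      rw [Finset.sum_image hinj]
      have h2 : ∑ γ ∈ T, c γ * dlen γ (u γ).mat =
          2 * ∑ γ ∈ T, c (Function.invFunOn ν T (ν γ)) * B (u (ex l (ν γ))) (ν γ) := by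
        rw [Finset.mul_sum]
        refine Finset.sum_congr rfl fun γ hγ => ?_
        rw [hinj.leftInvOn_invFunOn hγ, dlen_eq s.pos (hν1 γ hγ).1 (hν2 γ hγ),
          hu.pm h.neg_one_mem (hν1 γ hγ).2 (hν2 γ hγ)]
        ring
      linarith
  · rintro ⟨T, hT, hU, c, hc, hs⟩
    have hinj : Set.InjOn (ex l) (T : Set V) := fun m hm n hn e =>
      ex_inj (hT m hm).1 (hT n hn).1 s.pos.ne' (Or.inl e.symm)
    refine ⟨T.image (ex l), ?_, fun δ hδ => ?_, fun γ => c (Function.invFunOn (ex l) T γ), ?_,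
      fun u hu => ?_⟩
    · intro γ hγ
      obtain ⟨n, hn, rfl⟩ := Finset.mem_image.1 hγ
      exact (s.isSystolic_iff h _).2 ⟨n, hT n hn, PM.refl _⟩
    · obtain ⟨n, hn, e⟩ := (s.isSystolic_iff h δ).1 hδ
      obtain ⟨m, ⟨hm, hmn⟩, huniq⟩ := hU n hn
      refine ⟨ex l m, ⟨Finset.mem_image_of_mem _ hm,
        (sameGeodesic_iff h s.pos (hT m hm).1 hn.1 (PM.refl _) e).2 hmn⟩, ?_⟩
      rintro γ ⟨hγ, hsame⟩
      obtain ⟨k, hk, rfl⟩ := Finset.mem_image.1 hγ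
      rw [huniq k ⟨hk, (sameGeodesic_iff h s.pos (hT k hk).1 hn.1 (PM.refl _) e).1 hsame⟩]
    · intro γ hγ
      obtain ⟨n, hn, rfl⟩ := Finset.mem_image.1 hγ
      show 0 < c (Function.invFunOn (ex l) T (ex l n))
      rw [hinj.leftInvOn_invFunOn hn]
      exact hc n hn
    · have h1 := hs (fun γ => V.ofMat (u γ)) fun γ hγ δ hδ => by
        apply Bridge_mat_inj
        rw [mat_add, mat_ad, mat_ofMat (hu.1 _ (Γ.mul_mem hγ hδ)), mat_ofMat (hu.1 _ hγ),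
          mat_ofMat (hu.1 _ hδ)]
        exact hu.2 γ hγ δ hδ
      rw [Finset.sum_image hinj]
      have h2 : ∑ n ∈ T, c (Function.invFunOn (ex l) T (ex l n)) * dlen (ex l n) (u (ex l n)) =
          2 * ∑ n ∈ T, c n * B (V.ofMat (u (ex l n))) n := by
        rw [Finset.mul_sum]
        refine Finset.sum_congr rfl fun n hn => ?_
        rw [hinj.leftInvOn_invFunOn hn, ← mat_ofMat (hu.1 _ (hT n hn).2),
          dlen_eq s.pos (hT n hn).1 (PM.refl _), ofMat_mat]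
        ring
      linarith

lemma cls_eq_of_conj {Γ Δ : Subgroup SL(2, ℝ)} {M : SL(2, ℝ)}
    (h : ∀ γ, γ ∈ Δ ↔ M⁻¹ * γ * M ∈ Γ) : cls Δ = cls Γ := by
  ext Θ
  constructor
  · rintro ⟨N, hN⟩
    refine ⟨N * M, fun γ => ?_⟩
    rw [hN, h, show M⁻¹ * (N⁻¹ * γ * N) * M = (N * M)⁻¹ * γ * (N * M) by group]
  · rintro ⟨N, hN⟩
    refine ⟨N * M⁻¹, fun γ => ?_⟩
    rw [hN, h, show M⁻¹ * ((N * M⁻¹)⁻¹ * γ * (N * M⁻¹)) * M = N⁻¹ * γ * N by group]

lemma conj_of_cls_eq {Γ Δ : Subgroup SL(2, ℝ)} (h : cls Δ = cls Γ) :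
    ∃ M : SL(2, ℝ), ∀ γ, γ ∈ Δ ↔ M⁻¹ * γ * M ∈ Γ := by
  have h1 : Δ ∈ cls Δ := ⟨1, fun γ => by simp⟩
  rw [h] at h1
  exact h1

end

end Pool.Agent.P.MP_d39174_gt
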