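import Pool.Agent.P.MP_d39174_gt.Grp2

/-! Geometry of systoles. -/

namespace Pool.Agent.P.MP_d39174_gt

open UpperHalfPlane MatrixGroups

noncomputable section

variable {Γ : Subgroup SL(2, ℝ)} {l : ℝ}

lemma sysG_ad {a : V} (ha : a ∈ SS Γ l) {g : SL(2, ℝ)} (hg : g ∈ Γ) : g • a ∈ SS Γ l :=
  ⟨(B_ad g a a).trans ha.1, ex_conj g l a ▸ Γ.mul_mem (Γ.mul_mem hg ha.2) (Γ.inv_mem hg)⟩

lemma sysG_mem {a : V} (ha : a ∈ SS Γ l) (m : ℤ) : ex (m * l) a ∈ Γ :=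
  ex_zpow l a m ▸ Γ.zpow_mem ha.2 m

lemma sysG_B (t : ℝ) (a x : V) : B a (ex t a • x) = B a x := by
  rw [B_comm, B_ex_ad, B_comm]

lemma sysG_fix (h : Nice Γ) (s : Sys Γ l) {a : V} (ha : a ∈ SS Γ l) {g : SL(2, ℝ)} (hg : g ∈ Γ)
    (m : ℤ) {z : ℍ} (hz : dist z (ex (m * l) a • g⁻¹ • z) < 2 * l) : g • a = a := by
  have h1 : PM 1 (ex (m * l) a * g⁻¹) := by
    by_contra h1
    have := s.le_dist h (Γ.mul_mem (sysG_mem ha m) (Γ.inv_mem hg)) h1 z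
    rw [mul_smul] at this
    linarith
  have h2 := h1.ad (g • a)
  rwa [one_smul, mul_smul, inv_smul_smul, ex_ad_self] at h2

lemma sysG_inv (m : ℤ) (a : V) {x y : V} (e : ex (m * l) a • x = y) :
    x = ex (((-m : ℤ) : ℝ) * l) a • y := by
  rw [Int.cast_neg, neg_mul, ex_neg, ← e, inv_smul_smul]

/-- Collar inequality. -/
lemma collar (h : Nice Γ) (hl : 0 < l) {a w : V} (ha : a ∈ SS Γ l) (hw : w ∈ SS Γ l)
    (hc : |B a w| < 1) : 1 ≤ Real.sinh l ^ 4 * (1 - B a w ^ 2) := by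
  have h1 := tr_comm ha.1 hw.1 l
  have h2 : 0 < Real.sinh l ^ 4 * (1 - B a w ^ 2) :=
    mul_pos (pow_pos (Real.sinh_pos_iff.2 hl) 4) (sub_pos.2 ((sq_lt_one_iff_abs_lt_one _).2 hc))
  have h3 : tr 1 = 2 := by
    simp [tr]
    norm_num
  by_cases e1 : ex l a * ex l w * (ex l a)⁻¹ * (ex l w)⁻¹ = 1
  · rw [e1] at h1
    linarith
  by_cases e2 : ex l a * ex l w * (ex l a)⁻¹ * (ex l w)⁻¹ = -1
  · rw [e2, tr_neg] at h1
    linarith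
  have h4 := h.hyp _ (Γ.mul_mem (Γ.mul_mem (Γ.mul_mem ha.2 hw.2) (Γ.inv_mem ha.2))
    (Γ.inv_mem hw.2)) e1 e2
  rcases lt_abs.1 h4 with h5 | h5 <;> linarith
lemma half_le_of_cross (h : Nice Γ) (hl : 0 < l) {a w : V} (ha : a ∈ SS Γ l) (hw : w ∈ SS Γ l)
    (hc : |B a w| < 1) : 1 / 2 ≤ l := by
  have h1 := collar h hl ha hw hc
  by_contra h2
  have h3 := Real.add_one_le_exp (-l)
  have h4 : Real.exp l * Real.exp (-l) = 1 := by rw [← Real.exp_add, add_neg_cancel, Real.exp_zero]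
  have h5 : Real.sinh l < 1 := by
    rw [Real.sinh_eq]
    nlinarith [Real.exp_pos l]
  have h6 := Real.sinh_pos_iff.2 hl
  have h7 : Real.sinh l ^ 4 < 1 := pow_lt_one₀ h6.le h5 (by norm_num)
  nlinarith [mul_nonneg (pow_pos h6 4).le (sq_nonneg (B a w))]
lemma angle_bound (C : ℝ) : ∃ β : ℝ, β < 1 ∧ ∀ (Γ : Subgroup SL(2, ℝ)) (l : ℝ), Nice Γ → 0 < l →
    l ≤ C → ∀ a ∈ SS Γ l, ∀ w ∈ SS Γ l, |B a w| < 1 → |B a w| ≤ β := by
  have h0 : 0 < Real.sinh C ^ 4 + 1 := by positivity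
  refine ⟨1 - 1 / (2 * (Real.sinh C ^ 4 + 1)), sub_lt_self _ (by positivity),
    fun Γ l h hl hC a ha w hw hc => ?_⟩
  have h1 := collar h hl ha hw hc
  have h2 : Real.sinh l ^ 4 ≤ Real.sinh C ^ 4 :=
    pow_le_pow_left₀ (Real.sinh_pos_iff.2 hl).le (Real.sinh_le_sinh.2 hC) 4
  have h3 : 1 - B a w ^ 2 ≤ 2 * (1 - |B a w|) := by nlinarith [sq_abs (B a w), sq_nonneg (1 - |B a w|)]
  have h4 := mul_le_mul (h2.trans (le_add_of_nonneg_right zero_le_one)) h3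
    (sub_pos.2 ((sq_lt_one_iff_abs_lt_one _).2 hc)).le h0.le
  rw [le_sub_comm, div_le_iff₀ (by positivity)]
  linarith
/-- Systoles are simple. -/
lemma simple (h : Nice Γ) (s : Sys Γ l) {a : V} (ha : a ∈ SS Γ l) {g : SL(2, ℝ)} (hg : g ∈ Γ)
    (h1 : g • a ≠ a) : 1 < |B a (g • a)| := by
  have hb := sysG_ad ha hg
  refine lt_of_le_of_ne (not_lt.1 fun hc => h1 ?_)
    (h.abs_B_ne_one (SS.per s.pos ha) (SS.per s.pos hb) h1 (h.noflip hg ha.1)).symm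
  obtain ⟨z, z1, z2⟩ := exists_cross ha.1 hb.1 hc
  obtain ⟨m, hm⟩ := near_translate ha.1 s.pos z1 (w := g⁻¹ • z) (by rwa [Hy_smul, ← B_ad_left])
  exact sysG_fix h s ha hg m (hm.trans_lt (by linarith [s.pos]))
/-- Two systoles cross at most once. -/
lemma once (h : Nice Γ) (s : Sys Γ l) {a w : V} (ha : a ∈ SS Γ l) (hw : w ∈ SS Γ l)
    {g : SL(2, ℝ)} (hg : g ∈ Γ) (h1 : |B w a| < 1) (h2 : |B w (g • a)| < 1) :
    ∃ m : ℤ, g • a = ex (m * l) w • a := by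
  obtain ⟨p, p1, p2⟩ := exists_cross hw.1 ha.1 h1
  obtain ⟨q, q1, q2⟩ := exists_cross hw.1 (sysG_ad ha hg).1 h2
  obtain ⟨m, hm⟩ := near_translate hw.1 s.pos p1 q1
  have q3 : B a (Hy (g⁻¹ • q)) = 0 := by rwa [Hy_smul, ← B_ad_left]
  obtain ⟨k, hk⟩ := near_translate ha.1 s.pos p2 q3
  refine ⟨-m, sysG_inv m w ?_⟩
  rw [← mul_smul]
  refine sysG_fix h s ha (Γ.mul_mem (sysG_mem hw m) hg) k (z := ex (m * l) w • q) ?_
  rw [mul_inv_rev, mul_smul, inv_smul_smul]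
  have := s.pos
  by_cases e1 : ex (m * l) w • q = p
  · rw [e1]
    linarith
  by_cases e2 : ex (k * l) a • g⁻¹ • q = p
  · rw [e2, dist_comm]
    linarith
  have h3 := dist_lt_of_cross hw.1 ha.1 h1 p1 p2 (by rwa [Hy_smul, sysG_B])
    (by rwa [Hy_smul, sysG_B]) e1 e2
  rw [dist_comm _ p] at h3
  linarith
/-- Uniform bound for the number of systolic walls near a point. -/
lemma packS (C R : ℝ) : ∃ M : ℕ, ∀ (Γ : Subgroup SL(2, ℝ)) (l : ℝ), Nice Γ → Sys Γ l →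
    1 / 2 ≤ l → l ≤ C → ∀ z : ℍ, {n | n ∈ SS Γ l ∧ |B n (Hy z)| ≤ R}.ncard ≤ M := by
  obtain ⟨M, hM⟩ := pack (1 + 2 * Real.sinh C ^ 2 * (1 + R ^ 2)) 1 one_pos
  refine ⟨M, fun Γ l h s hl hC z => ?_⟩
  have key : ∀ n ∈ SS Γ l, ∀ n' ∈ SS Γ l, n ≠ n' → 1 ≤ dist (ex l n • z) (ex l n' • z) :=
    fun n hn n' hn' e => by
      have h1 := s.le_dist h (Γ.mul_mem (Γ.inv_mem hn.2) hn'.2)
        (fun h1 => e (ex_inj hn.1 hn'.1 s.pos.ne' ((pm_iff_inv_mul _ _).2 h1))) z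
      rw [← dist_smul (ex l n), mul_smul, smul_inv_smul] at h1
      linarith
  rw [← Set.InjOn.ncard_image (f := fun n => ex l n • z) fun n hn n' hn' e => by
    by_contra h1
    have h2 := key n hn.1 n' hn'.1 h1
    rw [show ex l n • z = ex l n' • z from e, dist_self] at h2
    linarith]
  refine (hM z _ ?_ ?_).2
  · rintro _ ⟨n, hn, rfl⟩
    refine ((Real.self_le_sinh_iff.2 dist_nonneg).trans (Real.sinh_lt_cosh _).le).trans ?_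
    have h1 := (Real.sinh_pos_iff.2 s.pos).le
    have h2 := Real.sinh_le_sinh.2 hC
    have h3 : B n (Hy z) ^ 2 ≤ R ^ 2 := sq_le_sq' (abs_le.1 hn.2).1 (abs_le.1 hn.2).2
    rw [cosh_disp hn.1.1]
    gcongr
  · rintro _ ⟨n, hn, rfl⟩ _ ⟨n', hn', rfl⟩ e
    exact key n hn.1 n' hn'.1 fun h1 => e (by rw [h1])
/-- Uniform bound for the number of systolic walls crossing a given one, modulo its period. -/
lemma exists_nb (C : ℝ) : ∃ M : ℕ, ∀ (Γ : Subgroup SL(2, ℝ)) (l : ℝ), Nice Γ → Sys Γ l →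
    1 / 2 ≤ l → l ≤ C → ∀ a ∈ SS Γ l, ∃ F : Finset V, F.card ≤ M ∧
      (∀ w ∈ F, w ∈ SS Γ l ∧ |B a w| < 1) ∧
      ∀ w ∈ SS Γ l, |B a w| < 1 → ∃ m : ℤ, ∃ v ∈ F, w = ex (m * l) a • v := by
  obtain ⟨M, hM⟩ := packS C (Real.sinh C)
  refine ⟨M, fun Γ l h s hl hC a ha => ?_⟩
  obtain ⟨z, hz⟩ := exists_on_wall ha.1
  have h1 := h.lf_SS s.pos z (Real.sinh C)
  have h2 : {n | (n ∈ SS Γ l ∧ |B a n| < 1) ∧ |B n (Hy z)| ≤ Real.sinh C} ⊆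
      {n | n ∈ SS Γ l ∧ |B n (Hy z)| ≤ Real.sinh C} := fun n hn => ⟨hn.1.1, hn.2⟩
  refine ⟨(h1.subset h2).toFinset, ?_, fun w hw => ((Set.Finite.mem_toFinset _).1 hw).1,
    fun w hw hc => ?_⟩
  · rw [← Set.ncard_eq_toFinset_card _ (h1.subset h2)]
    exact (Set.ncard_le_ncard h2 h1).trans (hM Γ l h s hl hC z)
  obtain ⟨p, p1, p2⟩ := exists_cross ha.1 hw.1 hc
  obtain ⟨m, hm⟩ := near_translate ha.1 s.pos hz p1
  have h3 := sysG_ad hw (sysG_mem ha m)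
  exact ⟨-m, ex (m * l) a • w, (Set.Finite.mem_toFinset _).2 ⟨⟨h3, by rwa [sysG_B]⟩,
    abs_B_le_sinh h3.1 (by rwa [Hy_smul, B_ad]) (hm.trans hC)⟩, sysG_inv m a rfl⟩

end

end Pool.Agent.P.MP_d39174_gt
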