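import Pool.Agent.P.MP_d39174_gt.TriDef
import Pool.Agent.P.MP_d39174_gt.SysG

/-! A maximal family of far apart systoles. -/

namespace Pool.Agent.P.MP_d39174_gt

open UpperHalfPlane MatrixGroups

noncomputable section

variable {Γ : Subgroup SL(2, ℝ)} {l : ℝ}

/-- A maximal family of far apart systolic walls. -/
structure Far (Γ : Subgroup SL(2, ℝ)) (l : ℝ) (A : Set V) : Prop where
  sub : A ⊆ SS Γ l
  near : ∀ w ∈ SS Γ l, ∃ a ∈ A, w = a ∨ |B w a| < 1 ∨ ∃ v ∈ SS Γ l, |B w v| < 1 ∧ |B v a| < 1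
  far : ∀ a ∈ A, ∀ a' ∈ A, ∀ w ∈ SS Γ l, |B w a| < 1 → |B w a'| < 1 → Eqw Γ a a'

/-- Two walls cross or are crossed by a common systolic wall. -/
private def ChooseCl (Γ : Subgroup SL(2, ℝ)) (l : ℝ) (w a : V) : Prop :=
  |B w a| < 1 ∨ ∃ v ∈ SS Γ l, |B w v| < 1 ∧ |B v a| < 1

private lemma ChooseCl_symm {w a : V} (h : ChooseCl Γ l w a) : ChooseCl Γ l a w := by
  rcases h with h | ⟨v, hv, h1, h2⟩
  · exact Or.inl (by rwa [B_comm])
  · exact Or.inr ⟨v, hv, by rwa [B_comm], by rwa [B_comm]⟩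

private lemma ChooseCl_eqw {w b a : V} (e : Eqw Γ w b) (h : ChooseCl Γ l b a) :
    ∃ a', Eqw Γ a a' ∧ ChooseCl Γ l w a' := by
  obtain ⟨g, hg, e⟩ := e
  have key : ∀ x, |B b x| = |B w (g⁻¹ • x)| := by
    intro x
    rcases e with rfl | rfl
    · rw [B_ad_left]
    · rw [B_neg_left, abs_neg, B_ad_left]
  refine ⟨g⁻¹ • a, ⟨g⁻¹, Γ.inv_mem hg, Or.inl rfl⟩, ?_⟩
  rcases h with h | ⟨v, hv, h1, h2⟩
  · exact Or.inl (by rwa [← key])
  · exact Or.inr ⟨g⁻¹ • v, SS.ad hv (Γ.inv_mem hg), by rwa [← key], by rwa [B_ad]⟩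

private lemma Choose_zorn (Γ : Subgroup SL(2, ℝ)) (l : ℝ) : ∃ A : Set V, A ⊆ SS Γ l ∧
    (∀ a ∈ A, ∀ b, Eqw Γ a b → b ∈ A) ∧ (∀ a ∈ A, ∀ a' ∈ A, ChooseCl Γ l a a' → Eqw Γ a a') ∧
    ∀ w ∈ SS Γ l, ∃ a ∈ A, w = a ∨ ChooseCl Γ l w a := by
  obtain ⟨A, hA⟩ := zorn_subset {A : Set V | A ⊆ SS Γ l ∧ (∀ a ∈ A, ∀ b, Eqw Γ a b → b ∈ A) ∧
      ∀ a ∈ A, ∀ a' ∈ A, ChooseCl Γ l a a' → Eqw Γ a a'} (by
    intro c hc hch
    refine ⟨⋃₀ c, ⟨?_, ?_, ?_⟩, fun s hs => Set.subset_sUnion_of_mem hs⟩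
    · rintro a ⟨s, hs, ha⟩
      exact (hc hs).1 ha
    · rintro a ⟨s, hs, ha⟩ b e
      exact ⟨s, hs, (hc hs).2.1 a ha b e⟩
    · rintro a ⟨s, hs, ha⟩ a' ⟨t, ht, ha'⟩ e
      rcases hch.total hs ht with h | h
      · exact (hc ht).2.2 a (h ha) a' ha' e
      · exact (hc hs).2.2 a ha a' (h ha') e)
  obtain ⟨h1, h2, h3⟩ := hA.prop
  refine ⟨A, h1, h2, h3, fun w hw => ?_⟩
  by_contra hn
  have h4 : ∀ a ∈ A, ∀ b, Eqw Γ w b → ¬ ChooseCl Γ l b a := by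
    intro a ha b e c
    obtain ⟨a', e', c'⟩ := ChooseCl_eqw e c
    exact hn ⟨a', h2 a ha a' e', Or.inr c'⟩
  have h5 : A ∪ {b | Eqw Γ w b} ⊆ A := by
    refine hA.le_of_ge ⟨?_, ?_, ?_⟩ Set.subset_union_left
    · rintro a (ha | ha)
      · exact h1 ha
      · exact SS.eqw hw ha
    · rintro a (ha | ha) b e
      · exact Or.inl (h2 a ha b e)
      · exact Or.inr (Eqw.trans ha e)
    · rintro a (ha | ha) a' (ha' | ha') c
      · exact h3 a ha a' ha' c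
      · exact absurd (ChooseCl_symm c) (h4 a ha a' ha')
      · exact absurd c (h4 a' ha' a ha)
      · exact Eqw.trans (Eqw.symm ha) ha'
  exact hn ⟨w, h5 (Or.inr (Eqw.refl Γ w)), Or.inl rfl⟩

theorem exists_far (h : Nice Γ) (s : Sys Γ l) : ∃ A, WallSys Γ A ∧ Far Γ l A := by
  obtain ⟨A, h1, h2, h3, h4⟩ := Choose_zorn Γ l
  have per : ∀ a ∈ A, Per Γ a := fun a ha => SS.per s.pos (h1 ha)
  have inv : ∀ g ∈ Γ, ∀ a ∈ A, g • a ∈ A := fun g hg a ha => h2 a ha _ ⟨g, hg, Or.inl rfl⟩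
  refine ⟨A, ⟨per, inv, fun a ha => h2 a ha _ ⟨1, Γ.one_mem, Or.inr (by rw [one_smul])⟩, ?_, ?_,
    ?_⟩, h1, h4, fun a ha a' ha' w hw c1 c2 =>
      h3 a ha a' ha' (Or.inr ⟨w, hw, by rwa [B_comm], c2⟩)⟩
  · intro a ha b hb n1 n2
    by_cases e : Eqw Γ a b
    · obtain ⟨g, hg, rfl | rfl⟩ := e
      · exact simple h s (h1 ha) hg n1
      · rw [B_neg_right, abs_neg]
        exact simple h s (h1 ha) hg fun e => n2 (by rw [e])
    · exact lt_of_le_of_ne (not_lt.1 fun c => e (h3 a ha b hb (Or.inl c)))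
        (h.abs_B_ne_one (per a ha) (per b hb) n1 n2).symm
  · obtain ⟨F, -, hF⟩ := h.fin_orbits ((h.lf_SS s.pos).mono h1) (fun n hn => (h1 hn).1) inv
    exact ⟨F, hF⟩
  · obtain ⟨w, hw⟩ := s.ne
    obtain ⟨a, ha, -⟩ := h4 w hw
    exact ⟨a, ha⟩

private lemma Choose_step (s : Sys Γ l) {n m : V} (hn : n ∈ SS Γ l) (hm : B m m = 1)
    (h : |B n m| < 1) {z : ℍ} (hz : B n (Hy z) = 0) :
    ∃ g ∈ Γ, ∃ x : ℍ, B (g • m) (Hy x) = 0 ∧ dist z x ≤ l := by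
  obtain ⟨x, x1, x2⟩ := exists_cross hn.1 hm h
  obtain ⟨k, hk⟩ := near_translate hn.1 s.pos hz x1
  exact ⟨ex (k * l) n, sysG_mem hn k, ex (k * l) n • x, by rw [Hy_smul, B_ad, x2], hk⟩

lemma Far.nearK (s : Sys Γ l) {A : Set V} (w : WallSys Γ A) (f : Far Γ l A) {n : V}
    (hn : n ∈ SS Γ l) {z : ℍ} (hz : B n (Hy z) = 0) :
    ∃ a ∈ A, |B a (Hy z)| ≤ Real.sinh (2 * l) := by
  have hl := s.pos
  obtain ⟨a, ha, e | e | ⟨v, hv, e1, e2⟩⟩ := f.near n hn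
  · refine ⟨a, ha, ?_⟩
    rw [← e, hz, abs_zero]
    exact Real.sinh_nonneg_iff.2 (by linarith)
  · obtain ⟨g, hg, x, x1, x2⟩ := Choose_step s hn (f.sub ha).1 e hz
    exact ⟨g • a, w.inv g hg a ha,
      abs_B_le_sinh (f.sub (w.inv g hg a ha)).1 x1 (by linarith)⟩
  · obtain ⟨g, hg, x, x1, x2⟩ := Choose_step s hn hv.1 e1 hz
    have ha1 := w.inv g hg a ha
    obtain ⟨k, hk, y, y1, y2⟩ :=
      Choose_step s (SS.ad hv hg) (f.sub ha1).1 (by rwa [B_ad]) x1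
    have ha2 := w.inv k hk _ ha1
    exact ⟨k • g • a, ha2,
      abs_B_le_sinh (f.sub ha2).1 y1 (by linarith [dist_triangle z x y])⟩

private lemma Choose_rep (Γ : Subgroup SL(2, ℝ)) : ∃ (r : V → V) (k : V → SL(2, ℝ)),
    (∀ x, k x ∈ Γ ∧ x = k x • r x) ∧ ∀ g ∈ Γ, ∀ x, r (g • x) = r x := by
  have h1 : ∀ x : V, ∃ g ∈ Γ, x = g • Classical.epsilon fun y : V => ∃ g ∈ Γ, x = g • y :=
    fun x => Classical.epsilon_spec (p := fun y : V => ∃ g ∈ Γ, x = g • y)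
      ⟨x, 1, Γ.one_mem, (one_smul _ _).symm⟩
  choose k hk using h1
  refine ⟨fun x => Classical.epsilon fun y : V => ∃ g ∈ Γ, x = g • y, k, hk, fun g hg x => ?_⟩
  have e : (fun y : V => ∃ g' ∈ Γ, g • x = g' • y) = fun y : V => ∃ g' ∈ Γ, x = g' • y := by
    funext y
    apply propext
    constructor
    · rintro ⟨g', hg', e⟩
      exact ⟨g⁻¹ * g', Γ.mul_mem (Γ.inv_mem hg) hg', by rw [mul_smul, ← e, inv_smul_smul]⟩
    · rintro ⟨g', hg', e⟩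
      exact ⟨g * g', Γ.mul_mem hg hg', by rw [mul_smul, ← e]⟩
  show Classical.epsilon (fun y : V => ∃ g' ∈ Γ, g • x = g' • y) = _
  rw [e]

/-- Generators from a finite set of orbit representatives. -/
private lemma Choose_gen (h : Nice Γ) (s : Sys Γ l) {M : ℕ} {nb : V → Finset V}
    (c1 : ∀ a, (nb a).card ≤ M) (c2 : ∀ a ∈ SS Γ l, ∀ w ∈ nb a, w ∈ SS Γ l)
    (c3 : ∀ a ∈ SS Γ l, ∀ w ∈ SS Γ l, |B a w| < 1 → ∃ m : ℤ, ∃ v ∈ nb a, w = ex (m * l) a • v)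
    (conn : ∀ U : Set V, (∀ x ∈ U, ∀ y ∈ SS Γ l, (|B x y| < 1 ∨ y = -x) → y ∈ U) →
      (∃ x ∈ SS Γ l, x ∈ U) → SS Γ l ⊆ U)
    {Y : Finset V} (y1 : ∀ y ∈ Y, y ∈ SS Γ l)
    (y2 : ∀ w ∈ SS Γ l, ∃ g ∈ Γ, ∃ y ∈ Y, w = g • y) :
    Module.Finite ℝ (Additive Γ →+ ℝ) ∧
      Module.finrank ℝ (Additive Γ →+ ℝ) ≤ 1 + (M + 2) * Y.card := by
  classical
  obtain ⟨r, k, hk, hr⟩ := Choose_rep Γ
  have rr : ∀ x, r (r x) = r x := by
    intro x
    have e := hr _ (hk x).1 (r x)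
    rw [← (hk x).2] at e
    exact e.symm
  have rS : ∀ x ∈ SS Γ l, r x ∈ SS Γ l := by
    intro x hx
    have e := SS.ad hx (Γ.inv_mem (hk x).1)
    have e' : (k x)⁻¹ • x = r x := by
      rw [inv_smul_eq_iff]
      exact (hk x).2
    rwa [e'] at e
  obtain ⟨Z, hZ⟩ : ∃ Z, Z = Y.image r := ⟨_, rfl⟩
  have z0 : Z.card ≤ Y.card := hZ ▸ Finset.card_image_le
  have z1 : ∀ x ∈ SS Γ l, r x ∈ Z := by
    intro x hx
    obtain ⟨g, hg, y, hy, rfl⟩ := y2 x hx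
    rw [hr g hg, hZ]
    exact Finset.mem_image_of_mem r hy
  have z2 : ∀ z ∈ Z, z ∈ SS Γ l ∧ r z = z := by
    intro z hz
    rw [hZ] at hz
    obtain ⟨y, hy, rfl⟩ := Finset.mem_image.1 hz
    exact ⟨rS y (y1 y hy), rr y⟩
  obtain ⟨G, hG⟩ : ∃ G : Finset SL(2, ℝ), G = insert (-1)
      (Z.image (ex l) ∪ Z.image (fun y => k (-y)) ∪ (Z.biUnion nb).image k) := ⟨_, rfl⟩
  have g0 : G.card ≤ 1 + (M + 2) * Y.card := by
    have a1 := Finset.card_insert_le (-1 : SL(2, ℝ))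
      (Z.image (ex l) ∪ Z.image (fun y => k (-y)) ∪ (Z.biUnion nb).image k)
    have a2 := Finset.card_union_le (Z.image (ex l) ∪ Z.image (fun y => k (-y)))
      ((Z.biUnion nb).image k)
    have a3 := Finset.card_union_le (Z.image (ex l)) (Z.image fun y => k (-y))
    have a4 : (Z.image (ex l)).card ≤ Z.card := Finset.card_image_le
    have a5 : (Z.image fun y => k (-y)).card ≤ Z.card := Finset.card_image_le
    have a6 : ((Z.biUnion nb).image k).card ≤ (Z.biUnion nb).card := Finset.card_image_le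
    have a7 : (Z.biUnion nb).card ≤ Z.card * M :=
      Finset.card_biUnion_le_card_mul Z nb M fun a _ => c1 a
    have a8 : Z.card * M ≤ Y.card * M := Nat.mul_le_mul_right M z0
    rw [hG]
    nlinarith
  have m0 : (-1 : SL(2, ℝ)) ∈ Subgroup.closure (G : Set SL(2, ℝ)) :=
    Subgroup.subset_closure (by rw [hG]; exact Finset.mem_insert_self _ _)
  have m1 : ∀ y ∈ Z, ∀ m : ℤ, ex (m * l) y ∈ Subgroup.closure (G : Set SL(2, ℝ)) := by
    intro y hy m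
    rw [← ex_zpow]
    refine Subgroup.zpow_mem _ (Subgroup.subset_closure ?_) m
    rw [hG]
    exact Finset.mem_insert_of_mem (Finset.mem_union_left _ (Finset.mem_union_left _
      (Finset.mem_image_of_mem _ hy)))
  have m2 : ∀ y ∈ Z, k (-y) ∈ Subgroup.closure (G : Set SL(2, ℝ)) := by
    intro y hy
    refine Subgroup.subset_closure ?_
    rw [hG]
    exact Finset.mem_insert_of_mem (Finset.mem_union_left _ (Finset.mem_union_right _
      (Finset.mem_image_of_mem (fun y => k (-y)) hy)))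
  have m3 : ∀ y ∈ Z, ∀ v ∈ nb y, k v ∈ Subgroup.closure (G : Set SL(2, ℝ)) := by
    intro y hy v hv
    refine Subgroup.subset_closure ?_
    rw [hG]
    exact Finset.mem_insert_of_mem (Finset.mem_union_right _
      (Finset.mem_image_of_mem k (Finset.mem_biUnion.2 ⟨y, hy, hv⟩)))
  have hle : Subgroup.closure (G : Set SL(2, ℝ)) ≤ Γ := by
    rw [Subgroup.closure_le, hG]
    intro g hg
    rcases Finset.mem_insert.1 hg with rfl | hg
    · exact h.neg_one_mem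
    rcases Finset.mem_union.1 hg with hg | hg
    · rcases Finset.mem_union.1 hg with hg | hg
      · obtain ⟨y, hy, rfl⟩ := Finset.mem_image.1 hg
        exact (z2 y hy).1.2
      · obtain ⟨y, -, rfl⟩ := Finset.mem_image.1 hg
        exact (hk _).1
    · obtain ⟨y, -, rfl⟩ := Finset.mem_image.1 hg
      exact (hk _).1
  have hcl : Subgroup.closure (G : Set SL(2, ℝ)) = Γ := by
    obtain ⟨w, hw⟩ := s.ne
    refine closure_eq_of_conn (S := SS Γ l) (R := fun x y => |B x y| < 1 ∨ y = -x)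
      (Y := (Z : Set V)) (fun g hg x hx => SS.ad hx hg) ?_ conn (fun y hy => (z2 y hy).1)
      ⟨r w, z1 w hw⟩ hle ?_ ?_
    · rintro g - x y (e | rfl)
      · exact Or.inl (by rwa [B_ad])
      · exact Or.inr (smul_neg g x)
    · rintro y hy x hx (e | rfl)
      · obtain ⟨m, v, hv, rfl⟩ := c3 y (z2 y hy).1 x hx e
        refine ⟨ex (m * l) y * k v, Subgroup.mul_mem _ (m1 y hy m) (m3 y hy v hv), r v,
          z1 v (c2 y (z2 y hy).1 v hv), ?_⟩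
        rw [mul_smul, ← (hk v).2]
      · exact ⟨k (-y), m2 y hy, r (-y), z1 _ hx, (hk _).2⟩
    · intro y hy g hg hgy
      have e : g • y = y := by rw [← (z2 _ hgy).2, hr g hg, (z2 y hy).2]
      obtain ⟨m, hm⟩ := (s.prim h (z2 y hy).1).gen g hg e
      exact hm.mem m0 (m1 y hy m)
  obtain ⟨f1, f2⟩ := finrank_le_of_closure hcl
  exact ⟨f1, f2.trans g0⟩

/-- The first Betti number is bounded by a multiple of the number of orbits of the family. -/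
theorem betti_le (C : ℝ) : ∃ c : ℕ, ∀ (Γ : Subgroup SL(2, ℝ)) (l : ℝ), Nice Γ → Sys Γ l →
    1 / 2 ≤ l → l ≤ C →
    (∀ U : Set V, (∀ x ∈ U, ∀ y ∈ SS Γ l, (|B x y| < 1 ∨ y = -x) → y ∈ U) →
      (∃ x ∈ SS Γ l, x ∈ U) → SS Γ l ⊆ U) →
    ∀ A, WallSys Γ A → Far Γ l A → ∀ F : Finset V, (∀ m ∈ F, m ∈ A) →
    (∀ a ∈ A, ∃ g ∈ Γ, ∃ m ∈ F, a = g • m) →
    Module.Finite ℝ (Additive Γ →+ ℝ) ∧ Module.finrank ℝ (Additive Γ →+ ℝ) ≤ c * F.card := by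
  classical
  obtain ⟨M, hM⟩ := exists_nb C
  refine ⟨1 + (M + 2) * (1 + M + M * M), fun Γ l h s hl hC conn A w f F hF1 hF2 => ?_⟩
  have ex1 : ∀ a : V, ∃ N : Finset V, N.card ≤ M ∧ (a ∈ SS Γ l → (∀ v ∈ N, v ∈ SS Γ l) ∧
      ∀ v ∈ SS Γ l, |B a v| < 1 → ∃ m : ℤ, ∃ u ∈ N, v = ex (m * l) a • u) := by
    intro a
    by_cases ha : a ∈ SS Γ l
    · obtain ⟨N, n1, n2, n3⟩ := hM Γ l h s hl hC a ha
      exact ⟨N, n1, fun _ => ⟨fun v hv => (n2 v hv).1, n3⟩⟩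
    · exact ⟨∅, Nat.zero_le _, fun h => absurd h ha⟩
  choose nb c1 c2 using ex1
  have step : ∀ y ∈ SS Γ l, ∀ g ∈ Γ, ∀ v ∈ SS Γ l, |B v (g • y)| < 1 →
      ∃ k ∈ Γ, ∃ u ∈ nb y, v = k • u := by
    intro y hy g hg v hv e
    obtain ⟨m, u, hu, e'⟩ := (c2 y hy).2 (g⁻¹ • v) (SS.ad hv (Γ.inv_mem hg))
      (by rwa [B_comm, ← B_ad_right])
    refine ⟨g * ex (m * l) y, Γ.mul_mem hg (sysG_mem hy m), u, hu, ?_⟩
    rw [mul_smul, ← e', smul_inv_smul]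
  have s0 : ∀ y ∈ F, y ∈ SS Γ l := fun y hy => f.sub (hF1 y hy)
  have s1 : ∀ y ∈ F.biUnion nb, y ∈ SS Γ l := by
    intro y hy
    obtain ⟨x, hx, hy⟩ := Finset.mem_biUnion.1 hy
    exact (c2 x (s0 x hx)).1 y hy
  have s2 : ∀ y ∈ (F.biUnion nb).biUnion nb, y ∈ SS Γ l := by
    intro y hy
    obtain ⟨x, hx, hy⟩ := Finset.mem_biUnion.1 hy
    exact (c2 x (s1 x hx)).1 y hy
  obtain ⟨f1, f2⟩ := Choose_gen h s c1 (fun a ha => (c2 a ha).1) (fun a ha => (c2 a ha).2) conn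
    (Y := F ∪ F.biUnion nb ∪ (F.biUnion nb).biUnion nb) (by
      intro y hy
      rcases Finset.mem_union.1 hy with hy | hy
      · rcases Finset.mem_union.1 hy with hy | hy
        · exact s0 y hy
        · exact s1 y hy
      · exact s2 y hy) (by
      intro x hx
      obtain ⟨a, ha, e⟩ := f.near x hx
      obtain ⟨g, hg, m, hm, rfl⟩ := hF2 a ha
      rcases e with e | e | ⟨v, hv, e1, e2⟩
      · exact ⟨g, hg, m, Finset.mem_union_left _ (Finset.mem_union_left _ hm), e⟩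
      · obtain ⟨k, hk, u, hu, e'⟩ := step m (s0 m hm) g hg x hx e
        exact ⟨k, hk, u, Finset.mem_union_left _ (Finset.mem_union_right _
          (Finset.mem_biUnion.2 ⟨m, hm, hu⟩)), e'⟩
      · obtain ⟨k, hk, u, hu, rfl⟩ := step m (s0 m hm) g hg v hv e2
        have hu' : u ∈ F.biUnion nb := Finset.mem_biUnion.2 ⟨m, hm, hu⟩
        obtain ⟨k', hk', u', hu'', e'⟩ := step u (s1 u hu') k hk x hx e1
        exact ⟨k', hk', u', Finset.mem_union_right _ (Finset.mem_biUnion.2 ⟨u, hu', hu''⟩), e'⟩)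
  refine ⟨f1, f2.trans ?_⟩
  have a0 : 1 ≤ F.card := by
    obtain ⟨a, ha⟩ := w.ne
    obtain ⟨g, -, m, hm, -⟩ := hF2 a ha
    exact Finset.card_pos.2 ⟨m, hm⟩
  have a1 := Finset.card_union_le (F ∪ F.biUnion nb) ((F.biUnion nb).biUnion nb)
  have a2 := Finset.card_union_le F (F.biUnion nb)
  have a3 : (F.biUnion nb).card ≤ F.card * M :=
    Finset.card_biUnion_le_card_mul F nb M fun a _ => c1 a
  have a4 : ((F.biUnion nb).biUnion nb).card ≤ (F.biUnion nb).card * M :=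
    Finset.card_biUnion_le_card_mul _ nb M fun a _ => c1 a
  have a5 : (F.biUnion nb).card * M ≤ F.card * M * M := Nat.mul_le_mul_right M a3
  have a6 : (F ∪ F.biUnion nb ∪ (F.biUnion nb).biUnion nb).card ≤ (1 + M + M * M) * F.card := by
    nlinarith
  have a7 := Nat.mul_le_mul_left (M + 2) a6
  nlinarith

end

end Pool.Agent.P.MP_d39174_gt
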