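import Pool.Agent.P.MP_d39174_gt.Del2

/-! Existence of the triangulation. -/

namespace Pool.Agent.P.MP_d39174_gt

open UpperHalfPlane MatrixGroups

noncomputable section

variable {Γ : Subgroup SL(2, ℝ)} {A : Set V}

/-- Invariant non-crossing families of Delaunay pairs. -/
structure Del3Fam (Γ : Subgroup SL(2, ℝ)) (A : Set V) (E : Set (V × V)) : Prop where
  del : ∀ d ∈ E, Del A d.1 d.2
  symm : ∀ a b, (a, b) ∈ E → (b, a) ∈ E
  inv : ∀ g ∈ Γ, ∀ a b, (a, b) ∈ E → (g • a, g • b) ∈ E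
  ncr : ∀ d ∈ E, ∀ e ∈ E, ¬ Cr d.1 d.2 e.1 e.2

lemma del3_inv (w : WallSys Γ A) {a b c d : V} (ha : a ∈ A) (hb : b ∈ A) (hc : c ∈ A) (hd : d ∈ A)
    {g : SL(2, ℝ)} (hg : g ∈ Γ) (h : Cr (g • a) (g • b) c d) : Cr a b (g⁻¹ • c) (g⁻¹ • d) := by
  have := (Cr.ad g⁻¹ (w.per _ (w.inv g hg a ha)).1 (w.per _ (w.inv g hg b hb)).1 (w.per c hc).1
    (w.per d hd).1).2 h
  rwa [inv_smul_smul, inv_smul_smul] at this

lemma del3_extend (h : Nice Γ) (w : WallSys Γ A) {E : Set (V × V)} (F : Del3Fam Γ A E) {a b : V}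
    (hd : Del A a b) (hn : ∀ e ∈ E, ¬ Cr a b e.1 e.2) :
    Del3Fam Γ A (E ∪ {d | ∃ g ∈ Γ, d = (g • a, g • b) ∨ d = (g • b, g • a)}) := by
  have ha := hd.1
  have hb := hd.2.1
  have k1 : ∀ g ∈ Γ, ∀ e ∈ E, ¬ Cr (g • a) (g • b) e.1 e.2 := fun g hg e he hc =>
    hn _ (F.inv g⁻¹ (inv_mem hg) e.1 e.2 he)
      (del3_inv w ha hb (F.del e he).1 (F.del e he).2.1 hg hc)
  have k2 : ∀ g ∈ Γ, ∀ g' ∈ Γ, ¬ Cr (g • a) (g • b) (g' • a) (g' • b) := fun g hg g' hg' hc => by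
    have := del3_inv w ha hb (w.inv g' hg' a ha) (w.inv g' hg' b hb) hg hc
    rw [← mul_smul, ← mul_smul] at this
    exact hd.not_cr_self h w (mul_mem (inv_mem hg) hg') this
  refine ⟨?_, ?_, ?_, ?_⟩
  · rintro d (hd' | ⟨g, hg, rfl | rfl⟩)
    · exact F.del d hd'
    · exact hd.ad w hg
    · exact hd.symm.ad w hg
  · rintro x y (hd' | ⟨g, hg, e | e⟩)
    · exact Or.inl (F.symm _ _ hd')
    · obtain ⟨rfl, rfl⟩ := Prod.ext_iff.1 e
      exact Or.inr ⟨g, hg, Or.inr rfl⟩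
    · obtain ⟨rfl, rfl⟩ := Prod.ext_iff.1 e
      exact Or.inr ⟨g, hg, Or.inl rfl⟩
  · rintro k hk x y (hd' | ⟨g, hg, e | e⟩)
    · exact Or.inl (F.inv k hk _ _ hd')
    · obtain ⟨rfl, rfl⟩ := Prod.ext_iff.1 e
      exact Or.inr ⟨k * g, mul_mem hk hg, Or.inl (by rw [mul_smul, mul_smul])⟩
    · obtain ⟨rfl, rfl⟩ := Prod.ext_iff.1 e
      exact Or.inr ⟨k * g, mul_mem hk hg, Or.inr (by rw [mul_smul, mul_smul])⟩
  · rintro d (hd' | ⟨g, hg, rfl | rfl⟩) e (he | ⟨g', hg', rfl | rfl⟩) hc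
    · exact F.ncr d hd' e he hc
    · exact k1 g' hg' d hd' hc.symm
    · exact k1 g' hg' d hd' hc.swap_right.symm
    · exact k1 g hg e he hc
    · exact k2 g hg g' hg' hc
    · exact k2 g hg g' hg' hc.swap_right
    · exact k1 g hg e he hc.swap_left
    · exact k2 g hg g' hg' hc.swap_left
    · exact k2 g hg g' hg' hc.swap_left.swap_right

/-- A maximal invariant non-crossing family of Delaunay pairs. -/
lemma exists_max (h : Nice Γ) (w : WallSys Γ A) : ∃ E : Set (V × V),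
    (∀ d ∈ E, Del A d.1 d.2) ∧ (∀ a b, (a, b) ∈ E → (b, a) ∈ E) ∧
    (∀ g ∈ Γ, ∀ a b, (a, b) ∈ E → (g • a, g • b) ∈ E) ∧
    (∀ d ∈ E, ∀ e ∈ E, ¬ Cr d.1 d.2 e.1 e.2) ∧
    ∀ a b, Del A a b → (∀ e ∈ E, ¬ Cr a b e.1 e.2) → (a, b) ∈ E := by
  obtain ⟨E, hE⟩ := zorn_subset {E | Del3Fam Γ A E} fun c hc hch => by
    refine ⟨⋃₀ c, ⟨?_, ?_, ?_, ?_⟩, fun s hs => Set.subset_sUnion_of_mem hs⟩
    · rintro d ⟨s, hs, hd⟩
      exact (hc hs).del d hd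
    · rintro a b ⟨s, hs, hd⟩
      exact ⟨s, hs, (hc hs).symm a b hd⟩
    · rintro g hg a b ⟨s, hs, hd⟩
      exact ⟨s, hs, (hc hs).inv g hg a b hd⟩
    · rintro d ⟨s, hs, hd⟩ e ⟨t, ht, he⟩
      rcases hch.total hs ht with l | l
      · exact (hc ht).ncr d (l hd) e he
      · exact (hc hs).ncr d hd e (l he)
  have F : Del3Fam Γ A E := hE.prop
  refine ⟨E, F.del, F.symm, F.inv, F.ncr, fun a b hd hn => ?_⟩
  refine hE.le_of_ge (del3_extend h w F hd hn) Set.subset_union_left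
    (Or.inr ⟨1, one_mem _, Or.inl (by rw [one_smul, one_smul])⟩)

section Cell

variable (h : Nice Γ) (w : WallSys Γ A) {E : Set (V × V)} (F : Del3Fam Γ A E)
  (hm : ∀ a b, Del A a b → (∀ e ∈ E, ¬ Cr a b e.1 e.2) → (a, b) ∈ E)
  {p a : V} (hp : Wit A p) (ha : a ∈ A) (hap : B a p = 1)

include h w ha in
lemma del3_fin {x : V} (hx : x ∈ A) (hne : x ≠ a) : Fin' a x :=
  h.fin' (w.per a ha) (w.per x hx) hne.symm

include h w F hp in
lemma del3_share {x y : V} (hx : x ∈ A) (hy : y ∈ A) (h1 : B x p = 1) (h2 : B y p = 1)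
    {e : V × V} (he : e ∈ E) (hc : Cr x y e.1 e.2) : B e.1 p = 1 ∧ B e.2 p = 1 := by
  obtain ⟨m1, m2, -, q, hq, q1, q2⟩ := F.del e he
  exact share h w hp hq hx hy m1 m2 h1 h2 q1 q2 hc

include h w F hm hp ha hap in
/-- An extreme point of the cell is joined to `a`. -/
lemma del3_ext {m : V} (hmA : m ∈ A) (hmp : B m p = 1) (hne : m ≠ a)
    (hx : (∀ x ∈ A, B x p = 1 → x ≠ a → crd a x ≤ crd a m) ∨
      ∀ x ∈ A, B x p = 1 → x ≠ a → crd a m ≤ crd a x) : (a, m) ∈ E := by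
  refine hm a m ⟨ha, hmA, hne.symm, p, hp, hap, hmp⟩ fun e he hc => ?_
  obtain ⟨s1, s2⟩ := del3_share h w F hp ha hmA hap hmp he hc
  have m1 := (F.del e he).1
  have m2 := (F.del e he).2.1
  have n1 := hc.ne.2.1
  have n2 := hc.ne.2.2.2.1
  have := (Cr_crd' (w.per a ha).1 (del3_fin h w ha hmA hne) (del3_fin h w ha m1 n1)
    (del3_fin h w ha m2 n2)).1 hc
  rcases hx with hx | hx
  · have t1 := hx _ m1 s1 n1
    have t2 := hx _ m2 s2 n2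
    nlinarith [mul_nonneg (sub_nonneg.2 t1) (sub_nonneg.2 t2)]
  · have t1 := hx _ m1 s1 n1
    have t2 := hx _ m2 s2 n2
    nlinarith [mul_nonneg (sub_nonneg.2 t1) (sub_nonneg.2 t2)]

lemma del3_sign {u v c d : ℝ} (huv : u < v) (hc : (v - c) * (c - u) * ((v - d) * (d - u)) < 0) :
    ((u < c ∧ c < v) ∧ (d < u ∨ v < d)) ∨ ((u < d ∧ d < v) ∧ (c < u ∨ v < c)) := by
  have k1 : ∀ x : ℝ, 0 < (v - x) * (x - u) → u < x ∧ x < v := fun x hx => by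
    constructor <;> nlinarith
  have k2 : ∀ x : ℝ, (v - x) * (x - u) < 0 → x < u ∨ v < x := fun x hx => by
    by_contra hn
    push Not at hn
    nlinarith [mul_nonneg (sub_nonneg.2 hn.1) (sub_nonneg.2 hn.2)]
  rcases mul_neg_iff.1 hc with l | l
  · exact Or.inl ⟨k1 c l.1, k2 d l.2⟩
  · exact Or.inr ⟨k1 d l.2, k2 c l.1⟩

include h w F hm hp ha in
/-- Two points of the cell are joined unless an edge leaves the interval between them. -/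
lemma del3_join {u v : V} (hu : u ∈ A) (hup : B u p = 1) (hua : u ≠ a) (hv : v ∈ A)
    (hvp : B v p = 1) (hva : v ≠ a) (huv : crd a u < crd a v)
    (hx : ∀ x y, (x, y) ∈ E → B x p = 1 → x ≠ a → crd a u < crd a x → crd a x < crd a v →
      (y = a ∨ (y ≠ a ∧ (crd a y < crd a u ∨ crd a v < crd a y))) → False) : (u, v) ∈ E := by
  have hne : u ≠ v := fun e => by rw [e] at huv; exact lt_irrefl _ huv
  refine hm u v ⟨hu, hv, hne, p, hp, hup, hvp⟩ fun e he hc => ?_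
  obtain ⟨s1, s2⟩ := del3_share h w F hp hu hv hup hvp he hc
  obtain ⟨c, d⟩ := e
  have m1 : c ∈ A := (F.del _ he).1
  have m2 : d ∈ A := (F.del _ he).2.1
  have ua := (w.per a ha).1
  have fu := del3_fin h w ha hu hua
  have fv := del3_fin h w ha hv hva
  have key : ∀ x, x ∈ A → (x, a) ∈ E → B x p = 1 → Cr a x u v → False := by
    intro x hxA hxE hxp hcr
    have hxa : x ≠ a := hcr.ne.1.symm
    have := (Cr_crd' ua (del3_fin h w ha hxA hxa) fu fv).1 hcr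
    refine hx x a hxE hxp hxa ?_ ?_ (Or.inl rfl) <;> nlinarith
  by_cases hca : c = a
  · subst hca
    exact key d m2 (F.symm _ _ he) s2 hc.symm
  by_cases hda : d = a
  · subst hda
    exact key c m1 he s1 hc.symm.swap_left
  have := ((Cr_crd ua fu fv (del3_fin h w ha m1 hca) (del3_fin h w ha m2 hda)).1 hc).2
  rcases del3_sign huv this with l | l
  · exact hx c d he s1 hca l.1.1 l.1.2 (Or.inr ⟨hda, l.2⟩)
  · exact hx d c (F.symm _ _ he) s2 hda l.1.1 l.1.2 (Or.inr ⟨hca, l.2⟩)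

include h w F hm hp ha hap in
lemma del3_top {b : V} (hb : b ∈ A) (hbp : B b p = 1) (hba : b ≠ a) :
    ∃ m, (a, m) ∈ E ∧ B m p = 1 ∧ crd a b ≤ crd a m := by
  have hf : {x | x ∈ A ∧ B x p = 1 ∧ x ≠ a}.Finite :=
    (cell_finite h w hp.1).subset fun x hx => ⟨hx.1, hx.2.1⟩
  obtain ⟨m, hm1, hm2⟩ := Set.exists_max_image _ (crd a) hf ⟨b, hb, hbp, hba⟩
  exact ⟨m, del3_ext h w F hm hp ha hap hm1.1 hm1.2.1 hm1.2.2
    (Or.inl fun x h1 h2 h3 => hm2 x ⟨h1, h2, h3⟩), hm1.2.1, hm2 b ⟨hb, hbp, hba⟩⟩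

end Cell

lemma del3_tri (h : Nice Γ) (w : WallSys Γ A) {E : Set (V × V)} (F : Del3Fam Γ A E)
    (hm : ∀ a b, Del A a b → (∀ e ∈ E, ¬ Cr a b e.1 e.2) → (a, b) ∈ E) {a b : V}
    (hab : (a, b) ∈ E) : ∃ c, (b, c) ∈ E ∧ (c, a) ∈ E ∧ 0 < ori a b c := by
  have hd : Del A a b := F.del _ hab
  have ha := hd.1
  have hb := hd.2.1
  have hba : b ≠ a := hd.2.2.1.symm
  have ua := (w.per a ha).1
  obtain ⟨p, c0, hp, hc0, hap, hbp, hcp, ho⟩ := exists_third h w hd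
  have hca : c0 ≠ a := fun e => by
    rw [e, ori_cyc, ori_self] at ho
    exact lt_irrefl _ ho
  have fb := del3_fin h w ha hb hba
  have l0 := (ori_pos_iff ua fb (del3_fin h w ha hc0 hca)).1 ho
  obtain ⟨m, m1, m2, m3⟩ := del3_top h w F hm hp ha hap hc0 hcp hca
  have hf : {x | (a, x) ∈ E ∧ B x p = 1 ∧ crd a b < crd a x}.Finite :=
    (cell_finite h w hp.1).subset fun x hx => ⟨(F.del _ hx.1).2.1, hx.2.1⟩
  obtain ⟨c, hc1, hc2⟩ := Set.exists_min_image _ (crd a) hf ⟨m, m1, m2, l0.trans_le m3⟩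
  have hcA : c ∈ A := (F.del _ hc1.1).2.1
  have hcne : c ≠ a := (F.del _ hc1.1).2.2.1.symm
  have fc := del3_fin h w ha hcA hcne
  refine ⟨c, del3_join h w F hm hp ha hb hbp hba hcA hc1.2.1 hcne hc1.2.2 ?_, F.symm _ _ hc1.1,
    (ori_pos_iff ua fb fc).2 hc1.2.2⟩
  intro x y hxy hxp hxa l1 l2 hy
  have fx := del3_fin h w ha (F.del _ hxy).1 hxa
  rcases hy with rfl | ⟨hya, l3 | l3⟩
  · exact absurd (hc2 x ⟨F.symm _ _ hxy, hxp, l1⟩) (not_le.2 l2)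
  · exact F.ncr _ hab _ hxy ((Cr_crd' ua fb fx (del3_fin h w ha (F.del _ hxy).2.1 hya)).2
      (mul_neg_of_pos_of_neg (sub_pos.2 l1) (sub_neg.2 l3)))
  · exact F.ncr _ hc1.1 _ hxy ((Cr_crd' ua fc fx (del3_fin h w ha (F.del _ hxy).2.1 hya)).2
      (mul_neg_of_neg_of_pos (sub_neg.2 l2) (sub_pos.2 l3)))

lemma del3_conn (h : Nice Γ) (w : WallSys Γ A) {E : Set (V × V)} (F : Del3Fam Γ A E)
    (hm : ∀ a b, Del A a b → (∀ e ∈ E, ¬ Cr a b e.1 e.2) → (a, b) ∈ E) {S : Set V}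
    (hS : ∀ a ∈ S, ∀ b, (a, b) ∈ E → b ∈ S) {a b : V} (haS : a ∈ S) (hd : Del A a b) : b ∈ S := by
  by_contra hb
  obtain ⟨ha, hbA, -, p, hp, hap, hbp⟩ := hd
  have hf : {y | y ∈ A ∧ B y p = 1 ∧ y ∉ S}.Finite :=
    (cell_finite h w hp.1).subset fun x hx => ⟨hx.1, hx.2.1⟩
  obtain ⟨y, ⟨y1, y2, y3⟩, hy⟩ := Set.exists_min_image _ (crd a) hf ⟨b, hbA, hbp, hb⟩
  have hya : y ≠ a := fun e => y3 (e ▸ haS)
  have hf' : {x | x ∈ A ∧ B x p = 1 ∧ x ≠ a ∧ crd a x < crd a y}.Finite :=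
    (cell_finite h w hp.1).subset fun x hx => ⟨hx.1, hx.2.1⟩
  rcases Set.eq_empty_or_nonempty {x | x ∈ A ∧ B x p = 1 ∧ x ≠ a ∧ crd a x < crd a y} with e | e
  · refine y3 (hS a haS y (del3_ext h w F hm hp ha hap y1 y2 hya (Or.inr fun x h1 h2 h3 => ?_)))
    by_contra hl
    exact (Set.eq_empty_iff_forall_notMem.1 e x) ⟨h1, h2, h3, not_le.1 hl⟩
  · obtain ⟨x, ⟨x1, x2, x3, x4⟩, hx⟩ := Set.exists_max_image _ (crd a) hf' e
    have hxS : x ∈ S := by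
      by_contra hn
      exact absurd (hy x ⟨x1, x2, hn⟩) (not_le.2 x4)
    refine y3 (hS x hxS y (del3_join h w F hm hp ha x1 x2 x3 y1 y2 hya x4 ?_))
    intro u v huv hup hua l1 l2 _
    exact absurd (hx u ⟨(F.del _ huv).1, hup, hua, l2⟩) (not_le.2 l1)

theorem exists_tr (h : Nice Γ) (w : WallSys Γ A) : ∃ T : Tr Γ, T.A = A := by
  obtain ⟨E, e1, e2, e3, e4, hm⟩ := exists_max h w
  have F : Del3Fam Γ A E := ⟨e1, e2, e3, e4⟩
  refine ⟨⟨A, E, h, w, e1, e2, e3, fun d hd => (e1 d hd).fac w, e4,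
    fun d hd c hc => (e1 d hd).not_cr_wall w hc, fun a b hab => del3_tri h w F hm hab, ?_, ?_,
    fun S h1 h2 h3 => del_conn h w h1 (fun a ha b hd => del3_conn h w F hm h2 ha hd) h3⟩, rfl⟩
  · obtain ⟨T, hT⟩ := del_fin h w
    exact ⟨T, fun d hd => hT d.1 d.2 (e1 d hd)⟩
  · intro a ha
    obtain ⟨b, -, hb, hne, p, hp, hap, hbp⟩ := exists_del h w ha
    obtain ⟨m, m1, -⟩ := del3_top h w F hm hp ha hap hb hbp hne.symm
    exact ⟨m, m1⟩

end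

end Pool.Agent.P.MP_d39174_gt
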