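import Pool.Agent.P.MP_d39174_gt.Pot1

/-! Potentials and cocycles on a triangulation. -/

namespace Pool.Agent.P.MP_d39174_gt

open UpperHalfPlane MatrixGroups

noncomputable section

namespace Tr

variable {Γ : Subgroup SL(2, ℝ)} {T : Tr Γ} {M : Type*} [AddCommGroup M] [Module ℝ M]

lemma Pot_dart {a : V} (ha : a ∈ T.A) : ∃ d : T.D, d.a = a := by
  obtain ⟨b, hb⟩ := T.has a ha
  exact ⟨⟨(a, b), hb⟩, rfl⟩

lemma Pot_wall {a : V} (ha : a ∈ T.A) : T.Sep (-a) a := Or.inr ⟨T.ws.neg a ha, (neg_neg a).symm⟩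

lemma Pot_base (j : T.D → M) (hj : ∀ d, j (T.ι d) = -j d) (bb : V → T.D)
    (hb : ∀ a ∈ T.A, (bb a).a = a) (k : V → M) (hk : ∀ a ∈ T.A, k (-a) = -k a) :
    ∃ Φ : T.D → M, (∀ d, Φ (T.ν d) = Φ d) ∧ (∀ d, Φ (T.ι d) = Φ d + j d) ∧
      ∀ a ∈ T.A, Φ (bb (-a)) = Φ (bb a) + k a := by
  classical
  obtain ⟨S, hS1, hS2⟩ : ∃ S : V → V → T.D → ℝ, (∀ u v x, Sd u v x → S u v x = 1 / 2) ∧
      ∀ u v x, ¬ Sd u v x → S u v x = -(1 / 2) :=
    ⟨fun u v x => if Sd u v x then 1 / 2 else -(1 / 2), fun _ _ _ h => if_pos h,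
      fun _ _ _ h => if_neg h⟩
  have hSc : ∀ u v x y, (Sd u v y ↔ Sd u v x) → S u v y = S u v x := fun u v x y h => by
    by_cases h1 : Sd u v x
    · rw [hS1 _ _ _ h1, hS1 _ _ _ (h.2 h1)]
    · rw [hS2 _ _ _ h1, hS2 _ _ _ fun h2 => h1 (h.1 h2)]
  have hSn : ∀ u v x, T.Sep u v → S v u x = -S u v x := fun u v x h => by
    by_cases h1 : Sd u v x
    · rw [hS1 _ _ _ h1, hS2 _ _ _ fun h2 => (sd_not h x).1 h2 h1]
    · rw [hS2 _ _ _ h1, hS1 _ _ _ ((sd_not h x).2 h1), neg_neg]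
  obtain ⟨F, hF⟩ : ∃ F : T.D → T.D → ℝ, ∀ e z, F e z = S e.a e.b z +
      (1 / 2 - S e.a e.b (bb e.a)) * S (-e.a) e.a z -
      (1 / 2 - S e.b e.a (bb e.b)) * S (-e.b) e.b z := ⟨_, fun _ _ => rfl⟩
  have hFι : ∀ e z, F (T.ι e) z = -F e z := fun e z => by
    rw [hF, hF, ι_a, ι_b, hSn e.a e.b z (Or.inl e.mem)]
    ring
  have hne : ∀ d : T.D, T.ι d ≠ d := fun d h => d.a_ne_b (congrArg D.a h).symm
  have hne' : ∀ a ∈ T.A, -a ≠ a := fun a ha => (ne_neg_of_unit (unit ha)).symm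
  have i1 : ∀ a ∈ T.A, ∀ d, S (-a) a (T.ι d) = S (-a) a d := fun a ha d =>
    hSc _ _ _ _ (sd_ι (Pot_wall ha) (fun h => d.b_ne_neg (by rw [h.1, h.2, neg_neg]))
      fun h => d.b_ne_neg (by rw [h.1, h.2]))
  have i2 : ∀ d, F d (T.ι d) - F d d = -1 := fun d => by
    have h1 := hS1 _ _ _ (sd_self d)
    have h2 := hS1 _ _ _ (sd_self (T.ι d))
    rw [ι_a, ι_b, hSn d.a d.b _ (Or.inl d.mem)] at h2
    rw [hF, hF, i1 _ d.a_mem, i1 _ d.b_mem]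
    linarith
  have i3 : ∀ d e, e ≠ d → e ≠ T.ι d → F e (T.ι d) = F e d := fun d e h1 h2 => by
    rw [hF, hF, i1 _ e.a_mem, i1 _ e.b_mem, hSc _ _ _ _ (sd_ι (Or.inl e.mem)
      (fun h => h1 (D.ext h.1.symm h.2.symm)) fun h => h2 (D.ext h.2.symm h.1.symm))]
  have ho : ∀ a ∈ T.A, (bb (-a)).a = -(bb a).a := fun a ha => by
    rw [hb a ha, hb _ (T.ws.neg a ha)]
  have w1 : ∀ a ∈ T.A, ∀ b ∈ T.A, b ≠ a → b ≠ -a → S (-b) b (bb (-a)) = S (-b) b (bb a) :=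
    fun a ha b hb' h1 h2 => hSc _ _ _ _ (sd_opp (Pot_wall hb') (ho a ha)
      (by rw [hb a ha]; exact fun h => h2 (neg_eq_iff_eq_neg.1 h))
      (by rw [hb a ha]; exact fun h => h1 (neg_injective h))
      (by rwa [hb a ha]) (by rwa [hb a ha]))
  have w2 : ∀ a ∈ T.A, S (-a) a (bb a) = 1 / 2 := fun a ha => by
    have h := hS1 _ _ _ (sd_wall (bb a))
    rwa [hb a ha] at h
  have w3 : ∀ a ∈ T.A, S (-a) a (bb (-a)) = -(1 / 2) := fun a ha => by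
    have h := w2 _ (T.ws.neg a ha)
    rw [neg_neg, hSn _ _ _ (Pot_wall ha)] at h
    linarith
  have w4 : ∀ e : T.D, F e (bb (-e.a)) = F e (bb e.a) := fun e => by
    rw [hF, hF, w2 _ e.a_mem, w3 _ e.a_mem, w1 _ e.a_mem _ e.b_mem e.a_ne_b.symm e.b_ne_neg,
      hS1 _ _ _ (sd_fan (hb _ (T.ws.neg _ e.a_mem)))]
    ring
  have w5 : ∀ a, ∀ e : T.D, e.a = a ∨ e.a = -a → F e (bb (-a)) = F e (bb a) := by
    rintro a e (h | h)
    · rw [← h, w4]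
    · have h1 := w4 e
      rw [h, neg_neg] at h1
      exact h1.symm
  have w6 : ∀ a ∈ T.A, ∀ e : T.D, F e (bb (-a)) = F e (bb a) := fun a ha e => by
    by_cases h1 : e.a = a ∨ e.a = -a
    · exact w5 a e h1
    by_cases h2 : e.b = a ∨ e.b = -a
    · have h3 := w5 a (T.ι e) h2
      rwa [hFι, hFι, neg_inj] at h3
    rw [not_or] at h1 h2
    rw [hF, hF, w1 a ha _ e.a_mem h1.1 h1.2, w1 a ha _ e.b_mem h2.1 h2.2,
      hSc _ _ _ _ (sd_opp (Or.inl e.mem) (ho a ha) (by rw [hb a ha]; exact h1.1)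
        (by rw [hb a ha]; exact h1.2) (by rw [hb a ha]; exact h2.1) (by rw [hb a ha]; exact h2.2))]
  refine (potential (X := T.D) (I := T.D ⊕ T.A) (M := M)
    (Sum.map T.ι fun a => ⟨-a.1, T.ws.neg _ a.2⟩) ?_
    (Sum.elim (fun e z => -F e z) fun a z => -S (-a.1) a.1 z) (Sum.elim j fun a => k a.1) ?_
    (fun x y => y = T.ν x)
    (fun x i y => Sum.elim (fun d => x = d ∧ y = T.ι d)
      (fun a : T.A => x = bb a.1 ∧ y = bb (-a.1)) i) ?_ ?_ ?_ ?_).imp fun Φ h =>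
      ⟨fun d => h.1 d _ rfl, fun d => h.2 d (Sum.inl d) _ ⟨rfl, rfl⟩,
        fun a ha => h.2 _ (Sum.inr ⟨a, ha⟩) _ ⟨rfl, rfl⟩⟩
  · rintro (d | a)
    · rfl
    · exact congrArg Sum.inr (Subtype.ext (neg_neg a.1))
  · rintro (d | a)
    · exact hj d
    · exact hk a.1 a.2
  · rintro x y rfl (e | a)
    · simp only [Sum.elim_inl, hF, hSc _ _ _ _ (sd_ν _ _ x)]
    · simp only [Sum.elim_inr, hSc _ _ _ _ (sd_ν _ _ x)]
  · rintro x (d | a) y ⟨rfl, rfl⟩ (e | b)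
    · simp only [Sum.elim_inl, Sum.map_inl, Sum.inl.injEq]
      by_cases e1 : e = x
      · rw [if_pos e1, if_neg (e1 ▸ (hne e).symm), e1]
        linarith [i2 x]
      by_cases e2 : e = T.ι x
      · rw [if_neg e1, if_pos e2, e2, hFι, hFι]
        linarith [i2 x]
      · rw [if_neg e1, if_neg e2, i3 x e e1 e2, sub_self, sub_self]
    · simp only [Sum.elim_inr, Sum.map_inl, reduceCtorEq, if_false, i1 _ b.2, sub_self]
    · simp only [Sum.elim_inl, Sum.map_inr, reduceCtorEq, if_false, w6 _ a.2, sub_self]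
    · simp only [Sum.elim_inr, Sum.map_inr, Sum.inr.injEq, Subtype.ext_iff]
      by_cases e1 : b.1 = a.1
      · rw [if_pos e1, if_neg (e1 ▸ (hne' _ b.2).symm), e1, w2 _ a.2, w3 _ a.2]
        norm_num
      by_cases e2 : b.1 = -a.1
      · rw [if_neg e1, if_pos e2, e2, w2 _ (T.ws.neg _ a.2), neg_neg,
          hSn _ _ _ (Pot_wall a.2), w2 _ a.2]
        norm_num
      · rw [if_neg e1, if_neg e2, w1 _ a.2 _ b.2 e1 e2, sub_self, sub_self]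
  · rintro x (d | a) y - h
    · exact hne d (Sum.inl.inj h)
    · exact hne' _ a.2 (congrArg Subtype.val (Sum.inr.inj h))
  · intro U h1 h2 h3
    exact conn_darts (fun d hd => h2 d hd (Sum.inl d) _ ⟨rfl, rfl⟩) (fun d hd => h1 d hd _ rfl)
      (fun a ha => ⟨bb a, bb (-a), hb a ha, hb _ (T.ws.neg a ha),
        fun h => h2 _ h (Sum.inr ⟨a, ha⟩) _ ⟨rfl, rfl⟩⟩) h3

/-- Compatible jumps across edges and walls have a potential. -/
theorem pot (j : T.D → M) (K : T.D → T.D → M) (hj : ∀ d, j (T.ι d) = -j d)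
    (hK : ∀ d d', d'.a = -d.a → K d' d = -K d d')
    (hK' : ∀ d d', d'.a = -d.a → K (T.φ d) d' = K d d' + j (T.φ d)) :
    ∃ Φ : T.D → M, (∀ d, Φ (T.ν d) = Φ d) ∧ (∀ d, Φ (T.ι d) = Φ d + j d) ∧
      ∀ d d', d'.a = -d.a → Φ d' = Φ d + K d d' := by
  have hex : ∀ a : V, ∃ d : T.D, a ∈ T.A → d.a = a := fun a => by
    by_cases ha : a ∈ T.A
    · exact (Pot_dart ha).imp fun _ h _ => h
    · exact ⟨Classical.arbitrary _, fun h => absurd h ha⟩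
  choose bb hb using hex
  have ho : ∀ a ∈ T.A, (bb (-a)).a = -(bb a).a := fun a ha => by
    rw [hb a ha, hb _ (T.ws.neg a ha)]
  obtain ⟨Φ, h1, h2, h3⟩ := Pot_base j hj bb hb (fun a => K (bb a) (bb (-a))) fun a ha => by
    rw [neg_neg]
    exact hK _ _ (ho a ha)
  have s1 : ∀ d d', d'.a = -d.a → Φ (T.φ d) + K (T.φ d) d' = Φ d + K d d' := fun d d' h => by
    rw [hK' d d' h, φ_apply, h2, h1, h1, hj]
    abel
  have s2 : ∀ d d', d'.a = -d.a → ∀ i : ℕ,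
      Φ ((T.φ ^ i) d) + K ((T.φ ^ i) d) d' = Φ d + K d d' := fun d d' h i => by
    induction i with
    | zero => rfl
    | succ i ih => rw [pow_succ', Equiv.Perm.mul_apply, s1 _ _ (by rw [φ_pow_a, h]), ih]
  have s3 : ∀ d e d', e.a = d.a → d'.a = -d.a → Φ e + K e d' = Φ d + K d d' := by
    intro d e d' h h'
    rcases le_total d.r e.r with h4 | h4
    · obtain ⟨i, rfl⟩ := fan_nat h h4
      exact s2 d d' h' i
    · obtain ⟨i, rfl⟩ := fan_nat h.symm h4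
      exact (s2 e d' (by rw [h', h]) i).symm
  have s4 : ∀ d d', d'.a = -d.a → Φ d' = Φ d + K d d' → Φ d = Φ d' + K d' d := fun d d' h h' => by
    rw [h', hK d d' h, add_neg_cancel_right]
  refine ⟨Φ, h1, h2, fun d d' h => ?_⟩
  have e1 := hb _ (T.ws.neg _ d.a_mem)
  have e2 := (h3 _ d.a_mem).trans (s3 d (bb d.a) _ (hb _ d.a_mem) e1)
  have e3 : d.a = -d'.a := by rw [h, neg_neg]
  exact s4 d' d e3 ((s4 d _ e1 e2).trans (s3 d' _ d (e1.trans h.symm) e3))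

theorem pot_equiv (ρ : Γ → M →ₗ[ℝ] M) {j : T.D → M} {K : T.D → T.D → M} {Φ : T.D → M}
    (h1 : ∀ d, Φ (T.ν d) = Φ d) (h2 : ∀ d, Φ (T.ι d) = Φ d + j d)
    (h3 : ∀ d d', d'.a = -d.a → Φ d' = Φ d + K d d') (hj : ∀ (g : Γ) d, j (g • d) = ρ g (j d))
    (hK : ∀ (g : Γ) d d', d'.a = -d.a → K (g • d) (g • d') = ρ g (K d d')) (g : Γ) :
    ∃ v, ∀ d, Φ (g • d) = v + ρ g (Φ d) := by
  obtain ⟨d0⟩ : Nonempty T.D := inferInstance
  have h := conn_darts (U := {d : T.D | Φ (g • d) = (Φ (g • d0) - ρ g (Φ d0)) + ρ g (Φ d)})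
    (fun d hd => ?_) (fun d hd => ?_) (fun a ha => ?_) ⟨d0, (sub_add_cancel _ _).symm⟩
  · exact ⟨_, fun d => (h ▸ Set.mem_univ d :
      d ∈ {d : T.D | Φ (g • d) = (Φ (g • d0) - ρ g (Φ d0)) + ρ g (Φ d)})⟩
  · rw [Set.mem_ofPred_eq] at hd ⊢
    rw [← ι_smul, h2, h2, hd, hj, map_add, add_assoc]
  · rw [Set.mem_ofPred_eq] at hd ⊢
    rw [← ν_smul, h1, h1, hd]
  · obtain ⟨d, hd⟩ := Pot_dart ha
    obtain ⟨d', hd'⟩ := Pot_dart (T.ws.neg a ha)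
    refine ⟨d, d', hd, hd', fun h4 => ?_⟩
    have e : d'.a = -d.a := by rw [hd, hd']
    rw [Set.mem_ofPred_eq] at h4 ⊢
    rw [h3 (g • d) (g • d') (by rw [smul_a, smul_a, e, smul_neg]), h3 d d' e, h4, hK g d d' e,
      map_add, add_assoc]

theorem pot_coc (j : T.D → V) (K : T.D → T.D → V) (hj : ∀ d, j (T.ι d) = -j d)
    (hK : ∀ d d', d'.a = -d.a → K d' d = -K d d')
    (hK' : ∀ d d', d'.a = -d.a → K (T.φ d) d' = K d d' + j (T.φ d))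
    (ej : ∀ (g : Γ) d, j (g • d) = (g : SL(2, ℝ)) • j d)
    (eK : ∀ (g : Γ) d d', d'.a = -d.a → K (g • d) (g • d') = (g : SL(2, ℝ)) • K d d') :
    ∃ (Φ : T.D → V) (u : SL(2, ℝ) → V), Coc Γ u ∧ (∀ d, Φ (T.ν d) = Φ d) ∧
      (∀ d, Φ (T.ι d) = Φ d + j d) ∧ (∀ d d', d'.a = -d.a → Φ d' = Φ d + K d d') ∧
      ∀ (g : Γ) d, Φ (g • d) = u g + (g : SL(2, ℝ)) • Φ d := by
  classical
  obtain ⟨Φ, h1, h2, h3⟩ := pot j K hj hK hK'
  choose v hv using pot_equiv (fun g : Γ => DistribSMul.toLinearMap ℝ V (g : SL(2, ℝ)))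
    h1 h2 h3 ej eK
  have hu : ∀ (g : Γ) d, Φ (g • d) =
      (if h : (g : SL(2, ℝ)) ∈ Γ then v ⟨g, h⟩ else 0) + (g : SL(2, ℝ)) • Φ d := fun g d => by
    rw [dif_pos g.2]
    exact hv g d
  refine ⟨Φ, fun g => if h : g ∈ Γ then v ⟨g, h⟩ else 0, fun γ hγ δ hδ => ?_, h1, h2, h3, hu⟩
  obtain ⟨d⟩ : Nonempty T.D := inferInstance
  have e := hu (⟨γ, hγ⟩ * ⟨δ, hδ⟩) d
  rw [mul_smul, hu, hu, smul_add, ← add_assoc, ← mul_smul] at e
  exact (add_right_cancel e).symm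

end Tr

end

end Pool.Agent.P.MP_d39174_gt
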