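import Pool.Agent.P.MP_d39174_gt.Itin2
import Pool.Agent.P.MP_d39174_gt.Pot
import Pool.Agent.P.MP_d39174_gt.BaseL

/-! Strip deformations lengthen all walls that do not cross the system. -/

namespace Pool.Agent.P.MP_d39174_gt

open UpperHalfPlane MatrixGroups

noncomputable section

namespace Tr

variable {Γ : Subgroup SL(2, ℝ)} {T : Tr Γ}

def stripQ (d : T.D) : ℝ := B d.a d.b ^ 2 - 1

def stripC (d : T.D) : ℝ := ∑ m ∈ Finset.range d.f, stripQ ((T.φ ^ (m + 1)) d)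

def stripJ (d : T.D) : V := (stripC (T.ι d))⁻¹ • (d.b - B d.a d.b • d.a) -
  (stripC d)⁻¹ • (d.a - B d.a d.b • d.b)

lemma stripQ_pos (d : T.D) : 0 < stripQ d := by
  have := d.B_lt
  unfold stripQ
  nlinarith

lemma stripQ_smul (g : Γ) (d : T.D) : stripQ (g • d) = stripQ d := by
  simp only [stripQ, smul_a, smul_b, B_ad]

lemma stripC_pos (d : T.D) : 0 < stripC d :=
  Finset.sum_pos (fun _ _ => stripQ_pos _) (Finset.nonempty_range_iff.2 d.f_pos.ne')

lemma stripC_smul (g : Γ) (d : T.D) : stripC (g • d) = stripC d := by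
  simp only [stripC, f_smul, φ_pow_smul, stripQ_smul]

lemma stripC_φ (d : T.D) : stripC (T.φ d) = stripC d := by
  obtain ⟨g, hg⟩ := (d.f_dvd d.f).2 dvd_rfl
  rw [zpow_natCast] at hg
  have h1 := Finset.sum_range_succ (fun m => stripQ ((T.φ ^ (m + 1)) d)) d.f
  rw [Finset.sum_range_succ', pow_succ' _ d.f, Equiv.Perm.mul_apply, hg, φ_smul, stripQ_smul,
    zero_add, pow_one, add_left_inj] at h1
  rw [stripC, f_eq (φ_a d)]
  exact h1

lemma stripC_pow (d : T.D) (m : ℕ) : stripC ((T.φ ^ m) d) = stripC d := by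
  induction m with
  | zero => rfl
  | succ m ih => rw [pow_succ', Equiv.Perm.mul_apply, stripC_φ, ih]

lemma stripJ_ι (d : T.D) : stripJ (T.ι d) = -stripJ d := by
  simp only [stripJ, ι_a, ι_b, ι_ι, neg_sub, B_comm d.b]

lemma stripJ_smul (g : Γ) (d : T.D) : stripJ (g • d) = (g : SL(2, ℝ)) • stripJ d := by
  simp only [stripJ, ι_smul, stripC_smul, smul_a, smul_b, B_ad, smul_sub, ad_real]

lemma stripJ_a (d : T.D) : B (stripJ d) d.a = (stripC d)⁻¹ * stripQ d := by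
  simp only [stripJ, stripQ, B_sub_left, B_smul_left, d.a_unit, B_comm d.b]
  ring

lemma stripJ_sum (d : T.D) :
    B (∑ m ∈ Finset.range d.f, stripJ ((T.φ ^ (m + 1)) d)) d.a = 1 := by
  rw [B_sum_left, ← inv_mul_cancel₀ (stripC_pos d).ne', stripC.eq_1 d, Finset.mul_sum]
  refine Finset.sum_congr rfl fun m _ => ?_
  rw [← φ_pow_a d (m + 1), stripJ_a, stripC_pow, stripC]

lemma stripJ_neg {w : V} (hw : Per Γ w) (h : w ∉ T.A) (h' : ∀ a ∈ T.A, ¬ |B w a| < 1) {d : T.D}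
    (h1 : Crs w d) : B (stripJ d) w < 0 := by
  obtain ⟨a1, a2, a3, a4⟩ := fac_of_crs hw h h1 (h' _ d.a_mem) (h' _ d.b_mem)
  obtain ⟨b1, b2, b3⟩ := B_le_mul hw.1 d.a_unit d.b_unit a1 a2 a3 a4
  simp only [stripJ, B_sub_right, B_smul_right, B_comm _ w]
  have c1 : 0 < B w d.a - B d.a d.b * B w d.b := by
    nlinarith [mul_pos (neg_pos.2 (b1.trans (by norm_num : (-1 : ℝ) < 0)))
      (by nlinarith : 0 < B w d.b ^ 2 - 1)]
  have c2 : B w d.b - B d.a d.b * B w d.a < 0 := by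
    nlinarith [mul_pos (one_pos.trans b2) (by nlinarith : 0 < B w d.a ^ 2 - 1)]
  linarith [mul_pos (inv_pos.2 (stripC_pos d)) c1,
    mul_neg_of_pos_of_neg (inv_pos.2 (stripC_pos (T.ι d))) c2]

theorem strip_pos {m : V} (hA : ∀ a ∈ T.A, Eqw Γ m a) : ∃ u, Coc Γ u ∧
    ∀ w t, Prim Γ w t → (∀ a ∈ T.A, ¬ |B w a| < 1) → 0 < B (u (ex t w)) w := by
  obtain ⟨K, k1, k2, k3⟩ := exK_V (T := T) stripJ stripJ_smul fun d d' _ => by
    rw [stripJ_sum, stripJ_sum]
  obtain ⟨Φ, u, hu, p1, p2, -, p3⟩ := pot_coc stripJ K stripJ_ι k2 k3 stripJ_smul k1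
  have p4 : ∀ d, Φ (T.ι d) = Φ d - stripJ (T.ι d) := fun d => by
    rw [p2, stripJ_ι, sub_neg_eq_add]
  have p5 : ∀ d, Φ (T.φ d) = Φ d - stripJ (T.φ d) := fun d => by rw [φ_apply, p4, p1, p1]
  have p6 : ∀ d, Φ (T.ψ d) = Φ d - stripJ (T.ψ d) := fun d => by rw [ψ_apply, p4, p1]
  refine ⟨u, hu, fun w t hw h' => ?_⟩
  have hp : Per Γ w := ⟨hw.unit, t, hw.pos, hw.mem⟩
  have step : ∀ d : T.D, Str w d → B (Φ d) w < B (Φ (τ w d)) w := fun d hd => by
    by_cases h : w ∈ T.A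
    · obtain rfl : w = -d.a := hd.resolve_left fun e => e.1 h
      have h1 := mul_pos (inv_pos.2 (stripC_pos (T.φ d))) (stripQ_pos (T.φ d))
      rw [← stripJ_a, φ_a] at h1
      simp only [τ, kind, if_pos h, if_true, p5, B_sub_left, B_neg_right]
      linarith
    · have h1 := stripJ_neg hp h h' (τ_stn hp h
        (hd.resolve_right fun e => h (e ▸ T.ws.neg _ d.a_mem)).2).1.1
      have h2 : Φ (τ w d) = Φ d - stripJ (τ w d) := by
        by_cases h3 : 0 < crd w d.c <;> simp [τ, kind, h, h' _ d.a_mem, h3, p5, p6]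
      rw [h2, B_sub_left]
      linarith
  obtain ⟨d, hd⟩ : ∃ d : T.D, Str w d := by
    by_cases h : w ∈ T.A
    · obtain ⟨b, hb⟩ := T.has _ (T.ws.neg _ h)
      exact ⟨⟨_, hb⟩, Or.inr (neg_neg w).symm⟩
    · obtain ⟨d, hd⟩ := exists_stn hp h
      exact ⟨d, Or.inl ⟨h, hd⟩⟩
  obtain ⟨p, h0, h1, -⟩ := itin hw hd (γ := ⟨_, hw.mem⟩) (PM.refl _)
  have h2 : ∀ n, Str w ((τ w)^[n] d) := fun n =>
    Function.Iterate.rec (Str w) hd (fun _ => τ_str hp) n
  have h3 := strictMono_nat_of_lt_succ (f := fun n => B (Φ ((τ w)^[n] d)) w) (fun n => by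
    rw [Function.iterate_succ_apply']
    exact step _ (h2 n)) h0
  simp only [h1, p3, B_add_left, B_ex_ad, Function.iterate_zero_apply] at h3
  linarith

end Tr

end

end Pool.Agent.P.MP_d39174_gt
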