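import Pool.Agent.P.MP_d39174_gt.Fill2
import Pool.Agent.P.MP_d39174_gt.Strip
import Pool.Agent.P.MP_d39174_gt.Del3

/-! The systoles of a critical point fill. -/

namespace Pool.Agent.P.MP_d39174_gt

open UpperHalfPlane MatrixGroups

noncomputable section

variable {Γ : Subgroup SL(2, ℝ)} {l : ℝ}

theorem fill (h : Nice Γ) (s : Sys Γ l) (c : CritV Γ l) {m : V} (hm : Per Γ m) :
    ∃ n ∈ SS Γ l, |B n m| < 1 := by
  by_contra hc
  push Not at hc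
  obtain ⟨m', hw, hu⟩ := exists_simple_unc h (fun n hn => SS.per s.pos hn)
    (fun g hg n hn => SS.ad hn hg) (fun n hn => SS.neg hn) hm (fun n hn => not_lt.2 (hc n hn))
  obtain ⟨T, hT⟩ := exists_tr h hw
  obtain ⟨u, hu1, hu2⟩ := Tr.strip_pos (T := T) (m := m') (fun a ha => by rwa [hT] at ha)
  obtain ⟨F, h1, h2, c, h3, h4⟩ := c
  obtain ⟨n, hn⟩ := s.ne
  obtain ⟨n', hn', -⟩ := h2 n hn
  refine absurd (h4 u hu1) (ne_of_gt (Finset.sum_pos (fun i hi => mul_pos (h3 i hi)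
    (hu2 i l (s.prim h (h1 i hi)) fun a ha => hu i (h1 i hi) a (by rwa [hT] at ha)))
    ⟨n', hn'.1⟩))

theorem connS (h : Nice Γ) (s : Sys Γ l) (c : CritV Γ l) (U : Set V)
    (hU : ∀ x ∈ U, ∀ y ∈ SS Γ l, (|B x y| < 1 ∨ y = -x) → y ∈ U) (ne : ∃ x ∈ SS Γ l, x ∈ U) :
    SS Γ l ⊆ U :=
  conn_cross h (h.lf_SS s.pos) (fun _ hn => SS.per s.pos hn) (fun _ hn => SS.neg hn)
    (fun _ hp hg _ hx => ray_crossed h (h.lf_SS s.pos) (fun _ hn => hn.1)
      (fun _ hg _ hn => SS.ad hn hg) (fun _ hm => fill h s c hm) hp hg hx) U hU ne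

end

end Pool.Agent.P.MP_d39174_gt
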