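import Pool.Agent.P.MP_d39174_gt.Area2
import Pool.Agent.P.MP_d39174_gt.Betti
import Pool.Agent.P.MP_d39174_gt.Choose
import Pool.Agent.P.MP_d39174_gt.Fill
import Pool.Agent.P.MP_d39174_gt.Bridge

/-! The triangles cover the plane; the systole is bounded in terms of the genus. -/

namespace Pool.Agent.P.MP_d39174_gt

open UpperHalfPlane MatrixGroups

noncomputable section

open MeasureTheory

lemma Area3_exp {t x : ℝ} (ht : 0 < t) (hx : x < 0) (y : ℝ) :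
    ∃ m : ℕ, Real.exp (2 * (m * t)) * x < y := by
  obtain ⟨m, hm⟩ := exists_nat_gt (y / (2 * t * x))
  refine ⟨m, ?_⟩
  have h1 := Real.add_one_le_exp (2 * (m * t))
  have h2 : 2 * t * x < 0 := mul_neg_of_pos_of_neg (by linarith) hx
  rw [div_lt_iff_of_neg h2] at hm
  nlinarith

lemma Area3_line (r : ℝ) (u : ℍ) : B ⟨1, -2 * r, 0⟩ (Hy u) = (r - u.re) / u.im := by
  simp only [B, Hy]
  have := u.im_pos.ne'
  field_simp
  ring

namespace Tr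

variable {Γ : Subgroup SL(2, ℝ)} {T : Tr Γ}

/-- An edge between two points is close to one of its walls. -/
lemma near_of_sep : ∃ M : ℝ, ∀ (d : T.D) (z z' : ℍ), Pos d z → ¬ Pos d z' →
    ∃ y : ℍ, dist z y ≤ dist z z' ∧ (|B d.a (Hy y)| ≤ M ∨ |B d.b (Hy y)| ≤ M) := by
  obtain ⟨S, hS, hS'⟩ := fan_reps (T := T)
  obtain ⟨M, hM⟩ := (hS.image fun e : T.D => -B e.a e.b).bddAbove
  refine ⟨max M 1, fun d z z' h1 h2 => ?_⟩
  have hM' : -B d.a d.b ≤ M := by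
    obtain ⟨g, e, he, rfl⟩ := hS' d
    rw [smul_a, smul_b, B_ad]
    exact hM ⟨e, he, rfl⟩
  unfold Pos zc at h1 h2
  obtain ⟨y, s, t, hs, ht, e1, e2⟩ := seg_zero (n := ⟨1, -2 * d.r, 0⟩) (z := (fr d.a)⁻¹ • z)
    (w := (fr d.a)⁻¹ • z')
    (by rw [Area3_line]; exact div_nonpos_of_nonpos_of_nonneg (by linarith) (im_pos _).le)
    (by rw [Area3_line]; exact div_nonneg (by linarith) (im_pos _).le)
  have e3 := dist_add_of_comb hs ht e1
  have hy := y.im_pos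
  have e4 : y.re = d.r := by
    rw [Area3_line, div_eq_zero_iff] at e2
    rcases e2 with e2 | e2 <;> linarith
  refine ⟨fr d.a • y, ?_, ?_⟩
  · rw [dist_smul] at e3
    rw [← dist_smul (fr d.a)⁻¹, inv_smul_smul]
    linarith [dist_nonneg (x := y) (y := (fr d.a)⁻¹ • z')]
  have f1 : Fin' d.a d.b := fin' d.a_mem d.b_mem d.a_ne_b
  have f2 : Fin' d.a (-d.b) := fin' d.a_mem (T.ws.neg _ d.b_mem) fun e =>
    d.b_ne_neg (by rw [e, neg_neg])
  obtain ⟨n1, n2⟩ := (fac_iff_crd d.a_unit f1 f2).1.1 d.fac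
  obtain ⟨-, c0⟩ := B_crd d.a_unit d.b_unit f1 f2
  obtain ⟨c1, c2, c3, c4⟩ := VW2_co d.a_unit d.b_unit f1 f2
  have hr : d.r = crd d.a d.b := rfl
  have b1 : B d.a (Hy (fr d.a • y)) = -crd d.a d.b / y.im := by
    rw [Hy_smul, B_ad_right, VW2_inv d.a_unit, ← hr, ← e4]
    simp [B, w0, Hy]
  have b2 : B d.b (Hy (fr d.a • y)) * (crd d.a d.b - crd d.a (-d.b)) = y.im := by
    rw [Hy_smul, B_ad_right]
    simp only [B, Hy, e4, hr]
    field_simp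
    linear_combination (-2 * crd d.a d.b) * c2 - c3 + (crd d.a d.b ^ 2 + y.im ^ 2) * c4
  have b3 : B d.a d.b * (crd d.a d.b - crd d.a (-d.b)) = crd d.a d.b + crd d.a (-d.b) := by
    rw [c0, div_mul_cancel₀ _ c1]
  have b4 := d.B_lt
  have b5 : 0 < crd d.a d.b - crd d.a (-d.b) := by
    by_contra h
    nlinarith [not_lt.1 h]
  rcases le_total y.im (-crd d.a d.b) with h | h
  · refine Or.inr (le_trans ?_ (le_max_left _ _))
    have b6 : 0 < B d.b (Hy (fr d.a • y)) := by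
      by_contra h'
      nlinarith [not_lt.1 h']
    rw [abs_of_pos b6]
    refine le_trans ?_ hM'
    by_contra h'
    nlinarith [not_le.1 h']
  · refine Or.inl (le_trans ?_ (le_max_right _ _))
    rw [b1, abs_of_pos (div_pos (by linarith) hy), div_le_one hy]
    exact h

lemma finite_sep (z z' : ℍ) : {d : T.D | Pos d z ∧ ¬ Pos d z' ∧ 0 < B d.a (Hy z) ∧
    0 < B d.b (Hy z')}.Finite := by
  obtain ⟨M, hM⟩ := near_of_sep (T := T)
  have hW := T.ws.lf T.nice z (Real.sinh (Real.arsinh M + dist z z'))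
  have key : ∀ n ∈ T.A, ∀ y : ℍ, dist z y ≤ dist z z' → |B n (Hy y)| ≤ M →
      |B n (Hy z)| ≤ Real.sinh (Real.arsinh M + dist z z') := fun n hn y h1 h2 => by
    have h3 := VH3_lip (unit hn) z y
    have h4 := Real.arsinh_le_arsinh.2 h2
    rw [← Real.sinh_arsinh |B n (Hy z)|, Real.sinh_le_sinh]
    linarith
  have F1 := (hW.sep fun a => zc a z < 0).biUnion fun a ha =>
    finite_window (T := T) a (r₁ := zc a z') ha.2
  have F2 := (hW.sep fun a => zc a z' < 0).biUnion fun a ha =>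
    (finite_window (T := T) a (r₁ := zc a z) ha.2).image T.ι
  refine (F1.union F2).subset fun d ⟨h1, h2, h3, h4⟩ => ?_
  obtain ⟨y, e1, e2 | e2⟩ := hM d z z' h1 h2
  · exact Or.inl (Set.mem_biUnion (x := d.a) ⟨⟨d.a_mem, key _ d.a_mem y e1 e2⟩,
      (zc_neg_iff d.a_unit z).2 h3⟩ ⟨rfl, (not_le.1 h2).le, h1⟩)
  · refine Or.inr (Set.mem_biUnion (x := d.b) ⟨⟨d.b_mem, key _ d.b_mem y e1 e2⟩,
      (zc_neg_iff d.b_unit z').2 h4⟩ ⟨T.ι d, ⟨rfl, (pos_ι (T.ι d) z).1 h1, ?_⟩, rfl⟩)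
    exact (not_le.1 fun h => h2 ((pos_ι (T.ι d) z').2 h)).le

theorem cover_Δ {z : ℍ} (hz : ∀ a ∈ T.A, B a (Hy z) ≠ 0) :
    ∃ d : T.D, Pos d z ∧ ¬ Pos (T.φ d) z ∧ ¬ Pos (T.ψ d) z := by
  obtain ⟨U, a, ha, haU, u1, u2, u3⟩ := exists_chamber hz
  obtain ⟨ua, t, ht, hm⟩ := T.ws.per a ha
  have hmem : ∀ m : ℕ, ex (m * t) a ∈ Γ := fun m => ex_pow t a m ▸ Γ.pow_mem hm m
  have hz0 : zc a z < 0 := (zc_neg_iff ua z).2 (u2 a haU)
  obtain ⟨d₀, e₁, e₂⟩ : ∃ d : T.D, d.a = a ∧ d.r ≤ zc a z := by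
    obtain ⟨b, hb⟩ := T.has a ha
    obtain ⟨m, h⟩ := Area3_exp ht (D.r_neg (T := T) ⟨_, hb⟩) (zc a z)
    obtain ⟨e1, e2⟩ := r_ex (g := ⟨_, hmem m⟩) (d := (⟨_, hb⟩ : T.D)) (t := m * t) (PM.refl _)
    exact ⟨_, e1, e2 ▸ h.le⟩
  obtain ⟨m, h⟩ := Area3_exp ht hz0 d₀.r
  rw [← zc_ex ua] at h
  have u4 : ∀ b ∈ U, 0 < B b (Hy (ex (m * t) a • z)) := fun b hb => by
    rw [Hy_smul, B_ad_right]
    exact u2 _ (u3 _ (Γ.inv_mem (hmem m)) (by rw [inv_smul_eq_iff, ex_ad_self]) b hb)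
  have hX : {d : T.D | d.a ∈ U ∧ Pos d z ∧ ¬ Pos d (ex (m * t) a • z)}.Finite :=
    (finite_sep z (ex (m * t) a • z)).subset fun d hd =>
      ⟨hd.2.1, hd.2.2, u2 _ hd.1, u4 _ (u1 d hd.1)⟩
  obtain ⟨d, ⟨k1, k2, k3⟩, k4⟩ := hX.exists_minimalFor (fun d => {y | Pos d y}) _
    ⟨d₀, e₁ ▸ haU, by unfold Pos; rwa [e₁], by unfold Pos; rw [e₁]; exact not_le.2 h⟩
  refine ⟨d, k2, fun h1 => ?_, fun h1 => ?_⟩
  · obtain ⟨y, y1, y2⟩ := exists_pos_φ d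
    exact y2 (k4 (j := T.φ d) ⟨by rwa [φ_a], h1, fun h => k3 (pos_of_φ h)⟩
      (fun _ h => pos_of_φ h) y1)
  · obtain ⟨y, y1, y2⟩ := exists_pos_ψ d
    exact y2 (k4 (j := T.ψ d) ⟨u1 (T.φ d) (by rwa [φ_a]), h1, fun h => k3 (pos_of_ψ h)⟩
      (fun _ h => pos_of_ψ h) y1)

end Tr

theorem sys_bound (b : ℕ) : ∃ R : ℝ, ∀ (Γ : Subgroup SL(2, ℝ)) (l : ℝ), Nice Γ → Sys Γ l →
    Module.Finite ℝ (Additive Γ →+ ℝ) → Module.finrank ℝ (Additive Γ →+ ℝ) ≤ b → l < R := by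
  obtain ⟨c, hc, hΔ⟩ := vol_Δ
  obtain ⟨R, hR⟩ := vol_ball (c := (6 * b : ℕ) * c)
    (ENNReal.mul_ne_top (ENNReal.natCast_ne_top _) hc)
  refine ⟨R, fun Γ l h s _ hb => ?_⟩
  by_contra hl
  obtain ⟨A, hA, -⟩ := exists_far h s
  obtain ⟨T, rfl⟩ := exists_tr h hA
  let Q := MulAction.orbitRel.Quotient Γ T.D
  let _ : Fintype Q := Fintype.ofFinite Q
  have hπ : ∀ d e : T.D, (Quotient.mk'' d : Q) = Quotient.mk'' e ↔ ∃ g : Γ, e = g • d :=
    fun d e => by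
      rw [eq_comm, Quotient.eq'', MulAction.orbitRel_apply, MulAction.mem_orbit_iff]
      exact exists_congr fun _ => eq_comm
  have hcard := Tr.card_le_betti (T := T) (D := Q) Quotient.mk''_surjective hπ
  have hA' : T.A.Countable := by
    obtain ⟨F, hF⟩ := hA.fin
    refine ((h.countable.prod F.countable_toSet).image fun p => p.1 • p.2).mono fun a ha => ?_
    obtain ⟨g, hg, m, hm, e⟩ := hF a ha
    exact ⟨(g, m), ⟨hg, hm⟩, e.symm⟩
  have key := vol_ball_le h s (ι := Q)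
    (T := fun q => (fun z => (fr q.out.a)⁻¹ • z) ⁻¹' Δ q.out.r (T.φ q.out).r)
    (fun q => (measurableSet_Δ _ _).preimage (continuous_const_smul _).measurable)
    (N := ⋃ a ∈ T.A, {z : ℍ | B a (Hy z) = 0})
    ((measure_biUnion_null_iff hA').2 fun a ha => vol_wall (Tr.unit ha))
    (fun z hz => by
      obtain ⟨d, h1, h2, h3⟩ := Tr.cover_Δ (T := T) (z := z) fun a ha e =>
        hz (Set.mem_biUnion ha e)
      obtain ⟨g, hg⟩ := (hπ d (Quotient.mk'' d : Q).out).1 (Quotient.out_eq' _).symm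
      refine ⟨Quotient.mk'' d, g, g.2, ?_⟩
      rw [Set.mem_preimage, hg]
      exact Tr.mem_Δ ((Tr.pos_smul g d z).2 h1) (by rwa [Tr.φ_smul, Tr.pos_smul])
        (by rwa [Tr.ψ_smul, Tr.pos_smul])) I
  refine (hR l (not_lt.1 hl) I).not_ge (key.trans ?_)
  refine (Finset.sum_le_card_nsmul _ _ c fun q _ => ?_).trans ?_
  · rw [vol_smul]
    exact hΔ _ _ q.out.r_lt
  · rw [nsmul_eq_mul, Finset.card_univ]
    exact mul_le_mul_left (Nat.cast_le.2 (by omega)) c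

theorem crit_bound (g : ℕ) : ∃ C : ℝ, ∀ Γ : Subgroup SL(2, ℝ), IsSurfaceGroup g Γ →
    IsCritical Γ → sys Γ < C := by
  obtain ⟨R, hR⟩ := sys_bound (2 * g)
  refine ⟨2 * R, fun Γ hg hcr => ?_⟩
  have h := hg.nice
  obtain ⟨l, s⟩ := h.exists_sys
  have cv := (isCritical_iff h s).1 hcr
  have hl : 1 / 2 ≤ l := by
    obtain ⟨n, hn⟩ := s.ne
    obtain ⟨m, hm, e⟩ := fill h s cv (SS.per s.pos hn)
    exact half_le_of_cross h s.pos hm hn e
  obtain ⟨A, hA, hF⟩ := exists_far h s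
  obtain ⟨F, f1, f2⟩ := h.fin_orbits (hA.lf h) (fun n hn => (hA.per n hn).1) hA.inv
  obtain ⟨c, hc⟩ := betti_le l
  have := hR Γ l h s (hc Γ l h s hl le_rfl (connS h s cv) A hA hF F f1 f2).1 hg.genus.le
  rw [s.sys_eq h]
  linarith

end

end Pool.Agent.P.MP_d39174_gt
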