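import Pool.Agent.P.MP_d39174_gt.Itin2
import Pool.Agent.P.MP_d39174_gt.Choose
import Pool.Agent.P.MP_d39174_gt.BaseL
import Pool.Agent.P.MP_d39174_gt.Del1

/-! Uniform bounds for stations and jumps. -/

namespace Pool.Agent.P.MP_d39174_gt

open UpperHalfPlane MatrixGroups

noncomputable section

namespace Tr

private lemma Bounds_pt_smul {x : V} (hx : Fut x) {t : ℝ} (ht : 0 < t) : pt (t • x) = pt x := by
  apply Hy_inj
  have h0 : 0 < -B x x := by linarith [hx.1]
  have h1 : -B (t • x) (t • x) = t ^ 2 * -B x x := by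
    rw [B_smul_left, B_smul_right]; ring
  have h2 : 0 < √(-B x x) := Real.sqrt_pos.2 h0
  rw [Hy_pt (hx.smul ht), Hy_pt hx, h1, Real.sqrt_mul (sq_nonneg t), Real.sqrt_sq ht.le, smul_smul]
  congr 1
  field_simp

private lemma Bounds_ord {Γ : Subgroup SL(2, ℝ)} {l : ℝ} (s : Sys Γ l) {A : Set V}
    (ws : WallSys Γ A) (f : Far Γ l A) {p a w : V} (hp : Wit A p) (ha : a ∈ A) (hap : B a p = 1)
    (hw : w ∈ SS Γ l) (h1 : 0 < B w (p - a)) (h2 : B w p ≤ 0) :
    |B w (Hy (pt (p - a)))| ≤ Real.sinh (2 * l) := by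
  have ua : B a a = 1 := (ws.per a ha).1
  rw [B_sub_right] at h1
  have hu : B w a < 0 := by linarith
  obtain ⟨σ, hσ⟩ : ∃ σ : ℝ, σ = B w p / B w a := ⟨_, rfl⟩
  have s0 : 0 ≤ σ := by rw [hσ]; exact div_nonneg_of_nonpos h2 hu.le
  have s1 : σ < 1 := by rw [hσ, div_lt_one_of_neg hu]; linarith
  have e0 : σ * B w a = B w p := by rw [hσ]; exact div_mul_cancel₀ _ hu.ne
  have fq : Fut (p - σ • a) := by
    have := hp.1.foot ua s0 s1.le
    rwa [hap, mul_one] at this
  have fa : Fut (p - a) := by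
    have := hp.1.foot ua zero_le_one le_rfl
    rwa [hap, mul_one, one_smul] at this
  have key : ∀ n ∈ A, 1 ≤ B n p → 1 - σ ≤ B n (p - σ • a) := by
    intro n hn hnp
    by_cases e : n = a
    · rw [e, B_sub_right, B_smul_right, hap, ua, mul_one]
    · have hf : Fac n a := nearest_fac ws hp ha hap hn (by linarith) e
      have h3 : 0 < B n (p - a) :=
        Fac.pos (ws.per n hn).1 ua hf fa (by rw [B_sub_right, hap, ua, sub_self])
      rw [B_sub_right] at h3
      rw [B_sub_right, B_smul_right]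
      nlinarith [mul_nonneg s0 h3.le, mul_nonneg (sub_nonneg.2 s1.le) (sub_nonneg.2 hnp)]
  have key2 : ∀ n ∈ A, 1 - σ ≤ |B n (p - σ • a)| := by
    intro n hn
    rcases le_abs.1 (hp.2 n hn) with h | h
    · exact (key n hn h).trans (le_abs_self _)
    · have := key (-n) (ws.neg n hn) (by rwa [B_neg_left])
      rw [B_neg_left] at this
      exact this.trans (neg_le_abs _)
  obtain ⟨c, hc, ec⟩ : ∃ c : ℝ, 0 < c ∧ Hy (pt (p - σ • a)) = c • (p - σ • a) :=
    ⟨_, one_div_pos.2 (Real.sqrt_pos.2 (by linarith [fq.1])), Hy_pt fq⟩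
  have hz : B w (Hy (pt (p - σ • a))) = 0 := by
    rw [ec, B_smul_right, B_sub_right, B_smul_right, e0, sub_self, mul_zero]
  obtain ⟨n, hn, hb⟩ := f.nearK s ws hw hz
  have ea : B a (Hy (pt (p - σ • a))) = c * (1 - σ) := by
    rw [ec, B_smul_right, B_sub_right, B_smul_right, hap, ua, mul_one]
  have hb2 : |B a (Hy (pt (p - σ • a)))| ≤ Real.sinh (2 * l) := by
    rw [ec, B_smul_right, abs_mul, abs_of_pos hc] at hb
    rw [ea, abs_of_pos (mul_pos hc (by linarith))]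
    exact (mul_le_mul_of_nonneg_left (key2 n hn) hc.le).trans hb
  obtain ⟨z, -, hd, ez⟩ := exists_foot ua (pt (p - σ • a))
  obtain ⟨k, hk, ek⟩ : ∃ k : ℝ, 0 < k ∧
      Hy z = k • (Hy (pt (p - σ • a)) - B a (Hy (pt (p - σ • a))) • a) :=
    ⟨_, one_div_pos.2 (Real.sqrt_pos.2 (by positivity)), ez⟩
  have e2 : Hy z = (k * c) • (p - a) := by
    rw [ek, ea, ec]
    module
  have e3 : pt (p - a) = z := by
    rw [← Bounds_pt_smul fa (mul_pos hk hc), ← e2, pt_Hy]
  rw [e3]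
  refine abs_B_le_sinh hw.1 hz ?_
  rw [dist_comm, hd, ← Real.arsinh_sinh (2 * l)]
  exact Real.arsinh_le_arsinh.2 hb2

private lemma Bounds_first (C : ℝ) : ∃ R : ℝ, ∀ (Γ : Subgroup SL(2, ℝ)) (l : ℝ) (T : Tr Γ),
    Sys Γ l → l ≤ C → Far Γ l T.A → ∀ (d : T.D) (w : V), w ∈ SS Γ l → w ∉ T.A → Crs w d →
    First w d → |B w d.a| < 1 → |B w (Hy (onW d.a |d.r|))| ≤ R := by
  obtain ⟨β, hβ, hA⟩ := angle_bound C
  obtain ⟨R, hR⟩ := window_bound β (Real.exp (2 * |C|)) hβ
    (Real.one_le_exp (by positivity))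
  refine ⟨R, fun Γ l T s hC f d w hw hwA h1 h2 h3 => ?_⟩
  have ha : d.a ∈ SS Γ l := f.sub d.a_mem
  obtain ⟨k1, -, k3⟩ := first_iff (SS.per s.pos hw) hwA h3 h1.1
  obtain ⟨k4, k5⟩ := k3.1 ⟨h1, h2⟩
  obtain ⟨r1, r2⟩ := r_ex (g := ⟨ex l d.a, ha.2⟩) (d := d) (t := l) (PM.refl _)
  have r0 := d.r_neg
  have e1 : 1 < Real.exp (2 * l) := Real.one_lt_exp_iff.2 (by linarith [s.pos])
  have e2 : Real.exp (2 * l) ≤ Real.exp (2 * |C|) :=
    Real.exp_le_exp.2 (by linarith [le_abs_self C])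
  have k6 : Real.exp (2 * l) * d.r ≤ crd d.a (-w) := by
    by_contra hh
    have := k5 _ r1 (by rw [r2]; exact not_le.1 hh)
    rw [r2] at this
    nlinarith
  have hb : |B d.a (-w)| ≤ β := by
    rw [B_neg_right, abs_neg, B_comm]
    exact hA Γ l T.nice s.pos hC w hw d.a ha h3
  have := hR d.a (-w) |d.r| d.a_unit (SS.neg hw).1 hb (abs_pos.2 r0.ne)
    (by rw [abs_of_neg k1, abs_of_neg r0]; nlinarith)
    (by rw [abs_of_neg k1, abs_of_neg r0]; nlinarith)
  rwa [B_neg_left, abs_neg] at this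

/-- Only boundedly many systolic walls have a given dart as a station. -/
theorem str_bound (C : ℝ) : ∃ M : ℕ, ∀ (Γ : Subgroup SL(2, ℝ)) (l : ℝ) (T : Tr Γ), Sys Γ l →
    1 / 2 ≤ l → l ≤ C → Far Γ l T.A → ∀ d : T.D,
    {w | w ∈ SS Γ l ∧ Str w d}.Finite ∧ {w | w ∈ SS Γ l ∧ Str w d}.ncard ≤ M := by
  obtain ⟨R, hR⟩ := Bounds_first C
  obtain ⟨M, hM⟩ := packS C (max R (Real.sinh (2 * C)))
  refine ⟨1 + M + M + M + M, fun Γ l T s h2 hC f d => ?_⟩
  obtain ⟨ha, hb, -, p, hp, hap, hbp⟩ := T.del d.1 d.2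
  let S : ℍ → Set V := fun z => {n | n ∈ SS Γ l ∧ |B n (Hy z)| ≤ max R (Real.sinh (2 * C))}
  have fS : ∀ z, (S z).Finite := fun z => T.nice.lf_SS s.pos z _
  have cS : ∀ z, (S z).ncard ≤ M := fun z => hM Γ l T.nice s h2 hC z
  have hs : Real.sinh (2 * l) ≤ max R (Real.sinh (2 * C)) :=
    (Real.sinh_le_sinh.2 (by linarith)).trans (le_max_right _ _)
  have sub : {w | w ∈ SS Γ l ∧ Str w d} ⊆ {-d.a} ∪ S (pt (p - d.a)) ∪ S (pt (p - d.b)) ∪
      S (onW d.a |d.r|) ∪ S (onW (T.ι d).a |(T.ι d).r|) := by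
    rintro w ⟨hw, ⟨hwA, h1, h3, h4⟩ | h⟩
    · have pw := SS.per s.pos hw
      by_cases ca : |B w d.a| < 1
      · exact Or.inl (Or.inr ⟨hw, (hR Γ l T s hC f d w hw hwA h1 (h3 ca) ca).trans
          (le_max_left _ _)⟩)
      by_cases cb : |B w d.b| < 1
      · obtain ⟨c1, c2⟩ := crs_neg pw hwA d
        have hn : -w ∉ T.A := fun h => hwA (by simpa using T.ws.neg _ h)
        have := hR Γ l T s hC f (T.ι d) (-w) (SS.neg hw) hn (c1.2 h1) ((c2 h1).2 (h4 cb))
          (by rwa [B_neg_left, abs_neg])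
        rw [B_neg_left, abs_neg] at this
        exact Or.inr ⟨hw, this.trans (le_max_left _ _)⟩
      obtain ⟨f1, -, f3, -⟩ := fac_of_crs pw hwA h1 ca cb
      have fa : Fut (p - d.a) := by
        have := hp.1.foot d.a_unit zero_le_one le_rfl
        rwa [show B d.a p = 1 from hap, mul_one, one_smul] at this
      have fb : Fut (p - d.b) := by
        have := hp.1.foot d.b_unit zero_le_one le_rfl
        rwa [show B d.b p = 1 from hbp, mul_one, one_smul] at this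
      have pa : 0 < B w (p - d.a) := Fac.pos hw.1 d.a_unit f1 fa
        (by rw [B_sub_right, show B d.a p = 1 from hap, d.a_unit, sub_self])
      have pb : 0 < B (-w) (p - d.b) := Fac.pos (SS.neg hw).1 d.b_unit f3 fb
        (by rw [B_sub_right, show B d.b p = 1 from hbp, d.b_unit, sub_self])
      rcases le_total (B w p) 0 with h0 | h0
      · exact Or.inl (Or.inl (Or.inl (Or.inr
          ⟨hw, (Bounds_ord s T.ws f hp ha hap hw pa h0).trans hs⟩)))
      · have := Bounds_ord s T.ws f hp hb hbp (SS.neg hw) pb (by rw [B_neg_left]; linarith)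
        rw [B_neg_left, abs_neg] at this
        exact Or.inl (Or.inl (Or.inr ⟨hw, this.trans hs⟩))
    · exact Or.inl (Or.inl (Or.inl (Or.inl h)))
  have fin := ((((Set.finite_singleton (-d.a)).union (fS (pt (p - d.a)))).union
    (fS (pt (p - d.b)))).union (fS (onW d.a |d.r|))).union (fS (onW (T.ι d).a |(T.ι d).r|))
  refine ⟨fin.subset sub, (Set.ncard_le_ncard sub fin).trans ?_⟩
  refine (Set.ncard_union_le _ _).trans (add_le_add ?_ (cS _))
  refine (Set.ncard_union_le _ _).trans (add_le_add ?_ (cS _))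
  refine (Set.ncard_union_le _ _).trans (add_le_add ?_ (cS _))
  refine (Set.ncard_union_le _ _).trans (add_le_add ?_ (cS _))
  exact (Set.ncard_singleton _).le

end Tr

end

end Pool.Agent.P.MP_d39174_gt
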