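import Pool.Agent.P.MP_d39174_gt.Bounds

/-! Offsets of jumps. -/

namespace Pool.Agent.P.MP_d39174_gt

open UpperHalfPlane MatrixGroups

noncomputable section

namespace Tr

lemma Bounds2_scale {x y l : ℝ} (hx : 0 < x) (hy : 0 < y) (hl : 0 < l) :
    ∃ m : ℤ, y ≤ Real.exp (2 * (m * l)) * x ∧
      Real.exp (2 * (m * l)) * x < Real.exp (2 * l) * y := by
  obtain ⟨u, hu⟩ : ∃ u : ℝ, u = Real.log (y / x) / (2 * l) := ⟨_, rfl⟩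
  have hu' : u * (2 * l) = Real.log (y / x) := by
    rw [hu]
    exact div_mul_cancel₀ _ (by positivity)
  refine ⟨⌈u⌉, ?_, ?_⟩
  · have h1 : u ≤ ⌈u⌉ := Int.le_ceil u
    have h2 : Real.log (y / x) ≤ 2 * (⌈u⌉ * l) := by nlinarith
    have h3 := Real.exp_le_exp.2 h2
    rw [Real.exp_log (by positivity), div_le_iff₀ hx] at h3
    exact h3
  · have h1 : (⌈u⌉ : ℝ) < u + 1 := Int.ceil_lt_add_one u
    have h2 : 2 * (⌈u⌉ * l) < 2 * l + Real.log (y / x) := by nlinarith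
    have h3 := Real.exp_lt_exp.2 h2
    rw [Real.exp_add, Real.exp_log (by positivity)] at h3
    have h4 := mul_lt_mul_of_pos_right h3 hx
    rwa [mul_assoc (Real.exp (2 * l)), div_mul_cancel₀ _ hx.ne'] at h4

variable {Γ : Subgroup SL(2, ℝ)} {T : Tr Γ}

lemma Bounds2_first {l : ℝ} (hl : 0 < l) (hA : T.A ⊆ SS Γ l) {w : V} (hw : Per Γ w)
    (h : w ∉ T.A) {d : T.D} (h1 : |B w d.a| < 1) (hc : Crs w d) (hf : First w d) :
    0 < crd d.a w ∧ crd d.a (-w) < d.r ∧ Real.exp (2 * l) * d.r ≤ crd d.a (-w) ∧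
      ∀ e : T.D, e.a = d.a → crd d.a (-w) < e.r → d.r ≤ e.r := by
  obtain ⟨-, h3, h4⟩ := first_iff hw h h1 hc.1
  obtain ⟨h5, h6⟩ := h4.1 ⟨hc, hf⟩
  refine ⟨h3, h5, ?_, h6⟩
  by_contra hn
  have hn := not_le.1 hn
  have hg : ex l d.a ∈ Γ := (hA d.a_mem).2
  obtain ⟨e1, e2⟩ := r_ex (g := ⟨ex l d.a, hg⟩) (d := d) (t := l) (PM.refl _)
  have h7 := h6 _ e1 (by rw [e2]; exact hn)
  rw [e2] at h7
  have h8 := d.r_neg
  have h9 : 2 * l + 1 ≤ Real.exp (2 * l) := Real.add_one_le_exp _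
  nlinarith

lemma Bounds2_opp {a : V} (ha : a ∈ T.A) : ∃ k : ℝ, 0 < k ∧
    (∀ x, Fin' a x → Fin' (-a) x → crd (-a) x = -k / crd a x) ∧
    ∀ e : T.D, e.a = -a → 0 < crd a e.b ∧ e.r = -k / crd a e.b := by
  obtain ⟨k, hk, hx⟩ := crd_neg_left (unit ha)
  refine ⟨k, hk, hx, fun e he => ?_⟩
  have f1 : Fin' a e.b := fin' ha e.b_mem (fun q => e.b_ne_neg (by rw [he, neg_neg]; exact q.symm))
  have f2 : Fin' (-a) e.b := fin' (T.ws.neg a ha) e.b_mem (by rw [← he]; exact e.a_ne_b)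
  have q : e.r = -k / crd a e.b := by
    rw [← hx _ f1 f2, ← he]
    rfl
  refine ⟨?_, q⟩
  by_contra hn
  have hn := not_lt.1 hn
  have h1 := e.r_neg
  have h2 : 0 ≤ -k / crd a e.b := div_nonneg_of_nonpos (by linarith) hn
  linarith

lemma Bounds2_rho_smul (g : Γ) (d d' : T.D) : rho (g • d) (g • d') = rho d d' := by
  obtain ⟨k, hk, e⟩ := crd_ad (g : SL(2, ℝ)) d.a_unit
  unfold rho
  rw [smul_a, smul_b, smul_b, e _ d.b_unit, e _ d'.b_unit, mul_div_mul_left _ _ hk.ne']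

lemma Bounds2_rho_symm {d d' : T.D} (h : d'.a = -d.a) : rho d' d = rho d d' := by
  obtain ⟨k, hk, e, e'⟩ := Bounds2_opp d.a_mem
  obtain ⟨p, q⟩ := e' d' h
  have h1 : crd d'.a d.b = -k / d.r := by
    rw [h]
    exact e _ (fin' d.a_mem d.b_mem d.a_ne_b)
      (fin' (T.ws.neg _ d.a_mem) d.b_mem d.b_ne_neg.symm)
  have h2 := d.r_neg.ne
  show -(d'.r / crd d'.a d.b) = -(d.r / crd d.a d'.b)
  rw [q, h1]
  field_simp

lemma Bounds2_base {l ρ : ℝ} (hl : 0 < l) (hρ : 0 < ρ) (hA : T.A ⊆ SS Γ l) :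
    ∃ Bs : T.Base, ∀ p ∈ Bs.S, Real.exp (2 * l) * ρ ≤ rho p.1 p.2 ∧
      rho p.1 p.2 < Real.exp (2 * l) * (Real.exp (2 * l) * ρ) := by
  refine exists_base (fun d d' => Real.exp (2 * l) * ρ ≤ rho d d' ∧
      rho d d' < Real.exp (2 * l) * (Real.exp (2 * l) * ρ)) ?_ ?_ ?_
  · intro g d d' h
    rw [Bounds2_rho_smul]
    exact h
  · intro d d' h h'
    rw [Bounds2_rho_symm h]
    exact h'
  · intro a ha
    obtain ⟨b, hb⟩ := T.has a ha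
    obtain ⟨b', hb'⟩ := T.has (-a) (T.ws.neg a ha)
    obtain ⟨d, hd⟩ : ∃ d : T.D, d.a = a := ⟨⟨(a, b), hb⟩, rfl⟩
    obtain ⟨d', hd'⟩ : ∃ d : T.D, d.a = -a := ⟨⟨(-a, b'), hb'⟩, rfl⟩
    obtain ⟨k, -, -, e'⟩ := Bounds2_opp ha
    have p := (e' d' hd').1
    have hx : 0 < -d.r / crd a d'.b := div_pos (by linarith [d.r_neg]) p
    obtain ⟨m, m1, m2⟩ := Bounds2_scale hx (mul_pos (Real.exp_pos (2 * l)) hρ) hl
    have hg : ex (m * l) d.a ∈ Γ := sysG_mem (hA d.a_mem) m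
    obtain ⟨e1, e2⟩ := r_ex (g := ⟨ex (m * l) d.a, hg⟩) (d := d) (t := m * l) (PM.refl _)
    have e3 : rho ((⟨ex (m * l) d.a, hg⟩ : Γ) • d) d' =
        Real.exp (2 * (m * l)) * (-d.r / crd a d'.b) := by
      show -(((⟨ex (m * l) d.a, hg⟩ : Γ) • d).r /
        crd ((⟨ex (m * l) d.a, hg⟩ : Γ) • d).a d'.b) = _
      rw [e1, e2, hd]
      ring
    refine ⟨(⟨ex (m * l) d.a, hg⟩ : Γ) • d, d', e1.trans hd, hd', ?_⟩
    rw [e3]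
    exact ⟨m1, m2⟩

lemma Bounds2_rf {l : ℝ} (s : Sys Γ l) (hA : T.A ⊆ SS Γ l) (β : T.D) :
    Real.exp (2 * l) * ((T.φ ^ β.f) β).r = β.r := by
  have hg : ex (-l) β.a ∈ Γ := by
    rw [ex_neg]
    exact Γ.inv_mem (hA β.a_mem).2
  have h1 := β.f_spec (s.prim T.nice (hA β.a_mem)) (γ := ⟨ex (-l) β.a, hg⟩) (PM.refl _)
  obtain ⟨-, e2⟩ := r_ex (g := ⟨ex (-l) β.a, hg⟩) (d := β) (t := -l) (PM.refl _)
  rw [h1, e2, ← mul_assoc, ← Real.exp_add]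
  simp

lemma Bounds2_mono (β : T.D) : StrictMono fun i : ℕ => ((T.φ ^ i) β).r := by
  intro i j hij
  have h := r_zpow_strictMono β (show (i : ℤ) < j by exact_mod_cast hij)
  simpa only [zpow_natCast] using h

lemma Bounds2_arith {E ρ x y ω σ s t K : ℝ} (hE : 0 < E) (hρ : 0 < ρ) (_hx : 0 < x)
    (ht : 0 < t) (h1 : x < ω) (h2 : ω ≤ E * x) (h3 : σ < s) (h4 : s ≤ E * σ) (h5 : σ ≤ ρ * ω)
    (h6 : ω ≤ ρ * σ) (h7 : x ≤ y) (h8 : y < E * x) (h9 : E * ρ ≤ y / t)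
    (h10 : y / t < E * (E * ρ)) (hK : E ^ 4 * ρ ^ 2 ≤ K) : t < s ∧ s ≤ K * t := by
  rw [le_div_iff₀ ht] at h9
  rw [div_lt_iff₀ ht] at h10
  constructor
  · have a1 : E * (ρ * t) < E * x := by nlinarith
    have a2 : ρ * t < x := lt_of_mul_lt_mul_left a1 hE.le
    have a3 : ρ * σ < ρ * s := mul_lt_mul_of_pos_left h3 hρ
    have a4 : ρ * t < ρ * s := by linarith
    exact lt_of_mul_lt_mul_left a4 hρ.le
  · have a1 : E * σ ≤ E * (ρ * ω) := mul_le_mul_of_nonneg_left h5 hE.le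
    have a2 : E * (ρ * ω) ≤ E * (ρ * (E * x)) :=
      mul_le_mul_of_nonneg_left (mul_le_mul_of_nonneg_left h2 hρ.le) hE.le
    have a3 : E * (ρ * (E * x)) ≤ E * (ρ * (E * (E * (E * ρ) * t))) :=
      mul_le_mul_of_nonneg_left (mul_le_mul_of_nonneg_left
        (mul_le_mul_of_nonneg_left (by linarith) hE.le) hρ.le) hE.le
    have a4 : E ^ 4 * ρ ^ 2 * t ≤ K * t := mul_le_mul_of_nonneg_right hK ht.le
    have a5 : E * (ρ * (E * (E * (E * ρ) * t))) = E ^ 4 * ρ ^ 2 * t := by ring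
    linarith

lemma Bounds2_jump {l ρ : ℝ} (s : Sys Γ l) (hA : T.A ⊆ SS Γ l) (hρ : 0 < ρ)
    (hr : ∀ a ∈ SS Γ l, ∀ w ∈ SS Γ l, |B a w| < 1 →
      |crd a w| ≤ ρ * |crd a (-w)| ∧ |crd a (-w)| ≤ ρ * |crd a w|)
    (Bs : T.Base) (hB : ∀ p ∈ Bs.S, Real.exp (2 * l) * ρ ≤ rho p.1 p.2 ∧
      rho p.1 p.2 < Real.exp (2 * l) * (Real.exp (2 * l) * ρ))
    {m₀ : ℕ} (hm : Real.exp (2 * l) ^ 4 * ρ ^ 2 ≤ Real.exp (2 * m₀ * l))
    {w : V} (hw : w ∈ SS Γ l) {d : T.D} (hs : Str w d) (hk : kind w d = 2) :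
    ∃ p ∈ Bs.S, ∃ i j : ℕ, i < p.1.f ∧
      j ≤ m₀ * p.2.f ∧ d = (T.φ ^ i) p.1 ∧ T.ι (jmp w d) = (T.φ ^ j) p.2 := by
  have hl := s.pos
  have per : Per Γ w := SS.per hl hw
  obtain ⟨hn, st, hc, -⟩ := kind_two hs hk
  obtain ⟨σ0, a1, a2, -⟩ := Bounds2_first hl hA per hn hc st.1 (st.2.1 hc)
  obtain ⟨j1, j2⟩ := jmp_spec per hn st.1 hc
  have hd' : (T.ι (jmp w d)).a = -d.a := j1
  have hc' : |B w (jmp w d).b| < 1 := by
    rw [j1, B_neg_right, abs_neg]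
    exact hc
  obtain ⟨c1, c2⟩ := crs_neg per hn (jmp w d)
  have hn' : -w ∉ T.A := fun q => hn (by simpa using T.ws.neg _ q)
  have hc'' : |B (-w) (T.ι (jmp w d)).a| < 1 := by
    rw [ι_a, B_neg_left, abs_neg]
    exact hc'
  obtain ⟨-, b1, b2, -⟩ := Bounds2_first hl hA per.neg hn' hc'' (c1.2 j2.1)
    ((c2 j2.1).2 (j2.2.2 hc'))
  generalize T.ι (jmp w d) = d' at hd' b1 b2 ⊢
  rw [neg_neg, hd'] at b1 b2
  obtain ⟨k, hk0, e, e'⟩ := Bounds2_opp d.a_mem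
  have hca : |B d.a w| < 1 := by
    rw [B_comm]
    exact hc
  obtain ⟨f1, -, f3, -⟩ := fin'_of_cross d.a_unit per.1 hca
  obtain ⟨s0, q⟩ := e' d' hd'
  rw [e w f1 f3, q] at b1 b2
  have b3 : crd d.a w < crd d.a d'.b := by
    rw [div_lt_div_iff₀ σ0 s0] at b1
    nlinarith
  have b4 : crd d.a d'.b ≤ Real.exp (2 * l) * crd d.a w := by
    rw [← mul_div_assoc, div_le_div_iff₀ s0 σ0] at b2
    nlinarith
  obtain ⟨r1, r2⟩ := hr _ (hA d.a_mem) _ hw hca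
  have hdr := d.r_neg
  have hω : crd d.a (-w) < 0 := by linarith
  rw [abs_of_pos σ0, abs_of_neg hω] at r1 r2
  obtain ⟨p0, hp0, hp0a⟩ := Bs.ex d.a d.a_mem
  obtain ⟨m, m1, m2⟩ := Bounds2_scale (x := -p0.1.r) (y := -d.r) (by linarith [p0.1.r_neg])
    (by linarith) hl
  have hg : ex (m * l) p0.1.a ∈ Γ := sysG_mem (hA p0.1.a_mem) m
  obtain ⟨e1, e2⟩ := r_ex (g := ⟨ex (m * l) p0.1.a, hg⟩) (d := p0.1) (t := m * l) (PM.refl _)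
  obtain ⟨p, hp, hpa, p1, p2⟩ : ∃ p ∈ Bs.S, p.1.a = d.a ∧ -d.r ≤ -p.1.r ∧
      -p.1.r < Real.exp (2 * l) * -d.r := by
    refine ⟨_, Bs.inv ⟨ex (m * l) p0.1.a, hg⟩ p0 hp0, e1.trans hp0a, ?_, ?_⟩
    · rw [e2]
      linarith
    · rw [e2]
      linarith
  have hpb : p.2.a = -d.a := by rw [Bs.opp p hp, hpa]
  obtain ⟨t0, qt⟩ := e' p.2 hpb
  obtain ⟨g1, g2⟩ := hB p hp
  have hrho : rho p.1 p.2 = -p.1.r / crd d.a p.2.b := by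
    show -(p.1.r / crd p.1.a p.2.b) = _
    rw [hpa, neg_div]
  rw [hrho] at g1 g2
  obtain ⟨u1, u2⟩ := Bounds2_arith (x := -d.r) (ω := -crd d.a (-w)) (Real.exp_pos (2 * l)) hρ
    (by linarith) t0 (by linarith) (by linarith) b3 b4 r1 r2 p1 p2 g1 g2 hm
  obtain ⟨i, hi⟩ := fan_nat (d := p.1) (e := d) hpa.symm (by linarith)
  have hle : p.2.r ≤ d'.r := by
    rw [qt, q, div_le_div_iff₀ t0 s0]
    nlinarith
  obtain ⟨j, hj⟩ := fan_nat (d := p.2) (e := d') (hd'.trans hpb.symm) hle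
  refine ⟨p, hp, i, j, ?_, ?_, hi, hj⟩
  · refine (Bounds2_mono p.1).lt_iff_lt.1 ?_
    show ((T.φ ^ i) p.1).r < ((T.φ ^ p.1.f) p.1).r
    rw [← hi]
    have h1 := Bounds2_rf s hA p.1
    refine lt_of_mul_lt_mul_left ?_ (Real.exp_pos (2 * l)).le
    rw [h1]
    linarith
  · refine index_le (s.prim T.nice (hA p.2.a_mem)) ?_
    rw [← hj, qt, q, ← mul_div_assoc, div_le_div_iff₀ s0 t0, Real.exp_neg]
    have h1 := Real.exp_pos (2 * m₀ * l)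
    have h2 : (Real.exp (2 * m₀ * l))⁻¹ * crd d.a d'.b ≤ crd d.a p.2.b := by
      rw [inv_mul_le_iff₀ h1]
      exact u2
    nlinarith

lemma Bounds2_window {l : ℝ} (s : Sys Γ l) (hA : T.A ⊆ SS Γ l) (β : T.D) {w : V}
    (hw : w ∈ SS Γ l) {i : ℕ} (hi : i ≤ β.f) (hs : Str w ((T.φ ^ i) β))
    (hk : kind w ((T.φ ^ i) β) = 2) :
    |B β.a w| < 1 ∧ |crd β.a (-w)| ≤ Real.exp (2 * l) * -β.r ∧
      -β.r ≤ Real.exp (2 * l) * |crd β.a (-w)| ∧ crd β.a (-w) < ((T.φ ^ i) β).r ∧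
      ∀ e : T.D, e.a = β.a → crd β.a (-w) < e.r → ((T.φ ^ i) β).r ≤ e.r := by
  have hl := s.pos
  obtain ⟨hn, st, hc, -⟩ := kind_two hs hk
  obtain ⟨-, a1, a2, a3⟩ := Bounds2_first hl hA (SS.per hl hw) hn hc st.1 (st.2.1 hc)
  rw [φ_pow_a] at hc a1 a2 a3
  have h0 : β.r ≤ ((T.φ ^ i) β).r := by
    have := (Bounds2_mono β).monotone (Nat.zero_le i)
    simpa using this
  have h1 : ((T.φ ^ i) β).r ≤ ((T.φ ^ β.f) β).r := (Bounds2_mono β).monotone hi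
  have h2 := Bounds2_rf s hA β
  have h3 := ((T.φ ^ i) β).r_neg
  have hE := Real.exp_pos (2 * l)
  have hω : crd β.a (-w) < 0 := by linarith
  rw [abs_of_neg hω]
  refine ⟨by rw [B_comm]; exact hc, ?_, ?_, a1, a3⟩
  · have := mul_le_mul_of_nonneg_left h0 hE.le
    linarith
  · have h4 := mul_le_mul_of_nonneg_left h1 hE.le
    have h5 := mul_le_mul_of_nonneg_left a1.le hE.le
    linarith

/-- Base pairs for which all jumps have bounded nonnegative offsets. -/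
theorem jump_bound (C : ℝ) : ∃ m₀ M : ℕ, ∀ (Γ : Subgroup SL(2, ℝ)) (l : ℝ) (T : Tr Γ), Sys Γ l →
    1 / 2 ≤ l → l ≤ C → T.A ⊆ SS Γ l → ∃ Bs : T.Base,
    (∀ w ∈ SS Γ l, ∀ d : T.D, Str w d → kind w d = 2 → ∃ p ∈ Bs.S, ∃ i j : ℕ, i < p.1.f ∧
      j ≤ m₀ * p.2.f ∧ d = (T.φ ^ i) p.1 ∧ T.ι (jmp w d) = (T.φ ^ j) p.2) ∧
    ∀ β : T.D, {q : V × ℕ | q.1 ∈ SS Γ l ∧ q.2 ≤ β.f ∧ Str q.1 ((T.φ ^ q.2) β) ∧
        kind q.1 ((T.φ ^ q.2) β) = 2}.Finite ∧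
      {q : V × ℕ | q.1 ∈ SS Γ l ∧ q.2 ≤ β.f ∧ Str q.1 ((T.φ ^ q.2) β) ∧
        kind q.1 ((T.φ ^ q.2) β) = 2}.ncard ≤ M := by
  obtain ⟨β0, hβ0, hang⟩ := angle_bound C
  obtain ⟨ρ, hρ, hrat⟩ := ratio_bound β0 hβ0
  obtain ⟨R, hR⟩ := window_bound β0 (Real.exp (2 * |C|)) hβ0
    (Real.one_le_exp (by positivity))
  obtain ⟨M, hM⟩ := packS C R
  refine ⟨4 + ⌈ρ ^ 2⌉₊, M, fun Γ l T s hl hC hA => ?_⟩
  have hl0 := s.pos
  have hρ0 : 0 < ρ := by linarith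
  obtain ⟨Bs, hB⟩ := Bounds2_base hl0 hρ0 hA
  refine ⟨Bs, fun w hw d hs hk => ?_, fun β => ?_⟩
  · refine Bounds2_jump s hA hρ0 ?_ Bs hB ?_ hw hs hk
    · intro a ha v hv hc
      exact hrat a v ha.1 hv.1 (hang Γ l T.nice hl0 hC a ha v hv hc)
    · have h1 : ρ ^ 2 ≤ (⌈ρ ^ 2⌉₊ : ℝ) := Nat.le_ceil _
      have h2 : (0 : ℝ) ≤ (⌈ρ ^ 2⌉₊ : ℝ) := Nat.cast_nonneg _
      have h3 := Real.add_one_le_exp (2 * (⌈ρ ^ 2⌉₊ : ℝ) * l)
      have h4 : ρ ^ 2 ≤ Real.exp (2 * (⌈ρ ^ 2⌉₊ : ℝ) * l) := by nlinarith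
      have h5 : Real.exp (2 * ((4 + ⌈ρ ^ 2⌉₊ : ℕ) : ℝ) * l) =
          Real.exp (2 * l) ^ 4 * Real.exp (2 * (⌈ρ ^ 2⌉₊ : ℝ) * l) := by
        rw [← Real.exp_nat_mul, ← Real.exp_add]
        congr 1
        push_cast
        ring
      rw [h5]
      exact mul_le_mul_of_nonneg_left h4 (by positivity)
  · have hy : 0 < -β.r := by linarith [β.r_neg]
    have hE : Real.exp (2 * l) ≤ Real.exp (2 * |C|) :=
      Real.exp_le_exp.2 (by linarith [le_abs_self C])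
    have hmap : ∀ q ∈ {q : V × ℕ | q.1 ∈ SS Γ l ∧ q.2 ≤ β.f ∧ Str q.1 ((T.φ ^ q.2) β) ∧
        kind q.1 ((T.φ ^ q.2) β) = 2},
        q.1 ∈ {n | n ∈ SS Γ l ∧ |B n (Hy (onW β.a (-β.r)))| ≤ R} := by
      rintro q ⟨h1, h2, h3, h4⟩
      obtain ⟨w1, w2, w3, -, -⟩ := Bounds2_window s hA β h1 h2 h3 h4
      refine ⟨h1, ?_⟩
      have w4 := hang Γ l T.nice hl0 hC _ (hA β.a_mem) _ h1 w1
      have w5 := hR β.a (-q.1) (-β.r) β.a_unit (SS.neg h1).1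
        (by rw [B_neg_right, abs_neg]; exact w4) hy
        (w2.trans (mul_le_mul_of_nonneg_right hE hy.le))
        (w3.trans (mul_le_mul_of_nonneg_right hE (abs_nonneg _)))
      rwa [B_neg_left, abs_neg] at w5
    have hinj : Set.InjOn Prod.fst {q : V × ℕ | q.1 ∈ SS Γ l ∧ q.2 ≤ β.f ∧
        Str q.1 ((T.φ ^ q.2) β) ∧ kind q.1 ((T.φ ^ q.2) β) = 2} := by
      rintro ⟨w, i⟩ ⟨h1, h2, h3, h4⟩ ⟨w', j⟩ ⟨k1, k2, k3, k4⟩ e
      obtain rfl : w = w' := e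
      obtain ⟨-, -, -, w1, w2⟩ := Bounds2_window s hA β h1 h2 h3 h4
      obtain ⟨-, -, -, v1, v2⟩ := Bounds2_window s hA β k1 k2 k3 k4
      have e1 := w2 _ (φ_pow_a β j) v1
      have e2 := v2 _ (φ_pow_a β i) w1
      have e3 : i = j := (Bounds2_mono β).injective (le_antisymm e1 e2)
      rw [e3]
    have hfin := T.nice.lf_SS hl0 (onW β.a (-β.r)) R
    refine ⟨Set.Finite.of_injOn hmap hinj hfin, ?_⟩
    exact (Set.ncard_le_ncard_of_injOn Prod.fst hmap hinj hfin).trans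
      (hM Γ l T.nice s hl hC _)

end Tr

end

end Pool.Agent.P.MP_d39174_gt
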