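import Pool.Agent.P.MP_d39174_gt.Bounds2

/-! Connectedness of the complement. -/

namespace Pool.Agent.P.MP_d39174_gt

open UpperHalfPlane MatrixGroups

noncomputable section

namespace Tr

lemma Bounds3_jump {Γ : Subgroup SL(2, ℝ)} {l : ℝ} {T : Tr Γ} (s : Sys Γ l)
    (fill : ∀ m, Per Γ m → ∃ n ∈ SS Γ l, |B n m| < 1) {a : V} (ha : a ∈ T.A) :
    ∃ w ∈ SS Γ l, ∃ d : T.D, d.a = a ∧ Str w d ∧ kind w d = 2 := by
  have key : ∀ w ∈ SS Γ l, w ∉ T.A → |B w a| < 1 → crd w a < 0 →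
      ∃ w ∈ SS Γ l, ∃ d : T.D, d.a = a ∧ Str w d ∧ kind w d = 2 := by
    intro w hw h1 h2 h3
    obtain ⟨e, e1, e2⟩ := exists_first' (SS.per s.pos hw) h1 ha h2 h3
    refine ⟨w, hw, e, e1, Or.inl ⟨h1, e2⟩, ?_⟩
    rw [kind, if_neg h1, if_pos (by rw [e1]; exact h2)]
  obtain ⟨n, hn, h2⟩ := fill a (T.ws.per a ha)
  have ua : B a a = 1 := unit ha
  have h1 : n ∉ T.A := fun h => by
    have h3 := T.ws.sep a ha n h (fun e => by
      rw [e, ua, abs_one] at h2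
      exact lt_irrefl _ h2) (fun e => by
      rw [e, B_neg_left, ua, abs_neg, abs_one] at h2
      exact lt_irrefl _ h2)
    rw [B_comm] at h3
    exact lt_asymm h2 h3
  obtain ⟨f1, f2, f3, -⟩ := fin'_of_not_mem (SS.per s.pos hn) h1 ha
  rcases lt_or_gt_of_ne f3 with h3 | h3
  · exact key n hn h1 h2 h3
  · obtain ⟨k, hk, e⟩ := crd_neg_left hn.1
    refine key (-n) (SS.neg hn) (fun h => h1 ?_) (by rwa [B_neg_left, abs_neg]) ?_
    · have := T.ws.neg _ h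
      rwa [neg_neg] at this
    · rw [e a f1 f2]
      exact div_neg_of_neg_of_pos (neg_neg_of_pos hk) h3

lemma Bounds3_zpow {X : Type} {U : Set X} {σ : Equiv.Perm X} (h : ∀ d, σ d ∈ U ↔ d ∈ U) (i : ℤ) :
    ∀ d, (σ ^ i) d ∈ U ↔ d ∈ U := by
  induction i using Int.induction_on with
  | zero => intro d; rfl
  | succ n ih =>
    intro d
    rw [zpow_add_one, Equiv.Perm.mul_apply, ih, h]
  | pred n ih =>
    intro d
    rw [zpow_sub_one, Equiv.Perm.mul_apply, ih, ← h, Equiv.Perm.coe_inv, Equiv.apply_symm_apply]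

/-- The two sides of each wall of the family are connected in the quotient. -/
theorem sides_conn {Γ : Subgroup SL(2, ℝ)} {l : ℝ} {T : Tr Γ} (s : Sys Γ l) (f : Far Γ l T.A)
    (fill : ∀ m, Per Γ m → ∃ n ∈ SS Γ l, |B n m| < 1) {U : Set T.D}
    (h0 : ∀ g : Γ, ∀ d ∈ U, g • d ∈ U) (h1 : ∀ d ∈ U, T.ι d ∈ U) (h2 : ∀ d ∈ U, T.ν d ∈ U)
    (h4 : U.Nonempty) : U = Set.univ := by
  classical
  have i1 : ∀ d, T.ι d ∈ U ↔ d ∈ U := fun d => ⟨fun h => h1 _ h, h1 d⟩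
  have i2 : ∀ d, T.ν d ∈ U ↔ d ∈ U := fun d =>
    ⟨fun h => ν_ν_ν d ▸ h2 _ (h2 _ h), h2 d⟩
  have i3 : ∀ d, T.φ d ∈ U ↔ d ∈ U := fun d => by rw [φ_apply, i1, i2, i2]
  have i4 : ∀ d, T.ψ d ∈ U ↔ d ∈ U := fun d => by rw [ψ_apply, i1, i2]
  have i5 : ∀ (g : Γ) (d : T.D), g • d ∈ U ↔ d ∈ U := fun g d =>
    ⟨fun h => inv_smul_smul g d ▸ h0 g⁻¹ _ h, h0 g d⟩
  have i6 : ∀ d e : T.D, e.a = d.a → (e ∈ U ↔ d ∈ U) := fun d e h => by
    obtain ⟨i, rfl⟩ := fan h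
    exact Bounds3_zpow i3 i d
  refine conn_darts h1 h2 (fun a ha => ?_) h4
  obtain ⟨w, hw, d, rfl, hs, hk⟩ := Bounds3_jump s fill ha
  have pw : Per Γ w := SS.per s.pos hw
  obtain ⟨k1, k2, k3, k4⟩ := kind_two hs hk
  have st : ∀ j : ℕ, Str w ((τ w)^[j] d) := fun j => by
    induction j with
    | zero => exact hs
    | succ j ih =>
      rw [Function.iterate_succ_apply']
      exact τ_str pw ih
  have ex2 : ∃ j : ℕ, kind w ((τ w)^[j + 1] d) = 2 := by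
    obtain ⟨p, hp, e, -⟩ := itin (Sys.prim T.nice s hw) hs (γ := ⟨ex l w, hw.2⟩) (PM.refl _)
    refine ⟨p - 1, ?_⟩
    have e2 := kind_smul hw.1 (⟨ex l w, hw.2⟩ : Γ) d
    rw [show ((⟨ex l w, hw.2⟩ : Γ) : SL(2, ℝ)) • w = w from ex_ad_self l w] at e2
    rw [Nat.sub_add_cancel hp, e, e2, hk]
  have up : ∀ j ≤ Nat.find ex2, ((τ w)^[j + 1] d ∈ U ↔ τ w d ∈ U) := fun j hj => by
    induction j with
    | zero => rfl
    | succ j ih =>
      have n2 : ¬ kind w ((τ w)^[j + 1] d) = 2 := Nat.find_min ex2 hj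
      rw [Function.iterate_succ_apply', ← ih (Nat.le_of_succ_le hj)]
      generalize (τ w)^[j + 1] d = e at n2
      unfold τ
      by_cases c0 : kind w e = 0
      · rw [if_pos c0, i3]
      · have c1 : kind w e = 1 := by omega
        rw [if_neg c0, if_pos c1, i4]
  have u2 := up _ le_rfl
  obtain ⟨-, m2, m3, -⟩ := kind_two (st (Nat.find ex2 + 1)) (Nat.find_spec ex2)
  generalize (τ w)^[Nat.find ex2 + 1] d = e at u2 m2 m3
  obtain ⟨g, hg, hge⟩ := f.far d.a ha e.a e.a_mem w hw k3 m3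
  have c1 : |B w (g • d.a)| < 1 := by
    rcases hge with h | h
    · rwa [h] at m3
    · rwa [h, B_neg_right, abs_neg] at m3
  have ug : B (g • d.a) (g • d.a) = 1 := unit (T.ws.inv g hg _ ha)
  obtain ⟨m, hm⟩ := once T.nice s (f.sub ha) hw hg k3 c1
  have c2 : crd w (g • d.a) < 0 := by
    rw [hm, crd_ex hw.1 d.a_unit]
    exact mul_neg_of_pos_of_neg (Real.exp_pos _) k2.1.1
  have c3 : e.a = g • d.a := by
    refine hge.resolve_right fun h => ?_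
    obtain ⟨f1, f2, -, -⟩ := fin'_of_cross hw.1 ug c1
    have c4 := (cross_iff_crd hw.1 ug f1 f2).1 c1
    have c5 := m2.1.1
    rw [h] at c5
    exact lt_asymm c4 (mul_pos_of_neg_of_neg c2 c5)
  refine ⟨d, T.ι (jmp w d), rfl, (jmp_spec pw k1 k2.1 k3).1, fun h => ?_⟩
  rw [i1, ← k4, ← u2, i6 ((⟨g, hg⟩ : Γ) • d) e c3, i5]
  exact h

/-- Every wall of the family is jumped over by a systole. -/
theorem exists_jump {Γ : Subgroup SL(2, ℝ)} {l : ℝ} {T : Tr Γ} (s : Sys Γ l)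
    (fill : ∀ m, Per Γ m → ∃ n ∈ SS Γ l, |B n m| < 1) {a : V} (ha : a ∈ T.A) :
    ∃ w ∈ SS Γ l, ∃ d : T.D, d.a = a ∧ Str w d ∧ kind w d = 2 :=
  Bounds3_jump s fill ha

end Tr

end

end Pool.Agent.P.MP_d39174_gt
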