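import Pool.Agent.P.MP_d39174_gt.Rigid1

/-! The step matrices along an exponential path. -/

namespace Pool.Agent.P.MP_d39174_gt

open UpperHalfPlane MatrixGroups

noncomputable section

open Finset

variable {D S : Type}

lemma rigid2_ne {X : ℝ} (h0 : 0 < X) (h : X ≠ 1) : 1 - X ^ 2 ≠ 0 := fun e =>
  h ((pow_eq_one_iff_of_nonneg h0.le two_ne_zero).1 (sub_eq_zero.1 e).symm)
lemma rigid2_pth {x : D → ℝ} (hx : ∀ d, 0 < x d) (ξ : D → ℝ) (t : ℝ) (d : D) : 0 < pth x ξ t d :=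
  mul_pos (hx d) (Real.exp_pos _)
lemma rigid2_mJ (s s' y x : ℝ) :
    mJ s s' y x = !![x / y + s * (y * s' * x), s * (y / x); y * s' * x, y / x] := by
  simp [mJ]

lemma Pr_pos (φ : Equiv.Perm D) {x : D → ℝ} (hx : ∀ d, 0 < x d) (d : D) (i : ℕ) :
    0 < Pr φ x d i := prod_pos fun _ _ => hx _
lemma Pr_succ (φ : Equiv.Perm D) (x : D → ℝ) (d : D) (i : ℕ) :
    Pr φ x d (i + 1) = Pr φ x d i * x ((φ ^ (i + 1)) d) := prod_range_succ _ _
lemma Pr_succ' (φ : Equiv.Perm D) (x : D → ℝ) (d : D) (i : ℕ) :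
    Pr φ x d (i + 1) = x (φ d) * Pr φ x (φ d) i := by
  unfold Pr
  rw [prod_range_succ', mul_comm, zero_add, pow_one]
  simp only [pow_succ _ (_ + 1), Equiv.Perm.mul_apply]
lemma Pr_add (φ : Equiv.Perm D) (x : D → ℝ) (d : D) (i j : ℕ) :
    Pr φ x d (i + j) = Pr φ x d i * Pr φ x ((φ ^ i) d) j := by
  unfold Pr
  rw [prod_range_add]
  refine congrArg _ (prod_congr rfl fun m _ => ?_)
  rw [← Equiv.Perm.mul_apply, ← pow_add, show m + 1 + i = i + m + 1 by omega]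
lemma Pr_pth (φ : Equiv.Perm D) (x ξ : D → ℝ) (t : ℝ) (d : D) (i : ℕ) :
    Pr φ (pth x ξ t) d i =
      Pr φ x d i * Real.exp (t * ∑ m ∈ range i, ξ ((φ ^ (m + 1)) d)) := by
  simp only [Pr, pth]
  rw [prod_mul_distrib, mul_sum, Real.exp_sum]
lemma pth_zero (x ξ : D → ℝ) : pth x ξ 0 = x := by
  funext d
  simp [pth]
lemma sig_pos (φ : Equiv.Perm D) {x : D → ℝ} (hx : ∀ d, 0 < x d) {d : D} {f : ℕ}
    (h : Pr φ x d f < 1) : 0 < sig φ x d f := by
  have h0 := Pr_pos φ hx d f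
  refine div_pos (sum_pos (fun i _ => pow_pos (Pr_pos φ hx d i) 2) ?_) (by nlinarith)
  rcases f with _ | f
  · simp [Pr] at h
  · simp
/-- The recursion that characterises `sig`. -/
lemma sig_rec (φ : Equiv.Perm D) {x : D → ℝ} (hx : ∀ d, 0 < x d) {d : D} {f : ℕ}
    (h : Pr φ x d f ≠ 1) (hp : x ((φ ^ (f + 1)) d) = x (φ d)) :
    sig φ x d f = 1 + x (φ d) ^ 2 * sig φ x (φ d) f := by
  have h1 : Pr φ x (φ d) f = Pr φ x d f := by
    have h2 := Pr_succ' φ x d f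
    rw [Pr_succ, hp, mul_comm] at h2
    exact (mul_left_cancel₀ (hx _).ne' h2).symm
  have h2 : x (φ d) ^ 2 * ∑ i ∈ range f, Pr φ x (φ d) i ^ 2 =
      ∑ i ∈ range f, Pr φ x d i ^ 2 + Pr φ x d f ^ 2 - 1 := by
    rw [← sum_range_succ, sum_range_succ', mul_sum]
    simp only [Pr_succ', mul_pow]
    simp [Pr]
  have h3 := rigid2_ne (Pr_pos φ hx d f) h
  rw [sig, sig, h1, ← mul_div_assoc, h2]
  field_simp
  ring
lemma sig_eq_of_rec (φ : Equiv.Perm D) {x s : D → ℝ} (hx : ∀ d, 0 < x d)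
    (hs : ∀ d, s d = 1 + x (φ d) ^ 2 * s (φ d)) {d : D} {f : ℕ} (h : Pr φ x d f ≠ 1)
    (hp : s ((φ ^ f) d) = s d) : s d = sig φ x d f := by
  have key : ∀ n, s d = ∑ i ∈ range n, Pr φ x d i ^ 2 + Pr φ x d n ^ 2 * s ((φ ^ n) d) := by
    intro n
    induction n with
    | zero => simp [Pr]
    | succ n ih =>
      rw [sum_range_succ, Pr_succ, pow_succ' φ, Equiv.Perm.mul_apply, ih, hs ((φ ^ n) d)]
      ring
  have h1 := key f
  rw [hp] at h1
  rw [sig, eq_div_iff (rigid2_ne (Pr_pos φ hx d f) h)]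
  linear_combination h1
lemma differentiableAt_sig (φ : Equiv.Perm D) {x : D → ℝ} (hx : ∀ d, 0 < x d) (ξ : D → ℝ) {d : D}
    {f : ℕ} (h : Pr φ x d f ≠ 1) :
    DifferentiableAt ℝ (fun t => sig φ (pth x ξ t) d f) 0 := by
  simp only [sig, Pr_pth]
  refine DifferentiableAt.div (by fun_prop) (by fun_prop) ?_
  simpa using rigid2_ne (Pr_pos φ hx d f) h
lemma lc_sig (φ : Equiv.Perm D) {x : D → ℝ} (hx : ∀ d, 0 < x d) (ξ : D → ℝ) {d : D} {f : ℕ}
    (h : ∀ t ∈ Set.Icc (0 : ℝ) 1, Pr φ (pth x ξ t) d f < 1) :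
    LC fun t => sig φ (pth x ξ t) d f := by
  have e : ∀ t i, Pr φ (pth x ξ t) d i ^ 2 =
      Pr φ x d i ^ 2 * Real.exp (t * (2 * ∑ m ∈ range i, ξ ((φ ^ (m + 1)) d))) := fun t i => by
    rw [Pr_pth, mul_pow, ← Real.exp_nat_mul]
    congr 2
    push_cast
    ring
  simp only [sig, e, div_eq_mul_one_div (∑ i ∈ range f, _)]
  refine (LC.sum fun i _ => LC.exp (sq_nonneg _) _).mul (LC.geom (sq_nonneg _) fun t ht => ?_)
  rw [← e]
  exact pow_lt_one₀ (Pr_pos φ (rigid2_pth hx ξ t) d f).le (h t ht) two_ne_zero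

namespace Mdl

variable (M : Mdl D S)

lemma rigid2_tw {x y : D → ℝ} (hx : ∀ d, 0 < x d) (hy : ∀ d, 0 < y d) (s : S) : 0 < M.tw x y s :=
  mul_pos (mul_pos (hy _) (Pr_pos _ hx _ _)) (Pr_pos _ hx _ _)
lemma rigid2_tw_pth (x y ξ η : D → ℝ) (s : S) :
    ∃ k, ∀ t, M.tw (pth x ξ t) (pth y η t) s = M.tw x y s * Real.exp (t * k) := by
  refine ⟨η (M.base s) + ∑ m ∈ range (M.oi s), ξ ((M.φ ^ (m + 1)) (M.base s)) +
    ∑ m ∈ range (M.oj s), ξ ((M.φ ^ (m + 1)) (M.κ (M.base s))), fun t => ?_⟩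
  rw [tw, tw, Pr_pth, Pr_pth, pth, mul_add, mul_add, Real.exp_add, Real.exp_add]
  ring

lemma det_mat {x y : D → ℝ} (hx : ∀ d, 0 < x d) (hy : ∀ d, 0 < y d) (s : S) :
    (M.mat x y s).det = 1 := by
  have h1 := (M.rigid2_tw hx hy s).ne'
  have h2 := (hx (M.tgt s)).ne'
  have h3 := (hx (M.φ (M.bs s))).ne'
  have h4 := (hx (M.ψ (M.bs s))).ne'
  unfold mat
  split_ifs
  · simp [mA, Matrix.det_fin_two_of, h3]
  · simp [mB, Matrix.det_fin_two_of, h4]
  · rw [rigid2_mJ, Matrix.det_fin_two_of]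
    field_simp
    ring
lemma mat_pos {x y : D → ℝ} (hx : ∀ d, 0 < x d) (hy : ∀ d, 0 < y d)
    (h : ∀ d, Pr M.φ x d (M.per d) < 1) (s : S) :
    (∀ i j, 0 ≤ M.mat x y s i j) ∧ ∀ i, 0 < M.mat x y s i i := by
  have h1 := M.rigid2_tw hx hy s
  have h2 := hx (M.tgt s)
  have h3 := hx (M.φ (M.bs s))
  have h4 := hx (M.ψ (M.bs s))
  have h5 : 0 < M.sg x (M.bs s) := sig_pos _ hx (h _)
  have h6 : 0 < M.sg x (M.tgt s) := sig_pos _ hx (h _)
  unfold mat
  split_ifs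
  · refine ⟨fun i j => ?_, fun i => ?_⟩
    · fin_cases i <;> fin_cases j <;> simp [mA, h3.le]
    · fin_cases i <;> simp [mA, h3]
  · refine ⟨fun i j => ?_, fun i => ?_⟩
    · fin_cases i <;> fin_cases j <;> simp [mB, h4.le]
    · fin_cases i <;> simp [mB, h4]
  · rw [rigid2_mJ]
    refine ⟨fun i j => ?_, fun i => ?_⟩
    · fin_cases i <;> fin_cases j <;> simp <;> positivity
    · fin_cases i <;> simp <;> positivity
lemma mlc_mat {x y : D → ℝ} (hx : ∀ d, 0 < x d) (hy : ∀ d, 0 < y d) (ξ η : D → ℝ)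
    (h : ∀ t ∈ Set.Icc (0 : ℝ) 1, ∀ d, Pr M.φ (pth x ξ t) d (M.per d) < 1) (s : S) :
    MLC fun t => M.mat (pth x ξ t) (pth y η t) s := by
  have e1 : ∀ d, LC fun t => pth x ξ t d := fun d => LC.exp (hx d).le _
  have e2 : ∀ d, LC fun t => (pth x ξ t d)⁻¹ := fun d =>
    (LC.exp (inv_pos.2 (hx d)).le (-ξ d)).congr fun t _ => by
      rw [pth, mul_inv, ← Real.exp_neg, mul_neg]
  obtain ⟨k, hk⟩ := M.rigid2_tw_pth x y ξ η s
  have e3 : LC fun t => M.tw (pth x ξ t) (pth y η t) s :=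
    (LC.exp (M.rigid2_tw hx hy s).le k).congr fun t _ => hk t
  have e4 : LC fun t => (M.tw (pth x ξ t) (pth y η t) s)⁻¹ :=
    (LC.exp (inv_pos.2 (M.rigid2_tw hx hy s)).le (-k)).congr fun t _ => by
      rw [hk, mul_inv, ← Real.exp_neg, mul_neg]
  have e5 : ∀ d, LC fun t => M.sg (pth x ξ t) d := fun d => lc_sig _ hx ξ fun t ht => h t ht d
  have e0 : LC fun _ => 0 := LC.const le_rfl
  intro i j
  unfold mat
  split_ifs
  · fin_cases i <;> fin_cases j
    · simpa [mA] using e1 _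
    · simpa [mA] using e2 _
    · simpa [mA] using e0
    · simpa [mA] using e2 _
  · fin_cases i <;> fin_cases j
    · simpa [mB] using e1 _
    · simpa [mB] using e0
    · simpa [mB] using e1 _
    · simpa [mB] using e2 _
  · simp only [rigid2_mJ, div_eq_mul_inv]
    fin_cases i <;> fin_cases j
    · simpa using ((e1 _).mul e4).add ((e5 _).mul ((e3.mul (e5 _)).mul (e1 _)))
    · simpa using (e5 _).mul (e3.mul (e2 _))
    · simpa using (e3.mul (e5 _)).mul (e1 _)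
    · simpa using e3.mul (e2 _)
lemma differentiableAt_trW {x y : D → ℝ} (hx : ∀ d, 0 < x d) (hy : ∀ d, 0 < y d) (ξ η : D → ℝ)
    (h : ∀ d, Pr M.φ x d (M.per d) < 1) (s : S) :
    DifferentiableAt ℝ (fun t => M.trW (pth x ξ t) (pth y η t) s) 0 := by
  have e1 : ∀ d, DifferentiableAt ℝ (fun t => pth x ξ t d) 0 := fun d => by
    simp only [pth]
    fun_prop
  have e2 : ∀ d, DifferentiableAt ℝ (fun t => (pth x ξ t d)⁻¹) 0 := fun d =>
    (e1 d).inv (rigid2_pth hx ξ 0 d).ne'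
  have e5 : ∀ d, DifferentiableAt ℝ (fun t => M.sg (pth x ξ t) d) 0 := fun d =>
    differentiableAt_sig _ hx ξ (h d).ne
  have key : ∀ s i j, DifferentiableAt ℝ (fun t => M.mat (pth x ξ t) (pth y η t) s i j) 0 := by
    intro s i j
    obtain ⟨k, hk⟩ := M.rigid2_tw_pth x y ξ η s
    have e3 : DifferentiableAt ℝ (fun t => M.tw (pth x ξ t) (pth y η t) s) 0 := by
      simp only [hk]
      fun_prop
    have e4 : DifferentiableAt ℝ (fun t => (M.tw (pth x ξ t) (pth y η t) s)⁻¹) 0 :=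
      e3.inv (M.rigid2_tw (rigid2_pth hx ξ 0) (rigid2_pth hy η 0) s).ne'
    unfold mat
    split_ifs
    · fin_cases i <;> fin_cases j
      · simpa [mA] using e1 _
      · simpa [mA] using e2 _
      · simp [mA]
      · simpa [mA] using e2 _
    · fin_cases i <;> fin_cases j
      · simpa [mB] using e1 _
      · simp [mB]
      · simpa [mB] using e1 _
      · simpa [mB] using e2 _
    · simp only [rigid2_mJ, div_eq_mul_inv]
      fin_cases i <;> fin_cases j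
      · simpa using ((e1 _).fun_mul e4).fun_add
          ((e5 _).fun_mul ((e3.fun_mul (e5 _)).fun_mul (e1 _)))
      · simpa using (e5 _).fun_mul (e3.fun_mul (e2 _))
      · simpa using (e3.fun_mul (e5 _)).fun_mul (e1 _)
      · simpa using e3.fun_mul (e2 _)
  have key2 : ∀ p i j, DifferentiableAt ℝ
      (fun t => mprod (fun m => M.mat (pth x ξ t) (pth y η t) (M.nx^[m] s)) p i j) 0 := by
    intro p
    induction p with
    | zero => exact fun i j => differentiableAt_const _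
    | succ p ih =>
      intro i j
      simp only [mprod, Matrix.mul_apply, Fin.sum_univ_two]
      exact ((ih _ _).fun_mul (key _ _ _)).fun_add ((ih _ _).fun_mul (key _ _ _))
  simp only [trW, Matrix.trace_fin_two]
  exact (key2 _ _ _).fun_add (key2 _ _ _)

end Mdl

end

end Pool.Agent.P.MP_d39174_gt
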