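import Pool.Agent.P.MP_d39174_gt.PermA
import Pool.Agent.P.MP_d39174_gt.Rigid2

/-! Reduction of a type to canonical form. -/

namespace Pool.Agent.P.MP_d39174_gt

open UpperHalfPlane MatrixGroups

noncomputable section

open Equiv Equiv.Perm Finset

private lemma part_inv {D : Type} [Fintype D] [DecidableEq D] {j t : Perm D}
    (hj : ∀ x, j (j x) = x) (h : ∀ x, t x = x ∨ t x = j x) (ht : ∀ x, t (t x) = x) :
    (∀ x, t (j x) = j (t x)) ∧ (∀ x, (j * t) ((j * t) x) = x) ∧
      (j * t).support.card + t.support.card = j.support.card := by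
  have c : ∀ x, t (j x) = j (t x) := by
    intro x
    rcases h x with e | e
    · rw [e]
      rcases h (j x) with e' | e'
      · exact e'
      · have := congrArg t e'
        rw [ht, hj, e] at this
        rw [e', hj, this]
    · rw [e, hj, ← e, ht]
  refine ⟨c, fun x => by simp only [Perm.mul_apply]; rw [c, hj, ht], ?_⟩
  rw [← card_union_of_disjoint]
  · congr 1
    ext x
    simp only [mem_union, mem_support, Perm.mul_apply]
    rcases h x with e | e
    · rw [e]; simp
    · rw [e, hj]; simp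
  · rw [Finset.disjoint_left]
    intro x h1 h2
    rw [mem_support] at h1 h2
    rcases h x with e | e
    · exact h2 e
    · exact h1 (by rw [Perm.mul_apply, e, hj])

private lemma card_supp_congr {D E : Type} [Fintype D] [DecidableEq D] [Fintype E] [DecidableEq E]
    (e : D ≃ E) (σ : Perm D) : (e.permCongr σ).support.card = σ.support.card := by
  refine (card_equiv e fun x => ?_).symm
  simp [mem_support]

private lemma congr_mul {D E : Type} (e : D ≃ E) (σ τ : Perm D) :
    e.permCongr (σ * τ) = e.permCongr σ * e.permCongr τ := by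
  ext x; simp

lemma exists_lab {D : Type} [Fintype D] [DecidableEq D] [Nonempty D] {ι ν : Perm D}
    (h1 : ∀ d, ι (ι d) = d) (h2 : ∀ d, ι d ≠ d) (h3 : ∀ d, ν (ν (ν d)) = d) (h4 : ∀ d, ν d ≠ d)
    (h : ∀ U : Set D, (∀ d ∈ U, ι d ∈ U) → (∀ d ∈ U, ν d ∈ U) → U.Nonempty → U = Set.univ) :
    ∃ (e : D ≃ Fin (Fintype.card D)) (r : ℕ),
      6 * r + 6 * cyc (ι * ν * ν) = Fintype.card D + 12 ∧
        Lab _ r (e.permCongr ι) (e.permCongr ν) := by
  obtain ⟨jT, a1, a2, a3, a4⟩ := exists_tree ν ι h1 fun U u1 u2 => h U u2 u1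
  obtain ⟨p1, p2, p3⟩ := part_inv h1 a1 a2
  obtain ⟨jS, b1, b2, b3, b4⟩ := exists_tree (ν * ι) (ι * jT) p2 (by
    intro U u1 u2 ⟨x, hx⟩
    have u3 : ∀ d ∈ U, (ν * jT) d ∈ U := by
      intro d hd
      have := u1 _ (u2 d hd)
      simpa only [Perm.mul_apply, h1] using this
    have u4 : ∀ i : ℕ, ((ν * jT) ^ i) x ∈ U := by
      intro i
      induction i with
      | zero => simpa using hx
      | succ i ih => rw [pow_succ', Perm.mul_apply]; exact u3 _ ih
    refine Set.eq_univ_of_forall fun y => ?_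
    obtain ⟨i, -, e⟩ := ((cyc_eq_one_iff _).1 a3 x y).exists_pow_eq'
    exact e ▸ u4 i)
  obtain ⟨q1, q2, q3⟩ := part_inv p2 b1 b2
  obtain ⟨e, he⟩ := exists_rotate a3
  obtain ⟨r, hr⟩ : 2 ∣ (ι * jT * jS).support.card :=
    two_dvd_card_support (by ext x; simpa [pow_two] using q2 x)
  have n1 : ι.support.card = Fintype.card D := by
    rw [← card_univ]; congr 1; ext x; simp [h2]
  have n2 := three_mul_cyc h3 h4
  have n3 : cyc (ι * ν * ν) = cyc (ν * ι) := by
    rw [← cyc_inv (ν * ι)]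
    congr 1
    rw [eq_inv_iff_mul_eq_one]
    ext x
    simp only [Perm.mul_apply, h3, h1, Perm.one_apply]
  have e1 : ν * jT * jT = ν := by ext x; simp only [Perm.mul_apply, a2]
  have e2 : ν * jT * (ι * jT * jS) = ν * ι * jS := by
    ext x; simp only [Perm.mul_apply, p1, a2]
  have e3 : ν * ι * jS * jS = ν * ι := by ext x; simp only [Perm.mul_apply, b2]
  have e4 : jT * jS * (ι * jT * jS) = ι := by
    ext x
    have := q1 (jS x)
    simp only [Perm.mul_apply] at this ⊢
    rw [this, b2, p1, a2]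
  have inv : ∀ σ : Perm D, (∀ x, σ (σ x) = x) → ∀ x, e.permCongr σ (e.permCongr σ x) = x := by
    intro σ hσ x; simp [hσ]
  refine ⟨e, r, by omega, e.permCongr jT, e.permCongr jS, e.permCongr (ι * jT * jS),
    ⟨inv _ a2, ?_⟩, inv _ q2, ?_, ?_, ⟨inv _ b2, ?_⟩, ?_, ?_⟩
  · rw [card_supp_congr, ← he, ← congr_mul, e1, cyc_permCongr, a4]
  · rw [card_supp_congr, hr]
  · rw [← he, ← congr_mul, e2, cyc_permCongr, b3]
  · rw [card_supp_congr, ← he, ← congr_mul, ← congr_mul, e2, e3, cyc_permCongr, b4]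
  · rw [← he, ← congr_mul, e1]
  · rw [← congr_mul, ← congr_mul, e4]

variable {D S : Type} [Fintype D] [Fintype S]

private lemma sum_fib {M : Mdl D S} {k m₀ D₀ : ℕ} (h : M.Shape k m₀ D₀) (f : S → ℕ) (g : D → ℕ)
    (h0 : ∀ s, M.on s → M.kd s ≠ 2 → f s = 0)
    (h2 : ∀ s, M.on s → M.kd s = 2 → f s ≤ g (M.base s)) :
    ∑ s ∈ univ.filter (fun s => M.on s), f s ≤
      D₀ * ∑ β ∈ @filter D (fun β => M.κ β ≠ β) (fun _ => Classical.propDecidable _) univ, g β := by
  classical
  have e1 : ∑ s ∈ univ.filter (fun s => M.on s), f s =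
      ∑ s ∈ univ.filter (fun s => M.on s ∧ M.kd s = 2), f s := by
    refine (sum_subset (fun s hs => ?_) fun s hs hs' => ?_).symm
    · simp only [mem_filter, mem_univ, true_and] at hs ⊢; exact hs.1
    · simp only [mem_filter, mem_univ, true_and] at hs hs'
      exact h0 s hs fun e => hs' ⟨hs, e⟩
  have e2 := sum_fiberwise_of_maps_to (s := univ.filter fun s => M.on s ∧ M.kd s = 2)
    (t := @filter D (fun β => M.κ β ≠ β) (fun _ => Classical.propDecidable _) univ) (g := M.base)
    (fun s hs => by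
      simp only [mem_filter, mem_univ, true_and] at hs ⊢
      exact (h.jump s hs.1 hs.2).1) f
  rw [e1, ← e2, mul_sum]
  refine sum_le_sum fun β _ => ?_
  refine (sum_le_card_nsmul _ _ (g β) fun s hs => ?_).trans ?_
  · simp only [mem_filter, mem_univ, true_and] at hs
    exact hs.2 ▸ h2 s hs.1.1 hs.1.2
  · rw [smul_eq_mul]
    refine Nat.mul_le_mul_right _ (le_trans (card_le_card fun s hs => ?_) (h.fib2 β))
    simp only [mem_filter, mem_univ, true_and] at hs ⊢
    exact ⟨hs.1.1, hs.1.2, hs.2⟩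

lemma Mdl.Shape.sum_le {M : Mdl D S} {k m₀ D₀ : ℕ} (h : M.Shape k m₀ D₀) :
    ∑ s ∈ univ.filter (fun s => M.on s), M.oi s ≤ D₀ * Fintype.card D ∧
      ∑ s ∈ univ.filter (fun s => M.on s), M.oj s ≤ D₀ * m₀ * Fintype.card D := by
  classical
  have key : ∑ β ∈ univ.filter (fun β => M.κ β ≠ β), M.per β ≤ Fintype.card D :=
    sum_minimalPeriod_le fun a ha b hb =>
      h.base_uniq a b (mem_filter.1 ha).2 (mem_filter.1 hb).2
  have key2 : ∑ β ∈ univ.filter (fun β => M.κ β ≠ β), M.per (M.κ β) =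
      ∑ β ∈ univ.filter (fun β => M.κ β ≠ β), M.per β := by
    refine sum_equiv M.κ (fun β => ?_) fun _ _ => rfl
    simp only [mem_filter, mem_univ, true_and, h.κ_κ]
    exact ne_comm
  constructor
  · refine (sum_fib h M.oi M.per (fun s a b => (h.off s a b).1)
      fun s a b => (h.jump s a b).2.1).trans (Nat.mul_le_mul_left _ ?_)
    convert key
  · refine (sum_fib h M.oj (fun β => m₀ * M.per (M.κ β)) (fun s a b => (h.off s a b).2)
      fun s a b => (h.jump s a b).2.2).trans ?_
    rw [mul_assoc, ← mul_sum]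
    refine Nat.mul_le_mul_left _ (Nat.mul_le_mul_left _ ?_)
    rw [← key2] at key
    convert key

end

end Pool.Agent.P.MP_d39174_gt
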