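import Pool.Agent.P.MP_d39174_gt.Canon

/-! Transport of a realised type to canonical form. -/

namespace Pool.Agent.P.MP_d39174_gt

open UpperHalfPlane MatrixGroups

noncomputable section

open Equiv Equiv.Perm Finset

private lemma mp_semiconj {A A' : Type} {g : A → A'} {f : A → A} {f' : A' → A'}
    (hg : Function.Injective g) (h : Function.Semiconj g f f') (a : A) :
    Function.minimalPeriod f' (g a) = Function.minimalPeriod f a := by
  rw [Function.minimalPeriod_eq_minimalPeriod_iff]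
  intro n
  unfold Function.IsPeriodicPt Function.IsFixedPt
  rw [← (h.iterate_right n).eq a, hg.eq_iff]

/-- The darts of two types correspond under `e`. -/
private structure Dic {D S D' S' : Type} (M : Mdl D S) (M' : Mdl D' S') (e : D ≃ D') : Prop where
  ι : ∀ d, M'.ι (e d) = e (M.ι d)
  ν : ∀ d, M'.ν (e d) = e (M.ν d)
  κ : ∀ d, M'.κ (e d) = e (M.κ d)

section

variable {D S D' S' : Type} {M : Mdl D S} {M' : Mdl D' S'} {e : D ≃ D'}

private lemma Dic.symm (h : Dic M M' e) : Dic M' M e.symm :=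
  ⟨fun d => e.injective (by rw [← h.ι]; simp), fun d => e.injective (by rw [← h.ν]; simp),
    fun d => e.injective (by rw [← h.κ]; simp)⟩

private lemma Dic.φ (h : Dic M M' e) (d : D) : M'.φ (e d) = e (M.φ d) := by
  simp only [Mdl.φ, Perm.mul_apply, h.ν, h.ι]

private lemma Dic.ψ (h : Dic M M' e) (d : D) : M'.ψ (e d) = e (M.ψ d) := by
  simp only [Mdl.ψ, Perm.mul_apply, h.ν, h.ι]

private lemma Dic.φ_pow (h : Dic M M' e) (i : ℕ) (d : D) :
    (M'.φ ^ i) (e d) = e ((M.φ ^ i) d) := by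
  induction i with
  | zero => rfl
  | succ i ih => rw [pow_succ', pow_succ', Perm.mul_apply, Perm.mul_apply, ih, h.φ]

private lemma Dic.φ_inv_pow (h : Dic M M' e) (i : ℕ) (d : D) :
    (M'.φ⁻¹ ^ i) (e d) = e ((M.φ⁻¹ ^ i) d) := by
  rw [inv_pow, inv_pow, Perm.inv_eq_iff_eq, h.φ_pow]
  simp

private lemma Dic.per (h : Dic M M' e) (d : D) : M'.per (e d) = M.per d :=
  mp_semiconj e.injective (fun a => (h.φ a).symm) d

private lemma Dic.Pr (h : Dic M M' e) (z : D' → ℝ) (d : D) (i : ℕ) :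
    Pr M'.φ z (e d) i = Pr M.φ (z ∘ e) d i := by
  simp only [MP_d39174_gt.Pr, h.φ_pow, Function.comp]

private lemma Dic.sg (h : Dic M M' e) (z : D' → ℝ) (d : D) :
    M'.sg z (e d) = M.sg (z ∘ e) d := by
  simp only [Mdl.sg, sig, h.per, h.Pr]

private lemma Dic.reach (h : Dic M M' e) {x y : D' → ℝ} {d₀ d : D} {g : SL(2, ℝ)}
    (r : M.Reach (x ∘ e) (y ∘ e) d₀ d g) : M'.Reach x y (e d₀) (e d) g := by
  induction r with
  | base => exact .base
  | neg _ ih => exact .neg ih
  | nu _ ih => rw [← h.ν]; exact .nu ih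
  | io _ ih => rw [← h.ι]; exact .io ih
  | @ka d g hk _ ih =>
    have := Mdl.Reach.ka (by rw [h.κ]; exact e.injective.ne hk) ih
    rwa [h.κ, h.sg, h.sg] at this

private lemma Dic.gen (h : Dic M M' e) {x y : D' → ℝ} {Γ : Subgroup SL(2, ℝ)}
    (hg : M.Gen Γ (x ∘ e) (y ∘ e)) : M'.Gen Γ x y := by
  intro d₀
  obtain ⟨d₀, rfl⟩ := e.surjective d₀
  obtain ⟨F, hF⟩ := hg d₀
  refine ⟨F, fun g => (hF g).trans ⟨h.reach, fun r => ?_⟩⟩
  have := h.symm.reach (x := x ∘ e) (y := y ∘ e) (d₀ := e d₀) (d := e d₀) (g := F⁻¹ * g * F)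
    (by simpa only [Function.comp_assoc, self_comp_symm, Function.comp_id] using r)
  simpa only [symm_apply_apply] using this

/-- The active strands correspond under `j`. -/
private structure Dic2 (M : Mdl D S) (M' : Mdl D' S') (e : D ≃ D') (j : {s // M.on s} → S') :
    Prop extends Dic M M' e where
  inj : Function.Injective j
  on : ∀ i, M'.on i ↔ ∃ s, j s = i
  bs : ∀ s, M'.bs (j s) = e (M.bs s)
  kd : ∀ s, M'.kd (j s) = M.kd s
  oi : ∀ s, M'.oi (j s) = M.oi s
  oj : ∀ s, M'.oj (j s) = M.oj s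
  hn : ∀ s, M.on s → M.on (M.nx s)
  nx : ∀ s, M'.nx (j s) = j ⟨M.nx s, hn s s.2⟩

variable {j : {s // M.on s} → S'}

private lemma Dic2.base (h : Dic2 M M' e j) (s) : M'.base (j s) = e (M.base s) := by
  simp only [Mdl.base, h.oi, h.bs, h.toDic.φ_inv_pow]

private lemma Dic2.tgt (h : Dic2 M M' e j) (s) : M'.tgt (j s) = e (M.tgt s) := by
  simp only [Mdl.tgt, h.oj, h.base, h.κ, h.toDic.φ_pow]

private lemma Dic2.step (h : Dic2 M M' e j) (s) : M'.step (j s) = e (M.step s) := by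
  simp only [Mdl.step, h.kd, h.bs, h.tgt, h.toDic.φ, h.toDic.ψ, h.ι, apply_ite e]

private lemma Dic2.mat (h : Dic2 M M' e j) (x y : D' → ℝ) (s) :
    M'.mat x y (j s) = M.mat (x ∘ e) (y ∘ e) s := by
  simp only [Mdl.mat, Mdl.tw, h.kd, h.bs, h.tgt, h.toDic.φ, h.toDic.ψ, h.toDic.sg, h.base, h.κ,
    h.toDic.Pr, h.oi, h.oj, Function.comp_apply]

private lemma Dic2.mp (h : Dic2 M M' e j) (s) :
    Function.minimalPeriod M'.nx (j s) = Function.minimalPeriod M.nx s := by
  let f : {s // M.on s} → {s // M.on s} := fun s => ⟨M.nx s, h.hn s s.2⟩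
  rw [mp_semiconj (f := f) h.inj (fun a => (h.nx a).symm) s,
    mp_semiconj (f := f) (f' := M.nx) Subtype.val_injective (fun _ => rfl) s]

private lemma Dic2.trW (h : Dic2 M M' e j) (x y : D' → ℝ) (s) :
    M'.trW x y (j s) = M.trW (x ∘ e) (y ∘ e) s := by
  let f : {s // M.on s} → {s // M.on s} := fun s => ⟨M.nx s, h.hn s s.2⟩
  have s1 : Function.Semiconj j f M'.nx := fun a => (h.nx a).symm
  have s2 : Function.Semiconj Subtype.val f M.nx := fun _ => rfl
  unfold Mdl.trW
  rw [h.mp]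
  congr 2
  funext m
  rw [← (s1.iterate_right m).eq s, h.mat, (s2.iterate_right m).eq s]

private lemma Dic2.sum [Fintype S] [Fintype S'] (h : Dic2 M M' e j) {A : Type} [AddCommMonoid A]
    (f : S → A) (f' : S' → A) (hf : ∀ s, f' (j s) = f s) :
    ∑ i ∈ univ.filter (fun i => M'.on i), f' i = ∑ s ∈ univ.filter (fun s => M.on s), f s := by
  refine (sum_bij (fun s hs => j ⟨s, (mem_filter.1 hs).2⟩) (fun s hs => ?_) (fun s hs t ht e => ?_)
    (fun i hi => ?_) fun s hs => (hf ⟨s, _⟩).symm).symm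
  · exact mem_filter.2 ⟨mem_univ _, (h.on _).2 ⟨_, rfl⟩⟩
  · exact congrArg Subtype.val (h.inj e)
  · obtain ⟨s, rfl⟩ := (h.on i).1 (mem_filter.1 hi).2
    exact ⟨s, mem_filter.2 ⟨mem_univ _, s.2⟩, rfl⟩

private lemma Dic2.real [Fintype S] [Fintype S'] (h : Dic2 M M' e j) {x y : D' → ℝ} {T : ℝ}
    (r : M.Real (x ∘ e) (y ∘ e) T) : M'.Real x y T := by
  classical
  have sur : ∀ {p : D' → Prop}, (∀ d, p (e d)) → ∀ d, p d := fun hp d => by
    obtain ⟨d, rfl⟩ := e.surjective d
    exact hp d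
  refine ⟨sur r.x_pos, sur r.y_pos, sur fun d => ?_, sur fun d => ?_, sur fun d => ?_,
    sur fun d => ?_, fun i hi => ?_, ?_, fun i hi => ?_, sur fun β hβ => ?_, sur fun d => ?_⟩
  · rw [h.ι]; exact r.x_ι d
  · rw [h.κ]; exact r.y_κ d
  · rw [h.toDic.per, h.toDic.Pr]; exact r.lt d
  · rw [h.toDic.per, h.toDic.Pr]; exact r.fan d
  · obtain ⟨s, rfl⟩ := (h.on i).1 hi
    rw [h.trW]; exact r.tr s s.2
  · obtain ⟨c, c1, c2⟩ := r.crit
    refine ⟨Function.extend j (fun s => c s) 0, fun i hi => ?_, fun ξ η μ h1 h2 h3 => ?_⟩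
    · obtain ⟨s, rfl⟩ := (h.on i).1 hi
      rw [h.inj.extend_apply]; exact c1 s s.2
    · refine Eq.trans (h.sum _ _ fun s => ?_) (c2 (ξ ∘ e) (η ∘ e) μ
        (fun d => by simpa only [h.ι, Function.comp_apply] using h1 (e d))
        (fun d => by simpa only [h.κ, Function.comp_apply] using h2 (e d))
        (fun d => by simpa only [h.toDic.per, h.toDic.φ_pow, Function.comp_apply] using h3 (e d)))
      simp only [h.inj.extend_apply, h.trW]
      rfl
  · obtain ⟨s, rfl⟩ := (h.on i).1 hi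
    rw [← Function.minimalPeriod_pos_iff_mem_periodicPts, h.mp,
      Function.minimalPeriod_pos_iff_mem_periodicPts]
    exact r.periodic s s.2
  · rw [h.κ] at hβ
    obtain ⟨s, s1, s2, s3⟩ := r.cover β fun e' => hβ (congrArg e e')
    exact ⟨j ⟨s, s1⟩, (h.on _).2 ⟨_, rfl⟩, by rw [h.kd]; exact s2, by rw [h.base]; exact congrArg e s3⟩
  · obtain ⟨i, hi⟩ := r.base_ex d
    exact ⟨i, by rw [h.toDic.φ_pow, h.κ]; exact e.injective.ne hi⟩

end

variable {D S : Type} [Fintype D] [Fintype S]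

private lemma exists_idx {M : Mdl D S} {k m₀ D₀ : ℕ} (h : M.Shape k m₀ D₀) :
    ∃ u : {s // M.on s} → Fin D₀, ∀ s t, M.bs s.1 = M.bs t.1 → u s = u t → s = t := by
  classical
  have key : ∀ d, ∃ v : {s // M.on s ∧ M.bs s = d} → Fin D₀, Function.Injective v := by
    intro d
    have : Fintype.card {s // M.on s ∧ M.bs s = d} ≤ Fintype.card (Fin D₀) := by
      rw [Fintype.card_subtype, Fintype.card_fin]
      refine le_trans (card_le_card fun s hs => ?_) (h.fib d)
      simpa only [mem_filter, mem_univ, true_and] using hs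
    obtain ⟨v⟩ := Function.Embedding.nonempty_of_card_le this
    exact ⟨v, v.injective⟩
  choose v hv using key
  refine ⟨fun s => v (M.bs s) ⟨s, s.2, rfl⟩, fun s t e e' => ?_⟩
  have e2 : ∀ d (hd : M.bs t.1 = d), v (M.bs t) ⟨t, t.2, rfl⟩ = v d ⟨t, t.2, hd⟩ := by
    rintro _ rfl; rfl
  have := hv _ (e'.trans (e2 _ e.symm))
  exact Subtype.ext (congrArg (fun z : {s' // M.on s' ∧ M.bs s' = M.bs s.1} => z.1) this)

theorem exists_canon {M : Mdl D S} {k m₀ D₀ : ℕ} (h : M.Shape k m₀ D₀) {x y : D → ℝ} {T : ℝ}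
    (hr : M.Real x y T) {Γ : Subgroup SL(2, ℝ)} (hg : M.Gen Γ x y) :
    ∃ (r : ℕ) (M' : Mdl (Fin (Fintype.card D)) (Fin (Fintype.card D) × Fin D₀))
      (x' y' : Fin (Fintype.card D) → ℝ), 6 * r + 12 * k = Fintype.card D + 12 ∧
      M' ∈ Canon (Fintype.card D) D₀ r k (D₀ * (m₀ + 1) * Fintype.card D) ∧
      M'.Real x' y' T ∧ M'.Gen Γ x' y' := by
  classical
  have := h.ne
  obtain ⟨e, r, h1, h2⟩ := exists_lab h.ι_ι h.ι_ne h.ν3 h.ν_ne h.trans
  have h3 : cyc M.φ = (univ.filter fun β => M.κ β ≠ β).card :=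
    cyc_eq_card (fun d => (h.base_ex d).imp fun i hi => mem_filter.2 ⟨mem_univ _, hi⟩)
      fun a ha b hb => h.base_uniq a b (mem_filter.1 ha).2 (mem_filter.1 hb).2
  have h4 : (univ.filter fun β => M.κ β ≠ β).card = 2 * k := by
    rw [← h.card_base]
  obtain ⟨u, hu⟩ := exists_idx h
  let j : {s // M.on s} → Fin (Fintype.card D) × Fin D₀ := fun s => (e (M.bs s), u s)
  have hj : Function.Injective j := fun s t e' =>
    hu s t (e.injective (congrArg Prod.fst e')) (congrArg Prod.snd e')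
  let M' : Mdl (Fin (Fintype.card D)) (Fin (Fintype.card D) × Fin D₀) :=
    { ι := e.permCongr M.ι
      ν := e.permCongr M.ν
      κ := e.permCongr M.κ
      on := fun i => decide (∃ s, j s = i)
      bs := Prod.fst
      kd := Function.extend j (fun s => M.kd s) fun _ => 0
      oi := Function.extend j (fun s => M.oi s) fun _ => 0
      oj := Function.extend j (fun s => M.oj s) fun _ => 0
      nx := Function.extend j (fun s => j ⟨M.nx s, (h.nx s s.2).1⟩)
        fun i => (e (M.φ (e.symm i.1)), i.2) }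
  have dd : Dic M M' e := ⟨fun d => by simp [M'], fun d => by simp [M'], fun d => by simp [M']⟩
  have d2 : Dic2 M M' e j :=
    { dd with
      inj := hj
      on := fun i => by simp [M']
      bs := fun _ => rfl
      kd := fun s => by simp only [M', hj.extend_apply]
      oi := fun s => by simp only [M', hj.extend_apply]
      oj := fun s => by simp only [M', hj.extend_apply]
      hn := fun s hs => (h.nx s hs).1
      nx := fun s => by simp only [M', hj.extend_apply] }
  have ex : (x ∘ e.symm) ∘ e = x := by funext d; simp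
  have ey : (y ∘ e.symm) ∘ e = y := by funext d; simp
  have sm : ∀ f : S → ℕ, ∑ i, Function.extend j (fun s => f s) (fun _ => 0) i =
      ∑ s ∈ univ.filter (fun s => M.on s), f s := by
    intro f
    rw [← d2.sum f (Function.extend j (fun s => f s) fun _ => 0) fun s => hj.extend_apply _ _ s]
    refine (sum_subset (filter_subset _ _) fun i _ hi => ?_).symm
    refine Function.extend_apply' _ _ _ fun hh => hi (mem_filter.2 ⟨mem_univ _, (d2.on i).2 hh⟩)
  obtain ⟨s1, s2⟩ := h.sum_le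
  refine ⟨r, M', x ∘ e.symm, y ∘ e.symm, ?_, ⟨h2, fun d => ?_, ?_, fun _ => rfl, fun i => ?_, ?_, ?_⟩,
    d2.real (by rwa [ex, ey]), dd.gen (by rwa [ex, ey])⟩
  · have : cyc (M.ι * M.ν * M.ν) = 2 * k := h3.trans h4
    omega
  · simp [M', h.κ_κ]
  · rw [← h4]
    refine (card_equiv e fun d => ?_).symm
    simp [M', mem_support]
  · by_cases hi : ∃ s, j s = i
    · obtain ⟨s, rfl⟩ := hi
      rw [d2.nx, d2.step, ← (h.nx s s.2).2]
    · have k0 : M'.kd i = 0 := by simp only [M', Function.extend_apply' _ _ _ hi]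
      have k1 : M'.nx i = (e (M.φ (e.symm i.1)), i.2) := by
        simp only [M', Function.extend_apply' _ _ _ hi]
      rw [k1, Mdl.step, if_pos k0, ← dd.φ, apply_symm_apply]
  · refine (sm M.oi).le.trans (s1.trans (Nat.mul_le_mul_right _ ?_))
    exact Nat.le_mul_of_pos_right _ (Nat.succ_pos _)
  · refine (sm M.oj).le.trans (s2.trans (Nat.mul_le_mul_right _ ?_))
    exact Nat.mul_le_mul_left _ (Nat.le_succ _)

end

end Pool.Agent.P.MP_d39174_gt
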