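import Pool.Agent.P.MP_d39174_gt.CmbDef

/-! Counting in a filling system. -/

namespace Pool.Agent.P.MP_d39174_gt

open UpperHalfPlane MatrixGroups

noncomputable section

open Equiv

namespace Cmb

variable {Vx H : Type} [Fintype Vx] [DecidableEq Vx] [Fintype H] [DecidableEq H]
  {G : SimpleGraph Vx} [DecidableRel G.Adj] (C : Cmb G H)

lemma per_pos (h : H) : 0 < C.per h :=
  Function.minimalPeriod_pos_of_mem_periodicPts (C.ς.injective.mem_periodicPts h)

lemma ς_pow_per (h : H) : (C.ς ^ C.per h) h = h := by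
  rw [← Perm.iterate_eq_pow]
  exact Function.iterate_minimalPeriod

lemma per_dvd {h : H} {i : ℕ} (e : (C.ς ^ i) h = h) : C.per h ∣ i := by
  rw [← Perm.iterate_eq_pow] at e
  exact Function.IsPeriodicPt.minimalPeriod_dvd e

private lemma same_pow (h : H) (i : ℕ) : C.ς.SameCycle h ((C.ς ^ i) h) := ⟨i, by simp⟩

private lemma lab_same {h k : H} (e : C.ς.SameCycle h k) : C.lab k = C.lab h := by
  obtain ⟨i, -, rfl⟩ := e.exists_pow_eq'
  induction i with
  | zero => rfl
  | succ i ih => rw [pow_succ', Perm.mul_apply, lab_ς, ih (C.same_pow h i)]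

private lemma sum_cyc (F : H → ℝ) (h : H) : ∑ i ∈ Finset.range (C.per h), F ((C.ς ^ i) h) =
    ∑ k with C.ς.SameCycle h k, F k := by
  refine Finset.sum_bij (fun i _ => (C.ς ^ i) h) (fun i _ => by simpa using C.same_pow h i)
    (fun i hi j hj e => ?_) (fun k hk => ?_) fun _ _ => rfl
  · rw [← Perm.iterate_eq_pow, ← Perm.iterate_eq_pow] at e
    exact Function.iterate_injOn_Iio_minimalPeriod (Finset.mem_range.1 hi) (Finset.mem_range.1 hj) e
  · obtain ⟨i, -, rfl⟩ := (Finset.mem_filter.1 hk).2.exists_pow_eq'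
    refine ⟨i % C.per h, Finset.mem_range.2 (Nat.mod_lt _ (C.per_pos h)), ?_⟩
    rw [← Perm.iterate_eq_pow, ← Perm.iterate_eq_pow]
    exact Function.iterate_mod_minimalPeriod_eq

private lemma sum_nb (F : Vx → ℝ) (h : H) :
    ∑ k with C.ς.SameCycle h k, F (C.lab (C.f k)) = ∑ w ∈ G.neighborFinset (C.lab h), F w := by
  refine Finset.sum_bij (fun k _ => C.lab (C.f k)) (fun k hk => ?_) (fun k hk k' hk' e => ?_)
    (fun w hw => ?_) fun _ _ => rfl
  · rw [SimpleGraph.mem_neighborFinset, ← C.lab_same (Finset.mem_filter.1 hk).2]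
    exact C.adj_f k
  · rw [lab_f, lab_f] at e
    refine C.ς.injective (C.inj _ _ ?_ e)
    exact ((Finset.mem_filter.1 hk').2.symm.trans (Finset.mem_filter.1 hk).2).apply_left.apply_right
  · obtain ⟨k, h1, h2⟩ := C.nb h w ((G.mem_neighborFinset _ _).1 hw)
    refine ⟨C.ς.symm k, Finset.mem_filter.2 ⟨Finset.mem_univ _, h1.symm_apply_right⟩, ?_⟩
    rw [lab_f, Equiv.apply_symm_apply, h2]

lemma per_dvd_of_lab {h : H} {i : ℕ} (e : C.lab (C.ρ ((C.ς ^ i) h)) = C.lab (C.ρ h)) :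
    C.per h ∣ i :=
  C.per_dvd (C.inj _ _ (C.same_pow h i) e)

lemma sum_per (F : Vx → ℝ) (h : H) :
    ∑ i ∈ Finset.range (C.per h), F (C.lab (C.f ((C.ς ^ i) h))) =
      ∑ w ∈ G.neighborFinset (C.lab h), F w :=
  (C.sum_cyc (fun k => F (C.lab (C.f k))) h).trans (C.sum_nb F h)

lemma sum_all (F : Vx → Vx → ℝ) :
    ∑ h, F (C.lab h) (C.lab (C.f h)) = 2 * ∑ v, ∑ w ∈ G.neighborFinset v, F v w := by
  rw [← Finset.sum_fiberwise Finset.univ C.lab, Finset.mul_sum]
  refine Finset.sum_congr rfl fun v _ => ?_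
  obtain ⟨h, rfl⟩ := C.surj v
  have e : (Finset.univ.filter fun k => C.lab k = C.lab h) =
      (Finset.univ.filter fun k => C.ς.SameCycle h k) ∪
        Finset.univ.filter fun k => C.ς.SameCycle (C.α h) k := by
    ext k
    simp only [Finset.mem_union, Finset.mem_filter, Finset.mem_univ, true_and]
    exact ⟨fun e => C.same h k e.symm,
      fun e => e.elim C.lab_same fun e => (C.lab_same e).trans (C.labα h)⟩
  rw [Finset.sum_congr rfl fun k hk => by rw [(Finset.mem_filter.1 hk).2], e, Finset.sum_union,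
    C.sum_nb, C.sum_nb, C.labα, two_mul]
  exact Finset.disjoint_filter.2 fun k _ h1 h2 => C.two h (h1.trans h2.symm)

include C in
lemma card_eq : Fintype.card H = 4 * G.edgeFinset.card := by
  have h := C.sum_all fun _ _ => 1
  simp only [Finset.sum_const, nsmul_eq_mul, mul_one, Finset.card_univ,
    SimpleGraph.card_neighborFinset_eq_degree] at h
  rw [← Nat.cast_sum, G.sum_degrees_eq_twice_card_edges] at h
  have h1 : Fintype.card H = 2 * (2 * G.edgeFinset.card) := by exact_mod_cast h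
  omega

lemma sum_avg (F : H → ℝ) :
    ∑ h, (1 / (C.per h : ℝ)) * ∑ i ∈ Finset.range (C.per h), F ((C.ς ^ i) h) = ∑ h, F h := by
  have hc : ∀ h, (C.per h : ℝ) = ∑ k with C.ς.SameCycle h k, (1 : ℝ) := fun h => by
    rw [← C.sum_cyc (fun _ => 1) h]
    simp
  have he : ∀ h k, C.ς.SameCycle h k → (C.per h : ℝ) = C.per k := fun h k e => by
    rw [hc, hc, Finset.filter_congr fun x _ => ⟨e.symm.trans, e.trans⟩]
  simp only [C.sum_cyc, Finset.mul_sum]
  rw [Finset.sum_comm' (t' := Finset.univ)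
    (s' := fun k => Finset.univ.filter fun h => C.ς.SameCycle k h)
    fun h k => by simp [Perm.sameCycle_comm]]
  refine Finset.sum_congr rfl fun k _ => ?_
  have hp : (C.per k : ℝ) ≠ 0 := Nat.cast_ne_zero.2 (C.per_pos k).ne'
  rw [Finset.sum_congr rfl fun h hh => by
    rw [← he k h (Finset.mem_filter.1 hh).2, ← mul_one (_ * F k)], ← Finset.mul_sum, ← hc]
  field_simp

private lemma tr_perm {σ : H → H} (hσ : ∀ h, σ h ≠ h) :
    LinearMap.trace ℝ (H → ℝ) (LinearMap.funLeft ℝ ℝ σ) = 0 := by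
  rw [LinearMap.trace_eq_matrix_trace ℝ (Pi.basisFun ℝ H), Matrix.trace]
  refine Finset.sum_eq_zero fun h _ => ?_
  simp [LinearMap.toMatrix_apply, LinearMap.funLeft_apply, Pi.single_eq_of_ne (hσ h)]

private def Wa : Submodule ℝ (H → ℝ) := LinearMap.ker (LinearMap.id + LinearMap.funLeft ℝ ℝ C.α)

private def av : (H → ℝ) →ₗ[ℝ] H → ℝ :=
  LinearMap.id + LinearMap.funLeft ℝ ℝ C.ρ + LinearMap.funLeft ℝ ℝ (fun h => C.ρ (C.ρ h)) +
    LinearMap.funLeft ℝ ℝ fun h => C.ρ (C.ρ (C.ρ h))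

private lemma mem_Wa {a : H → ℝ} : a ∈ C.Wa ↔ ∀ h, a h + a (C.α h) = 0 := funext_iff

private lemma av_apply (a : H → ℝ) (h : H) :
    C.av a h = a h + a (C.ρ h) + a (C.ρ (C.ρ h)) + a (C.ρ (C.ρ (C.ρ h))) := rfl

private lemma mem_av {a : H → ℝ} : a ∈ LinearMap.ker C.av ↔
    ∀ h, a h + a (C.ρ h) + a (C.ρ (C.ρ h)) + a (C.ρ (C.ρ (C.ρ h))) = 0 := funext_iff

private lemma finrank_Wa : (Module.finrank ℝ C.Wa : ℝ) = Fintype.card H / 2 := by
  have h : LinearMap.IsProj C.Wa ((1 / 2 : ℝ) • (LinearMap.id - LinearMap.funLeft ℝ ℝ C.α)) := by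
    refine ⟨fun a => C.mem_Wa.2 fun h => ?_, fun a ha => funext fun h => ?_⟩
    · change 1 / 2 * (a h - a (C.α h)) + 1 / 2 * (a (C.α h) - a (C.α (C.α h))) = 0
      rw [C.α2]
      ring
    · change 1 / 2 * (a h - a (C.α h)) = a h
      linarith [C.mem_Wa.1 ha h]
  rw [← h.trace, map_smul, map_sub, tr_perm C.α_ne, LinearMap.trace_id,
    Module.finrank_fintype_fun_eq_card, smul_eq_mul]
  ring

private lemma finrank_av :
    (Module.finrank ℝ (LinearMap.ker C.av) : ℝ) = 3 * Fintype.card H / 4 := by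
  have h : LinearMap.IsProj (LinearMap.ker C.av) (LinearMap.id - (1 / 4 : ℝ) • C.av) := by
    refine ⟨fun a => C.mem_av.2 fun h => ?_, fun a ha => ?_⟩
    · simp only [LinearMap.sub_apply, LinearMap.smul_apply, LinearMap.id_apply, Pi.sub_apply,
        Pi.smul_apply, smul_eq_mul, av_apply, C.ρ4]
      ring
    · rw [LinearMap.sub_apply, LinearMap.smul_apply, LinearMap.mem_ker.1 ha, smul_zero, sub_zero,
        LinearMap.id_apply]
  have h3 : ∀ h, C.ρ (C.ρ (C.ρ h)) ≠ h := fun h e => C.ρ_ne h (by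
    conv_lhs => rw [← e]
    exact C.ρ4 h)
  rw [← h.trace, map_sub, map_smul, av, map_add, map_add, map_add, tr_perm C.ρ_ne, tr_perm C.ρρ_ne,
    tr_perm h3, LinearMap.trace_id, Module.finrank_fintype_fun_eq_card, smul_eq_mul]
  ring

private lemma sup_eq [Nonempty H] : C.Wa ⊔ LinearMap.ker C.av =
    LinearMap.ker (∑ h, LinearMap.proj h : (H → ℝ) →ₗ[ℝ] ℝ) := by
  have hm : ∀ a : H → ℝ, a ∈ LinearMap.ker (∑ h, LinearMap.proj h : (H → ℝ) →ₗ[ℝ] ℝ) ↔
      ∑ h, a h = 0 := fun a => by simp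
  refine le_antisymm (sup_le (fun a ha => (hm a).2 ?_) fun a ha => (hm a).2 ?_) fun a ha => ?_
  · have h := Finset.sum_eq_zero (s := Finset.univ) fun h _ => C.mem_Wa.1 ha h
    rw [Finset.sum_add_distrib, Equiv.sum_comp C.α a] at h
    linarith
  · have h := Finset.sum_eq_zero (s := Finset.univ) fun h _ => C.mem_av.1 ha h
    simp only [Finset.sum_add_distrib] at h
    rw [Equiv.sum_comp C.ρ fun h => a (C.ρ (C.ρ h)), Equiv.sum_comp C.ρ fun h => a (C.ρ h),
      Equiv.sum_comp C.ρ a] at h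
    linarith
  · have e : ∀ (σ : Perm H) (h k : H),
        (Pi.single (σ h) 1 : H → ℝ) (σ k) = (Pi.single h 1 : H → ℝ) k := fun σ h k => by
      simp [Pi.single_apply]
    have h1 : ∀ h, (Pi.single h 1 - Pi.single (C.α h) 1 : H → ℝ) ∈ C.Wa := fun h =>
      C.mem_Wa.2 fun k => by
        have e1 := e C.α (C.α h) k
        rw [C.α2] at e1
        rw [Pi.sub_apply, Pi.sub_apply, e, e1]
        ring
    have h2 : ∀ h, (Pi.single (C.ρ h) 1 - Pi.single h 1 : H → ℝ) ∈ LinearMap.ker C.av := fun h =>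
      C.mem_av.2 fun k => by
        have e1 := e C.ρ h (C.ρ (C.ρ (C.ρ k)))
        rw [C.ρ4] at e1
        simp only [Pi.sub_apply, e, e1]
        ring
    have h3 : ∀ h k : H, C.f.SameCycle h k →
        (Pi.single h 1 - Pi.single k 1 : H → ℝ) ∈ C.Wa ⊔ LinearMap.ker C.av := by
      intro h k hk
      obtain ⟨i, -, rfl⟩ := hk.exists_pow_eq'
      clear hk
      induction i with
      | zero => simp
      | succ i ih =>
        have h4 := h2 (C.f ((C.f ^ i) h))
        rw [C.ρ_f] at h4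
        have h5 := add_mem ih (Submodule.add_mem_sup (h1 ((C.f ^ i) h)) h4)
        rwa [sub_add_sub_cancel, sub_add_sub_cancel, ← Perm.mul_apply, ← pow_succ'] at h5
    obtain ⟨k⟩ := ‹Nonempty H›
    have h6 : a = ∑ h, a h • (Pi.single h 1 - Pi.single k 1 : H → ℝ) := by
      simp only [smul_sub, Finset.sum_sub_distrib, ← Finset.sum_smul, (hm a).1 ha, zero_smul,
        sub_zero]
      exact pi_eq_sum_univ' a
    rw [h6]
    exact Submodule.sum_mem _ fun h _ => Submodule.smul_mem _ _ (h3 h k (C.one h k))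

lemma finrank_Z [Nonempty H] : Module.finrank ℝ C.Z = G.edgeFinset.card + 1 := by
  have h1 : C.Z = C.Wa ⊓ LinearMap.ker C.av := by
    ext a
    rw [Submodule.mem_inf, mem_Wa, mem_av]
    exact and_congr_left' (forall_congr' fun h => ⟨fun e => by linarith, fun e => by linarith⟩)
  have h2 := Submodule.finrank_sup_add_finrank_inf_eq C.Wa (LinearMap.ker C.av)
  have h3 := Module.Dual.finrank_ker_add_one_of_ne_zero
    (f := (∑ h, LinearMap.proj h : (H → ℝ) →ₗ[ℝ] ℝ)) fun e => by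
      simpa using LinearMap.congr_fun e fun _ => 1
  rw [← C.sup_eq, Module.finrank_fintype_fun_eq_card] at h3
  rw [← h1] at h2
  have h4 := C.finrank_Wa
  have h5 := C.finrank_av
  have h6 := C.card_eq
  have h7 : 2 * Module.finrank ℝ C.Wa = Fintype.card H := by
    exact_mod_cast (by linarith : 2 * (Module.finrank ℝ C.Wa : ℝ) = Fintype.card H)
  have h8 : 4 * Module.finrank ℝ (LinearMap.ker C.av) = 3 * Fintype.card H := by
    exact_mod_cast
      (by linarith : 4 * (Module.finrank ℝ (LinearMap.ker C.av) : ℝ) = 3 * Fintype.card H)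
  omega

end Cmb

end

end Pool.Agent.P.MP_d39174_gt
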