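import Pool.Agent.P.MP_d39174_gt.PolyDef
import Pool.Agent.P.MP_d39174_gt.Cmb1

/-! Reduction of closed paths and backtracks. -/

namespace Pool.Agent.P.MP_d39174_gt

open UpperHalfPlane MatrixGroups

noncomputable section

open Equiv

lemma run_append {S : Type} (a r : Perm S) (s : S) (js ks : List ℕ) :
    run a r s (js ++ ks) = run a r (run a r s js) ks := List.foldl_append

lemma Rch.trans {S : Type} {a r : Perm S} {m n : ℕ} {s s' s'' : S} (h : Rch a r m s s')
    (h' : Rch a r n s' s'') : Rch a r (m + n) s s'' := by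
  obtain ⟨js, h1, h2⟩ := h
  obtain ⟨ks, h3, h4⟩ := h'
  refine ⟨js ++ ks, ?_, ?_⟩
  · rw [List.length_append]
    omega
  · rw [run_append, h2, h4]

lemma Rch.mono {S : Type} {a r : Perm S} {m n : ℕ} {s s' : S} (h : Rch a r m s s')
    (e : m ≤ n) : Rch a r n s s' := by
  obtain ⟨js, h1, h2⟩ := h
  exact ⟨js, h1.trans e, h2⟩

lemma Red_run_cons {S : Type} (a r : Perm S) (s : S) (j : ℕ) (js : List ℕ) :
    run a r s (j :: js) = run a r (stp a r s j) js := rfl

lemma Red_pow_map {S S' : Type} {r : Perm S} {r' : Perm S'} {F : S → S'}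
    (hr : ∀ s, F (r s) = r' (F s)) (j : ℕ) (s : S) : F ((r ^ j) s) = (r' ^ j) (F s) := by
  induction j with
  | zero => rfl
  | succ j ih => rw [pow_succ', pow_succ', Perm.mul_apply, Perm.mul_apply, hr, ih]

lemma Red_pow_mod {S : Type} {r : Perm S} (r4 : ∀ s, r (r (r (r s))) = s) (j : ℕ) :
    r ^ j = r ^ (j % 4) := by
  refine pow_eq_pow_mod j ?_
  ext s
  simp [pow_succ, r4]
/-- Moves commute with equivariant maps. -/
lemma run_map {S S' : Type} {a r : Perm S} {a' r' : Perm S'} {F : S → S'}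
    (ha : ∀ s, F (a s) = a' (F s)) (hr : ∀ s, F (r s) = r' (F s)) (s : S) (js : List ℕ) :
    F (run a r s js) = run a' r' (F s) js := by
  induction js generalizing s with
  | nil => rfl
  | cons j js ih =>
    rw [Red_run_cons, Red_run_cons, ih]
    unfold stp
    rw [Red_pow_map hr, ha]

lemma Red_rot {S : Type} {a r g : Perm S} (ga : ∀ s, g (a s) = a (g s))
    (gr : ∀ s, g (r s) = r (g s)) {s : S} {l1 l2 : List ℕ} (e : run a r s (l1 ++ l2) = g s) :
    run a r (run a r s l1) (l2 ++ l1) = g (run a r s l1) := by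
  rw [run_append, ← run_append a r s l1 l2, e, run_map (F := g) ga gr]

lemma Red_reduce {Vx H S : Type} {G : SimpleGraph Vx} (C : Cmb G H) {a r g : Perm S} {pr : S → H}
    (a2 : ∀ s, a (a s) = s) (r4 : ∀ s, r (r (r (r s))) = s)
    (ga : ∀ s, g (a s) = a (g s)) (gr : ∀ s, g (r s) = r (g s))
    (pa : ∀ s, pr (a s) = C.α (pr s)) (pρ : ∀ s, pr (r s) = C.ρ (pr s))
    (pg : ∀ s, pr (g s) = pr s) (n : ℕ) : ∀ {s : S} {js : List ℕ}, js.length = n →
    run a r s js = g s →
    (∃ s', g s' = s') ∨ ∃ s' js', Rch a r (n ^ 2) s s' ∧ run a r s' js' = g s' ∧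
      1 ≤ js'.length ∧ js'.length ≤ n ∧ ∀ j ∈ js', j % 4 ≠ 0 := by
  induction n using Nat.strong_induction_on with
  | _ n ih =>
  intro s js hn e
  by_cases hz : ∀ j ∈ js, j % 4 ≠ 0
  · rcases Nat.eq_zero_or_pos n with h0 | h0
    · have : js = [] := List.eq_nil_of_length_eq_zero (hn.trans h0)
      subst this
      exact .inl ⟨s, e.symm⟩
    · exact .inr ⟨s, js, ⟨[], Nat.zero_le _, rfl⟩, e, by omega, hn.le, hz⟩
  obtain ⟨j, hj, hj0⟩ : ∃ j ∈ js, j % 4 = 0 := by
    by_contra hc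
    exact hz fun j hj h0 => hc ⟨j, hj, h0⟩
  obtain ⟨l1, l2, rfl⟩ := List.append_of_mem hj
  have e1 := Red_rot ga gr e
  have hj1 : ∀ x, stp a r x j = a x := fun x => by
    unfold stp
    rw [Red_pow_mod r4 j, hj0]
    rfl
  have hlen : (l2 ++ l1).length + 1 = n := by
    rw [← hn]
    simp only [List.length_append, List.length_cons]
    omega
  have hl1 : l1.length + 1 ≤ n := by
    rw [← hn]
    simp only [List.length_append, List.length_cons]
    omega
  have hr1 : Rch a r l1.length s (run a r s l1) := ⟨l1, le_rfl, rfl⟩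
  rw [List.cons_append] at e1
  generalize run a r s l1 = s1 at e1 hr1
  generalize l2 ++ l1 = l at e1 hlen
  rcases l with _ | ⟨b, l⟩
  · exfalso
    have e2 : a s1 = g s1 := (hj1 s1).symm.trans e1
    have e3 := congrArg pr e2
    rw [pa, pg] at e3
    exact C.α_ne _ e3
  rcases List.eq_nil_or_concat l with rfl | ⟨l', c, rfl⟩
  · left
    have e2 : (r ^ b) s1 = g s1 := by
      rw [← e1, Red_run_cons, hj1, Red_run_cons]
      unfold stp
      rw [a2]
      rfl
    have e3 := congrArg pr e2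
    rw [pg, Red_pow_map pρ, Red_pow_mod C.ρ4] at e3
    have hb : b % 4 = 0 := by
      have h4 : b % 4 = 0 ∨ b % 4 = 1 ∨ b % 4 = 2 ∨ b % 4 = 3 := by omega
      rcases h4 with h4 | h4 | h4 | h4
      · exact h4
      · rw [h4] at e3
        exact (C.ρ_ne _ e3).elim
      · rw [h4] at e3
        exact (C.ρρ_ne _ e3).elim
      · rw [h4] at e3
        have e4 : C.ρ (C.ρ (C.ρ (pr s1))) = pr s1 := e3
        have e5 := congrArg C.ρ e4
        rw [C.ρ4] at e5
        exact (C.ρ_ne _ e5.symm).elim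
    rw [Red_pow_mod r4, hb] at e2
    exact ⟨s1, e2.symm⟩
  · rw [List.concat_eq_append] at e1 hlen
    have e2 := Red_rot (l1 := j :: b :: l') (l2 := [c]) ga gr e1
    have hr2 : Rch a r (l'.length + 2) s1 (run a r s1 (j :: b :: l')) := ⟨_, le_rfl, rfl⟩
    generalize run a r s1 (j :: b :: l') = s2 at e2 hr2
    have e3 : run a r s2 ((b + c) :: l') = g s2 := by
      rw [← e2, List.singleton_append, Red_run_cons, Red_run_cons, Red_run_cons, Red_run_cons,
        hj1]
      unfold stp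
      rw [a2, pow_add, Perm.mul_apply]
    simp only [List.length_append, List.length_cons, List.length_nil] at hlen
    rcases ih (l'.length + 1) (by omega) rfl e3 with h | ⟨s', js', h1, h2, h3, h4, h5⟩
    · exact .inl h
    · refine .inr ⟨s', js', ((hr1.trans hr2).trans h1).mono ?_, h2, h3, by omega, h5⟩
      obtain rfl : n = l'.length + 3 := by omega
      nlinarith
/-- Cyclic reduction of a path from `s` to `g s`. -/
theorem reduce {Vx H S : Type} {G : SimpleGraph Vx} (C : Cmb G H) {a r g : Perm S} {pr : S → H}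
    (a2 : ∀ s, a (a s) = s) (r4 : ∀ s, r (r (r (r s))) = s)
    (ga : ∀ s, g (a s) = a (g s)) (gr : ∀ s, g (r s) = r (g s))
    (pa : ∀ s, pr (a s) = C.α (pr s)) (pρ : ∀ s, pr (r s) = C.ρ (pr s))
    (pg : ∀ s, pr (g s) = pr s) {K : ℕ} {s : S} {js : List ℕ} (e : run a r s js = g s)
    (hK : js.length ≤ K) :
    (∃ s', g s' = s') ∨ ∃ s' js', Rch a r (K ^ 2) s s' ∧ run a r s' js' = g s' ∧
      1 ≤ js'.length ∧ js'.length ≤ K ∧ ∀ j ∈ js', j % 4 ≠ 0 := by
  rcases Red_reduce C a2 r4 ga gr pa pρ pg js.length rfl e with h | ⟨s', js', h1, h2, h3, h4, h5⟩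
  · exact .inl h
  · exact .inr ⟨s', js', h1.mono (Nat.pow_le_pow_left hK 2), h2, h3, h4.trans hK, h5⟩

lemma Red_gain_append {H : Type} (a r : Perm H) (w : H → ℝ) (h : H) (js ks : List ℕ) :
    gain a r w h (js ++ ks) = gain a r w h js + gain a r w (run a r h js) ks := by
  induction js generalizing h with
  | nil => simp [gain, run]
  | cons j js ih =>
    rw [List.cons_append, Red_run_cons]
    simp only [gain]
    rw [ih, add_assoc]

section

variable {Vx H : Type} {G : SimpleGraph Vx} (C : Cmb G H)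

/-- A straight run followed by a turn. -/
def Red_blk (x : H) (b : ℕ × ℕ) : H := stp C.α C.ρ ((C.ς ^ b.1) x) b.2

/-- The weight of a straight run. -/
def Red_S (w : H → ℝ) (x : H) (d : ℕ) : ℝ := ∑ m ∈ Finset.range d, w ((C.ς ^ m) x)

/-- The weight of a list of runs. -/
def Red_G (w : H → ℝ) : H → List (ℕ × ℕ) → ℝ
  | _, [] => 0
  | x, b :: L => Red_S C w x b.1 + Red_G w (Red_blk C x b) L

lemma Red_G_append (w : H → ℝ) (x : H) (L L' : List (ℕ × ℕ)) :
    Red_G C w x (L ++ L') = Red_G C w x L + Red_G C w (L.foldl (Red_blk C) x) L' := by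
  induction L generalizing x with
  | nil => simp [Red_G]
  | cons b L ih =>
    rw [List.cons_append, List.foldl_cons]
    simp only [Red_G]
    rw [ih, add_assoc]

lemma Red_G_nonneg {w : H → ℝ} (w0 : ∀ h, 0 ≤ w h) (x : H) (L : List (ℕ × ℕ)) :
    0 ≤ Red_G C w x L := by
  induction L generalizing x with
  | nil => exact le_rfl
  | cons b L ih => exact add_nonneg (Finset.sum_nonneg fun _ _ => w0 _) (ih _)

lemma Red_decomp (w : H → ℝ) (js : List ℕ) (red : ∀ j ∈ js, j % 4 ≠ 0) (e : ℕ) :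
    ∃ (L : List (ℕ × ℕ)) (d : ℕ), (∀ b ∈ L, b.2 % 4 = 1 ∨ b.2 % 4 = 3) ∧ L.length ≤ js.length ∧
      ∀ x, run C.α C.ρ ((C.ς ^ e) x) js = (C.ς ^ d) (L.foldl (Red_blk C) x) ∧
        Red_S C w x e + gain C.α C.ρ w ((C.ς ^ e) x) js =
          Red_G C w x L + Red_S C w (L.foldl (Red_blk C) x) d := by
  induction js generalizing e with
  | nil => exact ⟨[], e, by simp, le_rfl, fun x => ⟨rfl, by simp [gain, Red_G]⟩⟩
  | cons j js ih =>
    have red' : ∀ i ∈ js, i % 4 ≠ 0 := fun i hi => red i (List.mem_cons_of_mem _ hi)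
    have hj := red j List.mem_cons_self
    by_cases h2 : j % 4 = 2
    · obtain ⟨L, d, q1, q2, q3⟩ := ih red' (e + 1)
      refine ⟨L, d, q1, by rw [List.length_cons]; omega, fun x => ?_⟩
      have e1 : stp C.α C.ρ ((C.ς ^ e) x) j = (C.ς ^ (e + 1)) x := by
        unfold stp
        rw [Red_pow_mod C.ρ4, h2, pow_succ' C.ς, Perm.mul_apply]
        rfl
      obtain ⟨q4, q5⟩ := q3 x
      refine ⟨by rw [Red_run_cons, e1, q4], ?_⟩
      rw [← q5]
      simp only [gain, if_pos h2, e1, Red_S, Finset.sum_range_succ]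
      ring
    · obtain ⟨L, d, q1, q2, q3⟩ := ih red' 0
      refine ⟨(e, j) :: L, d, ?_, by simp only [List.length_cons]; omega, fun x => ?_⟩
      · intro b hb
        rcases List.mem_cons.1 hb with rfl | hb
        · show j % 4 = 1 ∨ j % 4 = 3
          omega
        · exact q1 b hb
      · obtain ⟨q4, q5⟩ := q3 (Red_blk C x (e, j))
        simp only [pow_zero, Perm.one_apply] at q4 q5
        refine ⟨q4, ?_⟩
        have e0 : Red_S C w (Red_blk C x (e, j)) 0 = 0 := by simp [Red_S]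
        rw [e0, zero_add] at q5
        simp only [gain, if_neg h2, Red_G, List.foldl_cons]
        rw [add_assoc, ← q5, zero_add]
        rfl

lemma Red_lab_pow (x : H) (d : ℕ) : C.lab ((C.ς ^ d) x) = C.lab x := by
  induction d with
  | zero => rfl
  | succ d ih => rw [pow_succ', Perm.mul_apply, C.lab_ς, ih]

lemma Red_lab_blk (x : H) {b : ℕ × ℕ} (hb : b.2 % 4 = 1 ∨ b.2 % 4 = 3) :
    C.lab (Red_blk C x b) = C.lab (C.ρ ((C.ς ^ (b.1 + 1)) x)) ∧
      C.lab (C.ρ (Red_blk C x b)) = C.lab x := by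
  rw [pow_succ', Perm.mul_apply, ← Red_lab_pow C x b.1]
  unfold Red_blk stp
  generalize (C.ς ^ b.1) x = y
  rw [Red_pow_mod C.ρ4, C.ς_eq]
  rcases hb with hb | hb <;> rw [hb]
  · refine ⟨(C.labρ _).symm, ?_⟩
    show C.lab (C.ρ (C.ρ (C.α y))) = _
    rw [C.labρ, C.labα]
  · refine ⟨rfl, ?_⟩
    show C.lab (C.ρ (C.ρ (C.ρ (C.ρ (C.α y))))) = _
    rw [C.ρ4, C.labα]

lemma Red_one {K : ℕ} (hG : NBG G K) {w : H → ℝ} {Λ Tm : ℝ} (w0 : ∀ h, 0 ≤ w h)
    (w1 : ∀ h, w h ≤ Tm) (hΛ : ∀ h, ∑ i ∈ Finset.range (C.per h), w ((C.ς ^ i) h) = Λ)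
    {x : H} {L : List (ℕ × ℕ)} (e : L.foldl (Red_blk C) x = x) (h0 : L ≠ []) (hK : L.length ≤ K)
    (odd : ∀ b ∈ L, b.2 % 4 = 1 ∨ b.2 % 4 = 3) :
    ∃ L1 b L2, L = L1 ++ b :: L2 ∧ L1 ≠ [] ∧
      Λ - Tm ≤ Red_S C w (L1.foldl (Red_blk C) x) b.1 := by
  have stepk : ∀ i (hi : i < L.length), (L.take (i + 1)).foldl (Red_blk C) x =
      Red_blk C ((L.take i).foldl (Red_blk C) x) L[i] := fun i hi => by
    rw [List.take_succ_eq_append_getElem hi, List.foldl_append]
    rfl
  obtain ⟨i, hi, hv⟩ : ∃ i, i + 2 ≤ L.length ∧ C.lab ((L.take i).foldl (Red_blk C) x) =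
      C.lab ((L.take (i + 2)).foldl (Red_blk C) x) := by
    by_contra hc
    refine hG L.length (fun i => C.lab ((L.take i).foldl (Red_blk C) x))
      (List.length_pos_iff.2 h0) hK (fun i hi => ?_) (fun i hi q => hc ⟨i, hi, q⟩) ?_
    · show G.Adj (C.lab _) (C.lab ((L.take (i + 1)).foldl (Red_blk C) x))
      rw [stepk i hi, ← (Red_lab_blk C _ (odd _ (List.getElem_mem hi))).2]
      exact (C.adj _).symm
    · show C.lab ((L.take L.length).foldl (Red_blk C) x) = C.lab x
      rw [List.take_length, e]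
  have h1 : i < L.length := by omega
  have h2 : i + 1 < L.length := by omega
  refine ⟨L.take (i + 1), L[i + 1], L.drop (i + 2), ?_, ?_, ?_⟩
  · rw [List.getElem_cons_drop, List.take_append_drop]
  · intro q
    have := congrArg List.length q
    rw [List.length_take, List.length_nil] at this
    omega
  · rw [stepk (i + 1) h2, (Red_lab_blk C _ (odd _ (List.getElem_mem h2))).1,
      ← (Red_lab_blk C _ (odd _ (List.getElem_mem h1))).2, ← stepk i h1] at hv
    generalize (L.take (i + 1)).foldl (Red_blk C) x = k at hv ⊢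
    generalize L[i + 1].1 = d at hv ⊢
    have e1 : (C.ς ^ (d + 1)) k = k :=
      C.inj k _ ⟨((d + 1 : ℕ) : ℤ), by rw [zpow_natCast]; rfl⟩ hv.symm
    have e2 : C.per k ≤ d + 1 := by
      refine Function.IsPeriodicPt.minimalPeriod_le (Nat.succ_pos d) ?_
      show C.ς^[d + 1] k = k
      rw [← Perm.coe_pow]
      exact e1
    have e3 : Λ ≤ ∑ m ∈ Finset.range (d + 1), w ((C.ς ^ m) k) := by
      rw [← hΛ k]
      exact Finset.sum_le_sum_of_subset_of_nonneg (Finset.range_mono e2) fun _ _ _ => w0 _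
    rw [Finset.sum_range_succ] at e3
    have e4 := w1 ((C.ς ^ d) k)
    unfold Red_S
    linarith

lemma Red_two {K : ℕ} (hG : NBG G K) {w : H → ℝ} {Λ Tm : ℝ} (w0 : ∀ h, 0 ≤ w h)
    (w1 : ∀ h, w h ≤ Tm) (hΛ : ∀ h, ∑ i ∈ Finset.range (C.per h), w ((C.ς ^ i) h) = Λ)
    {x : H} {L : List (ℕ × ℕ)} (e : L.foldl (Red_blk C) x = x) (h0 : L ≠ []) (hK : L.length ≤ K)
    (odd : ∀ b ∈ L, b.2 % 4 = 1 ∨ b.2 % 4 = 3) : 2 * (Λ - Tm) ≤ Red_G C w x L := by
  obtain ⟨L1, b, L2, rfl, -, q1⟩ := Red_one C hG w0 w1 hΛ e h0 hK odd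
  rw [List.foldl_append] at e
  have e1 : (b :: L2 ++ L1).foldl (Red_blk C) (L1.foldl (Red_blk C) x) =
      L1.foldl (Red_blk C) x := by rw [List.foldl_append, e]
  have e2 : Red_G C w x (L1 ++ b :: L2) = Red_G C w (L1.foldl (Red_blk C) x) (b :: L2 ++ L1) := by
    rw [Red_G_append, Red_G_append, e, add_comm]
  obtain ⟨M1, b', M2, q2, q3, q4⟩ := Red_one C hG w0 w1 hΛ e1 (by simp)
    (by
      simp only [List.length_append, List.length_cons] at hK ⊢
      omega)
    (fun c hc => odd c (by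
      simp only [List.mem_append, List.mem_cons] at hc ⊢
      tauto))
  rw [e2, q2]
  generalize L1.foldl (Red_blk C) x = y at q1 q4
  rcases M1 with _ | ⟨b0, M1⟩
  · exact (q3 rfl).elim
  obtain rfl : b = b0 := by
    rw [List.cons_append, List.cons_append] at q2
    exact (List.cons.inj q2).1
  rw [Red_G_append]
  have n1 := Red_G_nonneg C w0 (Red_blk C y b) M1
  have n2 := Red_G_nonneg C w0 (Red_blk C ((b :: M1).foldl (Red_blk C) y) b') M2
  simp only [Red_G]
  linarith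

end
/-- A short reduced closed path is straight or runs twice around a curve. -/
theorem backtrack {Vx H : Type} [Fintype H] {G : SimpleGraph Vx} (C : Cmb G H) {K : ℕ}
    (hG : NBG G K) {w : H → ℝ} {Λ Tm : ℝ} (w0 : ∀ h, 0 ≤ w h) (w1 : ∀ h, w h ≤ Tm)
    (hΛ : ∀ h, ∑ i ∈ Finset.range (C.per h), w ((C.ς ^ i) h) = Λ) {h : H} {js : List ℕ}
    (e : run C.α C.ρ h js = h) (hK : js.length ≤ K) (red : ∀ j ∈ js, j % 4 ≠ 0) :
    (∀ j ∈ js, j % 4 = 2) ∨ 2 * (Λ - Tm) ≤ gain C.α C.ρ w h js := by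
  by_cases h2 : ∀ j ∈ js, j % 4 = 2
  · exact .inl h2
  right
  obtain ⟨j, hj, hj2⟩ : ∃ j ∈ js, j % 4 ≠ 2 := by
    by_contra hc
    exact h2 fun j hj => by_contra fun h0 => hc ⟨j, hj, h0⟩
  have hj0 := red j hj
  obtain ⟨l1, l2, rfl⟩ := List.append_of_mem hj
  obtain ⟨L, d, q1, q2, q3⟩ := Red_decomp C w (l2 ++ l1) (fun i hi => red i (by
    simp only [List.mem_append, List.mem_cons] at hi ⊢
    tauto)) 0
  obtain ⟨x, hx⟩ : ∃ x, x = stp C.α C.ρ (run C.α C.ρ h l1) j := ⟨_, rfl⟩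
  have e1 : run C.α C.ρ x l2 = h := by rw [← e, run_append, Red_run_cons, hx]
  obtain ⟨q4, q5⟩ := q3 x
  simp only [pow_zero, Perm.one_apply, Red_S, Finset.range_zero, Finset.sum_empty,
    zero_add] at q4 q5
  rw [run_append, e1] at q4
  rw [Red_gain_append, e1] at q5
  have c1 : (L ++ [(d, j)]).foldl (Red_blk C) x = x := by
    rw [List.foldl_append]
    show stp C.α C.ρ ((C.ς ^ d) (L.foldl (Red_blk C) x)) j = x
    rw [← q4, ← hx]
  have c2 : Red_G C w x (L ++ [(d, j)]) = gain C.α C.ρ w h (l1 ++ j :: l2) := by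
    rw [Red_G_append, Red_gain_append]
    simp only [Red_G, gain, if_neg hj2, ← hx, Red_S]
    linarith
  rw [← c2]
  refine Red_two C hG w0 w1 hΛ c1 (by simp) ?_ ?_
  · simp only [List.length_append, List.length_cons, List.length_nil] at hK q2 ⊢
    omega
  · intro b hb
    rcases List.mem_append.1 hb with hb | hb
    · exact q1 b hb
    · rw [List.mem_singleton] at hb
      subst hb
      show j % 4 = 1 ∨ j % 4 = 3
      omega

end

end Pool.Agent.P.MP_d39174_gt
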