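import Pool.Agent.P.MP_d39174_gt.Poly2
import Pool.Agent.P.MP_d39174_gt.Red

/-! Progress along a reduced path. -/

namespace Pool.Agent.P.MP_d39174_gt

open UpperHalfPlane MatrixGroups

noncomputable section

open Equiv

lemma Chain_conj (k : PS) (t : ℝ) (n x : V) : k • (ex t n • x) = ex t (k • n) • (k • x) := by
  obtain ⟨g, rfl⟩ := ad_surj k
  simp only [ad_smul]
  rw [← ex_conj, mul_smul, mul_smul, inv_smul_smul]

lemma Chain_le {y c : ℝ} (hy : 0 < y) (hc : 0 < c) (e : c ^ 2 = 1 + y ^ 2) : y ≤ c :=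
  (pow_le_pow_iff_left₀ hy.le hc.le two_ne_zero).1 (by linarith)

lemma Chain_ineq {y y' c c' e : ℝ} (hy : 0 < y) (hy' : 0 < y') (hc : 0 < c) (hc' : 0 < c')
    (e1 : c ^ 2 = 1 + y ^ 2) (e2 : c' ^ 2 = 1 + y' ^ 2) (e0 : 0 ≤ e) (he : 4 * e ≤ y ^ 2) :
    (2 - 2 * (y / c' * (y' / c))) * e ≤
      ((1 + y ^ 2 + y' ^ 2) / (c * c')) ^ 2 - 1 - (y' / c) ^ 2 := by
  have h1 : ((1 + y ^ 2 + y' ^ 2) / (c * c')) ^ 2 - 1 - (y' / c) ^ 2 =
      y ^ 2 * (1 - (y / c' * (y' / c)) ^ 2) := by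
    rw [mul_pow, div_pow, div_pow, div_pow, mul_pow, e1, e2]
    field_simp
    ring
  have h2 : y / c' * (y' / c) ≤ 1 := by
    rw [div_mul_div_comm, div_le_one (mul_pos hc' hc), mul_comm c' c]
    exact mul_le_mul (Chain_le hy hc e1) (Chain_le hy' hc' e2) hy'.le hc.le
  have h3 : 0 < y / c' * (y' / c) := by positivity
  rw [h1]
  generalize y / c' * (y' / c) = u at h2 h3
  have h4 : 0 ≤ (1 - u) * (y ^ 2 - 4 * e) := mul_nonneg (by linarith) (by linarith)
  have h5 : 0 ≤ (1 - u) * e := mul_nonneg (by linarith) e0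
  have h6 : 0 ≤ y ^ 2 * ((1 - u) * u) := mul_nonneg (sq_nonneg y) (mul_nonneg (by linarith) h3.le)
  nlinarith

lemma Chain_pos {p q v : V} (hp : B p p = -1) (hq : B q q = -1) (h1 : B p q < 0) (h2 : 0 < B v p)
    (h3 : B v v * (B p q ^ 2 - 1) ≤ B v p ^ 2) : 0 ≤ B v q := by
  by_contra h
  have h4 := not_le.1 h
  have h5 := VH2_gram p q v
  rw [hp, hq] at h5
  have h6 := sq_nonneg (B v (cr p q))
  have h7 := mul_pos (mul_pos_of_neg_of_neg h1 h4) h2
  have h8 := mul_pos_of_neg_of_neg h4 h4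
  nlinarith

namespace Poly

variable {Vx H : Type} {G : SimpleGraph Vx} {C : Cmb G H} (P : Poly C)

lemma Chain_mod (s : PS × H) (j : ℕ) : stp P.A P.R s j = stp P.A P.R s (j % 4) := by
  have : P.R ^ 4 = 1 := Equiv.ext fun s => P.R_four s
  unfold stp
  rw [← pow_eq_pow_mod j this]

lemma Chain_snd (s : PS × H) (j : ℕ) : (stp P.A P.R s j).2 = stp C.α C.ρ s.2 j := by
  unfold stp
  induction j with
  | zero => rfl
  | succ j ih => rw [pow_succ', pow_succ', Perm.mul_apply, Perm.mul_apply, ← ih]; rfl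

lemma Chain_one (s : PS × H) :
    P.A s = ((P.A (stp P.A P.R s 1)).1, C.f (P.A (stp P.A P.R s 1)).2) := by
  rw [← P.stp_three]
  show _ = P.R (P.R (P.R (P.A (P.A (P.R (P.A s))))))
  rw [P.A_A, P.R_four]

lemma Chain_ν (h : H) : P.τ (C.f h) • P.ν (C.ς h) = P.ν h := by
  have := P.τ_f (C.f h)
  rwa [C.f_α_f, Perm.coe_inv, Equiv.symm_apply_apply] at this

lemma Chain_exφ (h : H) (t : ℝ) : ex t (P.ν h) • P.φ h =
    Real.cosh (2 * t) • P.φ h + Real.sinh (2 * t) • P.m h :=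
  ex_ad_perp (P.unit h) (P.ν_φ h) t

lemma Chain_exm (h : H) (t : ℝ) : ex t (P.ν h) • P.m h =
    Real.cosh (2 * t) • P.m h + Real.sinh (2 * t) • P.φ h := by
  rw [ex_ad_perp (P.unit h) ((B_comm _ _).trans (P.m_ν h)) t]
  have : cr (P.ν h) (P.m h) = P.φ h := by
    rw [m, cr_cr, P.unit, P.ν_φ, one_smul, zero_smul, sub_zero]
  rw [this]

lemma Chain_φ (h : H) : P.τ (C.f h) • P.φ (C.ς h) = ex (P.T h) (P.ν h) • P.φ h := by
  have e1 : P.y (C.ς h) = P.y h := by rw [y, C.lab_ς, y]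
  have e2 : P.c (C.ς h) = P.c h := by rw [c, e1, c]
  have e3 : P.τ (C.f h) • P.φ (C.ς h) =
      P.φ h - (2 * Real.sinh (P.T h)) • P.ν (C.f h) := by
    rw [φ, PS.smul_real, PS.smul_sub, PS.smul_real, P.Chain_ν, P.τ_o0, e1, e2, P.sinh_T, φ]
    ext <;> simp only [V.smul_a, V.smul_b, V.smul_c, V.sub_a, V.sub_b, V.sub_c] <;> ring
  rw [e3, P.Chain_exφ, P.ν_f, Real.cosh_two_mul, Real.sinh_two_mul, Real.cosh_sq]
  ext <;> simp only [V.smul_a, V.smul_b, V.smul_c, V.sub_a, V.sub_b, V.sub_c, V.add_a, V.add_b,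
    V.add_c] <;> ring

lemma Chain_m (h : H) : P.τ (C.f h) • P.m (C.ς h) = ex (P.T h) (P.ν h) • P.m h := by
  rw [m, PS.smul_cr, P.Chain_ν, P.Chain_φ, m, cr_ad, ex_ad_self]

lemma Chain_κ {κ : ℝ} (r : P.Rat κ) (h : H) : 1 ≤ κ := by
  have h1 := r.2 (C.lab h) (C.lab h)
  have h2 := P.pos (C.lab h)
  by_contra h3
  nlinarith [not_le.1 h3]

lemma Chain_νφ (h : H) : B (P.ν h) (P.φ (C.f h)) = P.y h / P.c (C.f h) := by
  have e2 : B (P.ν h) o0 = P.y h := P.cen h
  rw [φ, B_smul_right, B_sub_right, B_smul_right, e2, P.perp]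
  ring

lemma Chain_φν (h : H) : B (P.φ h) (P.ν (C.f h)) = P.y (C.f h) / P.c h := by
  have e1 : B o0 (P.ν (C.f h)) = P.y (C.f h) := (B_comm _ _).trans (P.cen _)
  rw [φ, B_smul_left, B_sub_left, B_smul_left, e1, P.perp]
  ring

lemma Chain_φφ (h : H) : B (P.φ h) (P.φ (C.f h)) =
    -((1 + P.y h ^ 2 + P.y (C.f h) ^ 2) / (P.c h * P.c (C.f h))) := by
  have e1 : B o0 (P.ν (C.f h)) = P.y (C.f h) := (B_comm _ _).trans (P.cen _)
  have e2 : B (P.ν h) o0 = P.y h := P.cen h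
  rw [φ, φ]
  simp only [B_smul_left, B_smul_right, B_sub_left, B_sub_right, e1, e2, P.perp, B_o0]
  ring

lemma Chain_Hy (s : PS × H) : Hy (P.ft s) = s.1 • P.φ s.2 :=
  Hy_pt_unit (PS.fut _ (P.φ_fut _)) (by rw [PS.B_smul, P.φ_unit])

lemma Chain_f {κ : ℝ} (r : P.Rat κ) (k : PS) (h : H) :
    dist (P.ft (k, h)) (P.ft (k, C.f h)) ≤ 2 * κ := by
  have k1 := P.Chain_κ r h
  have h1 := cosh_dist_eq (P.ft (k, h)) (P.ft (k, C.f h))
  rw [P.Chain_Hy, P.Chain_Hy, PS.B_smul, P.Chain_φφ, neg_neg] at h1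
  have y1 := P.y_pos h
  have y2 := P.y_pos (C.f h)
  have c1 := P.c_pos h
  have c2 := P.c_pos (C.f h)
  have e1 := P.c_sq h
  have e2 := P.c_sq (C.f h)
  have r1 : P.y h ≤ κ * P.y (C.f h) := r.2 _ _
  have r2 : P.y (C.f h) ≤ κ * P.y h := r.2 _ _
  have l1 := Chain_le y1 c1 e1
  have l2 := Chain_le y2 c2 e2
  generalize P.y h = y at *
  generalize P.y (C.f h) = y' at *
  generalize P.c h = c at *
  generalize P.c (C.f h) = c' at *
  have l3 : c ≤ κ * c' := by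
    refine (pow_le_pow_iff_left₀ c1.le (by positivity) two_ne_zero).1 ?_
    have := pow_le_pow_left₀ y1.le r1 2
    rw [mul_pow] at this ⊢
    rw [e1, e2]
    nlinarith
  have l4 : (1 + y ^ 2 + y' ^ 2) / (c * c') ≤ 2 * κ := by
    rw [div_le_iff₀ (mul_pos c1 c2), ← e1]
    have a1 : c * c ≤ c * (κ * c') := mul_le_mul_of_nonneg_left l3 c1.le
    have a2 : y' * y' ≤ (κ * c) * c' :=
      mul_le_mul (r2.trans (mul_le_mul_of_nonneg_left l1 (by linarith))) l2 y2.le (by positivity)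
    nlinarith
  have l5 : 2 * κ ≤ Real.cosh (2 * κ) :=
    (Real.self_le_sinh_iff.2 (by linarith)).trans (Real.sinh_lt_cosh _).le
  have l6 := Real.cosh_le_cosh.1 ((h1.le.trans l4).trans l5)
  rwa [abs_of_nonneg dist_nonneg, abs_of_nonneg (by linarith)] at l6

lemma M_unit (s : PS × H) : B (P.M s) (P.M s) = 1 := by
  rw [M, PS.B_smul, P.m_unit]

lemma M_A (s : PS × H) : P.M (P.A s) = -P.M s := by
  show (s.1 * P.τ s.2) • P.m (C.α s.2) = -(s.1 • P.m s.2)
  rw [mul_smul, P.τ_m, PS.smul_neg]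

lemma ft_A (s : PS × H) : P.ft (P.A s) = P.ft s := by
  show pt ((s.1 * P.τ s.2) • P.φ (C.α s.2)) = pt (s.1 • P.φ s.2)
  rw [mul_smul, P.τ_φ]

lemma dist_stp {κ : ℝ} (r : P.Rat κ) (s : PS × H) (j : ℕ) :
    dist (P.ft s) (P.ft (stp P.A P.R s j)) ≤ 2 * κ := by
  obtain ⟨k, h⟩ := s
  have k1 := P.Chain_κ r h
  rw [P.Chain_mod]
  have : j % 4 = 0 ∨ j % 4 = 1 ∨ j % 4 = 2 ∨ j % 4 = 3 := by omega
  rcases this with e | e | e | e <;> rw [e]
  · show dist _ (P.ft (P.A (k, h))) ≤ _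
    rw [P.ft_A, dist_self]
    linarith
  · rw [← P.ft_A (k, h), ← P.ft_A (stp P.A P.R (k, h) 1), P.Chain_one (k, h), dist_comm]
    exact P.Chain_f r _ _
  · rw [P.stp_two]
    show dist (pt (k • P.φ h)) (pt ((k * P.τ (C.f h)) • P.φ (C.ς h))) ≤ _
    rw [mul_smul, P.Chain_φ, PS.dist_pt k (P.φ_fut h) ((P.φ_fut h).ad _), pt_ad _ (P.φ_fut h),
      dist_ex_of_wall (P.unit h) _ (by rw [Hy_pt_unit (P.φ_fut h) (P.φ_unit h), P.ν_φ]),
      abs_of_pos (P.T_pos h)]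
    linarith [P.T_le r h]
  · rw [P.stp_three]
    exact P.Chain_f r _ _

lemma dist_rch {κ : ℝ} (r : P.Rat κ) {n : ℕ} {s s' : PS × H} (h : Rch P.A P.R n s s') :
    dist (P.ft s) (P.ft s') ≤ 2 * κ * n := by
  obtain ⟨js, hn, rfl⟩ := h
  have k1 := P.Chain_κ r s.2
  have key : ∀ (js : List ℕ) (s : PS × H),
      dist (P.ft s) (P.ft (run P.A P.R s js)) ≤ 2 * κ * js.length := by
    intro js
    induction js with
    | nil =>
      intro s
      show dist (P.ft s) (P.ft s) ≤ _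
      simp
    | cons j js ih =>
      intro s
      have h1 := ih (stp P.A P.R s j)
      have h2 := P.dist_stp r s j
      have h3 := dist_triangle (P.ft s) (P.ft (stp P.A P.R s j))
        (P.ft (run P.A P.R (stp P.A P.R s j) js))
      show dist (P.ft s) (P.ft (run P.A P.R (stp P.A P.R s j) js)) ≤ _
      rw [List.length_cons]
      push_cast
      linarith
  exact (key js s).trans (mul_le_mul_of_nonneg_left (Nat.cast_le.2 hn) (by linarith))

lemma straight (s : PS × H) (z : ℍ) :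
    Real.arsinh (B (P.M (stp P.A P.R s 2)) (Hy z)) + 2 * P.T s.2 ≤
      Real.arsinh (B (P.M s) (Hy z)) := by
  obtain ⟨k, h⟩ := s
  rw [P.stp_two]
  show Real.arsinh (B ((k * P.τ (C.f h)) • P.m (C.ς h)) (Hy z)) + 2 * P.T h ≤
    Real.arsinh (B (k • P.m h) (Hy z))
  rw [mul_smul, P.Chain_m, PS.B_left, PS.B_left, P.Chain_exm, B_add_left, B_smul_left, B_smul_left]
  have q1 : Fut (k⁻¹ • Hy z) := PS.fut _ (Hy_fut z)
  have q2 : B (k⁻¹ • Hy z) (k⁻¹ • Hy z) = -1 := by rw [PS.B_smul, Hy_unit]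
  generalize k⁻¹ • Hy z = q at q1 q2
  have a1 : B (P.φ h) q < 0 := (P.φ_fut h).B_neg q1
  have a2 := VH2_pars (P.unit h) (P.φ_unit h) (P.ν_φ h) q
  rw [q2, B_comm q (P.φ h), B_comm q (cr _ _)] at a2
  change -1 = _ - _ + B (P.m h) q ^ 2 at a2
  have a3 : Real.cosh (Real.arsinh (B (P.m h) q)) ≤ -B (P.φ h) q := by
    refine (pow_le_pow_iff_left₀ (Real.cosh_pos _).le (by linarith) two_ne_zero).1 ?_
    rw [Real.cosh_sq, Real.sinh_arsinh]
    nlinarith [sq_nonneg (B q (P.ν h))]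
  have a4 : 0 ≤ Real.sinh (2 * P.T h) := Real.sinh_nonneg_iff.2 (by linarith [P.T_pos h])
  rw [← le_sub_iff_add_le, ← Real.sinh_le_sinh, Real.sinh_arsinh, Real.sinh_sub, Real.sinh_arsinh]
  nlinarith [mul_le_mul_of_nonneg_right a3 a4]

lemma turn {D : ℝ} (hx : ∀ v, 2 * Real.sinh D < P.x v) (k : PS) (h : H) {z : ℍ}
    (hz : dist z (P.ft (k, h)) ≤ D) : B (P.M (k, C.f h)) (Hy z) ≤ B (P.M (k, h)) (Hy z) := by
  show B (k • P.m (C.f h)) (Hy z) ≤ B (k • P.m h) (Hy z)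
  have d1 := cosh_dist_eq (P.ft (k, h)) z
  rw [P.Chain_Hy, dist_comm, PS.B_left] at d1
  rw [PS.B_left, PS.B_left]
  have q1 : Fut (k⁻¹ • Hy z) := PS.fut _ (Hy_fut z)
  have q2 : B (k⁻¹ • Hy z) (k⁻¹ • Hy z) = -1 := by rw [PS.B_smul, Hy_unit]
  generalize k⁻¹ • Hy z = q at q1 q2 d1
  have s0 : 0 ≤ Real.sinh (dist z (P.ft (k, h))) := Real.sinh_nonneg_iff.2 dist_nonneg
  have s1 : 2 * Real.sinh (dist z (P.ft (k, h))) ≤ P.y h :=
    (mul_le_mul_of_nonneg_left (Real.sinh_le_sinh.2 hz) zero_le_two).trans (hx _).le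
  have s2 : B (P.φ h) q ^ 2 - 1 = Real.sinh (dist z (P.ft (k, h))) ^ 2 := by
    have := Real.cosh_sq (dist z (P.ft (k, h)))
    rw [d1] at this
    linarith
  have s3 : 4 * Real.sinh (dist z (P.ft (k, h))) ^ 2 ≤ P.y h ^ 2 := by
    have := pow_le_pow_left₀ (by linarith) s1 2
    linarith
  have b1 : B (P.m h) (P.m (C.f h)) = P.y h / P.c (C.f h) * (P.y (C.f h) / P.c h) := by
    rw [m, m, VH2_cr_cr, P.Chain_νφ, P.Chain_φν, P.perp, zero_mul, sub_zero]
  have b2 : B (P.m (C.f h)) (P.φ h) < 0 := by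
    have e := P.ν_f_inv (C.f h)
    rw [Perm.coe_inv, Equiv.symm_apply_apply] at e
    have e2 := P.ν_φ h
    rw [e, B_add_left, B_smul_left, B_smul_left] at e2
    have e3 := mul_pos_of_neg_of_neg (neg_neg_of_pos (Real.sinh_pos_iff.2 (P.T_pos (C.α (C.f h)))))
      ((P.φ_fut (C.f h)).B_neg (P.φ_fut h))
    by_contra h0
    have := mul_nonneg (Real.cosh_pos (P.T (C.α (C.f h)))).le (not_lt.1 h0)
    linarith
  have b3 := VH2_pars (P.unit (C.f h)) (P.φ_unit (C.f h)) (P.ν_φ (C.f h)) (P.φ h)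
  rw [P.φ_unit, P.Chain_φν, P.Chain_φφ, B_comm (P.φ h) (cr _ _)] at b3
  change -1 = _ - _ + B (P.m (C.f h)) (P.φ h) ^ 2 at b3
  have b4 := Chain_ineq (P.y_pos h) (P.y_pos (C.f h)) (P.c_pos h) (P.c_pos (C.f h)) (P.c_sq h)
    (P.c_sq (C.f h)) (sq_nonneg _) s3
  have b5 := Chain_pos (v := P.m h - P.m (C.f h)) (P.φ_unit h) q2 ((P.φ_fut h).B_neg q1)
    (by rw [B_sub_left, P.m_φ]; linarith) (by
      rw [s2]
      simp only [B_sub_left, B_sub_right, P.m_unit, P.m_φ, B_comm (P.m (C.f h)) (P.m h), b1]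
      linarith)
  rw [B_sub_left] at b5
  linarith

/-- Progress along a reduced path near `z`. -/
theorem chain {κ D : ℝ} (r : P.Rat κ) (hx : ∀ v, 2 * Real.sinh D < P.x v) {z : ℍ}
    {js : List ℕ} (red : ∀ j ∈ js, j % 4 ≠ 0) {s : PS × H}
    (hz : dist z (P.ft s) + 2 * κ * js.length ≤ D) :
    Real.arsinh (B (P.M (run P.A P.R s js)) (Hy z)) + 2 * gain C.α C.ρ P.T s.2 js ≤
      Real.arsinh (B (P.M s) (Hy z)) := by
  induction js generalizing s with
  | nil =>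
    show Real.arsinh (B (P.M s) (Hy z)) + 2 * 0 ≤ _
    linarith
  | cons j js ih =>
    have k1 := P.Chain_κ r s.2
    have k2 : 0 ≤ 2 * κ * (js.length : ℝ) := by positivity
    rw [List.length_cons] at hz
    push_cast at hz
    have h2 := P.dist_stp r s j
    have h3 := dist_triangle z (P.ft s) (P.ft (stp P.A P.R s j))
    have h4 := ih (fun i hi => red i (List.mem_cons_of_mem _ hi)) (s := stp P.A P.R s j)
      (by linarith)
    have h5 : dist z (P.ft (stp P.A P.R s j)) ≤ D := by linarith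
    have h6 : dist z (P.ft s) ≤ D := by linarith
    have h7 : Real.arsinh (B (P.M (stp P.A P.R s j)) (Hy z)) +
        2 * (if j % 4 = 2 then P.T s.2 else 0) ≤ Real.arsinh (B (P.M s) (Hy z)) := by
      have h0 := red j List.mem_cons_self
      rw [P.Chain_mod] at h5 ⊢
      have : j % 4 = 1 ∨ j % 4 = 2 ∨ j % 4 = 3 := by omega
      rcases this with e | e | e <;> rw [e] at h5 ⊢
      · rw [if_neg (by norm_num), mul_zero, add_zero, Real.arsinh_le_arsinh]
        rw [← P.ft_A] at h5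
        have h8 := P.turn hx (P.A (stp P.A P.R s 1)).1 (P.A (stp P.A P.R s 1)).2 h5
        rw [← P.Chain_one, Prod.mk.eta, P.M_A, P.M_A, B_neg_left, B_neg_left] at h8
        linarith
      · rw [if_pos rfl]
        exact P.straight s z
      · rw [if_neg (by norm_num), mul_zero, add_zero, Real.arsinh_le_arsinh]
        obtain ⟨k, h⟩ := s
        rw [P.stp_three]
        exact P.turn hx k h h6
    rw [P.Chain_snd] at h4
    show Real.arsinh (B (P.M (run P.A P.R (stp P.A P.R s j) js)) (Hy z)) +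
      2 * ((if j % 4 = 2 then P.T s.2 else 0) + gain C.α C.ρ P.T (stp C.α C.ρ s.2 j) js) ≤ _
    linarith

/-- Product of the side pairings along a curve. -/
def prodS (h : H) : ℕ → PS
  | 0 => 1
  | i + 1 => prodS h i * P.τ (C.f ((C.ς ^ i) h))

lemma prodS_mem (h : H) (i : ℕ) : P.prodS h i ∈ P.Γb := by
  induction i with
  | zero => exact one_mem _
  | succ i ih => exact mul_mem ih (P.τ_mem _)

lemma prodS_ν (h : H) (i : ℕ) : P.prodS h i • P.ν ((C.ς ^ i) h) = P.ν h := by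
  induction i with
  | zero => exact one_smul _ _
  | succ i ih => rw [prodS, pow_succ', Perm.mul_apply, mul_smul, P.Chain_ν, ih]

lemma prodS_φ (h : H) (i : ℕ) : P.prodS h i • P.φ ((C.ς ^ i) h) =
    ex (∑ j ∈ Finset.range i, P.T ((C.ς ^ j) h)) (P.ν h) • P.φ h := by
  induction i with
  | zero =>
    rw [Finset.sum_range_zero, ex_zero, one_smul]
    exact one_smul _ _
  | succ i ih =>
    rw [prodS, pow_succ', Perm.mul_apply, mul_smul, P.Chain_φ, Chain_conj, P.prodS_ν, ih,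
      Finset.sum_range_succ, add_comm, ex_add, mul_smul]

lemma Chain_prod {h : H} {n : ℕ} {t : ℝ} (e : (C.ς ^ n) h = h)
    (ht : ∑ j ∈ Finset.range n, P.T ((C.ς ^ j) h) = t) : P.prodS h n = ad (ex t (P.ν h)) := by
  have e1 := P.prodS_ν h n
  have e2 := P.prodS_φ h n
  rw [e] at e1 e2
  rw [ht] at e2
  refine PS.eq_of (n := P.ν h) (m := P.φ h) (fun h0 => ?_) ?_ e2
  · have := P.m_unit h
    rw [m, h0, B_zero_left] at this
    exact zero_ne_one this
  · rw [e1, ad_smul, ex_ad_self]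

lemma prodS_per {Λ : ℝ} (hΛ : P.Len Λ) (h : H) : P.prodS h (C.per h) = ad (ex Λ (P.ν h)) := by
  have e : (C.ς ^ C.per h) h = h := by
    rw [Perm.coe_pow]
    exact Function.iterate_minimalPeriod
  exact P.Chain_prod e (hΛ h)

/-- A straight closed path is a power of the translation along its wall. -/
theorem all_straight [Finite H] {Λ : ℝ} (hΛ : P.Len Λ) {js : List ℕ} (h2 : ∀ j ∈ js, j % 4 = 2)
    (h1 : 1 ≤ js.length) {s : PS × H} {g : PS} (e : run P.A P.R s js = lmul g s) :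
    ∃ i : ℕ, 1 ≤ i ∧ g = ad (ex (i * Λ) (s.1 • P.ν s.2)) := by
  obtain ⟨k, h⟩ := s
  have key : ∀ (js : List ℕ), (∀ j ∈ js, j % 4 = 2) → ∀ i : ℕ,
      run P.A P.R (k * P.prodS h i, (C.ς ^ i) h) js =
        (k * P.prodS h (i + js.length), (C.ς ^ (i + js.length)) h) := by
    intro js
    induction js with
    | nil => intro _ i; rfl
    | cons j js ih =>
      intro h2 i
      have e1 : stp P.A P.R (k * P.prodS h i, (C.ς ^ i) h) j =
          (k * P.prodS h (i + 1), (C.ς ^ (i + 1)) h) := by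
        rw [P.Chain_mod, h2 j List.mem_cons_self, P.stp_two, prodS, pow_succ', Perm.mul_apply,
          mul_assoc]
      show run P.A P.R (stp P.A P.R (k * P.prodS h i, (C.ς ^ i) h) j) js = _
      rw [e1, ih (fun i hi => h2 i (List.mem_cons_of_mem _ hi)), List.length_cons, add_assoc,
        add_comm 1]
  have e1 := key js h2 0
  rw [prodS, mul_one, pow_zero, Perm.one_apply, e, zero_add, lmul_apply, Prod.mk.injEq] at e1
  obtain ⟨e2, e3⟩ := e1
  have e4 : C.per h ∣ js.length := by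
    refine Function.IsPeriodicPt.minimalPeriod_dvd ?_
    show (⇑C.ς)^[js.length] h = h
    rw [← Perm.coe_pow]
    exact e3.symm
  obtain ⟨i, hi⟩ := e4
  have e5 : ∀ i : ℕ, (C.ς ^ (C.per h * i)) h = h := fun i => by
    rw [Perm.coe_pow]
    exact (Function.isPeriodicPt_minimalPeriod C.ς h).mul_const i
  have e6 : ∀ i : ℕ, ∑ j ∈ Finset.range (C.per h * i), P.T ((C.ς ^ j) h) = i * Λ := fun i => by
    induction i with
    | zero => simp
    | succ i ih =>
      rw [Nat.mul_succ, Finset.sum_range_add, ih, Nat.cast_succ, add_mul, one_mul, ← hΛ h]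
      congr 1
      refine Finset.sum_congr rfl fun j _ => ?_
      rw [add_comm, pow_add, Perm.mul_apply, e5]
  refine ⟨i, Nat.pos_of_ne_zero fun h0 => by rw [h0] at hi; omega, ?_⟩
  rw [hi, P.Chain_prod (e5 i) (e6 i)] at e2
  obtain ⟨γ, rfl⟩ := ad_surj k
  show g = ad (ex (i * Λ) (γ • P.ν h))
  rw [← ex_conj, map_mul, map_mul, map_inv, ← e2, mul_inv_cancel_right]

end Poly

end

end Pool.Agent.P.MP_d39174_gt
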