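import Pool.Agent.P.MP_d39174_gt.SysG

/-! Filling systems of curves with a given intersection graph and one complementary polygon: definitions. -/

namespace Pool.Agent.P.MP_d39174_gt

open UpperHalfPlane MatrixGroups

noncomputable section

open Equiv

/-- Distance from the foot of a side at height `x` to the corner with a side at height `y`. -/
def Tt (x y : ℝ) : ℝ := Real.arsinh (y / √(1 + x ^ 2))

/-- Angle at the centre between the feet of two adjacent sides. -/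
def ang (x y : ℝ) : ℝ := Real.arccos (x * y / (√(1 + x ^ 2) * √(1 + y ^ 2)))

/-- No closed walk without backtracking of length at most `K`. -/
def NBG {Vx : Type} (G : SimpleGraph Vx) (K : ℕ) : Prop :=
  ∀ (r : ℕ) (v : ℕ → Vx), 1 ≤ r → r ≤ K → (∀ i, i < r → G.Adj (v i) (v (i + 1))) →
    (∀ i, i + 2 ≤ r → v i ≠ v (i + 2)) → v r ≠ v 0

/-- Heights `x` such that all curves have half length `Λ` and the angles add up. -/
structure Sol {Vx : Type} [Fintype Vx] (G : SimpleGraph Vx) [DecidableRel G.Adj]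
    (x : Vx → ℝ) (Λ : ℝ) : Prop where
  pos : ∀ v, 0 < x v
  len : ∀ v, ∑ w ∈ G.neighborFinset v, Tt (x v) (x w) = Λ
  tot : ∑ v, ∑ w ∈ G.neighborFinset v, ang (x v) (x w) = Real.pi

/-- Edge expansion of the sets with at most half of the vertices. -/
def Expd {Vx : Type} [Fintype Vx] [DecidableEq Vx] (G : SimpleGraph Vx) [DecidableRel G.Adj]
    (m : ℕ) : Prop :=
  ∀ S : Finset Vx, 2 * S.card ≤ Fintype.card Vx →
    m * S.card ≤ 20 * ∑ v ∈ S, (G.neighborFinset v \ S).card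

/-- The systolic walls of `Γ` realise the graph `G`. -/
def Rz {Vx : Type} (G : SimpleGraph Vx) (Γ : Subgroup SL(2, ℝ)) (l : ℝ) : Prop :=
  ∃ L : V → Vx, (∀ n ∈ SS Γ l, ∀ n' ∈ SS Γ l, L n = L n' ↔ Eqw Γ n n') ∧
    (∀ v, ∃ n ∈ SS Γ l, L n = v) ∧
    ∀ v w, G.Adj v w ↔ ∃ n ∈ SS Γ l, ∃ n' ∈ SS Γ l, L n = v ∧ L n' = w ∧ |B n n'| < 1

/-- Oriented arcs `H` of a system of curves with intersection graph `G`: `α` reverses an arc,
`ρ` turns it about its initial point, `ρ⁻¹ α` is the next side of the unique face and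
`ρ ρ α` the next arc of the same curve. -/
structure Cmb {Vx : Type} (G : SimpleGraph Vx) (H : Type) where
  α : Perm H
  ρ : Perm H
  lab : H → Vx
  α2 : ∀ h, α (α h) = h
  ρ4 : ∀ h, ρ (ρ (ρ (ρ h))) = h
  labα : ∀ h, lab (α h) = lab h
  labρ : ∀ h, lab (ρ (ρ h)) = lab h
  adj : ∀ h, G.Adj (lab h) (lab (ρ h))
  one : ∀ h k, (ρ⁻¹ * α).SameCycle h k
  same : ∀ h k, lab h = lab k → (ρ * ρ * α).SameCycle h k ∨ (ρ * ρ * α).SameCycle (α h) k
  two : ∀ h, ¬ (ρ * ρ * α).SameCycle h (α h)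
  inj : ∀ h k, (ρ * ρ * α).SameCycle h k → lab (ρ k) = lab (ρ h) → k = h
  nb : ∀ h w, G.Adj (lab h) w → ∃ k, (ρ * ρ * α).SameCycle h k ∧ lab (ρ k) = w
  surj : Function.Surjective lab

namespace Cmb

variable {Vx H : Type} {G : SimpleGraph Vx} (C : Cmb G H)

/-- Next side of the face. -/
def f : Perm H := C.ρ⁻¹ * C.α

/-- Next arc on the same curve. -/
def ς : Perm H := C.ρ * C.ρ * C.α

/-- Number of arcs of the curve. -/
def per (h : H) : ℕ := Function.minimalPeriod C.ς h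

/-- The additive characters of the side pairings. -/
def Z : Submodule ℝ (H → ℝ) where
  carrier := {a | (∀ h, a (C.α h) = -a h) ∧
    ∀ h, a h + a (C.ρ h) + a (C.ρ (C.ρ h)) + a (C.ρ (C.ρ (C.ρ h))) = 0}
  add_mem' := by
    rintro a b ⟨h1, h2⟩ ⟨h3, h4⟩
    refine ⟨fun h => ?_, fun h => ?_⟩ <;> simp only [Pi.add_apply]
    · rw [h1, h3]; ring
    · linear_combination h2 h + h4 h
  zero_mem' := ⟨fun h => by simp, fun h => by simp⟩
  smul_mem' := by
    rintro t a ⟨h1, h2⟩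
    refine ⟨fun h => ?_, fun h => ?_⟩ <;> simp only [Pi.smul_apply, smul_eq_mul]
    · rw [h1]; ring
    · linear_combination t * h2 h

lemma ρ_inv (h : H) : C.ρ⁻¹ h = C.ρ (C.ρ (C.ρ h)) := by
  rw [Perm.inv_eq_iff_eq, C.ρ4]

lemma f_eq (h : H) : C.f h = C.ρ (C.ρ (C.ρ (C.α h))) := by
  rw [f, Perm.mul_apply, ρ_inv]

lemma ς_eq (h : H) : C.ς h = C.ρ (C.ρ (C.α h)) := rfl

lemma f_inv (h : H) : C.f⁻¹ h = C.α (C.ρ h) := by
  rw [Perm.inv_eq_iff_eq, f_eq, C.α2, C.ρ4]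

lemma ρ_f (h : H) : C.ρ (C.f h) = C.α h := by rw [f_eq, C.ρ4]

lemma f_α_f (h : H) : C.f (C.α (C.f h)) = C.ς h := by
  rw [f_eq, C.α2, f_eq, C.ρ4, ς_eq]

lemma f_inv_ς (h : H) : C.f⁻¹ (C.ς h) = C.α (C.f h) := by
  rw [f_inv, ς_eq, f_eq]

lemma lab_ς (h : H) : C.lab (C.ς h) = C.lab h := by rw [ς_eq, C.labρ, C.labα]

lemma lab_f_inv (h : H) : C.lab (C.f⁻¹ h) = C.lab (C.ρ h) := by rw [f_inv, C.labα]

lemma lab_f (h : H) : C.lab (C.f h) = C.lab (C.ρ (C.ς h)) := by rw [f_eq, ς_eq]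

lemma lab_f_α (h : H) : C.lab (C.f (C.α h)) = C.lab (C.f⁻¹ h) := by
  rw [f_eq, C.α2, C.labρ, lab_f_inv]

lemma lab_f_inv_α (h : H) : C.lab (C.f⁻¹ (C.α h)) = C.lab (C.f h) := by
  rw [f_eq, C.labρ, lab_f_inv]

lemma adj_f (h : H) : G.Adj (C.lab h) (C.lab (C.f h)) := by
  rw [lab_f, ← C.lab_ς h]; exact C.adj _

lemma α_ne (h : H) : C.α h ≠ h := fun e => C.two h (by rw [e])

lemma ρ_ne (h : H) : C.ρ h ≠ h := fun e => (C.adj h).ne (by rw [e])

lemma ρρ_ne (h : H) : C.ρ (C.ρ h) ≠ h := fun e => C.two h (by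
  have : (C.ρ * C.ρ * C.α) (C.α h) = h := by simp [C.α2, e]
  exact (Perm.sameCycle_apply_left.1 (by rw [this])).symm)

lemma f_ne (h : H) : C.f h ≠ h := fun e => (C.adj_f h).ne (by rw [e])

end Cmb

/-- One move along the arcs: reverse, then turn `j` times. -/
def stp {S : Type} (a r : Perm S) (s : S) (j : ℕ) : S := (r ^ j) (a s)

/-- A sequence of moves. -/
def run {S : Type} (a r : Perm S) (s : S) (js : List ℕ) : S := js.foldl (stp a r) s

/-- Reachable by at most `n` moves. -/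
def Rch {S : Type} (a r : Perm S) (n : ℕ) (s s' : S) : Prop :=
  ∃ js : List ℕ, js.length ≤ n ∧ run a r s js = s'

/-- The group `PSL(2, ℝ)` as a group of permutations of `V`. -/
abbrev PS : Type := (MulAction.toPermHom SL(2, ℝ) V).range

/-- The projection to `PSL(2, ℝ)`. -/
def ad : SL(2, ℝ) →* PS := (MulAction.toPermHom SL(2, ℝ) V).rangeRestrict

lemma ad_smul (g : SL(2, ℝ)) (x : V) : ad g • x = g • x := rfl

lemma ad_surj (k : PS) : ∃ g, ad g = k := MonoidHom.rangeRestrict_surjective _ k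

lemma PS.ext' {k k' : PS} (h : ∀ x : V, k • x = k' • x) : k = k' :=
  Subtype.ext (Equiv.ext h)

lemma ad_eq_iff (g h : SL(2, ℝ)) : ad g = ad h ↔ PM g h := by
  refine ⟨fun e => ?_, fun e => PS.ext' fun x => e.ad x⟩
  refine pm_of_ad (n := w0) (m := o0) ?_ ?_ ?_
  · intro h0
    have := congrArg V.b h0
    simp [cr, w0, o0] at this
  · rw [← ad_smul, e, ad_smul]
  · rw [← ad_smul, e, ad_smul]

lemma PS.eq_of {k k' : PS} {n m : V} (hc : cr n m ≠ 0) (hn : k • n = k' • n)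
    (hm : k • m = k' • m) : k = k' := by
  obtain ⟨g, rfl⟩ := ad_surj k
  obtain ⟨g', rfl⟩ := ad_surj k'
  exact (ad_eq_iff _ _).2 (pm_of_ad hc hn hm)

lemma PS.B_smul (k : PS) (x y : V) : B (k • x) (k • y) = B x y := by
  obtain ⟨g, rfl⟩ := ad_surj k
  exact B_ad g x y

lemma PS.B_left (k : PS) (x y : V) : B (k • x) y = B x (k⁻¹ • y) := by
  rw [← PS.B_smul k x, smul_inv_smul]

lemma PS.smul_add (k : PS) (x y : V) : k • (x + y) = k • x + k • y := by
  obtain ⟨g, rfl⟩ := ad_surj k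
  exact _root_.smul_add g x y

lemma PS.smul_neg (k : PS) (x : V) : k • (-x) = -(k • x) := by
  obtain ⟨g, rfl⟩ := ad_surj k
  exact _root_.smul_neg g x

lemma PS.smul_sub (k : PS) (x y : V) : k • (x - y) = k • x - k • y := by
  obtain ⟨g, rfl⟩ := ad_surj k
  exact _root_.smul_sub g x y

lemma PS.smul_real (k : PS) (t : ℝ) (x : V) : k • (t • x) = t • (k • x) := by
  obtain ⟨g, rfl⟩ := ad_surj k
  exact ad_real g t x

lemma PS.smul_cr (k : PS) (x y : V) : k • cr x y = cr (k • x) (k • y) := by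
  obtain ⟨g, rfl⟩ := ad_surj k
  exact cr_ad g x y

lemma PS.fut (k : PS) {p : V} (h : Fut p) : Fut (k • p) := by
  obtain ⟨g, rfl⟩ := ad_surj k
  exact h.ad g

lemma PS.dist_pt (k : PS) {p q : V} (hp : Fut p) (hq : Fut q) :
    dist (pt (k • p)) (pt (k • q)) = dist (pt p) (pt q) := by
  obtain ⟨g, rfl⟩ := ad_surj k
  rw [ad_smul, ad_smul, pt_ad g hp, pt_ad g hq, dist_smul]

end

end Pool.Agent.P.MP_d39174_gt
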