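import Pool.Agent.P.MP_d39174_gt.Tits

/-! The tiling covers the plane; labels of walls. -/

namespace Pool.Agent.P.MP_d39174_gt

open UpperHalfPlane MatrixGroups

noncomputable section

open Equiv

namespace Poly

variable {Vx H : Type} {G : SimpleGraph Vx} {C : Cmb G H} (P : Poly C)

lemma mem_Γ {g : SL(2, ℝ)} : g ∈ P.Γ ↔ ad g ∈ P.Γb := Iff.rfl

lemma neg_one_mem : -1 ∈ P.Γ := by
  rw [mem_Γ, ← (ad_eq_iff 1 (-1)).2 (PM.neg 1), map_one]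
  exact one_mem _

lemma S_unit {n : V} (hn : n ∈ P.S) : B n n = 1 := by
  obtain ⟨k, -, h, rfl⟩ := hn
  rw [PS.B_smul, P.unit]

lemma S_neg {n : V} (hn : n ∈ P.S) : -n ∈ P.S := by
  obtain ⟨k, hk, h, rfl⟩ := hn
  exact ⟨k * P.τ h, mul_mem hk (P.τ_mem h), C.α h, (P.Tits_flip k h).symm⟩

lemma S_smul {n : V} (hn : n ∈ P.S) {k : PS} (hk : k ∈ P.Γb) : k • n ∈ P.S := by
  obtain ⟨k', hk', h, rfl⟩ := hn
  exact ⟨k * k', mul_mem hk hk', h, (mul_smul k k' _).symm⟩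

private lemma Cover_sep [Finite Vx] :
    ∃ c : ℝ, 0 < c ∧ ∀ γ ∈ P.Γ, ¬ PM 1 γ → c ≤ dist I (γ • I) := by
  obtain ⟨h0, -⟩ := P.sect o0
  have : Nonempty Vx := ⟨C.lab h0⟩
  obtain ⟨v0, hv0⟩ := Finite.exists_min P.x
  refine ⟨Real.arsinh (P.x v0), Real.arsinh_pos_iff.2 (P.pos v0), fun γ hγ h1 => ?_⟩
  have h2 : ad γ ≠ 1 := fun e => h1 ((ad_eq_iff 1 γ).1 (by rw [map_one, e]))
  obtain ⟨h, h3, -⟩ := P.sepa (P.mem_Γ.1 hγ) h2
  have hu : B (ad γ • P.ν h) (ad γ • P.ν h) = 1 := by rw [PS.B_smul, P.unit]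
  have h4 := lip hu (γ • I) I
  rw [Hy_smul, Hy_I, ← ad_smul γ o0, PS.B_smul, P.cen, dist_comm] at h4
  have h5 := Real.arsinh_le_arsinh.2 (hv0 (C.lab h))
  have h6 := Real.arsinh_neg_iff.2 h3
  linarith [le_abs_self (Real.arsinh (P.x (C.lab h)) - Real.arsinh (B (ad γ • P.ν h) o0))]

theorem fin [Finite Vx] (z : ℍ) (r : ℝ) :
    {γ : SL(2, ℝ) | γ ∈ P.Γ ∧ dist z (γ • z) ≤ r}.Finite := by
  obtain ⟨c, hc, hs⟩ := P.Cover_sep
  have key : ∀ g ∈ P.Γ, ∀ γ ∈ P.Γ, PM g γ ∨ c ≤ dist (g • I) (γ • I) := fun g hg γ hγ => by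
    by_cases e : PM g γ
    · exact Or.inl e
    · refine Or.inr ?_
      have := hs _ (mul_mem (inv_mem hg) hγ) (by rwa [← pm_iff_inv_mul])
      rwa [← dist_smul g, mul_smul, smul_inv_smul] at this
  obtain ⟨M, hM⟩ := pack (r + 2 * dist z I) c hc
  refine Set.Finite.of_finite_fibers (fun γ : SL(2, ℝ) => γ • I) (hM I _ ?_ ?_).1 ?_
  · rintro _ ⟨γ, hγ, rfl⟩
    have h1 := dist_triangle4 I z (γ • z) (γ • I)
    rw [dist_smul, dist_comm I z] at h1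
    linarith [hγ.2]
  · rintro _ ⟨g, hg, rfl⟩ _ ⟨γ, hγ, rfl⟩ hne
    exact (key g hg.1 γ hγ.1).resolve_left fun e => hne (e.act I)
  · rintro _ ⟨g, hg, rfl⟩
    refine (Set.toFinite {g, -g}).subset ?_
    rintro γ ⟨hγ, e⟩
    rcases key g hg.1 γ hγ.1 with h1 | h1
    · exact h1
    · have e' : γ • I = g • I := e
      rw [e', dist_self] at h1
      exact absurd h1 hc.not_ge

theorem cover [Finite Vx] (z : ℍ) : ∃ γ ∈ P.Γ, P.Q (Hy (γ • z)) := by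
  have hfin : {γ : SL(2, ℝ) | γ ∈ P.Γ ∧ dist z (γ • I) ≤ dist z I}.Finite := by
    refine (P.fin I (2 * dist z I)).subset fun γ hγ => ⟨hγ.1, ?_⟩
    have h1 := dist_triangle I z (γ • I)
    rw [dist_comm I z] at h1
    linarith [hγ.2]
  obtain ⟨γ, hγ, hmin⟩ := Set.exists_min_image _ (fun γ : SL(2, ℝ) => dist z (γ • I)) hfin
    ⟨1, one_mem _, by rw [one_smul]⟩
  refine ⟨γ⁻¹, inv_mem hγ.1, Hy_fut _, fun h => ?_⟩
  by_contra h1
  have h2 : P.t h • o0 = o0 - (2 * P.y h) • P.ν h := P.τ_o0 h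
  have h3 : Real.cosh (dist z ((γ * P.t h) • I)) < Real.cosh (dist z (γ • I)) := by
    rw [cosh_dist_eq, cosh_dist_eq, Hy_smul, Hy_smul, Hy_I, mul_smul, B_ad_right, B_ad_right γ,
      ← Hy_smul, h2, B_sub_right, B_smul_right, B_comm _ (P.ν h)]
    nlinarith [P.y_pos h, not_le.1 h1]
  rw [Real.cosh_lt_cosh, abs_of_nonneg dist_nonneg, abs_of_nonneg dist_nonneg] at h3
  exact h3.not_ge (hmin _ ⟨mul_mem hγ.1 (P.Tits_t_mem h), h3.le.trans hγ.2⟩)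

theorem coc [Finite Vx] : ∃ r : ℝ, ∀ z : ℍ, ∃ γ ∈ P.Γ, dist (γ • z) I ≤ r := by
  obtain ⟨r, hr⟩ := P.Q_bdd
  refine ⟨r, fun z => ?_⟩
  obtain ⟨γ, hγ, h⟩ := P.cover z
  exact ⟨γ, hγ, hr _ h⟩

private lemma Cover_B (k k' : PS) (n p : V) : B (k • n) (k' • p) = B ((k'⁻¹ * k) • n) p := by
  rw [← PS.B_smul k' ((k'⁻¹ * k) • n), mul_smul, smul_inv_smul]

/-- A wall has every tile on one side. -/
theorem sign {n : V} (hn : n ∈ P.S) {k : PS} (hk : k ∈ P.Γb) :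
    (0 < B n (k • o0) ∧ ∀ p, P.Q p → 0 ≤ B n (k • p)) ∨
      (B n (k • o0) < 0 ∧ ∀ p, P.Q p → B n (k • p) ≤ 0) := by
  obtain ⟨k', hk', h, rfl⟩ := hn
  simp only [Cover_B k' k]
  rcases P.wall (mul_mem (inv_mem hk) hk') h with ⟨h', e | e, -⟩ | e | e
  · rw [e, P.cen]
    exact Or.inl ⟨P.pos _, fun p hp => hp.2 h'⟩
  · rw [e, B_neg_left, P.cen]
    refine Or.inr ⟨neg_neg_iff_pos.2 (P.pos _), fun p hp => ?_⟩
    rw [B_neg_left]
    exact neg_nonpos.2 (hp.2 h')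
  · exact Or.inl ⟨e _ P.Q_o0, fun p hp => (e p hp).le⟩
  · exact Or.inr ⟨e _ P.Q_o0, fun p hp => (e p hp).le⟩

/-- A wall through a point of a tile is a side of the tile. -/
theorem side_of_zero {k k' : PS} (hk : k ∈ P.Γb) (hk' : k' ∈ P.Γb) {h : H} {p : V} (hp : P.Q p)
    (e : B (k • P.ν h) (k' • p) = 0) :
    ∃ h', (k • P.ν h = k' • P.ν h' ∨ k • P.ν h = -(k' • P.ν h')) ∧ C.lab h' = C.lab h := by
  rw [Cover_B] at e
  rcases P.wall (mul_mem (inv_mem hk') hk) h with ⟨h', e', hl⟩ | e' | e'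
  · refine ⟨h', ?_, hl⟩
    rw [mul_smul, inv_smul_eq_iff, inv_smul_eq_iff, PS.smul_neg] at e'
    exact e'
  · exact absurd e (e' p hp).ne'
  · exact absurd e (e' p hp).ne

theorem lab_eq {k k' : PS} (hk : k ∈ P.Γb) (hk' : k' ∈ P.Γb) {h h' : H}
    (e : k • P.ν h = k' • P.ν h' ∨ k • P.ν h = -(k' • P.ν h')) : C.lab h = C.lab h' := by
  have h0 : B (k • P.ν h) (k' • P.φ h') = 0 := by
    rcases e with e | e
    · rw [e, PS.B_smul, P.ν_φ]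
    · rw [e, B_neg_left, PS.B_smul, P.ν_φ, neg_zero]
  obtain ⟨j, e', hl⟩ := P.side_of_zero hk hk' (P.Q_φ h') h0
  have h1 : k' • P.ν j = k' • P.ν h' ∨ k' • P.ν j = k' • (-P.ν h') := by
    rw [PS.smul_neg]
    rcases e with e | e <;> rcases e' with e' | e'
    · exact Or.inl (e'.symm.trans e)
    · exact Or.inr (neg_eq_iff_eq_neg.1 (e'.symm.trans e))
    · exact Or.inr (e'.symm.trans e)
    · exact Or.inl (neg_injective (e'.symm.trans e))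
  rw [smul_left_cancel_iff, smul_left_cancel_iff] at h1
  rw [← hl, P.ν_inj h1]

theorem adj_of_cross [Finite Vx] {k k' : PS} (hk : k ∈ P.Γb) (hk' : k' ∈ P.Γb) {h h' : H}
    (e : |B (k • P.ν h) (k' • P.ν h')| < 1) : G.Adj (C.lab h) (C.lab h') := by
  obtain ⟨z, h1, h2⟩ := exists_cross (by rw [PS.B_smul, P.unit]) (by rw [PS.B_smul, P.unit]) e
  obtain ⟨γ, hγ, hq⟩ := P.cover z
  have hz : Hy z = (ad γ)⁻¹ • Hy (γ • z) := by rw [Hy_smul, ← ad_smul, inv_smul_smul]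
  have hi := inv_mem (P.mem_Γ.1 hγ)
  rw [hz] at h1 h2
  obtain ⟨j, e1, l1⟩ := P.side_of_zero hk hi hq h1
  obtain ⟨j', e2, l2⟩ := P.side_of_zero hk' hi hq h2
  have h3 : |B (P.ν j) (P.ν j')| < 1 := by
    rcases e1 with e1 | e1 <;> rcases e2 with e2 | e2 <;> rw [e1, e2] at e <;>
      simpa only [B_neg_left, B_neg_right, PS.B_smul, abs_neg] using e
  rw [← l1, ← l2]
  rcases P.adj_of_lt h3 with e3 | e3
  · rw [e3]
    exact C.adj_f j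
  · rw [e3]
    exact (C.adj_f j').symm

private lemma Cover_ς (h : H) : Eqw P.Γ (P.ν h) (P.ν (C.ς h)) := by
  have h1 := P.τ_f (C.f h)
  rw [C.f_α_f, show C.f⁻¹ (C.f h) = h by simp] at h1
  exact Eqw.symm ⟨P.t (C.f h), P.Tits_t_mem _, Or.inl h1.symm⟩

private lemma Cover_pow (i : ℕ) (h : H) : Eqw P.Γ (P.ν h) (P.ν ((C.ς ^ i) h)) := by
  induction i with
  | zero => exact Eqw.refl _ _
  | succ i ih =>
    rw [pow_succ', Perm.mul_apply]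
    exact ih.trans (P.Cover_ς _)

private lemma Cover_α (h : H) : Eqw P.Γ (P.ν h) (P.ν (C.α h)) := by
  have h1 : P.t h • P.ν (C.α h) = -P.ν h := P.τ_ν h
  exact Eqw.symm ⟨P.t h, P.Tits_t_mem _, Or.inr (by rw [h1, neg_neg])⟩

theorem eqw_of_lab [Finite H] {h h' : H} (e : C.lab h = C.lab h') :
    Eqw P.Γ (P.ν h) (P.ν h') := by
  rcases C.same h h' e with e' | e'
  · obtain ⟨i, rfl⟩ := e'.exists_nat_pow_eq
    exact P.Cover_pow i h
  · obtain ⟨i, rfl⟩ := e'.exists_nat_pow_eq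
    exact (P.Cover_α h).trans (P.Cover_pow i _)

private lemma Cover_eqw {k : PS} (hk : k ∈ P.Γb) (n : V) : Eqw P.Γ n (k • n) := by
  obtain ⟨g, rfl⟩ := ad_surj k
  exact ⟨g, hk, Or.inl rfl⟩

/-- The walls realise the graph as soon as they are the systolic walls. -/
theorem rz [Finite Vx] [Finite H] {l : ℝ} (e : SS P.Γ l = P.S) : Rz G P.Γ l := by
  classical
  obtain ⟨h0, -⟩ := P.sect o0
  obtain ⟨L, hL⟩ : ∃ L : V → Vx, ∀ k ∈ P.Γb, ∀ h, L (k • P.ν h) = C.lab h := by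
    refine ⟨fun n => if e : ∃ h, ∃ k ∈ P.Γb, n = k • P.ν h then C.lab e.choose else C.lab h0,
      fun k hk h => ?_⟩
    have e : ∃ h', ∃ k' ∈ P.Γb, k • P.ν h = k' • P.ν h' := ⟨h, k, hk, rfl⟩
    obtain ⟨k', hk', e'⟩ := e.choose_spec
    simp only [dif_pos e]
    exact (P.lab_eq hk hk' (Or.inl e')).symm
  have hL1 : ∀ h, L (P.ν h) = C.lab h := fun h => by
    rw [← hL 1 (one_mem _) h, one_smul]
  have hS : ∀ h, P.ν h ∈ P.S := fun h => ⟨1, one_mem _, h, (one_smul _ _).symm⟩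
  rw [Rz, e]
  refine ⟨L, ?_, fun v => ?_, fun v w => ⟨fun a => ?_, ?_⟩⟩
  · rintro _ ⟨k, hk, h, rfl⟩ _ ⟨k', hk', h', rfl⟩
    rw [hL k hk, hL k' hk']
    refine ⟨fun e' => ((P.Cover_eqw hk _).symm.trans (P.eqw_of_lab e')).trans
      (P.Cover_eqw hk' _), ?_⟩
    rintro ⟨g, hg, e'⟩
    rw [← ad_smul, ← mul_smul] at e'
    exact (P.lab_eq hk' (mul_mem (P.mem_Γ.1 hg) hk) e').symm
  · obtain ⟨h, rfl⟩ := C.surj v
    exact ⟨_, hS h, hL1 h⟩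
  · obtain ⟨h, rfl⟩ := C.surj v
    obtain ⟨k, hk, rfl⟩ := C.nb h w a
    obtain ⟨i, hi⟩ := hk.exists_nat_pow_eq
    have hl : C.lab k = C.lab h := by
      rw [← hi]
      clear hi
      induction i with
      | zero => rfl
      | succ i ih =>
        rw [pow_succ', Perm.mul_apply, ← ih]
        exact C.lab_ς _
    refine ⟨_, hS k, _, hS (C.f⁻¹ k), by rw [hL1, hl], by rw [hL1, C.lab_f_inv], ?_⟩
    have h1 := P.perp (C.f⁻¹ k)
    rw [show C.f (C.f⁻¹ k) = k by simp, B_comm] at h1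
    rw [h1, abs_zero]
    exact one_pos
  · rintro ⟨_, ⟨k, hk, h, rfl⟩, _, ⟨k', hk', h', rfl⟩, rfl, rfl, e'⟩
    rw [hL k hk, hL k' hk']
    exact P.adj_of_cross hk hk' e'

end Poly

end

end Pool.Agent.P.MP_d39174_gt
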