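import Pool.Agent.P.MP_d39174_gt.Cover
import Pool.Agent.P.MP_d39174_gt.Chain

/-! The surface is critical. -/

namespace Pool.Agent.P.MP_d39174_gt

open UpperHalfPlane MatrixGroups

noncomputable section

open Equiv

namespace Poly

variable {Vx H : Type} {G : SimpleGraph Vx} {C : Cmb G H} (P : Poly C)

lemma t_mem (h : H) : P.t h ∈ P.Γ := P.mem_Γ.2 (P.τ_mem h)

/-- A cocycle descends to `PSL(2, ℝ)`. -/
lemma CritB_desc {u : SL(2, ℝ) → V} (hu : Coc P.Γ u) : ∃ w : PS → V,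
    (∀ γ ∈ P.Γ, w (ad γ) = u γ) ∧ ∀ k ∈ P.Γb, ∀ k' ∈ P.Γb, w (k * k') = w k + k • w k' := by
  choose s hs using ad_surj
  have h1 : ∀ γ ∈ P.Γ, u (s (ad γ)) = u γ := fun γ hγ =>
    hu.pm P.neg_one_mem hγ ((ad_eq_iff _ _).1 (hs _).symm)
  refine ⟨fun k => u (s k), h1, fun k hk k' hk' => ?_⟩
  obtain ⟨γ, rfl⟩ := ad_surj k
  obtain ⟨δ, rfl⟩ := ad_surj k'
  have h2 := P.mem_Γ.2 hk
  have h3 := P.mem_Γ.2 hk'
  simp only [← map_mul]
  rw [h1 _ (mul_mem h2 h3), h1 _ h2, h1 _ h3, hu _ h2 _ h3, ad_smul]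

lemma CritB_add (x y z : V) : B (x + y) z = B x z + B y z := by
  simp only [B, V.add_a, V.add_b, V.add_c]
  ring

lemma CritB_neg (x z : V) : B (-x) z = -B x z := by
  simp only [B, V.neg_a, V.neg_b, V.neg_c]
  ring

lemma CritB_sub (x y z : V) (t : ℝ) : B x (y - t • z) = B x y - t * B x z := by
  simp only [B, V.sub_a, V.sub_b, V.sub_c, V.smul_a, V.smul_b, V.smul_c]
  ring

lemma CritB_one {w : PS → V} (hw : ∀ k ∈ P.Γb, ∀ k' ∈ P.Γb, w (k * k') = w k + k • w k') :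
    w 1 = 0 := by
  have h := hw 1 (one_mem _) 1 (one_mem _)
  rw [mul_one, one_smul] at h
  exact left_eq_add.1 h

lemma CritB_y_ς (h : H) (i : ℕ) : P.y ((C.ς ^ i) h) = P.y h := by
  induction i with
  | zero => rfl
  | succ i ih => rw [pow_succ', Perm.mul_apply, ← ih, y, y, C.lab_ς]

/-- The sum over all corners vanishes. -/
theorem corner_sum [Fintype H] {u : SL(2, ℝ) → V} (hu : Coc P.Γ u) :
    ∑ k, P.y k * B (u (P.t (C.f k))) (P.ν k) = 0 := by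
  obtain ⟨w, h1, hw⟩ := P.CritB_desc hu
  have h0 : ∀ k, u (P.t k) = w (P.τ k) := fun k => (h1 _ (P.t_mem k)).symm
  simp only [h0]
  let A : H → ℝ := fun k => B (w (P.τ k)) o0
  let Q : H → ℝ := fun k => P.y k * B (w (P.τ k)) (P.ν k)
  let S : H → ℝ := fun k => P.y (C.f k) * B (w (P.τ k)) (P.ν (C.f k))
  have hα : ∀ k, P.τ k • w (P.τ (C.α k)) = -w (P.τ k) := fun k => by
    have h := hw _ (P.τ_mem k) _ (P.τ_mem (C.α k))
    rw [P.τ_α, mul_inv_cancel, P.CritB_one hw, ← P.τ_α] at h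
    exact eq_neg_of_add_eq_zero_right h.symm
  have h2 : ∀ j, P.y j * B (w (P.τ (C.f j))) (P.ν j) = -S ((C.α * C.f) j) := fun j => by
    have e₀ : C.f⁻¹ (C.f j) = j := C.f.symm_apply_apply j
    have e : P.y (C.f (C.α (C.f j))) = P.y j := by
      rw [y, y, C.lab_f_α, e₀]
    simp only [S, Perm.mul_apply]
    rw [← PS.B_smul (P.τ (C.f j)) (w (P.τ (C.α (C.f j)))), hα, P.τ_f, e₀, e, CritB_neg]
    ring
  have h3 : ∀ s, A (C.f s) - 2 * Q (C.f s) + A (C.ς s) =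
      A s - 2 * S s + (A ((C.f⁻¹ * C.α) s) - 2 * S ((C.f⁻¹ * C.α) s) -
        2 * Q ((C.f⁻¹ * C.α) s)) := fun s => by
    have e := congrArg (fun k => B (w k) (P.τ (C.f s) • o0)) (P.τ_vertex s)
    have e₁ : P.y (C.f⁻¹ (C.α s)) = P.y (C.f s) := by rw [y, y, C.lab_f_inv_α]
    have e₂ : (P.τ s)⁻¹ • P.τ (C.f s) • o0 =
        o0 - (2 * P.y (C.α s)) • P.ν (C.α s) - (2 * P.y (C.f s)) • P.ν (C.f⁻¹ (C.α s)) := by
      rw [P.τ_o0, PS.smul_sub, PS.smul_real, ← P.τ_f_inv s, inv_smul_smul, ← P.τ_α, P.τ_o0]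
    rw [hw _ (P.τ_mem _) _ (P.τ_mem _), hw _ (P.τ_mem _) _ (P.τ_mem _), CritB_add, CritB_add,
      PS.B_smul, PS.B_left, e₂, P.τ_o0] at e
    simp only [CritB_sub] at e
    have e₃ : C.f (C.f⁻¹ (C.α s)) = C.α s := C.f.apply_symm_apply _
    simp only [A, Q, S, Perm.mul_apply, e₃, e₁]
    linear_combination e
  have h4 := Finset.sum_congr (s₁ := Finset.univ) rfl fun s _ => h3 s
  simp only [Finset.sum_add_distrib, Finset.sum_sub_distrib, ← Finset.mul_sum] at h4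
  rw [Equiv.sum_comp C.f A, Equiv.sum_comp C.f Q, Equiv.sum_comp C.ς A,
    Equiv.sum_comp (C.f⁻¹ * C.α) A, Equiv.sum_comp (C.f⁻¹ * C.α) S,
    Equiv.sum_comp (C.f⁻¹ * C.α) Q] at h4
  simp only [h2]
  rw [Finset.sum_neg_distrib, Equiv.sum_comp (C.α * C.f) S]
  linarith

/-- The differential of the length of a curve as a sum over its arcs. -/
theorem curve_sum {Λ : ℝ} (hΛ : P.Len Λ) {u : SL(2, ℝ) → V} (hu : Coc P.Γ u) (h : H) :
    B (u (ex Λ (P.ν h))) (P.ν h) =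
      ∑ i ∈ Finset.range (C.per h), B (u (P.t (C.f ((C.ς ^ i) h)))) (P.ν ((C.ς ^ i) h)) := by
  obtain ⟨w, h1, hw⟩ := P.CritB_desc hu
  have h0 : ∀ k, u (P.t k) = w (P.τ k) := fun k => (h1 _ (P.t_mem k)).symm
  have h2 : ∀ n, B (w (P.prodS h n)) (P.ν h) =
      ∑ i ∈ Finset.range n, B (w (P.τ (C.f ((C.ς ^ i) h)))) (P.ν ((C.ς ^ i) h)) := fun n => by
    induction n with
    | zero => simp [prodS, P.CritB_one hw, B]
    | succ n ih =>
      rw [Finset.sum_range_succ, ← ih, prodS, hw _ (P.prodS_mem h n) _ (P.τ_mem _), CritB_add,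
        ← PS.B_smul (P.prodS h n) _ (P.ν ((C.ς ^ n) h)), P.prodS_ν]
  simp only [h0]
  rw [← h2, P.prodS_per hΛ, h1 _ (P.mem_Γ.2 (P.prodS_per hΛ h ▸ P.prodS_mem h _))]

theorem critV [Finite Vx] [Finite H] {Λ : ℝ} (hΛ : P.Len Λ) (e : SS P.Γ Λ = P.S) :
    CritV P.Γ Λ := by
  classical
  have := Fintype.ofFinite Vx
  have := Fintype.ofFinite H
  choose b hb using C.surj
  have h1 : ∀ h, P.ν h ∈ SS P.Γ Λ := fun h => e ▸ ⟨1, one_mem _, h, (one_smul _ _).symm⟩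
  have h2 : ∀ h, 0 < P.y h / C.per h := fun h =>
    div_pos (P.y_pos h) (Nat.cast_pos.2 (C.per_pos h))
  refine ⟨Finset.univ.image fun v => P.ν (b v), fun n hn => ?_, fun n hn => ?_,
    fun n => ∑ h, if P.ν (b (C.lab h)) = n then P.y h / C.per h else 0, fun n hn => ?_,
    fun u hu => ?_⟩
  · obtain ⟨v, -, rfl⟩ := Finset.mem_image.1 hn
    exact h1 _
  · rw [e] at hn
    obtain ⟨k, hk, h, rfl⟩ := hn
    obtain ⟨γ, rfl⟩ := ad_surj k
    refine ⟨P.ν (b (C.lab h)), ⟨Finset.mem_image_of_mem _ (Finset.mem_univ _),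
      (P.eqw_of_lab (hb _)).trans ⟨γ, P.mem_Γ.2 hk, .inl rfl⟩⟩, fun m hm => ?_⟩
    obtain ⟨hm, g, hg, e'⟩ := hm
    obtain ⟨v, -, rfl⟩ := Finset.mem_image.1 hm
    rw [P.lab_eq hk (P.mem_Γ.1 hg) e', hb]
  · obtain ⟨v, -, rfl⟩ := Finset.mem_image.1 hn
    refine Finset.sum_pos' (fun h _ => ?_) ⟨b v, Finset.mem_univ _, ?_⟩
    · split_ifs
      · exact (h2 h).le
      · exact le_rfl
    · rw [hb, if_pos rfl]
      exact h2 _
  · simp only [Finset.sum_mul]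
    rw [Finset.sum_comm]
    refine Eq.trans (Finset.sum_congr rfl fun h _ => ?_) ((C.sum_avg _).trans (P.corner_sum hu))
    simp only [ite_mul, zero_mul, CritB_y_ς]
    rw [Finset.sum_ite_eq, if_pos (Finset.mem_image_of_mem _ (Finset.mem_univ _)),
      ← hu.B_eqw (h1 _) (P.eqw_of_lab (hb _)), P.curve_sum hΛ hu, ← Finset.mul_sum]
    ring

end Poly

end

end Pool.Agent.P.MP_d39174_gt
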