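import Pool.Agent.P.MP_d39174_gt.Del1

/-! Delaunay pairs: existence, finiteness, connectedness. -/

namespace Pool.Agent.P.MP_d39174_gt

open UpperHalfPlane MatrixGroups

noncomputable section

variable {Γ : Subgroup SL(2, ℝ)} {A : Set V}

private lemma Del2_B_pt {p : V} (hp : Fut p) (n : V) :
    B n p = √(-B p p) * B n (Hy (pt p)) := by
  have h0 : 0 < √(-B p p) := Real.sqrt_pos.2 (by linarith [hp.1])
  rw [Hy_pt hp, B_smul_right]
  field_simp

private lemma Del2_sign (w : WallSys Γ A) {n p : V} (hn : n ∈ A) (h : 1 ≤ |B n p|) :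
    ∃ m ∈ A, (m = n ∨ m = -n) ∧ 1 ≤ B m p := by
  rcases le_abs'.1 h with h | h
  · exact ⟨-n, w.neg n hn, Or.inr rfl, by rw [B_neg_left]; linarith⟩
  · exact ⟨n, hn, Or.inl rfl, h⟩

private lemma Del2_first_hit (h : Nice Γ) (w : WallSys Γ A) {p q : V} (hp : Wit A p) (hq : Fut q)
    (hn : ∃ n ∈ A, |B n q| < 1) :
    ∃ s : ℝ, ∃ c ∈ A, Wit A ((1 - s) • p + s • q) ∧ B c ((1 - s) • p + s • q) = 1 ∧
      B c q < 1 ∧ 1 ≤ B c p := by
  let T : Set V := {n | n ∈ A ∧ 1 ≤ B n p ∧ B n q < 1}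
  let σ : V → ℝ := fun n => (B n p - 1) / (B n p - B n q)
  have hσ : ∀ n ∈ T, 0 ≤ σ n ∧ σ n ≤ 1 ∧ σ n * (B n p - B n q) = B n p - 1 := by
    rintro n ⟨-, h1, h2⟩
    have h3 : 0 < B n p - B n q := by linarith
    refine ⟨div_nonneg (by linarith) h3.le, (div_le_one h3).2 (by linarith), ?_⟩
    exact div_mul_cancel₀ _ h3.ne'
  have hval : ∀ n ∈ T, B n ((1 - σ n) • p + σ n • q) = 1 := by
    intro n hn
    rw [B_add_right, B_smul_right, B_smul_right]
    linear_combination -(hσ n hn).2.2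
  have hfin : T.Finite := by
    refine ((w.lf h).finite_seg (fun n hn => (w.per n hn).1) hp.1 hq 1).subset ?_
    intro n hn
    exact ⟨hn.1, σ n, ⟨(hσ n hn).1, (hσ n hn).2.1⟩, by rw [hval n hn, abs_one]⟩
  have hne : T.Nonempty := by
    obtain ⟨n, hnA, hnq⟩ := hn
    obtain ⟨m, hm, e, h1⟩ := Del2_sign w hnA (hp.2 n hnA)
    have := abs_lt.1 hnq
    refine ⟨m, hm, h1, ?_⟩
    rcases e with e | e
    · rw [e]; exact this.2
    · rw [e, B_neg_left]; linarith [this.1]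
  obtain ⟨c, hc, hmin⟩ := Set.exists_min_image T σ hfin hne
  obtain ⟨s0, s1, -⟩ := hσ c hc
  have key : ∀ m ∈ A, 1 ≤ B m p → 1 ≤ B m ((1 - σ c) • p + σ c • q) := by
    intro m hm h1
    rw [B_add_right, B_smul_right, B_smul_right]
    by_cases h2 : B m q < 1
    · have hT : m ∈ T := ⟨hm, h1, h2⟩
      have h3 := (hσ m hT).2.2
      have h4 := mul_le_mul_of_nonneg_right (hmin m hT) (show 0 ≤ B m p - B m q by linarith)
      linarith
    · have h3 := not_lt.1 h2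
      nlinarith [mul_nonneg s0 (sub_nonneg.2 h3), mul_nonneg (sub_nonneg.2 s1) (sub_nonneg.2 h1)]
  refine ⟨σ c, c, hc.1, ⟨hp.1.comb hq (by linarith) s0 (by linarith), ?_⟩, hval c hc,
    hc.2.2, hc.2.1⟩
  intro n hnA
  obtain ⟨m, hm, e, h1⟩ := Del2_sign w hnA (hp.2 n hnA)
  have h2 := key m hm h1
  rcases e with e | e
  · rw [e] at h2
    exact h2.trans (le_abs_self _)
  · rw [e, B_neg_left] at h2
    exact h2.trans (neg_le_abs _)

private lemma Del2_ne_zero (w : WallSys Γ A) {a n : V} (ha : a ∈ A) (hn : n ∈ A) (h1 : n ≠ a)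
    (h2 : n ≠ -a) {z : ℍ} (hz : B a (Hy z) = 0) : B n (Hy z) ≠ 0 := by
  intro h0
  rcases cross_of_common (w.per a ha).1 (w.per n hn).1 (Hy_fut z).1 hz h0 with e | e | e
  · linarith [w.sep a ha n hn h1 h2]
  · exact h1 e
  · exact h2 e

/-- Witnesses are bounded away from the light cone. -/
lemma wit_bound (h : Nice Γ) (w : WallSys Γ A) :
    ∃ ε : ℝ, 0 < ε ∧ ∀ p, Fut p → B p p > -ε → ∃ n ∈ A, |B n p| < 1 := by
  obtain ⟨a, ha⟩ := w.ne
  obtain ⟨R, hR⟩ := h.near_wall (w.per a ha).1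
  have hR1 : 0 < |R| + 1 := by positivity
  refine ⟨(1 / (|R| + 1)) ^ 2, by positivity, fun p hp hpp => ?_⟩
  obtain ⟨g, hg, hb⟩ := hR (pt p)
  refine ⟨g • a, w.inv g hg a ha, ?_⟩
  have h1 : √(-B p p) < 1 / (|R| + 1) :=
    (Real.sqrt_lt' (by positivity)).2 (by linarith)
  have h0 : 0 ≤ √(-B p p) := Real.sqrt_nonneg _
  rw [Del2_B_pt hp, abs_mul, abs_of_nonneg h0]
  have h2 : |B (g • a) (Hy (pt p))| ≤ |R| + 1 := by linarith [le_abs_self R]
  calc √(-B p p) * |B (g • a) (Hy (pt p))| ≤ √(-B p p) * (|R| + 1) :=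
        mul_le_mul_of_nonneg_left h2 h0
    _ < 1 / (|R| + 1) * (|R| + 1) := mul_lt_mul_of_pos_right h1 hR1
    _ = 1 := by field_simp

private lemma Del2_wit_le (h : Nice Γ) (w : WallSys Γ A) :
    ∃ ε : ℝ, 0 < ε ∧ (∀ p, Fut p → B p p > -ε → ∃ n ∈ A, |B n p| < 1) ∧
      ∀ p, Wit A p → B p p ≤ -ε := by
  obtain ⟨ε, h0, h1⟩ := wit_bound h w
  refine ⟨ε, h0, h1, fun p hp => ?_⟩
  by_contra h2
  obtain ⟨n, hn, h3⟩ := h1 p hp.1 (not_le.1 h2)
  linarith [hp.2 n hn]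

lemma exists_third (h : Nice Γ) (w : WallSys Γ A) {a b : V} (hd : Del A a b) :
    ∃ p c, Wit A p ∧ c ∈ A ∧ B a p = 1 ∧ B b p = 1 ∧ B c p = 1 ∧ 0 < ori a b c := by
  obtain ⟨ε, hε, hb, hw⟩ := Del2_wit_le h w
  have fab := hd.fac w
  have fba := hd.symm.fac w
  obtain ⟨ha, hbA, hab, p, hp, hap, hbp⟩ := hd
  have ua := (w.per a ha).1
  have ub := (w.per b hbA).1
  have hlt := Fac.lt ua ub fab fba
  obtain ⟨v, hv⟩ : ∃ v, v = cr a b := ⟨_, rfl⟩
  have hγ : 0 < B v v := by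
    rw [hv, B_cr_cr, ua, ub]
    nlinarith
  have hav : B a v = 0 := by rw [hv]; exact B_cr_left a b
  have hbv : B b v = 0 := by rw [hv]; exact B_cr_right a b
  have hP := hw p hp
  obtain ⟨t, ht, et⟩ : ∃ t : ℝ, 0 < t ∧ B v v * t ^ 2 + 2 * B p v * t = -(B p p + ε / 2) := by
    have hD : B p v ^ 2 < B p v ^ 2 - B v v * (B p p + ε / 2) := by
      nlinarith [mul_pos hγ (show 0 < -(B p p + ε / 2) by linarith)]
    obtain ⟨r, hr0, hr⟩ : ∃ r : ℝ, 0 ≤ r ∧ r ^ 2 = B p v ^ 2 - B v v * (B p p + ε / 2) :=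
      ⟨√_, Real.sqrt_nonneg _, Real.sq_sqrt ((sq_nonneg _).trans hD.le)⟩
    have h1 : B p v < r := by
      by_contra h1
      nlinarith [not_lt.1 h1]
    refine ⟨(r - B p v) / B v v, div_pos (by linarith) hγ, ?_⟩
    field_simp
    linear_combination 2 * hr
  have hqq : B (p + t • v) (p + t • v) = -(ε / 2) := by
    simp only [B_add_left, B_add_right, B_smul_left, B_smul_right, B_comm v p]
    linear_combination et
  have hq : Fut (p + t • v) := by
    refine hp.1.of_B (by rw [hqq]; linarith) ?_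
    rw [B_add_right, B_smul_right]
    nlinarith [mul_pos hγ (pow_pos ht 2)]
  obtain ⟨s, c, hc, hx, hcx, hcq, hcp⟩ :=
    Del2_first_hit h w hp hq (hb _ hq (by rw [hqq]; linarith))
  have haq : B a (p + t • v) = 1 := by rw [B_add_right, B_smul_right, hap, hav]; ring
  have hbq : B b (p + t • v) = 1 := by rw [B_add_right, B_smul_right, hbp, hbv]; ring
  have hax : B a ((1 - s) • p + s • (p + t • v)) = 1 := by
    rw [B_add_right, B_smul_right, B_smul_right, hap, haq]; ring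
  have hbx : B b ((1 - s) • p + s • (p + t • v)) = 1 := by
    rw [B_add_right, B_smul_right, B_smul_right, hbp, hbq]; ring
  have hca : c ≠ a := fun e => by rw [e, haq] at hcq; exact lt_irrefl _ hcq
  have hcb : c ≠ b := fun e => by rw [e, hbq] at hcq; exact lt_irrefl _ hcq
  have hdet : det3 a b c < 0 := by
    rw [B_add_right, B_smul_right] at hcq
    have h1 : t * B c v < 0 := by linarith
    have h2 : B c v < 0 := by
      by_contra h2
      linarith [mul_nonneg ht.le (not_lt.1 h2)]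
    rw [hv, B_comm] at h2
    exact h2
  have hor := det3_ori ua ub (w.per c hc).1 fab fba
    (nearest_fac w hx hc hcx hbA (by rw [hbx]; exact one_pos) hcb.symm)
    (nearest_fac w hx hbA hbx hc (by rw [hcx]; exact one_pos) hcb)
    (nearest_fac w hx hc hcx ha (by rw [hax]; exact one_pos) hca.symm)
    (nearest_fac w hx ha hax hc (by rw [hcx]; exact one_pos) hca)
  refine ⟨_, c, hx, hc, hax, hbx, hcx, ?_⟩
  by_contra h0
  linarith [mul_nonneg_of_nonpos_of_nonpos hdet.le (not_lt.1 h0)]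

lemma exists_del (h : Nice Γ) (w : WallSys Γ A) {a : V} (ha : a ∈ A) : ∃ b, Del A a b := by
  obtain ⟨ε, hε, hb, -⟩ := Del2_wit_le h w
  have ua := (w.per a ha).1
  obtain ⟨z, hz⟩ := exists_on_wall ua
  have hz' : B (Hy z) a = 0 := by rw [B_comm]; exact hz
  obtain ⟨δ, hδ, hδ'⟩ : ∃ δ : ℝ, 0 < δ ∧ ∀ n ∈ A, n ≠ a → n ≠ -a → δ ≤ |B n (Hy z)| := by
    let T : Set V := {n | (n ∈ A ∧ |B n (Hy z)| ≤ 1) ∧ n ≠ a ∧ n ≠ -a}
    have hT : T.Finite := (w.lf h z 1).subset fun n hn => hn.1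
    rcases T.eq_empty_or_nonempty with e | hne
    · refine ⟨1, one_pos, fun n hn h1 h2 => ?_⟩
      by_contra h3
      have : n ∈ T := ⟨⟨hn, (not_le.1 h3).le⟩, h1, h2⟩
      rw [e] at this
      exact this
    · obtain ⟨m, hm, hmin⟩ := Set.exists_min_image T (fun n => |B n (Hy z)|) hT hne
      refine ⟨|B m (Hy z)|, abs_pos.2 (Del2_ne_zero w ha hm.1.1 hm.2.1 hm.2.2 hz),
        fun n hn h1 h2 => ?_⟩
      by_cases h3 : |B n (Hy z)| ≤ 1
      · exact hmin n ⟨⟨hn, h3⟩, h1, h2⟩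
      · linarith [hm.1.2, not_le.1 h3]
  have hsq : ∀ l : ℝ, B (a + l • Hy z) (a + l • Hy z) = 1 - l ^ 2 := by
    intro l
    simp only [B_add_left, B_add_right, B_smul_left, B_smul_right, ua, hz, hz', Hy_unit]
    ring
  have hfut : ∀ l : ℝ, 1 < l → Fut (a + l • Hy z) := by
    intro l hl
    refine (Hy_fut z).of_B (by rw [hsq]; nlinarith) ?_
    rw [B_add_right, B_smul_right, hz', Hy_unit]
    linarith
  have hone : ∀ l : ℝ, B a (a + l • Hy z) = 1 := by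
    intro l
    rw [B_add_right, B_smul_right, ua, hz]; ring
  have hl0 : 0 < 2 / δ := by positivity
  have hp : Wit A (a + (1 + 2 / δ) • Hy z) := by
    refine ⟨hfut _ (by linarith), fun n hn => ?_⟩
    by_cases h1 : n = a
    · rw [h1, hone, abs_one]
    by_cases h2 : n = -a
    · rw [h2, B_neg_left, hone, abs_neg, abs_one]
    have h3 := hδ' n hn h1 h2
    have h4 := VH2_pars ua (Hy_unit z) hz n
    rw [(w.per n hn).1] at h4
    have h5 : |B n a| ≤ 1 + |B n (Hy z)| := by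
      refine abs_le_of_sq_le_sq' ?_ (by positivity) |> abs_le.2
      nlinarith [sq_nonneg (B n (cr a (Hy z))), sq_abs (B n (Hy z)), abs_nonneg (B n (Hy z))]
    have h6 : 2 ≤ 2 / δ * |B n (Hy z)| := by
      have := mul_le_mul_of_nonneg_left h3 hl0.le
      rwa [div_mul_cancel₀ _ hδ.ne'] at this
    rw [B_add_right, B_smul_right]
    have h7 : |(1 + 2 / δ) * B n (Hy z)| = (1 + 2 / δ) * |B n (Hy z)| := by
      rw [abs_mul, abs_of_pos (by linarith)]
    have h8 := abs_sub (B n a + (1 + 2 / δ) * B n (Hy z)) (B n a)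
    rw [add_sub_cancel_left, h7] at h8
    linarith
  obtain ⟨l, hl, hl2⟩ : ∃ l : ℝ, 1 < l ∧ l ^ 2 = 1 + ε / 2 :=
    ⟨√(1 + ε / 2), (Real.lt_sqrt zero_le_one).2 (by linarith), Real.sq_sqrt (by linarith)⟩
  obtain ⟨s, c, hc, hx, hcx, hcq, -⟩ := Del2_first_hit h w hp (hfut l hl)
    (hb _ (hfut l hl) (by rw [hsq]; linarith))
  refine ⟨c, ha, hc, fun e => ?_, _, hx, ?_, hcx⟩
  · rw [← e, hone] at hcq
    exact lt_irrefl _ hcq
  · rw [B_add_right, B_smul_right, B_smul_right, hone, hone]; ring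

lemma del_fin (h : Nice Γ) (w : WallSys Γ A) :
    ∃ F : Finset (V × V), ∀ a b, Del A a b → ∃ g ∈ Γ, ∃ e ∈ F, (a, b) = (g • e.1, g • e.2) := by
  classical
  obtain ⟨ε, hε, -, hw⟩ := Del2_wit_le h w
  obtain ⟨R, hR⟩ := h.coc
  have hfin := w.lf h I (Real.sinh (Real.arsinh (1 / √ε) + R))
  refine ⟨hfin.toFinset ×ˢ hfin.toFinset, fun a b hd => ?_⟩
  obtain ⟨ha, hb, -, p, hp, hap, hbp⟩ := hd
  obtain ⟨g, hg, hgd⟩ := hR (pt p)
  have key : ∀ n ∈ A, B n p = 1 → g • n ∈ hfin.toFinset := by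
    intro n hn h1
    have hm := w.inv g hg n hn
    rw [Set.Finite.mem_toFinset]
    refine ⟨hm, ?_⟩
    have h2 := VH3_lip (w.per _ hm).1 I (g • pt p)
    rw [Hy_smul, B_ad, dist_comm] at h2
    have h0 : 0 < √ε := Real.sqrt_pos.2 hε
    have h3 : √ε ≤ √(-B p p) := Real.sqrt_le_sqrt (by linarith [hw p hp])
    have h4 : |B n (Hy (pt p))| ≤ 1 / √ε := by
      rw [Hy_pt hp.1, B_smul_right, h1, mul_one, abs_of_nonneg (by positivity)]
      exact one_div_le_one_div_of_le h0 h3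
    have h5 := Real.arsinh_le_arsinh.2 h4
    rw [← Real.sinh_arsinh |B (g • n) (Hy I)|]
    exact Real.sinh_le_sinh.2 (by linarith)
  refine ⟨g⁻¹, Γ.inv_mem hg, (g • a, g • b),
    Finset.mem_product.2 ⟨key a ha hap, key b hb hbp⟩, ?_⟩
  simp only [inv_smul_smul]

lemma del_conn (h : Nice Γ) (w : WallSys Γ A) {S : Set V} (h1 : ∀ a ∈ S, -a ∈ S)
    (h2 : ∀ a ∈ S, ∀ b, Del A a b → b ∈ S) (h3 : ∃ a ∈ A, a ∈ S) : A ⊆ S := by
  intro x hx
  by_contra hxS
  obtain ⟨a0, ha0, ha0S⟩ := h3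
  obtain ⟨z, a, b, ha, hb, hab, hmin⟩ := exists_equidistant (S := A ∩ S) (T := A \ S)
    ((w.lf h).mono Set.inter_subset_left) ((w.lf h).mono Set.sdiff_subset)
    (fun n hn => (w.per n hn.1).1) (fun n hn => (w.per n hn.1).1) ⟨a0, ha0, ha0S⟩ ⟨x, hx, hxS⟩
  have hv : 0 < |B a (Hy z)| := by
    refine abs_pos.2 fun h0 => ?_
    have h4 : b ≠ a := fun e => hb.2 (e ▸ ha.2)
    have h5 : b ≠ -a := fun e => hb.2 (e ▸ h1 a ha.2)
    apply Del2_ne_zero w ha.1 hb.1 h4 h5 h0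
    rw [h0, abs_zero] at hab
    exact abs_eq_zero.1 hab.symm
  obtain ⟨v, ev⟩ : ∃ v, v = |B a (Hy z)| := ⟨_, rfl⟩
  rw [← ev] at hv hmin
  have habs : ∀ n, |B n ((1 / v) • Hy z)| = |B n (Hy z)| / v := by
    intro n
    rw [B_smul_right, abs_mul, abs_of_pos (by positivity)]
    ring
  have hp : Wit A ((1 / v) • Hy z) := by
    refine ⟨(Hy_fut z).smul (by positivity), fun n hn => ?_⟩
    rw [habs, one_le_div hv]
    by_cases hn' : n ∈ S
    · exact hmin n (Or.inl ⟨hn, hn'⟩)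
    · exact hmin n (Or.inr ⟨hn, hn'⟩)
  have sgn : ∀ n ∈ A, |B n (Hy z)| = v →
      ∃ m ∈ A, (m = n ∨ m = -n) ∧ B m ((1 / v) • Hy z) = 1 := by
    intro n hn e
    have h4 : |B n ((1 / v) • Hy z)| = 1 := by rw [habs, e, div_self hv.ne']
    rcases (abs_eq zero_le_one).1 h4 with h5 | h5
    · exact ⟨n, hn, Or.inl rfl, h5⟩
    · exact ⟨-n, w.neg n hn, Or.inr rfl, by rw [B_neg_left, h5, neg_neg]⟩
  obtain ⟨a', ha', ea, hap⟩ := sgn a ha.1 ev.symm
  obtain ⟨b', hb', eb, hbp⟩ := sgn b hb.1 (hab.symm.trans ev.symm)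
  have haS : a' ∈ S := by
    rcases ea with e | e
    · rw [e]; exact ha.2
    · rw [e]; exact h1 a ha.2
  have hbS : b' ∉ S := by
    intro hh
    rcases eb with e | e
    · exact hb.2 (e ▸ hh)
    · have := h1 b' hh
      rw [e, neg_neg] at this
      exact hb.2 this
  exact hbS (h2 a' haS b' ⟨ha', hb', fun e => hbS (e ▸ haS), _, hp, hap, hbp⟩)


end

end Pool.Agent.P.MP_d39174_gt
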