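import Pool.Agent.P.MP_d39174_gt.ExPoly1
import Pool.Agent.P.MP_456758_an.Brouwer

/-! Existence of heights with equal lengths. -/

namespace Pool.Agent.P.MP_d39174_gt

open UpperHalfPlane MatrixGroups

noncomputable section

/-- Fixed point theorem for bounded continuous maps. -/
lemma exists_fixed {ι : Type} [Fintype ι] {F : (ι → ℝ) → ι → ℝ} (hF : Continuous F) {R : ℝ}
    (hR : ∀ z i, |F z i| ≤ R) : ∃ z, F z = z := by
  let e := Fintype.equivFin ι
  have hb : ∀ z, ‖F (z ∘ e) ∘ e.symm‖ ≤ |R| := fun z =>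
    (pi_norm_le_iff_of_nonneg (abs_nonneg R)).2 fun i => (hR _ _).trans (le_abs_self R)
  obtain ⟨z, hz⟩ := Pool.Agent.P.MP_456758_an.miranda
    (G := fun z => z - max 0 (min 1 (|R| + 1 - ‖z‖)) • (F (z ∘ e) ∘ e.symm)) (by fun_prop)
    (R := |R| + 1) (by positivity) fun z hz => by
      rw [max_eq_left (min_le_of_right_le (sub_nonpos.2 hz)), zero_smul, sub_zero]
  have h1 := sub_eq_zero.1 hz
  have h2 : ‖z‖ ≤ |R| := by
    rw [h1, norm_smul, Real.norm_of_nonneg (le_max_left _ _)]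
    exact (mul_le_of_le_one_left (norm_nonneg _) (max_le zero_le_one (min_le_left _ _))).trans (hb z)
  rw [min_eq_left (by linarith), max_eq_right zero_le_one, one_smul] at h1
  exact ⟨z ∘ e, funext fun i => by simpa using (congrFun h1 (e i)).symm⟩

lemma Tt_pos {x y : ℝ} (hy : 0 < y) : 0 < Tt x y := Real.arsinh_pos_iff.2 (by positivity)

lemma Tt_le {x y : ℝ} (hx : 0 < x) (hy : 0 < y) : Tt x y ≤ Real.arsinh (y / x) :=
  Real.arsinh_le_arsinh.2 (div_le_div_of_nonneg_left hy.le hx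
    (Real.le_sqrt_of_sq_le (by linarith)))

lemma le_Tt {x y : ℝ} (hx : 1 ≤ x) (hy : 0 < y) :
    Real.arsinh (y / x) - 1 / √(1 + x ^ 2) ≤ Tt x y := by
  have h1 : x ≤ √(1 + x ^ 2) := Real.le_sqrt_of_sq_le (by linarith)
  have h2 : √(1 + x ^ 2) ^ 2 = 1 + x ^ 2 := Real.sq_sqrt (by positivity)
  unfold Tt
  generalize √(1 + x ^ 2) = c at h1 h2
  have h3 : 0 < c := by linarith
  have h4 : y / c ≤ √(1 + (y / c) ^ 2) := Real.le_sqrt_of_sq_le (by linarith)
  have h5 : 1 / c ≤ Real.sinh (1 / c) := Real.self_le_sinh_iff.2 (by positivity)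
  rw [sub_le_iff_le_add, ← Real.sinh_le_sinh, Real.sinh_arsinh, Real.sinh_add, Real.sinh_arsinh,
    Real.cosh_arsinh]
  refine le_trans ?_ (add_le_add (le_mul_of_one_le_right (by positivity) (Real.one_le_cosh _))
    (mul_le_mul h4 h5 (by positivity) (by positivity)))
  rw [← mul_one_add, div_eq_mul_one_div y x, div_eq_mul_one_div y c, mul_assoc]
  refine mul_le_mul_of_nonneg_left ?_ hy.le
  rw [div_le_iff₀ (by linarith)]
  field_simp
  nlinarith

lemma Eqn_clamp {a b t d : ℝ} (h : a ≤ b) (e : max a (min b (t + d)) = t) :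
    (0 < d → t = b) ∧ (d < 0 → t = a) := by
  simp only [max_def, min_def] at e
  constructor <;> intro <;> split_ifs at e <;> linarith

variable {Vx : Type} [Fintype Vx] [DecidableEq Vx] {G : SimpleGraph Vx} [DecidableRel G.Adj]

lemma one_le_of_tot (hd : ∀ v, 5 ≤ G.degree v) {x : Vx → ℝ} (hx : ∀ v, 0 < x v)
    (h : ∑ v, ∑ w ∈ G.neighborFinset v, ang (x v) (x w) ≤ Real.pi) (v : Vx) : 1 ≤ x v := by
  have h1 := (Finset.single_le_sum (f := fun v => ∑ w ∈ G.neighborFinset v, ang (x v) (x w))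
    (fun v _ => Finset.sum_nonneg fun w _ => (ang_pos (hx v) (hx w)).1.le)
    (Finset.mem_univ v)).trans h
  have h2 := (Finset.card_nsmul_le_sum _ _ _ fun w _ => le_ang (hx v) (hx w)).trans h1
  have h3 : (5 : ℝ) ≤ G.degree v := by exact_mod_cast hd v
  have h4 : √(1 + x v ^ 2) ^ 2 = 1 + x v ^ 2 := Real.sq_sqrt (by positivity)
  have h5 : 0 < √(1 + x v ^ 2) := by positivity
  rw [SimpleGraph.card_neighborFinset_eq_degree, nsmul_eq_mul, mul_one_div, div_le_iff₀ h5] at h2
  have h6 : 3 / 2 ≤ √(1 + x v ^ 2) := by nlinarith [Real.pi_lt_d2]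
  nlinarith [hx v]

theorem exists_sol (hc : G.Connected) (hd : ∀ v, 5 ≤ G.degree v) :
    ∃ (x : Vx → ℝ) (Λ : ℝ), Sol G x Λ := by
  have := hc.nonempty
  obtain ⟨m, hm⟩ : ∃ m : ℝ, m = Fintype.card Vx := ⟨_, rfl⟩
  obtain ⟨E, hE⟩ : ∃ E : ℝ, E = ∑ v, (G.degree v : ℝ) := ⟨_, rfl⟩
  have m1 : 1 ≤ m := by
    rw [hm]
    exact_mod_cast Fintype.card_pos
  have E0 : 0 ≤ E := hE ▸ Finset.sum_nonneg fun _ _ => Nat.cast_nonneg _
  have K1 : 1 ≤ 2 * Real.sinh m := by linarith [Real.self_le_sinh_iff.2 (zero_le_one.trans m1)]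
  have E1 := le_mul_of_one_le_right E0 (one_le_pow₀ K1 (n := Fintype.card Vx))
  obtain ⟨L, L0, hL⟩ : ∃ L, 0 < L ∧ E * (2 * Real.sinh m) ^ Fintype.card Vx < Real.exp L :=
    ⟨E * (2 * Real.sinh m) ^ Fintype.card Vx + 1, by linarith,
      by linarith [Real.add_one_le_exp (E * (2 * Real.sinh m) ^ Fintype.card Vx + 1)]⟩
  have cT : Continuous fun p : ℝ × ℝ => Tt p.1 p.2 :=
    Real.continuous_arsinh.comp (continuous_snd.div (by fun_prop) fun _ => by positivity)
  have cA : Continuous fun p : ℝ × ℝ => ang p.1 p.2 := Real.continuous_arccos.comp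
    ((continuous_fst.mul continuous_snd).div (by fun_prop) fun _ => by positivity)
  obtain ⟨z, hz⟩ := exists_fixed (ι := Option Vx) (R := L + (m + 1)) (F := fun z i => i.elim
    (max 0 (min (m + 1) (z none + (Real.pi -
      ∑ v, ∑ w ∈ G.neighborFinset v, ang (z (some v)).exp (z (some w)).exp))))
    fun v => max (-L) (min L (z (some v) +
      (∑ w ∈ G.neighborFinset v, Tt (z (some v)).exp (z (some w)).exp - z none))))
    (continuous_pi fun i => by
      cases i <;> simp only [Option.elim] <;> fun_prop)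
    fun z i => by
      cases i <;> exact abs_le.2 ⟨le_max_of_le_left (by linarith),
        max_le (by linarith) (min_le_of_left_le (by linarith))⟩
  obtain ⟨x, hx⟩ : ∃ x : Vx → ℝ, ∀ v, (z (some v)).exp = x v := ⟨_, fun _ => rfl⟩
  have x0 : ∀ v, 0 < x v := fun v => hx v ▸ Real.exp_pos _
  have k1 := congrFun hz none
  have k2 := fun v => congrFun hz (some v)
  simp only [hx, Option.elim] at k1 k2
  replace k1 := Eqn_clamp (add_nonneg (zero_le_one.trans m1) zero_le_one) k1
  replace k2 := fun v => Eqn_clamp (neg_le_self L0.le) (k2 v)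
  have hA : ∀ a, 0 < a → (∀ v, a ≤ x v) →
      (∑ v, ∑ w ∈ G.neighborFinset v, ang (x v) (x w)) * a ≤ E * Real.pi := fun a ha h => by
    rw [← le_div_iff₀ ha, mul_div_assoc, hE, Finset.sum_mul]
    refine Finset.sum_le_sum fun v _ => ?_
    simpa using Finset.sum_le_card_nsmul _ _ _ fun w (_ : w ∈ G.neighborFinset v) =>
      ang_le ha (h v) (h w)
  have s1 : ∑ v, ∑ w ∈ G.neighborFinset v, ang (x v) (x w) ≤ Real.pi := le_of_not_gt fun h => by
    have := hA _ (Real.exp_pos L) fun v => by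
      rw [← hx, (k2 v).1 (by
        rw [k1.2 (sub_neg.2 h), sub_zero]
        exact Finset.sum_pos (fun w _ => Tt_pos (x0 w)) (Finset.card_pos.1
          ((G.card_neighborFinset_eq_degree v).symm ▸ lt_of_lt_of_le (by norm_num) (hd v))))]
    nlinarith [Real.pi_pos, Real.exp_pos L]
  have x1 := one_le_of_tot hd x0 s1
  have s2 : ∀ v, z none ≤ ∑ w ∈ G.neighborFinset v, Tt (x v) (x w) := fun v => le_of_not_gt fun h => by
    have := x1 v
    rw [← hx, (k2 v).2 (sub_neg.2 h), Real.one_le_exp_iff] at this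
    linarith
  have s3 : z none ≤ m := by
    obtain ⟨v, hv⟩ := Finite.exists_max x
    refine (s2 v).trans ((Finset.sum_le_card_nsmul _ _ 1 fun w _ => (Tt_le (x0 v) (x0 w)).trans
      ((Real.arsinh_le_arsinh.2 (((div_le_one (x0 v)).2 (hv w)).trans
        (Real.self_le_sinh_iff.2 zero_le_one))).trans_eq (Real.arsinh_sinh 1))).trans ?_)
    rw [nsmul_eq_mul, mul_one, hm]
    exact_mod_cast Finset.card_le_univ _
  have s4 := s1.antisymm (le_of_not_gt fun h => by linarith [k1.1 (sub_pos.2 h)])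
  have s5 : ∀ v, x v < L.exp → ∑ w ∈ G.neighborFinset v, Tt (x v) (x w) = z none := fun v hv =>
    (le_of_not_gt fun h => hv.ne (by rw [← hx, (k2 v).1 (sub_pos.2 h)])).antisymm (s2 v)
  have s6 : ∀ u v (p : G.Walk u v), x u * (2 * Real.sinh m) ^ p.length < L.exp →
      x v ≤ x u * (2 * Real.sinh m) ^ p.length := fun u v p => by
    induction p with
    | nil => simp
    | @cons u w v h p ih =>
      intro hu
      have t1 := (Finset.single_le_sum (f := fun w => Tt (x u) (x w)) (fun w _ => (Tt_pos (x0 w)).le)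
        ((G.mem_neighborFinset u w).2 h)).trans ((s5 u ((le_mul_of_one_le_right (x0 u).le
          (one_le_pow₀ K1)).trans_lt hu)).trans_le s3)
      have t2 : √(1 + x u ^ 2) ≤ 2 * x u := Real.sqrt_le_iff.2 ⟨by linarith [x1 u], by nlinarith [x1 u]⟩
      rw [Tt, ← Real.sinh_le_sinh, Real.sinh_arsinh, div_le_iff₀ (by positivity)] at t1
      have t3 : x w * (2 * Real.sinh m) ^ p.length ≤
          x u * (2 * Real.sinh m) ^ (SimpleGraph.Walk.cons h p).length := by
        rw [SimpleGraph.Walk.length_cons, pow_succ', ← mul_assoc]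
        exact mul_le_mul_of_nonneg_right (by nlinarith) (by positivity)
      exact (ih (t3.trans_lt hu)).trans t3
  obtain ⟨u, hu⟩ := Finite.exists_min x
  have s7 : x u ≤ E := by
    have := hA _ (x0 u) hu
    rw [s4, mul_comm] at this
    exact le_of_mul_le_mul_right this Real.pi_pos
  refine ⟨x, z none, x0, fun v => s5 v ?_, s4⟩
  obtain ⟨p, hp⟩ := (hc.preconnected u v).exists_isPath
  have := (mul_le_mul s7 (pow_le_pow_right₀ K1 hp.length_lt.le) (by positivity) E0).trans_lt hL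
  exact (s6 u v p this).trans_lt this

end

end Pool.Agent.P.MP_d39174_gt
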