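import Pool.Agent.P.MP_d39174_gt.ExPoly1
import Pool.Agent.P.MP_d39174_gt.Cmb1

/-! Existence of the polygon. -/

namespace Pool.Agent.P.MP_d39174_gt

open UpperHalfPlane MatrixGroups

noncomputable section

lemma ExPoly_cyc {H : Type} [Fintype H] {f : Equiv.Perm H} (hf : ∀ h k, f.SameCycle h k) (h : H) :
    ∃ n, 0 < n ∧ (f ^ n) h = h ∧ (∀ i < n, ∀ j < n, (f ^ i) h = (f ^ j) h → i = j) ∧
      (∀ k, ∃ j < n, (f ^ j) h = k) ∧
      ∀ a : H → ℝ, ∑ i ∈ Finset.range n, a ((f ^ i) h) = ∑ k, a k := by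
  have h0 : 0 < Function.minimalPeriod f h :=
    Function.minimalPeriod_pos_of_mem_periodicPts (f.injective.mem_periodicPts h)
  have h1 : ∀ i < Function.minimalPeriod f h, ∀ j < Function.minimalPeriod f h,
      (f ^ i) h = (f ^ j) h → i = j := fun i hi j hj e =>
    Function.iterate_injOn_Iio_minimalPeriod hi hj e
  have h2 : ∀ k, ∃ j < Function.minimalPeriod f h, (f ^ j) h = k := fun k => by
    obtain ⟨i, -, e⟩ := (hf h k).exists_pow_eq'
    exact ⟨_, Nat.mod_lt i h0, (Function.iterate_mod_minimalPeriod_eq (f := f)).trans e⟩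
  refine ⟨_, h0, Function.iterate_minimalPeriod (f := f), h1, h2, fun a => ?_⟩
  refine Finset.sum_bij (fun i _ => (f ^ i) h) (fun _ _ => Finset.mem_univ _)
    (fun i hi j hj e => h1 i (Finset.mem_range.1 hi) j (Finset.mem_range.1 hj) e)
    (fun k _ => ?_) fun _ _ => rfl
  obtain ⟨j, hj, e⟩ := h2 k
  exact ⟨j, Finset.mem_range.2 hj, e⟩

lemma ExPoly_succ {H : Type} (f : Equiv.Perm H) (i : ℕ) (h : H) :
    (f ^ (i + 1)) h = f ((f ^ i) h) := by rw [pow_succ', Equiv.Perm.mul_apply]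

lemma ExPoly_theta {H : Type} [Fintype H] [Nonempty H] {f : Equiv.Perm H}
    (hf : ∀ h k, f.SameCycle h k) (a : H → ℝ) : ∃ θ : H → ℝ, ∀ h (j : ℕ), ∃ m : ℤ,
      θ ((f ^ j) h) = θ h + ∑ i ∈ Finset.range j, a ((f ^ i) h) + m * ∑ k, a k := by
  obtain ⟨h0⟩ := ‹Nonempty H›
  obtain ⟨n, hn, h1, h2, h3, h4⟩ := ExPoly_cyc hf h0
  choose ι hι e using h3
  have step : ∀ h, ∃ m : ℤ, ∑ i ∈ Finset.range (ι (f h)), a ((f ^ i) h0) =
      ∑ i ∈ Finset.range (ι h), a ((f ^ i) h0) + a h + m * ∑ k, a k := by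
    intro h
    have e1 : (f ^ (ι h + 1)) h0 = f h := by rw [ExPoly_succ, e]
    have e2 := Finset.sum_range_succ (fun i => a ((f ^ i) h0)) (ι h)
    rw [e] at e2
    rcases (Nat.succ_le_of_lt (hι h)).lt_or_eq with hl | hl
    · refine ⟨0, ?_⟩
      rw [h2 _ (hι (f h)) _ hl ((e _).trans e1.symm), e2]
      simp
    · have hl' : ι h + 1 = n := hl
      rw [hl'] at e1 e2
      refine ⟨-1, ?_⟩
      rw [h2 _ (hι (f h)) 0 hn ((e _).trans (e1.symm.trans h1)), ← e2, h4]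
      simp
  refine ⟨fun h => ∑ i ∈ Finset.range (ι h), a ((f ^ i) h0), fun h j => ?_⟩
  induction j with
  | zero => exact ⟨0, by simp⟩
  | succ j ih =>
    obtain ⟨m, hm⟩ := ih
    obtain ⟨m', hm'⟩ := step ((f ^ j) h)
    refine ⟨m + m', ?_⟩
    rw [ExPoly_succ, Finset.sum_range_succ]
    push_cast
    linear_combination hm + hm'

lemma ExPoly_between {g : ℕ → ℝ} {ξ : ℝ} (h0 : g 0 ≤ ξ) {n : ℕ} (hn : 0 < n) (h1 : ξ ≤ g n) :
    ∃ i, g i ≤ ξ ∧ ξ ≤ g (i + 1) := by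
  induction n with
  | zero => exact absurd hn (lt_irrefl _)
  | succ n ih =>
    rcases le_total (g n) ξ with h | h
    · exact ⟨n, h, h1⟩
    · rcases Nat.eq_zero_or_pos n with rfl | hn'
      · exact ⟨0, h0, h1⟩
      · exact ih hn' h

lemma ExPoly_per (x θ : ℝ) (m : ℤ) : nrm x (θ + m * (2 * Real.pi)) = nrm x θ := by
  simp only [nrm, dir, Real.cos_add_int_mul_two_pi, Real.sin_add_int_mul_two_pi]

/-- The polygon exists when the angles add up to `2 π`. -/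
theorem exists_poly (κ D : ℝ) (hκ : 1 ≤ κ) : ∃ K : ℕ, ∀ (Vx H : Type) [Fintype H] [Nonempty H]
    (G : SimpleGraph Vx) (C : Cmb G H) (x : Vx → ℝ), (∀ v, 1 ≤ x v) → (∀ v w, x v ≤ κ * x w) →
    ∑ h, ang (x (C.lab h)) (x (C.lab (C.f h))) = 2 * Real.pi →
    ∃ P : Poly C, P.x = x ∧ P.Near D K := by
  obtain ⟨c, hc⟩ := near_nrm κ D hκ
  refine ⟨⌈2 * κ * c⌉₊, fun Vx H _ _ G C x h1 hr hs => ?_⟩
  have hp : ∀ v, 0 < x v := fun v => one_pos.trans_le (h1 v)
  have hf : ∀ h k, C.f.SameCycle h k := C.one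
  obtain ⟨a, ha⟩ : ∃ a : H → ℝ, ∀ h, a h = ang (x (C.lab h)) (x (C.lab (C.f h))) := ⟨_, fun _ => rfl⟩
  simp only [← ha] at hs
  have ap : ∀ h, 0 < a h ∧ a h < Real.pi / 2 := fun h => ha h ▸ ang_pos (hp _) (hp _)
  obtain ⟨θ, hθ⟩ := ExPoly_theta hf a
  have hν : ∀ h (j : ℕ), nrm (x (C.lab ((C.f ^ j) h))) (θ ((C.f ^ j) h)) =
      nrm (x (C.lab ((C.f ^ j) h))) (θ h + ∑ i ∈ Finset.range j, a ((C.f ^ i) h)) := by
    intro h j
    obtain ⟨m, hm⟩ := hθ h j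
    rw [hm, hs, ExPoly_per]
  have hν1 : ∀ h, nrm (x (C.lab (C.f h))) (θ (C.f h)) = nrm (x (C.lab (C.f h))) (θ h + a h) :=
    fun h => by simpa using hν h 1
  refine ⟨⟨x, fun h => nrm (x (C.lab h)) (θ h), hp, fun h => ?_, fun h => B_nrm_o0 _ _,
    fun h => ?_, fun h => ?_, fun h k k0 k1 k2 => ?_, fun p => ?_⟩, rfl, fun h k hD => ?_⟩
  · rw [B_nrm, sub_self, Real.cos_zero, mul_one, Real.mul_self_sqrt (by positivity)]
    ring
  · rw [hν1, B_nrm, add_sub_cancel_left, ha, cos_ang (hp _) (hp _), neg_add_cancel]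
  · rw [hν1, det3_nrm, add_sub_cancel_left, ha, sin_ang (hp _) (hp _)]
    exact Real.sqrt_pos.2 (by positivity)
  · obtain ⟨n, hn, e1, -, e3, e4⟩ := ExPoly_cyc hf h
    obtain ⟨j, hj, rfl⟩ := e3 k
    obtain ⟨n, rfl⟩ := Nat.exists_eq_add_one_of_ne_zero hn.ne'
    have j0 : j ≠ 0 := by
      rintro rfl
      exact k0 rfl
    obtain ⟨j, rfl⟩ := Nat.exists_eq_add_one_of_ne_zero j0
    have j1 : j ≠ 0 := by
      rintro rfl
      exact k1 (by simp)
    have j2 : j + 1 ≠ n := by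
      rintro rfl
      exact k2 (e1.symm.trans (ExPoly_succ _ _ _))
    rw [hν]
    refine far_nrm (hp _) (hp _) (hp (C.lab (C.f h))) (hp (C.lab ((C.f ^ j) h)))
      (hp (C.lab ((C.f ^ n) h))) (hp (C.lab (C.f ((C.f ^ (j + 1)) h)))) ?_ ?_
    · rw [add_sub_cancel_left, ← ha, ExPoly_succ, ← ha]
      exact Finset.add_le_sum (f := fun i => a ((C.f ^ i) h)) (fun i _ => (ap _).1.le)
        (Finset.mem_range.2 (Nat.succ_pos j)) (Finset.mem_range.2 (Nat.lt_succ_self j)) j1.symm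
    · have e5 : ang (x (C.lab h)) (x (C.lab ((C.f ^ n) h))) = a ((C.f ^ n) h) := by
        rw [ha, ← ExPoly_succ, e1, ang_comm]
      rw [add_sub_cancel_left, e5, ang_comm, ← ha, ← hs, ← e4,
        ← Finset.sum_Ico_eq_sub _ hj.le]
      exact Finset.add_le_sum (f := fun i => a ((C.f ^ i) h)) (fun i _ => (ap _).1.le)
        (Finset.mem_Ico.2 (by omega)) (Finset.mem_Ico.2 (by omega)) j2.symm
  · obtain ⟨h⟩ := ‹Nonempty H›
    obtain ⟨n, hn, -, -, -, e4⟩ := ExPoly_cyc hf h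
    obtain ⟨b, r, ξ, r0, x0, x1, rfl⟩ := exists_dir p (θ h)
    obtain ⟨i, i0, i1⟩ := ExPoly_between
      (g := fun j => θ h + ∑ i ∈ Finset.range j, a ((C.f ^ i) h)) (ξ := ξ) (by simpa using x0) hn
      (by rwa [e4, hs])
    have e5 := Finset.sum_range_succ (fun i => a ((C.f ^ i) h)) i
    obtain ⟨p1, p2⟩ := ap ((C.f ^ i) h)
    obtain ⟨κ', s, s', s0, s1, e⟩ := sect_nrm (x := x (C.lab ((C.f ^ i) h)))
      (y := x (C.lab ((C.f ^ (i + 1)) h))) i0 i1 (by linarith) (by linarith [Real.pi_pos]) b r r0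
    refine ⟨(C.f ^ i) h, κ', s, s', s0, s1, ?_⟩
    rw [← ExPoly_succ, hν, hν]
    exact e
  · have key : ∀ h (j : ℕ), ∑ i ∈ Finset.range j, a ((C.f ^ i) h) ≤ Real.pi →
        -B (nrm (x (C.lab h)) (θ h)) (nrm (x (C.lab ((C.f ^ j) h))) (θ ((C.f ^ j) h))) ≤ D →
        j ≤ ⌈2 * κ * c⌉₊ := by
      intro h j hπ hD
      rw [hν] at hD
      have k1 := hc _ _ _ _ (h1 _) (hr _ _) (hr _ _) (by
        rw [add_sub_cancel_left]
        exact Finset.sum_nonneg fun i _ => (ap _).1.le) (by rwa [add_sub_cancel_left]) hD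
      rw [add_sub_cancel_left] at k1
      have k0 : 0 < 2 * κ * x (C.lab h) := by
        have := hp (C.lab h)
        positivity
      have k2 : ∀ i ∈ Finset.range j, 1 / (2 * κ * x (C.lab h)) ≤ a ((C.f ^ i) h) := by
        intro i _
        rw [ha]
        refine le_trans (one_div_le_one_div_of_le (by positivity) ?_) (le_ang (hp _) (hp _))
        have k3 := h1 (C.lab ((C.f ^ i) h))
        refine (Real.sqrt_le_iff.2 ⟨by linarith, ?_⟩ : _ ≤ 2 * x (C.lab ((C.f ^ i) h))).trans ?_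
        · nlinarith
        · linarith [hr (C.lab ((C.f ^ i) h)) (C.lab h)]
      have k4 := Finset.card_nsmul_le_sum _ _ _ k2
      rw [Finset.card_range, nsmul_eq_mul, mul_one_div, div_le_iff₀ k0] at k4
      have k5 : (j : ℝ) ≤ 2 * κ * c := by
        nlinarith [mul_le_mul_of_nonneg_left k1 (by linarith : 0 ≤ 2 * κ)]
      exact_mod_cast k5.trans (Nat.le_ceil _)
    obtain ⟨n, -, e1, -, e3, e4⟩ := ExPoly_cyc hf h
    obtain ⟨j, hj, rfl⟩ := e3 k
    rcases le_total (∑ i ∈ Finset.range j, a ((C.f ^ i) h)) Real.pi with hπ | hπ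
    · exact ⟨j, key h j hπ hD, Or.inl rfl⟩
    · obtain ⟨l, rfl⟩ := Nat.exists_eq_add_of_le hj.le
      have e5 : ∀ i, (C.f ^ (j + i)) h = (C.f ^ i) ((C.f ^ j) h) := fun i => by
        rw [add_comm, pow_add, Equiv.Perm.mul_apply]
      have e6 := e4 a
      rw [Finset.sum_range_add, hs] at e6
      simp only [e5] at e6 e1
      refine ⟨l, key _ l (by linarith) ?_, Or.inr e1.symm⟩
      rw [e1, B_comm]
      exact hD

end

end Pool.Agent.P.MP_d39174_gt
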