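import Pool.Agent.P.MP_d39174_gt.PolyDef

/-! Trigonometry of the polygon. -/

namespace Pool.Agent.P.MP_d39174_gt

open UpperHalfPlane MatrixGroups

noncomputable section

/-- Unit direction at the base point. -/
def dir (θ : ℝ) : V := ⟨Real.cos θ, -Real.sin θ, -Real.sin θ⟩

/-- Inward normal of the wall at height `x` in direction `θ`. -/
def nrm (x θ : ℝ) : V := -x • o0 - √(1 + x ^ 2) • dir θ

lemma B_nrm_o0 (x θ : ℝ) : B (nrm x θ) o0 = x := by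
  simp only [B, nrm, dir, o0, V.sub_a, V.sub_b, V.sub_c, V.smul_a, V.smul_b, V.smul_c]
  ring

lemma B_nrm (x y θ η : ℝ) :
    B (nrm x θ) (nrm y η) = -(x * y) + √(1 + x ^ 2) * √(1 + y ^ 2) * Real.cos (η - θ) := by
  simp only [B, nrm, dir, o0, V.sub_a, V.sub_b, V.sub_c, V.smul_a, V.smul_b, V.smul_c,
    Real.cos_sub]
  ring

lemma det3_nrm (x y θ η : ℝ) :
    det3 o0 (nrm x θ) (nrm y η) = √(1 + x ^ 2) * √(1 + y ^ 2) * Real.sin (η - θ) := by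
  simp only [det3, cr, B, nrm, dir, o0, V.sub_a, V.sub_b, V.sub_c, V.smul_a, V.smul_b, V.smul_c,
    Real.sin_sub]
  ring

lemma ang_comm (x y : ℝ) : ang x y = ang y x := by
  rw [ang, ang, mul_comm x, mul_comm (√(1 + x ^ 2))]

lemma ExPoly1_c (x : ℝ) :
    0 < √(1 + x ^ 2) ∧ √(1 + x ^ 2) ^ 2 = 1 + x ^ 2 ∧ x < √(1 + x ^ 2) :=
  ⟨Real.sqrt_pos.2 (by positivity), Real.sq_sqrt (by positivity),
    Real.lt_sqrt_of_sq_lt (lt_one_add _)⟩

lemma ExPoly1_q {x y : ℝ} (hx : 0 < x) (hy : 0 < y) :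
    0 < x * y / (√(1 + x ^ 2) * √(1 + y ^ 2)) ∧ x * y / (√(1 + x ^ 2) * √(1 + y ^ 2)) < 1 := by
  obtain ⟨a1, -, a3⟩ := ExPoly1_c x
  obtain ⟨b1, -, b3⟩ := ExPoly1_c y
  exact ⟨by positivity, (div_lt_one (by positivity)).2 (mul_lt_mul'' a3 b3 hx.le hy.le)⟩

lemma cos_ang {x y : ℝ} (hx : 0 < x) (hy : 0 < y) :
    √(1 + x ^ 2) * √(1 + y ^ 2) * Real.cos (ang x y) = x * y := by
  obtain ⟨h1, h2⟩ := ExPoly1_q hx hy
  rw [ang, Real.cos_arccos (by linarith) h2.le,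
    mul_div_cancel₀ _ (mul_pos (ExPoly1_c x).1 (ExPoly1_c y).1).ne']

lemma sin_ang {x y : ℝ} (hx : 0 < x) (hy : 0 < y) :
    √(1 + x ^ 2) * √(1 + y ^ 2) * Real.sin (ang x y) = √(1 + x ^ 2 + y ^ 2) := by
  obtain ⟨a1, a2, -⟩ := ExPoly1_c x
  obtain ⟨b1, b2, -⟩ := ExPoly1_c y
  have h0 : 0 ≤ Real.sin (ang x y) :=
    Real.sin_nonneg_of_nonneg_of_le_pi (Real.arccos_nonneg _) (Real.arccos_le_pi _)
  have h1 := cos_ang hx hy
  have h2 := Real.sin_sq_add_cos_sq (ang x y)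
  have e : 1 + x ^ 2 + y ^ 2 = (√(1 + x ^ 2) * √(1 + y ^ 2) * Real.sin (ang x y)) ^ 2 := by
    generalize √(1 + x ^ 2) = c at *
    generalize √(1 + y ^ 2) = d at *
    linear_combination (c * d * Real.cos (ang x y) + x * y) * h1 - c ^ 2 * d ^ 2 * h2 -
      d ^ 2 * a2 - (1 + x ^ 2) * b2
  rw [e, Real.sqrt_sq (by positivity)]

lemma ang_pos {x y : ℝ} (hx : 0 < x) (hy : 0 < y) : 0 < ang x y ∧ ang x y < Real.pi / 2 :=
  ⟨Real.arccos_pos.2 (ExPoly1_q hx hy).2, Real.arccos_lt_pi_div_two.2 (ExPoly1_q hx hy).1⟩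

lemma le_ang {x y : ℝ} (hx : 0 < x) (hy : 0 < y) : 1 / √(1 + x ^ 2) ≤ ang x y := by
  obtain ⟨a1, -, -⟩ := ExPoly1_c x
  obtain ⟨b1, -, -⟩ := ExPoly1_c y
  refine le_trans ?_ (Real.sin_le (ang_pos hx hy).1.le)
  have h1 : √(1 + y ^ 2) ≤ √(1 + x ^ 2 + y ^ 2) := Real.sqrt_le_sqrt (by nlinarith)
  rw [← sin_ang hx hy] at h1
  rw [div_le_iff₀ a1]
  refine le_of_mul_le_mul_left ?_ b1
  linarith

lemma ang_le {x y a : ℝ} (ha : 0 < a) (hx : a ≤ x) (hy : a ≤ y) : ang x y ≤ Real.pi / a := by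
  have hx0 := ha.trans_le hx
  have hy0 := ha.trans_le hy
  obtain ⟨a1, a2, a3⟩ := ExPoly1_c x
  obtain ⟨b1, b2, b3⟩ := ExPoly1_c y
  obtain ⟨p1, p2⟩ := ang_pos hx0 hy0
  have h1 : √(1 + x ^ 2 + y ^ 2) ≤ √(1 + x ^ 2) + √(1 + y ^ 2) :=
    Real.sqrt_le_iff.2 ⟨by positivity, by nlinarith [mul_pos a1 b1]⟩
  rw [← sin_ang hx0 hy0] at h1
  have h2 : a * Real.sin (ang x y) ≤ 2 := by
    refine le_of_mul_le_mul_left ?_ (mul_pos a1 b1)
    nlinarith [mul_le_mul_of_nonneg_left h1 ha.le, mul_le_mul_of_nonneg_left (hx.trans a3.le) b1.le,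
      mul_le_mul_of_nonneg_left (hy.trans b3.le) a1.le]
  have h3 := mul_le_mul_of_nonneg_left (Real.mul_le_sin p1.le p2.le) ha.le
  rw [le_div_iff₀ ha]
  have h4 : a * (2 / Real.pi * ang x y) = 2 * (ang x y * a / Real.pi) := by ring
  exact (div_le_one Real.pi_pos).1 (by linarith)

lemma ExPoly1_β {x : ℝ} (hx : 0 < x) : ∃ β, 0 ≤ β ∧ √(1 + x ^ 2) * Real.cos β = x ∧
    √(1 + x ^ 2) * Real.sin β = 1 ∧ ∀ z, 0 < z → β < ang x z := by
  obtain ⟨a1, a2, a3⟩ := ExPoly1_c x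
  have h1 : x / √(1 + x ^ 2) ≤ 1 := (div_le_one a1).2 a3.le
  have h2 : 0 < x / √(1 + x ^ 2) := div_pos hx a1
  have h3 : √(1 + x ^ 2) * Real.cos (Real.arccos (x / √(1 + x ^ 2))) = x := by
    rw [Real.cos_arccos (by linarith) h1, mul_div_cancel₀ _ a1.ne']
  refine ⟨_, Real.arccos_nonneg _, h3, ?_, fun z hz => ?_⟩
  · have h0 := Real.sin_nonneg_of_nonneg_of_le_pi (Real.arccos_nonneg (x / √(1 + x ^ 2)))
      (Real.arccos_le_pi _)
    have h4 := Real.sin_sq_add_cos_sq (Real.arccos (x / √(1 + x ^ 2)))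
    refine (pow_left_inj₀ (mul_nonneg a1.le h0) zero_le_one two_ne_zero).1 ?_
    generalize Real.arccos (x / √(1 + x ^ 2)) = β at *
    generalize √(1 + x ^ 2) = c at *
    linear_combination c ^ 2 * h4 - (c * Real.cos β + x) * h3 + a2
  · obtain ⟨b1, -, b3⟩ := ExPoly1_c z
    refine Real.arccos_lt_arccos (by linarith [(ExPoly1_q hx hz).1]) ?_ h1
    rw [mul_div_mul_comm]
    exact mul_lt_of_lt_one_right h2 ((div_lt_one b1).2 b3)

/-- Walls in directions that differ by at least two angles are disjoint. -/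
lemma far_nrm {x y x₁ y₁ x₂ y₂ θ η : ℝ} (hx : 0 < x) (hy : 0 < y) (h1 : 0 < x₁) (h2 : 0 < y₁)
    (h3 : 0 < x₂) (h4 : 0 < y₂) (e1 : ang x x₁ + ang y₁ y ≤ η - θ)
    (e2 : ang x x₂ + ang y₂ y ≤ 2 * Real.pi - (η - θ)) : B (nrm x θ) (nrm y η) < -1 := by
  obtain ⟨α, a0, a1, a2, a3⟩ := ExPoly1_β hx
  obtain ⟨β, b0, b1, b2, b3⟩ := ExPoly1_β hy
  have l1 := a3 _ h1
  have l2 := a3 _ h3
  have l3 := b3 _ h2
  have l4 := b3 _ h4
  rw [ang_comm] at l3 l4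
  have h : Real.cos (η - θ) < Real.cos (α + β) := by
    rcases le_total (η - θ) Real.pi with h | h
    · exact Real.cos_lt_cos_of_nonneg_of_le_pi (by linarith) h (by linarith)
    · rw [← Real.cos_two_pi_sub]
      exact Real.cos_lt_cos_of_nonneg_of_le_pi (by linarith) (by linarith) (by linarith)
  have h' := mul_lt_mul_of_pos_left h (mul_pos (ExPoly1_c x).1 (ExPoly1_c y).1)
  have e : √(1 + x ^ 2) * √(1 + y ^ 2) * Real.cos (α + β) = x * y - 1 := by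
    rw [Real.cos_add]
    generalize √(1 + x ^ 2) = c at *
    generalize √(1 + y ^ 2) = d at *
    linear_combination d * Real.cos β * a1 + x * b1 - d * Real.sin β * a2 - b2
  rw [B_nrm]
  linarith

/-- Close walls have close directions. -/
lemma near_nrm (κ D : ℝ) (hκ : 1 ≤ κ) : ∃ c : ℝ, ∀ x y θ η : ℝ, 1 ≤ x → x ≤ κ * y → y ≤ κ * x →
    0 ≤ η - θ → η - θ ≤ Real.pi → -B (nrm x θ) (nrm y η) ≤ D → (η - θ) * x ≤ c := by
  refine ⟨√(κ * (Real.pi ^ 2 / 2) * (D + 2 * κ)), fun x y θ η hx h1 h2 h3 h4 h5 => ?_⟩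
  have hy : 0 < y := (mul_pos_iff_of_pos_left (by linarith : 0 < κ)).1 (by linarith)
  obtain ⟨a1, a2, a3⟩ := ExPoly1_c x
  obtain ⟨b1, b2, b3⟩ := ExPoly1_c y
  have hc := Real.cos_le_one_sub_mul_cos_sq (x := η - θ) (by rwa [abs_of_nonneg h3])
  rw [B_nrm] at h5
  refine Real.le_sqrt_of_sq_le ?_
  generalize √(1 + x ^ 2) = c at *
  generalize √(1 + y ^ 2) = d at *
  generalize η - θ = Δ at *
  have hx0 : 0 < x := by linarith
  have e1 : x * x ≤ κ * y * x := mul_le_mul_of_nonneg_right h1 hx0.le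
  have e2 : y * y ≤ κ * x * y := mul_le_mul_of_nonneg_right h2 hy.le
  have e3 : 1 ≤ x * x := one_le_mul_of_one_le_of_one_le hx hx
  have e4 : c * d ≤ x * y + 2 * κ := by
    refine (pow_le_pow_iff_left₀ (by positivity) (by positivity) two_ne_zero).1 ?_
    rw [mul_pow, a2, b2]
    nlinarith [sq_nonneg κ]
  have e5 : c * d * (2 / Real.pi ^ 2 * Δ ^ 2) ≤ D + 2 * κ := by
    nlinarith [mul_le_mul_of_nonneg_left hc (mul_pos a1 b1).le]
  have e6 : x * x ≤ κ * (c * d) := by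
    nlinarith [mul_le_mul_of_nonneg_left (mul_lt_mul'' a3 b3 hx0.le hy.le).le (zero_le_one.trans hκ)]
  have hp := Real.pi_pos
  have e7 := mul_le_mul_of_nonneg_left e5 (by positivity : 0 ≤ κ * (Real.pi ^ 2 / 2))
  have e8 : κ * (Real.pi ^ 2 / 2) * (c * d * (2 / Real.pi ^ 2 * Δ ^ 2)) = κ * (c * d) * Δ ^ 2 := by
    field_simp
  nlinarith [mul_le_mul_of_nonneg_right e6 (sq_nonneg Δ)]

/-- Vectors in a sector. -/
lemma sect_nrm {x y θ η ξ : ℝ} (h1 : θ ≤ ξ) (h2 : ξ ≤ η) (h3 : θ < η) (h4 : η - θ < Real.pi)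
    (a r : ℝ) (hr : 0 ≤ r) : ∃ κ s s' : ℝ, 0 ≤ s ∧ 0 ≤ s' ∧
      a • o0 + r • dir ξ = κ • o0 - s • nrm x θ - s' • nrm y η := by
  have a1 := (ExPoly1_c x).1
  have b1 := (ExPoly1_c y).1
  have s0 : 0 < Real.sin (η - θ) := Real.sin_pos_of_pos_of_lt_pi (by linarith) h4
  have s1 : 0 ≤ Real.sin (η - ξ) :=
    Real.sin_nonneg_of_nonneg_of_le_pi (by linarith) (by linarith)
  have s2 : 0 ≤ Real.sin (ξ - θ) :=
    Real.sin_nonneg_of_nonneg_of_le_pi (by linarith) (by linarith)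
  have e1 : Real.sin (η - θ) * Real.cos ξ =
      Real.sin (η - ξ) * Real.cos θ + Real.sin (ξ - θ) * Real.cos η := by
    simp only [Real.sin_sub]
    ring
  have e2 : Real.sin (η - θ) * Real.sin ξ =
      Real.sin (η - ξ) * Real.sin θ + Real.sin (ξ - θ) * Real.sin η := by
    simp only [Real.sin_sub]
    ring
  obtain ⟨s, hs, es⟩ : ∃ s, 0 ≤ s ∧ Real.sin (η - θ) * (s * √(1 + x ^ 2)) = r * Real.sin (η - ξ) :=
    ⟨r * Real.sin (η - ξ) / (Real.sin (η - θ) * √(1 + x ^ 2)), by positivity, by field_simp⟩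
  obtain ⟨t, ht, et⟩ : ∃ s, 0 ≤ s ∧ Real.sin (η - θ) * (s * √(1 + y ^ 2)) = r * Real.sin (ξ - θ) :=
    ⟨r * Real.sin (ξ - θ) / (Real.sin (η - θ) * √(1 + y ^ 2)), by positivity, by field_simp⟩
  have f1 : r * Real.cos ξ = s * √(1 + x ^ 2) * Real.cos θ + t * √(1 + y ^ 2) * Real.cos η :=
    mul_left_cancel₀ s0.ne' (by linear_combination r * e1 - Real.cos θ * es - Real.cos η * et)
  have f2 : r * Real.sin ξ = s * √(1 + x ^ 2) * Real.sin θ + t * √(1 + y ^ 2) * Real.sin η :=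
    mul_left_cancel₀ s0.ne' (by linear_combination r * e2 - Real.sin θ * es - Real.sin η * et)
  refine ⟨a - s * x - t * y, s, t, hs, ht, ?_⟩
  ext <;> simp only [nrm, dir, o0, V.sub_a, V.sub_b, V.sub_c, V.smul_a, V.smul_b, V.smul_c,
    V.add_a, V.add_b, V.add_c]
  · linear_combination f1
  · linear_combination -f2
  · linear_combination -f2

lemma exists_dir (p : V) (θ : ℝ) : ∃ a r ξ : ℝ, 0 ≤ r ∧ θ ≤ ξ ∧ ξ ≤ θ + 2 * Real.pi ∧
    p = a • o0 + r • dir ξ := by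
  let z : ℂ := ⟨p.a, -(p.b + p.c) / 2⟩
  have h1 : ‖z‖ * Real.cos z.arg = p.a := Complex.norm_mul_cos_arg z
  have h2 : ‖z‖ * Real.sin z.arg = -(p.b + p.c) / 2 := Complex.norm_mul_sin_arg z
  obtain ⟨m1, m2⟩ := toIcoMod_mem_Ico Real.two_pi_pos θ z.arg
  refine ⟨(p.b - p.c) / 2, ‖z‖, _, norm_nonneg _, m1, m2.le, ?_⟩
  ext <;> simp only [dir, o0, V.smul_a, V.smul_b, V.smul_c, V.add_a, V.add_b, V.add_c, toIcoMod,
    zsmul_eq_mul, Real.cos_sub_int_mul_two_pi, Real.sin_sub_int_mul_two_pi]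
  · linear_combination -h1
  · linear_combination h2
  · linear_combination h2

end

end Pool.Agent.P.MP_d39174_gt
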