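import Pool.Agent.P.MP_d39174_gt.Shear1
import Pool.Agent.P.MP_d39174_gt.Pot

/-! The cocycle of a shear and twist deformation. -/

namespace Pool.Agent.P.MP_d39174_gt

open UpperHalfPlane MatrixGroups

noncomputable section

namespace Tr

variable {Γ : Subgroup SL(2, ℝ)} {T : Tr Γ}

/-- The far end of the wall along the path. -/
private def shS (ξ : T.D → ℝ) (d : T.D) (t : ℝ) : ℝ := sig T.φ (pth D.x ξ t) d d.f

private def shD (ξ : T.D → ℝ) (d : T.D) : ℝ := deriv (shS ξ d) 0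

private lemma sh_Pr_ne (d : T.D) : Pr T.φ D.x d d.f ≠ 1 := by
  obtain ⟨t, ht⟩ := T.nice.exists_prim (T.ws.per _ d.a_mem)
  rw [Pr_f d ht]
  exact (Real.exp_lt_one_iff.2 (by linarith [ht.pos])).ne

private lemma shS_zero (ξ : T.D → ℝ) (d : T.D) : shS ξ d 0 = d.s := by
  rw [shS, pth_zero, s_eq_sig]

private lemma shS_deriv (ξ : T.D → ℝ) (d : T.D) : HasDerivAt (shS ξ d) (shD ξ d) 0 :=
  (differentiableAt_sig T.φ D.x_pos ξ (sh_Pr_ne d)).hasDerivAt

private lemma pth_smul {ξ : T.D → ℝ} (h2 : ∀ (g : Γ) d, ξ (g • d) = ξ d) (t : ℝ) (g : Γ)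
    (d : T.D) : pth D.x ξ t (g • d) = pth D.x ξ t d := by
  simp only [pth, x_smul, h2]

private lemma shD_smul {ξ : T.D → ℝ} (h2 : ∀ (g : Γ) d, ξ (g • d) = ξ d) (g : Γ) (d : T.D) :
    shD ξ (g • d) = shD ξ d := by
  have h : shS ξ (g • d) = shS ξ d := by
    funext t
    simp only [shS, sig, Pr, f_smul, φ_pow_smul, pth_smul h2]
  rw [shD, h, shD]

private lemma shD_rec {ξ : T.D → ℝ} (h2 : ∀ (g : Γ) d, ξ (g • d) = ξ d) (d : T.D) :
    shD ξ d = (T.φ d).x ^ 2 * shD ξ (T.φ d) +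
      2 * ξ (T.φ d) * (T.φ d).x ^ 2 * (T.φ d).s := by
  obtain ⟨t₀, ht⟩ := T.nice.exists_prim (T.ws.per _ d.a_mem)
  have hm : ex (-t₀) d.a ∈ Γ := by rw [ex_neg]; exact inv_mem ht.mem
  have hf := d.f_spec ht (γ := ⟨_, hm⟩) (PM.refl _)
  have hc : ContinuousAt (fun t : ℝ => Pr T.φ (pth D.x ξ t) d d.f) 0 := by
    simp only [Pr_pth]
    fun_prop
  have hne : ∀ᶠ t in nhds (0 : ℝ), Pr T.φ (pth D.x ξ t) d d.f ≠ 1 :=
    hc.eventually_ne (by rw [pth_zero]; exact sh_Pr_ne d)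
  have he : shS ξ d =ᶠ[nhds 0] fun t =>
      1 + ((T.φ d).x * Real.exp (t * ξ (T.φ d))) ^ 2 * shS ξ (T.φ d) t := by
    filter_upwards [hne] with t h
    rw [shS, shS, f_eq (φ_a d)]
    refine sig_rec T.φ (fun e => mul_pos e.x_pos (Real.exp_pos _)) h ?_
    rw [pow_succ', Equiv.Perm.mul_apply, hf, φ_smul, x_smul, h2]
  have h1 : HasDerivAt (fun t : ℝ => (T.φ d).x * Real.exp (t * ξ (T.φ d)))
      ((T.φ d).x * ξ (T.φ d)) 0 := by
    have := (((hasDerivAt_id (0 : ℝ)).mul_const (ξ (T.φ d))).exp).const_mul (T.φ d).x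
    simpa using this
  have h3 := (((h1.pow 2).mul (shS_deriv ξ (T.φ d))).const_add 1).congr_of_eventuallyEq he
  rw [(shS_deriv ξ d).unique h3, shS_zero]
  simp only [Pi.pow_apply, zero_mul, Real.exp_zero, mul_one]
  push_cast
  ring

private lemma G_smul (g : Γ) (d : T.D) : PM ((g : SL(2, ℝ)) * d.G) (g • d).G := by
  rw [D.G, D.G, s_smul, ← mul_assoc]
  exact (F_smul g d).mul (PM.refl _)

private lemma G_E0 (d : T.D) : d.G • E0 = d.F • E0 := by rw [D.G, mul_smul, Um_E0]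

private lemma F_w0 (d : T.D) : d.F • w0 = d.a + (2 * d.s) • d.G • E0 := by
  rw [← G_w0 d, G_E0, D.G, mul_smul, Um_w0, smul_sub, ad_real, sub_add_cancel]

private def shJ (ξ : T.D → ℝ) (d : T.D) : V := -ξ d • d.F • w0

private def shK (ξ : T.D → ℝ) (η : T.D → T.D → ℝ) (d d' : T.D) : V :=
  shD ξ d • d.G • E0 - η d d' • d.a - shD ξ d' • d'.G • E0

private lemma shJ_ι {ξ : T.D → ℝ} (h1 : ∀ d, ξ (T.ι d) = ξ d) (d : T.D) :
    shJ ξ (T.ι d) = -shJ ξ d := by
  rw [shJ, shJ, h1, ← (F_ι d).ad, mul_smul, Sm_w0 d.x_pos.ne', smul_neg, smul_neg]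

/-- One step of the itinerary: the logarithmic derivative of the step matrix. -/
private lemma sh_step {ξ : T.D → ℝ} {η : T.D → T.D → ℝ} (h1 : ∀ d, ξ (T.ι d) = ξ d)
    {Φ : T.D → V} (p1 : ∀ d, Φ (T.ν d) = Φ d) (p2 : ∀ d, Φ (T.ι d) = Φ d + shJ ξ d)
    (p3 : ∀ d d', d'.a = -d.a → Φ d' = Φ d + shK ξ η d d') {w : V} (hw : Per Γ w) {d : T.D}
    (h : Str w d) :
    ∃ X : V, (∀ i j, HasDerivAt (fun t => smat (pth D.x ξ t) (fun e => shS ξ e t)
        (fun e e' => yy e e' * Real.exp (t * η e e')) w d i j)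
        ((X.mat * smat D.x D.s yy w d) i j) 0) ∧ Φ (τ w d) = Φ d + d.F • X := by
  by_cases k0 : kind w d = 0
  · refine ⟨ξ (T.φ d) • (Nm * Nm * Sm (T.φ d).x) • w0, fun i j => ?_, ?_⟩
    · simp only [smat, if_pos k0]
      exact hasDerivAt_mA (T.φ d).x_pos _ i j
    · have e := shJ_ι h1 (T.ν (T.ν d))
      rw [← φ_apply] at e
      rw [τ, if_pos k0, ad_real, ← mul_smul, (F_φ d).ad, φ_apply, p2, p1, p1, ← φ_apply,
        ← neg_eq_iff_eq_neg.2 e, shJ, _root_.neg_smul, neg_neg]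
  by_cases k1 : kind w d = 1
  · refine ⟨ξ (T.ψ d) • (-(Nm * Sm (T.ψ d).x)) • w0, fun i j => ?_, ?_⟩
    · simp only [smat, if_neg k0, if_pos k1]
      exact hasDerivAt_mB (T.ψ d).x_pos _ i j
    · have e := shJ_ι h1 (T.ν d)
      rw [← ψ_apply] at e
      rw [τ, if_neg k0, if_pos k1, ad_real, ← mul_smul, (F_ψ d).ad, ψ_apply, p2, p1, ← ψ_apply,
        ← neg_eq_iff_eq_neg.2 e, shJ, _root_.neg_smul, neg_neg]
  have k2 : kind w d = 2 := by
    generalize kind w d = k at k0 k1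
    revert k
    decide
  obtain ⟨a1, a2, a3, a4⟩ := kind_two h k2
  have ho : (T.ι (jmp w d)).a = -d.a := (jmp_spec hw a1 a2.1 a3).1
  set d' := T.ι (jmp w d) with hd'
  refine ⟨shD ξ d • E0 - η d d' • Um d.s • w0 - shD ξ d' • (Um d.s * Sm (yy d d')) • E0 -
    ξ d' • (Um d.s * Sm (yy d d') * Um (-d'.s)) • w0, fun i j => ?_, ?_⟩
  · simp only [smat, if_neg k0, if_neg k1]
    have := hasDerivAt_mJ (shS_deriv ξ d) (shS_deriv ξ d') d'.x_pos (yy_pos d d') (ξ d')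
      (η d d') i j
    rw [shS_zero, shS_zero] at this
    exact this
  · have e : jmp w d = T.ι d' := rfl
    have e1 : d.F • Um d.s • w0 = d.a := by rw [← mul_smul]; exact G_w0 d
    have e2 : d.F • (Um d.s * Sm (yy d d')) • E0 = d'.G • E0 := by
      rw [← mul_smul, ← mul_assoc]; exact (G_opp ho).ad E0
    have e3 : d.F • (Um d.s * Sm (yy d d') * Um (-d'.s)) • w0 = d'.F • w0 := by
      rw [← mul_smul, ← mul_assoc, ← mul_assoc]; exact (F_opp ho).ad w0
    rw [a4, e, p2, p3 d d' ho, smul_sub, smul_sub, smul_sub, ad_real, ad_real, ad_real, ad_real,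
      e1, e2, e3, shK, shJ, G_E0 d, _root_.neg_smul]
    abel

theorem shear_coc (ξ : T.D → ℝ) (η : T.D → T.D → ℝ) (h1 : ∀ d, ξ (T.ι d) = ξ d)
    (h2 : ∀ (g : Γ) d, ξ (g • d) = ξ d)
    (h3 : ∀ (g : Γ) d d', d'.a = -d.a → η (g • d) (g • d') = η d d')
    (h4 : ∀ d d', d'.a = -d.a → η d' d = η d d')
    (h5 : ∀ d d', d'.a = -d.a → η (T.φ d) d' = η d d' + ξ (T.φ d)) :
    ∃ u, Coc Γ u ∧ ∀ (w : V) (d : T.D) (l : ℝ) (γ : Γ) (p : ℕ), Per Γ w → Str w d →
      PM (ex l w) γ → (τ w)^[p] d = γ • d →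
      deriv (fun t => (mprod (fun m => smat (pth D.x ξ t)
        (fun e => sig T.φ (pth D.x ξ t) e e.f) (fun e e' => yy e e' * Real.exp (t * η e e')) w
          ((τ w)^[m] d)) p).trace) 0 = 2 * Real.sinh l * B (u (ex l w)) w := by
  obtain ⟨Φ, u, hu, p1, p2, p3, p4⟩ := pot_coc (shJ ξ) (shK ξ η) (shJ_ι h1)
    (fun d d' h => by
      rw [shK, shK, h4 d d' h, h, smul_neg]
      abel)
    (fun d d' h => by
      rw [shK, shK, shJ, h5 d d' h, F_w0, G_φ_E0, φ_a, shD_rec h2 d]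
      generalize d.G • E0 = Y
      generalize d'.G • E0 = Z
      module)
    (fun g d => by
      rw [shJ, shJ, h2, ← (F_smul g d).ad, mul_smul, ad_real])
    (fun g d d' h => by
      rw [shK, shK, shD_smul h2, shD_smul h2, h3 g d d' h, ← (G_smul g d).ad, ← (G_smul g d').ad,
        mul_smul, mul_smul, smul_a, smul_sub, smul_sub, ad_real, ad_real, ad_real])
  refine ⟨u, hu, fun w d l γ p hw hd e hp => ?_⟩
  have hs : ∀ m, Str w ((τ w)^[m] d) := fun m => by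
    induction m with
    | zero => exact hd
    | succ m ih => rw [Function.iterate_succ_apply']; exact τ_str hw ih
  choose g g1 g2 using fun m => F_step hw (hs m)
  choose X X1 X2 using fun m => sh_step (η := η) h1 p1 p2 p3 hw (hs m)
  have hA : ∀ m, smat (pth D.x ξ 0) (fun e => shS ξ e 0)
      (fun e e' => yy e e' * Real.exp (0 * η e e')) w ((τ w)^[m] d) =
      smat D.x D.s yy w ((τ w)^[m] d) := fun m => by
    simp only [pth_zero, shS_zero, zero_mul, Real.exp_zero, mul_one]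
  obtain ⟨G, G1, G2, G3⟩ := hasDerivAt_mprod
    (A := fun m t => smat (pth D.x ξ t) (fun e => shS ξ e t)
      (fun e e' => yy e e' * Real.exp (t * η e e')) w ((τ w)^[m] d))
    (F := fun m => ((τ w)^[m] d).F) (g := g) (X := X) (Φ := fun m => Φ ((τ w)^[m] d))
    (fun m => by rw [hA, g1])
    (fun m => by rw [Function.iterate_succ_apply']; exact g2 m)
    (fun m i j => by rw [hA]; exact X1 m i j)
    (fun m => by rw [Function.iterate_succ_apply']; exact X2 m) p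
  simp only [hA, Function.iterate_zero_apply, hp] at G1 G2 G3
  have t1 : tr G = 2 * Real.cosh l := by rw [tr_eq, G1, trace_word hw hd e hp]
  have q1 : PM (ex l w) (d.F * G * d.F⁻¹) := by
    have := ((G2.trans (F_smul γ d).symm).mul (PM.refl d.F⁻¹)).symm
    rw [mul_inv_cancel_right] at this
    exact e.trans this
  have q2 : d.F * G * d.F⁻¹ = ex l w := by
    rcases q1 with q | q
    · exact q
    · have := tr_conj d.F G
      rw [q, tr_neg, tr_ex hw.1, t1] at this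
      linarith [Real.cosh_pos l]
  have hm : ex l w ∈ Γ := e.symm.mem T.nice.neg_one_mem γ.2
  rw [q2, trace_mat_mul_ex hw.1, p4, Coc.pm T.nice.neg_one_mem hu hm e, ← e.ad, B_sub_left,
    B_add_left, B_ex_ad, add_sub_cancel_right] at G3
  exact G3.deriv

end Tr

end

end Pool.Agent.P.MP_d39174_gt
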