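import Pool.Agent.P.MP_d39174_gt.Lift2
import Pool.Agent.P.MP_d39174_gt.Shear

/-! The quotient type is realised as a critical point. -/

namespace Pool.Agent.P.MP_d39174_gt

open UpperHalfPlane MatrixGroups

noncomputable section

namespace Tr.Lift

variable {Γ : Subgroup SL(2, ℝ)} {T : Tr Γ} {l : ℝ} {Bs : T.Base} {m₀ : ℕ} {D S : Type}
  [Fintype S] {M : Mdl D S} {π : T.D → D} {ϖ : V → T.D → S} {x y : D → ℝ}

omit [Fintype S] in
private lemma Lift3_Pr (L : Lift l Bs m₀ M π ϖ x y) (s : Sys Γ l) (sub : T.A ⊆ SS Γ l) (d : D) :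
    Pr M.φ x d (M.per d) = Real.exp (-l) := by
  obtain ⟨e, rfl⟩ := L.surj d
  have hx : x ∘ π = Tr.D.x := funext L.x_eq
  rw [L.per_eq, L.Pr_eq, hx]
  exact Pr_f e (s.prim T.nice (sub e.a_mem))

private lemma Lift3_str {n : V} (hn : Per Γ n) : ∃ d : T.D, Str n d := by
  by_cases h : n ∈ T.A
  · obtain ⟨b, hb⟩ := T.has (-n) (T.ws.neg n h)
    exact ⟨⟨(-n, b), hb⟩, Or.inr (neg_neg n).symm⟩
  · obtain ⟨d, hd⟩ := exists_stn hn h
    exact ⟨d, Or.inl ⟨h, hd⟩⟩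

omit [Fintype S] in
private lemma Lift3_twist (L : Lift l Bs m₀ M π ϖ x y) (ξ η : D → ℝ) (μ : ℝ)
    (hη : ∀ d, η (M.κ d) = η d)
    (hμ : ∀ d, ∑ m ∈ Finset.range (M.per d), ξ ((M.φ ^ (m + 1)) d) = μ) :
    ∃ K : T.D → T.D → ℝ, (∀ p ∈ Bs.S, K p.1 p.2 = η (π p.1)) ∧
      (∀ (g : Γ) d d', d'.a = -d.a → K (g • d) (g • d') = K d d') ∧
      (∀ d d', d'.a = -d.a → K d' d = K d d') ∧
      ∀ d d', d'.a = -d.a → K (T.φ d) d' = K d d' + ξ (π (T.φ d)) := by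
  have hs : ∀ d : T.D, ∑ m ∈ Finset.range d.f, ξ (π ((T.φ ^ (m + 1)) d)) = μ := by
    intro d
    have h := hμ (π d)
    rw [L.per_eq] at h
    simpa only [L.φ_pow] using h
  obtain ⟨K, h1, h2, h3, h4⟩ := exK (M := ℝ) Bs (fun _ => LinearMap.id) 1 (one_mul 1)
    (fun d => ξ (π d)) (fun g d => by simp only [L.π_smul, LinearMap.id_apply])
    (fun β _ => η (π β)) (fun g p _ => by simp only [L.π_smul, LinearMap.id_apply])
    (fun p hp => by simp only [one_smul]; rw [← L.κ_base p hp, hη])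
    (fun p _ γ _ => by
      have e := hs (γ • p.2)
      rw [f_smul] at e
      simp only [one_smul]
      rw [e, hs, L.π_smul]
      ring)
  exact ⟨K, h1, fun g d d' h => by simpa only [LinearMap.id_apply] using h2 g d d' h,
    fun d d' h => by simpa only [one_smul] using h3 d d' h, h4⟩

theorem real (L : Lift l Bs m₀ M π ϖ x y) (s : Sys Γ l) (c : CritV Γ l) (sub : T.A ⊆ SS Γ l)
    (hj : ∀ a ∈ T.A, ∃ w ∈ SS Γ l, ∃ d : T.D, d.a = a ∧ Str w d ∧ kind w d = 2) :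
    M.Real x y (2 * Real.cosh l) := by
  have per : ∀ {w : V}, w ∈ SS Γ l → Per Γ w := fun hw => ⟨hw.1, l, s.pos, hw.2⟩
  refine ⟨fun d => ?_, L.y_pos, fun d => ?_, L.y_κ, fun d => ?_, fun d => ?_, fun σ _ => ?_, ?_,
    fun σ _ => ?_, fun β hβ => ?_, L.base_ex⟩
  · obtain ⟨e, rfl⟩ := L.surj d
    rw [L.x_eq]
    exact e.x_pos
  · obtain ⟨e, rfl⟩ := L.surj d
    rw [L.ι_eq, L.x_eq, L.x_eq, x_ι]
  · rw [Lift3_Pr L s sub]
    exact Real.exp_lt_one_iff.2 (neg_lt_zero.2 s.pos)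
  · rw [Lift3_Pr L s sub, Real.cosh_eq, one_div, ← Real.exp_neg, neg_neg]
    ring
  · obtain ⟨w, hw, d, h, rfl⟩ := L.ϖ_surj σ
    have e : (fun m => M.mat x y (M.nx^[m] (ϖ w d))) =
        fun m => smat Tr.D.x Tr.D.s yy w ((τ w)^[m] d) := by
      funext m
      obtain ⟨h1, h2⟩ := L.nx_iter s.pos hw h m
      rw [h1, L.mat_eq' hw h2]
    unfold Mdl.trW
    rw [e]
    exact trace_word (per hw) h (γ := ⟨ex l w, hw.2⟩) (PM.refl _) (L.period s hw h).2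
  · choose w hw d hd e using L.ϖ_surj
    obtain ⟨k, hk, hsum⟩ := c.redistribute w hw (fun n hn => by
      obtain ⟨d0, h0⟩ := Lift3_str (T := T) (per hn)
      obtain ⟨g, hg, -⟩ := (L.ϖ_eq _ (hw (ϖ n d0)) _ (hd (ϖ n d0)) n hn d0 h0).1 (e _)
      exact ⟨ϖ n d0, g, g.2, Or.inl hg⟩)
    refine ⟨k, fun σ _ => hk σ, fun ξ η μ hξ hη hμ => ?_⟩
    obtain ⟨K, h1, h2, h3, h4⟩ := Lift3_twist L ξ η μ hη hμ
    obtain ⟨u, hu, hder⟩ := shear_coc (ξ ∘ π) K
      (fun d => by simp only [Function.comp_apply]; rw [← L.ι_eq, hξ])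
      (fun g d => by simp only [Function.comp_apply, L.π_smul]) h2 h3 h4
    have key : ∀ σ, deriv (fun t => M.trW (pth x ξ t) (pth y η t) σ) 0 =
        2 * Real.sinh l * B (u (ex l (w σ))) (w σ) := by
      intro σ
      rw [← hder (w σ) (d σ) l ⟨ex l (w σ), (hw σ).2⟩ _ (per (hw σ)) (hd σ) (PM.refl _)
        (L.period s (hw σ) (hd σ)).2]
      congr 1
      funext t
      unfold Mdl.trW
      rw [e σ]
      congr 2
      funext m
      obtain ⟨a1, a2⟩ := L.nx_iter s.pos (hw σ) (hd σ) m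
      rw [e σ] at a1
      rw [a1, L.mat_eq (hw σ) a2 ξ η K h1 h3 h4 t]
    have hf : (Finset.univ.filter fun σ => M.on σ = true) = Finset.univ :=
      Finset.filter_true_of_mem fun σ _ => L.on_all σ
    rw [hf]
    calc ∑ σ, k σ * deriv (fun t => M.trW (pth x ξ t) (pth y η t) σ) 0
        = 2 * Real.sinh l * ∑ σ, k σ * B (u (ex l (w σ))) (w σ) := by
          rw [Finset.mul_sum]
          exact Finset.sum_congr rfl fun σ _ => by rw [key]; ring
      _ = 0 := by rw [hsum u hu, mul_zero]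
  · obtain ⟨w, hw, d, h, rfl⟩ := L.ϖ_surj σ
    exact (L.period s hw h).1
  · obtain ⟨b, rfl⟩ := L.surj β
    obtain ⟨b', hb⟩ := (L.κ_ne_iff b).1 hβ
    obtain ⟨w, hw, d, hda, h, hk⟩ := hj b.a b.a_mem
    obtain ⟨p, hp, -, -, e, e'⟩ := L.jump w hw d h hk
    refine ⟨ϖ w d, L.on_all _, by rw [L.kd_eq w hw d h, hk], ?_⟩
    have ha : p.1.a = b.a := by rw [← hda, e, φ_pow_a]
    obtain ⟨g, hg⟩ := Bs.uniq p hp (b, b') hb ha
    have hb1 : b = g • p.1 := congrArg Prod.fst hg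
    rw [(L.base_eq hw h hp e e').1, hb1, L.π_smul]

end Tr.Lift

end

end Pool.Agent.P.MP_d39174_gt
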