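import Pool.Agent.P.MP_d39174_gt.Lift2

/-! The quotient type satisfies the counting constraints. -/

namespace Pool.Agent.P.MP_d39174_gt

open UpperHalfPlane MatrixGroups

noncomputable section

namespace Tr.Lift

variable {Γ : Subgroup SL(2, ℝ)} {T : Tr Γ} {l : ℝ} {Bs : T.Base} {m₀ : ℕ} {D S : Type}
  [Fintype D] [Fintype S] {M : Mdl D S} {π : T.D → D} {ϖ : V → T.D → S} {x y : D → ℝ}

private lemma pm_pow {g h : SL(2, ℝ)} (e : PM g h) (k : ℕ) : PM (g ^ k) (h ^ k) := by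
  induction k with
  | zero => rw [pow_zero, pow_zero]; exact PM.refl 1
  | succ k ih => rw [pow_succ, pow_succ]; exact ih.mul e

private lemma fix_of_pow {g : Γ} {d : T.D} {k : ℕ} (hk : 0 < k) (h : g ^ k • d = d) :
    g • d = d := by
  have h1 : PM 1 ((g ^ k : Γ) : SL(2, ℝ)) := pm_of_smul_eq h
  have h2 : PM 1 (g : SL(2, ℝ)) := by
    by_contra h2
    obtain ⟨n, t, hn, ht, e, -⟩ := T.nice.exists_ex g.2 h2
    have h3 := pm_pow e k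
    rw [ex_pow] at h3
    rw [Subgroup.coe_pow, ← ex_zero n] at h1
    have h4 := ex_pm_inj hn (h3.trans h1.symm)
    have h5 : (0 : ℝ) < k := Nat.cast_pos.2 hk
    exact (mul_pos h5 ht).ne' h4
  have h3 := smul_of_pm (g := 1) (h := g) h2 d
  rw [one_smul] at h3
  exact h3.symm

private lemma ι_not_orbit (g : Γ) (d : T.D) : T.ι d ≠ g • d := by
  intro e
  have h1 : g ^ 2 • d = d := by
    rw [pow_two, mul_smul, ← e, ← ι_smul, ← e, ι_ι]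
  rw [fix_of_pow two_pos h1] at e
  exact d.a_ne_b (congrArg Tr.D.a e).symm

private lemma ν_not_orbit (g : Γ) (d : T.D) : T.ν d ≠ g • d := by
  intro e
  have h1 : g ^ 3 • d = d := by
    rw [pow_three, mul_smul, mul_smul, ← e, ← ν_smul, ← e, ← ν_smul, ← ν_smul, ← e, ν_ν_ν]
  rw [fix_of_pow three_pos h1] at e
  exact d.a_ne_b (congrArg Tr.D.a e).symm

private lemma card_le_of_sub {X Y : Type} {A : Finset Y} {U : Set X} (hU : U.Finite) (f : X → Y)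
    {n : ℕ} (hn : U.ncard ≤ n) (h : ∀ a ∈ A, ∃ u ∈ U, f u = a) : A.card ≤ n := by
  rw [← Set.ncard_coe_finset]
  exact ((Set.ncard_le_ncard (fun a ha => h a ha) (hU.image f)).trans
    (Set.ncard_image_le hU)).trans hn

theorem shape (L : Lift l Bs m₀ M π ϖ x y) (hl : 0 < l) {D₀ : ℕ}
    (conn : ∀ U : Set T.D, (∀ g : Γ, ∀ d ∈ U, g • d ∈ U) → (∀ d ∈ U, T.ι d ∈ U) →
      (∀ d ∈ U, T.ν d ∈ U) → U.Nonempty → U = Set.univ)
    (b1 : ∀ d : T.D, {w | w ∈ SS Γ l ∧ Str w d}.Finite ∧ {w | w ∈ SS Γ l ∧ Str w d}.ncard ≤ D₀)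
    (b2 : ∀ β : T.D, {q : V × ℕ | q.1 ∈ SS Γ l ∧ q.2 ≤ β.f ∧ Str q.1 ((T.φ ^ q.2) β) ∧
        kind q.1 ((T.φ ^ q.2) β) = 2}.Finite ∧
      {q : V × ℕ | q.1 ∈ SS Γ l ∧ q.2 ≤ β.f ∧ Str q.1 ((T.φ ^ q.2) β) ∧
        kind q.1 ((T.φ ^ q.2) β) = 2}.ncard ≤ D₀) :
    ∃ k, M.Shape k m₀ D₀ ∧ ∃ F : Finset V, F.card ≤ 2 * k ∧ (∀ m ∈ F, m ∈ T.A) ∧
      ∀ a ∈ T.A, ∃ g ∈ Γ, ∃ m ∈ F, a = g • m := by
  classical
  have hκ : M.κ ^ 2 = 1 := by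
    ext d
    rw [pow_two, Equiv.Perm.mul_apply, L.κ_κ, Equiv.Perm.one_apply]
  obtain ⟨k, hk⟩ := Equiv.Perm.two_dvd_card_support hκ
  obtain ⟨σ, hσ⟩ := L.surj.hasRightInverse
  refine ⟨k, ⟨?_, ?_, ?_, ?_, ?_, L.κ_κ, ?_, L.base_ex, fun β β' h h' e => L.base_uniq h h' e, ?_,
    ?_, fun s _ h => L.off s h, ?_, ?_, ?_⟩, M.κ.support.image (fun q => (σ q).a), ?_, ?_, ?_⟩
  · exact ⟨π (Classical.arbitrary T.D)⟩
  · intro q
    obtain ⟨d, rfl⟩ := L.surj q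
    rw [L.ι_eq, L.ι_eq, ι_ι]
  · intro q e
    obtain ⟨d, rfl⟩ := L.surj q
    rw [L.ι_eq] at e
    obtain ⟨g, hg⟩ := (L.π_eq _ _).1 e.symm
    exact ι_not_orbit g d hg
  · intro q
    obtain ⟨d, rfl⟩ := L.surj q
    rw [L.ν_eq, L.ν_eq, L.ν_eq, ν_ν_ν]
  · intro q e
    obtain ⟨d, rfl⟩ := L.surj q
    rw [L.ν_eq] at e
    obtain ⟨g, hg⟩ := (L.π_eq _ _).1 e.symm
    exact ν_not_orbit g d hg
  · intro U h1 h2 ⟨q, hq⟩
    have h := conn (π ⁻¹' U) (fun g d hd => by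
        rw [Set.mem_preimage, L.π_smul]; exact hd)
      (fun d hd => by rw [Set.mem_preimage, ← L.ι_eq]; exact h1 _ hd)
      (fun d hd => by rw [Set.mem_preimage, ← L.ν_eq]; exact h2 _ hd)
      ⟨σ q, by rw [Set.mem_preimage, hσ q]; exact hq⟩
    refine Set.eq_univ_of_forall fun r => ?_
    have h3 : σ r ∈ π ⁻¹' U := by rw [h]; exact Set.mem_univ _
    rwa [Set.mem_preimage, hσ r] at h3
  · rw [← hk]
    congr 1
  · intro s _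
    obtain ⟨w, hw, d, hd, rfl⟩ := L.ϖ_surj s
    refine ⟨L.on_all _, ?_⟩
    rw [L.nx_eq w hw d hd, L.bs_eq w hw _ (τ_str (SS.per hl hw) hd), L.step_eq hw hd]
  · intro s _ h2
    obtain ⟨w, hw, d, hd, rfl⟩ := L.ϖ_surj s
    rw [L.kd_eq w hw d hd] at h2
    obtain ⟨p, hp, h3, h4, h5, h6⟩ := L.jump w hw d hd h2
    obtain ⟨e1, e2, -⟩ := L.base_eq hw hd hp h5 h6
    refine ⟨?_, ?_, ?_⟩
    · rw [e1]
      exact (L.κ_ne_iff _).2 ⟨p.2, hp⟩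
    · rw [e1, L.per_eq]
      exact h3.le
    · rw [e2, L.per_eq]
      exact h4
  · intro q
    refine card_le_of_sub (b1 (σ q)).1 (fun w => ϖ w (σ q)) (b1 (σ q)).2 fun s hs => ?_
    obtain ⟨w, hw, d, hd, rfl⟩ := L.ϖ_surj s
    have h1 := (Finset.mem_filter.1 hs).2.2
    rw [L.bs_eq w hw d hd, ← hσ q] at h1
    obtain ⟨g, hg⟩ := (L.π_eq _ _).1 h1
    have h2 : Str ((g : SL(2, ℝ)) • w) (σ q) := by
      rw [hg]; exact (str_smul hw.1 g d).2 hd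
    exact ⟨_, ⟨SS.ad hw g.2, h2⟩, ((L.ϖ_eq w hw d hd _ (SS.ad hw g.2) _ h2).2 ⟨g, rfl, hg⟩).symm⟩
  · intro q
    refine card_le_of_sub (b2 (σ q)).1 (fun r => ϖ r.1 ((T.φ ^ r.2) (σ q))) (b2 (σ q)).2
      fun s hs => ?_
    obtain ⟨w, hw, d, hd, rfl⟩ := L.ϖ_surj s
    obtain ⟨-, h2, h1⟩ := (Finset.mem_filter.1 hs).2
    rw [L.kd_eq w hw d hd] at h2
    obtain ⟨p, hp, h3, -, h5, h6⟩ := L.jump w hw d hd h2
    rw [(L.base_eq hw hd hp h5 h6).1, ← hσ q] at h1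
    obtain ⟨g, hg⟩ := (L.π_eq _ _).1 h1
    have h7 : (T.φ ^ M.oi (ϖ w d)) (σ q) = g • d := by
      rw [hg, φ_pow_smul, ← h5]
    have h8 : Str ((g : SL(2, ℝ)) • w) (g • d) := (str_smul hw.1 g d).2 hd
    refine ⟨((g : SL(2, ℝ)) • w, M.oi (ϖ w d)), ⟨SS.ad hw g.2, ?_, ?_, ?_⟩, ?_⟩
    · rw [hg, f_smul]
      exact h3.le
    · dsimp only
      rw [h7]
      exact h8
    · dsimp only
      rw [h7, kind_smul hw.1, h2]
    · dsimp only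
      rw [h7]
      exact ((L.ϖ_eq w hw d hd _ (SS.ad hw g.2) _ h8).2 ⟨g, rfl, rfl⟩).symm
  · rw [← hk]
    exact Finset.card_image_le
  · intro m hm
    obtain ⟨q, -, rfl⟩ := Finset.mem_image.1 hm
    exact (σ q).a_mem
  · intro a ha
    obtain ⟨p, hp, rfl⟩ := Bs.ex a ha
    obtain ⟨g, hg⟩ := (L.π_eq _ _).1 (hσ (π p.1))
    refine ⟨g, g.2, (σ (π p.1)).a, Finset.mem_image.2 ⟨π p.1, ?_, rfl⟩, ?_⟩
    · exact Equiv.Perm.mem_support.2 ((L.κ_ne_iff _).2 ⟨p.2, hp⟩)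
    · exact congrArg Tr.D.a hg

end Tr.Lift

end

end Pool.Agent.P.MP_d39174_gt
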