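import Pool.Agent.P.MP_d39174_gt.Lift1
import Pool.Agent.P.MP_d39174_gt.Lift3
import Pool.Agent.P.MP_d39174_gt.Lift4
import Pool.Agent.P.MP_d39174_gt.Bounds3
import Pool.Agent.P.MP_d39174_gt.Fill
import Pool.Agent.P.MP_d39174_gt.Betti
import Pool.Agent.P.MP_d39174_gt.Canon2
import Pool.Agent.P.MP_d39174_gt.Bridge

/-! Every critical point with bounded systole has a canonical type. -/

namespace Pool.Agent.P.MP_d39174_gt

open UpperHalfPlane MatrixGroups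

noncomputable section

theorem exists_type (C : ℝ) : ∃ D₀ m₀ c : ℕ, ∀ (g : ℕ) (Γ : Subgroup SL(2, ℝ)),
    IsSurfaceGroup g Γ → IsCritical Γ → sys Γ < C →
    ∃ (n r k : ℕ) (M : Mdl (Fin n) (Fin n × Fin D₀)) (x y : Fin n → ℝ) (T : ℝ),
      0 < n ∧ n ≤ 12 * g ∧ g ≤ c * k ∧ 6 * r + 12 * k = n + 12 ∧
      M ∈ Canon n D₀ r k (D₀ * (m₀ + 1) * n) ∧ M.Real x y T ∧ M.Gen Γ x y := by
  obtain ⟨M₁, hM₁⟩ := Tr.str_bound C
  obtain ⟨m₀, M₂, hM₂⟩ := Tr.jump_bound C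
  obtain ⟨c, hc⟩ := betti_le C
  refine ⟨max M₁ M₂, m₀, c, fun g Γ hg hcr hC => ?_⟩
  have h := hg.nice
  obtain ⟨l, s⟩ := h.exists_sys
  have cv := (isCritical_iff h s).1 hcr
  have hlC : l ≤ C := by
    have := s.sys_eq h
    have := s.pos
    linarith
  have fl : ∀ m, Per Γ m → ∃ n ∈ SS Γ l, |B n m| < 1 := fun m hm => fill h s cv hm
  have hl : 1 / 2 ≤ l := by
    obtain ⟨n, hn⟩ := s.ne
    obtain ⟨m, hm, e⟩ := fl n (SS.per s.pos hn)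
    exact half_le_of_cross h s.pos hm hn e
  obtain ⟨A, hA, hF⟩ := exists_far h s
  obtain ⟨T, rfl⟩ := exists_tr h hA
  obtain ⟨Bs, j1, j2⟩ := hM₂ Γ l T s hl hlC hF.sub
  have b1 := hM₁ Γ l T s hl hlC hF
  obtain ⟨D, S, _, _, M, π, ϖ, x, y, L⟩ := Tr.exists_lift s.pos hF.sub Bs (fun d => (b1 d).1) j1
  obtain ⟨k, sh, F, f1, f2, f3⟩ := L.shape s.pos (D₀ := max M₁ M₂)
    (fun U h0 h1 h2 h4 => Tr.sides_conn s hF fl h0 h1 h2 h4)
    (fun d => ⟨(b1 d).1, (b1 d).2.trans (le_max_left _ _)⟩)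
    (fun β => ⟨(j2 β).1, (j2 β).2.trans (le_max_right _ _)⟩)
  have re := L.real s cv hF.sub fun a ha => Tr.exists_jump s fl ha
  obtain ⟨r, M', x', y', e1, e2, e3, e4⟩ := exists_canon sh re L.gen
  obtain ⟨i1, i2⟩ := hc Γ l h s hl hlC (connS h s cv) T.A hA hF F f2 f3
  have i3 := Tr.card_le_betti L.surj L.π_eq
  rw [hg.genus] at i2 i3
  have := sh.ne
  refine ⟨_, r, k, M', x', y', _, Fintype.card_pos, by omega, ?_, e1, e2, e3, e4⟩
  have := Nat.mul_le_mul_left c f1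
  nlinarith

end

end Pool.Agent.P.MP_d39174_gt
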