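import Pool.Agent.P.MP_d39174_gt.TriDef

/-! Walls that are not crossed by a locally finite family. -/

namespace Pool.Agent.P.MP_d39174_gt

open UpperHalfPlane MatrixGroups

noncomputable section

variable {Γ : Subgroup SL(2, ℝ)} {S : Set V}

lemma Fill1_trans {a b c : ℝ} (h : 0 < a * b) (h' : 0 < b * c) : 0 < a * c := by
  rcases pos_and_pos_or_neg_and_neg_of_mul_pos h with ⟨a1, b1⟩ | ⟨a1, b1⟩
  · exact mul_pos a1 ((mul_pos_iff_of_pos_left b1).1 h')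
  · exact mul_pos_of_neg_of_neg a1 (neg_of_mul_pos_right h' b1.le)

lemma Fill1_zpow {a b : SL(2, ℝ)} (e : PM a b) (j : ℤ) : PM (a ^ j) (b ^ j) := by
  induction j using Int.induction_on with
  | zero => exact PM.refl 1
  | succ i ih =>
    rw [zpow_add_one, zpow_add_one]
    exact ih.mul e
  | pred i ih =>
    rw [zpow_sub_one, zpow_sub_one]
    exact ih.mul e.inv

/-- An element that preserves the signs at a generic point is not crossed. -/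
lemma unc_of_stab (uS : ∀ n ∈ S, B n n = 1) (iS : ∀ g ∈ Γ, ∀ n ∈ S, g • n ∈ S) {p : V}
    (hp : Fut p) {g : SL(2, ℝ)} (hg : g ∈ Γ) (hs : ∀ n ∈ S, 0 < B n p * B n (g • p)) {m : V}
    {t : ℝ} (hm : B m m = 1) (ht : 0 < t) (e : PM (ex t m) g) : ∀ n ∈ S, ¬ |B n m| < 1 := by
  intro n hn hc
  have h1 : ∀ j : ℤ, 0 < B n (g ^ j • p) * B n (g ^ (j + 1) • p) := fun j => by
    have := hs _ (iS _ (Γ.inv_mem (Γ.zpow_mem hg j)) n hn)
    rwa [← B_ad_right, ← B_ad_right, ← mul_smul, ← zpow_add_one] at this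
  have h2 : ∀ j : ℤ, 0 < B n p * B n (g ^ j • p) := fun j => by
    induction j using Int.induction_on with
    | zero =>
      rw [zpow_zero, one_smul]
      exact Fill1_trans (hs n hn) (mul_comm (B n p) _ ▸ hs n hn)
    | succ i ih => exact Fill1_trans ih (h1 i)
    | pred i ih =>
      have := h1 (-i - 1)
      rw [sub_add_cancel, mul_comm] at this
      exact Fill1_trans ih this
  obtain ⟨⟨i, hi⟩, j, hj⟩ := both_signs (uS n hn) hm hc ht hp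
  rw [← ex_zpow, (Fill1_zpow e _).ad] at hi hj
  have := Fill1_trans (mul_comm (B n p) _ ▸ h2 i) (h2 j)
  exact absurd (mul_neg_of_pos_of_neg hi hj) (not_lt.2 this.le)

/-- If some periodic wall is not crossed, then a simple one is not crossed. -/
lemma exists_simple_unc (h : Nice Γ) (pS : ∀ n ∈ S, Per Γ n) (iS : ∀ g ∈ Γ, ∀ n ∈ S, g • n ∈ S)
    (nS : ∀ n ∈ S, -n ∈ S) {m : V} (hm : Per Γ m) (hu : ∀ n ∈ S, ¬ |B n m| < 1) :
    ∃ m', WallSys Γ {a | Eqw Γ m' a} ∧ ∀ n ∈ S, ∀ a, Eqw Γ m' a → ¬ |B n a| < 1 := by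
  classical
  obtain ⟨hm1, t0, p0, e0⟩ := hm
  obtain ⟨t, ⟨tp, tle, m', hm', um'⟩, hmin⟩ := Set.exists_min_image
    {t : ℝ | 0 < t ∧ t ≤ t0 ∧ ∃ a ∈ SS Γ t, ∀ n ∈ S, ¬ |B n a| < 1} id
    ((h.fin_lengths t0).subset fun t ⟨a1, a2, a, a3, _⟩ => ⟨a1, a2, a, a3⟩)
    ⟨t0, p0, le_rfl, m, ⟨hm1, e0⟩, hu⟩
  have unc : ∀ n ∈ S, ∀ a, Eqw Γ m' a → ¬ |B n a| < 1 := by
    rintro n hn a ⟨g, hg, rfl | rfl⟩
    · rw [B_ad_right]
      exact um' _ (iS _ (Γ.inv_mem hg) n hn)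
    · rw [B_neg_right, abs_neg, B_ad_right]
      exact um' _ (iS _ (Γ.inv_mem hg) n hn)
  have key : ∀ a, Eqw Γ m' a → ∀ g ∈ Γ, ¬ |B a (g • a)| < 1 := by
    intro a ha g hg hc
    obtain ⟨a1, a2⟩ := SS.eqw hm' ha
    have aS : a ∉ S := fun h' => unc _ (iS g hg a h') a ha (by rwa [B_comm])
    obtain ⟨z, z1, z2⟩ := exists_cross a1 (by rwa [B_ad]) hc
    obtain ⟨j, hj⟩ := near_translate a1 tp z1 (w := g⁻¹ • z) (by rwa [Hy_smul, ← B_ad_left])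
    rw [← mul_smul] at hj
    have hk : ex (j * t) a * g⁻¹ ∈ Γ := Γ.mul_mem (ex_zpow t a j ▸ Γ.zpow_mem a2 j) (Γ.inv_mem hg)
    have hk1 : ¬ PM 1 (ex (j * t) a * g⁻¹) := fun e => by
      have e1 := e.ad (g • a)
      rw [one_smul, mul_smul, inv_smul_smul, ex_ad_self] at e1
      rw [e1, a1, abs_one] at hc
      exact lt_irrefl _ hc
    obtain ⟨b, s, b1, sp, e, b2⟩ := h.exists_ex hk hk1
    have hs : ∀ n ∈ S, 0 < B n (Hy z) * B n ((ex (j * t) a * g⁻¹) • Hy z) := fun n hn =>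
      sign_const_wall (pS n hn).1 a1 (not_lt.1 (unc n hn a ha)) (fun e => aS (e ▸ hn))
        (fun e => aS (e ▸ nS n hn)) (Hy_fut z) ((Hy_fut z).ad _) z1
        (by rwa [mul_smul, B_comm, B_ex_ad, B_comm, ← B_ad_left])
    have d := le_dist_ex b1 s z
    rw [e.act, abs_of_pos sp] at d
    have := hmin s ⟨sp, by linarith, b, ⟨b1, b2⟩,
      unc_of_stab (fun n hn => (pS n hn).1) iS (Hy_fut z) hk hs b1 sp e⟩
    simp only [id] at this
    linarith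
  have per : ∀ a, Eqw Γ m' a → Per Γ a := fun a ha => SS.per tp (SS.eqw hm' ha)
  refine ⟨m', ⟨per, fun g hg a ha => Eqw.trans ha ⟨g, hg, Or.inl rfl⟩,
    fun a ha => Eqw.trans ha ⟨1, Γ.one_mem, Or.inr (by rw [one_smul])⟩,
    fun a ha b hb n1 n2 => ?_, ⟨{m', -m'}, ?_⟩, m', Eqw.refl Γ m'⟩, unc⟩
  · refine lt_of_le_of_ne ?_ (h.abs_B_ne_one (per a ha) (per b hb) n1 n2).symm
    obtain ⟨g, hg, rfl | rfl⟩ := (Eqw.symm ha).trans hb
    · exact not_lt.1 (key a ha g hg)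
    · rw [B_neg_right, abs_neg]
      exact not_lt.1 (key a ha g hg)
  · rintro a ⟨g, hg, rfl | rfl⟩
    · exact ⟨g, hg, m', Finset.mem_insert_self _ _, rfl⟩
    · exact ⟨g, hg, -m', Finset.mem_insert_of_mem (Finset.mem_singleton_self _),
        (smul_neg g m').symm⟩

/-- Rays leave every ball. -/
lemma Fill1_far {p : V} (hp : Fut p) {x : W} (hx : x ≠ ⟨0, 0⟩) (D : ℝ) :
    ∃ s : ℝ, 0 ≤ s ∧ D < dist (pt p) (pt (p + s • N x)) := by
  have hA : 0 < -B p p := neg_pos.2 hp.1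
  have hc : 0 < -B p (N x) := neg_pos.2 (hp.B_N hx)
  have hs : 0 ≤ 2 * -B p p * Real.cosh D ^ 2 / -B p (N x) := by positivity
  refine ⟨_, hs, lt_of_le_of_lt (le_abs_self D) ?_⟩
  have e : 2 * -B p p * Real.cosh D ^ 2 / -B p (N x) * -B p (N x) =
      2 * -B p p * Real.cosh D ^ 2 := div_mul_cancel₀ _ hc.ne'
  generalize 2 * -B p p * Real.cosh D ^ 2 / -B p (N x) = s at hs e ⊢
  have h2 := hp.add_N x hs
  have q0 : 0 < -B (p + s • N x) (p + s • N x) := neg_pos.2 h2.1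
  rw [← abs_of_nonneg (dist_nonneg (x := pt p)), ← Real.cosh_lt_cosh, cosh_dist_eq, Hy_pt hp,
    Hy_pt h2, B_smul_left, B_smul_right, ← mul_assoc, ← mul_neg, one_div_mul_one_div,
    ← Real.sqrt_mul hA.le, one_div, inv_mul_eq_div, lt_div_iff₀ (Real.sqrt_pos.2 (mul_pos hA q0))]
  refine lt_of_pow_lt_pow_left₀ 2 (neg_pos.2 (hp.B_neg h2)).le ?_
  rw [mul_pow, Real.sq_sqrt (mul_pos hA q0).le]
  simp only [B_add_left, B_add_right, B_smul_left, B_smul_right, B_N_N, br_self]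
  rw [B_comm (N x) p]
  have c0 := pow_pos (Real.cosh_pos D) 2
  generalize Real.cosh D ^ 2 = C, B p p = A, B p (N x) = c at *
  nlinarith [mul_pos hA hA, mul_nonneg hs hc.le, mul_pos hA c0, mul_pos (mul_pos hA hA) c0,
    mul_nonneg (mul_nonneg hs hc.le) hA.le]

/-- If every periodic wall is crossed, then every ray is crossed. -/
lemma ray_crossed (h : Nice Γ) (hS : LF S) (uS : ∀ n ∈ S, B n n = 1)
    (iS : ∀ g ∈ Γ, ∀ n ∈ S, g • n ∈ S) (fill : ∀ m, Per Γ m → ∃ n ∈ S, |B n m| < 1) {p : V}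
    (hp : Fut p) (hg : ∀ n ∈ S, B n p ≠ 0) {x : W} (hx : x ≠ ⟨0, 0⟩) :
    ∃ n ∈ S, B n p * B n (N x) < 0 := by
  by_contra hn
  have sg : ∀ n ∈ S, ∀ s : ℝ, 0 ≤ s → 0 < B n p * B n (Hy (pt (p + s • N x))) := by
    intro n hn' s hs
    have h1 : 0 ≤ B n p * B n (N x) := not_lt.1 fun h' => hn ⟨n, hn', h'⟩
    have h2 := hp.add_N x hs
    have h3 : 0 < 1 / √(-B (p + s • N x) (p + s • N x)) :=
      one_div_pos.2 (Real.sqrt_pos.2 (neg_pos.2 h2.1))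
    rw [Hy_pt h2, B_smul_right, mul_left_comm]
    refine mul_pos h3 ?_
    rw [B_add_right, B_smul_right]
    nlinarith [mul_self_pos.2 (hg n hn'), mul_nonneg hs h1]
  obtain ⟨R, hR⟩ := h.coc
  have inf : ¬ {g | g ∈ Γ ∧ ∃ s : ℝ, 0 ≤ s ∧ dist (g • pt (p + s • N x)) I ≤ R}.Finite := by
    intro hf
    obtain ⟨D, hD⟩ := (hf.image fun g => dist (g • pt p) I).bddAbove
    obtain ⟨s, hs, hd⟩ := Fill1_far hp hx (D + R)
    obtain ⟨g, g1, g2⟩ := hR (pt (p + s • N x))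
    have d1 : dist (g • pt p) I ≤ D := hD ⟨g, ⟨g1, s, hs, g2⟩, rfl⟩
    have d2 := dist_triangle_right (g • pt p) (g • pt (p + s • N x)) I
    rw [dist_smul] at d2
    linarith
  refine inf (Set.Finite.of_finite_fibers
    (fun g => {n | (n ∈ S ∧ |B n (Hy I)| ≤ Real.sinh R) ∧ 0 < B n (g • p)})
    ((hS I (Real.sinh R)).finite_subsets.subset ?_) ?_)
  · rintro _ ⟨g, -, rfl⟩
    exact fun n hn => hn.1
  rintro _ ⟨g, ⟨g1, s, hs, g2⟩, rfl⟩
  refine (Set.toFinite {g, -g}).subset ?_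
  rintro k ⟨⟨k1, r, hr, k2⟩, e⟩
  by_contra hk
  have hk' : ¬ PM 1 (g⁻¹ * k) := fun h' => hk ((pm_iff_inv_mul g k).2 h')
  have e' : ∀ n, n ∈ S ∧ |B n (Hy I)| ≤ Real.sinh R → (0 < B n (k • p) ↔ 0 < B n (g • p)) :=
    fun n hn => by simpa only [Set.mem_ofPred_eq, hn, true_and] using Set.ext_iff.1 e n
  have hs' : ∀ n ∈ S, 0 < B n (g • p) * B n (k • p) := by
    intro n hn
    have a1 := sg _ (iS _ (Γ.inv_mem g1) n hn) s hs
    have a2 := sg _ (iS _ (Γ.inv_mem k1) n hn) r hr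
    rw [← B_ad_right, ← B_ad_right, ← Hy_smul] at a1 a2
    rcases le_or_gt |B n (Hy I)| (Real.sinh R) with h1 | h1
    · have a3 := e' n ⟨hn, h1⟩
      rcases lt_or_gt_of_ne (left_ne_zero_of_mul a1.ne') with h2 | h2
      · exact mul_pos_of_neg_of_neg h2 (lt_of_le_of_ne (not_lt.1 fun h3 => h2.not_gt (a3.1 h3))
          (left_ne_zero_of_mul a2.ne'))
      · exact mul_pos h2 (a3.2 h2)
    · exact Fill1_trans a1 (Fill1_trans (sign_const_ball (uS n hn) h1 (dist_comm _ I ▸ g2)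
        (dist_comm _ I ▸ k2)) (mul_comm (B n (k • p)) _ ▸ a2))
  have hm := Γ.mul_mem (Γ.inv_mem g1) k1
  obtain ⟨b, t, b1, tp, e1, b2⟩ := h.exists_ex hm hk'
  obtain ⟨n, n1, n2⟩ := fill b ⟨b1, t, tp, b2⟩
  refine unc_of_stab uS iS hp hm (fun n hn => ?_) b1 tp e1 n n1 n2
  have := hs' _ (iS g g1 n hn)
  rwa [B_ad, B_ad_left, ← mul_smul] at this

end

end Pool.Agent.P.MP_d39174_gt
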