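import Pool.Agent.P.MP_d39174_gt.Fill1

/-! Connectedness of the crossing graph. -/

namespace Pool.Agent.P.MP_d39174_gt

open UpperHalfPlane MatrixGroups

noncomputable section

variable {Γ : Subgroup SL(2, ℝ)} {S : Set V}

lemma Fill2_sum {n m : V} (hn : B n n = 1) (hm : B m m = 1) (h : B n m < -1) :
    Fut (n + m) ∨ Fut (-(n + m)) := by
  refine Fut.or_neg ?_
  simp only [B_add_left, B_add_right, hn, hm, B_comm m n]
  linarith

lemma Fill2_neg {n : V} (hn : B n n = 1) : ∃ x : W, B n (N x) < 0 := by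
  refine ⟨fr n • ⟨1, 1⟩, ?_⟩
  have e := B_ad (fr n) w0 (N ⟨1, 1⟩)
  rw [fr_w0 hn] at e
  rw [N_ad, e]
  simp [B, w0, N]

lemma Fill2_pos (nS : ∀ n ∈ S, -n ∈ S) {n p : V} (hn : n ∈ S) (h : B n p ≠ 0) :
    ∃ m ∈ S, 0 < B m p ∧ (m = n ∨ m = -n) := by
  rcases h.lt_or_gt with h | h
  · exact ⟨-n, nS n hn, by rwa [B_neg_left, neg_pos], Or.inr rfl⟩
  · exact ⟨n, hn, h, Or.inl rfl⟩

lemma Fill2_lt {n m p : V} (hp : Fut p) (h : Fut (m - n)) : B m p < B n p := by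
  have := h.B_neg hp
  rwa [B_sub_left, sub_neg] at this

theorem conn_cross (h : Nice Γ) (hS : LF S) (pS : ∀ n ∈ S, Per Γ n) (nS : ∀ n ∈ S, -n ∈ S)
    (ray : ∀ p, Fut p → (∀ n ∈ S, B n p ≠ 0) → ∀ x : W, x ≠ ⟨0, 0⟩ →
      ∃ n ∈ S, B n p * B n (N x) < 0)
    (U : Set V) (hU : ∀ x ∈ U, ∀ y ∈ S, (|B x y| < 1 ∨ y = -x) → y ∈ U) (ne : ∃ x ∈ S, x ∈ U) :
    S ⊆ U := by
  by_contra hne
  obtain ⟨b₀, hb₀, hb₀'⟩ := Set.not_subset.1 hne
  obtain ⟨a₀, ha₀⟩ := ne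
  have u : ∀ n ∈ S, B n n = 1 := fun n hn => (pS n hn).1
  have n0 : ∀ n ∈ S ∩ U, -n ∈ S ∩ U := fun n hn =>
    ⟨nS n hn.1, hU n hn.2 _ (nS n hn.1) (Or.inr rfl)⟩
  have n1 : ∀ n ∈ S \ U, -n ∈ S \ U := fun n hn =>
    ⟨nS n hn.1, fun h1 => hn.2 (hU _ h1 n hn.1 (Or.inr (neg_neg n).symm))⟩
  have far : ∀ n ∈ S ∩ U, ∀ m ∈ S \ U, B n m < -1 ∨ 1 < B n m := fun n hn m hm => by
    have h1 := h.abs_B_ne_one (pS n hn.1) (pS m hm.1) (fun e => hm.2 (e ▸ hn.2))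
      fun e => hm.2 (hU n hn.2 m hm.1 (Or.inr e))
    have h2 : ¬ |B n m| < 1 := fun e => hm.2 (hU n hn.2 m hm.1 (Or.inl e))
    rcases lt_abs.1 (lt_of_le_of_ne (not_lt.1 h2) h1.symm) with h3 | h3
    · exact Or.inr h3
    · exact Or.inl (by linarith)
  obtain ⟨z, a, b, ha, hb, hab, hmin⟩ := exists_equidistant (S := S ∩ U) (T := S \ U)
    (fun z R => (hS z R).subset fun n hn => ⟨hn.1.1, hn.2⟩)
    (fun z R => (hS z R).subset fun n hn => ⟨hn.1.1, hn.2⟩)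
    (fun n hn => u n hn.1) (fun n hn => u n hn.1) ⟨a₀, ha₀⟩ ⟨b₀, hb₀, hb₀'⟩
  have hp := Hy_fut z
  have hl := hS z
  generalize Hy z = p at hab hmin hp hl
  have mem : ∀ n ∈ S, n ∈ S ∩ U ∨ n ∈ S \ U := fun n hn =>
    (em (n ∈ U)).imp (fun h1 => ⟨hn, h1⟩) fun h1 => ⟨hn, h1⟩
  have gen : ∀ n ∈ S, B n p ≠ 0 := fun n hn h0 => by
    have h1 := hmin n (mem n hn)
    rw [h0, abs_zero, abs_nonpos_iff] at h1
    have h2 : B b p = 0 := by rwa [h1, abs_zero, eq_comm, abs_eq_zero] at hab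
    rcases far a ha b hb with h3 | h3
    · rcases Fill2_sum (u a ha.1) (u b hb.1) h3 with h4 | h4 <;> simpa [h1, h2] using h4.B_neg hp
    · rcases nested_of_gt (u a ha.1) (u b hb.1) h3 with h4 | h4 <;>
        simpa [h1, h2] using Fill2_lt hp h4
  let O : Set V → Set (ℝ × ℝ) := fun T => {x | ∃ n ∈ T, (0 < B n p ∧
    ∀ m ∈ S, 0 < B m p → ¬ Fut (m - n)) ∧ B n (N ⟨x.1, x.2⟩) < 0}
  have op : ∀ T, IsOpen (O T) := fun T => isOpen_iff_eventually.2 fun x ⟨n, h1, h2, h3⟩ => by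
    have hc : Continuous fun x : ℝ × ℝ => B n (N ⟨x.1, x.2⟩) := by
      simp only [B, N]
      fun_prop
    exact ((isOpen_lt hc continuous_const).eventually_mem h3).mono fun y hy => ⟨n, h1, h2, hy⟩
  have nz : ∀ x : ℝ × ℝ, x ∈ ({0}ᶜ : Set (ℝ × ℝ)) → (⟨x.1, x.2⟩ : W) ≠ ⟨0, 0⟩ := fun x hx e =>
    hx (Prod.ext (congrArg W.p e) (congrArg W.q e))
  have non : ∀ T ⊆ S, (∀ n ∈ T, -n ∈ T) → ∀ c ∈ T, |B c p| = |B a p| →
      ({0}ᶜ ∩ O T).Nonempty := fun T hT nT c hc e => by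
    obtain ⟨n, hn, h1, h2⟩ := Fill2_pos nT hc (gen c (hT hc))
    obtain ⟨x, hx⟩ := Fill2_neg (u n (hT hn))
    refine ⟨(x.p, x.q), fun h0 => ?_, n, hn, ⟨h1, fun m hm h3 h4 => ?_⟩, hx⟩
    · obtain ⟨e1, e2⟩ := Prod.mk.inj h0
      simp [B, N, e1, e2] at hx
    · have h5 := hmin m (mem m hm)
      have h6 := Fill2_lt hp h4
      have h7 : |B n p| = |B c p| := by rcases h2 with rfl | rfl <;> simp
      rw [abs_of_pos h1] at h7
      rw [abs_of_pos h3] at h5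
      linarith
  have cov : ({0}ᶜ : Set (ℝ × ℝ)) ⊆ O (S ∩ U) ∪ O (S \ U) := fun x hx => by
    obtain ⟨c, hc, h1⟩ := ray p hp gen _ (nz x hx)
    obtain ⟨c', hc', h2, h3⟩ := Fill2_pos nS hc (gen c hc)
    have h4 : B c' (N ⟨x.1, x.2⟩) < 0 := by
      refine neg_of_mul_neg_right ?_ h2.le
      rcases h3 with rfl | rfl
      · exact h1
      · simpa using h1
    obtain ⟨n, ⟨hn, h5, h6, h7⟩, h8⟩ := Set.exists_min_image
      {n | n ∈ S ∧ 0 < B n p ∧ B n p ≤ B c' p ∧ B n (N ⟨x.1, x.2⟩) < 0} (fun n => B n p)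
      ((hl (B c' p)).subset fun n hn => ⟨hn.1, by rw [abs_of_pos hn.2.1]; exact hn.2.2.1⟩)
      ⟨c', hc', h2, le_rfl, h4⟩
    have h9 : ∀ m ∈ S, 0 < B m p → ¬ Fut (m - n) := fun m hm k1 k2 => by
      have k3 := Fill2_lt hp k2
      have k4 := k2.B_N (nz x hx)
      rw [B_sub_left] at k4
      exact (h8 m ⟨hm, k1, by linarith, by linarith⟩).not_gt k3
    exact (mem n hn).imp (fun k => ⟨n, k, ⟨h5, h9⟩, h7⟩) fun k => ⟨n, k, ⟨h5, h9⟩, h7⟩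
  obtain ⟨x, hx, ⟨n, hn, ⟨h1, h2⟩, h3⟩, m, hm, ⟨h4, h5⟩, h6⟩ :=
    (isConnected_compl_singleton_of_one_lt_rank (E := ℝ × ℝ) (by simp [one_add_one_eq_two])
      0).isPreconnected _ _ (op _) (op _) cov (non _ Set.inter_subset_left n0 a ha rfl)
      (non _ Set.sdiff_subset n1 b hb hab.symm)
  rcases far n hn m hm with h7 | h7
  · rcases Fill2_sum (u n hn.1) (u m hm.1) h7 with h8 | h8
    · have := h8.B_neg hp
      rw [B_add_left] at this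
      linarith
    · have := h8.B_N (nz x hx)
      rw [B_neg_left, B_add_left] at this
      linarith
  · rcases nested_of_gt (u n hn.1) (u m hm.1) h7 with h8 | h8
    · exact h5 n hn.1 h1 h8
    · exact h2 m hm.1 h4 h8

end

end Pool.Agent.P.MP_d39174_gt
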