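import Pool.Agent.P.MP_d39174_gt.FrameDef
import Pool.Agent.P.MP_d39174_gt.Rigid2

/-! Properties of frames, shears and twists. -/

namespace Pool.Agent.P.MP_d39174_gt

open UpperHalfPlane MatrixGroups

noncomputable section

lemma Frame_ext {g h : SL(2, ℝ)} (h1 : g 0 0 = h 0 0) (h2 : g 0 1 = h 0 1) (h3 : g 1 0 = h 1 0)
    (h4 : g 1 1 = h 1 1) : g = h := by
  ext i j
  fin_cases i <;> fin_cases j
  exacts [h1, h2, h3, h4]

lemma Frame_N : Nm 0 0 = 0 ∧ Nm 0 1 = -1 ∧ Nm 1 0 = 1 ∧ Nm 1 1 = -1 := ⟨rfl, rfl, rfl, rfl⟩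

lemma Frame_U (s : ℝ) : Um s 0 0 = 1 ∧ Um s 0 1 = s ∧ Um s 1 0 = 0 ∧ Um s 1 1 = 1 :=
  ⟨rfl, rfl, rfl, rfl⟩

lemma Frame_S {x : ℝ} (h : x ≠ 0) :
    Sm x 0 0 = 0 ∧ Sm x 0 1 = -1 / x ∧ Sm x 1 0 = x ∧ Sm x 1 1 = 0 := by
  unfold Sm
  rw [dif_pos h]
  exact ⟨rfl, rfl, rfl, rfl⟩

lemma Frame_D {x : ℝ} (h : 0 < x) : ex (Real.log x) w0 0 0 = x ∧ ex (Real.log x) w0 0 1 = 0 ∧
    ex (Real.log x) w0 1 0 = 0 ∧ ex (Real.log x) w0 1 1 = 1 / x := by
  obtain ⟨a, b, c, d⟩ := ex_apply B_w0 (Real.log x)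
  rw [a, b, c, d]
  simp [w0, Real.exp_neg, Real.exp_log h]

lemma Frame_cancel {g a b : SL(2, ℝ)} (h : PM (g * a) (g * b)) : PM a b := by
  simpa only [inv_mul_cancel_left] using (PM.refl g⁻¹).mul h

lemma Frame_SS {x : ℝ} (h : x ≠ 0) : Sm x * Sm x = -1 := by
  obtain ⟨a, b, c, d⟩ := Frame_S h
  apply Frame_ext <;> simp [mul_apply', a, b, c, d, h] <;> field_simp

lemma Frame_DS {x y : ℝ} (hx : 0 < x) (hy : 0 < y) : ex (Real.log x) w0 * Sm (x * y) = Sm y := by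
  obtain ⟨a, b, c, d⟩ := Frame_S (mul_pos hx hy).ne'
  obtain ⟨a', b', c', d'⟩ := Frame_S hy.ne'
  obtain ⟨e1, e2, e3, e4⟩ := Frame_D hx
  apply Frame_ext <;> simp only [mul_apply', a, b, c, d, a', b', c', d', e1, e2, e3, e4] <;>
    field_simp <;> ring

lemma Frame_key {x : ℝ} (hx : 0 < x) (s : ℝ) :
    Nm * Nm * Sm x * Um s = Um (1 + x ^ 2 * s) * ex (Real.log x) w0 := by
  obtain ⟨a, b, c, d⟩ := Frame_S hx.ne'
  obtain ⟨e1, e2, e3, e4⟩ := Frame_D hx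
  apply Frame_ext <;> simp only [mul_apply', a, b, c, d, e1, e2, e3, e4, Frame_N, Frame_U] <;>
    field_simp <;> ring

lemma Frame_anti {k : SL(2, ℝ)} (h1 : k 0 0 = 0) (h2 : k 1 1 = 0) : ∃ x, 0 < x ∧ PM (Sm x) k := by
  have hd := det_eq k
  rw [h1, zero_mul, zero_sub] at hd
  have h0 : k 1 0 ≠ 0 := fun h => by simp [h] at hd
  have h3 : k 0 1 = -1 / k 1 0 := by
    rw [eq_div_iff h0]
    linarith
  rcases h0.lt_or_gt with h | h
  · obtain ⟨a, b, c, d⟩ := Frame_S (neg_ne_zero.2 h0)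
    refine ⟨-k 1 0, neg_pos.2 h, Or.inr (Frame_ext ?_ ?_ ?_ ?_)⟩ <;>
      simp only [neg_apply', a, b, c, d, h1, h2, h3, neg_zero, neg_neg, div_neg]
  · obtain ⟨a, b, c, d⟩ := Frame_S h0
    exact ⟨k 1 0, h, Or.inl (Frame_ext (h1.trans a.symm) (h3.trans b.symm) c.symm
      (h2.trans d.symm))⟩

lemma Frame_br {F F' : SL(2, ℝ)} {x y : W} {a : V} (ha : B a a = 1) (h : br (F • x) (ev a) = 0)
    (h' : br (F' • y) (ev a) = 0) : br x ((F⁻¹ * F') • y) = 0 := by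
  rw [← br_ad F, mul_smul, smul_inv_smul]
  exact VW_prop (VW_of_br ha h) (VW_of_br ha h')

lemma Frame_br_ad (g : SL(2, ℝ)) {x : W} {a : V} (ha : B a a = 1) (h : br x (ev a) = 0) :
    br (g • x) (ev (g • a)) = 0 := by
  obtain ⟨t, -, e⟩ := ev_ad g ha
  have h1 := br_ad g x (ev a)
  rw [h] at h1
  rw [e]
  simp only [br] at h1 ⊢
  linear_combination t * h1

lemma Frame_ex {u v w : W} (h : 0 < oriW u v w) : ∃ F : SL(2, ℝ),
    br (F • (⟨1, 0⟩ : W)) u = 0 ∧ br (F • (⟨0, 1⟩ : W)) v = 0 ∧ br (F • (⟨1, 1⟩ : W)) w = 0 := by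
  have h1 : (√(oriW u v w))⁻¹ ^ 2 * oriW u v w = 1 := by
    rw [inv_pow, Real.sq_sqrt h.le, inv_mul_cancel₀ h.ne']
  generalize (√(oriW u v w))⁻¹ = l at h1
  refine ⟨⟨!![l * br w v * u.p, l * br u w * v.p; l * br w v * u.q, l * br u w * v.q], ?_⟩,
    ?_, ?_, ?_⟩
  · rw [Matrix.det_fin_two_of]
    simp only [oriW, br] at h1 ⊢
    linear_combination h1
  all_goals
    simp [br, act_p, act_q]
    ring

lemma Sm_apply {x : ℝ} (h : x ≠ 0) : (Sm x).1 = !![0, -1 / x; x, 0] := by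
  unfold Sm
  rw [dif_pos h]
lemma Sm_pm_inj {x y : ℝ} (hx : 0 < x) (hy : 0 < y) (h : PM (Sm x) (Sm y)) : x = y := by
  have a := (Frame_S hx.ne').2.2.1
  have b := (Frame_S hy.ne').2.2.1
  rcases h with h | h
  · rw [← a, ← b, h]
  · rw [h, neg_apply', a] at b
    linarith
lemma Sm_w0 {x : ℝ} (h : x ≠ 0) : Sm x • w0 = -w0 := by
  obtain ⟨a, b, c, d⟩ := Frame_S h
  ext <;> simp [ad_a, ad_b, ad_c, w0, a, b, c, d, h]
lemma Um_w0 (s : ℝ) : Um s • w0 = w0 - (2 * s) • E0 := by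
  ext <;> simp [ad_a, ad_b, ad_c, w0, E0, Frame_U]
lemma Um_E0 (s : ℝ) : Um s • E0 = E0 := by
  ext <;> simp [ad_a, ad_b, ad_c, E0, Frame_U]
lemma Um_mul (s t : ℝ) : Um s * Um t = Um (s + t) := by
  apply Frame_ext <;> simp only [mul_apply', Frame_U] <;> ring
lemma Um_zero : Um 0 = 1 := by
  apply Frame_ext <;> simp [Frame_U]
lemma NNS {x : ℝ} (h : x ≠ 0) : (Nm * Nm * Sm x).1 = mA x := by
  obtain ⟨a, b, c, d⟩ := Frame_S h
  have e := mul_apply' (Nm * Nm) (Sm x)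
  ext i j
  refine (e i j).trans ?_
  fin_cases i <;> fin_cases j <;> simp [mul_apply', a, b, c, d, Frame_N, mA] <;> ring
lemma NS {x : ℝ} (h : x ≠ 0) : (-(Nm * Sm x)).1 = mB x := by
  obtain ⟨a, b, c, d⟩ := Frame_S h
  ext i j
  refine ((neg_apply' _ i j).trans (congrArg Neg.neg (mul_apply' Nm (Sm x) i j))).trans ?_
  fin_cases i <;> fin_cases j <;> simp [a, b, c, d, Frame_N, mB] <;> ring
lemma USUS {s s' y x : ℝ} (hy : y ≠ 0) (hx : x ≠ 0) :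
    (-(Um s * Sm y * Um (-s') * Sm x)).1 = mJ s s' y x := by
  obtain ⟨a, b, c, d⟩ := Frame_S hx
  obtain ⟨a', b', c', d'⟩ := Frame_S hy
  have k : ∀ i j, (-(Um s * Sm y * Um (-s') * Sm x)) i j = mJ s s' y x i j := by
    simp only [Fin.forall_fin_two, neg_apply', mul_apply', a, b, c, d, a', b', c', d', Frame_U]
    refine ⟨⟨?_, ?_⟩, ?_, ?_⟩ <;> simp [mJ] <;> ring
  exact Matrix.ext k

namespace Tr

variable {Γ : Subgroup SL(2, ℝ)} {T : Tr Γ}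

lemma D.isFr (d : T.D) : IsFr d d.F := by
  have h : ∃ F, IsFr d F := Frame_ex d.ori_pos
  unfold D.F
  rw [dif_pos h]
  exact h.choose_spec
lemma IsFr.pm {d : T.D} {F F' : SL(2, ℝ)} (h : IsFr d F) (h' : IsFr d F') : PM F F' := by
  have h1 := Frame_br d.a_unit h.1 h'.1
  have h2 := Frame_br d.b_unit h.2.1 h'.2.1
  have h3 := Frame_br d.c_unit h.2.2 h'.2.2
  rw [pm_iff_inv_mul]
  generalize F⁻¹ * F' = k at h1 h2 h3
  have hd := det_eq k
  simp only [br, act_p, act_q] at h1 h2 h3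
  have e1 : k 1 0 = 0 := by linarith
  have e2 : k 0 1 = 0 := by linarith
  have e3 : k 1 1 = k 0 0 := by linarith
  rw [e1, e3, mul_zero, sub_zero] at hd
  rcases mul_self_eq_one_iff.1 hd with e | e
  · exact Or.inl (Frame_ext (by simp [e]) (by simp [e2]) (by simp [e1]) (by simp [e3, e]))
  · exact Or.inr (Frame_ext (by simp [e]) (by simp [e2]) (by simp [e1]) (by simp [e3, e]))
lemma F_ν (d : T.D) : PM (d.F * Nm) (T.ν d).F := by
  refine IsFr.pm ?_ (T.ν d).isFr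
  obtain ⟨h1, h2, h3⟩ := d.isFr
  simp only [IsFr, ν_a, ν_b, ν_c, br, act_p, act_q, mul_apply', Frame_N] at h1 h2 h3 ⊢
  exact ⟨by linear_combination h2, by linear_combination -h3, by linear_combination -h1⟩
lemma F_smul (g : Γ) (d : T.D) : PM ((g : SL(2, ℝ)) * d.F) (g • d).F := by
  refine IsFr.pm ?_ (g • d).isFr
  obtain ⟨h1, h2, h3⟩ := d.isFr
  simp only [IsFr, smul_a, smul_b, smul_c, mul_smul]
  exact ⟨Frame_br_ad _ d.a_unit h1, Frame_br_ad _ d.b_unit h2, Frame_br_ad _ d.c_unit h3⟩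
lemma D.x_pos (d : T.D) : 0 < d.x := by
  unfold D.x
  split_ifs with h
  exacts [h.choose_spec.1, one_pos]
lemma F_ι (d : T.D) : PM (d.F * Sm d.x) (T.ι d).F := by
  have h : ∃ x, 0 < x ∧ PM (d.F * Sm x) (T.ι d).F := by
    have h1 := Frame_br d.b_unit d.isFr.2.1 (T.ι d).isFr.1
    have h2 := Frame_br d.a_unit d.isFr.1 (T.ι d).isFr.2.1
    simp only [br, act_p, act_q] at h1 h2
    obtain ⟨x, hx, e⟩ := Frame_anti (k := d.F⁻¹ * (T.ι d).F) (by linarith) (by linarith)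
    exact ⟨x, hx, by simpa only [mul_inv_cancel_left] using (PM.refl d.F).mul e⟩
  unfold D.x
  rw [dif_pos h]
  exact h.choose_spec.2
lemma Frame_x {d : T.D} {x : ℝ} (hx : 0 < x) (h : PM (d.F * Sm x) (T.ι d).F) : d.x = x :=
  Sm_pm_inj d.x_pos hx (Frame_cancel ((F_ι d).trans h.symm))
lemma x_ι (d : T.D) : (T.ι d).x = d.x := by
  refine Frame_x d.x_pos (((F_ι d).symm.mul (PM.refl _)).trans ?_)
  rw [mul_assoc, Frame_SS d.x_pos.ne', mul_neg, mul_one, ι_ι]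
  exact (PM.neg _).symm
lemma x_smul (g : Γ) (d : T.D) : (g • d).x = d.x := by
  refine Frame_x d.x_pos (((F_smul g d).symm.mul (PM.refl _)).trans ?_)
  rw [mul_assoc, ι_smul]
  exact ((PM.refl _).mul (F_ι d)).trans (F_smul g _)
lemma F_φ (d : T.D) : PM (d.F * (Nm * Nm * Sm (T.φ d).x)) (T.φ d).F := by
  rw [φ_apply, x_ι, ← mul_assoc, ← mul_assoc]
  exact (((((F_ν d).mul (PM.refl _)).trans (F_ν _))).mul (PM.refl _)).trans (F_ι _)
lemma F_ψ (d : T.D) : PM (d.F * -(Nm * Sm (T.ψ d).x)) (T.ψ d).F := by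
  rw [ψ_apply, x_ι, mul_neg, ← mul_assoc]
  exact (PM.neg _).symm.trans (((F_ν d).mul (PM.refl _)).trans (F_ι _))
lemma G_w0 (d : T.D) : d.G • w0 = d.a := by
  have h : ∃ s, (d.F * Um s) • w0 = d.a := by
    have h1 := Frame_br_ad d.F⁻¹ d.a_unit d.isFr.1
    rw [inv_smul_smul] at h1
    obtain ⟨h2, h3⟩ := VW_of_br (by rw [B_ad]; exact d.a_unit) h1
    refine ⟨-(d.F⁻¹ • d.a).b / 2, ?_⟩
    rw [mul_smul, ← eq_inv_smul_iff, Um_w0]
    simp only [mul_one, mul_zero, add_zero, sub_zero] at h2 h3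
    ext
    · simp [w0, E0, h2]
    · simp only [w0, E0, V.sub_b, V.smul_b]
      ring
    · simp [w0, E0, h3]
  unfold D.G D.s
  rw [dif_pos h]
  exact h.choose_spec
lemma Frame_s {d : T.D} {s : ℝ} (h : (d.F * Um s) • w0 = d.a) : d.s = s := by
  have h1 := (G_w0 d).trans h.symm
  rw [D.G, mul_smul, mul_smul, smul_left_cancel_iff, Um_w0, Um_w0] at h1
  have h2 := congrArg V.b h1
  simp only [E0, V.sub_b, V.smul_b] at h2
  linarith
lemma D.s_pos (d : T.D) : 0 < d.s := by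
  have h0 : 0 < oriW (ev d.a) (ev d.b) (ev (-d.a)) := d.fac.1
  rw [← oriW_ad d.F⁻¹] at h0
  obtain ⟨h1, h2, -⟩ := d.isFr
  rw [← br_ad d.F⁻¹, inv_smul_smul] at h1 h2
  have h3 := (VW2_E d.F⁻¹ (VW_neg d.a_unit)).1
  have h4 : d.F⁻¹ • d.a = w0 - (2 * d.s) • E0 := by
    rw [← Um_w0, inv_smul_eq_iff, ← mul_smul]
    exact (G_w0 d).symm
  rw [smul_neg, h4] at h3
  generalize d.F⁻¹ • ev d.a = u at h0 h1
  generalize d.F⁻¹ • ev d.b = v at h0 h2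
  generalize d.F⁻¹ • ev (-d.a) = w at h0 h3
  simp only [oriW, br, w0, E0, V.neg_a, V.neg_b, V.sub_a, V.sub_b, V.smul_a, V.smul_b] at h0 h1 h2 h3
  have e1 : u.q = 0 := by linarith
  have e2 : v.p = 0 := by linarith
  have e3 : w.p = d.s * w.q := by linarith
  rw [e1, e2, e3] at h0
  by_contra hn
  nlinarith [mul_nonneg (neg_nonneg.2 (not_lt.1 hn)) (sq_nonneg (u.p * v.q * w.q))]
lemma s_smul (g : Γ) (d : T.D) : (g • d).s = d.s := by
  refine Frame_s ?_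
  rw [← ((F_smul g d).mul (PM.refl _)).ad, mul_assoc, mul_smul, smul_a]
  exact congrArg _ (G_w0 d)
lemma Frame_φ (d : T.D) : PM (d.F * Um (1 + (T.φ d).x ^ 2 * (T.φ d).s) *
    ex (Real.log (T.φ d).x) w0) (T.φ d).G := by
  rw [mul_assoc, ← Frame_key (T.φ d).x_pos, ← mul_assoc]
  exact (F_φ d).mul (PM.refl _)
lemma s_rec (d : T.D) : d.s = 1 + (T.φ d).x ^ 2 * (T.φ d).s := by
  refine Frame_s ?_
  have h := (Frame_φ d).ad w0
  rwa [mul_smul, ex_ad_self, G_w0, φ_a] at h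
lemma Frame_Gφ (d : T.D) : PM (d.G * ex (Real.log (T.φ d).x) w0) (T.φ d).G := by
  have h := Frame_φ d
  rwa [← s_rec] at h
lemma Frame_Gs (g : Γ) (d : T.D) : PM ((g : SL(2, ℝ)) * d.G) (g • d).G := by
  rw [D.G, D.G, s_smul, ← mul_assoc]
  exact (F_smul g d).mul (PM.refl _)
lemma G_φ_E0 (d : T.D) : (T.φ d).G • E0 = (T.φ d).x ^ 2 • d.G • E0 := by
  obtain ⟨a, b, c, e⟩ := Frame_D (T.φ d).x_pos
  rw [← (Frame_Gφ d).ad, mul_smul, ← ad_real]
  congr 1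
  ext <;> simp [ad_a, ad_b, ad_c, E0, a, b, c]
lemma yy_pos (d d' : T.D) : 0 < yy d d' := by
  unfold yy
  split_ifs with h
  exacts [h.choose_spec.1, one_pos]
lemma Frame_yy' {d d' : T.D} (h : ∃ y, 0 < y ∧ PM (d.G * Sm y) d'.G) :
    PM (d.G * Sm (yy d d')) d'.G := by
  unfold yy
  rw [dif_pos h]
  exact h.choose_spec.2
lemma Frame_yy {d d' : T.D} {y : ℝ} (hy : 0 < y) (h : PM (d.G * Sm y) d'.G) : yy d d' = y :=
  Sm_pm_inj (yy_pos d d') hy (Frame_cancel ((Frame_yy' ⟨y, hy, h⟩).trans h.symm))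
lemma G_opp {d d' : T.D} (h : d'.a = -d.a) : PM (d.G * Sm (yy d d')) d'.G := by
  have h1 : (d.G⁻¹ * d'.G) • w0 = -w0 := by
    rw [mul_smul, G_w0, h, smul_neg, ← G_w0 d, inv_smul_smul]
  have h2 : ∀ k : SL(2, ℝ), k • w0 = -w0 → k 0 0 = 0 ∧ k 1 1 = 0 := fun k e => by
    have hd := det_eq k
    have a := congrArg V.a e
    have b := congrArg V.b e
    have c := congrArg V.c e
    simp only [ad_a, ad_b, ad_c, w0, V.neg_a, V.neg_b, V.neg_c] at a b c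
    exact ⟨by linear_combination (k 1 0 / 2) * b + (k 0 0 / 2) * (a - hd),
      by linear_combination (-k 0 1 / 2) * c + (k 1 1 / 2) * (a - hd)⟩
  obtain ⟨x, hx, e⟩ := Frame_anti (h2 _ h1).1 (h2 _ h1).2
  exact Frame_yy' ⟨x, hx, by simpa only [mul_inv_cancel_left] using (PM.refl d.G).mul e⟩
lemma yy_symm {d d' : T.D} (h : d'.a = -d.a) : yy d' d = yy d d' := by
  refine Frame_yy (yy_pos d d') (((G_opp h).symm.mul (PM.refl _)).trans ?_)
  rw [mul_assoc, Frame_SS (yy_pos d d').ne', mul_neg, mul_one]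
  exact (PM.neg _).symm
lemma yy_smul (g : Γ) {d d' : T.D} (h : d'.a = -d.a) : yy (g • d) (g • d') = yy d d' := by
  refine Frame_yy (yy_pos d d') (((Frame_Gs g d).symm.mul (PM.refl _)).trans ?_)
  rw [mul_assoc]
  exact ((PM.refl _).mul (G_opp h)).trans (Frame_Gs g _)
lemma yy_φ {d d' : T.D} (h : d'.a = -d.a) : yy (T.φ d) d' = (T.φ d).x * yy d d' := by
  refine Frame_yy (mul_pos (T.φ d).x_pos (yy_pos d d'))
    (((Frame_Gφ d).symm.mul (PM.refl _)).trans ?_)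
  rw [mul_assoc, Frame_DS (T.φ d).x_pos (yy_pos d d')]
  exact G_opp h
lemma yy_pow {d d' : T.D} (h : d'.a = -d.a) (i j : ℕ) :
    yy ((T.φ ^ i) d) ((T.φ ^ j) d') = yy d d' * Pr T.φ D.x d i * Pr T.φ D.x d' j := by
  have key : ∀ {d d' : T.D}, d'.a = -d.a → ∀ i : ℕ,
      yy ((T.φ ^ i) d) d' = yy d d' * Pr T.φ D.x d i := by
    intro d d' h i
    induction i with
    | zero => simp [Pr]
    | succ i ih =>
      rw [Pr_succ, pow_succ', Equiv.Perm.mul_apply, yy_φ (by rwa [φ_pow_a]), ih]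
      ring
  have h1 : d'.a = -((T.φ ^ i) d).a := by rwa [φ_pow_a]
  have h2 : ((T.φ ^ i) d).a = -d'.a := by rw [h1, neg_neg]
  rw [yy_symm (d := (T.φ ^ j) d') (d' := (T.φ ^ i) d) (by rw [h2, φ_pow_a]), key h2, ← yy_symm h2, key h]
lemma F_opp {d d' : T.D} (h : d'.a = -d.a) :
    PM (d.F * Um d.s * Sm (yy d d') * Um (-d'.s)) d'.F := by
  have e := (G_opp h).mul (PM.refl (Um (-d'.s)))
  rwa [D.G, D.G, mul_assoc d'.F, Um_mul, add_neg_cancel, Um_zero, mul_one] at e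
lemma F_jump {d d' : T.D} (h : d'.a = -d.a) :
    PM (d.F * -(Um d.s * Sm (yy d d') * Um (-d'.s) * Sm d'.x)) (T.ι d').F := by
  rw [mul_neg, ← mul_assoc, ← mul_assoc, ← mul_assoc]
  exact (PM.neg _).symm.trans (((F_opp h).mul (PM.refl _)).trans (F_ι _))
lemma Pr_f (d : T.D) {t : ℝ} (h : Prim Γ d.a t) : Pr T.φ D.x d d.f = Real.exp (-t) := by
  have hp := Pr_pos T.φ (fun e : T.D => e.x_pos) d
  have key : ∀ i : ℕ, PM (d.G * ex (Real.log (Pr T.φ D.x d i)) w0) ((T.φ ^ i) d).G := by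
    intro i
    induction i with
    | zero => simpa [Pr, ex_zero] using PM.refl _
    | succ i ih =>
      rw [Pr_succ, Real.log_mul (hp i).ne' (D.x_pos _).ne', ex_add, ← mul_assoc, pow_succ',
        Equiv.Perm.mul_apply]
      exact (ih.mul (PM.refl _)).trans (Frame_Gφ _)
  have hm : ex (-t) d.a ∈ Γ := by
    rw [ex_neg]
    exact inv_mem h.mem
  have h1 := key d.f
  rw [d.f_spec h (γ := ⟨_, hm⟩) (PM.refl _)] at h1
  have h2 := h1.trans (Frame_Gs ⟨_, hm⟩ d).symm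
  have h3 : ex (-t) d.a * d.G = d.G * ex (-t) w0 := by
    rw [← G_w0 d, ← ex_conj, inv_mul_cancel_right]
  simp only [h3] at h2
  rw [← ex_pm_inj B_w0 (Frame_cancel h2), Real.exp_log (hp _)]
lemma s_eq_sig (d : T.D) : d.s = sig T.φ D.x d d.f := by
  obtain ⟨t, h⟩ := T.nice.exists_prim (T.ws.per _ d.a_mem)
  have hm : ex (-t) d.a ∈ Γ := by
    rw [ex_neg]
    exact inv_mem h.mem
  refine sig_eq_of_rec T.φ (fun e : T.D => e.x_pos) s_rec ?_ ?_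
  · rw [Pr_f d h]
    exact (Real.exp_lt_one_iff.2 (neg_neg_of_pos h.pos)).ne
  · rw [d.f_spec h (γ := ⟨_, hm⟩) (PM.refl _), s_smul]

end Tr

end

end Pool.Agent.P.MP_d39174_gt
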