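import Pool.Agent.P.MP_d39174_gt.V

/-! The finite combinatorial type of a critical point and its realisations. -/

namespace Pool.Agent.P.MP_d39174_gt

open UpperHalfPlane MatrixGroups

noncomputable section

open Finset

abbrev M2 := Matrix (Fin 2) (Fin 2) ℝ

def mA (x : ℝ) : M2 := !![x, 1 / x; 0, 1 / x]
def mB (x : ℝ) : M2 := !![x, 0; x, 1 / x]
def mJ (s s' y x : ℝ) : M2 := !![1, s; 0, 1] * !![x / y, 0; y * s' * x, y / x]

def Nm : SL(2, ℝ) := ⟨!![0, -1; 1, -1], by simp [Matrix.det_fin_two_of]⟩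
def Um (s : ℝ) : SL(2, ℝ) := ⟨!![1, s; 0, 1], by simp [Matrix.det_fin_two_of]⟩
open Classical in
def Sm (x : ℝ) : SL(2, ℝ) :=
  if h : x ≠ 0 then ⟨!![0, -1 / x; x, 0], by
    rw [Matrix.det_fin_two_of]; field_simp; ring⟩ else 1

/-- Product of the shears along `i` steps of a fan. -/
def Pr {D : Type} (φ : Equiv.Perm D) (x : D → ℝ) (d : D) (i : ℕ) : ℝ :=
  ∏ m ∈ range i, x ((φ ^ (m + 1)) d)

/-- Position of the far end of the wall, for a fan of period `f`. -/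
def sig {D : Type} (φ : Equiv.Perm D) (x : D → ℝ) (d : D) (f : ℕ) : ℝ :=
  (∑ i ∈ range f, Pr φ x d i ^ 2) / (1 - Pr φ x d f ^ 2)

/-- The exponential path with slope `ξ`. -/
def pth {D : Type} (x ξ : D → ℝ) (t : ℝ) : D → ℝ := fun d => x d * Real.exp (t * ξ d)

/-- Ordered product of the first `m` matrices. -/
def mprod (A : ℕ → M2) : ℕ → M2
  | 0 => 1
  | m + 1 => mprod A m * A m

/-- Darts `D` with a trivalent ribbon structure and a pairing `κ` of base darts, and strands `S`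
that record how the systoles pass through the triangulation. -/
@[ext] structure Mdl (D S : Type) where
  ι : Equiv.Perm D
  ν : Equiv.Perm D
  κ : Equiv.Perm D
  on : S → Bool
  bs : S → D
  kd : S → Fin 3
  oi : S → ℕ
  oj : S → ℕ
  nx : S → S

namespace Mdl

variable {D S : Type} (M : Mdl D S)

def φ : Equiv.Perm D := M.ι * M.ν * M.ν
def ψ : Equiv.Perm D := M.ι * M.ν
def per (d : D) : ℕ := Function.minimalPeriod M.φ d
def sg (x : D → ℝ) (d : D) : ℝ := sig M.φ x d (M.per d)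
def base (s : S) : D := (M.φ⁻¹ ^ M.oi s) (M.bs s)
def tgt (s : S) : D := (M.φ ^ M.oj s) (M.κ (M.base s))
def step (s : S) : D :=
  if M.kd s = 0 then M.φ (M.bs s) else if M.kd s = 1 then M.ψ (M.bs s) else M.ι (M.tgt s)
def tw (x y : D → ℝ) (s : S) : ℝ :=
  y (M.base s) * Pr M.φ x (M.base s) (M.oi s) * Pr M.φ x (M.κ (M.base s)) (M.oj s)
def mat (x y : D → ℝ) (s : S) : M2 :=
  if M.kd s = 0 then mA (x (M.φ (M.bs s))) else if M.kd s = 1 then mB (x (M.ψ (M.bs s)))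
  else mJ (M.sg x (M.bs s)) (M.sg x (M.tgt s)) (M.tw x y s) (x (M.tgt s))
def trW (x y : D → ℝ) (s : S) : ℝ :=
  (mprod (fun m => M.mat x y (M.nx^[m] s)) (Function.minimalPeriod M.nx s)).trace

/-- Parameters that realise the type as a critical point with trace `T`. -/
structure Real [Fintype S] (x y : D → ℝ) (T : ℝ) : Prop where
  x_pos : ∀ d, 0 < x d
  y_pos : ∀ d, 0 < y d
  x_ι : ∀ d, x (M.ι d) = x d
  y_κ : ∀ d, y (M.κ d) = y d
  lt : ∀ d, Pr M.φ x d (M.per d) < 1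
  fan : ∀ d, Pr M.φ x d (M.per d) + 1 / Pr M.φ x d (M.per d) = T
  tr : ∀ s, M.on s → M.trW x y s = T
  crit : ∃ c : S → ℝ, (∀ s, M.on s → 0 < c s) ∧ ∀ (ξ η : D → ℝ) (μ : ℝ),
    (∀ d, ξ (M.ι d) = ξ d) → (∀ d, η (M.κ d) = η d) →
    (∀ d, ∑ m ∈ range (M.per d), ξ ((M.φ ^ (m + 1)) d) = μ) →
    ∑ s ∈ univ.filter (fun s => M.on s),
      c s * deriv (fun t => M.trW (pth x ξ t) (pth y η t) s) 0 = 0
  periodic : ∀ s, M.on s → s ∈ Function.periodicPts M.nx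
  cover : ∀ β, M.κ β ≠ β → ∃ s, M.on s ∧ M.kd s = 2 ∧ M.base s = β
  base_ex : ∀ d, ∃ i : ℕ, M.κ ((M.φ ^ i) d) ≠ (M.φ ^ i) d

/-- Holonomy along paths of darts. -/
inductive Reach (x y : D → ℝ) (d₀ : D) : D → SL(2, ℝ) → Prop
  | base : Reach x y d₀ d₀ 1
  | neg {d g} : Reach x y d₀ d g → Reach x y d₀ d (-g)
  | nu {d g} : Reach x y d₀ d g → Reach x y d₀ (M.ν d) (g * Nm)
  | io {d g} : Reach x y d₀ d g → Reach x y d₀ (M.ι d) (g * Sm (x d))
  | ka {d g} : M.κ d ≠ d → Reach x y d₀ d g →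
      Reach x y d₀ (M.κ d) (g * Um (M.sg x d) * Sm (y d) * Um (-M.sg x (M.κ d)))

/-- `Γ` is the holonomy group of the parameters. -/
def Gen (Γ : Subgroup SL(2, ℝ)) (x y : D → ℝ) : Prop :=
  ∀ d₀, ∃ F : SL(2, ℝ), ∀ g, g ∈ Γ ↔ M.Reach x y d₀ d₀ (F⁻¹ * g * F)

open Classical in
/-- Combinatorial constraints used for counting. -/
structure Shape [Fintype D] [Fintype S] (k m₀ D₀ : ℕ) : Prop where
  ne : Nonempty D
  ι_ι : ∀ d, M.ι (M.ι d) = d
  ι_ne : ∀ d, M.ι d ≠ d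
  ν3 : ∀ d, M.ν (M.ν (M.ν d)) = d
  ν_ne : ∀ d, M.ν d ≠ d
  κ_κ : ∀ d, M.κ (M.κ d) = d
  trans : ∀ U : Set D, (∀ d ∈ U, M.ι d ∈ U) → (∀ d ∈ U, M.ν d ∈ U) → U.Nonempty → U = Set.univ
  base_ex : ∀ d, ∃ i : ℕ, M.κ ((M.φ ^ i) d) ≠ (M.φ ^ i) d
  base_uniq : ∀ β β', M.κ β ≠ β → M.κ β' ≠ β' → M.φ.SameCycle β β' → β = β'
  card_base : (univ.filter fun β => M.κ β ≠ β).card = 2 * k
  nx : ∀ s, M.on s → M.on (M.nx s) ∧ M.bs (M.nx s) = M.step s
  off : ∀ s, M.on s → M.kd s ≠ 2 → M.oi s = 0 ∧ M.oj s = 0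
  jump : ∀ s, M.on s → M.kd s = 2 → M.κ (M.base s) ≠ M.base s ∧ M.oi s ≤ M.per (M.base s) ∧
    M.oj s ≤ m₀ * M.per (M.κ (M.base s))
  fib : ∀ d, (univ.filter fun s => M.on s ∧ M.bs s = d).card ≤ D₀
  fib2 : ∀ β, (univ.filter fun s => M.on s ∧ M.kd s = 2 ∧ M.base s = β).card ≤ D₀

end Mdl

/-- Number of cycles, fixed points included. -/
def cyc {X : Type} (σ : Equiv.Perm X) : ℕ := Nat.card (Quotient (Equiv.Perm.SameCycle.setoid σ))

/-- The involution `j` splits the cycles of `c` as much as possible. -/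
def MaxSplit {X : Type} [Fintype X] [DecidableEq X] (c j : Equiv.Perm X) : Prop :=
  (∀ x, j (j x) = x) ∧ j.support.card + 2 = 2 * cyc (c * j)

/-- Ribbon structures labelled along the contour of a spanning tree. -/
def Lab (n r : ℕ) (ι ν : Equiv.Perm (Fin n)) : Prop :=
  ∃ jT jS jR : Equiv.Perm (Fin n), MaxSplit (finRotate n) jT ∧ (∀ x, jR (jR x) = x) ∧
    jR.support.card = 2 * r ∧ cyc (finRotate n * jR) = 1 ∧ MaxSplit (finRotate n * jR) jS ∧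
    ν = finRotate n * jT ∧ ι = jT * jS * jR

/-- Types in canonical form. -/
def Canon (n D₀ r k b : ℕ) : Set (Mdl (Fin n) (Fin n × Fin D₀)) :=
  {M | Lab n r M.ι M.ν ∧ (∀ d, M.κ (M.κ d) = d) ∧ M.κ.support.card = 2 * k ∧
    (∀ s, M.bs s = s.1) ∧ (∀ s, (M.nx s).1 = M.step s) ∧ ∑ s, M.oi s ≤ b ∧ ∑ s, M.oj s ≤ b}

end

end Pool.Agent.P.MP_d39174_gt
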