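import Pool.Agent.P.MP_d39174_gt.Fan
import Pool.Agent.P.MP_d39174_gt.MdlDef

/-! Frames, shears and twists of a triangulation. -/

namespace Pool.Agent.P.MP_d39174_gt

open UpperHalfPlane MatrixGroups

noncomputable section

namespace Tr

variable {Γ : Subgroup SL(2, ℝ)} {T : Tr Γ}

/-- `F` carries `∞, 0, 1` to the vertices of the triangle of `d`. -/
def IsFr (d : T.D) (F : SL(2, ℝ)) : Prop :=
  br (F • (⟨1, 0⟩ : W)) (ev d.a) = 0 ∧ br (F • (⟨0, 1⟩ : W)) (ev d.b) = 0 ∧
    br (F • (⟨1, 1⟩ : W)) (ev d.c) = 0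

open Classical in
def D.F (d : T.D) : SL(2, ℝ) := if h : ∃ F, IsFr d F then h.choose else 1

open Classical in
/-- Exponential of half the shear. -/
def D.x (d : T.D) : ℝ := if h : ∃ x, 0 < x ∧ PM (d.F * Sm x) (T.ι d).F then h.choose else 1

open Classical in
def D.s (d : T.D) : ℝ := if h : ∃ s, (d.F * Um s) • w0 = d.a then h.choose else 0

/-- The frame of the wall `d.a` attached to `d`. -/
def D.G (d : T.D) : SL(2, ℝ) := d.F * Um d.s

open Classical in
/-- Exponential of half the twist. -/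
def yy (d d' : T.D) : ℝ := if h : ∃ y, 0 < y ∧ PM (d.G * Sm y) d'.G then h.choose else 1

end Tr

end

end Pool.Agent.P.MP_d39174_gt
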