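import Pool.Agent.P.MP_d39174_gt.Cover
import Pool.Agent.P.MP_d39174_gt.Red

/-! Galleries: short displacements give short paths. -/

namespace Pool.Agent.P.MP_d39174_gt

open UpperHalfPlane MatrixGroups

noncomputable section

open Equiv

lemma Gal_near {n : V} (hn : B n n = 1) {z : ℍ} {D : ℝ} (e : |B n (Hy z)| ≤ Real.sinh D) :
    ∃ w : ℍ, B n (Hy w) = 0 ∧ dist z w ≤ D := by
  obtain ⟨w, h1, h2, -⟩ := exists_foot hn z
  refine ⟨w, h1, ?_⟩
  rw [h2, ← Real.arsinh_sinh D]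
  exact Real.arsinh_le_arsinh.2 e

section

variable {Vx H : Type} {G : SimpleGraph Vx} {C : Cmb G H} (P : Poly C)

lemma Gal_zero {n m p : V} (e : n = m ∨ n = -m) (h : B n p = 0) : B m p = 0 := by
  rcases e with rfl | rfl
  · exact h
  · rwa [B_neg_left, neg_eq_zero] at h

lemma Gal_foot [Finite Vx] {κ D : ℝ} (r : P.Rat κ) {n : V} (hn : n ∈ P.S) {z : ℍ}
    (e : |B n (Hy z)| ≤ Real.sinh D) : ∃ p : ℍ, dist z p ≤ D + κ ∧ ∃ k ∈ P.Γb, ∃ h,
      (n = k • P.ν h ∨ n = -(k • P.ν h)) ∧ p = pt (k • P.φ h) := by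
  obtain ⟨w, h1, h2⟩ := Gal_near (P.S_unit hn) e
  obtain ⟨γ, hγ, hQ⟩ := P.cover w
  obtain ⟨k0, hk0, h0, rfl⟩ := hn
  have hk := P.Γb.inv_mem (P.mem_Γ.1 hγ)
  have e1 : (ad γ)⁻¹ • Hy (γ • w) = Hy w := by rw [Hy_smul, ← ad_smul, inv_smul_smul]
  obtain ⟨h, e2, -⟩ := P.side_of_zero hk0 hk hQ (e1 ▸ h1)
  refine ⟨_, ?_, _, hk, h, e2, rfl⟩
  have e3 := Gal_zero e2 h1
  rw [← e1, PS.B_smul] at e3
  have e4 := P.dist_φ r hQ h (D := 0) (by rw [e3, abs_zero, Real.sinh_zero])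
  have e5 := PS.dist_pt (ad γ)⁻¹ (Hy_fut (γ • w)) (P.φ_fut h)
  rw [e1, pt_Hy, pt_Hy] at e5
  linarith [dist_triangle z w (pt ((ad γ)⁻¹ • P.φ h))]

lemma Gal_pos {h k : H} (e : k ≠ h) : 0 < B (P.ν k) (P.φ h) :=
  (div_pos (P.y_pos k) (P.c_pos h)).trans_le (P.le_B_φ e)

lemma Gal_sep1 {κ : ℝ} (hκ : 1 ≤ κ) (r : P.Rat κ) {k k' : PS} (hk : k ∈ P.Γb) (hk' : k' ∈ P.Γb)
    {h h' : H} (d : dist (pt (k • P.φ h)) (pt (k' • P.φ h')) < Real.arsinh (1 / (2 * κ)))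
    (e : 0 ≤ B (k' • P.ν h') (k • P.φ h)) :
    k • P.ν h = k' • P.ν h' ∨ k • P.ν h = -(k' • P.ν h') := by
  have f1 : Fut (k • P.φ h) := PS.fut k (P.φ_fut h)
  have u1 : B (k • P.φ h) (k • P.φ h) = -1 := by rw [PS.B_smul, P.φ_unit]
  have u2 : B (k' • P.φ h') (k' • P.φ h') = -1 := by rw [PS.B_smul, P.φ_unit]
  have a1 : ∀ j, j ≠ h' → 0 < B (k' • P.ν j) (k • P.φ h) := fun j hj => by
    have b1 := lip (n := k' • P.ν j) (by rw [PS.B_smul, P.unit]) (pt (k • P.φ h)) (pt (k' • P.φ h'))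
    rw [Hy_pt_unit f1 u1, Hy_pt_unit (PS.fut k' (P.φ_fut h')) u2, PS.B_smul] at b1
    have b2 : P.c h' ≤ 2 * P.y h' := by
      have := r.1 (C.lab h')
      refine abs_le_of_sq_le_sq' ?_ (by linarith [P.y_pos h']) |>.2
      rw [P.c_sq]
      change 1 ≤ P.y h' at this
      nlinarith
    have b3 : 1 / (2 * κ) ≤ B (P.ν j) (P.φ h') := by
      refine le_trans ?_ (P.le_B_φ hj)
      have : P.y h' ≤ κ * P.y j := r.2 _ _
      rw [div_le_div_iff₀ (by positivity) (P.c_pos h')]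
      linarith
    have b4 := Real.arsinh_le_arsinh.2 b3
    exact Real.arsinh_pos_iff.1 (by linarith [(abs_le.1 b1).1])
  have hQ : P.Q (k'⁻¹ • k • P.φ h) := ⟨PS.fut _ f1, fun j => by
    rw [← PS.B_left]
    by_cases hj : j = h'
    · rwa [hj]
    · exact (a1 j hj).le⟩
  have z0 : B (k • P.ν h) (k • P.φ h) = 0 := by rw [PS.B_smul, P.ν_φ]
  obtain ⟨j, e2, -⟩ := P.side_of_zero hk hk' hQ (h := h) (by rwa [smul_inv_smul])
  obtain rfl : j = h' := by_contra fun hj => (a1 j hj).ne' (Gal_zero e2 z0)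
  exact e2

lemma Gal_sep {κ : ℝ} (hκ : 1 ≤ κ) (r : P.Rat κ) {k k' : PS} (hk : k ∈ P.Γb) (hk' : k' ∈ P.Γb)
    {h h' : H} (d : dist (pt (k • P.φ h)) (pt (k' • P.φ h')) < Real.arsinh (1 / (2 * κ))) :
    k • P.ν h = k' • P.ν h' ∨ k • P.ν h = -(k' • P.ν h') := by
  rcases le_total 0 (B (k' • P.ν h') (k • P.φ h)) with e | e
  · exact Gal_sep1 P hκ r hk hk' d e
  · have e1 : (k' * P.τ h') • P.ν (C.α h') = -(k' • P.ν h') := by
      rw [mul_smul, P.τ_ν, PS.smul_neg]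
    have := Gal_sep1 P hκ r hk (P.Γb.mul_mem hk' (P.τ_mem h')) (h' := C.α h')
      (by rwa [mul_smul, P.τ_φ]) (by rw [e1, B_neg_left]; linarith)
    rw [e1, neg_neg] at this
    exact this.symm

lemma Gal_f (k : PS) (h : H) : Rch P.A P.R 3 (k, h) (k, C.f h) :=
  ⟨[3], by simp, P.stp_three k h⟩

lemma Gal_f_inv (k : PS) (h : H) : Rch P.A P.R 3 (k, C.f h) (k, h) := by
  refine ⟨[0, 1, 0], le_rfl, ?_⟩
  change P.A ((P.R ^ 1) (P.A (P.A (k, C.f h)))) = _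
  rw [P.A_A, pow_one]
  change (k * P.τ (C.α (C.ρ (C.f h))) * P.τ (C.ρ (C.f h)), C.α (C.ρ (C.f h))) = _
  rw [P.τ_α, inv_mul_cancel_right, C.ρ_f, C.α2]

lemma Gal_pow (k : PS) (h : H) (j : ℕ) : Rch P.A P.R (3 * j) (k, h) (k, (C.f ^ j) h) ∧
    Rch P.A P.R (3 * j) (k, (C.f ^ j) h) (k, h) := by
  induction j with
  | zero => exact ⟨⟨[], le_rfl, rfl⟩, [], le_rfl, rfl⟩
  | succ j ih =>
    rw [pow_succ', Perm.mul_apply]
    exact ⟨ih.1.trans (Gal_f P k _), ((Gal_f_inv P k _).trans ih.2).mono (by omega)⟩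

end

/-- Only boundedly many walls meet a ball. -/
theorem walls_bound (κ D : ℝ) (hκ : 1 ≤ κ) : ∃ N : ℕ, ∀ (Vx H : Type) [Finite Vx]
    (G : SimpleGraph Vx) (C : Cmb G H) (P : Poly C), P.Rat κ → ∀ z : ℍ,
    {n | n ∈ P.S ∧ |B n (Hy z)| ≤ Real.sinh D}.Finite ∧
      {n | n ∈ P.S ∧ |B n (Hy z)| ≤ Real.sinh D}.ncard ≤ N := by
  have c0 : 0 < Real.arsinh (1 / (2 * κ)) := Real.arsinh_pos_iff.2 (by positivity)
  obtain ⟨M, hM⟩ := pack (D + κ) _ c0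
  refine ⟨M + M, fun Vx H _ G C P r z => ?_⟩
  obtain ⟨W, hW⟩ : ∃ W : Set V, W = {n | (n ∈ P.S ∧ |B n (Hy z)| ≤ Real.sinh D) ∧ 0 < B n o0} :=
    ⟨_, rfl⟩
  have h1 : ∀ n ∈ W, ∃ p : ℍ, dist z p ≤ D + κ ∧ ∃ k ∈ P.Γb, ∃ h,
      (n = k • P.ν h ∨ n = -(k • P.ν h)) ∧ p = pt (k • P.φ h) := fun n hn => by
    rw [hW] at hn
    exact Gal_foot P r hn.1.1 hn.1.2
  choose! p hp using h1
  have h2 : ∀ n ∈ W, ∀ n' ∈ W, dist (p n) (p n') < Real.arsinh (1 / (2 * κ)) → n = n' := by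
    intro n hn n' hn' d
    obtain ⟨-, k, hk, h, e1, e2⟩ := hp n hn
    obtain ⟨-, k', hk', h', e1', e2'⟩ := hp n' hn'
    rw [e2, e2'] at d
    have e3 := Gal_sep P hκ r hk hk' d
    have e4 : n = n' ∨ n = -n' := by
      rcases e1 with rfl | rfl <;> rcases e1' with rfl | rfl <;> rcases e3 with e3 | e3 <;>
        simp [e3]
    refine e4.resolve_right fun e5 => ?_
    rw [hW] at hn hn'
    have a1 := hn.2
    rw [e5, B_neg_left] at a1
    linarith [hn'.2]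
  have h3 : Set.InjOn p W := fun n hn n' hn' e => h2 n hn n' hn' (by rwa [e, dist_self])
  obtain ⟨h4, h5⟩ := hM z (p '' W) (by
    rintro _ ⟨n, hn, rfl⟩
    exact (hp n hn).1) (by
    rintro _ ⟨n, hn, rfl⟩ _ ⟨n', hn', rfl⟩ e
    exact not_lt.1 fun d => e (congrArg p (h2 n hn n' hn' d)))
  rw [h3.ncard_image] at h5
  have h6 : W.Finite := h4.of_finite_image h3
  have h7 : {n | n ∈ P.S ∧ |B n (Hy z)| ≤ Real.sinh D} ⊆ W ∪ (fun n => -n) '' W := by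
    intro n hn
    rw [hW]
    rcases P.sign hn.1 P.Γb.one_mem with e | e <;> rw [one_smul] at e
    · exact .inl ⟨hn, e.1⟩
    · refine .inr ⟨-n, ⟨⟨P.S_neg hn.1, ?_⟩, ?_⟩, neg_neg n⟩
      · rw [B_neg_left, abs_neg]
        exact hn.2
      · rw [B_neg_left]
        linarith [e.1]
  have h8 := h6.union (h6.image fun n => -n)
  exact ⟨h8.subset h7, (Set.ncard_le_ncard h7 h8).trans ((Set.ncard_union_le _ _).trans
    (add_le_add h5 ((Set.ncard_image_le h6).trans h5)))⟩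

namespace Poly

variable {Vx H : Type} {G : SimpleGraph Vx} {C : Cmb G H} (P : Poly C)

/-- Two sides of a tile with close walls are joined by few moves. -/
lemma rch_near {D : ℝ} {K : ℕ} (near : P.Near (Real.cosh (2 * D)) K) {k : PS} {h h' : H} {z : ℍ}
    (e : |B (k • P.ν h) (Hy z)| ≤ Real.sinh D) (e' : |B (k • P.ν h') (Hy z)| ≤ Real.sinh D) :
    Rch P.A P.R (3 * K) (k, h) (k, h') := by
  have u : ∀ j, B (k • P.ν j) (k • P.ν j) = 1 := fun j => by rw [PS.B_smul, P.unit]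
  obtain ⟨w, h1, h2⟩ := Gal_near (u h) e
  obtain ⟨w', h1', h2'⟩ := Gal_near (u h') e'
  have a1 := abs_B_le_cosh (u h) (u h') h1 h1'
  have a2 : dist w w' ≤ 2 * D := by linarith [dist_triangle_left w w' z]
  have a3 := Real.cosh_le_cosh.2 ((abs_of_nonneg dist_nonneg).trans_le (a2.trans (le_abs_self _)))
  rw [PS.B_smul] at a1
  obtain ⟨j, hj, rfl | rfl⟩ := near h h' (by linarith [(abs_le.1 a1).1])
  · exact (Gal_pow P k h j).1.mono (by omega)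
  · exact (Gal_pow P k h' j).2.mono (by omega)

/-- The walls that separate two tiles decrease along a greedy gallery. -/
lemma sep_step {k g : PS} (hk : k ∈ P.Γb) (hg : g ∈ P.Γb) {h : H}
    (e : B (k • P.ν h) (g • o0) < 0) :
    {n | n ∈ P.S ∧ 0 < B n ((k * P.τ h) • o0) ∧ B n (g • o0) < 0} ⊆
      {n | n ∈ P.S ∧ 0 < B n (k • o0) ∧ B n (g • o0) < 0} \ {k • P.ν h} := by
  rintro n ⟨hn, h1, h2⟩
  have a1 : n ≠ k • P.ν h := by
    rintro rfl
    rw [mul_smul, PS.B_smul, P.τ_o0, B_sub_right, B_smul_right, P.unit, P.cen] at h1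
    have := P.y_pos h
    change 0 < P.y h - _ at h1
    linarith
  refine ⟨⟨hn, ?_, h2⟩, a1⟩
  rcases P.sign hn hk with a2 | a2
  · exact a2.1
  · rcases P.sign hn (P.Γb.mul_mem hk (P.τ_mem h)) with a3 | a3
    · have a4 := a3.2 _ (P.Q_φ (C.α h))
      rw [mul_smul, P.τ_φ] at a4
      have a5 := le_antisymm (a2.2 _ (P.Q_φ h)) a4
      obtain ⟨k0, hk0, h0, rfl⟩ := hn
      obtain ⟨j, a6, -⟩ := P.side_of_zero hk0 hk (P.Q_φ h) a5
      have a7 := Gal_zero a6 a5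
      rw [PS.B_smul] at a7
      obtain rfl : j = h := by_contra fun hj => (Gal_pos P hj).ne' a7
      rw [a6.resolve_left a1, B_neg_left] at h2
      linarith
    · linarith [a3.1]

end Poly

/-- An element with a short displacement closes a short path of arcs near the point. -/
theorem gallery (κ D : ℝ) (hκ : 1 ≤ κ) (K₀ : ℕ) : ∃ K : ℕ, ∀ (Vx H : Type) [Finite Vx]
    (G : SimpleGraph Vx) (C : Cmb G H) (P : Poly C), P.Rat κ → P.Near (Real.cosh (2 * D)) K₀ →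
    ∀ γ ∈ P.Γ, ad γ ≠ 1 → ∀ z : ℍ, P.Q (Hy z) → dist z (γ • z) ≤ D →
    ∃ (h : H) (js : List ℕ), dist z (pt (P.φ h)) ≤ D + κ ∧ js.length ≤ K ∧
      run P.A P.R (1, h) js = (ad γ, h) := by
  obtain ⟨N, hN⟩ := walls_bound κ D hκ
  refine ⟨(N + 1) * (3 * K₀ + 1), fun Vx H _ G C P r near γ hγ h1 z hz d => ?_⟩
  obtain ⟨fin, card⟩ := hN Vx H G C P r z
  have hg := P.mem_Γ.1 hγ
  obtain ⟨Sep, hS⟩ : ∃ Sep : PS → Set V, ∀ k, Sep k =
      {n | n ∈ P.S ∧ 0 < B n (k • o0) ∧ B n (ad γ • o0) < 0} := ⟨_, fun _ => rfl⟩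
  have a1 : ∀ n ∈ Sep 1, |B n (Hy z)| ≤ Real.sinh D ∧ |B n (Hy (γ • z))| ≤ Real.sinh D := by
    intro n hn
    rw [hS] at hn
    obtain ⟨hn, b1, b2⟩ := hn
    have b3 := ((P.sign hn P.Γb.one_mem).resolve_right fun e => lt_asymm b1 e.1).2 _ hz
    have b4 := ((P.sign hn hg).resolve_left fun e => lt_asymm b2 e.1).2 _ hz
    rw [one_smul] at b3
    rw [ad_smul, ← Hy_smul] at b4
    obtain ⟨y, s, t, hs, ht, e1, e2⟩ := seg_zero b4 b3
    have e3 := dist_add_of_comb hs ht e1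
    rw [dist_comm y, dist_comm _ z] at e3
    exact ⟨abs_B_le_sinh (P.S_unit hn) e2 (by linarith [dist_nonneg (x := γ • z) (y := y)]),
      abs_B_le_sinh (P.S_unit hn) e2 (by linarith [dist_nonneg (x := z) (y := y)])⟩
  have a2 : Sep 1 ⊆ {n | n ∈ P.S ∧ |B n (Hy z)| ≤ Real.sinh D} := fun n hn =>
    ⟨by rw [hS] at hn; exact hn.1, (a1 n hn).1⟩
  have a3 : ∀ k ∈ P.Γb, k ≠ ad γ → ∃ h, k • P.ν h ∈ Sep k := fun k hk e => by
    obtain ⟨h, b1, -⟩ := P.sepa (P.Γb.mul_mem (P.Γb.inv_mem hg) hk)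
      fun e' => e (inv_mul_eq_one.1 e').symm
    rw [mul_smul, PS.B_left, inv_inv] at b1
    refine ⟨h, ?_⟩
    rw [hS]
    exact ⟨⟨k, hk, h, rfl⟩, by rw [PS.B_smul, P.cen]; exact P.pos _, b1⟩
  obtain ⟨h, hh⟩ := a3 1 P.Γb.one_mem h1.symm
  have a4 := a1 _ hh
  have a5 : |B (ad γ • P.ν h) (Hy (γ • z))| ≤ Real.sinh D := by
    rw [Hy_smul, ad_smul, B_ad, ← one_smul PS (P.ν h)]
    exact a4.1
  have key : ∀ i, ∀ k ∈ P.Γb, ∀ h0, Sep k ⊆ Sep 1 → (Sep k).ncard < i →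
      |B (k • P.ν h0) (Hy z)| ≤ Real.sinh D → |B (k • P.ν h0) (Hy (γ • z))| ≤ Real.sinh D →
      Rch P.A P.R (i * (3 * K₀ + 1)) (k, h0) (ad γ, h) := by
    intro i
    induction i with
    | zero => exact fun _ _ _ _ e => absurd e (Nat.not_lt_zero _)
    | succ i ih =>
      intro k hk h0 b1 b2 b3 b4
      by_cases e : k = ad γ
      · subst e
        exact (P.rch_near near b4 a5).mono (by rw [add_mul]; omega)
      · obtain ⟨h2, b5⟩ := a3 k hk e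
        have b6 := a1 _ (b1 b5)
        have b7 : Sep (k * P.τ h2) ⊆ Sep k \ {k • P.ν h2} := by
          rw [hS] at b5
          rw [hS, hS]
          exact P.sep_step hk hg b5.2.2
        have b8 : (Sep k).Finite := fin.subset (b1.trans a2)
        have b9 : (Sep (k * P.τ h2)).ncard < (Sep k).ncard :=
          Set.ncard_lt_ncard ⟨b7.trans Set.sdiff_subset, fun e' => (b7 (e' b5)).2 rfl⟩ b8
        have e1 : (k * P.τ h2) • P.ν (C.α h2) = -(k • P.ν h2) := by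
          rw [mul_smul, P.τ_ν, PS.smul_neg]
        have c1 := ih _ (P.Γb.mul_mem hk (P.τ_mem h2)) (C.α h2)
          ((b7.trans Set.sdiff_subset).trans b1) (by omega)
          (by rw [e1, B_neg_left, abs_neg]; exact b6.1) (by rw [e1, B_neg_left, abs_neg]; exact b6.2)
        have c2 : Rch P.A P.R 1 (k, h2) (k * P.τ h2, C.α h2) := ⟨[0], le_rfl, rfl⟩
        exact (((P.rch_near near b3 b6.1).trans c2).trans c1).mono (by rw [add_mul]; omega)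
  obtain ⟨js, c1, c2⟩ := key (N + 1) 1 P.Γb.one_mem h subset_rfl
    (Nat.lt_succ_of_le ((Set.ncard_le_ncard a2 fin).trans card)) a4.1 a4.2
  exact ⟨h, js, P.dist_φ r hz h (by simpa only [one_smul] using a4.1), c1, c2⟩

end

end Pool.Agent.P.MP_d39174_gt
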