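import Pool.Agent.P.MP_d39174_gt.Eqn

/-! Bounds for the heights on an expander. -/

namespace Pool.Agent.P.MP_d39174_gt

open UpperHalfPlane MatrixGroups

noncomputable section

variable {Vx : Type} [Fintype Vx] [DecidableEq Vx] {G : SimpleGraph Vx} [DecidableRel G.Adj]

lemma Osc_step {m : ℕ} (hm : 1 ≤ m) (hd : ∀ v, G.degree v ≤ m) (he : Expd G m)
    {z : Vx → ℝ} {F : ℝ} (hF : 0 < F)
    (h : ∀ S : Finset Vx, (∀ v ∈ S, ∀ w, w ∉ S → z v ≤ z w) →
      ∑ v ∈ S, ∑ w ∈ G.neighborFinset v \ S, (z w - z v) ≤ F) {a : ℝ} {S S' : Finset Vx}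
    (hS : ∀ v, v ∈ S ↔ z v ≤ a) (hS' : ∀ v, v ∈ S' ↔ z v ≤ a + 40 * F / m / S.card)
    (h0 : 0 < S.card) (h2 : 2 * S.card ≤ Fintype.card Vx) : 41 * S.card ≤ 40 * S'.card := by
  have hm' : (0 : ℝ) < m := Nat.cast_pos.2 hm
  have h0' : (0 : ℝ) < S.card := Nat.cast_pos.2 h0
  have ht : 0 < 40 * F / m / S.card := by positivity
  have hs : S ⊆ S' := fun v hv => (hS' v).2 (((hS v).1 hv).trans (le_add_of_nonneg_right ht.le))
  have h3 : ∀ v ∈ S, ∀ w, w ∉ S → z v ≤ z w := fun v hv w hw =>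
    ((hS v).1 hv).trans (not_le.1 fun h => hw ((hS w).2 h)).le
  have h4 : 40 * F / m / S.card * ∑ v ∈ S, ((G.neighborFinset v \ S').card : ℝ) ≤ F := by
    refine le_trans ?_ (h S h3)
    rw [Finset.mul_sum]
    refine Finset.sum_le_sum fun v hv => le_trans ?_ (Finset.sum_le_sum_of_subset_of_nonneg
      (Finset.sdiff_subset_sdiff (Finset.Subset.refl _) hs) fun w hw _ =>
        sub_nonneg.2 (h3 v hv w (Finset.mem_sdiff.1 hw).2))
    rw [mul_comm, ← nsmul_eq_mul]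
    refine Finset.card_nsmul_le_sum _ _ _ fun w hw => ?_
    have h5 := not_le.1 fun h => (Finset.mem_sdiff.1 hw).2 ((hS' w).2 h)
    linarith [(hS v).1 hv]
  have h5 : ∑ v ∈ S, (G.neighborFinset v ∩ (S' \ S)).card ≤ (S' \ S).card * m := by
    simp only [Finset.card_eq_sum_ones (G.neighborFinset _ ∩ _)]
    rw [Finset.sum_comm' (t' := S' \ S) (s' := fun w => G.neighborFinset w ∩ S) fun v w => by
      simp only [Finset.mem_inter, SimpleGraph.mem_neighborFinset, G.adj_comm v]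
      tauto]
    refine Finset.sum_le_card_nsmul _ _ _ fun w _ => ?_
    rw [← Finset.card_eq_sum_ones]
    exact (Finset.card_le_card Finset.inter_subset_left).trans (hd w)
  have h6 : ∑ v ∈ S, (G.neighborFinset v \ S).card ≤ ∑ v ∈ S, (G.neighborFinset v \ S').card +
      ∑ v ∈ S, (G.neighborFinset v ∩ (S' \ S)).card := by
    rw [← Finset.sum_add_distrib]
    refine Finset.sum_le_sum fun v _ => (Finset.card_le_card fun w hw => ?_).trans
      (Finset.card_union_le _ _)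
    simp only [Finset.mem_union, Finset.mem_sdiff, Finset.mem_inter] at hw ⊢
    tauto
  have h7 : 40 * ∑ v ∈ S, (G.neighborFinset v \ S').card ≤ m * S.card := by
    rw [div_div, div_mul_eq_mul_div, div_le_iff₀ (by positivity), mul_comm 40, mul_assoc] at h4
    exact_mod_cast le_of_mul_le_mul_left h4 hF
  have h8 := he S h2
  have h9 := Finset.card_sdiff_add_card_eq_card hs
  have h10 : m * S.card ≤ m * (40 * (S' \ S).card) := by linarith
  have h11 := Nat.le_of_mul_le_mul_left h10 hm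
  omega

lemma Osc_half {m : ℕ} (hm : 1 ≤ m) (hd : ∀ v, G.degree v ≤ m) (he : Expd G m)
    {z : Vx → ℝ} {F : ℝ} (hF : 0 < F)
    (h : ∀ S : Finset Vx, (∀ v ∈ S, ∀ w, w ∉ S → z v ≤ z w) →
      ∑ v ∈ S, ∑ w ∈ G.neighborFinset v \ S, (z w - z v) ≤ F) (k : ℕ) :
    ∀ (a : ℝ) (S : Finset Vx), (∀ v, v ∈ S ↔ z v ≤ a) → 0 < S.card →
      Fintype.card Vx ≤ S.card + k → ∃ T : Finset Vx, Fintype.card Vx < 2 * T.card ∧
        ∀ v ∈ T, z v ≤ a + 1640 * F / m / S.card := by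
  have hm' : (0 : ℝ) < m := Nat.cast_pos.2 hm
  induction k with
  | zero =>
    exact fun a S hS h0 h1 => ⟨S, by omega, fun v hv =>
      ((hS v).1 hv).trans (le_add_of_nonneg_right (by positivity))⟩
  | succ k ih =>
    intro a S hS h0 h1
    rcases lt_or_ge (Fintype.card Vx) (2 * S.card) with h2 | h2
    · exact ⟨S, h2, fun v hv => ((hS v).1 hv).trans (le_add_of_nonneg_right (by positivity))⟩
    obtain ⟨S', hS'⟩ : ∃ S' : Finset Vx, ∀ v, v ∈ S' ↔ z v ≤ a + 40 * F / m / S.card :=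
      ⟨_, fun v => Finset.mem_filter.trans (and_iff_right (Finset.mem_univ v))⟩
    have h3 := Osc_step hm hd he hF h hS hS' h0 h2
    obtain ⟨T, h4, h5⟩ := ih _ S' hS' (by omega) (by omega)
    refine ⟨T, h4, fun v hv => (h5 v hv).trans ?_⟩
    have h6 : (0 : ℝ) < S.card := Nat.cast_pos.2 h0
    have h7 : (41 : ℝ) * S.card ≤ 40 * S'.card := by exact_mod_cast h3
    have h8 : 1640 * F / m / S'.card ≤ 1640 * F / m / (41 / 40 * S.card) :=
      div_le_div_of_nonneg_left (by positivity) (by positivity) (by linarith)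
    have h9 : 40 * F / m / S.card + 1640 * F / m / (41 / 40 * S.card) = 1640 * F / m / S.card := by
      field_simp
      norm_num
    linarith

lemma Osc_low {m : ℕ} (hm : 1 ≤ m) (hd : ∀ v, G.degree v ≤ m) (he : Expd G m)
    {z : Vx → ℝ} {F : ℝ} (hF : 0 < F)
    (h : ∀ S : Finset Vx, (∀ v ∈ S, ∀ w, w ∉ S → z v ≤ z w) →
      ∑ v ∈ S, ∑ w ∈ G.neighborFinset v \ S, (z w - z v) ≤ F) (w : Vx) :
    ∃ T : Finset Vx, Fintype.card Vx < 2 * T.card ∧ ∀ v ∈ T, z v ≤ z w + 1640 * F / m := by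
  obtain ⟨S, hS⟩ : ∃ S : Finset Vx, ∀ v, v ∈ S ↔ z v ≤ z w :=
    ⟨_, fun v => Finset.mem_filter.trans (and_iff_right (Finset.mem_univ v))⟩
  have h0 : 0 < S.card := Finset.card_pos.2 ⟨w, (hS w).2 le_rfl⟩
  obtain ⟨T, h1, h2⟩ := Osc_half hm hd he hF h _ _ S hS h0 (Nat.le_add_left _ _)
  refine ⟨T, h1, fun v hv => (h2 v hv).trans ?_⟩
  have h3 := div_le_self (a := 1640 * F / m) (by positivity) (Nat.one_le_cast.2 h0)
  linarith

/-- Bounded flux through all level sets bounds the oscillation. -/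
theorem osc_of_flux {m : ℕ} (hm : 1 ≤ m) (hd : ∀ v, G.degree v ≤ m) (he : Expd G m)
    {z : Vx → ℝ} {F : ℝ} (hF : 0 ≤ F)
    (h : ∀ S : Finset Vx, (∀ v ∈ S, ∀ w, w ∉ S → z v ≤ z w) →
      ∑ v ∈ S, ∑ w ∈ G.neighborFinset v \ S, (z w - z v) ≤ F) (v w : Vx) :
    z v - z w ≤ 4000 * F / m := by
  have hm' : (0 : ℝ) < m := Nat.cast_pos.2 hm
  refine le_of_forall_pos_le_add fun ε hε => ?_
  have h1 : 0 < ε * m / 4000 := by positivity
  have h2 : 0 < F + ε * m / 4000 := by positivity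
  obtain ⟨T, h3, h4⟩ := Osc_low hm hd he h2
    (fun S hS => (h S hS).trans (le_add_of_nonneg_right h1.le)) w
  obtain ⟨T', h5, h6⟩ := Osc_low hm hd he (z := fun v => -z v) h2 (fun S hS => by
    refine le_trans (le_of_eq ?_) ((h Sᶜ fun v hv w hw => neg_le_neg_iff.1
      (hS w (by simpa using hw) v (by simpa using hv))).trans (le_add_of_nonneg_right h1.le))
    rw [Finset.sum_comm' (t' := Sᶜ) (s' := fun w => G.neighborFinset w \ Sᶜ) fun v w => by
      simp only [Finset.mem_sdiff, SimpleGraph.mem_neighborFinset, G.adj_comm v, Finset.mem_compl]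
      tauto]
    simp only [neg_sub_neg]) v
  obtain ⟨u, hu⟩ : (T ∩ T').Nonempty := by
    have h7 := Finset.card_union_add_card_inter T T'
    have h8 := Finset.card_le_univ (T ∪ T')
    exact Finset.card_pos.1 (by omega)
  have h7 := h4 u (Finset.mem_inter.1 hu).1
  have h8 := h6 u (Finset.mem_inter.1 hu).2
  have h9 : 4000 * F / m + ε = 4000 * ((F + ε * m / 4000) / m) := by field_simp
  have h10 : 0 < (F + ε * m / 4000) / m := by positivity
  rw [mul_div_assoc] at h7 h8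
  linarith

lemma Expd.connected [Nonempty Vx] {m : ℕ} (hm : 1 ≤ m) (he : Expd G m) : G.Connected := by
  classical
  have h1 : ∀ S : Finset Vx, (∀ v ∈ S, ∀ w, G.Adj v w → w ∈ S) → S.Nonempty →
      Fintype.card Vx < 2 * S.card := fun S hS h0 => not_le.1 fun h2 => by
    have h3 := he S h2
    rw [Finset.sum_eq_zero fun v hv => Finset.card_eq_zero.2 (Finset.sdiff_eq_empty_iff_subset.2
      fun w hw => hS v hv w ((G.mem_neighborFinset _ _).1 hw))] at h3
    exact (Nat.mul_pos hm h0.card_pos).not_ge h3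
  refine ⟨fun u v => by_contra fun hn => ?_⟩
  have h2 := h1 (Finset.univ.filter (G.Reachable u)) (fun a ha b hb => by
    rw [Finset.mem_filter] at ha ⊢
    exact ⟨Finset.mem_univ _, ha.2.trans hb.reachable⟩) ⟨u, by simp⟩
  have h3 := h1 (Finset.univ.filter fun a => ¬G.Reachable u a) (fun a ha b hb => by
    rw [Finset.mem_filter] at ha ⊢
    exact ⟨Finset.mem_univ _, fun h => ha.2 (h.trans hb.symm.reachable)⟩) ⟨v, by simpa using hn⟩
  have h4 := Finset.card_filter_add_card_filter_not (s := Finset.univ) (G.Reachable u)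
  rw [Finset.card_univ] at h4
  omega

lemma Osc_one : Real.arsinh 1 = Real.log (1 + √2) := by
  rw [Real.arsinh]
  norm_num

lemma Osc_one_le : Real.arsinh 1 ≤ 1 := by
  rw [Osc_one, Real.log_le_iff_le_exp (by positivity)]
  have h1 : √2 ≤ 3 / 2 := Real.sqrt_le_iff.2 (by norm_num)
  linarith [Real.exp_one_gt_d9]

lemma Osc_le_one : 4 / 5 ≤ Real.arsinh 1 := by
  rw [Osc_one, Real.le_log_iff_exp_le (by positivity)]
  have h1 : 7 / 5 ≤ √2 := Real.le_sqrt_of_sq_le (by norm_num)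
  have h2 := Real.exp_add (4 / 5) (1 / 5)
  rw [show (4 / 5 + 1 / 5 : ℝ) = 1 by norm_num] at h2
  nlinarith [Real.exp_one_lt_d9, Real.add_one_le_exp (1 / 5), Real.exp_pos (4 / 5)]

lemma Osc_log {r : ℝ} (hr : 0 < r) : Real.log (r ^ 2 + √2 * r) ≤ Real.arsinh (r ^ 2) := by
  refine Real.log_le_log (by positivity) (add_le_add le_rfl (Real.le_sqrt_of_sq_le ?_))
  rw [mul_pow, Real.sq_sqrt zero_le_two]
  nlinarith [sq_nonneg (r ^ 2 - 1)]

lemma Osc_in {x y : ℝ} (hx : 0 < x) (hy : 0 < y) :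
    2 * Real.arsinh 1 ≤ Real.arsinh (y / x) + Real.arsinh (x / y) := by
  obtain ⟨r, hr, h1⟩ : ∃ r, 0 < r ∧ r ^ 2 = y / x :=
    ⟨√(y / x), by positivity, Real.sq_sqrt (by positivity)⟩
  rw [← inv_div y x, ← h1, ← inv_pow, Osc_one, two_mul, ← Real.log_mul (by positivity)
    (by positivity)]
  refine le_trans ?_ (add_le_add (Osc_log hr) (Osc_log (inv_pos.2 hr)))
  rw [← Real.log_mul (by positivity) (by positivity)]
  refine Real.log_le_log (by positivity) ?_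
  have h2 : r * r⁻¹ = 1 := mul_inv_cancel₀ hr.ne'
  have h3 : 2 ≤ r + r⁻¹ := by nlinarith [sq_nonneg (r - r⁻¹), inv_pos.2 hr]
  have h4 : (r ^ 2 + √2 * r) * (r⁻¹ ^ 2 + √2 * r⁻¹) = 1 + √2 * (r + r⁻¹) + √2 * √2 := by
    field_simp
    ring
  rw [h4]
  nlinarith [Real.sqrt_nonneg 2]

lemma Osc_bd {x y : ℝ} (hx : 0 < x) (hy : x ≤ y) :
    Real.arsinh 1 + (Real.log y - Real.log x) / 2 ≤ Real.arsinh (y / x) := by
  have h0 := hx.trans_le hy
  have h1 : 1 ≤ √(y / x) := Real.one_le_sqrt.2 ((one_le_div hx).2 hy)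
  have h2 := Osc_log (one_pos.trans_le h1)
  rw [Real.sq_sqrt (by positivity)] at h2
  rw [← Real.log_div h0.ne' hx.ne', ← Real.log_sqrt (by positivity), Osc_one,
    ← Real.log_mul (by positivity) (by positivity)]
  refine (Real.log_le_log (by positivity) ?_).trans h2
  nlinarith [Real.sq_sqrt (show 0 ≤ y / x by positivity)]

lemma Sol.Osc_len {x : Vx → ℝ} {Λ : ℝ} (s : Sol G x Λ) (h5 : ∀ v, 5 ≤ G.degree v) (v : Vx) :
    ∑ w ∈ G.neighborFinset v, Real.arsinh (x w / x v) -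
      ∑ w ∈ G.neighborFinset v, ang (x v) (x w) ≤ Λ := by
  rw [← s.len v, ← Finset.sum_sub_distrib]
  refine Finset.sum_le_sum fun w _ => ?_
  linarith [le_Tt (one_le_of_tot h5 s.pos s.tot.le v) (s.pos w), le_ang (s.pos v) (s.pos w)]

lemma Sol.Osc_ang {x : Vx → ℝ} {Λ : ℝ} (s : Sol G x Λ) (S : Finset Vx) :
    ∑ v ∈ S, ∑ w ∈ G.neighborFinset v, ang (x v) (x w) ≤ 4 :=
  (Finset.sum_le_sum_of_subset_of_nonneg S.subset_univ fun v _ _ => Finset.sum_nonneg
    fun w _ => (ang_pos (s.pos v) (s.pos w)).1.le).trans (s.tot.le.trans Real.pi_le_four)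

lemma Sol.len_le {x : Vx → ℝ} {Λ : ℝ} (s : Sol G x Λ) [Nonempty Vx] {m : ℕ}
    (hd : ∀ v, G.degree v ≤ m) : Λ ≤ m * Real.arsinh 1 := by
  obtain ⟨v, hv⟩ := Finite.exists_max x
  rw [← s.len v]
  refine (Finset.sum_le_card_nsmul _ _ (Real.arsinh 1) fun w _ => (Tt_le (s.pos v)
    (s.pos w)).trans (Real.arsinh_le_arsinh.2 ((div_le_one (s.pos v)).2 (hv w)))).trans ?_
  rw [nsmul_eq_mul]
  exact mul_le_mul_of_nonneg_right (Nat.cast_le.2 (hd v)) (by linarith [Osc_le_one])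

lemma Sol.le_len {x : Vx → ℝ} {Λ : ℝ} (s : Sol G x Λ) [Nonempty Vx] {d : ℕ} (h5 : 5 ≤ d)
    (hd : ∀ v, d ≤ G.degree v) : 4 / 5 * (d : ℝ) - 4 ≤ Λ := by
  obtain ⟨v, hv⟩ := Finite.exists_min x
  have h1 := s.Osc_len (fun v => h5.trans (hd v)) v
  have h2 := s.Osc_ang {v}
  rw [Finset.sum_singleton] at h2
  have h3 := Finset.card_nsmul_le_sum (G.neighborFinset v) (fun w => Real.arsinh (x w / x v))
    (4 / 5) fun w _ => Osc_le_one.trans
      (Real.arsinh_le_arsinh.2 ((one_le_div (s.pos v)).2 (hv w)))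
  have h4 : (d : ℝ) ≤ (G.neighborFinset v).card := Nat.cast_le.2 (hd v)
  rw [nsmul_eq_mul] at h3
  linarith

lemma Sol.flux {x : Vx → ℝ} {Λ : ℝ} (s : Sol G x Λ) {m : ℕ} (h5 : ∀ v, 5 ≤ G.degree v)
    (hd : ∀ v, G.degree v ≤ m) (S : Finset Vx)
    (hS : ∀ v ∈ S, ∀ w, w ∉ S → Real.log (x v) ≤ Real.log (x w)) :
    ∑ v ∈ S, ∑ w ∈ G.neighborFinset v \ S, (Real.log (x w) - Real.log (x v)) ≤
      2 * (∑ v, ((m : ℝ) - G.degree v) + 4) := by
  have h1 := Finset.sum_le_sum (s := S) fun v _ =>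
    (s.Osc_len h5 v).trans (@Sol.len_le _ _ _ _ _ _ _ s ⟨v⟩ _ hd)
  have h2 : ∀ f : Vx → Vx → ℝ, ∑ v ∈ S, ∑ w ∈ G.neighborFinset v, f v w =
      ∑ v ∈ S, ∑ w ∈ G.neighborFinset v ∩ S, f v w +
        ∑ v ∈ S, ∑ w ∈ G.neighborFinset v \ S, f v w := fun f => by
    simp only [← Finset.sum_add_distrib, Finset.sum_inter_add_sum_sdiff]
  have h3 : ∑ v ∈ S, ∑ w ∈ G.neighborFinset v ∩ S, Real.arsinh (x v / x w) =
      ∑ v ∈ S, ∑ w ∈ G.neighborFinset v ∩ S, Real.arsinh (x w / x v) :=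
    Finset.sum_comm' fun v w => by
      simp only [Finset.mem_inter, SimpleGraph.mem_neighborFinset, G.adj_comm v]
      tauto
  have h4 := Finset.sum_le_sum (s := S) fun v _ =>
    Finset.sum_le_sum (s := G.neighborFinset v ∩ S) fun w _ => Osc_in (s.pos v) (s.pos w)
  have h6 := Finset.sum_le_sum (s := S) fun v hv =>
    Finset.sum_le_sum (s := G.neighborFinset v \ S) fun w hw => Osc_bd (s.pos v)
      ((Real.log_le_log_iff (s.pos v) (s.pos w)).1 (hS v hv w (Finset.mem_sdiff.1 hw).2))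
  have h7 := h2 fun _ _ => Real.arsinh 1
  have h8 : ∑ v ∈ S, (m : ℝ) * Real.arsinh 1 - ∑ v ∈ S, ∑ w ∈ G.neighborFinset v, Real.arsinh 1 ≤
      ∑ v, ((m : ℝ) - G.degree v) := by
    have h8 : ∀ v, (0 : ℝ) ≤ m - G.degree v := fun v => sub_nonneg.2 (Nat.cast_le.2 (hd v))
    refine le_trans ?_ (Finset.sum_le_sum_of_subset_of_nonneg S.subset_univ fun v _ _ => h8 v)
    rw [← Finset.sum_sub_distrib]
    refine Finset.sum_le_sum fun v _ => ?_
    rw [Finset.sum_const, nsmul_eq_mul, G.card_neighborFinset_eq_degree, ← sub_mul]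
    exact mul_le_of_le_one_right (h8 v) Osc_one_le
  rw [Finset.sum_sub_distrib, h2] at h1
  simp only [Finset.sum_add_distrib, ← Finset.mul_sum, ← Finset.sum_div] at h4 h6
  linarith [s.Osc_ang S]

lemma Sol.exists_large {x : Vx → ℝ} {Λ : ℝ} (s : Sol G x Λ) [Nonempty Vx]
    (h5 : ∀ v, 5 ≤ G.degree v) : ∃ v, (Fintype.card Vx : ℝ) - 1 ≤ x v := by
  obtain ⟨v, hv⟩ := Finite.exists_max x
  have h0 := s.pos v
  have h1 := Finset.card_nsmul_le_sum Finset.univ
    (fun u => ∑ w ∈ G.neighborFinset u, ang (x u) (x w)) (4 / (1 + x v)) fun u _ => by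
      refine le_trans ?_ (Finset.card_nsmul_le_sum _ _ (1 / (1 + x v)) fun w _ =>
        le_trans (one_div_le_one_div_of_le (by positivity) (Real.sqrt_le_iff.2
          ⟨by positivity, by nlinarith [hv u, s.pos u]⟩)) (le_ang (s.pos u) (s.pos w)))
      rw [nsmul_eq_mul, mul_one_div]
      refine div_le_div_of_nonneg_right ?_ (by positivity)
      exact_mod_cast (Nat.le_succ 4).trans (h5 u)
  have h2 := h1.trans (s.Osc_ang _)
  rw [nsmul_eq_mul, Finset.card_univ, ← mul_div_assoc, div_le_iff₀ (by positivity)] at h2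
  exact ⟨v, by linarith⟩

/-- The heights have bounded ratios. -/
theorem exists_ratio : ∃ κ : ℝ, 1 ≤ κ ∧ ∀ (Vx : Type) [Fintype Vx] [DecidableEq Vx]
    (G : SimpleGraph Vx) [DecidableRel G.Adj] (m : ℕ) (x : Vx → ℝ) (Λ : ℝ), Sol G x Λ →
    (∀ v, 5 ≤ G.degree v) → (∀ v, G.degree v ≤ m) → Expd G m →
    ∑ v, ((m : ℝ) - G.degree v) ≤ 2 * m → ∀ v w, x v ≤ κ * x w := by
  obtain ⟨c, hc⟩ : ∃ c : ℝ, c = 24000 := ⟨_, rfl⟩
  refine ⟨Real.exp c, Real.one_le_exp (by rw [hc]; norm_num),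
    fun Vx _ _ G _ m x Λ s h5 hd he h v w => ?_⟩
  have h1 : 5 ≤ m := (h5 v).trans (hd v)
  have h2 : (5 : ℝ) ≤ m := by exact_mod_cast h1
  have h3 := osc_of_flux (by omega) hd he (z := fun v => Real.log (x v)) (F := 6 * m)
    (by positivity) (fun S hS => (s.flux h5 hd S hS).trans (by linarith)) v w
  rw [← Real.log_div (s.pos v).ne' (s.pos w).ne', ← mul_assoc, mul_div_cancel_right₀ _
    (by positivity), Real.log_le_iff_le_exp (div_pos (s.pos v) (s.pos w)),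
    div_le_iff₀ (s.pos w)] at h3
  rwa [hc, show (24000 : ℝ) = 4000 * 6 by norm_num]

end

end Pool.Agent.P.MP_d39174_gt
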