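import Pool.Agent.P.MP_d39174_gt.SysB
import Pool.Agent.P.MP_d39174_gt.CritB
import Pool.Agent.P.MP_d39174_gt.ExPoly
import Pool.Agent.P.MP_d39174_gt.Osc
import Pool.Agent.P.MP_d39174_gt.Bridge

/-! The critical surface attached to a filling system on an expander of large girth. -/

namespace Pool.Agent.P.MP_d39174_gt

open UpperHalfPlane MatrixGroups

noncomputable section

theorem geo : ∃ m₀ : ℕ, ∀ m, m₀ ≤ m → ∃ K N : ℕ, ∀ (Vx H : Type) [Fintype Vx] [DecidableEq Vx]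
    [Fintype H] (G : SimpleGraph Vx) [DecidableRel G.Adj] (_ : Cmb G H) (g : ℕ),
    N ≤ Fintype.card Vx → (∀ v, m ≤ G.degree v + 3) → (∀ v, G.degree v ≤ m) → Expd G m →
    ∑ v, ((m : ℝ) - G.degree v) ≤ 2 * m → NBG G K → G.edgeFinset.card + 1 = 2 * g →
    ∃ Γ l, IsSurfaceGroup g Γ ∧ IsCritical Γ ∧ Sys Γ l ∧ Rz G Γ l := by
  classical
  obtain ⟨κ, hκ, hrat⟩ := exists_ratio
  refine ⟨⌈3 * κ⌉₊ + 20, fun m hm => ?_⟩
  obtain ⟨K₀, hpoly⟩ := exists_poly κ (Real.cosh (4 * m)) hκ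
  obtain ⟨K, X, hshort⟩ := short κ m hκ K₀
  refine ⟨K, ⌈κ * X⌉₊ + 1, fun Vx H _ _ _ G _ C g hN hlo hhi hex hdef hnb hE => ?_⟩
  have hne : Nonempty Vx := Fintype.card_pos_iff.1 (by omega)
  have hH : Nonempty H := let ⟨v⟩ := hne; let ⟨h, _⟩ := C.surj v; ⟨h⟩
  have h5 : ∀ v, 5 ≤ G.degree v := fun v => by have := hlo v; omega
  obtain ⟨x, Λ, s⟩ := exists_sol (hex.connected (by omega)) h5
  have h1 : ∀ v, 1 ≤ x v := one_le_of_tot h5 s.pos s.tot.le
  have hr : ∀ v w, x v ≤ κ * x w := hrat Vx G m x Λ s h5 hhi hex hdef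
  obtain ⟨P, hx, near⟩ := hpoly Vx H G C x h1 hr
    (by rw [C.sum_all fun v w => ang (x v) (x w), s.tot])
  have hlen : P.Len Λ := fun h => by
    have e : ∀ i : ℕ, C.lab ((C.ς ^ i) h) = C.lab h := fun i => by
      induction i with
      | zero => rfl
      | succ i ih => rw [pow_succ', Equiv.Perm.mul_apply, C.lab_ς, ih]
    simp only [Poly.T, Poly.y, hx, e]
    rw [C.sum_per fun w => Tt (x (C.lab h)) (x w), s.len]
  have hm3 : 3 * κ + 20 ≤ m := by
    have a := Nat.le_ceil (3 * κ)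
    have b : ((⌈3 * κ⌉₊ + 20 : ℕ) : ℝ) ≤ m := by exact_mod_cast hm
    push_cast at b
    linarith
  have hlow : 2 * κ < Λ := by
    have a := s.le_len (d := m - 3) (by omega) fun v => by have := hlo v; omega
    rw [Nat.cast_sub (by omega)] at a
    push_cast at a
    linarith
  have hup : Λ ≤ m := by
    have a := s.len_le hhi
    have b : Real.arsinh 1 ≤ 1 := by
      rw [← Real.sinh_le_sinh, Real.sinh_arsinh]
      exact Real.self_le_sinh_iff.2 zero_le_one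
    nlinarith [Nat.cast_nonneg (α := ℝ) m]
  have hX : ∀ v, X ≤ P.x v := fun v => by
    obtain ⟨w, hw⟩ := s.exists_large h5
    have a := Nat.le_ceil (κ * X)
    have b : ((⌈κ * X⌉₊ + 1 : ℕ) : ℝ) ≤ Fintype.card Vx := by exact_mod_cast hN
    push_cast at b
    rw [hx]
    exact le_of_mul_le_mul_left (a := κ) (by linarith [hr w v]) (by linarith)
  obtain ⟨nice, sy, hS⟩ := P.sys_of_short (by linarith) hlen
    (hshort Vx H G C P Λ ⟨by rwa [hx], by rwa [hx]⟩ near hnb hX hlen hlow hup)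
  exact ⟨P.Γ, Λ, nice.isSurfaceGroup (by rw [P.finrank_hom, C.finrank_Z, hE]),
    (isCritical_iff nice sy).2 (P.critV hlen hS), sy, P.rz hS⟩

end

end Pool.Agent.P.MP_d39174_gt
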