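import Pool.Agent.P.MP_d39174_gt.RandDef

/-! Properties of the graphs. -/

namespace Pool.Agent.P.MP_d39174_gt

open UpperHalfPlane MatrixGroups

noncomputable section

open Equiv

theorem nbg_of_not_bad {C X : Type} {τ : C → Perm X} {K : ℕ} (h : ∀ p, ¬ Bad τ K p)
    (P : Set (C × X)) : NBG (Gr τ P) K := by
  classical
  intro r v h1 hK ha hb e
  have ex : ∃ d, 0 < d ∧ ∃ i, i + d ≤ r ∧ v i = v (i + d) :=
    ⟨r, h1, 0, (zero_add r).le, by rw [zero_add, e]⟩
  obtain ⟨d0, i, hi, hv⟩ := Nat.find_spec ex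
  have hm : ∀ a b, a < b → b ≤ r → b - a < Nat.find ex → v a ≠ v b := fun a b hab hb hd e' =>
    Nat.find_min ex hd ⟨by omega, a, by omega, by rwa [Nat.add_sub_cancel' hab.le]⟩
  generalize Nat.find ex = d at d0 hi hv hm
  obtain ⟨p, -, hp⟩ := ha i (by omega)
  have key : ∀ m, m + 1 ≤ d →
      ∃ W : (Gr τ {q | q ≠ p}).Walk (v (i + 1)) (v (i + (m + 1))), W.length = m := by
    intro m
    induction m with
    | zero => exact fun _ => ⟨.nil, rfl⟩
    | succ m ih =>
      intro hd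
      obtain ⟨W, hW⟩ := ih (by omega)
      obtain ⟨q, -, hq⟩ := ha (i + (m + 1)) (by omega)
      refine ⟨W.concat ⟨q, ?_, hq⟩, by rw [SimpleGraph.Walk.length_concat, hW]⟩
      rintro rfl
      have : v i = v (i + (m + 1)) ∨
          (v (i + 1) = v (i + (m + 1)) ∧ v i = v (i + (m + 1) + 1)) := by
        rcases hp with ⟨p1, p2⟩ | ⟨p1, p2⟩ <;> rcases hq with ⟨q1, q2⟩ | ⟨q1, q2⟩
        exacts [.inl (p1.trans q1.symm), .inr ⟨p2.trans q2.symm, p1.trans q1.symm⟩,
          .inr ⟨p1.trans q1.symm, p2.trans q2.symm⟩, .inl (p2.trans q2.symm)]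
      rcases this with e1 | ⟨e1, e2⟩
      · exact hm _ _ (by omega) (by omega) (by omega) e1
      · cases m with
        | zero => exact hb i (by omega) e2
        | succ m => exact hm _ _ (by omega) (by omega) (by omega) e1
  obtain ⟨m, rfl⟩ : ∃ m, d = m + 1 := ⟨d - 1, by omega⟩
  obtain ⟨W, hW⟩ := key m le_rfl
  rcases hp with ⟨p1, p2⟩ | ⟨p1, p2⟩
  · exact h p ⟨W.reverse.copy (hv.symm.trans p1) p2, by simp; omega⟩
  · exact h p ⟨W.copy p1 (hv.symm.trans p2), by simp; omega⟩

section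

open Finset

variable {C X : Type} {τ : C → Perm X} {P : Set (C × X)} {K : ℕ}

/-- The left end of the edge of colour `c` at `v`. -/
def GrPpos (τ : C → Perm X) (v : X × Bool) (c : C) : X := if v.2 then (τ c)⁻¹ v.1 else v.1

/-- The other end of the edge of colour `c` at `v`. -/
def GrPnb (τ : C → Perm X) (v : X × Bool) (c : C) : X × Bool :=
  if v.2 then ((τ c)⁻¹ v.1, false) else (τ c v.1, true)

lemma GrP_adj {v y : X × Bool} :
    (Gr τ P).Adj v y ↔ ∃ c, (c, GrPpos τ v c) ∈ P ∧ GrPnb τ v c = y := by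
  obtain ⟨u, b⟩ := v
  constructor
  · rintro ⟨⟨c, x⟩, hq, ⟨h1, h2⟩ | ⟨h1, h2⟩⟩
    · cases h1
      exact ⟨c, hq, h2.symm⟩
    · cases h2
      exact ⟨c, by simpa [GrPpos] using hq, by simp [GrPnb, h1]⟩
  · rintro ⟨c, hc, rfl⟩
    cases b
    · exact ⟨_, hc, .inl ⟨rfl, rfl⟩⟩
    · exact ⟨_, hc, .inr ⟨rfl, by simp [GrPpos]⟩⟩

lemma GrP_inj (h : ∀ p, ¬ Bad τ K p) (hK : 1 ≤ K) {u : X} {c c' : C} (e : τ c u = τ c' u) :
    c = c' := by
  by_contra hc
  have ha : (Gr τ {q | q ≠ (c, u)}).Adj (u, false) (τ c u, true) :=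
    ⟨(c', u), fun e' => hc (congrArg Prod.fst e').symm, .inl ⟨rfl, by rw [e]⟩⟩
  exact h (c, u) ⟨.cons ha .nil, by simpa using hK⟩

lemma GrP_nb_inj (h : ∀ p, ¬ Bad τ K p) (hK : 1 ≤ K) (v : X × Bool) :
    Function.Injective (GrPnb τ v) := by
  obtain ⟨u, b⟩ := v
  intro c c' e
  cases b
  · exact GrP_inj h hK (congrArg Prod.fst e)
  · have e' : (τ c)⁻¹ u = (τ c')⁻¹ u := congrArg Prod.fst e
    refine GrP_inj h hK (u := (τ c)⁻¹ u) ?_
    exact ((τ c).apply_symm_apply u).trans (e' ▸ ((τ c').apply_symm_apply u).symm)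

open Classical in
lemma GrP_nbr [Fintype C] [Fintype X] [DecidableEq X] (v : X × Bool) :
    (Gr τ P).neighborFinset v =
      (univ.filter fun c => (c, GrPpos τ v c) ∈ P).image (GrPnb τ v) := by
  ext y
  simp [GrP_adj]

open Classical in
lemma GrP_edges [Fintype C] [Fintype X] [DecidableEq X] (h : ∀ p, ¬ Bad τ K p) (hK : 1 ≤ K) :
    (Gr τ P).edgeFinset.card = (univ.filter fun q => q ∈ P).card := by
  refine (card_bij (fun q _ => s((q.2, false), (τ q.1 q.2, true))) (fun q hq => ?_)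
    (fun q _ q' _ e => ?_) fun e he => ?_).symm
  · exact SimpleGraph.mem_edgeFinset.2 ⟨q, (mem_filter.1 hq).2, .inl ⟨rfl, rfl⟩⟩
  · obtain ⟨c, u⟩ := q
    obtain ⟨c', u'⟩ := q'
    simp only [Sym2.eq_iff, Prod.mk.injEq, and_true, Bool.false_eq_true, and_false, false_and,
      or_false] at e
    obtain ⟨rfl, e⟩ := e
    rw [GrP_inj h hK e]
  · induction e with
    | _ x y =>
      obtain ⟨q, hq, ⟨rfl, rfl⟩ | ⟨rfl, rfl⟩⟩ := SimpleGraph.mem_edgeFinset.1 he
      · exact ⟨q, mem_filter.2 ⟨mem_univ _, hq⟩, rfl⟩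
      · exact ⟨q, mem_filter.2 ⟨mem_univ _, hq⟩, Sym2.eq_swap⟩

end

lemma GrP_rot {n : ℕ} {u : Fin n} (h : u.val + 1 ≠ n) : (finRotate n u).val = u.val + 1 := by
  cases n with
  | zero => exact u.elim0
  | succ n => exact coe_finRotate_of_ne_last fun e => h (by rw [e, Fin.val_last])

variable {n k J K : ℕ} {σ : Fin k → Perm (Fin n)}

lemma gr_bip (v w : Fin n × Bool) (h : (Gr (tau σ) (keep n k J)).Adj v w) : v.2 ≠ w.2 := by
  obtain ⟨q, -, ⟨rfl, rfl⟩ | ⟨rfl, rfl⟩⟩ := h <;> simp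

lemma gr_m0 (u : Fin n) : (Gr (tau σ) (keep n k J)).Adj (u, false) (u, true) :=
  ⟨(.inl false, u), by simp [keep], .inl ⟨rfl, rfl⟩⟩

lemma gr_m1 (u w : Fin n) (h : w.val = u.val + 1) :
    (Gr (tau σ) (keep n k J)).Adj (u, false) (w, true) := by
  have h1 : u.val + 1 ≠ n := by omega
  exact ⟨(.inl true, u), by simp [keep, h1],
    .inl ⟨rfl, Prod.ext (Fin.ext (h.trans (GrP_rot h1).symm)) rfl⟩⟩

lemma gr_free (h : ∀ p, ¬ Bad (tau σ) K p) (hK : 1 ≤ K) (hk : 2 ≤ k) (u : Fin n) :
    (Finset.univ.filter fun w : Fin n =>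
      (Gr (tau σ) (keep n k J)).Adj (u, false) (w, true) ∧ w ≠ u ∧ w.val ≠ u.val + 1).card =
      if u.val < J then k - 2 else k := by
  have e : (Finset.univ.filter fun w : Fin n =>
      (Gr (tau σ) (keep n k J)).Adj (u, false) (w, true) ∧ w ≠ u ∧ w.val ≠ u.val + 1) =
      (Finset.univ.filter fun c : Fin k => ¬ (c.val < 2 ∧ u.val < J)).image fun c => σ c u := by
    ext w
    simp only [Finset.mem_filter, Finset.mem_univ, true_and, Finset.mem_image, GrP_adj]
    constructor
    · rintro ⟨⟨c, hc, e⟩, h1, h2⟩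
      obtain rfl : tau σ c u = w := congrArg Prod.fst e
      rcases c with (_ | _) | c
      · exact absurd rfl h1
      · exact absurd (GrP_rot fun e => hc.1 ⟨rfl, e⟩) h2
      · exact ⟨c, fun h3 => hc.2 ⟨c, rfl, h3⟩, rfl⟩
    · rintro ⟨c, hc, rfl⟩
      refine ⟨⟨.inr c, by simpa [keep, GrPpos] using hc, rfl⟩, fun e => ?_, fun e => ?_⟩
      · exact Sum.inr_ne_inl (GrP_inj h hK (c := .inr c) (c' := .inl false) e)
      · have h1 : u.val + 1 ≠ n := by omega
        exact Sum.inr_ne_inl (GrP_inj h hK (c := .inr c) (c' := .inl true)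
          (Fin.ext (e.trans (GrP_rot h1).symm)))
  have hi : Function.Injective fun c => σ c u := fun c c' e =>
    Sum.inr_injective (GrP_inj h hK (c := .inr c) (c' := .inr c') e)
  rw [e, Finset.card_image_of_injective _ hi]
  split_ifs with h1
  · have := Finset.card_filter_add_card_filter_not (s := Finset.univ) fun c : Fin k => c.val < 2
    rw [Fin.card_filter_val_lt, Finset.card_fin] at this
    simp only [h1, and_true]
    omega
  · simp [h1]

lemma gr_deg_le (v : Fin n × Bool) : (Gr (tau σ) (keep n k J)).degree v ≤ k + 2 := by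
  rw [← SimpleGraph.card_neighborFinset_eq_degree, GrP_nbr]
  refine Finset.card_image_le.trans ((Finset.card_le_univ _).trans_eq ?_)
  simp [add_comm]

lemma gr_le_deg (h : ∀ p, ¬ Bad (tau σ) K p) (hK : 1 ≤ K) (v : Fin n × Bool) :
    k + 2 ≤ (Gr (tau σ) (keep n k J)).degree v + 3 := by
  classical
  rw [← SimpleGraph.card_neighborFinset_eq_degree, GrP_nbr,
    Finset.card_image_of_injective _ (GrP_nb_inj h hK v)]
  have h1 := Finset.card_filter_add_card_filter_not (s := Finset.univ)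
    fun c => (c, GrPpos (tau σ) v c) ∈ keep n k J
  have h2 : (Finset.univ.filter fun c => ¬ (c, GrPpos (tau σ) v c) ∈ keep n k J) ⊆
      insert (.inl true) ((Finset.univ.filter fun c : Fin k => c.val < 2).image Sum.inr) := by
    intro c hc
    by_contra h3
    simp only [Finset.mem_insert, Finset.mem_image, Finset.mem_filter, Finset.mem_univ, true_and,
      not_or, not_exists, not_and] at h3
    exact (Finset.mem_filter.1 hc).2 ⟨fun h4 => h3.1 h4.1, fun ⟨c', h4, h5⟩ => h3.2 c' h5.1 h4.symm⟩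
  have h3 := (Finset.card_le_card h2).trans ((Finset.card_insert_le _ _).trans
    (Nat.add_le_add_right Finset.card_image_le 1))
  rw [Fin.card_filter_val_lt] at h3
  rw [Finset.card_univ, Fintype.card_sum, Fintype.card_bool, Fintype.card_fin] at h1
  omega

lemma gr_edges (h : ∀ p, ¬ Bad (tau σ) K p) (hK : 1 ≤ K) (hk : 2 ≤ k) (hn : 0 < n) (hJ : J ≤ n) :
    (Gr (tau σ) (keep n k J)).edgeFinset.card + 1 + 2 * J = n * (k + 2) := by
  classical
  rw [GrP_edges h hK]
  have h1 := Finset.card_filter_add_card_filter_not (s := Finset.univ) fun q => q ∈ keep n k J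
  have h2 : (Finset.univ.filter fun q => ¬ q ∈ keep n k J) =
      insert (.inl true, ⟨n - 1, by omega⟩)
        (((Finset.univ.filter fun c : Fin k => c.val < 2).image Sum.inr) ×ˢ
          Finset.univ.filter fun u : Fin n => u.val < J) := by
    ext ⟨c, u⟩
    simp only [keep, Set.mem_ofPred_eq, Finset.mem_filter, Finset.mem_univ, true_and,
      Finset.mem_insert, Prod.mk.injEq, Finset.mem_product, Finset.mem_image, Fin.ext_iff,
      ← not_or, not_not]
    refine or_congr (and_congr_right fun _ => by omega)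
      ⟨fun ⟨c', h3, h4⟩ => ⟨⟨c', h4.1, h3.symm⟩, h4.2⟩, fun ⟨⟨c', h3, h4⟩, h5⟩ => ⟨c', h4.symm, h3, h5⟩⟩
  rw [h2, Finset.card_insert_of_notMem (by simp), Finset.card_product,
    Finset.card_image_of_injective _ Sum.inr_injective, Fin.card_filter_val_lt,
    Fin.card_filter_val_lt, min_eq_right hk, min_eq_right hJ, Finset.card_univ, Fintype.card_prod,
    Fintype.card_sum, Fintype.card_bool, Fintype.card_fin, Fintype.card_fin] at h1
  rw [mul_comm n, add_comm k, ← h1]
  omega

lemma gr_expd (h : ∀ p, ¬ Bad (tau σ) K p) (hK : 1 ≤ K) (hk : 102 ≤ k) (s : Spr σ 20) :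
    Expd (Gr (tau σ) (keep n k J)) (k + 2) := by
  classical
  intro S hS
  set A := Finset.univ.filter fun u : Fin n => (u, false) ∈ S
  set T := Finset.univ.filter fun u : Fin n => (u, true) ∈ S
  have hc : A.card + T.card = S.card := by
    rw [← Finset.filter_univ_mem S, Finset.card_filter, Finset.card_filter, Finset.card_filter,
      Fintype.sum_prod_type_right, Fintype.sum_bool, add_comm]
  rw [Fintype.card_prod, Fintype.card_fin, Fintype.card_bool] at hS
  have h1 := s A T (by omega)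
  have h2 : ∀ v ∈ S, k + 2 ≤ ((Gr (tau σ) (keep n k J)).neighborFinset v \ S).card +
      ∑ c, (if GrPnb (tau σ) v c ∈ S then 1 else 0) + 3 := fun v _ => by
    refine (gr_le_deg (J := J) h hK v).trans (Nat.add_le_add_right ?_ 3)
    rw [← SimpleGraph.card_neighborFinset_eq_degree, ← Finset.card_sdiff_add_card_inter _ S,
      ← Finset.card_filter]
    refine Nat.add_le_add_left ((Finset.card_le_card fun y hy => ?_).trans
      (Finset.card_image_le (f := GrPnb (tau σ) v))) _
    obtain ⟨h3, h4⟩ := Finset.mem_inter.1 hy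
    obtain ⟨c, -, rfl⟩ := GrP_adj.1 ((SimpleGraph.mem_neighborFinset _ _ _).1 h3)
    exact Finset.mem_image_of_mem _ (Finset.mem_filter.2 ⟨Finset.mem_univ _, h4⟩)
  have h3 := Finset.sum_le_sum h2
  rw [Finset.sum_const, Finset.sum_add_distrib, Finset.sum_add_distrib, Finset.sum_comm,
    Fintype.sum_sum_type, Finset.sum_const, smul_eq_mul, smul_eq_mul] at h3
  have h4 : ∑ b : Bool, ∑ v ∈ S, (if GrPnb (tau σ) v (.inl b) ∈ S then 1 else 0) ≤
      ∑ _b : Bool, S.card := Finset.sum_le_sum fun b _ => by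
    rw [← Finset.card_filter]
    exact Finset.card_filter_le _ _
  have h5 : ∑ c : Fin k, ∑ v ∈ S, (if GrPnb (tau σ) v (.inr c) ∈ S then 1 else 0) ≤
      ∑ c : Fin k, 2 * ∑ u, (if u ∈ A ∧ σ c u ∈ T then 1 else 0) := Finset.sum_le_sum fun c _ => by
    rw [← Finset.card_filter, ← Finset.card_filter, two_mul]
    refine (Finset.card_le_card fun v hv => ?_).trans ((Finset.card_union_le _ _).trans
      (add_le_add (Finset.card_image_le (f := fun u => (u, false)))
        (Finset.card_image_le (f := fun u => (σ c u, true)))))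
    obtain ⟨u, b⟩ := v
    obtain ⟨h6, h7⟩ := Finset.mem_filter.1 hv
    cases b
    · exact Finset.mem_union_left _ (Finset.mem_image_of_mem _
        (by simpa [A, T, GrPnb, tau] using And.intro h6 h7))
    · exact Finset.mem_union_right _ (Finset.mem_image.2 ⟨(σ c)⁻¹ u,
        by simpa [A, T, GrPnb, tau] using And.intro h7 h6, by simp⟩)
  rw [← Finset.mul_sum, ← Fintype.sum_prod_type', ← Finset.card_filter] at h5
  rw [Fintype.sum_bool fun _ => S.card] at h4
  change _ ≤ 2 * ecount σ A T at h5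
  rw [hc] at h1
  nlinarith [Nat.mul_le_mul_right S.card hk]

end

end Pool.Agent.P.MP_d39174_gt
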