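import Pool.Agent.P.MP_d39174_gt.VW2

/-! Discrete cocompact groups of hyperbolic elements. -/

namespace Pool.Agent.P.MP_d39174_gt

open UpperHalfPlane MatrixGroups

noncomputable section

variable {Γ : Subgroup SL(2, ℝ)}

lemma Nice.noflip (h : Nice Γ) {g : SL(2, ℝ)} (hg : g ∈ Γ) {n : V} (hn : B n n = 1) :
    g • n ≠ -n := by
  intro e
  have h1 : g ≠ 1 := fun h1 => ne_neg_of_unit hn (by rwa [h1, one_smul] at e)
  have h2 : g ≠ -1 := fun h2 => ne_neg_of_unit hn (by rwa [h2, neg_ad, one_smul] at e)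
  have h3 := h.hyp g hg h1 h2
  rw [tr_of_flip hn e, abs_zero] at h3
  linarith

lemma Nice.pm_of_fix (h : Nice Γ) {g : SL(2, ℝ)} (hg : g ∈ Γ) {p : V} (hp : B p p < 0)
    (e : g • p = p) : PM 1 g := by
  by_contra h1
  rw [pm_one_iff, not_or] at h1
  exact (h.hyp g hg h1.1 h1.2).not_ge (abs_tr_le_of_fix hp e)

lemma Nice.exists_ex (h : Nice Γ) {g : SL(2, ℝ)} (hg : g ∈ Γ) (h1 : ¬ PM 1 g) :
    ∃ n t, B n n = 1 ∧ 0 < t ∧ PM (ex t n) g ∧ ex t n ∈ Γ := by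
  rw [pm_one_iff, not_or] at h1
  obtain ⟨n, t, hn, ht, e⟩ := MP_d39174_gt.exists_ex (h.hyp g hg h1.1 h1.2)
  exact ⟨n, t, hn, ht, e, e.symm.mem h.neg_one_mem hg⟩

lemma Nice.exists_prim (h : Nice Γ) {n : V} (hn : Per Γ n) : ∃ t, Prim Γ n t := by
  obtain ⟨hu, t₀, h0, hm⟩ := hn
  obtain ⟨z, hz⟩ := exists_on_wall hu
  have hA : {s : ℝ | 0 < s ∧ s ≤ t₀ ∧ ex s n ∈ Γ}.Finite := by
    refine Set.Finite.of_injOn (f := fun s => ex s n) (fun s hs => ?_)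
      (fun s _ s' _ e => ex_pm_inj hu (Or.inl e.symm)) (h.fin z (2 * t₀))
    refine ⟨hs.2.2, ?_⟩
    rw [dist_ex_of_wall hu s hz, abs_of_pos hs.1]
    linarith [hs.2.1]
  obtain ⟨t, ht, hmin⟩ := hA.exists_minimal ⟨t₀, h0, le_rfl, hm⟩
  refine ⟨t, hu, ht.1, ht.2.2, fun g hg e => ?_⟩
  obtain ⟨s, hs⟩ := stab_ex hu e
  have h1 : ex (s - ⌊s / t⌋ * t) n ∈ Γ := by
    rw [sub_eq_add_neg, ex_add, ex_neg, ← ex_zpow]
    exact mul_mem (hs.symm.mem h.neg_one_mem hg) (inv_mem (zpow_mem ht.2.2 _))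
  have h2 := Int.sub_floor_div_mul_nonneg s ht.1
  have h3 := Int.sub_floor_div_mul_lt s ht.1
  refine ⟨⌊s / t⌋, ?_⟩
  rcases h2.eq_or_lt with h4 | h4
  · rwa [← sub_eq_zero.1 h4.symm]
  · exact absurd (hmin ⟨h4, h3.le.trans ht.2.1, h1⟩ h3.le) h3.not_ge

lemma grp_fricke (g k : SL(2, ℝ)) : tr (g * k * g⁻¹ * k⁻¹) =
    tr g ^ 2 + tr k ^ 2 + tr (g * k) ^ 2 - tr g * tr k * tr (g * k) - 2 := by
  obtain ⟨a1, a2, a3, a4⟩ := inv_apply' g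
  obtain ⟨b1, b2, b3, b4⟩ := inv_apply' k
  simp only [tr, mul_apply', a1, a2, a3, a4, b1, b2, b3, b4]
  linear_combination ((g 0 0 + g 1 1) ^ 2 - 2) * det_eq k +
    ((k 0 0 + k 1 1) ^ 2 - 2 * (k 0 0 * k 1 1 - k 0 1 * k 1 0)) * det_eq g

lemma grp_tr_mul {a b : V} (ha : B a a = 1) (hb : B b b = 1) (s t : ℝ) : tr (ex s a * ex t b) =
    2 * Real.cosh s * Real.cosh t + 2 * Real.sinh s * Real.sinh t * B a b := by
  obtain ⟨a1, a2, a3, a4⟩ := ex_apply ha s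
  obtain ⟨b1, b2, b3, b4⟩ := ex_apply hb t
  simp only [tr, mul_apply', a1, a2, a3, a4, b1, b2, b3, b4, B]
  ring

/-- Walls with periods are not asymptotic. -/
lemma Nice.eq_of_br (h : Nice Γ) {a b : V} (ha : Per Γ a) (hb : Per Γ b)
    (e : br (ev a) (ev b) = 0) : a = b := by
  obtain ⟨ua, s, hs, ha⟩ := ha
  obtain ⟨ub, t, ht, hb⟩ := hb
  have h1 : tr (ex s a * ex t b * (ex s a)⁻¹ * (ex t b)⁻¹) = 2 := by
    rw [grp_fricke, grp_tr_mul ua ub, tr_ex ua, tr_ex ub, B_eq_one_of_ev ua ub e]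
    linear_combination (4 - 4 * Real.cosh t ^ 2) * Real.cosh_sq s -
      4 * Real.sinh s ^ 2 * Real.cosh_sq t
  have h2 : ex s a * ex t b * (ex s a)⁻¹ * (ex t b)⁻¹ = 1 := by
    by_contra h2
    have h3 := h.hyp _ (mul_mem (mul_mem (mul_mem ha hb) (inv_mem ha)) (inv_mem hb)) h2 fun h3 => by
      rw [h3, tr_neg, ← ex_zero a, tr_ex ua, Real.cosh_zero] at h1
      linarith
    rw [h1, abs_two] at h3
    exact h3.false
  rw [mul_inv_eq_one, ex_conj] at h2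
  rcases eq_of_ex_fix ua ub hs.ne' (ex_inj (by rw [B_ad, ub]) ub ht.ne' (Or.inl h2.symm)) with
    h3 | h3
  · exact h3.symm
  · exact absurd (h3 ▸ e) (br_ev_neg ua)

lemma Nice.fin' (h : Nice Γ) {a b : V} (ha : Per Γ a) (hb : Per Γ b) (e : a ≠ b) :
    Fin' a b := fun e' => e (h.eq_of_br ha hb e')

lemma Nice.abs_B_ne_one (h : Nice Γ) {a b : V} (ha : Per Γ a) (hb : Per Γ b) (e : b ≠ a)
    (e' : b ≠ -a) : |B a b| ≠ 1 := by
  have key : ∀ c, Per Γ c → B a c = 1 → c = a := fun c hc h1 =>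
    (ev_of_B_eq_one ha.1 hc.1 h1).elim (fun h2 => (h.eq_of_br ha hc h2).symm)
      fun h2 => neg_injective (h.eq_of_br ha.neg hc.neg h2).symm
  intro h1
  rcases eq_or_eq_neg_of_abs_eq h1 with h2 | h2
  · exact e (key b hb h2)
  · exact e' (neg_eq_iff_eq_neg.1 (key _ hb.neg (by rw [B_neg_right, h2, neg_neg])))

/-- The orbit of a wall with a period is locally finite. -/
lemma Nice.lf_orbit (h : Nice Γ) {n : V} (hn : Per Γ n) : LF {m | ∃ g ∈ Γ, m = g • n} := by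
  obtain ⟨hu, t, ht, hm⟩ := hn
  intro z R
  have hu' : ∀ m, (∃ g ∈ Γ, m = g • n) → B m m = 1 := by
    rintro _ ⟨g, -, rfl⟩
    rw [B_ad, hu]
  refine Set.Finite.of_injOn (f := fun m => ex t m) (fun m hm' => ?_)
    (fun m h1 m' h2 e => ex_inj (hu' m h1.1) (hu' m' h2.1) ht.ne' (Or.inl e.symm))
    (h.fin z (1 + 2 * Real.sinh t ^ 2 * (1 + R ^ 2)))
  refine ⟨?_, ?_⟩
  · obtain ⟨g, hg, rfl⟩ := hm'.1
    simp only [← ex_conj]
    exact mul_mem (mul_mem hg hm) (inv_mem hg)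
  · refine ((Real.self_le_sinh_iff.2 dist_nonneg).trans (Real.sinh_lt_cosh _).le).trans ?_
    have h1 := pow_le_pow_left₀ (abs_nonneg _) hm'.2 2
    rw [sq_abs] at h1
    rw [cosh_disp (hu' m hm'.1)]
    gcongr

lemma Nice.lf_of_fin (h : Nice Γ) {S : Set V} (hS : ∀ n ∈ S, Per Γ n) {F : Finset V}
    (hF : ∀ n ∈ S, ∃ g ∈ Γ, ∃ m ∈ F, n = g • m) : LF S := by
  intro z R
  refine ((F.finite_toSet.inter_of_left {m | Per Γ m}).biUnion
    fun m hm => h.lf_orbit hm.2 z R).subset fun n hn => ?_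
  obtain ⟨g, hg, m, hm, e⟩ := hF n hn.1
  have h1 := (hS n hn.1).ad (inv_mem hg)
  rw [e, inv_smul_smul] at h1
  exact Set.mem_biUnion (⟨hm, h1⟩ : m ∈ (F : Set V) ∩ {m | Per Γ m}) ⟨⟨g, hg, e⟩, hn.2⟩

/-- Every point is at bounded distance from an invariant family of walls. -/
lemma Nice.near_wall (h : Nice Γ) {n : V} (hn : B n n = 1) :
    ∃ R : ℝ, ∀ z : ℍ, ∃ g ∈ Γ, |B (g • n) (Hy z)| ≤ R := by
  obtain ⟨R, hR⟩ := h.coc
  obtain ⟨w, hw⟩ := exists_on_wall hn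
  refine ⟨Real.sinh (R + dist I w), fun z => ?_⟩
  obtain ⟨γ, hγ, hd⟩ := hR z
  refine ⟨γ⁻¹, inv_mem hγ, ?_⟩
  rw [← B_ad_right, ← Hy_smul]
  exact abs_B_le_sinh hn hw ((dist_triangle _ I _).trans (by linarith))

/-- A locally finite invariant family of walls has finitely many orbits. -/
lemma Nice.fin_orbits (h : Nice Γ) {S : Set V} (hS : LF S) (uS : ∀ n ∈ S, B n n = 1)
    (iS : ∀ g ∈ Γ, ∀ n ∈ S, g • n ∈ S) :
    ∃ F : Finset V, (∀ m ∈ F, m ∈ S) ∧ ∀ n ∈ S, ∃ g ∈ Γ, ∃ m ∈ F, n = g • m := by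
  obtain ⟨R, hR⟩ := h.coc
  refine ⟨(hS I (Real.sinh R)).toFinset, fun m hm => ((Set.Finite.mem_toFinset _).1 hm).1,
    fun n hn => ?_⟩
  obtain ⟨z, hz⟩ := exists_on_wall (uS n hn)
  obtain ⟨γ, hγ, hd⟩ := hR z
  refine ⟨γ⁻¹, inv_mem hγ, γ • n, (Set.Finite.mem_toFinset _).2 ⟨iS γ hγ n hn, ?_⟩,
    (inv_smul_smul γ n).symm⟩
  exact abs_B_le_sinh (w := γ • z) (uS _ (iS γ hγ n hn)) (by rw [Hy_smul, B_ad, hz])
    (by rwa [dist_comm])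

end

end Pool.Agent.P.MP_d39174_gt
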