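import Pool.Agent.P.MP_d39174_gt.Grp

/-! Systole and generation. -/

namespace Pool.Agent.P.MP_d39174_gt

open UpperHalfPlane MatrixGroups

noncomputable section

variable {Γ : Subgroup SL(2, ℝ)}

/-- There are finitely many translation lengths below any bound. -/
lemma Nice.fin_lengths (h : Nice Γ) (R : ℝ) :
    {t : ℝ | 0 < t ∧ t ≤ R ∧ ∃ n, B n n = 1 ∧ ex t n ∈ Γ}.Finite := by
  obtain ⟨R₀, hR₀⟩ := h.coc
  refine ((h.fin I (2 * R₀ + 2 * R)).image fun g => Real.arcosh (tr g / 2)).subset ?_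
  rintro t ⟨ht, htR, n, hn, hm⟩
  obtain ⟨z, hz⟩ := exists_on_wall hn
  obtain ⟨γ, hγ, hd⟩ := hR₀ z
  refine ⟨γ * ex t n * γ⁻¹, ⟨Γ.mul_mem (Γ.mul_mem hγ hm) (Γ.inv_mem hγ), ?_⟩, ?_⟩
  · have h1 : dist (γ • z) ((γ * ex t n * γ⁻¹) • γ • z) = 2 * t := by
      rw [mul_smul, inv_smul_smul, mul_smul, dist_smul, dist_ex_of_wall hn t hz, abs_of_pos ht]
    have h2 : dist ((γ * ex t n * γ⁻¹) • γ • z) ((γ * ex t n * γ⁻¹) • I) ≤ R₀ := by
      rwa [dist_smul]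
    have h3 := dist_triangle4 I (γ • z) ((γ * ex t n * γ⁻¹) • γ • z) ((γ * ex t n * γ⁻¹) • I)
    rw [dist_comm I (γ • z)] at h3
    linarith
  · show Real.arcosh (tr (γ * ex t n * γ⁻¹) / 2) = t
    rw [tr_conj, tr_ex hn, mul_div_cancel_left₀ _ two_ne_zero, Real.arcosh_cosh ht.le]
lemma Nice.exists_ne (h : Nice Γ) : ∃ g ∈ Γ, ¬ PM 1 g := by
  by_contra hc
  obtain ⟨R, hR⟩ := h.coc
  obtain ⟨γ, hγ, hd⟩ := hR (ex (|R| + 1) w0 • I)
  have h1 : PM 1 γ := by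
    by_contra h1
    exact hc ⟨γ, hγ, h1⟩
  rw [← h1.act, one_smul, dist_comm] at hd
  have h2 := le_dist_ex B_w0 (|R| + 1) I
  rw [abs_of_pos (by positivity)] at h2
  linarith [le_abs_self R, abs_nonneg R]
lemma Nice.exists_sys (h : Nice Γ) : ∃ l, Sys Γ l := by
  obtain ⟨g, hg, h1⟩ := h.exists_ne
  obtain ⟨n, t, hn, ht, -, hm⟩ := h.exists_ex hg h1
  obtain ⟨l, ⟨hl, hlt, m, hm1, hm2⟩, hmin⟩ :=
    Set.exists_min_image _ id (h.fin_lengths t) ⟨t, ht, le_rfl, n, hn, hm⟩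
  refine ⟨l, hl, fun γ hγ k1 k2 => ?_, m, hm1, hm2⟩
  obtain ⟨n', t', hn', ht', e, hm'⟩ :=
    h.exists_ex hγ fun e => ((pm_one_iff γ).1 e).elim k1 k2
  have hle : l ≤ t' := by
    rcases le_total t' t with k | k
    · exact hmin t' ⟨ht', k, n', hn', hm'⟩
    · exact hlt.trans k
  rw [← e.abs_tr, tr_ex hn', abs_of_pos (by positivity)]
  have := Real.cosh_le_cosh.2 (show |l| ≤ |t'| by rwa [abs_of_pos hl, abs_of_pos ht'])
  linarith
lemma Nice.lf_SS (h : Nice Γ) {l : ℝ} (hl : 0 < l) : LF (SS Γ l) := by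
  intro z R
  refine Set.Finite.of_injOn (f := fun n => ex l n) ?_ ?_
    (h.fin z (1 + 2 * Real.sinh l ^ 2 * (1 + R ^ 2)))
  · rintro n ⟨hn, hR⟩
    refine ⟨hn.2, ?_⟩
    have h1 := cosh_disp hn.1 l z
    have h2 := Real.self_le_sinh_iff.2 (dist_nonneg (x := z) (y := ex l n • z))
    have h3 := Real.sinh_lt_cosh (dist z (ex l n • z))
    have h4 : B n (Hy z) ^ 2 ≤ R ^ 2 := sq_le_sq' (abs_le.1 hR).1 (abs_le.1 hR).2
    show dist z (ex l n • z) ≤ _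
    nlinarith [sq_nonneg (Real.sinh l)]
  · rintro n ⟨hn, -⟩ m ⟨hm, -⟩ e
    exact ex_inj hn.1 hm.1 hl.ne' (Or.inl e.symm)
lemma SS.per {l : ℝ} (hl : 0 < l) {n : V} (hn : n ∈ SS Γ l) : Per Γ n := ⟨hn.1, l, hl, hn.2⟩
lemma Sys.le_of_mem {l : ℝ} (s : Sys Γ l) {n : V} (hn : B n n = 1) {t : ℝ} (ht : t ≠ 0)
    (hm : ex t n ∈ Γ) : l ≤ |t| := by
  have h1 := s.le _ hm (ex_ne_one hn ht).1 (ex_ne_one hn ht).2
  rw [tr_ex hn, abs_of_pos (by positivity)] at h1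
  have h2 := Real.cosh_le_cosh.1 (show Real.cosh l ≤ Real.cosh t by linarith)
  rwa [abs_of_pos s.pos] at h2
lemma Sys.prim (h : Nice Γ) {l : ℝ} (s : Sys Γ l) {n : V} (hn : n ∈ SS Γ l) : Prim Γ n l := by
  refine ⟨hn.1, s.pos, hn.2, fun g hg e => ?_⟩
  obtain ⟨t, ht⟩ := stab_ex hn.1 e
  have hm : ex t n ∈ Γ := ht.symm.mem h.neg_one_mem hg
  refine ⟨⌊t / l⌋, ?_⟩
  have h1 : (⌊t / l⌋ : ℝ) * l ≤ t := (le_div_iff₀ s.pos).1 (Int.floor_le _)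
  have h2 : t < ((⌊t / l⌋ : ℝ) + 1) * l := (div_lt_iff₀ s.pos).1 (Int.lt_floor_add_one _)
  have h3 : ex (t + -((⌊t / l⌋ : ℝ) * l)) n ∈ Γ := by
    rw [ex_add, ex_neg, ← ex_zpow]
    exact Γ.mul_mem hm (Γ.inv_mem (Γ.zpow_mem hn.2 _))
  have h4 : t + -((⌊t / l⌋ : ℝ) * l) = 0 := by
    by_contra h4
    have h5 := s.le_of_mem hn.1 h4 h3
    rw [abs_of_nonneg (by linarith)] at h5
    linarith
  rwa [show (⌊t / l⌋ : ℝ) * l = t by linarith]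
lemma Sys.le_dist (h : Nice Γ) {l : ℝ} (s : Sys Γ l) {g : SL(2, ℝ)} (hg : g ∈ Γ) (h1 : ¬ PM 1 g)
    (z : ℍ) : 2 * l ≤ dist z (g • z) := by
  obtain ⟨n, t, hn, ht, e, hm⟩ := h.exists_ex hg h1
  rw [← e.act]
  linarith [s.le_of_mem hn ht.ne' hm, le_dist_ex hn t z]
lemma Sys.uniq {l l' : ℝ} (s : Sys Γ l) (s' : Sys Γ l') : l = l' := by
  obtain ⟨n, hn⟩ := s.ne
  obtain ⟨m, hm⟩ := s'.ne
  have h1 := s.le_of_mem hm.1 s'.pos.ne' hm.2
  have h2 := s'.le_of_mem hn.1 s.pos.ne' hn.2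
  rw [abs_of_pos s'.pos] at h1
  rw [abs_of_pos s.pos] at h2
  exact le_antisymm h1 h2
/-- Generation from a connected invariant graph. -/
lemma closure_eq_of_conn {X : Type*} [MulAction SL(2, ℝ) X] {S : Set X} {R : X → X → Prop}
    (iS : ∀ g ∈ Γ, ∀ x ∈ S, g • x ∈ S) (iR : ∀ g ∈ Γ, ∀ x y, R x y → R (g • x) (g • y))
    (conn : ∀ U : Set X, (∀ x ∈ U, ∀ y ∈ S, R x y → y ∈ U) → (∃ x ∈ S, x ∈ U) → S ⊆ U)
    {Y : Set X} (hY : Y ⊆ S) (nY : Y.Nonempty) {H : Subgroup SL(2, ℝ)} (hH : H ≤ Γ)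
    (h1 : ∀ y ∈ Y, ∀ x ∈ S, R y x → ∃ g ∈ H, ∃ y' ∈ Y, x = g • y')
    (h2 : ∀ y ∈ Y, ∀ g ∈ Γ, g • y ∈ Y → g ∈ H) : H = Γ := by
  obtain ⟨y₀, hy₀⟩ := nY
  have hU : S ⊆ {x | ∃ g ∈ H, ∃ y ∈ Y, x = g • y} := by
    refine conn _ ?_ ⟨y₀, hY hy₀, 1, H.one_mem, y₀, hy₀, (one_smul _ _).symm⟩
    rintro x ⟨g, hg, y, hy, rfl⟩ x' hx' r
    have hg' := Γ.inv_mem (hH hg)
    have r' := iR _ hg' _ _ r
    rw [inv_smul_smul] at r'
    obtain ⟨g', k1, y', k2, k3⟩ := h1 y hy _ (iS _ hg' _ hx') r'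
    exact ⟨g * g', H.mul_mem hg k1, y', k2, by rw [mul_smul, ← k3, smul_inv_smul]⟩
  refine le_antisymm hH fun g hg => ?_
  obtain ⟨k, hk, y, hy, e⟩ := hU (iS g hg _ (hY hy₀))
  have h3 : k⁻¹ * g ∈ H := by
    refine h2 y₀ hy₀ _ (Γ.mul_mem (Γ.inv_mem (hH hk)) hg) ?_
    rwa [mul_smul, e, inv_smul_smul]
  simpa using H.mul_mem hk h3
/-- The first Betti number is at most the number of generators. -/
lemma finrank_le_of_closure {F : Finset SL(2, ℝ)} (h : Subgroup.closure (F : Set SL(2, ℝ)) = Γ) :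
    Module.Finite ℝ (Additive Γ →+ ℝ) ∧ Module.finrank ℝ (Additive Γ →+ ℝ) ≤ F.card := by
  subst h
  let e : (Additive (Subgroup.closure (F : Set SL(2, ℝ))) →+ ℝ) →ₗ[ℝ] (F → ℝ) :=
    { toFun := fun φ x => φ (Additive.ofMul ⟨x.1, Subgroup.subset_closure x.2⟩)
      map_add' := fun _ _ => rfl
      map_smul' := fun _ _ => rfl }
  have hi : Function.Injective e := by
    rw [injective_iff_map_eq_zero]
    intro φ hφ
    have key : ∀ g (hg : g ∈ Subgroup.closure (F : Set SL(2, ℝ))),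
        φ (Additive.ofMul ⟨g, hg⟩) = 0 := by
      intro g hg
      induction hg using Subgroup.closure_induction with
      | mem x hx => exact congrFun hφ ⟨x, hx⟩
      | one => exact φ.map_zero
      | mul x y hx hy k1 k2 =>
        have := φ.map_add (Additive.ofMul ⟨x, hx⟩) (Additive.ofMul ⟨y, hy⟩)
        rw [k1, k2, add_zero] at this
        exact this
      | inv x hx k1 =>
        have := φ.map_neg (Additive.ofMul ⟨x, hx⟩)
        rw [k1, neg_zero] at this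
        exact this
    exact AddMonoidHom.ext fun a => key (Additive.toMul a).1 (Additive.toMul a).2
  refine ⟨Module.Finite.of_injective e hi, ?_⟩
  have := LinearMap.finrank_le_finrank_of_injective hi
  rwa [Module.finrank_fintype_fun_eq_card, Fintype.card_coe] at this

end

end Pool.Agent.P.MP_d39174_gt
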