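import Pool.Agent.P.MP_d39174_gt.Ret

/-! Insertions: the cases with four marked sides. -/

namespace Pool.Agent.P.MP_d39174_gt

open UpperHalfPlane MatrixGroups

noncomputable section

open Equiv

variable {S : Type} [Finite S] [DecidableEq S] {f f₁ f₂ : Perm S} {U : Set S}
  {g g' h h' a a' b b' : S}

/-- Reachable in less than `N` steps. -/
private abbrev InsA_R {ι : Type} (N : ℕ) (c : ι → ι) (i j : ι) : Prop := ∃ n, n < N ∧ c^[n] i = j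

/-- Two cycles. -/
private abbrev InsA_T {ι : Type} (N : ℕ) (c : ι → ι) (i j : ι) : Prop :=
  ¬ InsA_R N c i j ∧ ∀ l, InsA_R N c l i ∨ InsA_R N c l j

/-- The return map after an insertion. -/
private def InsA_c (p c : Fin 4 → Fin 4) : Fin 4 ⊕ Fin 4 → Fin 4 ⊕ Fin 4 :=
  Sum.elim (fun i => .inr (p i + 1)) (fun i => .inl (c (p i)))

omit [DecidableEq S] in
private lemma InsA_same {ι : Type} [Fintype ι] {k : Perm S} {E : ι → S} {c : ι → ι}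
    (r : Ret k E c) (hE : Function.Injective E) {N : ℕ} (hN : Fintype.card ι = N) (i j : ι) :
    k.SameCycle (E i) (E j) ↔ InsA_R N c i j := by
  subst hN
  rw [r.same_iff' hE]
  exact ⟨fun ⟨n, hn⟩ => ⟨n, n.2, hn⟩, fun ⟨n, h1, h2⟩ => ⟨⟨n, h1⟩, h2⟩⟩

omit [DecidableEq S] in
private lemma InsA_two {ι : Type} [Fintype ι] {k : Perm S} {E : ι → S} {c : ι → ι}
    (r : Ret k E c) (hE : Function.Injective E) {N : ℕ} (hN : Fintype.card ι = N) {W : Set S}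
    (hW : ∀ z ∈ W, ∃ i, k.SameCycle z (E i)) {i j : ι} (t : InsA_T N c i j) :
    Two k W (E i) (E j) := by
  refine ⟨fun e => t.1 ((InsA_same r hE hN i j).1 e), fun z hz => ?_⟩
  obtain ⟨l, hl⟩ := hW z hz
  exact (t.2 l).imp (fun e => hl.trans ((InsA_same r hE hN _ _).2 e))
    fun e => hl.trans ((InsA_same r hE hN _ _).2 e)

omit [DecidableEq S] in
private lemma InsA_one {ι : Type} [Fintype ι] {k : Perm S} {E : ι → S} {c : ι → ι}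
    (r : Ret k E c) (hE : Function.Injective E) {N : ℕ} (hN : Fintype.card ι = N) {W : Set S}
    (hW : ∀ z ∈ W, ∃ i, k.SameCycle z (E i)) {i : ι} (t : ∀ l, InsA_R N c l i) : One k W := by
  intro x hx y hy
  obtain ⟨l, hl⟩ := hW x hx
  obtain ⟨m, hm⟩ := hW y hy
  exact (hl.trans ((InsA_same r hE hN _ _).2 (t l))).trans
    (hm.trans ((InsA_same r hE hN _ _).2 (t m))).symm

omit [DecidableEq S] in
private lemma InsA_ins {f' : Perm S} {e o nw : Fin 4 → S} {c p : Fin 4 → Fin 4} (r : Ret f e c)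
    (he : Function.Injective e) (I : Ins f f' o nw) (hp : ∀ i, p (p i) = i)
    (ho : ∀ i, e (p i) = o i) (hU : ∀ z ∈ U, ∃ i, f.SameCycle z (e i)) {W : Set S}
    (hW : W ⊆ U ∪ Set.range nw) :
    Ret f' (Sum.elim e nw) (InsA_c p c) ∧ Function.Injective (Sum.elim e nw) ∧
      ∀ z ∈ W, ∃ i, f'.SameCycle z (Sum.elim e nw i) := by
  have hd : ∀ i j, e i ≠ nw j := fun i j => by
    rw [← hp i, ho]
    exact I.dis _ _
  refine ⟨r.ins I hd ho (fun i => ?_) (fun i => rfl) (fun j hj => ?_) he,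
    he.sumElim I.ni hd, fun z hz => I.cover ho hU (hW hz)⟩
  · change Sum.inr (p (p i) + 1) = _
    rw [hp]
  · exact absurd (by rw [← ho, hp]) (hj (p j))

omit [DecidableEq S] in
private lemma InsA_both (I₁ : Ins f f₁ ![g, h, g', h'] ![a, b, a', b'])
    (I₂ : Ins f f₂ ![g, h', g', h] ![a, b', a', b]) {c : Fin 4 → Fin 4}
    (r : Ret f ![g, h, g', h'] c) (hU : ∀ z ∈ U, ∃ i, f.SameCycle z (![g, h, g', h'] i))
    {p : Fin 4 → Fin 4} (hp : p = id ∨ p = ![0, 3, 2, 1]) :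
    ∃ (k : Perm S) (E : Fin 4 ⊕ Fin 4 → S), (k = f₁ ∨ k = f₂) ∧ Ret k E (InsA_c p c) ∧
      Function.Injective E ∧ (∀ z ∈ U ∪ {a, a', b, b'}, ∃ i, k.SameCycle z (E i)) ∧
      g = E (.inl 0) ∧ g' = E (.inl 2) ∧ a = E (.inr 0) ∧ a' = E (.inr 2) := by
  rcases hp with rfl | rfl
  · obtain ⟨h1, h2, h3⟩ := InsA_ins (p := id) (W := U ∪ {a, a', b, b'}) r I₁.oi I₁ (fun _ => rfl)
      (fun _ => rfl) hU (Set.union_subset_union_right _ (by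
        rintro z (rfl | rfl | rfl | rfl)
        exacts [⟨0, rfl⟩, ⟨2, rfl⟩, ⟨1, rfl⟩, ⟨3, rfl⟩]))
    exact ⟨f₁, _, .inl rfl, h1, h2, h3, rfl, rfl, rfl, rfl⟩
  · obtain ⟨h1, h2, h3⟩ := InsA_ins (p := ![0, 3, 2, 1]) (W := U ∪ {a, a', b, b'}) r I₁.oi I₂
      (by decide) (fun i => by fin_cases i <;> rfl) hU (Set.union_subset_union_right _ (by
        rintro z (rfl | rfl | rfl | rfl)
        exacts [⟨0, rfl⟩, ⟨2, rfl⟩, ⟨3, rfl⟩, ⟨1, rfl⟩]))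
    exact ⟨f₂, _, .inr rfl, h1, h2, h3, rfl, rfl, rfl, rfl⟩

private lemma InsA_eta (c : Fin 4 → Fin 4) : ∃ c0 c1 c2 c3, c = ![c0, c1, c2, c3] :=
  ⟨c 0, c 1, c 2, c 3, funext fun i => by fin_cases i <;> rfl⟩

private lemma InsA_f1 : ∀ c0 c1 c2 c3 : Fin 4, (∀ i j, InsA_R 4 ![c0, c1, c2, c3] i j) →
    (InsA_T 8 (InsA_c id ![c0, c1, c2, c3]) (.inl 0) (.inr 2) ∨
      InsA_T 8 (InsA_c id ![c0, c1, c2, c3]) (.inr 0) (.inl 2)) ∨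
    (InsA_T 8 (InsA_c ![0, 3, 2, 1] ![c0, c1, c2, c3]) (.inl 0) (.inr 2) ∨
      InsA_T 8 (InsA_c ![0, 3, 2, 1] ![c0, c1, c2, c3]) (.inr 0) (.inl 2)) := by
  decide +kernel

private lemma InsA_f2 : ∀ c0 c1 c2 c3 : Fin 4, Function.Injective ![c0, c1, c2, c3] →
    InsA_T 4 ![c0, c1, c2, c3] 0 2 →
    InsA_T 8 (InsA_c id ![c0, c1, c2, c3] ∘ swap (.inl 0) (.inr 2)) (.inr 0) (.inl 2) ∨
    InsA_T 8 (InsA_c ![0, 3, 2, 1] ![c0, c1, c2, c3] ∘ swap (.inl 0) (.inr 2))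
      (.inr 0) (.inl 2) := by
  decide +kernel

private lemma InsA_f3 : ∀ c0 c1 c2 c3 : Fin 4, Function.Injective ![c0, c1, c2, c3] →
    (InsA_T 4 ![c0, c1, c2, c3] 0 2 ∧ InsA_R 4 ![c0, c1, c2, c3] 1 3) ∨
      (InsA_T 4 ![c0, c1, c2, c3] 1 3 ∧ InsA_R 4 ![c0, c1, c2, c3] 0 2) →
    (∀ l, InsA_R 8 (InsA_c id ![c0, c1, c2, c3]) l (.inl 0)) ∨
      ∀ l, InsA_R 8 (InsA_c ![0, 3, 2, 1] ![c0, c1, c2, c3]) l (.inl 0) := by
  decide +kernel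

private lemma InsA_f4 : ∀ c0 c1 c2 c3 : Fin 4, Function.Injective ![c0, c1, c2, c3] →
    InsA_R 4 ![c0, c1, c2, c3] 0 2 → InsA_R 4 ![c0, c1, c2, c3] 1 3 →
    ¬ InsA_R 4 ![c0, c1, c2, c3] 0 1 → ∀ l, InsA_R 8 (InsA_c id ![c0, c1, c2, c3]) l (.inl 0) := by
  decide +kernel

omit [DecidableEq S] in
private lemma InsA_T4 {e : Fin 4 → S} {c : Fin 4 → Fin 4} (r : Ret f e c)
    (he : Function.Injective e) {i j : Fin 4} (H : Two f U (e i) (e j))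
    (hU : ∀ l, l = i ∨ l = j ∨ e l ∈ U) : InsA_T 4 c i j := by
  refine ⟨fun t => H.1 ((InsA_same r he rfl i j).2 t), fun l => ?_⟩
  rcases hU l with rfl | rfl | hl
  · exact .inl ⟨0, by norm_num, rfl⟩
  · exact .inr ⟨0, by norm_num, rfl⟩
  · exact (H.2 _ hl).imp (InsA_same r he rfl _ _).1 (InsA_same r he rfl _ _).1

theorem ins_one (I₁ : Ins f f₁ ![g, h, g', h'] ![a, b, a', b'])
    (I₂ : Ins f f₂ ![g, h', g', h] ![a, b', a', b]) (hU : g ∈ U ∧ g' ∈ U ∧ h ∈ U ∧ h' ∈ U)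
    (H : One f U) : ∃ k, (k = f₁ ∨ k = f₂) ∧
      (Two k (U ∪ {a, a', b, b'}) g a' ∨ Two k (U ∪ {a, a', b, b'}) a g') := by
  obtain ⟨c, r⟩ := exists_ret f ![g, h, g', h']
  obtain ⟨c0, c1, c2, c3, rfl⟩ := InsA_eta c
  have hm : ∀ i, ![g, h, g', h'] i ∈ U := fun i => by
    fin_cases i
    exacts [hU.1, hU.2.2.1, hU.2.1, hU.2.2.2]
  have hc : ∀ z ∈ U, ∃ i, f.SameCycle z (![g, h, g', h'] i) := fun z hz => ⟨0, H z hz _ (hm 0)⟩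
  have key : ∃ p, (p = id ∨ p = ![0, 3, 2, 1]) ∧
      (InsA_T 8 (InsA_c p ![c0, c1, c2, c3]) (.inl 0) (.inr 2) ∨
        InsA_T 8 (InsA_c p ![c0, c1, c2, c3]) (.inr 0) (.inl 2)) :=
    (InsA_f1 c0 c1 c2 c3 fun i j => (InsA_same r I₁.oi rfl i j).1 (H _ (hm i) _ (hm j))).elim
      (fun t => ⟨_, .inl rfl, t⟩) fun t => ⟨_, .inr rfl, t⟩
  obtain ⟨p, hp, t⟩ := key
  obtain ⟨k, E, hk, h1, h2, h3, e1, e2, e3, e4⟩ := InsA_both I₁ I₂ r hc hp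
  refine ⟨k, hk, t.imp (fun t => ?_) fun t => ?_⟩
  · have := InsA_two h1 h2 rfl h3 t
    rwa [← e1, ← e4] at this
  · have := InsA_two h1 h2 rfl h3 t
    rwa [← e2, ← e3] at this

theorem ins_two (I₁ : Ins f f₁ ![g, h, g', h'] ![a, b, a', b'])
    (I₂ : Ins f f₂ ![g, h', g', h] ![a, b', a', b]) (hU : h ∈ U ∧ h' ∈ U)
    (H : Two f U g g') : ∃ k, (k = f₁ ∨ k = f₂) ∧
      Two (k * swap g a') (U ∪ {a, a', b, b'}) a g' := by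
  obtain ⟨c, r⟩ := exists_ret f ![g, h, g', h']
  obtain ⟨c0, c1, c2, c3, rfl⟩ := InsA_eta c
  have hc : ∀ z ∈ U, ∃ i, f.SameCycle z (![g, h, g', h'] i) := fun z hz =>
    (H.2 z hz).elim (fun e => ⟨0, e⟩) fun e => ⟨2, e⟩
  have key : ∃ p, (p = id ∨ p = ![0, 3, 2, 1]) ∧
      InsA_T 8 (InsA_c p ![c0, c1, c2, c3] ∘ swap (.inl 0) (.inr 2)) (.inr 0) (.inl 2) :=
    (InsA_f2 c0 c1 c2 c3 (r.inj I₁.oi) (InsA_T4 r I₁.oi (i := 0) (j := 2) H fun l => by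
      fin_cases l
      exacts [.inl rfl, .inr (.inr hU.1), .inr (.inl rfl), .inr (.inr hU.2)])).elim
      (fun t => ⟨_, .inl rfl, t⟩) fun t => ⟨_, .inr rfl, t⟩
  obtain ⟨p, hp, t⟩ := key
  obtain ⟨k, E, hk, h1, h2, h3, e1, e2, e3, e4⟩ := InsA_both I₁ I₂ r hc hp
  refine ⟨k, hk, ?_⟩
  have := InsA_two (h1.swap h2 (.inl 0) (.inr 2)) h2 rfl (W := U ∪ {a, a', b, b'})
    (fun z hz => cover_of_eq (f := k) (fun x hx => by
      rw [Perm.mul_apply, swap_apply_of_ne_of_ne (hx _) (hx _)]) (h3 z hz)) t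
  rwa [← e1, ← e2, ← e3, ← e4] at this

theorem ins_fin (I₁ : Ins f f₁ ![g, h, g', h'] ![a, b, a', b'])
    (I₂ : Ins f f₂ ![g, h', g', h] ![a, b', a', b]) (hU : g ∈ U ∧ g' ∈ U ∧ h ∈ U ∧ h' ∈ U)
    (H : (Two f U g g' ∧ f.SameCycle h h') ∨ (Two f U h h' ∧ f.SameCycle g g')) :
    ∃ k, (k = f₁ ∨ k = f₂) ∧ One k (U ∪ {a, a', b, b'}) := by
  obtain ⟨c, r⟩ := exists_ret f ![g, h, g', h']
  obtain ⟨c0, c1, c2, c3, rfl⟩ := InsA_eta c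
  have hm : ∀ i, ![g, h, g', h'] i ∈ U := fun i => by
    fin_cases i
    exacts [hU.1, hU.2.2.1, hU.2.1, hU.2.2.2]
  have hc : ∀ z ∈ U, ∃ i, f.SameCycle z (![g, h, g', h'] i) := fun z hz => by
    rcases H with H | H
    · exact (H.1.2 z hz).elim (fun e => ⟨0, e⟩) fun e => ⟨2, e⟩
    · exact (H.1.2 z hz).elim (fun e => ⟨1, e⟩) fun e => ⟨3, e⟩
  have key : ∃ p, (p = id ∨ p = ![0, 3, 2, 1]) ∧
      ∀ l, InsA_R 8 (InsA_c p ![c0, c1, c2, c3]) l (.inl 0) :=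
    (InsA_f3 c0 c1 c2 c3 (r.inj I₁.oi) (H.imp
      (fun H => ⟨InsA_T4 r I₁.oi (i := 0) (j := 2) H.1 fun l => .inr (.inr (hm l)),
        (InsA_same r I₁.oi rfl 1 3).1 H.2⟩)
      fun H => ⟨InsA_T4 r I₁.oi (i := 1) (j := 3) H.1 fun l => .inr (.inr (hm l)),
        (InsA_same r I₁.oi rfl 0 2).1 H.2⟩)).elim
      (fun t => ⟨_, .inl rfl, t⟩) fun t => ⟨_, .inr rfl, t⟩
  obtain ⟨p, hp, t⟩ := key
  obtain ⟨k, E, hk, h1, h2, h3, -⟩ := InsA_both I₁ I₂ r hc hp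
  exact ⟨k, hk, InsA_one h1 h2 rfl h3 t⟩

theorem ins_merge {U' : Set S} (I₁ : Ins f f₁ ![g, h, g', h'] ![a, b, a', b'])
    (hU : g ∈ U ∧ g' ∈ U) (hU' : h ∈ U' ∧ h' ∈ U') (H : One f U) (H' : One f U')
    (hn : ¬ f.SameCycle g h) : One f₁ (U ∪ U' ∪ {a, a', b, b'}) := by
  obtain ⟨c, r⟩ := exists_ret f ![g, h, g', h']
  obtain ⟨c0, c1, c2, c3, rfl⟩ := InsA_eta c
  obtain ⟨h1, h2, h3⟩ := InsA_ins (p := id) (U := U ∪ U') (W := U ∪ U' ∪ {a, a', b, b'}) r I₁.oi I₁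
    (fun _ => rfl) (fun _ => rfl)
    (fun z hz => hz.elim (fun hz => ⟨0, H z hz _ hU.1⟩) fun hz => ⟨1, H' z hz _ hU'.1⟩)
    (Set.union_subset_union_right _ (by
      rintro z (rfl | rfl | rfl | rfl)
      exacts [⟨0, rfl⟩, ⟨2, rfl⟩, ⟨1, rfl⟩, ⟨3, rfl⟩]))
  exact InsA_one h1 h2 rfl h3 (InsA_f4 c0 c1 c2 c3 (r.inj I₁.oi)
    ((InsA_same r I₁.oi rfl 0 2).1 (H _ hU.1 _ hU.2))
    ((InsA_same r I₁.oi rfl 1 3).1 (H' _ hU'.1 _ hU'.2))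
    fun t => hn ((InsA_same r I₁.oi rfl 0 1).2 t))

end

end Pool.Agent.P.MP_d39174_gt
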