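import Pool.Agent.P.MP_d39174_gt.Ret

/-! Insertions: the case with six marked sides. -/

namespace Pool.Agent.P.MP_d39174_gt

open UpperHalfPlane MatrixGroups

noncomputable section

open Equiv

open Sum

def insB_r {ι : Type} [DecidableEq ι] (c : ι → ι) (j : ι) : ℕ → ι → Bool
  | 0, _ => false
  | n + 1, x => decide (x = j) || insB_r c j n (c x)

def insB_c (c : Fin 6 → Fin 6) (o : Fin 4 → Fin 6) : Fin 6 ⊕ Fin 4 → Fin 6 ⊕ Fin 4 :=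
  Sum.elim (fun j => if j = o 0 then inr 1 else if j = o 1 then inr 2 else if j = o 2 then inr 3
    else if j = o 3 then inr 0 else inl (c j)) fun i => inl (c (o i))

def insB_L (c : Fin 6 ⊕ Fin 4 → Fin 6 ⊕ Fin 4) (e : Fin 3 → (Fin 6 ⊕ Fin 4) × (Fin 6 ⊕ Fin 4)) :
    Prop :=
  (∃ j, insB_r c (e j).2 10 (e j).1) ∧ ∃ i, ¬ insB_r c (e i).2 10 (e i).1 ∧
    (∀ l, insB_r c (e i).1 10 (inl l) ∨ insB_r c (e i).2 10 (inl l)) ∧
    ∀ l, insB_r c (e i).1 10 (inr l) ∨ insB_r c (e i).2 10 (inr l)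

theorem insB_fin : ∀ c0 c1 : Fin 6, c0 ≠ c1 → ∀ c2, c0 ≠ c2 ∧ c1 ≠ c2 → ∀ c3,
    c0 ≠ c3 ∧ c1 ≠ c3 ∧ c2 ≠ c3 → ∀ c4, c0 ≠ c4 ∧ c1 ≠ c4 ∧ c2 ≠ c4 ∧ c3 ≠ c4 → ∀ c5,
    c0 ≠ c5 ∧ c1 ≠ c5 ∧ c2 ≠ c5 ∧ c3 ≠ c5 ∧ c4 ≠ c5 →
    ¬ insB_r (![c0, c1, c2, c3, c4, c5] ∘ swap 0 1) 3 6 2 →
    (∀ l, insB_r (![c0, c1, c2, c3, c4, c5] ∘ swap 0 1) 2 6 l ∨
      insB_r (![c0, c1, c2, c3, c4, c5] ∘ swap 0 1) 3 6 l) →
    (insB_L (insB_c ![c0, c1, c2, c3, c4, c5] ![0, 4, 1, 5])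
      ![(inl 0, inr 2), (inr 0, inl 1), (inl 2, inl 3)] ∨
    insB_L (insB_c ![c0, c1, c2, c3, c4, c5] ![0, 5, 1, 4])
      ![(inl 0, inr 2), (inr 0, inl 1), (inl 2, inl 3)]) ∨
    insB_L (insB_c ![c0, c1, c2, c3, c4, c5] ![2, 4, 3, 5])
      ![(inl 2, inr 2), (inr 0, inl 3), (inl 0, inl 1)] ∨
    insB_L (insB_c ![c0, c1, c2, c3, c4, c5] ![2, 5, 3, 4])
      ![(inl 2, inr 2), (inr 0, inl 3), (inl 0, inl 1)] := by
  unfold insB_L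
  decide +kernel

lemma insB_r_iff {ι : Type} [DecidableEq ι] (c : ι → ι) (j : ι) (n : ℕ) (i : ι) :
    insB_r c j n i ↔ ∃ m < n, c^[m] i = j := by
  induction n generalizing i with
  | zero => simp [insB_r]
  | succ n ih =>
    rw [Nat.exists_lt_succ_left]
    simp [insB_r, ih]

lemma insB_same {S ι : Type} [Finite S] [Fintype ι] [DecidableEq ι] {f : Perm S} {e : ι → S}
    {c : ι → ι} (h : Ret f e c) (he : Function.Injective e) {n : ℕ} (hn : Fintype.card ι = n)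
    (i j : ι) : f.SameCycle (e i) (e j) ↔ insB_r c j n i := by
  rw [h.same_iff' he, insB_r_iff, ← hn]
  exact ⟨fun ⟨m, e⟩ => ⟨m, m.2, e⟩, fun ⟨m, hm, e⟩ => ⟨⟨m, hm⟩, e⟩⟩

lemma insB_LL {S : Type} [Finite S] {f k : Perm S} {e : Fin 6 → S} {c : Fin 6 → Fin 6}
    {o nw : Fin 4 → S} (h : Ret f e c) (he : Function.Injective e) (I : Ins f k o nw)
    (hd : ∀ i j, e i ≠ nw j) (p : Fin 4 → Fin 6) (hp : ∀ i, e (p i) = o i) {U U' : Set S}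
    (hU : ∀ z ∈ U, ∃ i, f.SameCycle z (e i)) (hU' : U' ⊆ U ∪ Set.range nw)
    {d : Fin 3 → (Fin 6 ⊕ Fin 4) × (Fin 6 ⊕ Fin 4)} (H : insB_L (insB_c c p) d) {d' : Fin 3 → S × S}
    (hd' : ∀ i, d' i = (Sum.elim e nw (d i).1, Sum.elim e nw (d i).2)) : LL k U' d' := by
  have h1 : Function.Injective p := fun i j e => I.oi (by rw [← hp, e, hp])
  have h2 := insB_same (h.ins I hd hp (c' := insB_c c p)
    (fun i => by fin_cases i <;> simp [insB_c, h1.eq_iff]) (fun _ => rfl) (fun j hj => by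
      have : ∀ i, j ≠ p i := fun i e => hj i (by rw [e, hp])
      simp [insB_c, this]) he) (he.sumElim I.ni hd) (n := 10) rfl
  obtain ⟨⟨j, a1⟩, i, a2, a3, a4⟩ := H
  refine ⟨i, j, ?_, hd' j ▸ (h2 _ _).2 a1⟩
  rw [hd']
  refine ⟨fun e => a2 ((h2 _ _).1 e), fun z hz => ?_⟩
  obtain ⟨l, hl⟩ := I.cover hp hU (hU' hz)
  refine Or.imp (fun e => hl.trans ((h2 _ _).2 e)) (fun e => hl.trans ((h2 _ _).2 e)) ?_
  cases l
  exacts [a3 _, a4 _]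

theorem ins_mid {S : Type} [Finite S] [DecidableEq S] {f f₁ f₂ f₃ f₄ : Perm S} {U : Set S}
    {p p' q q' h h' a a' b b' : S}
    (I₁ : Ins f f₁ ![p, h, p', h'] ![a, b, a', b']) (I₂ : Ins f f₂ ![p, h', p', h] ![a, b', a', b])
    (I₃ : Ins f f₃ ![q, h, q', h'] ![a, b, a', b']) (I₄ : Ins f f₄ ![q, h', q', h] ![a, b', a', b])
    (hne : p ≠ q ∧ p ≠ q' ∧ p' ≠ q ∧ p' ≠ q') (hU : p ∈ U ∧ p' ∈ U ∧ h ∈ U ∧ h' ∈ U)
    (H : Two (f * swap p p') U q q') :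
    (∃ k, (k = f₁ ∨ k = f₂) ∧ LL k (U ∪ {a, a', b, b'}) ![(p, a'), (a, p'), (q, q')]) ∨
      ∃ k, (k = f₃ ∨ k = f₄) ∧ LL k (U ∪ {a, a', b, b'}) ![(q, a'), (a, q'), (p, p')] := by
  have he : Function.Injective ![p, p', q, q', h, h'] := by
    have h1 := List.nodup_ofFn.2 I₁.oi
    have h2 := List.nodup_ofFn.2 I₃.oi
    refine List.nodup_ofFn.1 ?_
    simp only [List.ofFn_succ, List.ofFn_zero, Matrix.cons_val_zero, Matrix.cons_val_succ,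
      List.nodup_cons, List.mem_cons, List.not_mem_nil, or_false, not_or] at h1 h2 ⊢
    tauto
  obtain ⟨c, hc⟩ := exists_ret (ι := Fin 6) f ![p, p', q, q', h, h']
  have h1 : ∀ {i j}, i ≠ j → c i ≠ c j := (hc.inj he).ne
  have h2 := insB_same (hc.swap he 0 1) he (n := 6) rfl
  have h3 : ∀ z ∈ U, ∃ i, f.SameCycle z (![p, p', q, q', h, h'] i) := fun z hz =>
    cover_of_eq (f := f * swap p p')
      (fun x hx => congrArg f (swap_apply_of_ne_of_ne (hx 0) (hx 1)).symm)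
      ((H.2 z hz).elim (fun e => ⟨2, e⟩) fun e => ⟨3, e⟩)
  have h4 : ∀ i j, ![p, p', q, q', h, h'] i ≠ ![a, b, a', b'] j := fun i => by
    fin_cases i
    exacts [I₁.dis 0, I₁.dis 2, I₃.dis 0, I₃.dis 2, I₁.dis 1, I₁.dis 3]
  have h5 : ∀ i j, ![p, p', q, q', h, h'] i ≠ ![a, b', a', b] j := fun i => by
    fin_cases i
    exacts [I₂.dis 0, I₂.dis 2, I₄.dis 0, I₄.dis 2, I₂.dis 3, I₂.dis 1]
  have h6 : U ∪ {a, a', b, b'} ⊆ U ∪ Set.range ![a, b, a', b'] :=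
    Set.union_subset_union_right _ fun z hz => by
      rcases hz with rfl | rfl | rfl | rfl
      exacts [⟨0, rfl⟩, ⟨2, rfl⟩, ⟨1, rfl⟩, ⟨3, rfl⟩]
  have h7 : U ∪ {a, a', b, b'} ⊆ U ∪ Set.range ![a, b', a', b] :=
    Set.union_subset_union_right _ fun z hz => by
      rcases hz with rfl | rfl | rfl | rfl
      exacts [⟨0, rfl⟩, ⟨2, rfl⟩, ⟨3, rfl⟩, ⟨1, rfl⟩]
  have h8 : ![c 0, c 1, c 2, c 3, c 4, c 5] = c := funext fun i => by fin_cases i <;> rfl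
  have h9 := insB_fin (c 0) (c 1) (h1 (by decide)) (c 2) ⟨h1 (by decide), h1 (by decide)⟩ (c 3)
    ⟨h1 (by decide), h1 (by decide), h1 (by decide)⟩ (c 4)
    ⟨h1 (by decide), h1 (by decide), h1 (by decide), h1 (by decide)⟩ (c 5)
    ⟨h1 (by decide), h1 (by decide), h1 (by decide), h1 (by decide), h1 (by decide)⟩
  rw [h8] at h9
  rcases h9 (fun e => H.1 ((h2 2 3).2 e)) (fun l => by
    rw [← h2, ← h2]
    fin_cases l
    exacts [H.2 _ hU.1, H.2 _ hU.2.1, .inl (.refl _ _), .inr (.refl _ _), H.2 _ hU.2.2.1,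
      H.2 _ hU.2.2.2]) with (e | e) | e | e
  · exact .inl ⟨_, .inl rfl, insB_LL hc he I₁ h4 _ (fun i => by fin_cases i <;> rfl) h3 h6 e
      fun i => by fin_cases i <;> rfl⟩
  · exact .inl ⟨_, .inr rfl, insB_LL hc he I₂ h5 _ (fun i => by fin_cases i <;> rfl) h3 h7 e
      fun i => by fin_cases i <;> rfl⟩
  · exact .inr ⟨_, .inl rfl, insB_LL hc he I₃ h4 _ (fun i => by fin_cases i <;> rfl) h3 h6 e
      fun i => by fin_cases i <;> rfl⟩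
  · exact .inr ⟨_, .inr rfl, insB_LL hc he I₄ h5 _ (fun i => by fin_cases i <;> rfl) h3 h7 e
      fun i => by fin_cases i <;> rfl⟩

end

end Pool.Agent.P.MP_d39174_gt
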