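import Pool.Agent.P.MP_d39174_gt.CmbDef

/-! Conjugate groups realise isomorphic graphs. -/

namespace Pool.Agent.P.MP_d39174_gt

open UpperHalfPlane MatrixGroups

noncomputable section

/-- Surfaces in the same class realise isomorphic graphs. -/
theorem iso_of_cls {Vx Vx' : Type} {G : SimpleGraph Vx} {G' : SimpleGraph Vx'}
    {Γ Γ' : Subgroup SL(2, ℝ)} {l l' : ℝ} (s : Sys Γ l) (s' : Sys Γ' l') (r : Rz G Γ l)
    (r' : Rz G' Γ' l') (e : cls Γ' = cls Γ) : Nonempty (G ≃g G') := by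
  obtain ⟨M, hM⟩ : Γ' ∈ cls Γ := e ▸ (⟨1, fun γ => by simp⟩ : Γ' ∈ cls Γ')
  have hc : ∀ γ, M * γ * M⁻¹ ∈ Γ' ↔ γ ∈ Γ := fun γ => by
    rw [hM]
    simp [mul_assoc]
  have hs : ∀ t n, M • n ∈ SS Γ' t ↔ n ∈ SS Γ t := fun t n => by
    simp only [SS, Set.mem_ofPred_eq, B_ad, ← ex_conj, hc]
  have s2 : Sys Γ' l := by
    obtain ⟨n, hn⟩ := s.ne
    refine ⟨s.pos, fun γ hγ h1 h2 => ?_, ⟨M • n, (hs _ _).2 hn⟩⟩
    have e0 : γ = M * (M⁻¹ * γ * M) * M⁻¹ := by simp [mul_assoc]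
    have := s.le _ ((hM γ).1 hγ) (fun q => h1 (by rw [e0, q]; simp))
      (fun q => h2 (by rw [e0, q]; simp))
    rwa [← tr_conj M, ← e0] at this
  obtain rfl := s2.uniq s'
  have hE : ∀ n n', Eqw Γ' (M • n) (M • n') ↔ Eqw Γ n n' := by
    intro n n'
    constructor
    · rintro ⟨g, hg, q⟩
      refine ⟨M⁻¹ * g * M, (hM g).1 hg, q.imp (fun q => ?_) fun q => ?_⟩
      · rw [mul_smul, mul_smul, ← q, inv_smul_smul]
      · rw [mul_smul, mul_smul, ← smul_neg, ← q, inv_smul_smul]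
    · rintro ⟨g, hg, q⟩
      refine ⟨M * g * M⁻¹, (hc g).2 hg, q.imp (fun q => ?_) fun q => ?_⟩
      · rw [mul_smul, mul_smul, inv_smul_smul, q]
      · rw [mul_smul, mul_smul, inv_smul_smul, q, smul_neg]
  obtain ⟨L, L1, L2, L3⟩ := r
  obtain ⟨L', L1', L2', L3'⟩ := r'
  choose N hN hL using L2
  have key : ∀ n ∈ SS Γ l, ∀ n' ∈ SS Γ l, L' (M • n) = L' (M • n') ↔ L n = L n' :=
    fun n hn n' hn' => by rw [L1' _ ((hs _ _).2 hn) _ ((hs _ _).2 hn'), hE, L1 _ hn _ hn']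
  have hb : ∀ n ∈ SS Γ' l, M⁻¹ • n ∈ SS Γ l := fun n hn => (hs _ _).1 (by rwa [smul_inv_smul])
  have hf : ∀ n ∈ SS Γ l, L' (M • N (L n)) = L' (M • n) := fun n hn =>
    (key _ (hN _) _ hn).2 (hL _)
  have bij : Function.Bijective fun v => L' (M • N v) := by
    refine ⟨fun v w q => ?_, fun v => ?_⟩
    · rw [← hL v, ← hL w]
      exact (key _ (hN v) _ (hN w)).1 q
    · obtain ⟨n, hn, rfl⟩ := L2' v
      exact ⟨L (M⁻¹ • n), (hf _ (hb n hn)).trans (by rw [smul_inv_smul])⟩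
  refine ⟨⟨Equiv.ofBijective _ bij, fun {v w} => ?_⟩⟩
  rw [Equiv.ofBijective_apply, Equiv.ofBijective_apply, L3, L3']
  constructor
  · rintro ⟨n, hn, n', hn', q, q', h⟩
    refine ⟨_, hb n hn, _, hb n' hn', ?_, ?_, by rwa [B_ad]⟩
    · rw [← hL v, ← key _ (hb n hn) _ (hN v), smul_inv_smul, q]
    · rw [← hL w, ← key _ (hb n' hn') _ (hN w), smul_inv_smul, q']
  · rintro ⟨n, hn, n', hn', rfl, rfl, h⟩
    exact ⟨_, (hs _ _).2 hn, _, (hs _ _).2 hn', (hf n hn).symm, (hf n' hn').symm, by rwa [B_ad]⟩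

end

end Pool.Agent.P.MP_d39174_gt
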