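import Pool.Agent.P.MP_d39174_gt.Fan

/-! Separating geodesics and abstract potentials. -/

namespace Pool.Agent.P.MP_d39174_gt

open UpperHalfPlane MatrixGroups

noncomputable section

open Classical in
lemma potential {X I M : Type*} [AddCommGroup M] [Module ℝ M] (st : I → I)
    (hst : ∀ i, st (st i) = i) (t : I → X → ℝ) (m : I → M) (hm : ∀ i, m (st i) = -m i)
    (R0 : X → X → Prop) (R1 : X → I → X → Prop) (h0 : ∀ x y, R0 x y → ∀ i, t i y = t i x)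
    (h1 : ∀ x i₀ y, R1 x i₀ y → ∀ i,
      t i y - t i x = (if i = i₀ then 1 else 0) - (if i = st i₀ then 1 else 0))
    (hne : ∀ x i₀ y, R1 x i₀ y → st i₀ ≠ i₀)
    (conn : ∀ U : Set X, (∀ x ∈ U, ∀ y, R0 x y → y ∈ U) → (∀ x ∈ U, ∀ i y, R1 x i y → y ∈ U) →
      U.Nonempty → U = Set.univ) :
    ∃ Φ : X → M, (∀ x y, R0 x y → Φ y = Φ x) ∧ ∀ x i y, R1 x i y → Φ y = Φ x + m i := by
  rcases isEmpty_or_nonempty X with hX | ⟨⟨x₀⟩⟩
  · exact ⟨fun _ => 0, fun x => hX.elim x, fun x => hX.elim x⟩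
  have hf := conn {x | {i | t i x ≠ t i x₀}.Finite}
    (fun x hx y hxy => by simpa only [Set.mem_ofPred_eq, h0 x y hxy] using hx)
    (fun x hx i₀ y hxy => ((Set.Finite.insert i₀ (Set.Finite.insert (st i₀) hx))).subset
      fun i hi => by
        by_contra h2
        simp only [Set.mem_insert_iff, Set.mem_ofPred_eq, not_or, not_not] at h2
        have h3 := h1 x i₀ y hxy i
        rw [if_neg h2.1, if_neg h2.2.1, sub_zero, sub_eq_zero, h2.2.2] at h3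
        exact hi h3) ⟨x₀, by simp⟩
  have hs : ∀ x, Function.HasFiniteSupport fun i => (t i x - t i x₀) • m i := fun x =>
    Set.Finite.subset (s := {i | t i x ≠ t i x₀}) (Set.eq_univ_iff_forall.1 hf x) fun i hi h2 =>
      hi (by simp only [h2, sub_self, zero_smul])
  have hd : ∀ j, Function.HasFiniteSupport fun i => (if i = j then (1 : ℝ) else 0) • m i :=
    fun j => (Set.finite_singleton j).subset fun i hi => by
      by_contra h2
      exact hi (by simp only [if_neg (show ¬ i = j from h2), zero_smul])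
  have he : ∀ j, ∑ᶠ i, (if i = j then (1 : ℝ) else 0) • m i = m j := fun j => by
    rw [finsum_eq_single _ j fun i hi => by rw [if_neg hi, zero_smul], if_pos rfl, one_smul]
  refine ⟨fun x => (1 / 2 : ℝ) • ∑ᶠ i, (t i x - t i x₀) • m i, fun x y hxy => ?_,
    fun x i₀ y hxy => ?_⟩
  · simp only [h0 x y hxy]
  · have h2 : ∀ i, (t i y - t i x₀) • m i = (t i x - t i x₀) • m i +
        (if i = i₀ then (1 : ℝ) else 0) • m i - (if i = st i₀ then (1 : ℝ) else 0) • m i :=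
      fun i => by
        rw [← add_smul, ← sub_smul, add_sub_assoc, ← h1 x i₀ y hxy i]
        congr 1
        ring
    simp only [h2]
    have h3 : Function.HasFiniteSupport fun i =>
        (t i x - t i x₀) • m i + (if i = i₀ then (1 : ℝ) else 0) • m i := (hs x).add (hd i₀)
    rw [finsum_sub_distrib h3 (hd _), finsum_add_distrib (hs x) (hd i₀), he, he, hm]
    module

namespace Tr

variable {Γ : Subgroup SL(2, ℝ)} {T : Tr Γ}

/-- Edges of the triangulation and walls. -/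
def Sep (T : Tr Γ) (u v : V) : Prop := (u, v) ∈ T.E ∨ (u ∈ T.A ∧ v = -u)

/-- The triangle of `d` lies on the positive side of the geodesic `e(u) e(v)`. -/
def Sd (u v : V) (d : T.D) : Prop := 0 < ori u v d.a ∨ 0 < ori u v d.b ∨ 0 < ori u v d.c

private lemma Pot1_mem {u v : V} (h : T.Sep u v) : u ∈ T.A ∧ v ∈ T.A ∧ u ≠ v := by
  rcases h with h | ⟨h, rfl⟩
  · exact ⟨(T.del _ h).1, (T.del _ h).2.1, (T.del _ h).2.2.1⟩
  · exact ⟨h, T.ws.neg _ h, ne_neg_of_unit (unit h)⟩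

private lemma Pot1_ne {u v z : V} (h : T.Sep u v) (hz : z ∈ T.A) (h1 : z ≠ u) (h2 : z ≠ v) :
    ori u v z ≠ 0 := by
  obtain ⟨a1, a2, a3⟩ := Pot1_mem h
  exact ori_ne_zero (fin' a1 a2 a3) (fin' a2 hz h2.symm) (fin' hz a1 h1)

private lemma Pot1_edge {d : T.D} {z y : V} (hz : z = d.a ∨ z = d.b ∨ z = d.c)
    (hy : y = d.a ∨ y = d.b ∨ y = d.c) : z = y ∨ T.Sep z y := by
  rcases hz with rfl | rfl | rfl <;> rcases hy with rfl | rfl | rfl
  exacts [.inl rfl, .inr (.inl d.mem), .inr (.inl (T.symm _ _ d.mem_ca)),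
    .inr (.inl (T.symm _ _ d.mem)), .inl rfl, .inr (.inl d.mem_bc), .inr (.inl d.mem_ca),
    .inr (.inl (T.symm _ _ d.mem_bc)), .inl rfl]

lemma Sep.symm {u v : V} (h : T.Sep u v) : T.Sep v u := by
  rcases h with h | ⟨h, rfl⟩
  · exact .inl (T.symm _ _ h)
  · exact .inr ⟨T.ws.neg _ h, (neg_neg u).symm⟩
lemma Sep.not_cr {u v u' v' : V} (h : T.Sep u v) (h' : T.Sep u' v') : ¬ Cr u v u' v' := by
  intro hc
  rcases h with h | ⟨h, rfl⟩ <;> rcases h' with h' | ⟨h', rfl⟩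
  · exact T.ncr _ h _ h' hc
  · exact T.ncw _ h _ h' hc.symm
  · exact T.ncw _ h' _ h hc
  · exact absurd ((cross_iff_Cr (unit h') (unit h)).2 hc)
      (T.ws.sep _ h _ h' hc.ne.2.1 hc.ne.2.2.1).le.not_gt

private lemma Pot1_same {u v z y : V} (h : T.Sep u v) (h' : T.Sep z y) (h1 : z ≠ u) (h2 : z ≠ v)
    (hy : 0 < ori u v y) : 0 < ori u v z :=
  lt_of_le_of_ne (not_lt.1 fun h3 => h.not_cr h' (mul_neg_of_neg_of_pos h3 hy))
    (Pot1_ne h (Pot1_mem h').1 h1 h2).symm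

lemma sd_of_vertex {u v z : V} (h : T.Sep u v) {d : T.D} (hz : z = d.a ∨ z = d.b ∨ z = d.c)
    (h1 : z ≠ u) (h2 : z ≠ v) : (Sd u v d ↔ 0 < ori u v z) := by
  have key : ∀ y, y = d.a ∨ y = d.b ∨ y = d.c → 0 < ori u v y → 0 < ori u v z := fun y hy h3 => by
    rcases Pot1_edge hz hy with rfl | h4
    · exact h3
    · exact Pot1_same h h4 h1 h2 h3
  constructor
  · rintro (h3 | h3 | h3)
    exacts [key _ (.inl rfl) h3, key _ (.inr (.inl rfl)) h3, key _ (.inr (.inr rfl)) h3]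
  · intro h3
    rcases hz with rfl | rfl | rfl
    exacts [.inl h3, .inr (.inl h3), .inr (.inr h3)]
lemma sd_not {u v : V} (h : T.Sep u v) (d : T.D) : Sd v u d ↔ ¬ Sd u v d := by
  have a1 := d.a_ne_b
  have a2 : d.b ≠ d.c := (T.del _ d.mem_bc).2.2.1
  have a3 : d.c ≠ d.a := (T.del _ d.mem_ca).2.2.1
  obtain ⟨z, hz, h1, h2⟩ : ∃ z, (z = d.a ∨ z = d.b ∨ z = d.c) ∧ z ≠ u ∧ z ≠ v := by
    by_contra h3
    have b1 := not_and.1 (not_exists.1 h3 d.a) (.inl rfl)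
    have b2 := not_and.1 (not_exists.1 h3 d.b) (.inr (.inl rfl))
    have b3 := not_and.1 (not_exists.1 h3 d.c) (.inr (.inr rfl))
    grind
  have hA : z ∈ T.A := by
    rcases hz with rfl | rfl | rfl
    exacts [d.a_mem, d.b_mem, d.c_mem]
  rw [sd_of_vertex h.symm hz h2 h1, sd_of_vertex h hz h1 h2, ori_swap, neg_pos, not_lt]
  exact ⟨le_of_lt, fun h3 => lt_of_le_of_ne h3 (Pot1_ne h hA h1 h2)⟩
lemma sd_ν (u v : V) (d : T.D) : Sd u v (T.ν d) ↔ Sd u v d := by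
  simp only [Sd, ν_a, ν_b, ν_c]
  tauto
lemma sd_self (d : T.D) : Sd d.a d.b d := .inr (.inr d.ori_pos)
lemma sd_wall (d : T.D) : Sd (-d.a) d.a d :=
  .inr (.inl (d.fac.1.trans_eq (ori_cyc _ _ _)))
lemma sd_ι {u v : V} (h : T.Sep u v) {d : T.D} (h1 : ¬ (d.a = u ∧ d.b = v))
    (h2 : ¬ (d.a = v ∧ d.b = u)) : Sd u v (T.ι d) ↔ Sd u v d := by
  have a1 := d.a_ne_b
  have h3 : (d.a ≠ u ∧ d.a ≠ v) ∨ (d.b ≠ u ∧ d.b ≠ v) := by grind
  rcases h3 with h3 | h3
  · rw [sd_of_vertex h (d := T.ι d) (.inr (.inl rfl)) h3.1 h3.2,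
      sd_of_vertex h (.inl rfl) h3.1 h3.2, ι_b]
  · rw [sd_of_vertex h (d := T.ι d) (.inl rfl) h3.1 h3.2,
      sd_of_vertex h (.inr (.inl rfl)) h3.1 h3.2, ι_a]
lemma sd_opp {u v : V} (h : T.Sep u v) {d d' : T.D} (ho : d'.a = -d.a) (h1 : u ≠ d.a)
    (h2 : u ≠ -d.a) (h3 : v ≠ d.a) (h4 : v ≠ -d.a) : Sd u v d' ↔ Sd u v d := by
  have hw : T.Sep d.a (-d.a) := .inr ⟨d.a_mem, rfl⟩
  rw [sd_of_vertex h (.inl ho.symm) h2.symm h4.symm, sd_of_vertex h (.inl rfl) h1.symm h3.symm]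
  exact ⟨Pot1_same h hw h1.symm h3.symm, Pot1_same h hw.symm h2.symm h4.symm⟩
lemma sd_fan {e d' : T.D} (ho : d'.a = -e.a) : Sd e.a e.b d' := by
  refine .inl ?_
  rw [ho]
  exact e.fac.1

end Tr

end

end Pool.Agent.P.MP_d39174_gt
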