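import Pool.Agent.P.MP_d39174_gt.ItinDef
import Pool.Agent.P.MP_d39174_gt.Pot1

/-! One step of an itinerary. -/

namespace Pool.Agent.P.MP_d39174_gt

open UpperHalfPlane MatrixGroups

noncomputable section

lemma Itin1_cyc {x y z : ℝ} : 0 < (x - y) * (y - z) * (z - x) ↔
    (x < y ∧ y < z) ∨ (y < z ∧ z < x) ∨ (z < x ∧ x < y) := by
  constructor
  · intro h
    rcases pos_and_pos_or_neg_and_neg_of_mul_pos h with ⟨h1, h2⟩ | ⟨h1, h2⟩
    · rcases pos_and_pos_or_neg_and_neg_of_mul_pos h1 with ⟨h3, h4⟩ | ⟨h3, h4⟩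
      · exact absurd h2 (by linarith)
      · exact Or.inl ⟨by linarith, by linarith⟩
    · rcases mul_neg_iff.1 h1 with ⟨h3, h4⟩ | ⟨h3, h4⟩
      · exact Or.inr (Or.inl ⟨by linarith, by linarith⟩)
      · exact Or.inr (Or.inr ⟨by linarith, by linarith⟩)
  · rintro (⟨h1, h2⟩ | ⟨h1, h2⟩ | ⟨h1, h2⟩)
    · exact mul_pos (mul_pos_of_neg_of_neg (by linarith) (by linarith)) (by linarith)
    · exact mul_pos_of_neg_of_neg (mul_neg_of_pos_of_neg (by linarith) (by linarith)) (by linarith)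
    · exact mul_pos_of_neg_of_neg (mul_neg_of_neg_of_pos (by linarith) (by linarith)) (by linarith)

lemma Itin1_ori {w a b c : V} (hw : B w w = 1) (ha : Fin' w a) (hb : Fin' w b) (hc : Fin' w c) :
    0 < ori a b c ↔ (crd w a < crd w b ∧ crd w b < crd w c) ∨
      (crd w b < crd w c ∧ crd w c < crd w a) ∨ (crd w c < crd w a ∧ crd w a < crd w b) := by
  obtain ⟨k, hk, e⟩ := ori_crd hw ha hb hc
  rw [e, mul_pos_iff_of_pos_left hk, Itin1_cyc]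

namespace Tr

variable {Γ : Subgroup SL(2, ℝ)} {T : Tr Γ} {w : V}

lemma fin'_of_not_mem (hw : Per Γ w) (h : w ∉ T.A) {a : V} (ha : a ∈ T.A) :
    Fin' w a ∧ Fin' (-w) a ∧ crd w a ≠ 0 ∧ |B w a| ≠ 1 := by
  have h1 : a ≠ w := fun e => h (e ▸ ha)
  have h2 : a ≠ -w := fun e => h (by simpa [e] using T.ws.neg a ha)
  have f1 := T.nice.fin' hw (T.ws.per a ha) h1.symm
  have f2 := T.nice.fin' hw.neg (T.ws.per a ha) h2.symm
  exact ⟨f1, f2, crd_ne_zero hw.1 f1 f2, T.nice.abs_B_ne_one hw (T.ws.per a ha) h1 h2⟩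

lemma Itin1_fin (hw : Per Γ w) (h : w ∉ T.A) {a : V} (ha : a ∈ T.A) : Fin' w a :=
  (fin'_of_not_mem hw h ha).1

lemma Itin1_neg (h : w ∉ T.A) : -w ∉ T.A := fun e => h (neg_neg w ▸ T.ws.neg _ e)

lemma crd_inj (hw : Per Γ w) (h : w ∉ T.A) {a b : V} (ha : a ∈ T.A) (hb : b ∈ T.A)
    (e : crd w a = crd w b) : a = b :=
  T.nice.eq_of_br (T.ws.per a ha) (T.ws.per b hb)
    ((crd_eq_iff hw.1 (Itin1_fin hw h ha) (Itin1_fin hw h hb)).1 e)

lemma Itin1_mem {u v : V} (h : T.Sep u v) : u ∈ T.A ∧ v ∈ T.A := by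
  rcases h with h | ⟨h, rfl⟩
  · exact ⟨(T.del _ h).1, (T.del _ h).2.1⟩
  · exact ⟨h, T.ws.neg _ h⟩

lemma Itin1_edge (d : T.D) : T.Sep d.a d.b := Or.inl d.mem

lemma Itin1_wall {a : V} (ha : a ∈ T.A) : T.Sep a (-a) := Or.inr ⟨ha, rfl⟩

lemma Itin1_nc (hw : Per Γ w) (h : w ∉ T.A) {u v u' v' : V} (s : T.Sep u v) (s' : T.Sep u' v')
    (h1 : crd w u < crd w u') (h2 : crd w u' < crd w v) (h3 : crd w v < crd w v') : False := by
  refine s.not_cr s' ((Cr_crd hw.1 (Itin1_fin hw h (Itin1_mem s).1)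
    (Itin1_fin hw h (Itin1_mem s).2) (Itin1_fin hw h (Itin1_mem s').1)
    (Itin1_fin hw h (Itin1_mem s').2)).2 ⟨(h1.trans h2).ne, ?_⟩)
  exact mul_neg_of_pos_of_neg (mul_pos (by linarith) (by linarith))
    (mul_neg_of_neg_of_pos (by linarith) (by linarith))

lemma Itin1_cross (hw : Per Γ w) (h : w ∉ T.A) {a : V} (ha : a ∈ T.A) (h1 : |B w a| < 1) :
    (crd w a < 0 → 0 < crd w (-a)) ∧ (0 < crd w a → crd w (-a) < 0) := by
  have := (cross_iff_crd hw.1 (unit ha) (Itin1_fin hw h ha)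
    (Itin1_fin hw h (T.ws.neg a ha))).1 h1
  exact ⟨fun h2 => pos_of_mul_neg_right this h2.le, fun h2 => neg_of_mul_neg_right this h2.le⟩

lemma Itin1_fac (hw : Per Γ w) (h : w ∉ T.A) (d : T.D) :
    (crd w d.a < crd w d.b ∧ crd w d.b < crd w (-d.a)) ∨
      (crd w d.b < crd w (-d.a) ∧ crd w (-d.a) < crd w d.a) ∨
      (crd w (-d.a) < crd w d.a ∧ crd w d.a < crd w d.b) :=
  (Itin1_ori hw.1 (Itin1_fin hw h d.a_mem) (Itin1_fin hw h d.b_mem)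
    (Itin1_fin hw h (T.ws.neg _ d.a_mem))).1 d.fac.1

lemma Itin1_tri (hw : Per Γ w) (h : w ∉ T.A) (d : T.D) :
    crd w d.b < crd w d.c ∨ crd w d.c < crd w d.a := by
  rcases (Itin1_ori hw.1 (Itin1_fin hw h d.a_mem) (Itin1_fin hw h d.b_mem)
    (Itin1_fin hw h d.c_mem)).1 d.ori_pos with h2 | h2 | h2
  exacts [Or.inl h2.2, Or.inl h2.1, Or.inr h2.1]

lemma Itin1_btw (hw : Per Γ w) (h : w ∉ T.A) {d : T.D} (h1 : |B w d.a| < 1)
    (h2 : crd w d.a < 0) : crd w d.a < crd w d.b ∧ crd w d.b < crd w (-d.a) := by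
  have h3 := (Itin1_cross hw h d.a_mem h1).1 h2
  rcases Itin1_fac hw h d with h4 | h4 | h4
  · exact h4
  · exact absurd h4.2 (by linarith)
  · exact absurd h4.1 (by linarith)

lemma Le.antisymm (hw : Per Γ w) (h : w ∉ T.A) {d e : T.D} (h1 : Le w d e) (h2 : Le w e d) :
    d = e :=
  D.ext (crd_inj hw h d.a_mem e.a_mem (le_antisymm h2.1 h1.1))
    (crd_inj hw h d.b_mem e.b_mem (le_antisymm h1.2 h2.2))
lemma le_total' (hw : Per Γ w) (h : w ∉ T.A) {d e : T.D} (h1 : Crs w d) (h2 : Crs w e) :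
    Le w d e ∨ Le w e d := by
  by_contra hc
  rw [not_or, Le, Le, not_and_or, not_and_or, not_le, not_le, not_le, not_le] at hc
  obtain ⟨l | l, l' | l'⟩ := hc
  · exact lt_asymm l l'
  · exact Itin1_nc hw h (Itin1_edge d) (Itin1_edge e) l (h2.1.trans h1.2) l'
  · exact Itin1_nc hw h (Itin1_edge e) (Itin1_edge d) l' (h1.1.trans h2.2) l
  · exact lt_asymm l l'
lemma crd_neg_of_cross (hw : Per Γ w) (h : w ∉ T.A) {d : T.D} (h1 : Crs w d) :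
    (|B w d.a| < 1 → crd w d.b < crd w (-d.a)) ∧ (|B w d.b| < 1 → crd w d.a < crd w (-d.b)) := by
  refine ⟨fun h2 => (Itin1_btw hw h h2 h1.1).2, fun h2 => ?_⟩
  have h3 := (Itin1_cross hw h d.b_mem h2).2 h1.2
  rcases Itin1_fac hw h (T.ι d) with h4 | h4 | h4
  · exact absurd (h4.1.trans h1.1) h1.2.not_gt
  · exact h4.1
  · exact absurd (h4.2.trans h1.1) h1.2.not_gt

lemma Itin1_last (hw : Per Γ w) (h : w ∉ T.A) {d : T.D} (h1 : Crs w d) (h2 : |B w d.a| < 1) :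
    Last w d := fun e he _ => not_lt.1 fun l =>
  Itin1_nc hw h (Itin1_edge e) (Itin1_wall d.a_mem) l (he ▸ h1.1.trans h1.2)
    (he ▸ (crd_neg_of_cross hw h h1).1 h2)

lemma Itin1_first (hw : Per Γ w) (h : w ∉ T.A) {d : T.D} (h1 : Crs w d) (h2 : |B w d.b| < 1) :
    First w d := fun e he h0 => not_lt.1 fun l =>
  Itin1_nc hw h (Itin1_edge e) (Itin1_wall d.b_mem).symm (he ▸ (crd_neg_of_cross hw h h1).2 h2)
    (((Itin1_cross hw h d.b_mem h2).2 h1.2).trans h0) l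

lemma Itin1_side (hw : Per Γ w) (h : w ∉ T.A) {a : V} (ha : a ∈ T.A) (h1 : |B w a| < 1)
    (h2 : crd w a < 0) : crd a (-w) < 0 ∧ 0 < crd a w := by
  have h3 := (Itin1_cross hw h ha h1).1 h2
  have f := fin'_of_cross (unit ha) hw.1 (B_comm w a ▸ h1)
  have fa := Itin1_fin hw h ha
  have fn := Itin1_fin hw h (T.ws.neg a ha)
  refine ⟨(side_iff (unit ha) f.2.1).1.1 ((Itin1_ori hw.1 fa (fin'_neg hw.1) fn).2
    (Or.inl ?_)), (side_iff (unit ha) f.1).2.1 ?_⟩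
  · rw [crd_neg_self hw.1]
    exact ⟨h2, h3⟩
  · obtain ⟨k, hk, e⟩ := ori_crd' hw.1 fn fa
    rw [← ori_cyc, e]
    exact mul_neg_of_pos_of_neg hk (by linarith)

/-- The first dart in terms of the coordinate of the wall `d.a`. -/
lemma first_iff (hw : Per Γ w) (h : w ∉ T.A) {d : T.D} (h1 : |B w d.a| < 1) (h2 : crd w d.a < 0) :
    crd d.a (-w) < 0 ∧ 0 < crd d.a w ∧ ((Crs w d ∧ First w d) ↔
      (crd d.a (-w) < d.r ∧ ∀ e : T.D, e.a = d.a → crd d.a (-w) < e.r → d.r ≤ e.r)) := by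
  have f := fin'_of_cross d.a_unit hw.1 (B_comm w d.a ▸ h1)
  have fa := Itin1_fin hw h d.a_mem
  have k0 : ∀ e : T.D, e.a = d.a → crd w d.a < crd w e.b ∧ Fin' d.a e.b ∧ e.r = crd d.a e.b :=
    fun e he => ⟨he ▸ (Itin1_btw hw h (d := e) (he ▸ h1) (he ▸ h2)).1,
      he ▸ fin' e.a_mem e.b_mem e.a_ne_b, he ▸ rfl⟩
  have k1 : ∀ e : T.D, e.a = d.a → (crd d.a (-w) < e.r ↔ 0 < crd w e.b) := fun e he => by
    obtain ⟨l, fe, er⟩ := k0 e he
    rw [er, ← ori_pos_iff d.a_unit f.2.1 fe,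
      Itin1_ori hw.1 fa (fin'_neg hw.1) (Itin1_fin hw h e.b_mem), crd_neg_self hw.1]
    refine ⟨?_, fun h3 => Or.inl ⟨h2, h3⟩⟩
    rintro (h3 | h3 | h3)
    exacts [h3.2, h3.1, absurd h3.1 l.not_gt]
  have k2 : ∀ e : T.D, e.a = d.a → (d.r ≤ e.r ↔ crd w d.b ≤ crd w e.b) := fun e he => by
    obtain ⟨l, fe, er⟩ := k0 e he
    obtain ⟨l', fd, dr⟩ := k0 d rfl
    rw [← not_lt, ← not_lt, not_iff_not, er, dr, ← ori_pos_iff d.a_unit fe fd,
      Itin1_ori hw.1 fa (Itin1_fin hw h e.b_mem) (Itin1_fin hw h d.b_mem)]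
    refine ⟨?_, fun h3 => Or.inl ⟨l, h3⟩⟩
    rintro (h3 | h3 | h3)
    exacts [h3.2, h3.1, absurd h3.1 l'.not_gt]
  refine ⟨(Itin1_side hw h d.a_mem h1 h2).1, (Itin1_side hw h d.a_mem h1 h2).2, ?_⟩
  exact ⟨fun h3 => ⟨(k1 d rfl).2 h3.1.2, fun e he h4 => (k2 e he).2 (h3.2 e he ((k1 e he).1 h4))⟩,
    fun h3 => ⟨⟨h2, (k1 d rfl).1 h3.1⟩, fun e he h4 => (k2 e he).1 (h3.2 e he ((k1 e he).2 h4))⟩⟩

/-- Reversal of the wall exchanges first and last. -/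
lemma crs_neg (hw : Per Γ w) (h : w ∉ T.A) (d : T.D) :
    (Crs (-w) (T.ι d) ↔ Crs w d) ∧ (Crs w d → (First (-w) (T.ι d) ↔ Last w d)) := by
  obtain ⟨k, hk, e⟩ := crd_neg_left hw.1
  have e' : ∀ a ∈ T.A, crd (-w) a = -k / crd w a := fun a ha =>
    e a (fin'_of_not_mem hw h ha).1 (fin'_of_not_mem hw h ha).2.1
  have p1 : ∀ a ∈ T.A, crd (-w) a < 0 ↔ 0 < crd w a := fun a ha => by
    rw [e' a ha, neg_div, neg_lt_zero, div_pos_iff_of_pos_left hk]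
  have p2 : ∀ a ∈ T.A, 0 < crd (-w) a ↔ crd w a < 0 := fun a ha => by
    rw [e' a ha, neg_div, ← div_neg, div_pos_iff_of_pos_left hk, neg_pos]
  have p3 : ∀ a ∈ T.A, ∀ b ∈ T.A, crd w a < 0 → crd w b < 0 →
      (crd (-w) a ≤ crd (-w) b ↔ crd w a ≤ crd w b) := fun a ha b hb h1 h2 => by
    rw [e' a ha, e' b hb, neg_div, neg_div, ← div_neg, ← div_neg,
      div_le_div_iff_of_pos_left hk (neg_pos.2 h1) (neg_pos.2 h2), neg_le_neg_iff]
  refine ⟨((p1 _ d.b_mem).and (p2 _ d.a_mem)).trans and_comm, fun h1 => ⟨fun h2 u hu h3 => ?_,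
    fun h2 u hu h3 => ?_⟩⟩
  · exact (p3 _ d.a_mem _ u.a_mem h1.1 h3).1 (h2 (T.ι u) hu ((p2 _ u.a_mem).2 h3))
  · have h4 := (p2 _ u.b_mem).1 h3
    exact (p3 _ d.a_mem _ u.b_mem h1.1 h4).2 (h2 (T.ι u) hu h4)

lemma exists_first' (hw : Per Γ w) (h : w ∉ T.A) {x : V} (hx : x ∈ T.A) (h1 : |B w x| < 1)
    (h2 : crd w x < 0) : ∃ e : T.D, e.a = x ∧ Stn w e := by
  obtain ⟨d, rfl, h3⟩ := exists_first hx (Itin1_side hw h hx h1 h2).1
  have h4 := (first_iff hw h h1 h2).2.2.2 h3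
  exact ⟨d, rfl, h4.1, fun _ => h4.2, fun _ => Itin1_last hw h h4.1 h1⟩

lemma exists_last (hw : Per Γ w) (h : w ∉ T.A) {y : V} (hy : y ∈ T.A) (h1 : |B w y| < 1)
    (h2 : 0 < crd w y) : ∃ e : T.D, e.b = y ∧ Crs w e ∧ Last w e := by
  have h3 : |B (-w) y| < 1 := by rwa [B_neg_left, abs_neg]
  obtain ⟨k, hk, e⟩ := crd_neg_left hw.1
  obtain ⟨u, rfl, hu⟩ := exists_first' hw.neg (Itin1_neg h) hy h3 (by
    rw [e y (fin'_of_not_mem hw h hy).1 (fin'_of_not_mem hw h hy).2.1]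
    exact div_neg_of_neg_of_pos (neg_neg_of_pos hk) h2)
  have c := (crs_neg hw h (T.ι u)).1.1 hu.1
  exact ⟨T.ι u, rfl, c, ((crs_neg hw h (T.ι u)).2 c).1 (hu.2.1 h3)⟩
lemma jmp_spec (hw : Per Γ w) (h : w ∉ T.A) {d : T.D} (h1 : Crs w d) (h2 : |B w d.a| < 1) :
    (jmp w d).b = -d.a ∧ Stn w (jmp w d) := by
  have h3 : |B w (-d.a)| < 1 := by rwa [B_neg_right, abs_neg]
  have ex := exists_last hw h (T.ws.neg _ d.a_mem) h3 ((Itin1_cross hw h d.a_mem h2).1 h1.1)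
  have hs := ex.choose_spec
  rw [jmp, dif_pos ex]
  exact ⟨hs.1, hs.2.1, fun _ => Itin1_first hw h hs.2.1 (by rwa [hs.1]), fun _ => hs.2.2⟩

lemma Itin1_τ (h : w ∉ T.A) (d : T.D) :
    (|B w d.a| < 1 ∧ τ w d = jmp w d) ∨ (¬ |B w d.a| < 1 ∧ 0 < crd w d.c ∧ τ w d = T.φ d) ∨
      (¬ |B w d.a| < 1 ∧ ¬ 0 < crd w d.c ∧ τ w d = T.ψ d) := by
  by_cases h1 : |B w d.a| < 1
  · exact Or.inl ⟨h1, by simp [τ, kind, h, h1]⟩
  by_cases h2 : 0 < crd w d.c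
  · exact Or.inr (Or.inl ⟨h1, h2, by simp [τ, kind, h, h1, h2]⟩)
  · exact Or.inr (Or.inr ⟨h1, h2, by simp [τ, kind, h, h1, h2]⟩)

lemma τ_stn (hw : Per Γ w) (h : w ∉ T.A) {d : T.D} (h1 : Stn w d) :
    Stn w (τ w d) ∧ Le w d (τ w d) ∧ τ w d ≠ d := by
  have c := h1.1
  rcases Itin1_τ h d with ⟨h2, e⟩ | ⟨h2, h3, e⟩ | ⟨h2, h3, e⟩ <;> rw [e]
  · obtain ⟨j1, j2⟩ := jmp_spec hw h c h2
    have l : crd w d.b < crd w (jmp w d).b := j1 ▸ (crd_neg_of_cross hw h c).1 h2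
    refine ⟨j2, ⟨not_lt.1 fun l' => ?_, l.le⟩, fun e' => by simp [e'] at l⟩
    exact Itin1_nc hw h (Itin1_edge d) (Itin1_edge _) l' (j2.1.1.trans c.2) l
  · have l : crd w d.b < crd w d.c :=
      (Itin1_tri hw h d).resolve_right (c.1.trans h3).not_gt
    refine ⟨⟨⟨by simpa using c.1, h3⟩, fun h4 => absurd (by simpa using h4) h2, fun h4 => ?_⟩,
      ⟨by simp, l.le⟩, fun e' => l.ne (congrArg (fun u : T.D => crd w u.b) e').symm⟩
    have h5 := (Itin1_cross hw h d.c_mem h4).2 h3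
    rcases Itin1_fac hw h (T.ψ d) with h6 | h6 | h6
    · exact absurd h6.1 l.not_gt
    · exact absurd (h6.1.trans h5) c.2.not_gt
    · exact absurd h6.2 l.not_gt
  · have l : crd w d.c < crd w d.a :=
      (Itin1_tri hw h d).resolve_left fun l => h3 (c.2.trans l)
    refine ⟨⟨⟨l.trans c.1, c.2⟩, fun _ u hu h5 => not_lt.1 fun l' => ?_,
      fun h4 => absurd (h1.2.2 h4 (T.ψ d) rfl (l.trans c.1)) l.not_ge⟩, ⟨l.le, le_rfl⟩,
      fun e' => l.ne (congrArg (fun u : T.D => crd w u.a) e')⟩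
    exact Itin1_nc hw h (Itin1_edge u) (Itin1_edge d) (hu ▸ l) (c.1.trans h5) l'
lemma no_skip (hw : Per Γ w) (h : w ∉ T.A) {d e : T.D} (h1 : Stn w d) (h2 : Stn w e)
    (h3 : Le w d e) (h4 : d ≠ e) : Le w (τ w d) e := by
  have c := h1.1
  have c' := h2.1
  have n1 : crd w e.a = crd w d.a → crd w d.b < crd w e.b := fun e1 =>
    lt_of_le_of_ne h3.2 fun e2 => h4 (Le.antisymm hw h h3 ⟨e1.ge, e2.ge⟩)
  rcases Itin1_τ h d with ⟨h5, t⟩ | ⟨h5, h6, t⟩ | ⟨h5, h6, t⟩ <;> rw [t]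
  · obtain ⟨j1, j2⟩ := jmp_spec hw h c h5
    have l : crd w e.a < crd w d.a := lt_of_le_of_ne h3.1 fun e1 => by
      have e2 := crd_inj hw h e.a_mem d.a_mem e1
      exact (n1 e1).not_ge (h2.2.1 (e2 ▸ h5) d e2.symm c.2)
    have l' : crd w (jmp w d).b ≤ crd w e.b := j1 ▸ not_lt.1 fun l' =>
      Itin1_nc hw h (Itin1_edge e) (Itin1_wall d.a_mem) l (c.1.trans c'.2) l'
    refine (le_total' hw h j2.1 c').elim id fun h7 => ⟨?_, l'⟩
    have e3 := crd_inj hw h (jmp w d).b_mem e.b_mem (le_antisymm l' h7.2)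
    exact h2.2.2 (by rwa [← e3, j1, B_neg_right, abs_neg]) _ e3 j2.1.1
  · have l : crd w d.b < crd w d.c :=
      (Itin1_tri hw h d).resolve_right (c.1.trans h6).not_gt
    refine ⟨by simpa using h3.1, not_lt.1 fun l' => ?_⟩
    rcases h3.1.eq_or_lt with e1 | l1
    · exact Itin1_nc hw h (Itin1_edge e) (Itin1_edge (T.ν d)) (c'.1.trans c.2) (n1 e1) l'
    · exact Itin1_nc hw h (Itin1_edge e) (Itin1_edge (T.φ d)) (by simpa using l1)
        (by simpa using c.1.trans c'.2) l'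
  · have l : crd w d.c < crd w d.a :=
      (Itin1_tri hw h d).resolve_left fun l => h6 (c.2.trans l)
    refine ⟨not_lt.1 fun l' => ?_, h3.2⟩
    rcases h3.1.eq_or_lt with e1 | l1
    · exact Itin1_nc hw h (Itin1_edge (T.ψ d)) (Itin1_edge e) l' (c'.1.trans c.2) (n1 e1)
    · exact Itin1_nc hw h (Or.inl d.mem_ca) (Itin1_edge e) l' l1 (c.1.trans c'.2)

lemma Itin1_smul (hw : B w w = 1) (g : Γ) (d : T.D) :
    (Crs ((g : SL(2, ℝ)) • w) (g • d) ↔ Crs w d) ∧ (First ((g : SL(2, ℝ)) • w) (g • d) ↔ First w d) ∧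
      (Last ((g : SL(2, ℝ)) • w) (g • d) ↔ Last w d) ∧
      (0 < crd ((g : SL(2, ℝ)) • w) (g • d).c ↔ 0 < crd w d.c) := by
  obtain ⟨k, hk, e⟩ := crd_ad g hw
  have ea : ∀ u : T.D, crd ((g : SL(2, ℝ)) • w) ((g : SL(2, ℝ)) • u.a) = k * crd w u.a :=
    fun u => e _ u.a_unit
  have eb : ∀ u : T.D, crd ((g : SL(2, ℝ)) • w) ((g : SL(2, ℝ)) • u.b) = k * crd w u.b :=
    fun u => e _ u.b_unit
  have n : ∀ x : ℝ, k * x < 0 ↔ x < 0 := fun x => by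
    rw [← neg_pos, ← mul_neg, mul_pos_iff_of_pos_left hk, neg_pos]
  refine ⟨?_, ?_, ?_, ?_⟩
  · simp only [Crs, smul_a, smul_b, ea, eb, n, mul_pos_iff_of_pos_left hk]
  · rw [First, (MulAction.surjective g).forall]
    simp only [First, smul_a, smul_b, eb, smul_left_cancel_iff, mul_pos_iff_of_pos_left hk,
      mul_le_mul_iff_right₀ hk]
  · rw [Last, (MulAction.surjective g).forall]
    simp only [Last, smul_a, smul_b, ea, smul_left_cancel_iff, n, mul_le_mul_iff_right₀ hk]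
  · rw [smul_c, e _ d.c_unit, mul_pos_iff_of_pos_left hk]

lemma Itin1_smul_mem (g : Γ) : (g : SL(2, ℝ)) • w ∈ T.A ↔ w ∈ T.A :=
  ⟨fun h => inv_smul_smul (g : SL(2, ℝ)) w ▸ T.ws.inv _ (Γ.inv_mem g.2) _ h, T.ws.inv _ g.2 _⟩

lemma stn_smul (hw : B w w = 1) (g : Γ) (d : T.D) :
    Stn ((g : SL(2, ℝ)) • w) (g • d) ↔ Stn w d := by
  obtain ⟨h1, h2, h3, -⟩ := Itin1_smul hw g d
  rw [Stn, Stn, h1, h2, h3, smul_a, smul_b, B_ad, B_ad]
lemma str_smul (hw : B w w = 1) (g : Γ) (d : T.D) :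
    Str ((g : SL(2, ℝ)) • w) (g • d) ↔ Str w d := by
  rw [Str, Str, stn_smul hw, Itin1_smul_mem, smul_a, ← smul_neg, smul_left_cancel_iff]
lemma kind_smul (hw : B w w = 1) (g : Γ) (d : T.D) :
    kind ((g : SL(2, ℝ)) • w) (g • d) = kind w d := by
  simp only [kind, (Itin1_smul hw g d).2.2.2, smul_a, B_ad]
  by_cases h : w ∈ T.A
  · rw [if_pos h, if_pos ((Itin1_smul_mem g).2 h)]
  · rw [if_neg h, if_neg (mt (Itin1_smul_mem g).1 h)]
lemma kind_two {d : T.D} (h : Str w d) (hk : kind w d = 2) :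
    w ∉ T.A ∧ Stn w d ∧ |B w d.a| < 1 ∧ τ w d = jmp w d := by
  have h1 : w ∉ T.A := fun h1 => by simp [kind, h1] at hk
  have h2 : |B w d.a| < 1 := by
    by_contra h2
    by_cases h3 : 0 < crd w d.c <;> simp [kind, h1, h2, h3] at hk
  refine ⟨h1, (h.resolve_right fun e => h1 (e ▸ T.ws.neg _ d.a_mem)).2, h2, by simp [τ, hk]⟩
lemma τ_smul (hw : Per Γ w) (g : Γ) {d : T.D} (h : Str w d) :
    τ ((g : SL(2, ℝ)) • w) (g • d) = g • τ w d := by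
  unfold τ
  rw [kind_smul hw.1]
  split_ifs with k0 k1
  · exact φ_smul g d
  · exact ψ_smul g d
  · obtain ⟨h1, h2, h3, -⟩ := kind_two h (by omega)
    have hw' := hw.ad g.2
    have h1' := mt (Itin1_smul_mem g).1 h1
    have h3' : |B ((g : SL(2, ℝ)) • w) (g • d).a| < 1 := by rwa [smul_a, B_ad]
    obtain ⟨j1, j2⟩ := jmp_spec hw h1 h2.1 h3
    obtain ⟨i1, i2⟩ := jmp_spec hw' h1' ((Itin1_smul hw.1 g d).1.2 h2.1) h3'
    have j3 := (stn_smul hw.1 g _).2 j2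
    have eb : (jmp ((g : SL(2, ℝ)) • w) (g • d)).b = (g • jmp w d).b := by
      rw [i1, smul_b, j1, smul_neg, smul_a]
    have h4 : |B ((g : SL(2, ℝ)) • w) (jmp ((g : SL(2, ℝ)) • w) (g • d)).b| < 1 := by
      rwa [i1, B_neg_right, abs_neg]
    exact D.ext (crd_inj hw' h1' (D.a_mem _) (D.a_mem _) (le_antisymm
      (i2.2.2 h4 _ eb.symm j3.1.1) (j3.2.2 (eb ▸ h4) _ eb i2.1.1))) eb
lemma τ_str (hw : Per Γ w) {d : T.D} (h : Str w d) : Str w (τ w d) := by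
  rcases h with h | h
  · exact Or.inl ⟨h.1, (τ_stn hw h.1 h.2).1⟩
  · have h1 : w ∈ T.A := h ▸ T.ws.neg _ d.a_mem
    refine Or.inr ?_
    rw [show τ w d = T.φ d by simp [τ, kind, h1], φ_a, h]

end Tr

end

end Pool.Agent.P.MP_d39174_gt
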