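import Pool.Agent.P.MP_d39174_gt.Itin1

/-! Periodicity of itineraries. -/

set_option linter.unusedVariables false

namespace Pool.Agent.P.MP_d39174_gt

open UpperHalfPlane MatrixGroups

noncomputable section

lemma Itin2_B {w : V} (hw : B w w = 1) (a : V) : B w a = ((fr w)⁻¹ • a).a := by
  rw [← B_ad (fr w)⁻¹, VW2_inv hw]
  simp [B, w0]

lemma Itin2_onW (w a : V) {y : ℝ} (hy : 0 < y) :
    B a (Hy (onW w y)) = (((fr w)⁻¹ • a).c * y - ((fr w)⁻¹ • a).b / y) / 2 := by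
  rw [VW2_onW w hy, B_ad_right]
  simp only [B]
  ring

lemma exists_near {w a : V} (hw : B w w = 1) (ha : B a a = 1) {M : ℝ} (hM : 1 ≤ M)
    (h : |B w a| ≤ M) : ∃ z : ℍ, B w (Hy z) = 0 ∧ |B a (Hy z)| ≤ M := by
  rw [Itin2_B hw] at h
  have h1 : B ((fr w)⁻¹ • a) ((fr w)⁻¹ • a) = 1 := by rwa [B_ad]
  have key : ∃ y : ℝ, 0 < y ∧ |((fr w)⁻¹ • a).c| * y ≤ M ∧ |((fr w)⁻¹ • a).b| / y ≤ M := by
    generalize (fr w)⁻¹ • a = v at h h1
    by_cases hc : v.c = 0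
    · refine ⟨|v.b| + 1, by positivity, by rw [hc]; simp; linarith, ?_⟩
      rw [div_le_iff₀ (by positivity)]
      nlinarith [abs_nonneg v.b]
    · have hc' : 0 < |v.c| := abs_pos.2 hc
      refine ⟨M / |v.c|, by positivity, by rw [mul_div_cancel₀ _ hc'.ne'], ?_⟩
      rw [div_div_eq_mul_div, div_le_iff₀ (by linarith), ← abs_mul, abs_le]
      have h2 := sq_le_sq' (abs_le.1 h).1 (abs_le.1 h).2
      unfold B at h1
      constructor <;> nlinarith [sq_nonneg v.a]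
  obtain ⟨y, hy, k1, k2⟩ := key
  refine ⟨onW w y, B_onW_self hw hy, ?_⟩
  rw [Itin2_onW w a hy, abs_div, abs_two, div_le_iff₀ two_pos]
  refine (abs_sub _ _).trans ?_
  rw [abs_mul, abs_div, abs_of_pos hy]
  linarith

lemma finite_near {Γ : Subgroup SL(2, ℝ)} {S : Set V} (hS : LF S) (uS : ∀ n ∈ S, B n n = 1)
    (iS : ∀ g ∈ Γ, ∀ n ∈ S, g • n ∈ S) {w : V} (hw : Per Γ w) (M : ℝ) {r₁ : ℝ} (r₂ : ℝ)
    (h : 0 < r₁) : {a | a ∈ S ∧ |B w a| ≤ M ∧ r₁ ≤ |crd w a| ∧ |crd w a| ≤ r₂}.Finite := by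
  refine (hS (onW w 1) (((1 + M) / r₁ + (1 + M) * r₂) / 2)).subset ?_
  rintro a ⟨ha, h1, h2, h3⟩
  refine ⟨ha, ?_⟩
  obtain ⟨e1, e2⟩ := VW2_E (fr w)⁻¹ (uS a ha)
  rw [Itin2_B hw.1] at h1
  rw [Itin2_onW w a one_pos]
  have e0 : crd w a = ((fr w)⁻¹ • ev a).p / ((fr w)⁻¹ • ev a).q := rfl
  generalize (fr w)⁻¹ • ev a = x at e0 e1 e2
  generalize (fr w)⁻¹ • a = v at h1 e1 e2
  generalize crd w a = r at e0 h2 h3
  have hq : x.q ≠ 0 := fun hq => by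
    rw [hq, div_zero] at e0
    rw [e0, abs_zero] at h2
    linarith
  have hp : x.p = r * x.q := by rw [e0, div_mul_cancel₀ _ hq]
  rw [hp] at e1 e2
  have f1 : v.b = (1 - v.a) * r := mul_right_cancel₀ hq (by linear_combination e1)
  have f2 : v.c * r = 1 + v.a := mul_right_cancel₀ hq (by linear_combination e2)
  have hM := abs_nonneg v.a
  have g1 : |v.b| ≤ (1 + M) * r₂ := by
    rw [f1, abs_mul]
    exact mul_le_mul ((abs_sub _ _).trans (by rw [abs_one]; linarith)) h3 (abs_nonneg _)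
      (by linarith)
  have g2 : |v.c| ≤ (1 + M) / r₁ := by
    rw [le_div_iff₀ h]
    refine (mul_le_mul_of_nonneg_left h2 (abs_nonneg _)).trans ?_
    rw [← abs_mul, f2]
    exact (abs_add_le _ _).trans (by rw [abs_one]; linarith)
  rw [mul_one, div_one, abs_div, abs_two]
  linarith [abs_sub v.c v.b]

/-- There are walls of the system on the positive side of every wall. -/
lemma Itin2_side {Γ : Subgroup SL(2, ℝ)} (hn : Nice Γ) {A : Set V} (hA : WallSys Γ A) {v : V}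
    (hv : B v v = 1) : ∃ a ∈ A, ∃ p, Fut p ∧ B a p = 0 ∧ 0 < B v p := by
  obtain ⟨a₀, h₀⟩ := hA.ne
  obtain ⟨R, hR⟩ := hn.near_wall (hA.per _ h₀).1
  have hb : B (⟨R + 1, 1 + (R + 1) ^ 2, -1⟩ : V) ⟨R + 1, 1 + (R + 1) ^ 2, -1⟩ = -1 := by
    simp only [B]
    ring
  have hf : Fut (⟨R + 1, 1 + (R + 1) ^ 2, -1⟩ : V) := ⟨by rw [hb]; norm_num, by positivity⟩
  have hz : B v (Hy (fr v • pt (⟨R + 1, 1 + (R + 1) ^ 2, -1⟩ : V))) = R + 1 := by
    rw [Hy_smul, Hy_pt_unit hf hb, Itin2_B hv, inv_smul_smul]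
  generalize fr v • pt (⟨R + 1, 1 + (R + 1) ^ 2, -1⟩ : V) = z at hz
  obtain ⟨g, hg, h1⟩ := hR z
  have ha := hA.inv g hg _ h₀
  obtain ⟨y, hy, hd, -⟩ := exists_foot (hA.per _ ha).1 z
  refine ⟨_, ha, Hy y, Hy_fut y, hy, ?_⟩
  have h2 := (abs_le.1 (lip hv z y)).2
  have h3 : Real.arsinh |B (g • a₀) (Hy z)| < Real.arsinh (R + 1) :=
    Real.arsinh_lt_arsinh.2 (by linarith)
  rw [hz, hd] at h2
  exact Real.arsinh_pos_iff.1 (by linarith)

namespace Tr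

variable {Γ : Subgroup SL(2, ℝ)} {T : Tr Γ} {w : V}

lemma Itin2_same (hw : Per Γ w) (h : w ∉ T.A) {a : V} (ha : a ∈ T.A) (h2 : ¬ |B w a| < 1) :
    0 < crd w a * crd w (-a) := by
  obtain ⟨f1, -, n1, -⟩ := fin'_of_not_mem hw h ha
  obtain ⟨f2, -, n2, -⟩ := fin'_of_not_mem hw h (T.ws.neg _ ha)
  exact lt_of_le_of_ne (not_lt.1 fun e => h2 ((cross_iff_crd hw.1 (unit ha) f1 f2).2 e))
    (mul_ne_zero n1 n2).symm

/-- Facing relations at an ordinary station. -/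
lemma fac_of_crs (hw : Per Γ w) (h : w ∉ T.A) {d : T.D} (h1 : Crs w d) (h2 : ¬ |B w d.a| < 1)
    (h3 : ¬ |B w d.b| < 1) : Fac w d.a ∧ Fac d.a w ∧ Fac (-w) d.b ∧ Fac d.b w := by
  have fa := (fin'_of_not_mem hw h d.a_mem).1
  have fa' := (fin'_of_not_mem hw h (T.ws.neg _ d.a_mem)).1
  have fb := (fin'_of_not_mem hw h d.b_mem).1
  have fb' := (fin'_of_not_mem hw h (T.ws.neg _ d.b_mem)).1
  have fw := fin'_neg hw.1
  obtain ⟨ra, rb⟩ := h1
  have ra' : crd w (-d.a) < 0 := (neg_iff_neg_of_mul_pos (Itin2_same hw h d.a_mem h2)).1 ra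
  have rb' : 0 < crd w (-d.b) := (pos_iff_pos_of_mul_pos (Itin2_same hw h d.b_mem h3)).1 rb
  have la : crd w (-d.a) < crd w d.a := by
    obtain ⟨k, hk, e⟩ := ori_crd hw.1 fa fb fa'
    have := d.fac.1
    rw [e] at this
    have h4 := (pos_iff_pos_of_mul_pos this).1 hk
    have h5 : (crd w d.a - crd w d.b) * (crd w d.b - crd w (-d.a)) < 0 :=
      mul_neg_of_neg_of_pos (by linarith) (by linarith)
    linarith [(neg_iff_neg_of_mul_pos h4).1 h5]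
  have lb : crd w (-d.b) < crd w d.b := by
    obtain ⟨k, hk, e⟩ := ori_crd hw.1 fb fa fb'
    have : 0 < ori d.b d.a (-d.b) := (T.ι d).fac.1
    rw [e] at this
    have h4 := (pos_iff_pos_of_mul_pos this).1 hk
    have h5 : (crd w d.b - crd w d.a) * (crd w d.a - crd w (-d.b)) < 0 :=
      mul_neg_of_pos_of_neg (by linarith) (by linarith)
    linarith [(neg_iff_neg_of_mul_pos h4).1 h5]
  have key : ∀ a, Fin' w a → Fin' w (-a) → 0 < crd w a * crd w (-a) → crd w (-a) < crd w a →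
      Fac a w := fun a f f' p l => by
    constructor
    · rw [← ori_cyc]
      exact (ori_pos_iff hw.1 f' f).2 l
    · obtain ⟨k, hk, e⟩ := ori_crd hw.1 f fw f'
      rw [e, crd_neg_self hw.1]
      exact mul_pos hk (mul_pos_of_neg_of_neg (by linarith) (by linarith))
  exact ⟨(fac_iff_crd hw.1 fa fa').1.2 ⟨ra, ra'⟩, key _ fa fa' (mul_pos_of_neg_of_neg ra ra') la,
    (fac_iff_crd hw.1 fb fb').2.2 ⟨rb, rb'⟩, key _ fb fb' (mul_pos rb rb') lb⟩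

lemma exists_stn (hw : Per Γ w) (h : w ∉ T.A) : ∃ d : T.D, Stn w d := by
  by_cases hc : ∃ a ∈ T.A, |B w a| < 1
  · obtain ⟨a, ha, h1⟩ := hc
    have ha' := T.ws.neg _ ha
    have h2 := (cross_iff_crd hw.1 (unit ha) (fin'_of_not_mem hw h ha).1
      (fin'_of_not_mem hw h ha').1).1 h1
    rcases mul_neg_iff.1 h2 with h3 | h3
    · obtain ⟨e, -, he⟩ := exists_first' hw h ha' (by rwa [B_neg_right, abs_neg]) h3.2
      exact ⟨e, he⟩
    · obtain ⟨e, -, he⟩ := exists_first' hw h ha h1 h3.1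
      exact ⟨e, he⟩
  have hc' : ∀ a ∈ T.A, ¬ |B w a| < 1 := fun a ha e => hc ⟨a, ha, e⟩
  have h1 : ∀ a ∈ T.A, 1 < |B w a| := fun a ha =>
    lt_of_le_of_ne (not_lt.1 (hc' a ha)) (fin'_of_not_mem hw h ha).2.2.2.symm
  by_contra hn
  have hd : ∀ a b, (a, b) ∈ T.E → crd w a < 0 → ¬ 0 < crd w b := fun a b e l l' =>
    hn ⟨⟨(a, b), e⟩, ⟨l, l'⟩, fun x => (hc' _ (D.a_mem _) x).elim,
      fun x => (hc' _ (D.b_mem _) x).elim⟩
  obtain ⟨a, ha, p, hp, e1, e2⟩ := Itin2_side T.nice T.ws hw.1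
  obtain ⟨b, hb, q, hq, e3, e4⟩ := Itin2_side T.nice T.ws (v := -w) (by simpa using hw.1)
  have la := ((fac_iff_crd hw.1 (fin'_of_not_mem hw h ha).1
    (fin'_of_not_mem hw h (T.ws.neg _ ha)).1).1.1
    (fac_of_point hw.1 (unit ha) (h1 a ha) hp e1 e2)).1
  have lb := ((fac_iff_crd hw.1 (fin'_of_not_mem hw h hb).1
    (fin'_of_not_mem hw h (T.ws.neg _ hb)).1).2.1
    (fac_of_point (by simpa using hw.1) (unit hb) (by simpa using h1 b hb) hq e3 e4)).1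
  have := T.conn {x | x ∈ T.A ∧ crd w x < 0}
    (fun x hx => ⟨T.ws.neg _ hx.1,
      (neg_iff_neg_of_mul_pos (Itin2_same hw h hx.1 (hc' _ hx.1))).1 hx.2⟩)
    (fun x hx y e => ⟨(T.del _ e).2.1, lt_of_le_of_ne (not_lt.1 (hd x y e hx.2))
      (fin'_of_not_mem hw h (T.del _ e).2.1).2.2.1⟩) ⟨a, ha, ha, la⟩ hb
  exact lt_asymm lb this.2

lemma finite_stn (hw : Per Γ w) (h : w ∉ T.A) {d e : T.D} (h1 : Crs w d) :
    {x : T.D | Stn w x ∧ Le w d x ∧ Le w x e}.Finite := by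
  obtain ⟨F, hF⟩ := T.fin
  obtain ⟨F', hF'⟩ := T.ws.fin
  have lf : LF T.A := T.nice.lf_of_fin T.ws.per hF'
  obtain ⟨M, hM1, hM⟩ : ∃ M : ℝ, 1 ≤ M ∧ ∀ x : T.D, -B x.a x.b ≤ M := by
    have h0 : 0 ≤ ∑ y ∈ F, |B y.1 y.2| := Finset.sum_nonneg fun _ _ => abs_nonneg _
    refine ⟨1 + ∑ y ∈ F, |B y.1 y.2|, by linarith, fun x => ?_⟩
    obtain ⟨g, -, y, hy, e⟩ := hF x.1 x.2
    have e1 : B x.a x.b = B y.1 y.2 := by
      rw [D.a, D.b, e, B_ad]
    have := Finset.single_le_sum (f := fun y : V × V => |B y.1 y.2|) (fun _ _ => abs_nonneg _) hy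
    linarith [neg_abs_le (B y.1 y.2)]
  have Fa := finite_near lf (fun _ => unit) T.ws.inv hw M (-crd w e.a) (neg_pos.2 h1.1)
  have Fb := finite_near lf (fun _ => unit) T.ws.inv hw M (crd w e.b) h1.2
  have ma : ∀ x : T.D, Stn w x ∧ Le w d x ∧ Le w x e → |B w x.a| ≤ M → x.a ∈ {a | a ∈ T.A ∧
      |B w a| ≤ M ∧ -crd w d.a ≤ |crd w a| ∧ |crd w a| ≤ -crd w e.a} := fun x hx l =>
    ⟨x.a_mem, l, by rw [abs_of_neg hx.1.1.1]; linarith [hx.2.1.1],
      by rw [abs_of_neg hx.1.1.1]; linarith [hx.2.2.1]⟩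
  have mb : ∀ x : T.D, Stn w x ∧ Le w d x ∧ Le w x e → |B w x.b| ≤ M → x.b ∈ {a | a ∈ T.A ∧
      |B w a| ≤ M ∧ crd w d.b ≤ |crd w a| ∧ |crd w a| ≤ crd w e.b} := fun x hx l =>
    ⟨x.b_mem, l, by rw [abs_of_pos hx.1.1.2]; exact hx.2.1.2,
      by rw [abs_of_pos hx.1.1.2]; exact hx.2.2.2⟩
  have A1 : {x : T.D | (Stn w x ∧ Le w d x ∧ Le w x e) ∧ |B w x.a| < 1}.Finite := by
    refine Set.Finite.of_injOn (f := D.a) (fun x hx => ma x hx.1 (hx.2.le.trans hM1))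
      (fun x hx y hy l => D.ext l (crd_inj hw h x.b_mem y.b_mem (le_antisymm ?_ ?_))) Fa
    · exact hx.1.1.2.1 hx.2 y l.symm hy.1.1.1.2
    · exact hy.1.1.2.1 hy.2 x l hx.1.1.1.2
  have A2 : {x : T.D | (Stn w x ∧ Le w d x ∧ Le w x e) ∧ |B w x.b| < 1}.Finite := by
    refine Set.Finite.of_injOn (f := D.b) (fun x hx => mb x hx.1 (hx.2.le.trans hM1))
      (fun x hx y hy l => D.ext (crd_inj hw h x.a_mem y.a_mem (le_antisymm ?_ ?_)) l) Fb
    · exact hx.1.1.2.2 hx.2 y l.symm hy.1.1.1.1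
    · exact hy.1.1.2.2 hy.2 x l hx.1.1.1.1
  have A3 : {x : T.D | (Stn w x ∧ Le w d x ∧ Le w x e) ∧ ¬ |B w x.a| < 1 ∧
      ¬ |B w x.b| < 1}.Finite := by
    refine Set.Finite.of_injOn (f := fun x => (x.a, x.b)) (fun x hx => ?_)
      (fun x _ y _ l => D.ext (congrArg Prod.fst l) (congrArg Prod.snd l)) (Fa.prod Fb)
    obtain ⟨k1, k2, k3, k4⟩ := fac_of_crs hw h hx.1.1.1 hx.2.1 hx.2.2
    obtain ⟨l1, l2, l3⟩ := B_le_mul hw.1 x.a_unit x.b_unit k1 k2 k3 k4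
    have l4 := hM x
    refine ⟨ma x hx.1 ?_, mb x hx.1 ?_⟩
    · rw [abs_of_neg (by linarith)]
      nlinarith
    · rw [abs_of_pos (by linarith)]
      nlinarith
  refine ((A1.union A2).union A3).subset fun x hx => ?_
  by_cases c1 : |B w x.a| < 1
  · exact Or.inl (Or.inl ⟨hx, c1⟩)
  by_cases c2 : |B w x.b| < 1
  · exact Or.inl (Or.inr ⟨hx, c2⟩)
  exact Or.inr ⟨hx, c1, c2⟩

lemma Itin2_trans {x y z : T.D} (h1 : Le w x y) (h2 : Le w y z) : Le w x z :=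
  ⟨h2.1.trans h1.1, h1.2.trans h2.2⟩

lemma Itin2_iter (hw : Per Γ w) (h : w ∉ T.A) (q : ℕ) {x : T.D} (hx : Stn w x) :
    Stn w ((τ w)^[q] x) ∧ Le w x ((τ w)^[q] x) := by
  induction q with
  | zero => exact ⟨hx, le_rfl, le_rfl⟩
  | succ q ih =>
    rw [Function.iterate_succ_apply']
    exact ⟨(τ_stn hw h ih.1).1, Itin2_trans ih.2 (τ_stn hw h ih.1).2.1⟩

lemma Itin2_reach (hw : Per Γ w) (h : w ∉ T.A) {e : T.D} (he : Stn w e) (n : ℕ) :
    ∀ x : T.D, Stn w x → Le w x e → {y : T.D | Stn w y ∧ Le w x y ∧ Le w y e}.ncard = n →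
      ∃ p : ℕ, (τ w)^[p] x = e ∧ ∀ q < p, Le w ((τ w)^[q] x) e ∧ (τ w)^[q] x ≠ e := by
  induction n using Nat.strong_induction_on with
  | _ n ih =>
  intro x hx hl hn
  by_cases hxe : x = e
  · exact ⟨0, hxe, fun q hq => absurd hq (Nat.not_lt_zero q)⟩
  obtain ⟨s1, s2, s3⟩ := τ_stn hw h hx
  obtain ⟨p, p1, p2⟩ := ih _ (hn ▸ Set.ncard_lt_ncard ⟨fun y hy => ⟨hy.1, Itin2_trans s2 hy.2.1,
      hy.2.2⟩, fun hs => s3 (Le.antisymm hw h (hs ⟨hx, ⟨le_rfl, le_rfl⟩, hl⟩).2.1 s2)⟩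
    (finite_stn hw h hx.1)) (τ w x) s1 (no_skip hw h hx he hl hxe) rfl
  refine ⟨p + 1, p1, fun q hq => ?_⟩
  cases q with
  | zero => exact ⟨hl, hxe⟩
  | succ q => exact p2 q (by omega)

/-- After finitely many steps the itinerary reaches the translate, and no translate earlier. -/
theorem itin {t : ℝ} (hw : Prim Γ w t) {d : T.D} (h : Str w d) {γ : Γ} (e : PM (ex t w) γ) :
    ∃ p : ℕ, 0 < p ∧ (τ w)^[p] d = γ • d ∧
      ∀ q, 0 < q → q < p → ∀ g : Γ, (g : SL(2, ℝ)) • w = w → (τ w)^[q] d ≠ g • d := by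
  rcases h with ⟨h, hd⟩ | h
  · have hp : Per Γ w := ⟨hw.unit, t, hw.pos, hw.mem⟩
    have hc : ∀ (s : ℝ) (g : Γ), PM (ex s w) g →
        crd w (g • d).a = Real.exp (2 * s) * crd w d.a ∧
          crd w (g • d).b = Real.exp (2 * s) * crd w d.b := fun s g k => by
      rw [smul_a, smul_b, ← k.ad, ← k.ad]
      exact ⟨crd_ex hw.unit d.a_unit s, crd_ex hw.unit d.b_unit s⟩
    have hγ : (γ : SL(2, ℝ)) • w = w := by rw [← e.ad, ex_ad_self]
    have he : Stn w (γ • d) := by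
      have := (stn_smul hw.unit γ d).2 hd
      rwa [hγ] at this
    have h1 : 1 < Real.exp (2 * t) := Real.one_lt_exp_iff.2 (by linarith [hw.pos])
    obtain ⟨ra, rb⟩ := hd.1
    obtain ⟨c1, c2⟩ := hc t γ e
    have hne : d ≠ γ • d := fun k => by
      rw [← k] at c2
      nlinarith
    obtain ⟨p, p1, p2⟩ := Itin2_reach hp h he _ d hd
      ⟨by rw [c1]; nlinarith, by rw [c2]; nlinarith⟩ rfl
    refine ⟨p, Nat.pos_of_ne_zero fun k => hne (by rw [← p1, k]; rfl), p1,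
      fun q q0 q1 g hg k => ?_⟩
    obtain ⟨m, hm⟩ := hw.gen g g.2 hg
    obtain ⟨-, c3⟩ := hc _ g hm
    obtain ⟨l1, l2⟩ := p2 q q1
    have l3 := (Itin2_iter hp h q hd).2
    rw [k] at l1 l2 l3
    have m1 : (m : ℝ) * t ≤ t := by
      have := l1.2
      rw [c2, c3] at this
      linarith [Real.exp_le_exp.1 (le_of_mul_le_mul_right this rb)]
    have m0 : 0 ≤ (m : ℝ) * t := by
      have := l3.2
      rw [c3] at this
      have h2 : 1 ≤ Real.exp (2 * (m * t)) := le_of_mul_le_mul_right (by linarith) rb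
      linarith [Real.one_le_exp_iff.1 h2]
    have m2 : (m : ℝ) ≤ 1 := le_of_mul_le_mul_right (by linarith) hw.pos
    have m3 : 0 ≤ (m : ℝ) := le_of_mul_le_mul_right (by linarith) hw.pos
    have m4 : m = 0 ∨ m = 1 := by
      have a1 : m ≤ 1 := by exact_mod_cast m2
      have a2 : 0 ≤ m := by exact_mod_cast m3
      omega
    rcases m4 with rfl | rfl
    · rw [Int.cast_zero, zero_mul, ex_zero] at hm
      rw [← smul_of_pm (g := 1) hm d, one_smul] at k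
      obtain ⟨q, rfl⟩ := Nat.exists_eq_succ_of_ne_zero q0.ne'
      obtain ⟨s1, s2, s3⟩ := τ_stn hp h hd
      have := (Itin2_iter hp h q s1).2
      rw [← Function.iterate_succ_apply, k] at this
      exact s3 (Le.antisymm hp h this s2)
    · rw [Int.cast_one, one_mul] at hm
      exact l2 (smul_of_pm (hm.symm.trans e) d)
  · have hA : w ∈ T.A := h ▸ T.ws.neg _ d.a_mem
    have hτ : τ (T := T) w = T.φ := funext fun x => by simp [τ, kind, hA]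
    have hw' : Prim Γ d.a t := by
      have e1 : d.a = -w := by rw [h, neg_neg]
      refine ⟨d.a_unit, hw.pos, ?_, fun g hg k => ?_⟩
      · rw [e1, ex_neg_right, ex_neg]
        exact Γ.inv_mem hw.mem
      · rw [e1, smul_neg, neg_inj] at k
        obtain ⟨m, hm⟩ := hw.gen g hg k
        refine ⟨-m, ?_⟩
        rwa [e1, ex_neg_right, Int.cast_neg, neg_mul, neg_neg]
    rw [h, ex_neg_right] at e
    rw [hτ]
    refine ⟨d.f, d.f_pos, d.f_spec hw' e, fun q q0 q1 g _ k => ?_⟩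
    have h1 : (d.f : ℤ) ∣ q := (d.f_dvd q).1 ⟨g, by rw [zpow_natCast]; exact k⟩
    exact absurd (Nat.le_of_dvd q0 (Int.natCast_dvd_natCast.1 h1)) (not_le.2 q1)

end Tr

end

end Pool.Agent.P.MP_d39174_gt
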