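import Pool.Agent.P.MP_d39174_gt.FrameDef

/-! Itineraries of walls through a triangulation. -/

namespace Pool.Agent.P.MP_d39174_gt

open UpperHalfPlane MatrixGroups

noncomputable section

namespace Tr

variable {Γ : Subgroup SL(2, ℝ)} {T : Tr Γ}

/-- The wall `w` crosses the edge of `d` and enters the triangle of `d`. -/
def Crs (w : V) (d : T.D) : Prop := crd w d.a < 0 ∧ 0 < crd w d.b

def First (w : V) (d : T.D) : Prop := ∀ e : T.D, e.a = d.a → 0 < crd w e.b → crd w d.b ≤ crd w e.b

def Last (w : V) (d : T.D) : Prop := ∀ e : T.D, e.b = d.b → crd w e.a < 0 → crd w d.a ≤ crd w e.a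

/-- Stations of `w`. -/
def Stn (w : V) (d : T.D) : Prop :=
  Crs w d ∧ (|B w d.a| < 1 → First w d) ∧ (|B w d.b| < 1 → Last w d)

/-- `d` comes before `e` along `w`. -/
def Le (w : V) (d e : T.D) : Prop := crd w e.a ≤ crd w d.a ∧ crd w d.b ≤ crd w e.b

open Classical in
/-- The last dart crossed by `w` in the fan on the far side of the wall `d.a`. -/
def jmp (w : V) (d : T.D) : T.D :=
  if h : ∃ e : T.D, e.b = -d.a ∧ Crs w e ∧ Last w e then h.choose else d

open Classical in
def kind (w : V) (d : T.D) : Fin 3 :=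
  if w ∈ T.A then 0 else if |B w d.a| < 1 then 2 else if 0 < crd w d.c then 0 else 1

/-- The next station. -/
def τ (w : V) (d : T.D) : T.D :=
  if kind w d = 0 then T.φ d else if kind w d = 1 then T.ψ d else jmp w d

/-- Stations of a wall outside the system, or darts along a wall of the system. -/
def Str (w : V) (d : T.D) : Prop := (w ∉ T.A ∧ Stn w d) ∨ w = -d.a

/-- The step matrix. -/
def smat (x : T.D → ℝ) (s : T.D → ℝ) (y : T.D → T.D → ℝ) (w : V) (d : T.D) : M2 :=
  if kind w d = 0 then mA (x (T.φ d)) else if kind w d = 1 then mB (x (T.ψ d))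
  else mJ (s d) (s (T.ι (jmp w d))) (y d (T.ι (jmp w d))) (x (T.ι (jmp w d)))

end Tr

end

end Pool.Agent.P.MP_d39174_gt
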