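import Pool.Agent.P.MP_d39174_gt.LiftDef
import Pool.Agent.P.MP_d39174_gt.Itin1
import Pool.Agent.P.MP_d39174_gt.Frame
import Pool.Agent.P.MP_d39174_gt.BaseL

/-! Existence of the quotient type. -/

namespace Pool.Agent.P.MP_d39174_gt

open UpperHalfPlane MatrixGroups

noncomputable section

namespace Tr

variable {Γ : Subgroup SL(2, ℝ)} {T : Tr Γ}

/-- Orbits of darts. -/
abbrev Lift1Q (T : Tr Γ) : Type := MulAction.orbitRel.Quotient Γ T.D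

def Lift1π (d : T.D) : Lift1Q T := Quotient.mk (MulAction.orbitRel Γ T.D) d

lemma Lift1π_eq (d e : T.D) : Lift1π d = Lift1π e ↔ ∃ g : Γ, e = g • d := by
  unfold Lift1π
  rw [Quotient.eq, MulAction.orbitRel_apply, MulAction.mem_orbit_iff]
  constructor
  · rintro ⟨g, hg⟩
    exact ⟨g⁻¹, by rw [← hg, inv_smul_smul]⟩
  · rintro ⟨g, hg⟩
    exact ⟨g⁻¹, by rw [hg, inv_smul_smul]⟩

lemma Lift1π_smul (g : Γ) (d : T.D) : Lift1π (g • d) = Lift1π d :=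
  ((Lift1π_eq d (g • d)).2 ⟨g, rfl⟩).symm

def Lift1out (q : Lift1Q T) : T.D := Quotient.out (s := MulAction.orbitRel Γ T.D) q

lemma Lift1π_out (q : Lift1Q T) : Lift1π (Lift1out q) = q := Quotient.out_eq _

lemma Lift1out_π (d : T.D) : ∃ g : Γ, Lift1out (Lift1π d) = g • d :=
  (Lift1π_eq d _).1 (Lift1π_out _).symm

lemma Lift1surj (q : Lift1Q T) : ∃ d, Lift1π d = q := ⟨_, Lift1π_out q⟩

def Lift1map (f : T.D → T.D) (q : Lift1Q T) : Lift1Q T := Lift1π (f (Lift1out q))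

lemma Lift1map_π {f : T.D → T.D} (hf : ∀ (g : Γ) d, f (g • d) = g • f d) (d : T.D) :
    Lift1map f (Lift1π d) = Lift1π (f d) := by
  obtain ⟨g, hg⟩ := Lift1out_π d
  rw [Lift1map, hg, hf, Lift1π_smul]

def Lift1ι (T : Tr Γ) : Equiv.Perm (Lift1Q T) where
  toFun := Lift1map T.ι
  invFun := Lift1map T.ι
  left_inv q := by
    obtain ⟨d, rfl⟩ := Lift1surj q
    rw [Lift1map_π ι_smul, Lift1map_π ι_smul, ι_ι]
  right_inv q := by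
    obtain ⟨d, rfl⟩ := Lift1surj q
    rw [Lift1map_π ι_smul, Lift1map_π ι_smul, ι_ι]

def Lift1ν (T : Tr Γ) : Equiv.Perm (Lift1Q T) where
  toFun := Lift1map T.ν
  invFun q := Lift1map T.ν (Lift1map T.ν q)
  left_inv q := by
    obtain ⟨d, rfl⟩ := Lift1surj q
    show Lift1map T.ν (Lift1map T.ν (Lift1map T.ν _)) = _
    rw [Lift1map_π ν_smul, Lift1map_π ν_smul, Lift1map_π ν_smul, ν_ν_ν]
  right_inv q := by
    obtain ⟨d, rfl⟩ := Lift1surj q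
    show Lift1map T.ν (Lift1map T.ν (Lift1map T.ν _)) = _
    rw [Lift1map_π ν_smul, Lift1map_π ν_smul, Lift1map_π ν_smul, ν_ν_ν]

open Classical in
def Lift1k (Bs : T.Base) (q : Lift1Q T) : Lift1Q T :=
  if h : ∃ β', (Lift1out q, β') ∈ Bs.S then Lift1π h.choose else q

lemma Lift1k_base (Bs : T.Base) {p : T.D × T.D} (hp : p ∈ Bs.S) :
    Lift1k Bs (Lift1π p.1) = Lift1π p.2 := by
  obtain ⟨g, hg⟩ := Lift1out_π p.1
  have h1 : (Lift1out (Lift1π p.1), g • p.2) ∈ Bs.S := by rw [hg]; exact Bs.inv g p hp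
  have h : ∃ β', (Lift1out (Lift1π p.1), β') ∈ Bs.S := ⟨_, h1⟩
  rw [Lift1k, dif_pos h, Bs.snd_eq h1 h.choose_spec, Lift1π_smul]

lemma Lift1_non (Bs : T.Base) {β : T.D} (hβ : ∀ β', (β, β') ∉ Bs.S) :
    ¬ ∃ β', (Lift1out (Lift1π β), β') ∈ Bs.S := by
  obtain ⟨g, hg⟩ := Lift1out_π β
  rintro ⟨β', h⟩
  rw [hg] at h
  have := Bs.inv g⁻¹ _ h
  simp only [inv_smul_smul] at this
  exact hβ _ this

lemma Lift1k_non (Bs : T.Base) {β : T.D} (hβ : ∀ β', (β, β') ∉ Bs.S) :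
    Lift1k Bs (Lift1π β) = Lift1π β := by
  rw [Lift1k, dif_neg (Lift1_non Bs hβ)]

lemma Lift1k_k (Bs : T.Base) (q : Lift1Q T) : Lift1k Bs (Lift1k Bs q) = q := by
  obtain ⟨β, rfl⟩ := Lift1surj q
  by_cases h : ∃ β', (β, β') ∈ Bs.S
  · obtain ⟨β', h⟩ := h
    have e1 : Lift1k Bs (Lift1π β) = Lift1π β' := Lift1k_base Bs h
    have e2 : Lift1k Bs (Lift1π β') = Lift1π β := Lift1k_base Bs (Bs.symm _ h)
    rw [e1, e2]
  · have h' : ∀ β', (β, β') ∉ Bs.S := fun β' hh => h ⟨β', hh⟩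
    rw [Lift1k_non Bs h', Lift1k_non Bs h']

def Lift1κ (Bs : T.Base) : Equiv.Perm (Lift1Q T) where
  toFun := Lift1k Bs
  invFun := Lift1k Bs
  left_inv := Lift1k_k Bs
  right_inv := Lift1k_k Bs

open Classical in
def Lift1y (Bs : T.Base) (q : Lift1Q T) : ℝ :=
  if h : ∃ β', (Lift1out q, β') ∈ Bs.S then yy (Lift1out q) h.choose else 1

lemma Lift1y_base (Bs : T.Base) {p : T.D × T.D} (hp : p ∈ Bs.S) :
    Lift1y Bs (Lift1π p.1) = yy p.1 p.2 := by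
  obtain ⟨g, hg⟩ := Lift1out_π p.1
  have h1 : (Lift1out (Lift1π p.1), g • p.2) ∈ Bs.S := by rw [hg]; exact Bs.inv g p hp
  have h : ∃ β', (Lift1out (Lift1π p.1), β') ∈ Bs.S := ⟨_, h1⟩
  rw [Lift1y, dif_pos h, Bs.snd_eq h1 h.choose_spec, hg, yy_smul g (Bs.opp p hp)]

lemma Lift1y_pos (Bs : T.Base) (q : Lift1Q T) : 0 < Lift1y Bs q := by
  unfold Lift1y
  split_ifs
  · exact yy_pos _ _
  · exact one_pos

lemma Lift1y_k (Bs : T.Base) (q : Lift1Q T) : Lift1y Bs (Lift1k Bs q) = Lift1y Bs q := by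
  obtain ⟨β, rfl⟩ := Lift1surj q
  by_cases h : ∃ β', (β, β') ∈ Bs.S
  · obtain ⟨β', h⟩ := h
    have e1 : Lift1k Bs (Lift1π β) = Lift1π β' := Lift1k_base Bs h
    have e2 : Lift1y Bs (Lift1π β') = yy β' β := Lift1y_base Bs (Bs.symm _ h)
    have e3 : Lift1y Bs (Lift1π β) = yy β β' := Lift1y_base Bs h
    rw [e1, e2, e3, yy_symm (Bs.opp _ h)]
  · have h' : ∀ β', (β, β') ∉ Bs.S := fun β' hh => h ⟨β', hh⟩
    rw [Lift1k_non Bs h']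

/-- Strands. -/
abbrev Lift1P (T : Tr Γ) (l : ℝ) : Type := {p : V × T.D // p.1 ∈ SS Γ l ∧ Str p.1 p.2}

def Lift1rel (T : Tr Γ) (l : ℝ) : Setoid (Lift1P T l) where
  r p q := ∃ g : Γ, q.1.1 = (g : SL(2, ℝ)) • p.1.1 ∧ q.1.2 = g • p.1.2
  iseqv := ⟨fun p => ⟨1, by simp, by simp⟩,
    fun {p q} ⟨g, h1, h2⟩ => ⟨g⁻¹, by rw [h1]; simp, by rw [h2]; simp⟩,
    fun {p q r} ⟨g, h1, h2⟩ ⟨k, h3, h4⟩ =>
      ⟨k * g, by rw [h3, h1, Subgroup.coe_mul, mul_smul], by rw [h4, h2, mul_smul]⟩⟩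

abbrev Lift1S (T : Tr Γ) (l : ℝ) : Type := Quotient (Lift1rel T l)

lemma Lift1S_finite {l : ℝ} (fin : ∀ d : T.D, {w | w ∈ SS Γ l ∧ Str w d}.Finite) :
    Finite (Lift1S T l) := by
  have : ∀ q : Lift1Q T, Finite {w | w ∈ SS Γ l ∧ Str w (Lift1out q)} := fun q => (fin _).to_subtype
  refine Finite.of_surjective
    (fun x : Σ q : Lift1Q T, {w | w ∈ SS Γ l ∧ Str w (Lift1out q)} =>
      (Quotient.mk (Lift1rel T l) ⟨(x.2.1, Lift1out x.1), x.2.2⟩ : Lift1S T l)) ?_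
  intro s
  obtain ⟨⟨⟨w, d⟩, hw, hs⟩, rfl⟩ := Quotient.exists_rep s
  obtain ⟨g, hg⟩ := Lift1out_π d
  refine ⟨⟨Lift1π d, ⟨(g : SL(2, ℝ)) • w, SS.ad hw g.2, ?_⟩⟩, ?_⟩
  · rw [hg]; exact (str_smul hw.1 g d).2 hs
  · exact (Quotient.sound (s := Lift1rel T l) ⟨g, rfl, hg⟩).symm

open Classical in
def Lift1w {l : ℝ} (sub : T.A ⊆ SS Γ l) (w : V) (d : T.D) : Lift1S T l :=
  if h : w ∈ SS Γ l ∧ Str w d then Quotient.mk (Lift1rel T l) ⟨(w, d), h⟩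
  else Quotient.mk (Lift1rel T l) ⟨(-d.a, d), SS.neg (sub d.a_mem), Or.inr rfl⟩

lemma Lift1w_of {l : ℝ} (sub : T.A ⊆ SS Γ l) {w : V} {d : T.D} (hw : w ∈ SS Γ l) (hs : Str w d) :
    Lift1w sub w d = Quotient.mk (Lift1rel T l) ⟨(w, d), hw, hs⟩ := by
  rw [Lift1w, dif_pos ⟨hw, hs⟩]

lemma Lift1w_eq {l : ℝ} (sub : T.A ⊆ SS Γ l) {w w' : V} {d d' : T.D} (hw : w ∈ SS Γ l)
    (hs : Str w d) (hw' : w' ∈ SS Γ l) (hs' : Str w' d') :
    Lift1w sub w d = Lift1w sub w' d' ↔ ∃ g : Γ, w' = (g : SL(2, ℝ)) • w ∧ d' = g • d := by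
  rw [Lift1w_of sub hw hs, Lift1w_of sub hw' hs', Quotient.eq]
  rfl

lemma Lift1w_out {l : ℝ} (sub : T.A ⊆ SS Γ l) {w : V} {d : T.D} (hw : w ∈ SS Γ l) (hs : Str w d) :
    ∃ g : Γ, (Lift1w sub w d).out.1.1 = (g : SL(2, ℝ)) • w ∧ (Lift1w sub w d).out.1.2 = g • d := by
  rw [Lift1w_of sub hw hs]
  exact Quotient.exact (s := Lift1rel T l) (Quotient.out_eq _).symm

theorem exists_lift {l : ℝ} (hl : 0 < l) (sub : T.A ⊆ SS Γ l) (Bs : T.Base) {m₀ : ℕ}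
    (fin : ∀ d : T.D, {w | w ∈ SS Γ l ∧ Str w d}.Finite)
    (hj : ∀ w ∈ SS Γ l, ∀ d : T.D, Str w d → kind w d = 2 → ∃ p ∈ Bs.S, ∃ i j : ℕ, i < p.1.f ∧
      j ≤ m₀ * p.2.f ∧ d = (T.φ ^ i) p.1 ∧ T.ι (jmp w d) = (T.φ ^ j) p.2) :
    ∃ (D S : Type) (_ : Fintype D) (_ : Fintype S) (M : Mdl D S) (π : T.D → D)
      (ϖ : V → T.D → S) (x y : D → ℝ), Lift l Bs m₀ M π ϖ x y := by
  classical
  have := Lift1S_finite (T := T) fin
  have hch : ∀ s : Lift1S T l, ∃ i j : ℕ, (kind s.out.1.1 s.out.1.2 ≠ 2 → i = 0 ∧ j = 0) ∧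
      (kind s.out.1.1 s.out.1.2 = 2 → ∃ p ∈ Bs.S, i < p.1.f ∧ j ≤ m₀ * p.2.f ∧
        s.out.1.2 = (T.φ ^ i) p.1 ∧ T.ι (jmp s.out.1.1 s.out.1.2) = (T.φ ^ j) p.2) := by
    intro s
    by_cases hk : kind s.out.1.1 s.out.1.2 = 2
    · obtain ⟨p, hp, i, j, h⟩ := hj _ s.out.2.1 _ s.out.2.2 hk
      exact ⟨i, j, fun h' => absurd hk h', fun _ => ⟨p, hp, h⟩⟩
    · exact ⟨0, 0, fun _ => ⟨rfl, rfl⟩, fun h' => absurd h' hk⟩
  choose oi oj hoff hjump using hch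
  let M : Mdl (Lift1Q T) (Lift1S T l) :=
    { ι := Lift1ι T, ν := Lift1ν T, κ := Lift1κ Bs, on := fun _ => true
      bs := fun s => Lift1π s.out.1.2, kd := fun s => kind s.out.1.1 s.out.1.2
      oi := oi, oj := oj, nx := fun s => Lift1w sub s.out.1.1 (τ s.out.1.1 s.out.1.2) }
  refine ⟨Lift1Q T, Lift1S T l, Fintype.ofFinite _, Fintype.ofFinite _, M, Lift1π, Lift1w sub,
    fun q => (Lift1out q).x, Lift1y Bs, ?_⟩
  refine ⟨Lift1surj, Lift1π_eq, Lift1map_π ι_smul, Lift1map_π ν_smul,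
    fun p hp => Lift1k_base Bs hp, fun β h => Lift1k_non Bs h, fun _ => rfl, ?_,
    fun w hw d hs w' hw' d' hs' => Lift1w_eq sub hw hs hw' hs', ?_, ?_, ?_, ?_, hoff, ?_,
    fun p hp => Lift1y_base Bs hp, Lift1y_pos Bs, Lift1y_k Bs⟩
  · intro s
    refine ⟨_, s.out.2.1, _, s.out.2.2, ?_⟩
    rw [Lift1w_of sub s.out.2.1 s.out.2.2]
    exact Quotient.out_eq s
  · intro w hw d hs
    obtain ⟨g, -, h2⟩ := Lift1w_out sub hw hs
    show Lift1π _ = _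
    rw [h2, Lift1π_smul]
  · intro w hw d hs
    obtain ⟨g, h1, h2⟩ := Lift1w_out sub hw hs
    show Lift1w sub _ (τ _ _) = _
    rw [h1, h2, τ_smul (SS.per hl hw) g hs]
    have h3 := τ_str (SS.per hl hw) hs
    exact ((Lift1w_eq sub hw h3 (SS.ad hw g.2) ((str_smul hw.1 g _).2 h3)).2 ⟨g, rfl, rfl⟩).symm
  · intro w hw d hs
    obtain ⟨g, h1, h2⟩ := Lift1w_out sub hw hs
    show kind _ _ = _
    rw [h1, h2, kind_smul hw.1]
  · intro w hw d hs hk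
    obtain ⟨g, h1, h2⟩ := Lift1w_out sub hw hs
    have hk' : kind ((g : SL(2, ℝ)) • w) (g • d) = 2 := by rw [kind_smul hw.1, hk]
    obtain ⟨p, hp, a1, a2, a3, a4⟩ := hjump (Lift1w sub w d) (by rw [h1, h2, hk'])
    rw [h2] at a3
    rw [h1, h2] at a4
    have hj' : jmp ((g : SL(2, ℝ)) • w) (g • d) = g • jmp w d := by
      rw [← (kind_two ((str_smul hw.1 g d).2 hs) hk').2.2.2, τ_smul (SS.per hl hw) g hs,
        (kind_two hs hk).2.2.2]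
    rw [hj', ι_smul] at a4
    refine ⟨(g⁻¹ • p.1, g⁻¹ • p.2), Bs.inv _ p hp, ?_, ?_, ?_, ?_⟩
    · rw [f_smul]; exact a1
    · rw [f_smul]; exact a2
    · show d = (T.φ ^ oi _) (g⁻¹ • p.1)
      rw [φ_pow_smul, ← a3, inv_smul_smul]
    · show _ = (T.φ ^ oj _) (g⁻¹ • p.2)
      rw [φ_pow_smul, ← a4, inv_smul_smul]
  · intro d
    obtain ⟨g, hg⟩ := Lift1out_π d
    show (Lift1out (Lift1π d)).x = _
    rw [hg, x_smul]

end Tr

end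

end Pool.Agent.P.MP_d39174_gt
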