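import Pool.Agent.P.MP_d39174_gt.LiftDef
import Pool.Agent.P.MP_d39174_gt.Itin2
import Pool.Agent.P.MP_d39174_gt.Frame
import Pool.Agent.P.MP_d39174_gt.BaseL

/-! Dictionary between the triangulation and its quotient. -/

namespace Pool.Agent.P.MP_d39174_gt

open UpperHalfPlane MatrixGroups

noncomputable section

open Finset

namespace Tr.Lift

variable {Γ : Subgroup SL(2, ℝ)} {T : Tr Γ} {l : ℝ} {Bs : T.Base} {m₀ : ℕ} {D S : Type}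
  {M : Mdl D S} {π : T.D → D} {ϖ : V → T.D → S} {x y : D → ℝ} (L : Lift l Bs m₀ M π ϖ x y)

include L

lemma π_smul (g : Γ) (d : T.D) : π (g • d) = π d :=
  ((L.π_eq d _).2 ⟨g, rfl⟩).symm

lemma φ_eq (d : T.D) : M.φ (π d) = π (T.φ d) := by
  simp only [Mdl.φ, Equiv.Perm.mul_apply, L.ν_eq, L.ι_eq, φ_apply]

lemma ψ_eq (d : T.D) : M.ψ (π d) = π (T.ψ d) := by
  simp only [Mdl.ψ, Equiv.Perm.mul_apply, L.ν_eq, L.ι_eq, ψ_apply]

lemma φ_pow (i : ℕ) (d : T.D) : (M.φ ^ i) (π d) = π ((T.φ ^ i) d) := by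
  induction i with
  | zero => rfl
  | succ i ih => rw [pow_succ', pow_succ', Equiv.Perm.mul_apply, ih, L.φ_eq, Equiv.Perm.mul_apply]

lemma lift2_zpow (i : ℤ) (d : T.D) : (M.φ ^ i) (π d) = π ((T.φ ^ i) d) := by
  obtain ⟨n, rfl | rfl⟩ := i.eq_nat_or_neg
  · simpa using L.φ_pow n d
  · rw [zpow_neg, zpow_neg, zpow_natCast, zpow_natCast, Equiv.Perm.inv_eq_iff_eq, L.φ_pow]
    simp

lemma per_eq (d : T.D) : M.per (π d) = d.f := by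
  have h : ∀ i : ℕ, Function.minimalPeriod M.φ (π d) ∣ i ↔ d.f ∣ i := fun i => by
    rw [← Function.isPeriodicPt_iff_minimalPeriod_dvd, ← Int.natCast_dvd_natCast, ← d.f_dvd,
      zpow_natCast, ← L.π_eq, ← L.φ_pow, eq_comm, Equiv.Perm.coe_pow]
    rfl
  exact Nat.dvd_antisymm ((h _).2 dvd_rfl) ((h _).1 dvd_rfl)

lemma Pr_eq (z : D → ℝ) (d : T.D) (i : ℕ) : Pr M.φ z (π d) i = Pr T.φ (z ∘ π) d i :=
  prod_congr rfl fun _ _ => congrArg z (L.φ_pow _ d)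

lemma sg_eq (z : D → ℝ) (d : T.D) : M.sg z (π d) = sig T.φ (z ∘ π) d d.f := by
  simp only [Mdl.sg, sig, L.per_eq, L.Pr_eq]

lemma sg_x (d : T.D) : M.sg x (π d) = d.s := by
  rw [L.sg_eq, s_eq_sig, show x ∘ π = Tr.D.x from funext L.x_eq]

lemma κ_ne_iff (β : T.D) : M.κ (π β) ≠ π β ↔ ∃ β', (β, β') ∈ Bs.S := by
  refine ⟨fun h => by_contra fun h' => h (L.κ_non β fun β' e => h' ⟨β', e⟩), fun ⟨β', h⟩ e => ?_⟩
  obtain ⟨g, hg⟩ := (L.π_eq β β').1 (e.symm.trans (L.κ_base _ h))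
  exact Bs.not_orbit h g hg.symm

lemma κ_κ (d : D) : M.κ (M.κ d) = d := by
  obtain ⟨β, rfl⟩ := L.surj d
  by_cases h : M.κ (π β) = π β
  · rw [h, h]
  · obtain ⟨β', e⟩ := (L.κ_ne_iff β).1 h
    rw [L.κ_base _ e]
    exact L.κ_base _ (Bs.symm _ e)

lemma base_ex (d : D) : ∃ i : ℕ, M.κ ((M.φ ^ i) d) ≠ (M.φ ^ i) d := by
  obtain ⟨e, rfl⟩ := L.surj d
  obtain ⟨p, hp, h⟩ := Bs.ex _ e.a_mem
  obtain ⟨i, hi⟩ := fan h
  obtain ⟨g, hg⟩ := (e.f_dvd (e.f * (i / e.f))).2 (dvd_mul_right _ _)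
  obtain ⟨r, hr⟩ := Int.eq_ofNat_of_zero_le (Int.emod_nonneg i (Nat.cast_ne_zero.2 e.f_pos.ne'))
  rw [← Int.emod_add_mul_ediv i e.f, hr, zpow_add, Equiv.Perm.mul_apply, hg, φ_zpow_smul,
    zpow_natCast] at hi
  refine ⟨r, ?_⟩
  rw [L.φ_pow, ← L.π_smul g, ← hi]
  exact (L.κ_ne_iff _).2 ⟨p.2, hp⟩

lemma base_uniq {β β' : D} (h : M.κ β ≠ β) (h' : M.κ β' ≠ β') (e : M.φ.SameCycle β β') :
    β = β' := by
  obtain ⟨b, rfl⟩ := L.surj β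
  obtain ⟨b', rfl⟩ := L.surj β'
  obtain ⟨c, hc⟩ := (L.κ_ne_iff b).1 h
  obtain ⟨c', hc'⟩ := (L.κ_ne_iff b').1 h'
  obtain ⟨i, hi⟩ := e
  rw [L.lift2_zpow] at hi
  obtain ⟨g, hg⟩ := (L.π_eq _ _).1 hi
  obtain ⟨k, hk⟩ := Bs.uniq _ (Bs.inv g _ hc) _ hc' (by simp only [hg, smul_a, φ_zpow_a])
  rw [show b' = k • g • b from congrArg Prod.fst hk, L.π_smul, L.π_smul]

lemma base_eq {w : V} (hw : w ∈ SS Γ l) {d : T.D} (h : Str w d) {p : T.D × T.D} (hp : p ∈ Bs.S)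
    (e : d = (T.φ ^ M.oi (ϖ w d)) p.1) (e' : T.ι (jmp w d) = (T.φ ^ M.oj (ϖ w d)) p.2) :
    M.base (ϖ w d) = π p.1 ∧ M.κ (M.base (ϖ w d)) = π p.2 ∧
      M.tgt (ϖ w d) = π (T.ι (jmp w d)) := by
  have h1 : M.base (ϖ w d) = π p.1 := by
    rw [Mdl.base, inv_pow, Equiv.Perm.inv_eq_iff_eq, L.φ_pow, ← e, L.bs_eq w hw d h]
  refine ⟨h1, by rw [h1, L.κ_base p hp], ?_⟩
  rw [Mdl.tgt, h1, L.κ_base p hp, L.φ_pow, ← e']

omit L in
lemma lift2_two {k : Fin 3} (h0 : ¬ k = 0) (h1 : ¬ k = 1) : k = 2 := by omega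

lemma step_eq {w : V} (hw : w ∈ SS Γ l) {d : T.D} (h : Str w d) :
    M.step (ϖ w d) = π (τ w d) := by
  rw [Mdl.step, τ, L.kd_eq w hw d h, L.bs_eq w hw d h]
  split_ifs with h0 h1
  · exact L.φ_eq d
  · exact L.ψ_eq d
  · obtain ⟨p, hp, -, -, e, e'⟩ := L.jump w hw d h (lift2_two h0 h1)
    rw [(L.base_eq hw h hp e e').2.2, L.ι_eq, ι_ι]

lemma nx_iter (hl : 0 < l) {w : V} (hw : w ∈ SS Γ l) {d : T.D} (h : Str w d) (m : ℕ) :
    M.nx^[m] (ϖ w d) = ϖ w ((τ w)^[m] d) ∧ Str w ((τ w)^[m] d) := by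
  induction m with
  | zero => exact ⟨rfl, h⟩
  | succ m ih =>
    rw [Function.iterate_succ_apply', Function.iterate_succ_apply', ih.1]
    exact ⟨L.nx_eq w hw _ ih.2, τ_str (SS.per hl hw) ih.2⟩

lemma period (s : Sys Γ l) {w : V} (hw : w ∈ SS Γ l) {d : T.D} (h : Str w d) :
    ϖ w d ∈ Function.periodicPts M.nx ∧
      (τ w)^[Function.minimalPeriod M.nx (ϖ w d)] d = (⟨ex l w, hw.2⟩ : Γ) • d := by
  obtain ⟨p, h0, h1, h2⟩ := itin (s.prim T.nice hw) h (γ := ⟨ex l w, hw.2⟩) (PM.refl _)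
  have h3 : ∀ q, Function.IsPeriodicPt M.nx q (ϖ w d) ↔
      ∃ g : Γ, w = (g : SL(2, ℝ)) • w ∧ (τ w)^[q] d = g • d := fun q => by
    rw [← L.ϖ_eq w hw d h w hw _ (L.nx_iter s.pos hw h q).2, ← (L.nx_iter s.pos hw h q).1, eq_comm]
    rfl
  have h4 := (h3 p).2 ⟨_, (ex_ad_self l w).symm, h1⟩
  refine ⟨⟨p, h0, h4⟩, ?_⟩
  rcases (h4.minimalPeriod_le h0).eq_or_lt with c | c
  · rwa [c]
  · obtain ⟨g, a1, a2⟩ := (h3 _).1 (Function.isPeriodicPt_minimalPeriod _ _)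
    exact absurd a2 (h2 _ (h4.minimalPeriod_pos h0) c g a1.symm)

/-- The step matrices of the quotient along a path of parameters. -/
lemma mat_eq {w : V} (hw : w ∈ SS Γ l) {d : T.D} (h : Str w d) (ξ η : D → ℝ)
    (η' : T.D → T.D → ℝ) (h1 : ∀ p ∈ Bs.S, η' p.1 p.2 = η (π p.1))
    (h4 : ∀ d d', d'.a = -d.a → η' d' d = η' d d')
    (h5 : ∀ d d', d'.a = -d.a → η' (T.φ d) d' = η' d d' + ξ (π (T.φ d))) (t : ℝ) :
    M.mat (pth x ξ t) (pth y η t) (ϖ w d) = smat (pth Tr.D.x (ξ ∘ π) t)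
      (fun e => sig T.φ (pth Tr.D.x (ξ ∘ π) t) e e.f)
      (fun e e' => yy e e' * Real.exp (t * η' e e')) w d := by
  have e0 : pth x ξ t ∘ π = pth Tr.D.x (ξ ∘ π) t := funext fun e => by
    simp only [pth, Function.comp, L.x_eq]
  have h6 : ∀ (i : ℕ) d d', d'.a = -d.a → η' ((T.φ ^ i) d) d' =
      η' d d' + ∑ m ∈ range i, (ξ ∘ π) ((T.φ ^ (m + 1)) d) := fun i d d' e => by
    induction i with
    | zero => simp
    | succ i ih =>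
      rw [sum_range_succ, ← add_assoc, ← ih, pow_succ', Equiv.Perm.mul_apply,
        h5 _ _ (by rwa [φ_pow_a])]
      rfl
  rw [Mdl.mat, smat, L.kd_eq w hw d h, L.bs_eq w hw d h, L.φ_eq, L.ψ_eq, ← e0]
  split_ifs with a0 a1
  · rfl
  · rfl
  obtain ⟨p, hp, -, -, e, e'⟩ := L.jump w hw d h (lift2_two a0 a1)
  obtain ⟨b1, b2, b3⟩ := L.base_eq hw h hp e e'
  have ho := Bs.opp p hp
  rw [Mdl.tw, b2, b1, b3, L.sg_eq, L.sg_eq, L.Pr_eq, L.Pr_eq]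
  congr 1
  generalize M.oi (ϖ w d) = i at e ⊢
  generalize M.oj (ϖ w d) = j at e' ⊢
  rw [e', e0, Pr_pth, Pr_pth, pth, L.y_eq p hp, ← h1 p hp]
  conv_rhs => rw [e]
  rw [yy_pow ho, h6 i _ _ (by rwa [φ_pow_a]), ← h4 p.1 ((T.φ ^ j) p.2) (by rwa [φ_pow_a]),
    h6 j _ _ (by rw [ho, neg_neg]), h4 _ _ ho]
  simp only [mul_add, Real.exp_add]
  ring

lemma mat_eq' {w : V} (hw : w ∈ SS Γ l) {d : T.D} (h : Str w d) :
    M.mat x y (ϖ w d) = smat Tr.D.x Tr.D.s yy w d := by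
  have := L.mat_eq hw h 0 0 (fun _ _ => 0) (fun _ _ => rfl) (fun _ _ _ => rfl)
    (fun _ _ _ => by simp) 0
  simpa only [pth_zero, ← s_eq_sig, mul_zero, Real.exp_zero, mul_one] using this

theorem gen : M.Gen Γ x y := by
  intro d₀
  obtain ⟨e, rfl⟩ := L.surj d₀
  have h1 : ∀ q g, M.Reach x y (π e) q g → ∃ d, π d = q ∧ PM (e.F * g) d.F := fun q g h => by
    induction h with
    | base => exact ⟨e, rfl, by rw [mul_one]; exact PM.refl _⟩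
    | neg _ ih =>
      obtain ⟨d, a1, a2⟩ := ih
      exact ⟨d, a1, by rw [mul_neg]; exact (PM.neg _).symm.trans a2⟩
    | nu _ ih =>
      obtain ⟨d, rfl, a2⟩ := ih
      exact ⟨_, (L.ν_eq d).symm, by rw [← mul_assoc]; exact (a2.mul (PM.refl _)).trans (F_ν d)⟩
    | io _ ih =>
      obtain ⟨d, rfl, a2⟩ := ih
      exact ⟨_, (L.ι_eq d).symm, by
        rw [← mul_assoc, L.x_eq]
        exact (a2.mul (PM.refl _)).trans (F_ι d)⟩
    | ka c _ ih =>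
      obtain ⟨d, rfl, a2⟩ := ih
      obtain ⟨d', hd⟩ := (L.κ_ne_iff d).1 c
      refine ⟨d', (L.κ_base _ hd).symm, ?_⟩
      rw [L.κ_base _ hd, L.y_eq _ hd, L.sg_x, L.sg_x, ← mul_assoc, ← mul_assoc, ← mul_assoc]
      exact (((a2.mul (PM.refl _)).mul (PM.refl _)).mul (PM.refl _)).trans (F_opp (Bs.opp _ hd))
  have h2 : ∀ {q g g' k}, M.Reach x y (π e) q (e.F⁻¹ * g * k) → PM (g * k) g' →
      M.Reach x y (π e) q (e.F⁻¹ * g') := fun h c => by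
    rw [mul_assoc] at h
    rcases c with rfl | rfl
    · exact h
    · rw [mul_neg]
      exact h.neg
  have h3 := Bs.conn (U := {d | M.Reach x y (π e) (π d) (e.F⁻¹ * d.F)})
    (fun d hd => by
      have := Mdl.Reach.io hd
      rw [L.ι_eq, L.x_eq] at this
      exact h2 this (F_ι d))
    (fun d hd => by
      have := Mdl.Reach.nu hd
      rw [L.ν_eq] at this
      exact h2 this (F_ν d))
    (fun p hp hd => by
      have := Mdl.Reach.ka ((L.κ_ne_iff p.1).2 ⟨p.2, hp⟩) hd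
      rw [L.κ_base p hp, L.y_eq p hp, L.sg_x, L.sg_x, mul_assoc e.F⁻¹, mul_assoc e.F⁻¹] at this
      exact h2 this (F_opp (Bs.opp p hp)))
    ⟨e, by
      rw [Set.mem_ofPred_eq, inv_mul_cancel]
      exact Mdl.Reach.base⟩
  refine ⟨e.F, fun g => ⟨fun hg => ?_, fun h => ?_⟩⟩
  · have a1 : M.Reach x y (π e) (π ((⟨g, hg⟩ : Γ) • e)) (e.F⁻¹ * ((⟨g, hg⟩ : Γ) • e).F) :=
      h3.ge (Set.mem_univ _)
    rw [L.π_smul, ← mul_one (_ * _)] at a1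
    rw [mul_assoc]
    exact h2 a1 (by rw [mul_one]; exact (F_smul ⟨g, hg⟩ e).symm)
  · obtain ⟨d, a1, a2⟩ := h1 _ _ h
    obtain ⟨γ, rfl⟩ := (L.π_eq e d).1 a1.symm
    have a3 := ((F_smul γ e).trans a2.symm).mul (PM.refl e.F⁻¹)
    rw [mul_inv_cancel_right, mul_assoc _ g, mul_inv_cancel_left, mul_inv_cancel_right] at a3
    exact a3.mem T.nice.neg_one_mem γ.2


end Tr.Lift

end

end Pool.Agent.P.MP_d39174_gt
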