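import Pool.Agent.P.MP_d39174_gt.ItinDef

/-! The finite type as a quotient of the triangulation. -/

namespace Pool.Agent.P.MP_d39174_gt

open UpperHalfPlane MatrixGroups

noncomputable section

namespace Tr

variable {Γ : Subgroup SL(2, ℝ)} {T : Tr Γ}

/-- `M` is the quotient by `Γ` of the darts and of the stations of systoles. -/
structure Lift (l : ℝ) (Bs : T.Base) (m₀ : ℕ) {D S : Type} (M : Mdl D S) (π : T.D → D)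
    (ϖ : V → T.D → S) (x y : D → ℝ) : Prop where
  surj : Function.Surjective π
  π_eq : ∀ d e, π d = π e ↔ ∃ g : Γ, e = g • d
  ι_eq : ∀ d, M.ι (π d) = π (T.ι d)
  ν_eq : ∀ d, M.ν (π d) = π (T.ν d)
  κ_base : ∀ p ∈ Bs.S, M.κ (π p.1) = π p.2
  κ_non : ∀ β, (∀ β', (β, β') ∉ Bs.S) → M.κ (π β) = π β
  on_all : ∀ s, M.on s = true
  ϖ_surj : ∀ s, ∃ w ∈ SS Γ l, ∃ d, Str w d ∧ ϖ w d = s
  ϖ_eq : ∀ w ∈ SS Γ l, ∀ d, Str w d → ∀ w' ∈ SS Γ l, ∀ d', Str w' d' →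
    (ϖ w d = ϖ w' d' ↔ ∃ g : Γ, w' = (g : SL(2, ℝ)) • w ∧ d' = g • d)
  bs_eq : ∀ w ∈ SS Γ l, ∀ d, Str w d → M.bs (ϖ w d) = π d
  nx_eq : ∀ w ∈ SS Γ l, ∀ d, Str w d → M.nx (ϖ w d) = ϖ w (τ w d)
  kd_eq : ∀ w ∈ SS Γ l, ∀ d, Str w d → M.kd (ϖ w d) = kind w d
  jump : ∀ w ∈ SS Γ l, ∀ d, Str w d → kind w d = 2 → ∃ p ∈ Bs.S,
    M.oi (ϖ w d) < p.1.f ∧ M.oj (ϖ w d) ≤ m₀ * p.2.f ∧ d = (T.φ ^ M.oi (ϖ w d)) p.1 ∧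
      T.ι (jmp w d) = (T.φ ^ M.oj (ϖ w d)) p.2
  off : ∀ s, M.kd s ≠ 2 → M.oi s = 0 ∧ M.oj s = 0
  x_eq : ∀ d, x (π d) = d.x
  y_eq : ∀ p ∈ Bs.S, y (π p.1) = yy p.1 p.2
  y_pos : ∀ d, 0 < y d
  y_κ : ∀ d, y (M.κ d) = y d

end Tr

end

end Pool.Agent.P.MP_d39174_gt
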