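import Pool.Agent.P.MP_d39174_gt.Map1

/-! Existence of a filling system with one complementary polygon. -/

namespace Pool.Agent.P.MP_d39174_gt

open UpperHalfPlane MatrixGroups

noncomputable section

open Equiv

namespace St

variable {Vx : Type} [Finite Vx] {G : SimpleGraph Vx} {s : St G} {D : Set G.Dart}

/-- Removal of one dart from a set of darts at the curve `v`. -/
lemma Map2_peel {v : Vx} {R : Finset G.Dart} (full : ∀ v, ∃ c ∈ D, c.fst = v)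
    (hv : ∀ a ∈ R, a.fst = v) (hD : ∀ a ∈ R, a ∉ D) {k : ℕ} (hk : R.card = k + 1) :
    ∃ a : G.Dart, a.fst = v ∧ a ∉ D ∧ (∀ v, ∃ c ∈ D ∪ {a, a.symm}, c.fst = v) ∧
      ∃ R' : Finset G.Dart, (∀ c ∈ R', c.fst = v) ∧ (∀ c ∈ R', c ∉ D ∪ {a, a.symm}) ∧
        R'.card = k ∧ D ∪ {a, a.symm} ∪ {c | c ∈ R' ∨ c.symm ∈ R'} =
          D ∪ {c | c ∈ R ∨ c.symm ∈ R} := by
  classical
  obtain ⟨a, ha⟩ : R.Nonempty := Finset.card_pos.1 (by omega)
  refine ⟨a, hv a ha, hD a ha, fun w => ?_, R.erase a, fun c hc => hv c (Finset.mem_of_mem_erase hc),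
    fun c hc => ?_, ?_, ?_⟩
  · obtain ⟨c, hc, e⟩ := full w
    exact ⟨c, Or.inl hc, e⟩
  · obtain ⟨h1, h2⟩ := Finset.mem_erase.1 hc
    rintro (h | h | h)
    · exact hD c h2 h
    · exact h1 h
    · have h' : c = a.symm := h
      have e1 := hv c h2
      have e2 := hv a ha
      rw [h'] at e1
      exact a.snd_ne_fst (e1.trans e2.symm)
  · rw [Finset.card_erase_of_mem ha]; omega
  · ext c
    simp only [Set.mem_union, Set.mem_insert_iff, Set.mem_singleton_iff, Set.mem_ofPred_eq,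
      Finset.mem_erase]
    constructor
    · rintro ((h | h | h) | h | h)
      · exact Or.inl h
      · exact Or.inr (Or.inl (h ▸ ha))
      · exact Or.inr (Or.inr (by rw [h, SimpleGraph.Dart.symm_symm]; exact ha))
      · exact Or.inr (Or.inl h.2)
      · exact Or.inr (Or.inr h.2)
    · rintro (h | h | h)
      · exact Or.inl (Or.inl h)
      · by_cases e : c = a
        · exact Or.inl (Or.inr (Or.inl e))
        · exact Or.inr (Or.inl ⟨e, h⟩)
      · by_cases e : c.symm = a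
        · exact Or.inl (Or.inr (Or.inr (by rw [← e, SimpleGraph.Dart.symm_symm])))
        · exact Or.inr (Or.inr ⟨e, h⟩)

lemma Map2_Q2 {v : Vx} (k : ℕ) : ∀ {s : St G} {D : Set G.Dart} {R : Finset G.Dart},
    s.Q2 D v → (∀ v, ∃ c ∈ D, c.fst = v) → (∀ a ∈ R, a.fst = v) → (∀ a ∈ R, a ∉ D) →
    R.card = 2 * k + 3 → ∃ t : St G, t.P1 (D ∪ {c | c ∈ R ∨ c.symm ∈ R}) := by
  have key : ∀ (j : ℕ) {s : St G} {D : Set G.Dart} {R : Finset G.Dart},
      s.Q2 D v → (∀ v, ∃ c ∈ D, c.fst = v) → (∀ a ∈ R, a.fst = v) → (∀ a ∈ R, a ∉ D) →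
      R.card = j + 2 → ∃ (t : St G) (D' : Set G.Dart) (R' : Finset G.Dart), t.P2 D' v ∧
        (∀ v, ∃ c ∈ D', c.fst = v) ∧ (∀ a ∈ R', a.fst = v) ∧ (∀ a ∈ R', a ∉ D') ∧
        R'.card = j ∧ D' ∪ {c | c ∈ R' ∨ c.symm ∈ R'} = D ∪ {c | c ∈ R ∨ c.symm ∈ R} := by
    intro j s D R h full hv hD hk
    obtain ⟨a, rfl, a2, full1, R1, hv1, hD1, hk1, e1⟩ := Map2_peel (k := j + 1) full hv hD hk
    obtain ⟨t1, h1⟩ := Q2.step h full a2
    obtain ⟨b, b1, b2, full2, R2, hv2, hD2, hk2, e2⟩ := Map2_peel full1 hv1 hD1 hk1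
    rw [← b1] at h1
    obtain ⟨t2, h2⟩ := Mid.step h1 full1 b2
    rw [b1] at h2
    exact ⟨t2, _, R2, h2, full2, hv2, hD2, hk2, e2.trans e1⟩
  induction k with
  | zero =>
    intro s D R h full hv hD hk
    obtain ⟨t, D', R', h1, full1, hv1, hD1, hk1, e1⟩ := key 1 h full hv hD hk
    obtain ⟨a, rfl, a2, -, R2, -, -, hk2, e2⟩ := Map2_peel (k := 0) full1 hv1 hD1 hk1
    obtain ⟨t2, h2⟩ := P2.step h1 full1 a2
    rw [Finset.card_eq_zero] at hk2
    refine ⟨t2, ?_⟩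
    rw [← e1, ← e2, hk2]
    simpa using h2
  | succ k ih =>
    intro s D R h full hv hD hk
    obtain ⟨t, D', R', h1, full1, hv1, hD1, hk1, e1⟩ := key (2 * k + 3) h full hv hD (by omega)
    rw [← e1]
    exact ih h1.1 full1 hv1 hD1 hk1

/-- An even number, at least four, of crossings on one curve. -/
theorem P1.group (h : s.P1 D) (full : ∀ v, ∃ c ∈ D, c.fst = v) {v : Vx} {R : Finset G.Dart}
    (hv : ∀ a ∈ R, a.fst = v) (hD : ∀ a ∈ R, a ∉ D) (ev : Even R.card) (h4 : 4 ≤ R.card) :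
    ∃ t : St G, t.P1 (D ∪ {a | a ∈ R ∨ a.symm ∈ R}) := by
  obtain ⟨m, hm⟩ := ev
  obtain ⟨a, rfl, a2, full1, R1, hv1, hD1, hk1, e1⟩ :=
    Map2_peel (k := 2 * (m - 2) + 3) full hv hD (by omega)
  obtain ⟨t1, h1⟩ := P1.step h full a2
  rw [← e1]
  exact Map2_Q2 _ h1 full1 hv1 hD1 hk1

lemma Map2_ρρ (s : St G) (a : G.Dart) (b : Bool) : s.ρ (s.ρ (a, b)) = (a, !b) := by
  rw [ρ_apply, ρ_apply, s.flip, SimpleGraph.Dart.symm_symm]
  cases b <;> cases s.sg a <;> rfl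

lemma Map2_true (s : St G) (a : G.Dart) (n : ℕ) :
    ((s.ρ * s.ρ * s.α) ^ n) (a, true) = ((s.π ^ n) a, true) := by
  induction n with
  | zero => rfl
  | succ n ih =>
    rw [pow_succ', pow_succ', Perm.mul_apply, ih, Perm.mul_apply, Perm.mul_apply, α_true,
      Map2_ρρ]
    rfl

lemma Map2_false (s : St G) (a : G.Dart) (n : ℕ) :
    ((s.ρ * s.ρ * s.α) ^ n) (a, false) = ((s.π⁻¹ ^ n) a, false) := by
  induction n with
  | zero => rfl
  | succ n ih =>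
    rw [pow_succ', pow_succ', Perm.mul_apply, ih, Perm.mul_apply, Perm.mul_apply, α_false,
      Map2_ρρ]
    rfl

lemma Map2_same (s : St G) (a a' : G.Dart) (b b' : Bool) :
    (s.ρ * s.ρ * s.α).SameCycle (a, b) (a', b') ↔ b = b' ∧ s.π.SameCycle a a' := by
  have : Finite G.Dart := Finite.of_injective _ SimpleGraph.Dart.toProd_injective
  constructor
  · intro h
    obtain ⟨n, hn⟩ := h.exists_nat_pow_eq
    cases b
    · rw [Map2_false] at hn
      obtain ⟨h1, h2⟩ := Prod.mk.inj hn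
      exact ⟨h2, Perm.sameCycle_inv.1 ⟨n, by rw [zpow_natCast]; exact h1⟩⟩
    · rw [Map2_true] at hn
      obtain ⟨h1, h2⟩ := Prod.mk.inj hn
      exact ⟨h2, ⟨n, by rw [zpow_natCast]; exact h1⟩⟩
  · rintro ⟨rfl, h⟩
    cases b
    · obtain ⟨n, hn⟩ := (Perm.sameCycle_inv.2 h).exists_nat_pow_eq
      exact ⟨n, by rw [zpow_natCast, Map2_false, hn]⟩
    · obtain ⟨n, hn⟩ := h.exists_nat_pow_eq
      exact ⟨n, by rw [zpow_natCast, Map2_true, hn]⟩

lemma Map2_fst (s : St G) {a a' : G.Dart} (h : s.π.SameCycle a a') : a'.fst = a.fst := by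
  have : Finite G.Dart := Finite.of_injective _ SimpleGraph.Dart.toProd_injective
  obtain ⟨n, rfl⟩ := h.exists_nat_pow_eq
  induction n with
  | zero => rfl
  | succ n ih =>
    rw [pow_succ', Perm.mul_apply, s.fst]
    exact ih ⟨n, by rw [zpow_natCast]⟩

lemma Map2_inv_fst (s : St G) (a : G.Dart) : (s.π⁻¹ a).fst = a.fst := by
  rw [← s.fst (s.π⁻¹ a)]
  simp

theorem P1.cmb (h : s.P1 Set.univ) (full : ∀ v, ∃ c : G.Dart, c.fst = v) :
    Nonempty (Cmb G (G.Dart × Bool)) := by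
  have cyc : ∀ a b : G.Dart, a.fst = b.fst → s.π.SameCycle a b := fun a b e =>
    h.1.cyc a trivial b trivial e
  refine ⟨⟨s.α, s.ρ, fun x => x.1.fst, ?_, ?_, ?_, ?_, ?_, ?_, ?_, ?_, ?_, ?_, ?_⟩⟩
  · exact fun x => s.α.left_inv x
  · rintro ⟨a, b⟩
    rw [Map2_ρρ, Map2_ρρ, Bool.not_not]
  · rintro ⟨a, _ | _⟩
    · exact Map2_inv_fst s a
    · exact s.fst a
  · rintro ⟨a, b⟩
    rw [Map2_ρρ]
  · rintro ⟨a, b⟩
    exact a.adj
  · exact fun x y => h.2 x trivial y trivial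
  · rintro ⟨a, b⟩ ⟨a', b'⟩ e
    have e' : a.fst = a'.fst := e
    cases b <;> cases b'
    · exact Or.inl ((Map2_same s _ _ _ _).2 ⟨rfl, cyc _ _ e'⟩)
    · exact Or.inr ((Map2_same s _ _ _ _).2 ⟨rfl, cyc _ _ ((Map2_inv_fst s a).trans e')⟩)
    · exact Or.inr ((Map2_same s _ _ _ _).2 ⟨rfl, cyc _ _ ((s.fst a).trans e')⟩)
    · exact Or.inl ((Map2_same s _ _ _ _).2 ⟨rfl, cyc _ _ e'⟩)
  · rintro ⟨a, _ | _⟩ hh
    · rw [α_false] at hh
      exact Bool.false_ne_true ((Map2_same s _ _ _ _).1 hh).1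
    · rw [α_true] at hh
      exact Bool.false_ne_true ((Map2_same s _ _ _ _).1 hh).1.symm
  · rintro ⟨a, b⟩ ⟨a', b'⟩ hh e
    obtain ⟨rfl, h2⟩ := (Map2_same s _ _ _ _).1 hh
    have e1 : a'.snd = a.snd := e
    have e2 := Map2_fst s h2
    rw [SimpleGraph.Dart.ext a' a (Prod.ext e2 e1)]
  · rintro ⟨a, b⟩ w hw
    exact ⟨(⟨(a.fst, w), hw⟩, b), (Map2_same s _ _ _ _).2 ⟨rfl, cyc _ _ rfl⟩, rfl⟩
  · intro v
    obtain ⟨c, hc⟩ := full v
    exact ⟨(c, true), hc⟩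

end St

/-- The darts, in both directions, of the edges from `(u, false)` to `(w, true)` with `p u w`. -/
def Map2_S {n : ℕ} (G : SimpleGraph (Fin n × Bool)) (p : ℕ → ℕ → Prop) : Set G.Dart :=
  {c | (c.fst.2 = false ∧ p c.fst.1.val c.snd.1.val) ∨
    (c.snd.2 = false ∧ p c.snd.1.val c.fst.1.val)}

lemma Map2_path {n : ℕ} (G : SimpleGraph (Fin n × Bool))
    (bip : ∀ v w, G.Adj v w → v.2 ≠ w.2) (m0 : ∀ u, G.Adj (u, false) (u, true))
    (m1 : ∀ u w : Fin n, w.val = u.val + 1 → G.Adj (u, false) (w, true)) (i : ℕ) (hi : i < n) :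
    ∃ s : St G, s.P1 (Map2_S G fun u w => (w = u ∨ w = u + 1) ∧ w ≤ i) := by
  induction i with
  | zero =>
    obtain ⟨s, hs⟩ := St.exists_torus (G := G) ⟨((⟨0, hi⟩, false), (⟨0, hi⟩, true)), m0 _⟩
    refine ⟨s, ?_⟩
    convert hs using 1
    ext ⟨⟨⟨u, b⟩, ⟨w, b'⟩⟩, hc⟩
    have hb := bip _ _ hc
    cases b <;> cases b' <;>
      simp [Map2_S, SimpleGraph.Dart.ext_iff, Fin.ext_iff] at hb ⊢ <;> omega
  | succ i ih =>
    have hi' : i < n := by omega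
    obtain ⟨s, hs⟩ := ih hi'
    obtain ⟨s', hs'⟩ := St.P1.grow hs
      (t := ⟨((⟨i + 1, hi⟩, false), (⟨i + 1, hi⟩, true)), m0 _⟩)
      (a := ⟨((⟨i, hi'⟩, false), (⟨i + 1, hi⟩, true)), m1 _ _ rfl⟩) (by
        rintro ⟨⟨⟨u, b⟩, ⟨w, b'⟩⟩, hc⟩ hD
        simp only [Map2_S, Set.mem_ofPred_eq] at hD
        simp only [ne_eq, Prod.mk.injEq, Fin.ext_iff]
        omega)
      ⟨⟨((⟨i, hi'⟩, false), (⟨i, hi'⟩, true)), m0 _⟩, Or.inl ⟨rfl, Or.inl rfl, le_rfl⟩, rfl⟩ rfl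
    refine ⟨s', ?_⟩
    convert hs' using 1
    ext ⟨⟨⟨u, b⟩, ⟨w, b'⟩⟩, hc⟩
    have hb := bip _ _ hc
    cases b <;> cases b' <;>
      simp [Map2_S, SimpleGraph.Dart.ext_iff, Fin.ext_iff] at hb ⊢ <;> omega

/-- Bipartite graphs that contain the standard Hamiltonian path. -/
theorem exists_cmb {n : ℕ} (hn : 0 < n) (G : SimpleGraph (Fin n × Bool)) [DecidableRel G.Adj]
    (bip : ∀ v w, G.Adj v w → v.2 ≠ w.2) (m0 : ∀ u, G.Adj (u, false) (u, true))
    (m1 : ∀ u w : Fin n, w.val = u.val + 1 → G.Adj (u, false) (w, true))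
    (deg : ∀ u : Fin n,
      Even (Finset.univ.filter fun w : Fin n =>
        G.Adj (u, false) (w, true) ∧ w ≠ u ∧ w.val ≠ u.val + 1).card ∧
      4 ≤ (Finset.univ.filter fun w : Fin n =>
        G.Adj (u, false) (w, true) ∧ w ≠ u ∧ w.val ≠ u.val + 1).card) :
    Nonempty (Cmb G (G.Dart × Bool)) := by
  classical
  have full : ∀ (p : ℕ → ℕ → Prop), (∀ u, u < n → p u u) → ∀ v, ∃ c ∈ Map2_S G p, c.fst = v := by
    rintro p hp ⟨u, _ | _⟩
    · exact ⟨⟨((u, false), (u, true)), m0 u⟩, Or.inl ⟨rfl, hp _ u.2⟩, rfl⟩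
    · exact ⟨⟨((u, true), (u, false)), (m0 u).symm⟩, Or.inr ⟨rfl, hp _ u.2⟩, rfl⟩
  have key : ∀ j, j ≤ n → ∃ s : St G,
      s.P1 (Map2_S G fun u w => (w = u ∨ w = u + 1) ∨ u < j) := by
    intro j
    induction j with
    | zero =>
      intro _
      obtain ⟨s, hs⟩ := Map2_path G bip m0 m1 (n - 1) (by omega)
      refine ⟨s, ?_⟩
      convert hs using 1
      ext ⟨⟨⟨u, b⟩, ⟨w, b'⟩⟩, hc⟩
      have h1 := u.2
      have h2 := w.2
      simp only [Map2_S, Set.mem_ofPred_eq]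
      cases b <;> cases b' <;> simp <;> omega
    | succ j ih =>
      intro hj
      have hj' : j < n := hj
      obtain ⟨s, hs⟩ := ih hj'.le
      obtain ⟨d1, d2⟩ := deg ⟨j, hj'⟩
      have hc : (Finset.univ.filter fun c : G.Dart => c.fst = (⟨j, hj'⟩, false) ∧
          c.snd.1 ≠ ⟨j, hj'⟩ ∧ c.snd.1.val ≠ j + 1).card =
          (Finset.univ.filter fun w : Fin n => G.Adj (⟨j, hj'⟩, false) (w, true) ∧
            w ≠ ⟨j, hj'⟩ ∧ w.val ≠ (⟨j, hj'⟩ : Fin n).val + 1).card := by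
        refine Finset.card_bij (fun c _ => c.snd.1) ?_ ?_ ?_
        · rintro ⟨⟨⟨u, b⟩, ⟨w, b'⟩⟩, hc⟩ hm
          have hb := bip _ _ hc
          simp only [Finset.mem_filter, Finset.mem_univ, true_and, Prod.mk.injEq] at hm ⊢
          obtain ⟨⟨rfl, rfl⟩, h1, h2⟩ := hm
          cases b'
          · exact absurd rfl hb
          · exact ⟨hc, h1, h2⟩
        · rintro ⟨⟨⟨u, b⟩, ⟨w, b'⟩⟩, hc⟩ hm ⟨⟨⟨u1, b1⟩, ⟨w1, b1'⟩⟩, hc1⟩ hm1 e
          have hb := bip _ _ hc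
          have hb1 := bip _ _ hc1
          simp only [Finset.mem_filter, Finset.mem_univ, true_and, Prod.mk.injEq] at hm hm1 e
          obtain ⟨⟨rfl, rfl⟩, -⟩ := hm
          obtain ⟨⟨rfl, rfl⟩, -⟩ := hm1
          subst e
          cases b' <;> cases b1' <;> simp_all
        · intro w hw
          simp only [Finset.mem_filter, Finset.mem_univ, true_and] at hw
          exact ⟨⟨((⟨j, hj'⟩, false), (w, true)), hw.1⟩,
            Finset.mem_filter.2 ⟨Finset.mem_univ _, rfl, hw.2.1, hw.2.2⟩, rfl⟩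
      rw [← hc] at d1 d2
      obtain ⟨t, ht⟩ := St.P1.group hs (full _ fun u _ => Or.inl (Or.inl rfl))
        (v := (⟨j, hj'⟩, false)) (fun a ha => (Finset.mem_filter.1 ha).2.1) (by
          rintro ⟨⟨⟨u, b⟩, ⟨w, b'⟩⟩, hc⟩ hm hD
          have hb := bip _ _ hc
          simp only [Finset.mem_filter, Finset.mem_univ, true_and, Prod.mk.injEq, ne_eq,
            Fin.ext_iff] at hm
          simp only [Map2_S, Set.mem_ofPred_eq] at hD
          obtain ⟨⟨h0, rfl⟩, h1, h2⟩ := hm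
          cases b'
          · exact absurd rfl hb
          · simp only [true_and, Bool.true_eq_false, false_and, or_false] at hD
            omega) d1 d2
      refine ⟨t, ?_⟩
      convert ht using 1
      ext ⟨⟨⟨u, b⟩, ⟨w, b'⟩⟩, hc⟩
      have hb := bip _ _ hc
      cases b <;> cases b' <;>
        simp [Map2_S, Fin.ext_iff] at hb ⊢ <;> omega
  obtain ⟨s, hs⟩ := key n le_rfl
  have e : (Map2_S G fun u w => (w = u ∨ w = u + 1) ∨ u < n) = Set.univ := by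
    refine Set.eq_univ_of_forall ?_
    rintro ⟨⟨⟨u, b⟩, ⟨w, b'⟩⟩, hc⟩
    have hb := bip _ _ hc
    cases b
    · exact Or.inl ⟨rfl, Or.inr u.2⟩
    · cases b'
      · exact Or.inr ⟨rfl, Or.inr w.2⟩
      · exact absurd rfl hb
  rw [e] at hs
  refine St.P1.cmb hs fun v => ?_
  obtain ⟨c, -, hc⟩ := full (fun _ _ => True) (fun _ _ => trivial) v
  exact ⟨c, hc⟩

end

end Pool.Agent.P.MP_d39174_gt
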