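import Pool.Agent.P.MP_d39174_gt.Defs

/-! Numerical estimates. -/

namespace Pool.Agent.P.MP_d39174_gt

open UpperHalfPlane MatrixGroups

noncomputable section

open Filter Topology

private theorem pow_self_le (n : ℕ) : n ^ n ≤ 3 ^ n * n.factorial := by
  have h1 := Real.pow_div_factorial_le_exp (n : ℝ) (Nat.cast_nonneg n) n
  have h2 : Real.exp n ≤ 3 ^ n := by
    rw [← Real.exp_one_pow]
    exact pow_le_pow_left₀ (Real.exp_pos 1).le
      (Real.exp_one_lt_d9.le.trans (by norm_num)) n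
  have h3 : (0 : ℝ) < n.factorial := by exact_mod_cast n.factorial_pos
  rw [div_le_iff₀ h3] at h1
  have h4 : (n : ℝ) ^ n ≤ 3 ^ n * n.factorial := h1.trans (mul_le_mul_of_nonneg_right h2 h3.le)
  exact_mod_cast h4

private theorem two_mul_fac_le (n : ℕ) : (2 * n).factorial ≤ 4 ^ n * n.factorial ^ 2 := by
  have h1 := Nat.choose_mul_factorial_mul_factorial (show n ≤ 2 * n by omega)
  rw [show 2 * n - n = n by omega] at h1
  have h2 := Nat.choose_le_two_pow (2 * n) n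
  rw [pow_mul] at h2
  rw [← h1, mul_assoc, ← sq]
  exact Nat.mul_le_mul_right _ h2

theorem num_lower (q m c : ℕ) (hq : 1 ≤ q) (hm : 5 * q ≤ m) : ∃ K g₀ : ℕ, ∀ g n J : ℕ, g₀ ≤ g →
    g + J = n * m → J < m →
    (g + 1) ^ (2 * g - g / q) * (3 * ((2 * m - 2) * n * n + 1) ^ (2 * c) *
      ((2 * n).factorial * ((2 * m) ^ ((2 * m - 2) * n) * (n + 1) ^ (2 * J)))) ≤
      K ^ g * n.factorial ^ (2 * m - 2) := by
  obtain ⟨r, rfl⟩ : ∃ r, m = r + 2 := ⟨m - 2, by omega⟩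
  have e1 : 2 * (r + 2) - 2 = 2 * r + 2 := by omega
  rw [e1]
  set m := r + 2 with hmr
  refine ⟨(2 * m * 3) ^ (2 * r) * (3 * (8 * m) ^ (2 * c) *
    (4 * ((2 * m) ^ (2 * r + 2) * 2 ^ (2 * m)))), 5 * m, fun g n J hg hJ hJm => ?_⟩
  have hm0 : 0 < m := by omega
  have hn : 5 ≤ n := Nat.le_of_mul_le_mul_right (by omega) hm0
  obtain ⟨k, rfl⟩ : ∃ k, n = k + 1 := ⟨n - 1, by omega⟩
  set n := k + 1 with hnk
  have h1 : k * m < g := by
    have : n * m = k * m + m := by rw [hnk]; ring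
    omega
  have h2 : k * (5 * q) ≤ k * m := Nat.mul_le_mul_left _ hm
  have h3 : 5 * k ≤ g / q := (Nat.le_div_iff_mul_le (by omega)).2 (by nlinarith)
  have h4 : 2 * g - g / q ≤ n * (2 * r) := by
    have : n * m = n * r + 2 * n := by rw [hmr]; ring
    have : n * (2 * r) = 2 * (n * r) := by ring
    omega
  have h5 : n ≤ g := by nlinarith
  have h6 : g + 1 ≤ 2 * m * n := by nlinarith
  have h7 : (g + 1) ^ (2 * g - g / q) ≤ ((2 * m * 3) ^ (2 * r)) ^ n * n.factorial ^ (2 * r) := by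
    calc (g + 1) ^ (2 * g - g / q) ≤ (g + 1) ^ (n * (2 * r)) := Nat.pow_le_pow_right (by omega) h4
      _ ≤ (2 * m * n) ^ (n * (2 * r)) := Nat.pow_le_pow_left h6 _
      _ = ((2 * m) ^ n * n ^ n) ^ (2 * r) := by rw [pow_mul, mul_pow]
      _ ≤ ((2 * m) ^ n * (3 ^ n * n.factorial)) ^ (2 * r) :=
        Nat.pow_le_pow_left (Nat.mul_le_mul_left _ (pow_self_le n)) _
      _ = _ := by rw [← mul_assoc, ← mul_pow, mul_pow _ n.factorial, pow_right_comm]
  have h8 : n + 1 ≤ 2 ^ n := Nat.lt_two_pow_self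
  have h9 : (2 * r + 2) * n * n + 1 ≤ (8 * m) ^ n := by
    have k1 : 2 * m ≤ (2 * m) ^ n := Nat.le_self_pow (by omega) _
    calc (2 * r + 2) * n * n + 1 ≤ 2 * m * ((n + 1) * (n + 1)) := by rw [hmr]; nlinarith
      _ ≤ (2 * m) ^ n * (2 ^ n * 2 ^ n) := Nat.mul_le_mul k1 (Nat.mul_le_mul h8 h8)
      _ = (8 * m) ^ n := by rw [← mul_pow, ← mul_pow]; congr 1; ring
  have h10 : ((2 * r + 2) * n * n + 1) ^ (2 * c) ≤ ((8 * m) ^ (2 * c)) ^ n := by
    rw [pow_right_comm]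
    exact Nat.pow_le_pow_left h9 _
  have h11 : (n + 1) ^ (2 * J) ≤ (2 ^ (2 * m)) ^ n := by
    rw [pow_right_comm]
    exact (Nat.pow_le_pow_right (by omega) (by omega)).trans (Nat.pow_le_pow_left h8 _)
  have h12 : 3 ≤ 3 ^ n := Nat.le_self_pow (by omega) _
  calc _ ≤ ((2 * m * 3) ^ (2 * r)) ^ n * n.factorial ^ (2 * r) *
        (3 ^ n * ((8 * m) ^ (2 * c)) ^ n * (4 ^ n * n.factorial ^ 2 *
          (((2 * m) ^ (2 * r + 2)) ^ n * (2 ^ (2 * m)) ^ n))) :=
        Nat.mul_le_mul h7 (Nat.mul_le_mul (Nat.mul_le_mul h12 h10) (Nat.mul_le_mul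
          (two_mul_fac_le n) (Nat.mul_le_mul (pow_mul _ _ _).le h11)))
    _ = ((2 * m * 3) ^ (2 * r) * (3 * (8 * m) ^ (2 * c) *
        (4 * ((2 * m) ^ (2 * r + 2) * 2 ^ (2 * m))))) ^ n * n.factorial ^ (2 * r + 2) := by
      generalize (2 * m * 3) ^ (2 * r) = x
      generalize (8 * m) ^ (2 * c) = y
      generalize (2 * m) ^ (2 * r + 2) = z
      generalize 2 ^ (2 * m) = w
      rw [pow_add n.factorial]
      generalize n.factorial ^ (2 * r) = u
      generalize n.factorial ^ 2 = v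
      simp only [mul_pow]
      ac_rfl
    _ ≤ _ := Nat.mul_le_mul_right _ (Nat.pow_le_pow_right (by positivity) h5)

theorem num_ratio (q K K' : ℕ) (hq : 1 ≤ q) {a b : ℕ → ℕ} {g₀ : ℕ}
    (ha : ∀ g, a g ≤ K ^ (g + 1) * (g + 1) ^ (2 * g - g / q))
    (hb : ∀ g, g₀ ≤ g → (g + 1) ^ (2 * g - g / (2 * q)) ≤ K' ^ g * b g) :
    Tendsto (fun g => (a g : ℝ) / b g) atTop (𝓝 0) := by
  set M := ((K + 1) * (K' + 1)) ^ (2 * q) with hM
  have hM0 : 0 < M := by positivity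
  have key : ∀ g, g₀ ≤ g → M ≤ g → 2 * q ≤ g → a g * (g + 1) ≤ M ^ 2 * b g := by
    intro g h0 h1 h2
    have h3 : 1 ≤ g / (2 * q) := (Nat.le_div_iff_mul_le (by omega)).2 (by omega)
    obtain ⟨d, hd⟩ : ∃ d, g / (2 * q) = d + 1 := ⟨g / (2 * q) - 1, by omega⟩
    have h4 : (d + 1) * (2 * q) ≤ g := hd ▸ Nat.div_mul_le_self g (2 * q)
    have h5 : 2 * (d + 1) ≤ g / q := (Nat.le_div_iff_mul_le (by omega)).2 (by nlinarith)
    have h6 : g < (d + 1 + 1) * (2 * q) := by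
      rw [← hd]
      exact (Nat.div_lt_iff_lt_mul (by omega)).1 (Nat.lt_succ_self _)
    have h7 : g / q ≤ g := Nat.div_le_self g q
    have h8 := hb g h0
    rw [hd] at h8
    have h9 : K ^ (g + 1) * K' ^ g ≤ M ^ (d + 2) := by
      calc K ^ (g + 1) * K' ^ g ≤ (K + 1) ^ (g + 1) * (K' + 1) ^ (g + 1) :=
            Nat.mul_le_mul (Nat.pow_le_pow_left (Nat.le_succ K) _)
              ((Nat.pow_le_pow_left (Nat.le_succ K') _).trans
                (Nat.pow_le_pow_right (by omega) (by omega)))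
        _ = ((K + 1) * (K' + 1)) ^ (g + 1) := (mul_pow _ _ _).symm
        _ ≤ ((K + 1) * (K' + 1)) ^ (2 * q * (d + 2)) :=
            Nat.pow_le_pow_right (by positivity) (by nlinarith)
        _ = M ^ (d + 2) := pow_mul _ _ _
    refine Nat.le_of_mul_le_mul_right ?_ (pow_pos hM0 d)
    calc a g * (g + 1) * M ^ d
        ≤ K ^ (g + 1) * (g + 1) ^ (2 * g - g / q) * (g + 1) * (g + 1) ^ d :=
          Nat.mul_le_mul (Nat.mul_le_mul_right _ (ha g)) (Nat.pow_le_pow_left (by omega) _)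
      _ = K ^ (g + 1) * (g + 1) ^ (2 * g - g / q + 1 + d) := by
          rw [pow_add (g + 1), pow_succ (g + 1)]
          ac_rfl
      _ ≤ K ^ (g + 1) * (g + 1) ^ (2 * g - (d + 1)) :=
          Nat.mul_le_mul_left _ (Nat.pow_le_pow_right (by omega) (by omega))
      _ ≤ K ^ (g + 1) * (K' ^ g * b g) := Nat.mul_le_mul_left _ h8
      _ ≤ M ^ (d + 2) * b g := by
          rw [← mul_assoc]
          exact Nat.mul_le_mul_right _ h9
      _ = M ^ 2 * b g * M ^ d := by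
          rw [pow_add]
          ac_rfl
  have lim := (tendsto_one_div_add_atTop_nhds_zero_nat (𝕜 := ℝ)).const_mul ((M : ℝ) ^ 2)
  rw [mul_zero] at lim
  refine squeeze_zero' (Eventually.of_forall fun g => by positivity) ?_ lim
  filter_upwards [eventually_ge_atTop g₀, eventually_ge_atTop M, eventually_ge_atTop (2 * q)]
    with g h0 h1 h2
  have h3 : (a g : ℝ) * (g + 1) ≤ M ^ 2 * b g := by exact_mod_cast key g h0 h1 h2
  refine div_le_of_le_mul₀ (Nat.cast_nonneg _) (by positivity) ?_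
  rw [mul_one_div, div_mul_eq_mul_div, le_div_iff₀ (by positivity)]
  exact h3

end

end Pool.Agent.P.MP_d39174_gt
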