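import Pool.Agent.P.MP_d39174_gt.RandDef

/-! Random permutations expand. -/

namespace Pool.Agent.P.MP_d39174_gt

open UpperHalfPlane MatrixGroups

noncomputable section

open Equiv

lemma card_maps_mul {n : ℕ} (J T : Finset (Fin n)) :
    (Finset.univ.filter fun σ : Perm (Fin n) => ∀ u ∈ J, σ u ∈ T).card * n ^ J.card ≤
      n.factorial * T.card ^ J.card := by
  induction J using Finset.induction_on with
  | empty => simp [Fintype.card_perm]
  | insert u J hu ih =>
    have h := Finset.card_mul_le_card_mul (s := (Finset.univ : Finset (Fin n)))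
      (t := Finset.univ.filter fun σ : Perm (Fin n) => ∀ u ∈ J, σ u ∈ T) (fun v σ => σ v ∈ T)
      (m := (Finset.univ.filter fun σ : Perm (Fin n) => ∀ v ∈ insert u J, σ v ∈ T).card)
      (n := T.card) (fun v _ => ?_) fun σ _ => Finset.card_le_card_of_injOn σ
        (fun v hv => ((Finset.mem_bipartiteBelow _).1 hv).2) σ.injective.injOn
    · rw [Finset.card_univ, Fintype.card_fin] at h
      rw [Finset.card_insert_of_notMem hu, pow_succ', pow_succ', ← mul_assoc, mul_comm _ n]
      refine (Nat.mul_le_mul_right _ h).trans ?_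
      rw [mul_right_comm, mul_left_comm, mul_comm]
      exact Nat.mul_le_mul_left _ ih
    · by_cases hv : v ∈ J
      · refine Finset.card_le_card fun σ hσ => ?_
        have h := (Finset.mem_filter.1 hσ).2
        exact (Finset.mem_bipartiteAbove _).2 ⟨Finset.mem_filter.2 ⟨Finset.mem_univ _,
          fun w hw => h w (Finset.mem_insert_of_mem hw)⟩, h v (Finset.mem_insert_of_mem hv)⟩
      · refine Finset.card_le_card_of_injOn (· * swap u v) (fun σ hσ => ?_)
          (mul_left_injective _).injOn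
        have h := (Finset.mem_filter.1 hσ).2
        refine (Finset.mem_bipartiteAbove _).2 ⟨Finset.mem_filter.2 ⟨Finset.mem_univ _,
          fun w hw => ?_⟩, ?_⟩
        · rw [Perm.mul_apply, swap_apply_of_ne_of_ne (ne_of_mem_of_not_mem hw hu)
            (ne_of_mem_of_not_mem hw hv)]
          exact h w (Finset.mem_insert_of_mem hw)
        · rw [Perm.mul_apply, swap_apply_right]
          exact h u (Finset.mem_insert_self _ _)

lemma Rand1_pow {α : Type} (A : Finset α) (y : ℝ) :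
    (1 + y) ^ A.card = ∑ J ∈ A.powerset, y ^ J.card := by
  rw [← Finset.prod_const, Finset.prod_one_add]
  simp only [Finset.prod_const]

lemma moment {n : ℕ} (A T : Finset (Fin n)) {y : ℝ} (hy : 0 ≤ y) :
    ∑ σ : Perm (Fin n), (1 + y) ^ (A.filter fun u => σ u ∈ T).card ≤
      n.factorial * (1 + y * T.card / n) ^ A.card := by
  have e : ∀ σ : Perm (Fin n), (1 + y) ^ (A.filter fun u => σ u ∈ T).card =
      ∑ J ∈ A.powerset, if ∀ u ∈ J, σ u ∈ T then y ^ J.card else 0 := fun σ => by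
    rw [Rand1_pow, ← Finset.sum_filter]
    refine Finset.sum_congr (Finset.ext fun J => ?_) fun _ _ => rfl
    simp only [Finset.mem_powerset, Finset.mem_filter, Finset.subset_iff, imp_and, forall_and]
  rw [Finset.sum_congr rfl fun σ _ => e σ, Finset.sum_comm, Rand1_pow, Finset.mul_sum]
  refine Finset.sum_le_sum fun J _ => ?_
  have h : ((Finset.univ.filter fun σ : Perm (Fin n) => ∀ u ∈ J, σ u ∈ T).card : ℝ) * n ^ J.card ≤
      n.factorial * T.card ^ J.card := by exact_mod_cast card_maps_mul J T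
  have hn : (0 : ℝ) < n ^ J.card := by
    rcases J.eq_empty_or_nonempty with rfl | ⟨u, -⟩
    · simp
    · exact pow_pos (Nat.cast_pos.2 u.pos) _
  rw [← Finset.sum_filter, Finset.sum_const, nsmul_eq_mul, div_pow, ← mul_div_assoc, le_div_iff₀ hn,
    mul_pow, mul_right_comm, mul_comm (y ^ J.card), ← mul_assoc]
  exact mul_le_mul_of_nonneg_right h (pow_nonneg hy _)

lemma Rand1_ecount {n k : ℕ} (σ : Fin k → Perm (Fin n)) (A T : Finset (Fin n)) :
    ecount σ A T = ∑ c, (A.filter fun u => σ c u ∈ T).card := by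
  rw [ecount, Finset.card_filter, Fintype.sum_prod_type]
  refine Finset.sum_congr rfl fun c _ => ?_
  rw [← Finset.card_filter]
  exact congrArg _ (Finset.ext fun u => by simp)

lemma Rand1_point {k s e : ℕ} {y : ℝ} (hk : 100 ≤ k) (hy : 1 ≤ y) (h : 9 * k * s < 20 * e) :
    (8 * Real.exp 1 * y) ^ s * Real.exp (s / 4) ^ k ≤ (1 + y) ^ e := by
  have h1 : 100 * s ≤ k * s := Nat.mul_le_mul_right _ hk
  rw [mul_assoc] at h
  obtain ⟨d, rfl⟩ : ∃ d, e = s + 3 * s + d := ⟨e - 4 * s, by omega⟩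
  have h2 : Real.exp 1 ^ s * Real.exp (s / 4) ^ k ≤ 2 ^ d := by
    rw [← Real.exp_log (two_pos (α := ℝ)), ← Real.exp_nat_mul, ← Real.exp_nat_mul,
      ← Real.exp_nat_mul, ← Real.exp_add, Real.exp_le_exp]
    have h3 : (100 : ℝ) * s ≤ k * s := by exact_mod_cast h1
    have h4 : (9 : ℝ) * (k * s) < 20 * (s + 3 * s + d) := by exact_mod_cast h
    have h5 := mul_le_mul_of_nonneg_left Real.log_two_gt_d9.le (Nat.cast_nonneg (α := ℝ) d)
    have h6 : (0 : ℝ) ≤ s := Nat.cast_nonneg _
    linarith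
  have h3 : (2 : ℝ) ≤ 1 + y := by linarith
  calc (8 * Real.exp 1 * y) ^ s * Real.exp (s / 4) ^ k
      = y ^ s * 2 ^ (3 * s) * (Real.exp 1 ^ s * Real.exp (s / 4) ^ k) := by
        rw [mul_pow, mul_pow, pow_mul]
        ring
    _ ≤ (1 + y) ^ s * (1 + y) ^ (3 * s) * (1 + y) ^ d := by
        refine mul_le_mul ?_ (h2.trans (pow_le_pow_left₀ zero_le_two h3 _)) (by positivity)
          (by positivity)
        gcongr
        linarith
    _ = _ := by rw [pow_add, pow_add]

lemma Rand1_markov {n k s : ℕ} (hk : 100 ≤ k) (A T : Finset (Fin n)) (hs : A.card + T.card = s)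
    (h0 : 0 < s) (hn : s ≤ n) :
    ((Finset.univ.filter fun σ : Fin k → Perm (Fin n) => 9 * k * s < 20 * ecount σ A T).card : ℝ) *
      (8 * Real.exp 1 * (n / s)) ^ s ≤ n.factorial ^ k := by
  have s0 : (0 : ℝ) < s := Nat.cast_pos.2 h0
  have n0 : (0 : ℝ) < n := Nat.cast_pos.2 (h0.trans_le hn)
  have hy : (1 : ℝ) ≤ n / s := (one_le_div s0).2 (Nat.cast_le.2 hn)
  have h1 : (1 + (n : ℝ) / s * T.card / n) ^ A.card ≤ Real.exp (s / 4) := by
    refine (pow_le_pow_left₀ (by positivity) ((add_comm _ _).trans_le (Real.add_one_le_exp _))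
      _).trans ?_
    rw [← Real.exp_nat_mul, Real.exp_le_exp]
    have e : (A.card : ℝ) * (n / s * T.card / n) = A.card * T.card / s := by field_simp
    rw [e, div_le_iff₀ s0, ← hs]
    push_cast
    nlinarith [sq_nonneg ((A.card : ℝ) - T.card)]
  refine le_of_mul_le_mul_right ?_ (pow_pos (Real.exp_pos (s / 4)) k)
  rw [mul_assoc, ← nsmul_eq_mul, ← mul_pow]
  refine (Finset.card_nsmul_le_sum _ (fun σ => (1 + (n : ℝ) / s) ^ ecount σ A T) _ fun σ hσ =>
    Rand1_point hk hy (Finset.mem_filter.1 hσ).2).trans ?_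
  refine (Finset.sum_le_univ_sum_of_nonneg fun σ => by positivity).trans ?_
  simp only [Rand1_ecount, ← Finset.prod_pow_eq_pow_sum]
  rw [← Fintype.sum_pow fun σ : Perm (Fin n) =>
    (1 + (n : ℝ) / s) ^ (A.filter fun u => σ u ∈ T).card]
  refine pow_le_pow_left₀ (by positivity) ((moment A T (by positivity)).trans ?_) _
  exact mul_le_mul_of_nonneg_left h1 (Nat.cast_nonneg _)

lemma Rand1_choose (n : ℕ) {s : ℕ} (h0 : 0 < s) :
    ((n + n).choose s : ℝ) ≤ (1 / 4) ^ s * (8 * Real.exp 1 * (n / s)) ^ s := by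
  have s0 : (0 : ℝ) < s := Nat.cast_pos.2 h0
  refine (Nat.choose_le_pow_div _ _).trans ?_
  have e : ((n + n : ℕ) : ℝ) = 2 * (n / s) * s := by
    push_cast
    field_simp
    ring
  have e' : (1 / 4 : ℝ) * (8 * Real.exp 1 * (n / s)) = 2 * (n / s) * Real.exp 1 := by ring
  rw [e, ← mul_pow, e', mul_pow _ (s : ℝ), mul_pow _ (Real.exp 1), mul_div_assoc,
    Real.exp_one_pow]
  exact mul_le_mul_of_nonneg_left (Real.pow_div_factorial_le_exp _ s0.le _) (by positivity)

lemma Rand1_geom (N : ℕ) : ∑ m ∈ Finset.range N, (1 / 4 : ℝ) ^ (m + 1) = (1 - (1 / 4) ^ N) / 3 := by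
  induction N with
  | zero => simp
  | succ N ih =>
    rw [Finset.sum_range_succ, ih]
    ring

theorem ncard_not_spr {n k : ℕ} (hk : 100 ≤ k) :
    3 * {σ : Fin k → Perm (Fin n) | ¬ Spr σ 0}.ncard ≤ n.factorial ^ k := by
  let Bd : Finset (Fin n ⊕ Fin n) → Finset (Fin k → Perm (Fin n)) := fun S =>
    Finset.univ.filter fun σ => S.card ≤ n ∧ 9 * k * S.card < 20 * ecount σ S.toLeft S.toRight
  let g : ℕ → ℝ := fun s =>
    if s = 0 then 0 else n.factorial ^ k / (8 * Real.exp 1 * (n / s)) ^ s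
  have h1 : {σ : Fin k → Perm (Fin n) | ¬ Spr σ 0}.ncard ≤
      ∑ S ∈ Finset.univ.powerset, (Bd S).card := by
    refine le_trans ?_ Finset.card_biUnion_le
    rw [← Set.ncard_coe_finset]
    refine Set.ncard_le_ncard (fun σ hσ => ?_) (Finset.finite_toSet _)
    simp only [Spr, Set.mem_ofPred_eq, not_forall, not_le] at hσ
    obtain ⟨A, T, h1, h2⟩ := hσ
    refine Finset.mem_biUnion.2 ⟨A.disjSum T, Finset.mem_powerset.2 (Finset.subset_univ _),
      Finset.mem_filter.2 ⟨Finset.mem_univ _, ?_⟩⟩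
    rw [Finset.card_disjSum, Finset.toLeft_disjSum, Finset.toRight_disjSum]
    exact ⟨h1, h2⟩
  have h2 : ∀ S, ((Bd S).card : ℝ) ≤ g S.card := fun S => by
    rcases (Bd S).eq_empty_or_nonempty with h | ⟨σ, hσ⟩
    · rw [h, Finset.card_empty, Nat.cast_zero]
      simp only [g]
      split_ifs <;> positivity
    obtain ⟨a1, a2⟩ := (Finset.mem_filter.1 hσ).2
    have h0 : 0 < S.card := Nat.pos_of_ne_zero fun h => by
      rw [Finset.card_eq_zero.1 h] at a2
      simp [ecount] at a2
    have n0 : (0 : ℝ) < n := Nat.cast_pos.2 (h0.trans_le a1)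
    simp only [g, if_neg h0.ne']
    rw [le_div_iff₀ (by positivity)]
    refine le_trans (mul_le_mul_of_nonneg_right (Nat.cast_le.2 (Finset.card_le_card
      fun τ hτ => ?_)) (by positivity))
      (Rand1_markov hk _ _ Finset.card_toLeft_add_card_toRight h0 a1)
    exact Finset.mem_filter.2 ⟨Finset.mem_univ _, (Finset.mem_filter.1 hτ).2.2⟩
  have h3 : ∑ S ∈ (Finset.univ : Finset (Fin n ⊕ Fin n)).powerset, g S.card ≤
      ∑ m ∈ Finset.range (n + n), (1 / 4 : ℝ) ^ (m + 1) * n.factorial ^ k := by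
    rw [Finset.sum_powerset_apply_card g, Finset.sum_range_succ', Finset.card_univ,
      Fintype.card_sum, Fintype.card_fin]
    simp only [g, if_pos, smul_zero, add_zero, if_neg (Nat.succ_ne_zero _), nsmul_eq_mul]
    refine Finset.sum_le_sum fun m hm => ?_
    have n0 : (0 : ℝ) < n := Nat.cast_pos.2 (by have := Finset.mem_range.1 hm; omega)
    rw [← mul_div_assoc, div_le_iff₀ (by positivity), mul_right_comm]
    exact mul_le_mul_of_nonneg_right (Rand1_choose n m.succ_pos) (by positivity)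
  rw [← Finset.sum_mul, Rand1_geom] at h3
  have h4 : ({σ : Fin k → Perm (Fin n) | ¬ Spr σ 0}.ncard : ℝ) ≤
      ∑ S ∈ Finset.univ.powerset, ((Bd S).card : ℝ) := by exact_mod_cast h1
  have h5 := h4.trans ((Finset.sum_le_sum fun S _ => h2 S).trans h3)
  have h6 : (0 : ℝ) ≤ (1 / 4) ^ (n + n) * n.factorial ^ k := by positivity
  have h7 : (3 : ℝ) * {σ : Fin k → Perm (Fin n) | ¬ Spr σ 0}.ncard ≤ n.factorial ^ k := by
    linarith
  exact_mod_cast h7

end

end Pool.Agent.P.MP_d39174_gt
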