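import Pool.Agent.P.MP_d39174_gt.RandDef

/-! Few short cycles on average. -/

namespace Pool.Agent.P.MP_d39174_gt

open UpperHalfPlane MatrixGroups

noncomputable section

open Equiv

lemma ncard_constr {n k : ℕ} (P : Finset (Fin k × Fin n)) (w : Fin k × Fin n → Fin n) :
    {σ : Fin k → Perm (Fin n) | ∀ p ∈ P, σ p.1 p.2 = w p}.ncard * (n - P.card) ^ P.card ≤
      n.factorial ^ k := by
  induction P using Finset.induction_on with
  | empty => simp [Set.ncard_univ, Fintype.card_perm]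
  | insert p P hp ih =>
    obtain ⟨c, u⟩ := p
    have hU : n - P.card ≤ {v : Fin n | (c, v) ∉ P}.ncard := by
      have h1 := Set.ncard_add_ncard_compl {v : Fin n | (c, v) ∉ P}
      have h2 : {v : Fin n | (c, v) ∉ P}ᶜ.ncard ≤ (P : Set (Fin k × Fin n)).ncard :=
        Set.ncard_le_ncard_of_injOn (fun v => (c, v)) (fun v hv => by simpa using hv)
          fun v _ v' _ e => (Prod.mk.inj e).2
      rw [Set.ncard_coe_finset] at h2
      rw [Nat.card_eq_fintype_card, Fintype.card_fin] at h1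
      omega
    have key : ({σ : Fin k → Perm (Fin n) | ∀ p ∈ insert (c, u) P, σ p.1 p.2 = w p} ×ˢ
        {v : Fin n | (c, v) ∉ P}).ncard ≤
        {σ : Fin k → Perm (Fin n) | ∀ p ∈ P, σ p.1 p.2 = w p}.ncard := by
      refine Set.ncard_le_ncard_of_injOn
        (fun x => Function.update x.1 c (x.1 c * swap u x.2)) ?_ ?_
      · rintro ⟨σ, v⟩ ⟨hσ, hv⟩ ⟨c', z⟩ hz
        have := hσ _ (Finset.mem_insert_of_mem hz)
        by_cases e : c' = c
        · subst e
          simp only [Function.update_self, Perm.mul_apply]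
          rwa [swap_apply_of_ne_of_ne (a := u) (b := v) (x := z) (fun q => hp (q ▸ hz))
            (fun q => hv (q ▸ hz))]
        · simpa only [Function.update_of_ne e] using this
      · rintro ⟨σ, v⟩ ⟨hσ, -⟩ ⟨σ', v'⟩ ⟨hσ', -⟩ e
        have e1 : σ c * swap u v = σ' c * swap u v' := by simpa using congrFun e c
        have e2 : σ c u = σ' c u :=
          (hσ _ (Finset.mem_insert_self _ _)).trans (hσ' _ (Finset.mem_insert_self _ _)).symm
        have e3 : v = v' := by
          apply (σ' c * swap u v').injective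
          rw [Perm.mul_apply _ _ v', swap_apply_right, ← e1, Perm.mul_apply, swap_apply_right, e2]
        subst e3
        refine Prod.ext (funext fun d => ?_) rfl
        by_cases q : d = c
        · subst q
          exact mul_right_cancel e1
        · simpa only [Function.update_of_ne q] using congrFun e d
    rw [Set.ncard_prod] at key
    rw [Finset.card_insert_of_notMem hp, pow_succ', ← mul_assoc]
    refine le_trans (Nat.mul_le_mul (le_trans (Nat.mul_le_mul_left _ (by omega)) key)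
      (Nat.pow_le_pow_left (by omega) _)) ih

private lemma joins_ends {C X : Type} {τ : C → Perm X} {q : C × X} {x y x' y' : X × Bool}
    (h : Joins τ q x y) (h' : Joins τ q x' y') : (x = x' ∧ y = y') ∨ (x = y' ∧ y = x') := by
  rcases h with ⟨rfl, rfl⟩ | ⟨rfl, rfl⟩ <;> rcases h' with ⟨rfl, rfl⟩ | ⟨rfl, rfl⟩ <;> simp

/-- A bad position lies on a closed trail. -/
lemma Bad.trail {C X : Type} {τ : C → Perm X} {K : ℕ} {p : C × X} (h : Bad τ K p) :
    ∃ r, r ≤ K ∧ ∃ (x : Fin (r + 1) → X × Bool) (q : Fin (r + 1) → C × X), q 0 = p ∧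
      Function.Injective q ∧ ∀ j, Joins τ (q j) (x j) (x (j + 1)) := by
  classical
  obtain ⟨W, hW⟩ := h
  have hp := W.bypass_isPath
  have hl := W.length_bypass_le_length.trans hW
  generalize W.bypass = U at hp hl
  have hq : ∀ j : Fin U.length, ∃ q, q ≠ p ∧ Joins τ q (U.getVert j) (U.getVert (j + 1)) :=
    fun j => U.adj_getVert_succ j.2
  choose q q1 q2 using hq
  refine ⟨U.length, hl, fun j => U.getVert (j - 1).val, Fin.cons p q, rfl, ?_, fun j => ?_⟩
  · rw [Fin.cons_injective_iff]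
    refine ⟨fun ⟨j, e⟩ => q1 j e, fun i j e => ?_⟩
    have hi := i.2
    have hj := j.2
    rcases joins_ends (q2 i) (e ▸ q2 j) with ⟨a, -⟩ | ⟨a, b⟩
    · exact Fin.ext (hp.getVert_injOn hi.le hj.le a)
    · have a' := hp.getVert_injOn hi.le (Nat.succ_le_of_lt hj) a
      have b' := hp.getVert_injOn (Nat.succ_le_of_lt hi) hj.le b
      omega
  · simp only [add_sub_cancel_right, Fin.coe_sub_one]
    induction j using Fin.cases with
    | zero => exact .inr ⟨by simp, by simp⟩
    | succ j => simpa [Fin.succ_ne_zero] using q2 j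

private lemma cover {α ι : Type} [Finite α] [Fintype ι] {S : Set α} (f : ι → Set α)
    (h : ∀ a ∈ S, ∃ i, a ∈ f i) {m N : ℕ} (hf : ∀ i, (f i).ncard * m ≤ N) :
    S.ncard * m ≤ Fintype.card ι * N := by
  have h1 : S.ncard ≤ ∑ i, (f i).ncard :=
    (Set.ncard_le_ncard fun a ha => Set.mem_iUnion.2 (h a ha)).trans
      (Set.ncard_iUnion_le_of_fintype f)
  refine (Nat.mul_le_mul_right m h1).trans ?_
  rw [Finset.sum_mul]
  exact (Finset.sum_le_card_nsmul _ _ N fun i _ => hf i).trans (by simp)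

private lemma joins_side {C X : Type} {τ : C → Perm X} {q : C × X} {x y : X × Bool}
    (h : Joins τ q x y) : y.2 = !x.2 := by
  rcases h with ⟨rfl, rfl⟩ | ⟨rfl, rfl⟩ <;> rfl

private lemma joins_next {C X : Type} {τ τ' : C → Perm X} {q q' : C × X} {x y y' : X × Bool}
    (h : Joins τ q x y) (h' : Joins τ' q' x y') (e : τ q.1 = τ' q'.1) : y = y' := by
  rcases h with ⟨h1, rfl⟩ | ⟨rfl, h1⟩ <;> rcases h' with ⟨h2, rfl⟩ | ⟨rfl, h2⟩ <;>
    simp_all

private lemma joins_pos {C X : Type} {τ τ' : C → Perm X} {q q' : C × X} {x y : X × Bool}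
    (h : Joins τ q x y) (h' : Joins τ' q' x y) : q.2 = q'.2 ∧ τ q.1 q.2 = τ' q'.1 q'.2 := by
  rcases h with ⟨h1, h3⟩ | ⟨h1, h3⟩ <;> rcases h' with ⟨h2, h4⟩ | ⟨h2, h4⟩ <;>
    simp_all

/-- Closed trails with given colours that start at a free position. -/
private def Trl {n k r : ℕ} (col : Fin (r + 1) → Bool ⊕ Fin k)
    (a : Σ _ : Fin k → Perm (Fin n), Fin k × Fin n) (x : Fin (r + 1) → Fin n × Bool)
    (q : Fin (r + 1) → (Bool ⊕ Fin k) × Fin n) : Prop :=
  q 0 = (Sum.inr a.2.1, a.2.2) ∧ Function.Injective q ∧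
    (∀ j, Joins (tau a.1) (q j) (x j) (x (j + 1))) ∧ ∀ j, (q j).1 = col j

private lemma Trl.uniq {n k r : ℕ} {col : Fin (r + 1) → Bool ⊕ Fin k}
    {a a' : Σ _ : Fin k → Perm (Fin n), Fin k × Fin n} {x x' : Fin (r + 1) → Fin n × Bool}
    {q q' : Fin (r + 1) → (Bool ⊕ Fin k) × Fin n} (h : Trl col a x q) (h' : Trl col a' x' q')
    (e0 : (x 0).2 = (x' 0).2) (e : ∀ j, (col j).isRight → (x (j + 1)).1 = (x' (j + 1)).1) :
    x = x' := by
  have key : ∀ j, x (j + 1) = x' (j + 1) := by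
    intro j
    induction j using Fin.induction with
    | zero =>
      refine Prod.ext (e 0 ?_) ?_
      · rw [← h.2.2.2, h.1]
        rfl
      · rw [joins_side (h.2.2.1 0), joins_side (h'.2.2.1 0), e0]
    | succ i ih =>
      rw [Fin.coeSucc_eq_succ] at ih
      have j1 := h.2.2.1 i.succ
      have j2 := h'.2.2.1 i.succ
      rcases hc : col i.succ with b | c
      · refine joins_next j1 (ih ▸ j2) ?_
        rw [h.2.2.2, h'.2.2.2, hc]
        cases b <;> rfl
      · refine Prod.ext (e _ (by rw [hc]; rfl)) ?_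
        rw [joins_side j1, joins_side j2, ih]
  funext j
  simpa using key (j - 1)

private lemma trl_fib {n k r : ℕ} (col : Fin (r + 1) → Bool ⊕ Fin k)
    (d : Bool × ({j // (col j).isRight} → Fin n)) :
    {a : Σ _ : Fin k → Perm (Fin n), Fin k × Fin n | ∃ x q, Trl col a x q ∧ (x 0).2 = d.1 ∧
      ∀ j : {j // (col j).isRight}, (x (j + 1)).1 = d.2 j}.ncard *
      (n - Fintype.card {j // (col j).isRight}) ^ Fintype.card {j // (col j).isRight} ≤
      n.factorial ^ k := by
  rcases Set.eq_empty_or_nonempty {a : Σ _ : Fin k → Perm (Fin n), Fin k × Fin n |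
    ∃ x q, Trl col a x q ∧ (x 0).2 = d.1 ∧
      ∀ j : {j // (col j).isRight}, (x (j + 1)).1 = d.2 j} with h | ⟨a, x, q, h, h0, h1⟩
  · rw [h]
    simp
  have hc : (Finset.univ.filter fun p : Fin k × Fin n => ∃ j, q j = (Sum.inr p.1, p.2)).card =
      Fintype.card {j // (col j).isRight} := by
    rw [Fintype.card_subtype, ← Finset.card_image_of_injective _ h.2.1,
      ← Finset.card_image_of_injective
        (f := fun p : Fin k × Fin n => ((Sum.inr p.1 : Bool ⊕ Fin k), p.2)) _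
        fun p p' e => by simpa [Prod.ext_iff] using e]
    congr 1
    ext z
    simp only [Finset.mem_image, Finset.mem_filter, Finset.mem_univ, true_and]
    constructor
    · rintro ⟨p, ⟨j, e⟩, rfl⟩
      exact ⟨j, by rw [← h.2.2.2, e]; rfl, e⟩
    · rintro ⟨j, hj, rfl⟩
      obtain ⟨c, hc⟩ := Sum.isRight_iff.1 hj
      have : q j = (Sum.inr c, (q j).2) := Prod.ext ((h.2.2.2 j).trans hc) rfl
      exact ⟨(c, (q j).2), ⟨j, this⟩, this.symm⟩
  rw [← hc]
  refine le_trans (Nat.mul_le_mul_right _ ?_) (ncard_constr _ fun p => a.1 p.1 p.2)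
  have key : ∀ b y s, Trl col b y s → (y 0).2 = d.1 →
      (∀ j : {j // (col j).isRight}, (y (j + 1)).1 = d.2 j) →
      ∀ j, s j = q j ∧ tau b.1 (s j).1 (s j).2 = tau a.1 (q j).1 (q j).2 := by
    intro b y s g g0 g1 j
    obtain rfl := g.uniq h (g0.trans h0.symm) fun j hj => (g1 ⟨j, hj⟩).trans (h1 ⟨j, hj⟩).symm
    have := joins_pos (g.2.2.1 j) (h.2.2.1 j)
    exact ⟨Prod.ext ((g.2.2.2 j).trans (h.2.2.2 j).symm) this.1, this.2⟩
  refine Set.ncard_le_ncard_of_injOn Sigma.fst ?_ ?_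
  · rintro b ⟨y, s, g, g0, g1⟩ p hp
    obtain ⟨j, e⟩ := (Finset.mem_filter.1 hp).2
    obtain ⟨e1, e2⟩ := key b y s g g0 g1 j
    rwa [e1, e] at e2
  · rintro ⟨σ, p⟩ ⟨y, s, g, g0, g1⟩ ⟨σ', p'⟩ ⟨y', s', g', g0', g1'⟩ e
    obtain rfl : σ = σ' := e
    have := (g.1.symm.trans (key _ y s g g0 g1 0).1).trans
      ((key _ y' s' g' g0' g1' 0).1.symm.trans g'.1)
    obtain rfl : p = p' := by simpa [Prod.ext_iff] using this
    rfl

private lemma trl_col {n k r K : ℕ} (hr : r ≤ K) (hn : 2 * K + 2 ≤ n)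
    (col : Fin (r + 1) → Bool ⊕ Fin k) :
    {a : Σ _ : Fin k → Perm (Fin n), Fin k × Fin n | ∃ x q, Trl col a x q}.ncard * 1 ≤
      2 ^ (K + 2) * n.factorial ^ k := by
  have h := cover (S := {a : Σ _ : Fin k → Perm (Fin n), Fin k × Fin n | ∃ x q, Trl col a x q})
    _ ?_ (trl_fib col)
  swap
  · rintro a ⟨x, q, h⟩
    exact ⟨((x 0).2, fun j => (x (j + 1)).1), x, q, h, rfl, fun _ => rfl⟩
  have hj : Fintype.card {j // (col j).isRight} ≤ r + 1 :=
    (Fintype.card_subtype_le _).trans (by simp)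
  rw [Fintype.card_prod, Fintype.card_bool, Fintype.card_fun, Fintype.card_fin] at h
  generalize Fintype.card {j // (col j).isRight} = j at h hj
  have h1 : n ^ j ≤ 2 ^ (K + 1) * (n - j) ^ j := by
    refine (Nat.pow_le_pow_left (show n ≤ 2 * (n - j) by omega) j).trans ?_
    rw [mul_pow]
    exact Nat.mul_le_mul_right _ (Nat.pow_le_pow_right two_pos (by omega))
  rw [mul_one]
  refine Nat.le_of_mul_le_mul_right (h.trans ?_) (pow_pos (show 0 < n - j by omega) j)
  calc 2 * n ^ j * n.factorial ^ k ≤ 2 * (2 ^ (K + 1) * (n - j) ^ j) * n.factorial ^ k := by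
        gcongr
    _ = _ := by ring

theorem ncard_bad (k K : ℕ) : ∃ c : ℕ, ∀ n, 2 * K + 2 ≤ n →
    3 * {σ : Fin k → Perm (Fin n) | c < (badSet σ K).ncard}.ncard ≤ n.factorial ^ k := by
  classical
  refine ⟨3 * (Fintype.card (Σ r : Fin (K + 1), Fin (r + 1) → Bool ⊕ Fin k) * 2 ^ (K + 2)),
    fun n hn => ?_⟩
  have h := cover (S := {a : Σ _ : Fin k → Perm (Fin n), Fin k × Fin n | a.2 ∈ badSet a.1 K})
    (fun i : Σ r : Fin (K + 1), Fin (r + 1) → Bool ⊕ Fin k => {a | ∃ x q, Trl i.2 a x q})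
    (fun a ha => by
      obtain ⟨r, hr, x, q, h0, h1, h2⟩ := Bad.trail ha
      exact ⟨⟨⟨r, Nat.lt_succ_of_le hr⟩, fun j => (q j).1⟩, x, q, h0, h1, h2, fun _ => rfl⟩)
    fun i => trl_col (Nat.le_of_lt_succ i.1.2) hn i.2
  rw [mul_one, ← mul_assoc] at h
  generalize Fintype.card (Σ r : Fin (K + 1), Fin (r + 1) → Bool ⊕ Fin k) * 2 ^ (K + 2) = M at h ⊢
  have h1 : {σ : Fin k → Perm (Fin n) | 3 * M < (badSet σ K).ncard}.ncard * (3 * M + 1) ≤
      {a : Σ _ : Fin k → Perm (Fin n), Fin k × Fin n | a.2 ∈ badSet a.1 K}.ncard := by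
    have h2 := Finset.card_nsmul_le_sum
      {σ : Fin k → Perm (Fin n) | 3 * M < (badSet σ K).ncard}.toFinset
      (fun σ => (badSet σ K).toFinset.card) (3 * M + 1) fun σ hσ => by
        rw [← Set.ncard_eq_toFinset_card']
        simpa using hσ
    rw [← Finset.card_sigma, ← Set.ncard_eq_toFinset_card', ← Set.ncard_coe_finset] at h2
    exact h2.trans (Set.ncard_le_ncard fun a ha => by simpa using (Finset.mem_sigma.1 ha).2)
  refine Nat.le_of_mul_le_mul_right ?_ (Nat.succ_pos (3 * M))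
  rw [mul_assoc, Nat.succ_eq_add_one]
  refine (Nat.mul_le_mul_left 3 (h1.trans h)).trans ?_
  rw [mul_add, mul_comm _ (3 * M), mul_assoc]
  exact Nat.le_add_right _ _

end

end Pool.Agent.P.MP_d39174_gt
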