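import Pool.Agent.P.MP_d39174_gt.Switch1

/-! Removing all short cycles. -/

namespace Pool.Agent.P.MP_d39174_gt

open UpperHalfPlane MatrixGroups

noncomputable section

open Equiv

lemma Switch_tau {n k : ℕ} (σ : Fin k → Perm (Fin n)) (c : Fin k) (x : Perm (Fin n)) :
    tau (Function.update σ c x) = Function.update (tau σ) (Sum.inr c) x := by
  funext d
  rcases d with (_ | _) | d
  · rw [Function.update_of_ne (by simp)]; rfl
  · rw [Function.update_of_ne (by simp)]; rfl
  · by_cases h : d = c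
    · subst h
      rw [Function.update_self]
      exact Function.update_self ..
    · rw [Function.update_of_ne (by simpa using h)]
      exact Function.update_of_ne h ..

lemma Switch_eq {n k : ℕ} (σ : Fin k → Perm (Fin n)) {c : Fin k} {u u' : Fin n}
    {p : Fin k × Fin n} (h : p ≠ (c, u)) (h' : p ≠ (c, u')) :
    Function.update σ c (σ c * swap u u') p.1 p.2 = σ p.1 p.2 := by
  obtain ⟨d, x⟩ := p
  by_cases hd : d = c
  · subst hd
    simp only [Function.update_self, Perm.mul_apply]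
    rw [swap_apply_of_ne_of_ne (by simpa using h) (by simpa using h')]
  · simp only [Function.update_of_ne hd]

lemma Switch_ecount {n k : ℕ} (σ : Fin k → Perm (Fin n)) (c : Fin k) (u u' : Fin n)
    (A T : Finset (Fin n)) : ecount (Function.update σ c (σ c * swap u u')) A T ≤
      ecount σ A T + (if u' ∈ A then 1 else 0) + if σ c u' ∈ T then 1 else 0 := by
  have h1 : ∀ (Q : Prop) [Decidable Q] (p : Fin k × Fin n),
      (if Q then ({p} : Finset _) else ∅).card = if Q then 1 else 0 := fun Q _ p => by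
    split_ifs <;> simp
  rw [← h1 _ (c, u'), ← h1 _ (c, u), ecount, ecount]
  refine (Finset.card_le_card fun p hp => ?_).trans ((Finset.card_union_le _ _).trans
    (Nat.add_le_add_right (Finset.card_union_le _ _) _))
  simp only [Finset.mem_filter, Finset.mem_univ, true_and, Finset.mem_union] at hp ⊢
  by_cases h : p = (c, u)
  · subst h
    simp only [Function.update_self, Perm.mul_apply, swap_apply_left] at hp
    simp [hp.2]
  by_cases h' : p = (c, u')
  · subst h'
    simp [show u' ∈ A from hp.1]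
  · rw [Switch_eq σ h h'] at hp
    exact .inl (.inl hp)

lemma Switch_inter {X : Type} [DecidableEq X] {x : X} {U : Finset X} (h : x ∉ U) (A : Finset X) :
    (A ∩ insert x U).card = (A ∩ U).card + if x ∈ A then 1 else 0 := by
  split_ifs with hx
  · rw [Finset.inter_insert_of_mem hx, Finset.card_insert_of_notMem (by simp [h])]
  · rw [Finset.inter_insert_of_notMem hx, add_zero]

lemma Switch_ind {n k K c : ℕ} (hn : 7 * c + 4 * (k + 3) ^ K < n) (σ : Fin k → Perm (Fin n))
    (m : ℕ) : ∀ (σ₁ : Fin k → Perm (Fin n)) (U V : Finset (Fin n)), (badSet σ₁ K).ncard ≤ m →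
      U.card + m ≤ c → V.card + m ≤ c → (diffSet σ σ₁).ncard + 2 * m ≤ 2 * c →
      (∀ A T, ecount σ₁ A T ≤ ecount σ A T + (A ∩ U).card + (T ∩ V).card) →
      ∃ σ' : Fin k → Perm (Fin n), badSet σ' K = ∅ ∧ (diffSet σ σ').ncard ≤ 2 * c ∧
        ∀ A T, ecount σ' A T ≤ ecount σ A T + A.card + T.card := by
  induction m with
  | zero =>
    intro σ₁ U V hb _ _ hd he
    refine ⟨σ₁, (Set.ncard_eq_zero (Set.toFinite _)).1 (Nat.le_zero.1 hb), hd, fun A T => ?_⟩
    have h1 := Finset.card_le_card (Finset.inter_subset_left (s₁ := A) (s₂ := U))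
    have h2 := Finset.card_le_card (Finset.inter_subset_left (s₁ := T) (s₂ := V))
    have := he A T
    omega
  | succ m ih =>
    intro σ₁ U V hb hU hV hd he
    rcases (badSet σ₁ K).eq_empty_or_nonempty with h0 | ⟨⟨c0, u⟩, hp⟩
    · exact ih σ₁ U V (by simp [h0]) (by omega) (by omega) (by omega) he
    obtain ⟨F, hF, -, hs⟩ := switch_one (tau σ₁) K (Sum.inr c0) u
    have h1 : {x | Bad (tau σ₁) K (Sum.inr c0, x)}.ncard ≤ (badSet σ₁ K).ncard :=
      Set.ncard_le_ncard_of_injOn (fun x => (c0, x)) (fun _ hx => hx)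
        fun _ _ _ _ e => congrArg Prod.snd e
    have h2 : {x | σ₁ c0 x ∈ V}.ncard ≤ V.card := by
      rw [← Set.ncard_coe_finset]
      exact Set.ncard_le_ncard_of_injOn (σ₁ c0) (fun _ hx => hx) (σ₁ c0).injective.injOn
    obtain ⟨u', -, hu'⟩ := Set.exists_mem_notMem_of_ncard_lt_ncard (t := Set.univ)
      (s := F ∪ {x | Bad (tau σ₁) K (Sum.inr c0, x)} ∪ (U ∪ {x | σ₁ c0 x ∈ V})) (by
        have h3 := Set.ncard_union_le (F ∪ {x | Bad (tau σ₁) K (Sum.inr c0, x)})
          (U ∪ {x | σ₁ c0 x ∈ V})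
        have h4 := Set.ncard_union_le F {x | Bad (tau σ₁) K (Sum.inr c0, x)}
        have h5 := Set.ncard_union_le (U : Set (Fin n)) {x | σ₁ c0 x ∈ V}
        rw [Set.ncard_coe_finset] at h5
        rw [Fintype.card_sum, Fintype.card_bool, Fintype.card_fin,
          show 2 + k + 1 = k + 3 by omega] at hF
        rw [Set.ncard_univ, Nat.card_eq_fintype_card, Fintype.card_fin]
        omega)
    simp only [Set.mem_union, not_or, Set.mem_ofPred_eq, Finset.mem_coe] at hu'
    obtain ⟨⟨h3, h4⟩, h5, h6⟩ := hu'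
    refine ih (Function.update σ₁ c0 (σ₁ c0 * swap u u')) (insert u' U) (insert (σ₁ c0 u') V) ?_
      (by rw [Finset.card_insert_of_notMem h5]; omega)
      (by rw [Finset.card_insert_of_notMem h6]; omega) ?_ fun A T => ?_
    · refine Nat.le_of_lt_succ (lt_of_lt_of_le (Set.ncard_lt_ncard ⟨fun p hp' => ?_, fun h => ?_⟩
        (Set.toFinite _)) hb)
      · exact (hs u' h3 h4 _ (Switch_tau σ₁ c0 _ ▸ hp')).1
      · exact (hs u' h3 h4 _ (Switch_tau σ₁ c0 _ ▸ h hp)).2 rfl
    · have h7 : diffSet σ (Function.update σ₁ c0 (σ₁ c0 * swap u u')) ⊆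
          insert (c0, u) (insert (c0, u') (diffSet σ σ₁)) := fun p hp' => by
        by_contra h
        simp only [Set.mem_insert_iff, not_or] at h
        exact h.2.2 fun e => hp' (e.trans (Switch_eq σ₁ h.1 h.2.1).symm)
      have h8 := Set.ncard_le_ncard h7
      have h9 := Set.ncard_insert_le (c0, u) (insert (c0, u') (diffSet σ σ₁))
      have h10 := Set.ncard_insert_le (c0, u') (diffSet σ σ₁)
      omega
    · have h7 := Switch_ecount σ₁ c0 u u' A T
      have h8 := he A T
      rw [Switch_inter h5, Switch_inter h6]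
      omega

lemma Switch_range {X Y : Type} [Fintype X] (g : X → Y) : (Set.range g).ncard ≤ Fintype.card X := by
  rw [← Set.image_univ, ← Nat.card_eq_fintype_card, ← Set.ncard_univ]
  exact Set.ncard_image_le

lemma Switch_small {X : Type} [Fintype X] (a : ℕ) :
    {s : Set X | s.ncard ≤ a}.ncard ≤ (Fintype.card X + 1) ^ a := by
  classical
  refine le_trans (Set.ncard_le_ncard fun s hs => ?_)
    ((Switch_range fun f : Fin a → Option X => {x | ∃ i, f i = some x}).trans (by simp))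
  refine ⟨fun i => s.toFinset.toList[i.1]?, Set.ext fun x => ?_⟩
  rw [← Set.mem_toFinset (s := s), ← Finset.mem_toList, List.mem_iff_getElem?]
  refine ⟨fun ⟨i, h⟩ => ⟨i, h⟩, fun ⟨i, h⟩ => ⟨⟨i, ?_⟩, h⟩⟩
  obtain ⟨h1, -⟩ := List.getElem?_eq_some_iff.1 h
  rw [Finset.length_toList, ← Set.ncard_eq_toFinset_card'] at h1
  exact h1.trans_le hs

theorem exists_switch {n k K c : ℕ} (hn : 7 * c + 4 * (k + 3) ^ K < n)
    (σ : Fin k → Perm (Fin n)) (hc : (badSet σ K).ncard ≤ c) :
    ∃ σ' : Fin k → Perm (Fin n), badSet σ' K = ∅ ∧ (diffSet σ σ').ncard ≤ 2 * c ∧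
      ∀ A T, ecount σ' A T ≤ ecount σ A T + A.card + T.card :=
  Switch_ind hn σ c σ ∅ ∅ hc (by simp) (by simp) (by simp [diffSet]) fun A T => by simp

lemma ncard_near {n k a : ℕ} (σ' : Fin k → Perm (Fin n)) :
    {σ | (diffSet σ σ').ncard ≤ a}.ncard ≤ (k * n * n + 1) ^ a := by
  refine le_trans (Set.ncard_le_ncard_of_injOn
    (fun σ => (fun p => (p, σ p.1 p.2)) '' diffSet σ σ') (fun σ hσ => ?_) fun σ _ ρ _ e => ?_)
    ((Switch_small (X := (Fin k × Fin n) × Fin n) a).trans (by simp))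
  · exact le_trans Set.ncard_image_le hσ
  · funext c
    ext1 x
    by_cases h : (c, x) ∈ diffSet σ σ'
    · obtain ⟨p, -, hp⟩ := (Set.ext_iff.1 e _).1 ⟨_, h, rfl⟩
      obtain ⟨rfl, h1⟩ := Prod.mk.inj hp
      exact h1.symm
    by_cases h' : (c, x) ∈ diffSet ρ σ'
    · obtain ⟨p, -, hp⟩ := (Set.ext_iff.1 e _).2 ⟨_, h', rfl⟩
      obtain ⟨rfl, h1⟩ := Prod.mk.inj hp
      exact h1
    · exact (not_not.1 h).trans (not_not.1 h').symm

lemma ncard_same_graph {n k J : ℕ} (σ' : Fin k → Perm (Fin n)) :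
    {σ : Fin k → Perm (Fin n) | Gr (tau σ) (keep n k J) = Gr (tau σ') (keep n k J)}.ncard ≤
      (k + 2) ^ (k * n) * (n + 1) ^ (2 * J) := by
  refine le_trans (Set.ncard_le_ncard_of_injOn (fun σ p => σ p.1 p.2) (fun σ hσ => ?_)
    fun σ _ ρ _ e => funext fun c => Equiv.ext fun x => congrFun e (c, x))
    ((Switch_range fun (f : (Fin k × Fin n → Bool ⊕ Fin k) × (Fin 2 × Fin J → Option (Fin n)))
      (p : Fin k × Fin n) => if h : p.1.val < 2 ∧ p.2.val < J then
        (f.2 (⟨_, h.1⟩, ⟨_, h.2⟩)).getD p.2 else tau σ' (f.1 p) p.2).trans (by simp [add_comm]))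
  have h1 : ∀ p : Fin k × Fin n, ∃ d, ¬(p.1.val < 2 ∧ p.2.val < J) →
      tau σ' d p.2 = σ p.1 p.2 := fun p => by
    by_cases h : p.1.val < 2 ∧ p.2.val < J
    · exact ⟨Sum.inl true, fun h' => absurd h h'⟩
    have h2 : (Gr (tau σ) (keep n k J)).Adj (p.2, false) (σ p.1 p.2, true) :=
      ⟨(Sum.inr p.1, p.2), ⟨by simp, by simpa using h⟩, .inl ⟨rfl, rfl⟩⟩
    rw [show Gr (tau σ) (keep n k J) = _ from hσ] at h2
    obtain ⟨q, -, ⟨h3, h4⟩ | ⟨h3, -⟩⟩ := h2
    · exact ⟨q.1, fun _ => by rw [(Prod.mk.inj h3).1, ← (Prod.mk.inj h4).1, (Prod.mk.inj h3).1]⟩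
    · simp at h3
  choose d hd using h1
  refine ⟨(d, fun q => if h : q.1.val < k ∧ q.2.val < n then some (σ ⟨_, h.1⟩ ⟨_, h.2⟩) else none),
    funext fun p => ?_⟩
  by_cases h : p.1.val < 2 ∧ p.2.val < J
  · simp [h]
  · simp only [dif_neg h, hd p h]

lemma ncard_iso {Vx : Type} [Fintype Vx] (G : SimpleGraph Vx) :
    {G' : SimpleGraph Vx | Nonempty (G ≃g G')}.ncard ≤ (Fintype.card Vx).factorial := by
  classical
  refine le_trans (Set.ncard_le_ncard fun G' ⟨φ⟩ => ?_)
    ((Switch_range fun e : Perm Vx => G.comap e).trans Fintype.card_perm.le)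
  exact ⟨φ.symm.toEquiv, SimpleGraph.ext (funext₂ fun a b => propext φ.symm.map_rel_iff)⟩

end

end Pool.Agent.P.MP_d39174_gt
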