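import Pool.Agent.P.MP_d39174_gt.Geo
import Pool.Agent.P.MP_d39174_gt.Iso
import Pool.Agent.P.MP_d39174_gt.Map2
import Pool.Agent.P.MP_d39174_gt.Rand1
import Pool.Agent.P.MP_d39174_gt.Rand2
import Pool.Agent.P.MP_d39174_gt.Switch
import Pool.Agent.P.MP_d39174_gt.GrP
import Pool.Agent.P.MP_d39174_gt.Num

/-! Many critical points. -/

namespace Pool.Agent.P.MP_d39174_gt

open UpperHalfPlane MatrixGroups

noncomputable section

open Equiv

lemma ncard_le_mul_of_cover {X Y : Type} [Finite X] {s : Set X} {t : Set Y} (ht : t.Finite)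
    (R : Y → Set X) (cov : ∀ a ∈ s, ∃ b ∈ t, a ∈ R b) {M : ℕ} (hM : ∀ b ∈ t, (R b).ncard ≤ M) :
    s.ncard ≤ t.ncard * M := by
  induction t, ht using Set.Finite.induction_on generalizing s with
  | empty =>
    have : s = ∅ := Set.eq_empty_of_forall_notMem fun a ha => by simpa using cov a ha
    simp [this]
  | @insert b t hb ht ih =>
    have h1 : (s \ R b).ncard ≤ t.ncard * M := by
      refine ih (fun a ha => ?_) fun b' hb' => hM b' (Set.mem_insert_of_mem _ hb')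
      obtain ⟨b', hb', h⟩ := cov a ha.1
      rcases hb' with rfl | hb'
      · exact absurd h ha.2
      · exact ⟨b', hb', h⟩
    have h2 : s.ncard ≤ (s \ R b).ncard + (R b).ncard :=
      (Set.ncard_le_ncard (fun a ha => by by_cases h : a ∈ R b <;> simp [ha, h])).trans
        (Set.ncard_union_le _ _)
    rw [Set.ncard_insert_of_notMem hb ht, add_mul, one_mul]
    exact h2.trans (add_le_add h1 (hM b (Set.mem_insert _ _)))

lemma NBG.mono {Vx : Type} {G : SimpleGraph Vx} {K K' : ℕ} (h : NBG G K) (e : K' ≤ K) :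
    NBG G K' := fun r v h1 h2 => h r v h1 (h2.trans e)

/-- Many tuples of permutations give expanders of large girth. -/
lemma many_good {k : ℕ} (hk : 100 ≤ k) (K : ℕ) : ∃ c n₀ : ℕ, ∀ n, n₀ ≤ n →
    n.factorial ^ k ≤ 3 * (k * n * n + 1) ^ (2 * c) *
      {σ : Fin k → Perm (Fin n) | badSet σ K = ∅ ∧ Spr σ 20}.ncard := by
  obtain ⟨c, hc⟩ := ncard_bad k K
  refine ⟨c, 7 * c + 4 * (k + 3) ^ K + 2 * K + 2, fun n hn => ?_⟩
  have h1 := hc n (by omega)
  have h2 := ncard_not_spr (n := n) hk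
  have h3 : {σ : Fin k → Perm (Fin n) | Spr σ 0 ∧ (badSet σ K).ncard ≤ c}.ncard ≤
      {σ : Fin k → Perm (Fin n) | badSet σ K = ∅ ∧ Spr σ 20}.ncard * (k * n * n + 1) ^ (2 * c) := by
    refine ncard_le_mul_of_cover (Set.toFinite _) (fun σ' => {σ | (diffSet σ σ').ncard ≤ 2 * c})
      (fun σ hσ => ?_) fun σ' _ => ncard_near σ'
    obtain ⟨σ', e1, e2, e3⟩ := exists_switch (by omega) σ hσ.2
    refine ⟨σ', ⟨e1, fun A T hAT => ?_⟩, e2⟩
    have a := hσ.1 A T hAT
    have b := e3 A T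
    nlinarith
  have h4 : n.factorial ^ k ≤
      {σ : Fin k → Perm (Fin n) | Spr σ 0 ∧ (badSet σ K).ncard ≤ c}.ncard +
        {σ : Fin k → Perm (Fin n) | ¬ Spr σ 0}.ncard +
        {σ : Fin k → Perm (Fin n) | c < (badSet σ K).ncard}.ncard := by
    have e : n.factorial ^ k = (Set.univ : Set (Fin k → Perm (Fin n))).ncard := by
      rw [Set.ncard_univ, Nat.card_eq_fintype_card]
      simp [Fintype.card_perm]
    rw [e]
    refine le_trans (Set.ncard_le_ncard fun σ _ => ?_)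
      ((Set.ncard_union_le _ _).trans (add_le_add_left (Set.ncard_union_le _ _) _))
    simp only [Set.mem_union, Set.mem_setOf_eq]
    by_cases a : Spr σ 0 <;> by_cases b : c < (badSet σ K).ncard <;> simp [a, b]
    omega
  nlinarith

theorem lower (q : ℕ) (hq : 1 ≤ q) : ∃ K g₀ : ℕ, ∀ g, g₀ ≤ g →
    ∃ s : Set (Set (Subgroup SL(2, ℝ))), s.Finite ∧ s ⊆ Crit g ∧
      (g + 1) ^ (2 * g - g / q) ≤ K ^ g * s.ncard := by
  obtain ⟨m₀, hgeo⟩ := geo
  obtain ⟨m, hm0, hm1, hm2⟩ : ∃ m, m₀ ≤ m ∧ 5 * q ≤ m ∧ 60 ≤ m := ⟨m₀ + 5 * q + 60, by omega⟩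
  obtain ⟨k, hk⟩ : ∃ k, k = 2 * m - 2 := ⟨_, rfl⟩
  obtain ⟨K, N, hG⟩ := hgeo (k + 2) (by omega)
  obtain ⟨c, n₀, hgood⟩ := many_good (k := k) (by omega) (K + 1)
  obtain ⟨K', g₀, hnum⟩ := num_lower q m c hq hm1
  refine ⟨K', g₀ + m * (N + n₀ + K + m + 2), fun g hg => ?_⟩
  obtain ⟨n, J, e, hJ⟩ : ∃ n J, g + J = n * m ∧ J < m := by
    refine ⟨(g + m - 1) / m, (g + m - 1) / m * m - g, ?_⟩
    have a := Nat.div_add_mod (g + m - 1) m
    have b := Nat.mod_lt (g + m - 1) (show 0 < m by omega)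
    rw [mul_comm] at a
    omega
  have hn : N + n₀ + K + m + 2 ≤ n := by
    refine Nat.le_of_mul_le_mul_left (c := m) ?_ (by omega)
    rw [mul_comm m n]
    omega
  set good := {σ : Fin k → Perm (Fin n) | badSet σ (K + 1) = ∅ ∧ Spr σ 20} with hgd
  have ex : ∀ σ ∈ good, ∃ Γ l, IsSurfaceGroup g Γ ∧ IsCritical Γ ∧ Sys Γ l ∧
      Rz (Gr (tau σ) (keep n k J)) Γ l := fun σ hσ => by
    have nb := not_bad_of_empty σ (show K + 1 < n by omega) hσ.1
    have hE := gr_edges (J := J) nb (by omega) (by omega) (by omega) (by omega)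
    have hmul : n * (k + 2) = 2 * (n * m) := by
      rw [show k + 2 = 2 * m by omega]; ring
    obtain ⟨C⟩ := exists_cmb (by omega) (Gr (tau σ) (keep n k J)) gr_bip gr_m0 gr_m1 fun u => by
      rw [gr_free nb (by omega) (by omega)]
      split_ifs
      · exact ⟨⟨m - 2, by omega⟩, by omega⟩
      · exact ⟨⟨m - 1, by omega⟩, by omega⟩
    refine hG _ _ _ C g (by simp; omega) (gr_le_deg nb (by omega)) gr_deg_le
      (gr_expd nb (by omega) (by omega) hσ.2) ?_ ((nbg_of_not_bad nb _).mono (by omega))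
      (by omega)
    have h0 : ∑ v, ((Gr (tau σ) (keep n k J)).degree v : ℝ) =
        2 * (Gr (tau σ) (keep n k J)).edgeFinset.card := by
      exact_mod_cast SimpleGraph.sum_degrees_eq_twice_card_edges _
    rw [Finset.sum_sub_distrib, h0]
    have h1 : n * 2 * (k + 2) ≤ 2 * (k + 2) + 2 * (Gr (tau σ) (keep n k J)).edgeFinset.card := by
      have : n * 2 * (k + 2) = 2 * (n * (k + 2)) := by ring
      omega
    have h2 : ((n * 2 * (k + 2) : ℕ) : ℝ) ≤
        ((2 * (k + 2) + 2 * (Gr (tau σ) (keep n k J)).edgeFinset.card : ℕ) : ℝ) := by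
      exact_mod_cast h1
    simp only [Finset.sum_const, Finset.card_univ, Fintype.card_prod, Fintype.card_fin,
      Fintype.card_bool, nsmul_eq_mul]
    push_cast at h2 ⊢
    linarith
  choose! Γ l hΓ using ex
  refine ⟨(fun σ => cls (Γ σ)) '' good, (Set.toFinite _).image _, ?_, ?_⟩
  · rintro _ ⟨σ, hσ, rfl⟩
    exact ⟨Γ σ, ⟨(hΓ σ hσ).1, (hΓ σ hσ).2.1⟩, rfl⟩
  have h1 := hgood n (by omega)
  have h2 : good.ncard ≤ ((fun σ => cls (Γ σ)) '' good).ncard *
      ((2 * n).factorial * ((k + 2) ^ (k * n) * (n + 1) ^ (2 * J))) := by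
    refine ncard_le_mul_of_cover ((Set.toFinite _).image _)
      (fun y => {σ | σ ∈ good ∧ cls (Γ σ) = y}) (fun σ hσ => ⟨_, ⟨σ, hσ, rfl⟩, hσ, rfl⟩) ?_
    rintro _ ⟨σ₀, h0, rfl⟩
    refine (ncard_le_mul_of_cover
      (t := {G' | Nonempty (Gr (tau σ₀) (keep n k J) ≃g G')}) (Set.toFinite _)
      (fun G' => {σ : Fin k → Perm (Fin n) | Gr (tau σ) (keep n k J) = G'})
      (M := (k + 2) ^ (k * n) * (n + 1) ^ (2 * J)) (fun σ hσ => ?_) fun G' _ => ?_).trans ?_
    · exact ⟨_, iso_of_cls (hΓ σ₀ h0).2.2.1 (hΓ σ hσ.1).2.2.1 (hΓ σ₀ h0).2.2.2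
        (hΓ σ hσ.1).2.2.2 hσ.2, rfl⟩
    · rcases Set.eq_empty_or_nonempty
        {σ : Fin k → Perm (Fin n) | Gr (tau σ) (keep n k J) = G'} with h | ⟨σ, rfl⟩
      · simp [h]
      · exact ncard_same_graph σ
    · refine Nat.mul_le_mul_right _ ((ncard_iso _).trans (le_of_eq ?_))
      simp [mul_comm]
  have h3 := hnum g n J (by omega) e hJ
  rw [← hk, show 2 * m = k + 2 by omega] at h3
  refine Nat.le_of_mul_le_mul_right (h3.trans ?_) (by positivity)
  calc K' ^ g * n.factorial ^ k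
      ≤ K' ^ g * (3 * (k * n * n + 1) ^ (2 * c) * (((fun σ => cls (Γ σ)) '' good).ncard *
        ((2 * n).factorial * ((k + 2) ^ (k * n) * (n + 1) ^ (2 * J))))) :=
        Nat.mul_le_mul_left _ (h1.trans (Nat.mul_le_mul_left _ h2))
    _ = _ := by ring

end

end Pool.Agent.P.MP_d39174_gt
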