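import Pool.Agent.P.MP_d39174_gt.InsA
import Pool.Agent.P.MP_d39174_gt.InsB

/-! Insertion of crossings along one curve. -/

namespace Pool.Agent.P.MP_d39174_gt

open UpperHalfPlane MatrixGroups

noncomputable section

open Equiv

namespace St

variable {Vx : Type} [Finite Vx] {G : SimpleGraph Vx} {s : St G} {D : Set G.Dart}

lemma Act.π_mem (h : s.Act D) {a : G.Dart} (ha : a ∈ D) : s.π a ∈ D := by
  have _i : Finite Vx := inferInstance
  by_contra h1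
  exact h1 (by rw [s.π.injective (h.fix _ h1)]; exact ha)

omit [Finite Vx] in
lemma Map1_inv_mem (h : s.Act D) {a : G.Dart} (ha : a ∈ D) : s.π⁻¹ a ∈ D := by
  by_contra h1
  have h2 : a = s.π⁻¹ a := (s.π.apply_symm_apply a).symm.trans (h.fix _ h1)
  exact h1 (h2 ▸ ha)

omit [Finite Vx] in
lemma Map1_symm_not (h : s.Act D) {a : G.Dart} (ha : a ∉ D) : a.symm ∉ D := fun h1 =>
  ha (a.symm_symm ▸ h.symm _ h1)

lemma Map1_closed {X : Type} [Finite X] {σ : Perm X} {U : X → Prop} (hU : ∀ a, U a → U (σ a))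
    {a b : X} (h : σ.SameCycle a b) (ha : U a) : U b := by
  obtain ⟨i, rfl⟩ := h.exists_nat_pow_eq
  clear h
  induction i with
  | zero => exact ha
  | succ i ih =>
    rw [pow_succ', Perm.mul_apply]
    exact hU _ ih

omit [Finite Vx] in
lemma Map1_set (D : Set G.Dart) (a : G.Dart) :
    {h : G.Dart × Bool | h.1 ∈ D ∪ {a, a.symm}} =
      {h | h.1 ∈ D} ∪ {(a, true), (a, false), (a.symm, true), (a.symm, false)} := by
  ext ⟨c, b⟩
  cases b <;> simp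

lemma Map1_ins (h : s.Act D) {a a₀ b₀ : G.Dart} (ha : a ∉ D) (h0 : a₀ ∈ D)
    (e0 : a₀.fst = a.fst) (h1 : b₀ ∈ D) (e1 : b₀.fst = a.snd) (e : Bool) :
    ∃ t : St G, (t.Act (D ∪ {a, a.symm}) ∧ t.π a₀ = a ∧
        t.π a = s.π a₀ ∧ ∀ c, c.fst = a.fst → c ≠ a₀ → c ≠ a → t.π c = s.π c) ∧
      (t.f (a₀, true) = (a.symm, e) ∧ t.f (b₀, true) = (a, !e) ∧
        t.f (s.π a₀, false) = (a.symm, !e) ∧ t.f (s.π b₀, false) = (a, e)) ∧
      (t.f (a, true) = s.f (a₀, true) ∧ t.f (a.symm, true) = s.f (b₀, true) ∧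
        t.f (a, false) = s.f (s.π a₀, false) ∧ t.f (a.symm, false) = s.f (s.π b₀, false)) ∧
      ∀ x : G.Dart × Bool, x ≠ (a₀, true) → x ≠ (b₀, true) → x ≠ (s.π a₀, false) →
        x ≠ (s.π b₀, false) → x.1 ≠ a → x.1 ≠ a.symm → t.f x = s.f x := by
  classical
  have : Finite G.Dart := Finite.of_injective _ SimpleGraph.Dart.toProd_injective
  have ha' : a.symm ∉ D := Map1_symm_not h ha
  have pa := h.fix a ha
  have pa' := h.fix a.symm ha'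
  have n1 : ∀ c ∈ D, c ≠ a := fun c hc e => ha (e ▸ hc)
  have n2 : ∀ c ∈ D, c ≠ a.symm := fun c hc e => ha' (e ▸ hc)
  have n3 : a₀ ≠ b₀ := fun e => a.fst_ne_snd (by rw [← e0, e, e1])
  have n4 : a.symm ≠ a := a.symm_ne
  obtain ⟨p, p1, p2, p3, p4, p5⟩ : ∃ p : Perm G.Dart, p a₀ = a ∧ p a = s.π a₀ ∧ p b₀ = a.symm ∧
      p a.symm = s.π b₀ ∧ ∀ c, c ≠ a₀ → c ≠ a → c ≠ b₀ → c ≠ a.symm → p c = s.π c := by
    refine ⟨s.π * swap a₀ a * swap b₀ a.symm, ?_, ?_, ?_, ?_, fun c c1 c2 c3 c4 => ?_⟩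
    · rw [Perm.mul_apply, Perm.mul_apply, swap_apply_of_ne_of_ne n3 (n2 _ h0), swap_apply_left, pa]
    · rw [Perm.mul_apply, Perm.mul_apply, swap_apply_of_ne_of_ne (n1 _ h1).symm n4.symm,
        swap_apply_right]
    · rw [Perm.mul_apply, Perm.mul_apply, swap_apply_left,
        swap_apply_of_ne_of_ne (n2 _ h0).symm n4, pa']
    · rw [Perm.mul_apply, Perm.mul_apply, swap_apply_right,
        swap_apply_of_ne_of_ne n3.symm (n1 _ h1)]
    · rw [Perm.mul_apply, Perm.mul_apply, swap_apply_of_ne_of_ne c3 c4,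
        swap_apply_of_ne_of_ne c1 c2]
  have cases5 : ∀ c : G.Dart, c = a₀ ∨ c = a ∨ c = b₀ ∨ c = a.symm ∨ p c = s.π c := fun c => by
    by_contra hc
    simp only [not_or] at hc
    exact hc.2.2.2.2 (p5 c hc.1 hc.2.1 hc.2.2.1 hc.2.2.2.1)
  obtain ⟨g, g1, g2, g3⟩ : ∃ g : G.Dart → Bool, g a = !e ∧ g a.symm = e ∧
      ∀ c, c ≠ a → c ≠ a.symm → g c = s.sg c :=
    ⟨fun c => if c = a then !e else if c = a.symm then e else s.sg c, if_pos rfl,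
      (if_neg n4).trans (if_pos rfl), fun c c1 c2 => (if_neg c1).trans (if_neg c2)⟩
  have g4 : ∀ c : G.Dart, c ≠ a → c ≠ a.symm → g c.symm = s.sg c.symm := fun c c1 c2 =>
    g3 _ (fun e => c2 (by rw [← e, c.symm_symm])) fun e => c1 (by rw [← c.symm_symm, e, a.symm_symm])
  have g5 : ∀ c ∈ D, g c.symm = s.sg c.symm := fun c hc => g4 c (n1 c hc) (n2 c hc)
  have pf : ∀ c, (p c).fst = c.fst := fun c => by
    rcases cases5 c with rfl | rfl | rfl | rfl | hc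
    · rw [p1, e0]
    · rw [p2, s.fst, e0]
    · rw [p3, e1]
      rfl
    · rw [p4, s.fst, e1]
      rfl
    · rw [hc, s.fst]
  have gf : ∀ c, g c.symm = !g c := fun c => by
    by_cases c1 : c = a
    · rw [c1, g1, g2, Bool.not_not]
    by_cases c2 : c = a.symm
    · rw [c2, a.symm_symm, g1, g2]
    · rw [g4 c c1 c2, g3 c c1 c2, s.flip]
  have q1 : p⁻¹ a = a₀ := Perm.inv_eq_iff_eq.2 p1.symm
  have q2 : p⁻¹ (s.π a₀) = a := Perm.inv_eq_iff_eq.2 p2.symm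
  have q3 : p⁻¹ a.symm = b₀ := Perm.inv_eq_iff_eq.2 p3.symm
  have q4 : p⁻¹ (s.π b₀) = a.symm := Perm.inv_eq_iff_eq.2 p4.symm
  have sc : ∀ c, p.SameCycle c (s.π c) := fun c => by
    rcases cases5 c with rfl | rfl | rfl | rfl | hc
    · rw [← p2, Perm.sameCycle_apply_right, ← p1, Perm.sameCycle_apply_right]
    · rw [pa]
    · rw [← p4, Perm.sameCycle_apply_right, ← p3, Perm.sameCycle_apply_right]
    · rw [pa']
    · rw [← hc, Perm.sameCycle_apply_right]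
  have rep : ∀ c ∈ D ∪ {a, a.symm}, ∃ r ∈ D, r.fst = c.fst ∧ p.SameCycle r c := by
    rintro c (hc | rfl | rfl)
    · exact ⟨c, hc, rfl, .refl _ _⟩
    · exact ⟨a₀, h0, e0, by rw [← p1, Perm.sameCycle_apply_right]⟩
    · exact ⟨b₀, h1, e1, by rw [← p3, Perm.sameCycle_apply_right]⟩
  refine ⟨⟨p, g, pf, gf⟩, ⟨⟨?_, fun c hc => ?_, fun c hc c' hc' ec => ?_⟩, p1, p2,
    fun c c0 c1 c2 => p5 c c1 c2 (fun e => a.fst_ne_snd (by rw [← c0, e, e1]))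
      fun e => a.fst_ne_snd (by rw [← c0, e]; rfl)⟩, ⟨?_, ?_, ?_, ?_⟩, ⟨?_, ?_, ?_, ?_⟩, ?_⟩
  · rintro c (hc | rfl | rfl)
    · exact .inl (h.symm c hc)
    · exact .inr (.inr rfl)
    · exact .inr (.inl a.symm_symm)
  · have c1 : c ∉ D := fun h => hc (.inl h)
    exact (p5 c (fun e => c1 (e ▸ h0)) (fun e => hc (.inr (.inl e))) (fun e => c1 (e ▸ h1))
      fun e => hc (.inr (.inr e))).trans (h.fix c c1)
  · obtain ⟨r, r1, r2, r3⟩ := rep c hc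
    obtain ⟨r', r1', r2', r3'⟩ := rep c' hc'
    refine (r3.symm.trans ?_).trans r3'
    exact Map1_closed (U := fun b => p.SameCycle r b) (fun b hb => hb.trans (sc b))
      (h.cyc r r1 r' r1' (by rw [r2, ec, r2'])) (.refl _ _)
  · rw [f_true]
    dsimp only
    rw [p1, g2]
  · rw [f_true]
    dsimp only
    rw [p3, a.symm_symm, g1]
  · rw [f_false]
    dsimp only
    rw [q2, g2]
  · rw [f_false]
    dsimp only
    rw [q4, a.symm_symm, g1, Bool.not_not]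
  · rw [f_true, f_true]
    dsimp only
    rw [p2, g5 _ (h.π_mem h0)]
  · rw [f_true, f_true]
    dsimp only
    rw [p4, g5 _ (h.π_mem h1)]
  · rw [f_false, f_false]
    dsimp only
    rw [q1, (Perm.inv_eq_iff_eq.2 rfl : s.π⁻¹ (s.π a₀) = a₀), g5 _ h0]
  · rw [f_false, f_false]
    dsimp only
    rw [q3, (Perm.inv_eq_iff_eq.2 rfl : s.π⁻¹ (s.π b₀) = b₀), g5 _ h1]
  · rintro ⟨c, _ | _⟩ c1 c2 c3 c4 c5 c6
    · have d1 : s.π⁻¹ c ≠ a := fun e => c5 (by rw [Perm.inv_eq_iff_eq.1 e, pa])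
      have d2 : s.π⁻¹ c ≠ a.symm := fun e => c6 (by rw [Perm.inv_eq_iff_eq.1 e, pa'])
      have d3 : p⁻¹ c = s.π⁻¹ c := Perm.inv_eq_iff_eq.2 (by
        rw [p5 _ (fun e => c3 (by rw [Perm.inv_eq_iff_eq.1 e])) d1
          (fun e => c4 (by rw [Perm.inv_eq_iff_eq.1 e])) d2]
        exact (s.π.apply_symm_apply c).symm)
      rw [f_false, f_false]
      dsimp only
      rw [d3, g4 _ d1 d2]
    · have d1 : s.π c ≠ a := fun e => c5 (s.π.injective (e.trans pa.symm))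
      have d2 : s.π c ≠ a.symm := fun e => c6 (s.π.injective (e.trans pa'.symm))
      rw [f_true, f_true]
      dsimp only
      rw [p5 c (fun e => c1 (by rw [e])) c5 (fun e => c2 (by rw [e])) c6, g4 _ d1 d2]

/-- Insertion of the crossing `a` after `a₀` and `b₀`, with either sign. -/
theorem Act.insert (h : s.Act D) {a a₀ b₀ : G.Dart} (ha : a ∉ D) (h0 : a₀ ∈ D)
    (e0 : a₀.fst = a.fst) (h1 : b₀ ∈ D) (e1 : b₀.fst = a.snd) :
    ∃ s₁ s₂ : St G, (∀ t, t = s₁ ∨ t = s₂ → t.Act (D ∪ {a, a.symm}) ∧ t.π a₀ = a ∧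
        t.π a = s.π a₀ ∧ ∀ c, c.fst = a.fst → c ≠ a₀ → c ≠ a → t.π c = s.π c) ∧
      Ins s.f s₁.f ![(a₀, true), (b₀, true), (s.π a₀, false), (s.π b₀, false)]
        ![(a, true), (a.symm, true), (a, false), (a.symm, false)] ∧
      Ins s.f s₂.f ![(a₀, true), (s.π b₀, false), (s.π a₀, false), (b₀, true)]
        ![(a, true), (a.symm, false), (a, false), (a.symm, true)] := by
  obtain ⟨s₁, A1, ⟨a1, a2, a3, a4⟩, ⟨a5, a6, a7, a8⟩, a9⟩ := Map1_ins h ha h0 e0 h1 e1 true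
  obtain ⟨s₂, B1, ⟨b1, b2, b3, b4⟩, ⟨b5, b6, b7, b8⟩, b9⟩ := Map1_ins h ha h0 e0 h1 e1 false
  have ha' : a.symm ∉ D := Map1_symm_not h ha
  have pa := h.fix a ha
  have pa' := h.fix a.symm ha'
  have ia : s.π⁻¹ a = a := Perm.inv_eq_iff_eq.2 pa.symm
  have ia' : s.π⁻¹ a.symm = a.symm := Perm.inv_eq_iff_eq.2 pa'.symm
  have n1 : ∀ c ∈ D, c ≠ a := fun c hc e => ha (e ▸ hc)
  have n2 : ∀ c ∈ D, c ≠ a.symm := fun c hc e => ha' (e ▸ hc)
  have n3 : a₀ ≠ b₀ := fun e => a.fst_ne_snd (by rw [← e0, e, e1])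
  have n4 : a.symm ≠ a := a.symm_ne
  have m1 := n1 _ h0
  have m2 := n1 _ h1
  have m3 := n1 _ (h.π_mem h0)
  have m4 := n1 _ (h.π_mem h1)
  have m5 := n2 _ h0
  have m6 := n2 _ h1
  have m7 := n2 _ (h.π_mem h0)
  have m8 := n2 _ (h.π_mem h1)
  have hv : ∀ x : G.Dart × Bool, x.1 = a ∨ x.1 = a.symm → (s.f x).1 = a ∨ (s.f x).1 = a.symm := by
    rintro ⟨c, _ | _⟩ (rfl | rfl)
    · exact .inr (by rw [f_false, ia])
    · exact .inl (by rw [f_false, ia', a.symm_symm])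
    · exact .inr (by rw [f_true, pa])
    · exact .inl (by rw [f_true, pa', a.symm_symm])
  refine ⟨s₁, s₂, by rintro t (rfl | rfl); exacts [A1, B1], ⟨?_, ?_, fun i j => ?_, fun i => ?_,
    fun i => ?_, fun i => ?_, fun x hx hx' => ?_⟩, ⟨?_, ?_, fun i j => ?_, fun i => ?_,
    fun i => ?_, fun i => ?_, fun x hx hx' => ?_⟩⟩
  · intro i j
    fin_cases i <;> fin_cases j <;> simp [n3, n3.symm]
  · intro i j
    fin_cases i <;> fin_cases j <;> simp [n4, n4.symm]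
  · fin_cases i <;> fin_cases j <;> simp [m1, m2, m3, m4, m5, m6, m7, m8]
  · have h2 := hv (![(a, true), (a.symm, true), (a, false), (a.symm, false)] i)
      (by fin_cases i <;> simp)
    generalize s.f _ = y at h2 ⊢
    obtain ⟨c, _ | _⟩ := y <;> rcases h2 with rfl | rfl
    exacts [⟨2, rfl⟩, ⟨3, rfl⟩, ⟨0, rfl⟩, ⟨1, rfl⟩]
  · fin_cases i
    exacts [a1, a2, a3, a4]
  · fin_cases i
    exacts [a5, a6, a7, a8]
  · refine a9 x (hx 0) (hx 1) (hx 2) (hx 3) ?_ ?_ <;> obtain ⟨c, _ | _⟩ := x <;> rintro rfl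
    exacts [hx' 2 rfl, hx' 0 rfl, hx' 3 rfl, hx' 1 rfl]
  · intro i j
    fin_cases i <;> fin_cases j <;> simp [n3, n3.symm]
  · intro i j
    fin_cases i <;> fin_cases j <;> simp [n4, n4.symm]
  · fin_cases i <;> fin_cases j <;> simp [m1, m2, m3, m4, m5, m6, m7, m8]
  · have h2 := hv (![(a, true), (a.symm, false), (a, false), (a.symm, true)] i)
      (by fin_cases i <;> simp)
    generalize s.f _ = y at h2 ⊢
    obtain ⟨c, _ | _⟩ := y <;> rcases h2 with rfl | rfl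
    exacts [⟨2, rfl⟩, ⟨1, rfl⟩, ⟨0, rfl⟩, ⟨3, rfl⟩]
  · fin_cases i
    exacts [b1, b4, b3, b2]
  · fin_cases i
    exacts [b5, b8, b7, b6]
  · refine b9 x (hx 0) (hx 3) (hx 2) (hx 1) ?_ ?_ <;> obtain ⟨c, _ | _⟩ := x <;> rintro rfl
    exacts [hx' 2 rfl, hx' 0 rfl, hx' 1 rfl, hx' 3 rfl]

omit [Finite Vx] in
lemma Map1_pick {s₁ s₂ : St G} {k : Perm (G.Dart × Bool)} (h : k = s₁.f ∨ k = s₂.f) :
    ∃ t : St G, (t = s₁ ∨ t = s₂) ∧ k = t.f :=
  h.elim (fun e => ⟨s₁, .inl rfl, e⟩) fun e => ⟨s₂, .inr rfl, e⟩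

omit [Finite Vx] in
lemma Map1_LL {v : Vx} (h : s.Act D) {e : Fin 3 → (G.Dart × Bool) × (G.Dart × Bool)}
    (H : LL s.f {h | h.1 ∈ D} e)
    (he : ∀ i, ∃ c ∈ D, c.fst = v ∧ e i = ((c, true), (s.π c, false))) : s.P2 D v := by
  obtain ⟨i, j, h1, h2⟩ := H
  obtain ⟨c, c1, c2, c3⟩ := he i
  obtain ⟨d, d1, d2, d3⟩ := he j
  rw [c3] at h1
  rw [d3] at h2
  exact ⟨⟨h, c, c1, c2, h1⟩, d, d1, d2, h2⟩

omit [Finite Vx] in
lemma Map1_torus {t : G.Dart} (h1 : s.π t = t) (h2 : s.π t.symm = t.symm) :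
    One s.f {h | h.1 ∈ ({t, t.symm} : Set G.Dart)} := by
  have i1 : s.π⁻¹ t = t := Perm.inv_eq_iff_eq.2 h1.symm
  have i2 : s.π⁻¹ t.symm = t.symm := Perm.inv_eq_iff_eq.2 h2.symm
  have a1 : s.f.SameCycle (t, true) (t.symm, !s.sg t) := by
    rw [← s.flip, ← Perm.sameCycle_apply_left, f_true, h1]
  have a2 : s.f.SameCycle (t, false) (t.symm, s.sg t) := by
    rw [← Perm.sameCycle_apply_left, f_false, i1, s.flip, Bool.not_not]
  have a3 : s.f.SameCycle (t.symm, true) (t, s.sg t) := by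
    rw [← Perm.sameCycle_apply_left, f_true, h2, t.symm_symm]
  have a4 : s.f.SameCycle (t.symm, false) (t, !s.sg t) := by
    rw [← Perm.sameCycle_apply_left, f_false, i2, t.symm_symm]
  have key : ∀ x ∈ {h : G.Dart × Bool | h.1 ∈ ({t, t.symm} : Set G.Dart)},
      s.f.SameCycle (t, true) x := by
    cases hs : s.sg t <;> rw [hs] at a1 a2 a3 a4 <;> rintro ⟨c, _ | _⟩ (rfl | rfl)
    exacts [a1.trans a3, (a1.trans a3).trans a2, .refl _ _, a1,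
      a1.trans a4, a1, .refl _ _, a3.symm]
  exact fun x hx y hy => (key x hx).symm.trans (key y hy)

theorem P1.step (h : s.P1 D) (full : ∀ v, ∃ c ∈ D, c.fst = v) {a : G.Dart} (ha : a ∉ D) :
    ∃ t : St G, t.Q2 (D ∪ {a, a.symm}) a.fst := by
  classical
  have : Finite G.Dart := Finite.of_injective _ SimpleGraph.Dart.toProd_injective
  obtain ⟨a₀, h0, e0⟩ := full a.fst
  obtain ⟨b₀, h1, e1⟩ := full a.snd
  obtain ⟨s₁, s₂, hA, I₁, I₂⟩ := h.1.insert ha h0 e0 h1 e1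
  obtain ⟨k, hk, H⟩ := ins_one (U := {h : G.Dart × Bool | h.1 ∈ D}) I₁ I₂
    ⟨h0, h.1.π_mem h0, h1, h.1.π_mem h1⟩ h.2
  obtain ⟨t, ht, rfl⟩ := Map1_pick hk
  obtain ⟨t1, t2, t3, -⟩ := hA t ht
  rw [← Map1_set] at H
  rcases H with H | H
  · exact ⟨t, t1, a₀, .inl h0, e0, t2.symm ▸ H⟩
  · exact ⟨t, t1, a, .inr (.inl rfl), rfl, t3.symm ▸ H⟩

theorem Q2.step {a : G.Dart} (h : s.Q2 D a.fst) (full : ∀ v, ∃ c ∈ D, c.fst = v) (ha : a ∉ D) :
    ∃ t : St G, t.Mid (D ∪ {a, a.symm}) a.fst := by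
  classical
  have : Finite G.Dart := Finite.of_injective _ SimpleGraph.Dart.toProd_injective
  obtain ⟨hs, a₀, h0, e0, H0⟩ := h
  obtain ⟨b₀, h1, e1⟩ := full a.snd
  obtain ⟨s₁, s₂, hA, I₁, I₂⟩ := hs.insert ha h0 e0 h1 e1
  obtain ⟨k, hk, H⟩ := ins_two (U := {h : G.Dart × Bool | h.1 ∈ D}) I₁ I₂ ⟨h1, hs.π_mem h1⟩ H0
  obtain ⟨t, ht, rfl⟩ := Map1_pick hk
  obtain ⟨t1, t2, t3, -⟩ := hA t ht
  rw [← Map1_set] at H
  refine ⟨t, t1, a₀, .inl h0, a, .inr (.inl rfl), e0, rfl, fun e => ha (e ▸ h0), ?_⟩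
  rw [t2, t3]
  exact H

theorem Mid.step {a : G.Dart} (h : s.Mid D a.fst) (full : ∀ v, ∃ c ∈ D, c.fst = v) (ha : a ∉ D) :
    ∃ t : St G, t.P2 (D ∪ {a, a.symm}) a.fst := by
  classical
  have : Finite G.Dart := Finite.of_injective _ SimpleGraph.Dart.toProd_injective
  obtain ⟨hs, a₁, h1, a₂, h2, e1, e2, hne, H0⟩ := h
  obtain ⟨b₀, h3, e3⟩ := full a.snd
  obtain ⟨s₁, s₂, hA, I₁, I₂⟩ := hs.insert ha h1 e1 h3 e3
  obtain ⟨s₃, s₄, hB, I₃, I₄⟩ := hs.insert ha h2 e2 h3 e3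
  rcases ins_mid (U := {h : G.Dart × Bool | h.1 ∈ D}) I₁ I₂ I₃ I₄
    ⟨fun e => hne (Prod.mk.inj e).1, by simp, by simp,
      fun e => hne (s.π.injective (Prod.mk.inj e).1)⟩
    ⟨h1, hs.π_mem h1, h3, hs.π_mem h3⟩ H0 with ⟨k, hk, H⟩ | ⟨k, hk, H⟩
  · obtain ⟨t, ht, rfl⟩ := Map1_pick hk
    obtain ⟨t1, t2, t3, t4⟩ := hA t ht
    rw [← Map1_set] at H
    refine ⟨t, Map1_LL t1 H fun i => ?_⟩
    fin_cases i
    · exact ⟨a₁, .inl h1, e1, by rw [t2]; rfl⟩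
    · exact ⟨a, .inr (.inl rfl), rfl, by rw [t3]; rfl⟩
    · exact ⟨a₂, .inl h2, e2, by rw [t4 a₂ e2 hne.symm fun e => ha (e ▸ h2)]; rfl⟩
  · obtain ⟨t, ht, rfl⟩ := Map1_pick hk
    obtain ⟨t1, t2, t3, t4⟩ := hB t ht
    rw [← Map1_set] at H
    refine ⟨t, Map1_LL t1 H fun i => ?_⟩
    fin_cases i
    · exact ⟨a₂, .inl h2, e2, by rw [t2]; rfl⟩
    · exact ⟨a, .inr (.inl rfl), rfl, by rw [t3]; rfl⟩
    · exact ⟨a₁, .inl h1, e1, by rw [t4 a₁ e1 hne fun e => ha (e ▸ h1)]; rfl⟩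

theorem P2.step {a : G.Dart} (h : s.P2 D a.fst) (full : ∀ v, ∃ c ∈ D, c.fst = v) (ha : a ∉ D) :
    ∃ t : St G, t.P1 (D ∪ {a, a.symm}) := by
  classical
  have : Finite G.Dart := Finite.of_injective _ SimpleGraph.Dart.toProd_injective
  obtain ⟨⟨hs, a₁, h1, e1, H1⟩, a₂, h2, e2, H2⟩ := h
  obtain ⟨b₀, h3, e3⟩ := full a.snd
  have fin : ∀ a₀ ∈ D, a₀.fst = a.fst →
      ((Two s.f {h | h.1 ∈ D} (a₀, true) (s.π a₀, false) ∧
        s.f.SameCycle (b₀, true) (s.π b₀, false)) ∨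
      (Two s.f {h | h.1 ∈ D} (b₀, true) (s.π b₀, false) ∧
        s.f.SameCycle (a₀, true) (s.π a₀, false))) → ∃ t : St G, t.P1 (D ∪ {a, a.symm}) := by
    intro a₀ h0 e0 H0
    obtain ⟨s₁, s₂, hA, I₁, I₂⟩ := hs.insert ha h0 e0 h3 e3
    obtain ⟨k, hk, H⟩ := ins_fin (U := {h : G.Dart × Bool | h.1 ∈ D}) I₁ I₂
      ⟨h0, hs.π_mem h0, h3, hs.π_mem h3⟩ H0
    obtain ⟨t, ht, rfl⟩ := Map1_pick hk
    rw [← Map1_set] at H
    exact ⟨t, (hA t ht).1, H⟩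
  by_cases hb : s.f.SameCycle (b₀, true) (s.π b₀, false)
  · exact fin a₁ h1 e1 (.inl ⟨H1, hb⟩)
  · refine fin a₂ h2 e2 (.inr ⟨⟨hb, fun z hz => ?_⟩, H2⟩)
    rcases H1.2 (b₀, true) h3 with u | u <;> rcases H1.2 (s.π b₀, false) (hs.π_mem h3) with v | v
    · exact (hb (u.trans v.symm)).elim
    · exact (H1.2 z hz).imp (fun w => w.trans u.symm) fun w => w.trans v.symm
    · exact (H1.2 z hz).symm.imp (fun w => w.trans u.symm) fun w => w.trans v.symm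
    · exact (hb (u.trans v.symm)).elim

/-- A new torus `t` is attached by the crossing `a`. -/
theorem P1.grow (h : s.P1 D) {t a : G.Dart} (ht : ∀ c ∈ D, c.fst ≠ t.fst ∧ c.fst ≠ t.snd)
    (h0 : ∃ c ∈ D, c.fst = a.fst) (e : a.snd = t.snd) :
    ∃ s' : St G, s'.P1 (D ∪ {t, t.symm} ∪ {a, a.symm}) := by
  classical
  have : Finite G.Dart := Finite.of_injective _ SimpleGraph.Dart.toProd_injective
  obtain ⟨a₀, h1, e1⟩ := h0
  have t1 : t ∉ D := fun h2 => (ht t h2).1 rfl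
  have t2 : t.symm ∉ D := fun h2 => (ht _ h2).2 rfl
  have p1 := h.1.fix _ t1
  have p2 := h.1.fix _ t2
  have hs : s.Act (D ∪ {t, t.symm}) := by
    refine ⟨?_, fun c hc => h.1.fix c fun h2 => hc (.inl h2), ?_⟩
    · rintro c (hc | rfl | rfl)
      · exact .inl (h.1.symm c hc)
      · exact .inr (.inr rfl)
      · exact .inr (.inl t.symm_symm)
    · rintro c (hc | rfl | rfl) c' (hc' | rfl | rfl) ec
      · exact h.1.cyc c hc c' hc' ec
      · exact ((ht c hc).1 ec).elim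
      · exact ((ht c hc).2 ec).elim
      · exact ((ht c' hc').1 ec.symm).elim
      · exact .refl _ _
      · exact (c.fst_ne_snd ec).elim
      · exact ((ht c' hc').2 ec.symm).elim
      · exact (c'.fst_ne_snd ec.symm).elim
      · exact .refl _ _
  have ha : a ∉ D ∪ {t, t.symm} := by
    rintro (h2 | rfl | rfl)
    · exact (ht _ (h.1.symm a h2)).2 e
    · exact (ht a₀ h1).1 e1
    · exact t.fst_ne_snd e
  obtain ⟨s₁, s₂, hA, I₁, -⟩ := hs.insert (b₀ := t.symm) ha (.inl h1) e1 (.inr (.inr rfl)) e.symm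
  refine ⟨s₁, (hA s₁ (.inl rfl)).1, ?_⟩
  rw [Map1_set]
  refine ins_merge (U := {h : G.Dart × Bool | h.1 ∈ D})
    (U' := {h : G.Dart × Bool | h.1 ∈ ({t, t.symm} : Set G.Dart)}) I₁
    ⟨h1, h.1.π_mem h1⟩ ⟨.inr rfl, .inr p2⟩ h.2 (Map1_torus p1 p2) fun hc => t2 ?_
  refine Map1_closed (U := fun x : G.Dart × Bool => x.1 ∈ D) ?_ hc h1
  rintro ⟨c, _ | _⟩ hc
  · rw [f_false]
    exact h.1.symm _ (Map1_inv_mem h.1 hc)
  · rw [f_true]
    exact h.1.symm _ (h.1.π_mem hc)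

theorem exists_torus (t : G.Dart) : ∃ s : St G, s.P1 {t, t.symm} := by
  refine ⟨⟨1, fun a => decide (Finite.equivFin Vx a.fst < Finite.equivFin Vx a.snd),
    fun _ => rfl, fun a => ?_⟩, ⟨?_, fun _ _ => rfl, ?_⟩, Map1_torus rfl rfl⟩
  · have h : Finite.equivFin Vx a.fst ≠ Finite.equivFin Vx a.snd :=
      fun e => a.fst_ne_snd ((Finite.equivFin Vx).injective e)
    change decide (Finite.equivFin Vx a.snd < Finite.equivFin Vx a.fst) = _
    rw [← decide_not, decide_eq_decide, not_lt]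
    exact ⟨le_of_lt, fun h1 => lt_of_le_of_ne h1 h.symm⟩
  · rintro c (rfl | rfl)
    · exact .inr rfl
    · exact .inl t.symm_symm
  · rintro c (rfl | rfl) c' (rfl | rfl) ec
    · exact .refl _ _
    · exact (c.fst_ne_snd ec).elim
    · exact (c'.fst_ne_snd ec.symm).elim
    · exact .refl _ _

end St

end

end Pool.Agent.P.MP_d39174_gt
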