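import Pool.Agent.P.MP_d39174_gt.CmbDef

/-! Insertion of a crossing into a system of curves: definitions. -/

namespace Pool.Agent.P.MP_d39174_gt

open UpperHalfPlane MatrixGroups

noncomputable section

open Equiv

/-- `c` is the first return map of `f` on the marked points `e`. -/
def Ret {S ι : Type} (f : Perm S) (e : ι → S) (c : ι → ι) : Prop :=
  ∀ i, ∃ n, 0 < n ∧ (f ^ n) (e i) = e (c i) ∧ ∀ m, 0 < m → m < n → ∀ j, (f ^ m) (e i) ≠ e j

/-- The face permutation after inserting a crossing of the arcs `(o 0, o 2)` and `(o 1, o 3)`. -/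
structure Ins {S : Type} (f f' : Perm S) (o nw : Fin 4 → S) : Prop where
  oi : Function.Injective o
  ni : Function.Injective nw
  dis : ∀ i j, o i ≠ nw j
  inv : ∀ i, ∃ j, f (nw i) = nw j
  h1 : ∀ i, f' (o i) = nw (i + 1)
  h2 : ∀ i, f' (nw i) = f (o i)
  h3 : ∀ x, (∀ i, x ≠ o i) → (∀ i, x ≠ nw i) → f' x = f x

/-- One face. -/
def One {S : Type} (f : Perm S) (U : Set S) : Prop := ∀ x ∈ U, ∀ y ∈ U, f.SameCycle x y

/-- Two faces, one through `x` and one through `y`. -/
def Two {S : Type} (f : Perm S) (U : Set S) (x y : S) : Prop :=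
  ¬ f.SameCycle x y ∧ ∀ z ∈ U, f.SameCycle z x ∨ f.SameCycle z y

/-- Among three arcs there is a link between the two faces and a loop. -/
def LL {S : Type} (f : Perm S) (U : Set S) (e : Fin 3 → S × S) : Prop :=
  ∃ i j, Two f U (e i).1 (e i).2 ∧ f.SameCycle (e j).1 (e j).2

/-- Cyclic orders of the crossings along each curve and signs of the crossings. -/
structure St {Vx : Type} (G : SimpleGraph Vx) where
  π : Perm G.Dart
  sg : G.Dart → Bool
  fst : ∀ a, (π a).fst = a.fst
  flip : ∀ a, sg a.symm = !sg a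

namespace St

variable {Vx : Type} {G : SimpleGraph Vx} (s : St G)

/-- Reversal of an oriented arc. -/
def α : Perm (G.Dart × Bool) where
  toFun h := (if h.2 then s.π h.1 else s.π⁻¹ h.1, !h.2)
  invFun h := (if h.2 then s.π h.1 else s.π⁻¹ h.1, !h.2)
  left_inv := by rintro ⟨a, _ | _⟩ <;> simp
  right_inv := by rintro ⟨a, _ | _⟩ <;> simp

/-- Turning an oriented arc about its initial point. -/
def ρ : Perm (G.Dart × Bool) where
  toFun h := (h.1.symm, xor h.2 (s.sg h.1))
  invFun h := (h.1.symm, xor h.2 (s.sg h.1.symm))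
  left_inv := by rintro ⟨a, b⟩; simp
  right_inv := by rintro ⟨a, b⟩; simp

/-- The face permutation. -/
def f : Perm (G.Dart × Bool) := s.ρ⁻¹ * s.α

lemma α_true (a : G.Dart) : s.α (a, true) = (s.π a, false) := rfl
lemma α_false (a : G.Dart) : s.α (a, false) = (s.π⁻¹ a, true) := rfl
lemma ρ_apply (a : G.Dart) (b : Bool) : s.ρ (a, b) = (a.symm, xor b (s.sg a)) := rfl
lemma f_true (a : G.Dart) : s.f (a, true) = ((s.π a).symm, s.sg (s.π a).symm) := by
  change ((s.π a).symm, xor false (s.sg (s.π a).symm)) = _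
  simp
lemma f_false (a : G.Dart) : s.f (a, false) = ((s.π⁻¹ a).symm, !s.sg (s.π⁻¹ a).symm) := by
  change ((s.π⁻¹ a).symm, xor true (s.sg (s.π⁻¹ a).symm)) = _
  simp

/-- The crossings in `D` are inserted, the others are not. -/
structure Act (D : Set G.Dart) : Prop where
  symm : ∀ a ∈ D, a.symm ∈ D
  fix : ∀ a, a ∉ D → s.π a = a
  cyc : ∀ a ∈ D, ∀ b ∈ D, a.fst = b.fst → s.π.SameCycle a b

/-- One face. -/
def P1 (D : Set G.Dart) : Prop := s.Act D ∧ One s.f {h | h.1 ∈ D}

/-- Two faces and a link on the curve `v`. -/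
def Q2 (D : Set G.Dart) (v : Vx) : Prop :=
  s.Act D ∧ ∃ a ∈ D, a.fst = v ∧ Two s.f {h | h.1 ∈ D} (a, true) (s.π a, false)

/-- Two faces, a link and a loop on the curve `v`. -/
def P2 (D : Set G.Dart) (v : Vx) : Prop :=
  s.Q2 D v ∧ ∃ a ∈ D, a.fst = v ∧ s.f.SameCycle (a, true) (s.π a, false)

open Classical in
/-- The intermediate state (one face with interlaced arcs, or three faces). -/
def Mid (D : Set G.Dart) (v : Vx) : Prop :=
  s.Act D ∧ ∃ a ∈ D, ∃ a' ∈ D, a.fst = v ∧ a'.fst = v ∧ a ≠ a' ∧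
    Two (s.f * swap (a, true) (s.π a, false)) {h | h.1 ∈ D} (a', true) (s.π a', false)

end St

end

end Pool.Agent.P.MP_d39174_gt
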