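import Pool.Agent.P.MP_d39174_gt.PermA

/-! Counting involutions. -/

namespace Pool.Agent.P.MP_d39174_gt

open UpperHalfPlane MatrixGroups

noncomputable section

open Equiv Equiv.Perm

section

variable {X : Type} [Fintype X] [DecidableEq X]

lemma permB_split {j : Perm X} (hj : ∀ x, j (j x) = x) {x : X} (hx : j x ≠ x) :
    (∀ y, (swap x (j x) * j) ((swap x (j x) * j) y) = y) ∧
      (swap x (j x) * j).support.card + 2 = j.support.card ∧
      ∀ y, y ≠ x → y ≠ j x → (swap x (j x) * j) y = j y := by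
  have h1 : (swap x (j x) * j) x = x := by simp
  have h2 : (swap x (j x) * j) (j x) = j x := by simp [hj]
  have h3 : ∀ y, y ≠ x → y ≠ j x → (swap x (j x) * j) y = j y := fun y a b =>
    swap_apply_of_ne_of_ne (fun e => b (by rw [← e, hj])) fun e => a (j.injective e)
  refine ⟨fun y => ?_, ?_, h3⟩
  · by_cases a : y = x
    · rw [a, h1, h1]
    by_cases b : y = j x
    · rw [b, h2, h2]
    rw [h3 y a b, h3 _ (fun e => b (by rw [← e, hj])) fun e => a (j.injective e), hj]
  · have h4 : j.support = insert x (insert (j x) (swap x (j x) * j).support) := by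
      ext y
      by_cases a : y = x
      · simp [a, hx]
      by_cases b : y = j x
      · simp [b, hj, hx.symm]
      simp only [mem_support, Finset.mem_insert, a, b, false_or, h3 y a b]
    rw [h4, Finset.card_insert_of_notMem, Finset.card_insert_of_notMem]
    · simp only [mem_support, h2, ne_eq, not_true, not_false_iff]
    · simp only [Finset.mem_insert, mem_support, h1, hx.symm, ne_eq, not_true, or_self, not_false_iff]

lemma permB_le (m : ℕ) : ∀ σ j : Perm X, (∀ x, j (j x) = x) → j.support.card = m →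
    2 * cyc (σ * j) ≤ 2 * cyc σ + m := by
  induction m using Nat.strong_induction_on with
  | _ m ih =>
    intro σ j hj hm
    by_cases h : ∃ x, j x ≠ x
    · obtain ⟨x, hx⟩ := h
      obtain ⟨h1, h2, -⟩ := permB_split hj hx
      have h3 := ih _ (by omega) (σ * swap x (j x)) _ h1 rfl
      have h4 := cyc_mul_swap_le σ x (j x)
      rw [mul_assoc, swap_mul_self_mul] at h3
      omega
    · obtain rfl : j = 1 := Equiv.ext fun x => not_not.1 fun e => h ⟨x, e⟩
      simp

end

lemma permB_ext {n : ℕ} {j j' : Perm (Fin n)} (hj : ∀ x, j (j x) = x) (hj' : ∀ x, j' (j' x) = x)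
    (h : ∀ x, x < j x ∨ x < j' x → j x = j' x) : j = j' := by
  refine Equiv.ext fun x => ?_
  by_cases h1 : x < j x ∨ x < j' x
  · exact h x h1
  rw [not_or, not_lt, not_lt] at h1
  rcases h1.1.lt_or_eq with h2 | h2
  · have := h (j x) (Or.inl (by rwa [hj]))
    rw [hj] at this
    exact j'.injective (this.symm.trans (hj' x).symm)
  rcases h1.2.lt_or_eq with h3 | h3
  · have := h (j' x) (Or.inr (by rwa [hj']))
    rw [hj'] at this
    exact j.injective ((hj x).trans this.symm)
  · rw [h2, h3]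

lemma permB_card {α β : Type} [Finite β] (S : Set α) (R : α → β → Prop) (h1 : ∀ a ∈ S, ∃ b, R a b)
    (h2 : ∀ a ∈ S, ∀ a' ∈ S, ∀ b, R a b → R a' b → a = a') : S.Finite ∧ S.ncard ≤ Nat.card β := by
  choose f hf using h1
  have h3 : Function.Injective fun a : S => f a.1 a.2 := fun a a' e =>
    Subtype.ext (h2 _ a.2 _ a'.2 _ (hf _ a.2) (by
      rw [show f a.1 a.2 = f a'.1 a'.2 from e]
      exact hf _ a'.2))
  exact ⟨Finite.of_injective _ h3, Nat.card_le_card_of_injective _ h3⟩

/-- An involution that splits a full cycle maximally is non-crossing. -/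
lemma MaxSplit.noncross {n : ℕ} {j : Perm (Fin n)} (h : MaxSplit (finRotate n) j) {a b : Fin n}
    (h1 : a < b) (h2 : b < j a) : j b < j a := by
  by_contra h3
  have h4 : j a < j b := lt_of_le_of_ne (not_lt.1 h3) fun e => h1.ne (j.injective e)
  obtain ⟨a1, a2, a3⟩ := permB_split h.1 (h1.trans h2).ne'
  have a4 := a3 b h1.ne' h2.ne
  obtain ⟨b1, b2, -⟩ := permB_split a1 (x := b) (a4 ▸ (h2.trans h4).ne')
  rw [a4] at b1 b2
  obtain ⟨n, rfl⟩ : ∃ m, n = m + 2 := ⟨n - 2, by have := b.2; have := Fin.lt_def.1 h1; omega⟩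
  have c1 : cyc (finRotate (n + 2)) = 1 := (cyc_eq_one_iff _).2 fun x y =>
    isCycle_finRotate.sameCycle (mem_support.1 (support_finRotate ▸ Finset.mem_univ x))
      (mem_support.1 (support_finRotate ▸ Finset.mem_univ y))
  have c2 : ∀ i : ℕ, a < ((finRotate (n + 2) * swap a (j a)) ^ i) b ∧
      ((finRotate (n + 2) * swap a (j a)) ^ i) b ≤ j a := fun i => by
    induction i with
    | zero => exact ⟨h1, h2.le⟩
    | succ i ih =>
      rw [pow_succ', Perm.mul_apply, Perm.mul_apply]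
      generalize ((finRotate (n + 2) * swap a (j a)) ^ i) b = x at ih
      have key : ∀ y, a ≤ y → y < j a → a < finRotate (n + 2) y ∧ finRotate (n + 2) y ≤ j a :=
        fun y d1 d2 => by
          have : (finRotate (n + 2) y : ℕ) = y + 1 :=
            coe_finRotate_of_ne_last (d2.trans_le (Fin.le_last _)).ne
          simp only [Fin.lt_def, Fin.le_def] at d1 d2 ⊢
          omega
      rcases ih.2.lt_or_eq with d | d
      · rw [swap_apply_of_ne_of_ne ih.1.ne' d.ne]
        exact key x ih.1.le d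
      · rw [d, swap_apply_right]
        exact key a le_rfl (h1.trans h2)
  have c3 := cyc_mul_swap (σ := finRotate (n + 2) * swap a (j a)) (x := b) (y := j b) fun e => by
    obtain ⟨i, hi⟩ := e.exists_nat_pow_eq
    exact h3 (lt_of_le_of_ne (hi ▸ (c2 i).2) h4.ne')
  have c4 := cyc_mul_swap_le (finRotate (n + 2)) a (j a)
  have c5 := permB_le _ (finRotate (n + 2) * swap a (j a) * swap b (j b)) _ b1 rfl
  rw [mul_assoc, swap_mul_self_mul, mul_assoc, swap_mul_self_mul] at c5
  have c6 := h.2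
  omega
lemma ncard_maxSplit_rot (n : ℕ) :
    {j : Perm (Fin n) | MaxSplit (finRotate n) j}.ncard ≤ 4 ^ n := by
  have key : ∀ j j' : Perm (Fin n), MaxSplit (finRotate n) j → (∀ x, j' (j' x) = x) →
      (∀ x, x < j' x → x < j x) → ∀ y, j' y < y → (∀ z < y, j z < z → j z = j' z) →
      ¬ j y < j' y := fun j j' h h' ho y hy ih e => by
    have h1 := h.noncross e (by rwa [h.1])
    rw [h.1] at h1
    have h2 := ih _ h1 (by
      rw [h.1]
      exact ho _ (by rwa [h']))
    rw [h.1] at h2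
    exact h1.ne' (j'.injective h2)
  refine (permB_card _ (fun j (p : Set (Fin n) × Set (Fin n)) =>
    p = ({x | x < j x}, {x | j x < x})) (fun j _ => ⟨_, rfl⟩) fun j h j' h' p e e' => ?_).2.trans_eq ?_
  · obtain ⟨e1, e2⟩ := Prod.ext_iff.1 (e.symm.trans e')
    have o : ∀ x, x < j x ↔ x < j' x := Set.ext_iff.1 e1
    have c : ∀ x, j x < x ↔ j' x < x := Set.ext_iff.1 e2
    have h1 : ∀ y, j y < y → j y = j' y := fun y => by
      induction y using WellFoundedLT.induction with
      | ind y ih =>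
        exact fun hy => le_antisymm
          (not_lt.1 (key j' j h' h.1 (fun x => (o x).1) y hy fun z hz d => (ih z hz ((c z).2 d)).symm))
          (not_lt.1 (key j j' h h'.1 (fun x => (o x).2) y ((c y).1 hy) ih))
    refine permB_ext h.1 h'.1 fun x hx => ?_
    have h2 := h1 (j x) (by
      rw [h.1]
      exact hx.elim id (o x).2)
    rw [h.1] at h2
    exact j'.injective (h2.symm.trans (h'.1 x).symm)
  · simp [← mul_pow]
lemma ncard_maxSplit {n : ℕ} {c : Perm (Fin n)} (h : cyc c = 1) :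
    {j : Perm (Fin n) | MaxSplit c j}.ncard ≤ 4 ^ n := by
  obtain ⟨e, he⟩ := exists_rotate h
  refine (Set.ncard_le_ncard_of_injOn e.permCongr (fun j hj => ?_)
    e.permCongr.injective.injOn).trans ((ncard_maxSplit_rot _).trans_eq (by simp))
  refine ⟨fun x => by simp [hj.1], ?_⟩
  rw [← he, ← permCongr_mul, cyc_permCongr, ← hj.2]
  congr 1
  exact (Finset.card_equiv e fun x => by simp).symm
lemma ncard_invol (n r : ℕ) :
    {j : Perm (Fin n) | (∀ x, j (j x) = x) ∧ j.support.card = 2 * r}.ncard ≤ 2 ^ n * n ^ r := by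
  refine (permB_card _ (fun j (p : Finset (Fin n) × (Fin r → Fin n)) =>
    (∀ x, x ∈ p.1 ↔ x < j x) ∧ ∃ h : p.1.card = r, ∀ i, p.2 i = j (p.1.orderEmbOfFin h i))
    (fun j hj => ?_) fun j h j' h' p e e' => permB_ext h.1 h'.1 fun x hx => ?_).2.trans_eq (by simp)
  · have h1 : (Finset.univ.filter fun x => x < j x).card = r := by
      have h2 := Finset.card_filter_add_card_filter_not (s := j.support) fun x => x < j x
      have h3 : (j.support.filter fun x => x < j x) = Finset.univ.filter fun x => x < j x := by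
        ext x
        simpa using fun h => h.ne'
      have h4 : (Finset.univ.filter fun x => x < j x).card =
          (j.support.filter fun x => ¬ x < j x).card := Finset.card_equiv j fun x => by
        simp only [Finset.mem_filter, Finset.mem_univ, true_and, mem_support, hj.1, not_lt]
        exact lt_iff_le_and_ne.trans and_comm
      have h5 := hj.2
      rw [h3] at h2
      omega
    exact ⟨(_, fun i => j (Finset.orderEmbOfFin _ h1 i)), by simp, h1, fun _ => rfl⟩
  · obtain ⟨e1, h1, e2⟩ := e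
    obtain ⟨e3, h2, e4⟩ := e'
    obtain ⟨i, rfl⟩ : x ∈ Set.range (p.1.orderEmbOfFin h1) := by
      rw [Finset.range_orderEmbOfFin]
      exact hx.elim (e1 x).2 (e3 x).2
    rw [← e2, e4]
lemma ncard_lab (n r : ℕ) :
    {p : Perm (Fin n) × Perm (Fin n) | Lab n r p.1 p.2}.ncard ≤ 32 ^ n * n ^ r := by
  classical
  set I := Finset.univ.filter fun j : Perm (Fin n) =>
    ((∀ x, j (j x) = x) ∧ j.support.card = 2 * r) ∧ cyc (finRotate n * j) = 1 with hI
  have h1 : I.card ≤ 2 ^ n * n ^ r := by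
    rw [← Set.ncard_coe_finset]
    exact (Set.ncard_le_ncard (fun j hj => (Finset.mem_filter.1 hj).2.1)).trans (ncard_invol n r)
  calc _ ≤ (⋃ jR ∈ I, (fun q : Perm (Fin n) × Perm (Fin n) => (q.1 * q.2 * jR, finRotate n * q.1)) ''
        ({j | MaxSplit (finRotate n) j} ×ˢ {j | MaxSplit (finRotate n * jR) j})).ncard := by
        refine Set.ncard_le_ncard ?_
        rintro ⟨ι, ν⟩ ⟨jT, jS, jR, a1, a2, a3, a4, a5, rfl, rfl⟩
        exact Set.mem_biUnion (Finset.mem_filter.2 ⟨Finset.mem_univ _, ⟨a2, a3⟩, a4⟩)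
          ⟨(jT, jS), ⟨a1, a5⟩, rfl⟩
    _ ≤ I.card • (4 ^ n * 4 ^ n) := (I.set_ncard_biUnion_le _).trans (Finset.sum_le_card_nsmul _ _ _
        fun jR hj => (Set.ncard_image_le (Set.toFinite _)).trans (Set.ncard_prod.trans_le
          (Nat.mul_le_mul (ncard_maxSplit_rot n) (ncard_maxSplit (Finset.mem_filter.1 hj).2.2))))
    _ ≤ 2 ^ n * n ^ r * (4 ^ n * 4 ^ n) := Nat.mul_le_mul_right _ h1
    _ = _ := by rw [mul_right_comm, ← mul_pow, ← mul_pow]; rfl
/-- Functions to `ℕ` with bounded sum. -/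
lemma ncard_sum_le {I : Type} [Fintype I] (b : ℕ) :
    {f : I → ℕ | ∑ i, f i ≤ b}.Finite ∧
      {f : I → ℕ | ∑ i, f i ≤ b}.ncard ≤ 2 ^ (b + Fintype.card I) := by
  classical
  refine (permB_card _ (fun f (s : Sym (Option I) b) => ∀ i, s.1.count (some i) = f i)
    (fun f hf => ⟨⟨∑ o : Option I, Multiset.replicate (o.elim (b - ∑ i, f i) f) o, ?_⟩, fun i => ?_⟩)
    fun f _ f' _ s e e' => funext fun i => (e i).symm.trans (e' i)).imp_right fun h => h.trans ?_
  · rw [Multiset.card_sum]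
    simp only [Multiset.card_replicate, Fintype.sum_option, Option.elim]
    exact Nat.sub_add_cancel hf
  · simp [Multiset.count_sum', Multiset.count_replicate]
  · rw [Nat.card_eq_fintype_card, Sym.card_sym_eq_choose, Fintype.card_option]
    exact (Nat.choose_le_two_pow _ _).trans_eq (by congr 1; omega)
lemma ncard_canon (n D₀ r k b : ℕ) : (Canon n D₀ r k b).Finite ∧
    (Canon n D₀ r k b).ncard ≤
      64 ^ n * n ^ (r + k) * (6 * D₀) ^ (n * D₀) * 4 ^ (b + n * D₀) := by
  obtain ⟨f1, f2⟩ := ncard_sum_le (I := Fin n × Fin D₀) b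
  set T := {p : Perm (Fin n) × Perm (Fin n) | Lab n r p.1 p.2} ×ˢ
    {j : Perm (Fin n) | (∀ x, j (j x) = x) ∧ j.support.card = 2 * k} ×ˢ
    (Set.univ : Set ((Fin n × Fin D₀ → Bool) × (Fin n × Fin D₀ → Fin 3) ×
      (Fin n × Fin D₀ → Fin D₀))) ×ˢ
    {f : Fin n × Fin D₀ → ℕ | ∑ i, f i ≤ b} ×ˢ {f : Fin n × Fin D₀ → ℕ | ∑ i, f i ≤ b} with hT
  have h1 : T.Finite := (Set.toFinite _).prod ((Set.toFinite _).prod
    ((Set.toFinite _).prod (f1.prod f1)))
  have h2 : Set.MapsTo (fun M : Mdl (Fin n) (Fin n × Fin D₀) =>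
      ((M.ι, M.ν), M.κ, (M.on, M.kd, fun s => (M.nx s).2), M.oi, M.oj)) (Canon n D₀ r k b) T :=
    fun M hM => ⟨hM.1, ⟨hM.2.1, hM.2.2.1⟩, trivial, hM.2.2.2.2.2⟩
  have h3 : Set.InjOn (fun M : Mdl (Fin n) (Fin n × Fin D₀) =>
      ((M.ι, M.ν), M.κ, (M.on, M.kd, fun s => (M.nx s).2), M.oi, M.oj)) (Canon n D₀ r k b) := by
    rintro ⟨ι, ν, κ, on, bs, kd, oi, oj, nx⟩ ⟨-, -, -, a1, a2, -⟩
      ⟨ι', ν', κ', on', bs', kd', oi', oj', nx'⟩ ⟨-, -, -, b1, b2, -⟩ e
    simp only [Prod.mk.injEq] at e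
    obtain ⟨⟨rfl, rfl⟩, rfl, ⟨rfl, rfl, e⟩, rfl, rfl⟩ := e
    obtain rfl : bs = bs' := funext fun s => (a1 s).trans (b1 s).symm
    obtain rfl : nx = nx' := funext fun s => Prod.ext ((a2 s).trans (b2 s).symm) (congrFun e s)
    rfl
  refine ⟨Set.Finite.of_injOn h2 h3 h1, (Set.ncard_le_ncard_of_injOn _ h2 h3 h1).trans ?_⟩
  simp only [hT, Set.ncard_prod, Set.ncard_univ, Nat.card_eq_fintype_card, Fintype.card_prod,
    Fintype.card_fun, Fintype.card_fin, Fintype.card_bool] at f2 ⊢
  refine (Nat.mul_le_mul (ncard_lab n r) (Nat.mul_le_mul (ncard_invol n k)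
    (Nat.mul_le_mul_left _ (Nat.mul_le_mul f2 f2)))).trans_eq ?_
  rw [show 64 = 32 * 2 from rfl, show 6 = 2 * 3 from rfl, show 4 = 2 * 2 from rfl]
  simp only [mul_pow, pow_add]
  ring

end

end Pool.Agent.P.MP_d39174_gt
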