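import Pool.Agent.P.MP_d39174_gt.PolyDef

/-! Identities in the polygon. -/

namespace Pool.Agent.P.MP_d39174_gt

open UpperHalfPlane MatrixGroups

noncomputable section

open Equiv

/-- `SL(2, ℝ)` is transitive on unit tangent vectors. -/
lemma exists_frame {p m p' m' : V} (hp : Fut p) (hp1 : B p p = -1) (hm : B m m = 1)
    (h : B m p = 0) (hp' : Fut p') (hp1' : B p' p' = -1) (hm' : B m' m' = 1) (h' : B m' p' = 0) :
    ∃ g : SL(2, ℝ), g • p = p' ∧ g • m = m' := by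
  obtain ⟨a, ha⟩ := exists_fr hm
  obtain ⟨b, hb⟩ := exists_fr hm'
  have hk : (b * a⁻¹) • m = m' := by rw [← ha, mul_smul, inv_smul_smul, hb]
  have h0 : B m' ((b * a⁻¹) • p) = 0 := by rw [← hk, B_ad, h]
  obtain ⟨s, hs⟩ := wall_param hm' (hp.ad (b * a⁻¹)) (by rw [B_ad, hp1]) hp' hp1' h0 h'
  refine ⟨ex (s / 2) m' * (b * a⁻¹), ?_, ?_⟩
  · rw [mul_smul, ex_ad_perp hm' h0, mul_div_cancel₀ s two_ne_zero, hs]
  · rw [mul_smul, hk, ex_ad_self]

/-- The traceless part of a group element. -/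
private def Poly1_x (g : SL(2, ℝ)) : V := ⟨(g 0 0 - g 1 1) / 2, g 0 1, g 1 0⟩

private lemma Poly1_xx (g : SL(2, ℝ)) : B (Poly1_x g) (Poly1_x g) = (tr g / 2) ^ 2 - 1 := by
  have hd := det_eq g
  simp only [B, Poly1_x, tr]
  linear_combination (-1 : ℝ) * hd

private lemma Poly1_fix (g : SL(2, ℝ)) : g • Poly1_x g = Poly1_x g := by
  have hd := det_eq g
  ext
  · simp only [ad_a, Poly1_x]
    linear_combination ((g 0 0 - g 1 1) / 2) * hd
  · simp only [ad_b, Poly1_x]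
    linear_combination (g 0 1) * hd
  · simp only [ad_c, Poly1_x]
    linear_combination (g 1 0) * hd

private lemma Poly1_disp (g : SL(2, ℝ)) (z : ℍ) :
    Real.cosh (dist z (g • z)) =
      1 + 2 * B (Poly1_x g) (Poly1_x g) + 2 * B (Poly1_x g) (Hy z) ^ 2 := by
  rw [cosh_dist_eq, Hy_smul]
  have hp := Hy_unit z
  have hd := det_eq g
  generalize Hy z = p at hp
  simp only [B, Poly1_x, ad_a, ad_b, ad_c] at hp ⊢
  linear_combination
    (-(((g 0 0 + g 1 1) / 2) ^ 2 + (((g 0 0 - g 1 1) / 2) ^ 2 + g 0 1 * g 1 0))) * hp + hd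

private lemma Poly1_null {x : V} (hx : B x x = 0) :
    ∃ k : ℝ, ∀ s : ℝ, 0 < s → ∃ z : ℍ, B x (Hy z) = k * s := by
  unfold B at hx
  by_cases hc : x.c = 0
  · have ha : x.a = 0 := by
      rw [hc] at hx
      have : x.a * x.a = 0 := by linarith
      exact mul_self_eq_zero.1 this
    refine ⟨-x.b / 2, fun s hs => ⟨⟨⟨0, s⁻¹⟩, inv_pos.2 hs⟩, ?_⟩⟩
    simp only [B, Hy, ha, hc]
    change 0 * (-(0 : ℝ) / s⁻¹) + (x.b * (-1 / s⁻¹) + 0 * (((0 : ℝ) ^ 2 + s⁻¹ ^ 2) / s⁻¹)) / 2 = _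
    field_simp
    ring
  · refine ⟨x.c / 2, fun s hs => ⟨⟨⟨x.a / x.c, s⟩, hs⟩, ?_⟩⟩
    simp only [B, Hy]
    change x.a * (-(x.a / x.c) / s) +
      (x.b * (-1 / s) + x.c * (((x.a / x.c) ^ 2 + s ^ 2) / s)) / 2 = _
    have hb : x.b = -(x.a ^ 2) / x.c := by
      field_simp
      linarith
    rw [hb]
    field_simp
    ring

/-- An element that is not hyperbolic has arbitrarily small displacements. -/
private lemma Poly1_small {g : SL(2, ℝ)} (hg : |tr g| ≤ 2) {ε : ℝ} (hε : 0 < ε) :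
    ∃ z : ℍ, dist z (g • z) < ε := by
  have hx := Poly1_xx g
  have h2 : (tr g / 2) ^ 2 ≤ 1 := by
    have := abs_le.1 hg
    nlinarith [this.1, this.2]
  rcases (show B (Poly1_x g) (Poly1_x g) ≤ 0 by linarith).lt_or_eq with hlt | heq
  · rcases Fut.or_neg hlt with hf | hf
    · refine ⟨pt (Poly1_x g), ?_⟩
      rw [← pt_ad g hf, Poly1_fix, dist_self]
      exact hε
    · refine ⟨pt (-Poly1_x g), ?_⟩
      rw [← pt_ad g hf, smul_neg, Poly1_fix, dist_self]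
      exact hε
  · obtain ⟨k, hk⟩ := Poly1_null heq
    have hc : 1 < Real.cosh ε := Real.one_lt_cosh.2 hε.ne'
    have ht : Filter.Tendsto (fun s : ℝ => 1 + 2 * (k * s) ^ 2) (nhdsWithin 0 (Set.Ioi 0))
        (nhds 1) := by
      have : Continuous (fun s : ℝ => 1 + 2 * (k * s) ^ 2) := by fun_prop
      have h0 := this.tendsto 0
      simp only [mul_zero, ne_eq, OfNat.ofNat_ne_zero, not_false_eq_true, zero_pow,
        add_zero] at h0
      exact h0.mono_left nhdsWithin_le_nhds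
    obtain ⟨s, hs1, hs2⟩ := ((ht.eventually (gt_mem_nhds hc)).and self_mem_nhdsWithin).exists
    obtain ⟨z, hz⟩ := hk s hs2
    refine ⟨z, ?_⟩
    have hd := Poly1_disp g z
    rw [heq, hz] at hd
    have h3 : Real.cosh (dist z (g • z)) < Real.cosh ε := by
      rw [hd]
      linarith
    have h4 := Real.cosh_lt_cosh.1 h3
    rwa [abs_of_nonneg dist_nonneg, abs_of_pos hε] at h4

/-- A lower bound for all displacements bounds the trace. -/
lemma abs_tr_of_disp {g : SL(2, ℝ)} {l : ℝ} (hl : 0 < l) (h : ∀ z : ℍ, 2 * l ≤ dist z (g • z)) :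
    2 * Real.cosh l ≤ |tr g| := by
  by_cases h2 : 2 < |tr g|
  · obtain ⟨n, t, hn, ht, e⟩ := exists_ex h2
    obtain ⟨z, hz⟩ := exists_on_wall hn
    have h3 := h z
    rw [← e.act, dist_ex_of_wall hn t hz] at h3
    have h4 : Real.cosh l ≤ Real.cosh t := Real.cosh_le_cosh.2 (by rw [abs_of_pos hl]; linarith)
    rw [← e.abs_tr, tr_ex hn, abs_of_pos (mul_pos two_pos (Real.cosh_pos t))]
    linarith
  · obtain ⟨z, hz⟩ := Poly1_small (not_lt.1 h2) (mul_pos two_pos hl)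
    exact absurd (h z) (not_le.2 hz)

lemma o0_fut : Fut o0 := ⟨by rw [B_o0]; norm_num, one_pos⟩

lemma o0_unit : B o0 o0 = -1 := B_o0

namespace Poly

variable {Vx H : Type} {G : SimpleGraph Vx} {C : Cmb G H} (P : Poly C)

lemma y_pos (h : H) : 0 < P.y h := P.pos _

lemma c_pos (h : H) : 0 < P.c h := Real.sqrt_pos.2 (by positivity)

lemma c_sq (h : H) : P.c h ^ 2 = 1 + P.y h ^ 2 := Real.sq_sqrt (by positivity)

lemma φ_fut (h : H) : Fut (P.φ h) := by
  have h1 := o0_fut.foot (P.unit h) zero_le_one le_rfl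
  rw [one_mul, P.cen] at h1
  exact h1.smul (one_div_pos.2 (P.c_pos h))

lemma φ_unit (h : H) : B (P.φ h) (P.φ h) = -1 := by
  have h1 := P.c_sq h
  have h2 := (P.c_pos h).ne'
  have h3 : B (P.ν h) o0 = P.y h := P.cen h
  simp only [φ, B_smul_left, B_smul_right, B_sub_left, B_sub_right, B_o0, P.unit,
    B_comm o0 (P.ν h), h3]
  field_simp
  linear_combination h1

private lemma Poly1_B (h k : H) :
    B (P.ν k) (P.φ h) = (P.y k - P.y h * B (P.ν k) (P.ν h)) / P.c h := by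
  rw [φ, B_smul_right, B_sub_right, B_smul_right, P.cen, one_div_mul_eq_div]
  rfl

lemma ν_φ (h : H) : B (P.ν h) (P.φ h) = 0 := by
  rw [P.Poly1_B, P.unit, mul_one, sub_self, zero_div]

lemma o0_eq (h : H) : o0 = P.c h • P.φ h + P.y h • P.ν h := by
  rw [φ, smul_smul, mul_one_div_cancel (P.c_pos h).ne', one_smul, sub_add_cancel]

lemma m_unit (h : H) : B (P.m h) (P.m h) = 1 := by
  rw [m, B_cr_cr, P.ν_φ, P.unit, P.φ_unit]
  norm_num

lemma m_φ (h : H) : B (P.m h) (P.φ h) = 0 := by rw [B_comm, m, B_cr_right]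

lemma m_ν (h : H) : B (P.m h) (P.ν h) = 0 := by rw [B_comm, m, B_cr_left]

lemma ν_eq (h : H) : P.ν h = cr (P.φ h) (P.m h) := by
  rw [m, cr_cr, B_comm (P.φ h), P.ν_φ, P.φ_unit, zero_smul, _root_.neg_smul, one_smul,
    zero_sub, neg_neg]

lemma T_pos (h : H) : 0 < P.T h := Real.arsinh_pos_iff.2 (div_pos (P.y_pos _) (P.c_pos h))

lemma T_le {κ : ℝ} (r : P.Rat κ) (h : H) : P.T h ≤ κ := by
  have h1 : P.T h ≤ Real.sinh (P.T h) := Real.self_le_sinh_iff.2 (P.T_pos h).le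
  have h2 : Real.sinh (P.T h) = P.y (C.f h) / P.c h := Real.sinh_arsinh _
  have h3 : P.y (C.f h) ≤ κ * P.y h := r.2 _ _
  have h4 : P.y h ≤ P.c h := Real.le_sqrt_of_sq_le (by linarith)
  have h5 : 0 < κ := by
    by_contra h5
    nlinarith [mul_nonneg (neg_nonneg.2 (not_lt.1 h5)) (P.y_pos h).le, P.y_pos (C.f h)]
  refine h1.trans (h2.trans_le ((div_le_iff₀ (P.c_pos h)).2 (h3.trans ?_)))
  exact mul_le_mul_of_nonneg_left h4 h5.le

lemma sinh_T (h : H) : Real.sinh (P.T h) = P.y (C.f h) / P.c h := Real.sinh_arsinh _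

private lemma Poly1_exp {h k : H} {t : ℝ} (e : B (P.ν k) (P.ν h) = 0)
    (ht : Real.sinh t = P.y k / P.c h) :
    P.ν k = -Real.sinh t • P.φ h + B (P.ν k) (P.m h) • P.m h ∧
      B (P.ν k) (P.m h) ^ 2 = Real.cosh t ^ 2 := by
  have h1 : B (P.ν k) (P.φ h) = Real.sinh t := by rw [P.Poly1_B, e, mul_zero, sub_zero, ht]
  have h2 := expand_on (P.unit h) (P.φ_unit h) (P.ν_φ h) (P.ν k)
  have h3 := VH2_pars (P.unit h) (P.φ_unit h) (P.ν_φ h) (P.ν k)
  rw [e, h1] at h2 h3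
  rw [zero_smul, zero_sub, ← _root_.neg_smul] at h2
  rw [P.unit] at h3
  refine ⟨h2, ?_⟩
  rw [Real.cosh_sq, m]
  linarith

lemma ν_f (h : H) : P.ν (C.f h) = -Real.sinh (P.T h) • P.φ h - Real.cosh (P.T h) • P.m h := by
  obtain ⟨h1, h2⟩ := P.Poly1_exp (by rw [B_comm, P.perp]) (P.sinh_T h)
  have h3 := P.ori h
  have h4 : det3 o0 (P.ν h) (P.ν (C.f h)) = -(P.c h * B (P.ν (C.f h)) (P.m h)) := by
    rw [P.o0_eq h]
    simp only [det3, B, cr, m, V.add_a, V.add_b, V.add_c, V.smul_a, V.smul_b, V.smul_c]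
    ring
  have h5 : B (P.ν (C.f h)) (P.m h) < 0 := by
    have := P.c_pos h
    by_contra h5
    nlinarith [mul_nonneg this.le (not_lt.1 h5)]
  have h6 : B (P.ν (C.f h)) (P.m h) = -Real.cosh (P.T h) := by
    have := Real.cosh_pos (P.T h)
    rcases sq_eq_sq_iff_eq_or_eq_neg.1 h2 with e | e
    · linarith
    · exact e
  rw [h6, _root_.neg_smul (Real.cosh _), ← sub_eq_add_neg] at h1
  exact h1

lemma ν_f_inv (h : H) : P.ν (C.f⁻¹ h) =
    -Real.sinh (P.T (C.α h)) • P.φ h + Real.cosh (P.T (C.α h)) • P.m h := by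
  have e0 : C.f (C.f⁻¹ h) = h := by simp
  have e1 : P.y (C.f (C.α h)) = P.y (C.f⁻¹ h) := congrArg P.x (C.lab_f_α h)
  have e2 : P.c (C.α h) = P.c h := by rw [c, c, y, y, C.labα]
  obtain ⟨h1, h2⟩ := P.Poly1_exp (h := h) (k := C.f⁻¹ h) (t := P.T (C.α h))
    (by simpa only [e0] using P.perp (C.f⁻¹ h)) (by rw [P.sinh_T, e1, e2])
  have h3 := P.ori (C.f⁻¹ h)
  rw [e0] at h3
  have h4 : det3 o0 (P.ν (C.f⁻¹ h)) (P.ν h) = P.c h * B (P.ν (C.f⁻¹ h)) (P.m h) := by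
    rw [P.o0_eq h]
    simp only [det3, B, cr, m, V.add_a, V.add_b, V.add_c, V.smul_a, V.smul_b, V.smul_c]
    ring
  have h5 : 0 < B (P.ν (C.f⁻¹ h)) (P.m h) := by
    have := P.c_pos h
    by_contra h5
    nlinarith [mul_nonneg this.le (neg_nonneg.2 (not_lt.1 h5))]
  have h6 : B (P.ν (C.f⁻¹ h)) (P.m h) = Real.cosh (P.T (C.α h)) := by
    have := Real.cosh_pos (P.T (C.α h))
    rcases sq_eq_sq_iff_eq_or_eq_neg.1 h2 with e | e
    · exact e
    · linarith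
  rw [h6] at h1
  exact h1

lemma T_α_ς (h : H) : P.T (C.α (C.ς h)) = P.T h := by
  rw [T, T, y, y, y, y, C.labα, C.lab_ς, C.lab_f_α, C.f_inv_ς, C.labα]

lemma B_le_zero {h k : H} (e : k ≠ h) : B (P.ν h) (P.ν k) ≤ 0 := by
  by_cases e1 : k = C.f h
  · rw [e1, P.perp]
  by_cases e2 : h = C.f k
  · rw [e2, B_comm, P.perp]
  linarith [P.far h k e e1 e2]

lemma ν_inj {h k : H} (e : P.ν h = P.ν k ∨ P.ν h = -P.ν k) : h = k := by
  by_contra hne
  rcases e with e | e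
  · have h1 := P.B_le_zero hne
    rw [e, P.unit] at h1
    linarith
  · have h1 := P.cen h
    rw [e, B_neg_left, P.cen] at h1
    linarith [P.pos (C.lab h), P.pos (C.lab k)]

lemma adj_of_lt {h k : H} (e : |B (P.ν h) (P.ν k)| < 1) : k = C.f h ∨ h = C.f k := by
  by_contra hne
  rw [not_or] at hne
  by_cases e1 : k = h
  · rw [e1, P.unit, abs_one] at e
    exact lt_irrefl _ e
  · linarith [P.far h k e1 hne.1 hne.2, (abs_lt.1 e).1]

lemma le_B_φ {h k : H} (e : k ≠ h) : P.y k / P.c h ≤ B (P.ν k) (P.φ h) := by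
  rw [P.Poly1_B]
  refine div_le_div_of_nonneg_right ?_ (P.c_pos h).le
  linarith [mul_nonneg (P.y_pos h).le (neg_nonneg.2 (P.B_le_zero e.symm))]

lemma Q_φ (h : H) : P.Q (P.φ h) := by
  refine ⟨P.φ_fut h, fun k => ?_⟩
  by_cases e : k = h
  · rw [e, P.ν_φ]
  · exact (div_pos (P.y_pos k) (P.c_pos h)).le.trans (P.le_B_φ e)

lemma Q_o0 : P.Q o0 := ⟨o0_fut, fun h => by rw [P.cen]; exact (P.pos _).le⟩

end Poly

end

end Pool.Agent.P.MP_d39174_gt
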