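import Pool.Agent.P.MP_d39174_gt.Poly1

/-! The side pairings. -/

namespace Pool.Agent.P.MP_d39174_gt

open UpperHalfPlane MatrixGroups

noncomputable section

open Equiv

namespace Poly

variable {Vx H : Type} {G : SimpleGraph Vx} {C : Cmb G H} (P : Poly C)

private lemma Poly2_r (σ : Perm H) (h : H) : σ (σ⁻¹ h) = h := σ.apply_symm_apply h

private lemma Poly2_l (σ : Perm H) (h : H) : σ⁻¹ (σ h) = h := σ.symm_apply_apply h

private lemma Poly2_t (h : H) :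
    P.t h • P.φ (C.α h) = P.φ h ∧ P.t h • P.m (C.α h) = -P.m h := by
  have e : ∃ g : SL(2, ℝ), g • P.φ (C.α h) = P.φ h ∧ g • P.m (C.α h) = -P.m h :=
    exists_frame (P.φ_fut _) (P.φ_unit _) (P.m_unit _) (P.m_φ _) (P.φ_fut h) (P.φ_unit h)
      (by rw [B_neg_left, B_neg_right, neg_neg, P.m_unit]) (by rw [B_neg_left, P.m_φ, neg_zero])
  unfold t
  rw [dif_pos e]
  exact e.choose_spec

private lemma Poly2_y (h : H) : P.y (C.α h) = P.y h := by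
  unfold y
  rw [C.labα]

private lemma Poly2_c (h : H) : P.c (C.α h) = P.c h := by
  unfold c
  rw [Poly2_y]

lemma τ_φ (h : H) : P.τ h • P.φ (C.α h) = P.φ h := (Poly2_t P h).1

lemma τ_m (h : H) : P.τ h • P.m (C.α h) = -P.m h := (Poly2_t P h).2

lemma τ_ν (h : H) : P.τ h • P.ν (C.α h) = -P.ν h := by
  rw [P.ν_eq (C.α h), PS.smul_cr, P.τ_φ, P.τ_m, cr_neg_right, ← P.ν_eq]

lemma τ_o0 (h : H) : P.τ h • o0 = o0 - (2 * P.y h) • P.ν h := by
  have h1 := congrArg (fun v => P.τ h • v) (P.o0_eq (C.α h))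
  have h2 := P.o0_eq h
  simp only [PS.smul_add, PS.smul_real, P.τ_φ, P.τ_ν, Poly2_y, Poly2_c] at h1
  rw [h1]
  nth_rewrite 1 [h2]
  module

lemma τ_f (h : H) : P.τ h • P.ν (C.f (C.α h)) = P.ν (C.f⁻¹ h) := by
  rw [P.ν_f, P.ν_f_inv, PS.smul_sub, PS.smul_real, PS.smul_real, P.τ_φ, P.τ_m, smul_neg,
    sub_neg_eq_add]

lemma τ_f_inv (h : H) : P.τ h • P.ν (C.f⁻¹ (C.α h)) = P.ν (C.f h) := by
  rw [P.ν_f, P.ν_f_inv, PS.smul_add, PS.smul_real, PS.smul_real, P.τ_φ, P.τ_m, C.α2, smul_neg,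
    sub_eq_add_neg]

lemma τ_α (h : H) : P.τ (C.α h) = (P.τ h)⁻¹ := by
  refine PS.eq_of (n := P.φ h) (m := P.m h) ?_ ?_ ?_
  · rw [← P.ν_eq]
    intro e
    have h1 := P.unit h
    rw [e, B_zero_left] at h1
    exact zero_ne_one h1
  · have h1 := P.τ_φ (C.α h)
    rw [C.α2] at h1
    rw [h1, eq_inv_smul_iff, P.τ_φ]
  · have h1 := P.τ_m (C.α h)
    rw [C.α2] at h1
    rw [h1, eq_inv_smul_iff, PS.smul_neg, P.τ_m, neg_neg]

/-- The relation at a vertex. -/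
lemma τ_vertex (s : H) :
    P.τ (C.f s) * P.τ (C.ς s) = P.τ s * P.τ (C.f⁻¹ (C.α s)) := by
  have e1 : C.α (C.ς s) = C.f⁻¹ (C.α (C.f⁻¹ (C.α s))) := by
    rw [C.f_inv, C.f_inv, C.α2, C.ς_eq]
  have e2 : C.f (C.α (C.ς s)) = C.α (C.f⁻¹ (C.α s)) := by
    rw [e1, Poly2_r]
  refine PS.eq_of (n := P.ν (C.α (C.ς s))) (m := P.ν (C.f (C.α (C.ς s)))) ?_ ?_ ?_
  · intro e
    have h1 := B_cr_cr (P.ν (C.α (C.ς s))) (P.ν (C.f (C.α (C.ς s))))
    rw [e, B_zero_left, P.perp, P.unit, P.unit] at h1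
    norm_num at h1
  · have l : (P.τ (C.f s) * P.τ (C.ς s)) • P.ν (C.α (C.ς s)) = -P.ν s := by
      rw [mul_smul, P.τ_ν, PS.smul_neg, ← C.f_α_f, P.τ_f, Poly2_l]
    rw [l, mul_smul, e1, P.τ_f_inv, Poly2_r, P.τ_ν]
  · have l : (P.τ (C.f s) * P.τ (C.ς s)) • P.ν (C.f (C.α (C.ς s))) = -P.ν (C.f s) := by
      rw [mul_smul, P.τ_f, C.f_inv_ς, P.τ_ν]
    rw [l, mul_smul, e2, P.τ_ν, PS.smul_neg, P.τ_f_inv]

private lemma Poly2_four (u : H) : P.τ (C.α u) * P.τ (C.α (C.ρ u)) *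
    P.τ (C.α (C.ρ (C.ρ u))) * P.τ (C.α (C.ρ (C.ρ (C.ρ u)))) = 1 := by
  have h := P.τ_vertex (C.α u)
  rw [C.f_eq, C.ς_eq, C.f_inv, C.α2] at h
  rw [← h, P.τ_α, P.τ_α, mul_inv_cancel_right, mul_inv_cancel]

lemma τ_mem (h : H) : P.τ h ∈ P.Γb := Subgroup.subset_closure ⟨h, rfl⟩

lemma A_A (s : PS × H) : P.A (P.A s) = s := by
  refine Prod.ext ?_ (C.α2 s.2)
  change s.1 * P.τ s.2 * P.τ (C.α s.2) = s.1
  rw [P.τ_α, mul_inv_cancel_right]

lemma R_four (s : PS × H) : P.R (P.R (P.R (P.R s))) = s := by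
  refine Prod.ext ?_ (C.ρ4 s.2)
  change s.1 * P.τ (C.α (C.ρ s.2)) * P.τ (C.α (C.ρ (C.ρ s.2))) *
    P.τ (C.α (C.ρ (C.ρ (C.ρ s.2)))) * P.τ (C.α (C.ρ (C.ρ (C.ρ (C.ρ s.2))))) = s.1
  rw [mul_assoc s.1, mul_assoc s.1, mul_assoc s.1, Poly2_four, mul_one]

lemma stp_three (k : PS) (h : H) : stp P.A P.R (k, h) 3 = (k, C.f h) := by
  have e : stp P.A P.R (k, h) 3 = P.R (P.R (P.R (P.A (k, h)))) := rfl
  have h4 := Poly2_four P (C.α h)
  rw [C.α2] at h4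
  rw [e]
  refine Prod.ext ?_ (C.f_eq h).symm
  change k * P.τ h * P.τ (C.α (C.ρ (C.α h))) * P.τ (C.α (C.ρ (C.ρ (C.α h)))) *
    P.τ (C.α (C.ρ (C.ρ (C.ρ (C.α h))))) = k
  rw [mul_assoc k, mul_assoc k, mul_assoc k, h4, mul_one]

lemma stp_two (k : PS) (h : H) : stp P.A P.R (k, h) 2 = (k * P.τ (C.f h), C.ς h) := by
  have e : stp P.A P.R (k, h) 2 = P.R (P.R (P.A (k, h))) := rfl
  have h4 := Poly2_four P (C.α h)
  rw [C.α2, ← C.f_eq, P.τ_α (C.f h), mul_inv_eq_one] at h4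
  rw [e]
  refine Prod.ext ?_ (C.ς_eq h).symm
  change k * P.τ h * P.τ (C.α (C.ρ (C.α h))) * P.τ (C.α (C.ρ (C.ρ (C.α h)))) = k * P.τ (C.f h)
  rw [mul_assoc k, mul_assoc k, h4]

/-- The polygon is bounded. -/
lemma Q_bdd [Finite Vx] : ∃ r : ℝ, ∀ z : ℍ, P.Q (Hy z) → dist z I ≤ r := by
  obtain ⟨Y, hY⟩ := (Set.finite_range P.x).bddAbove
  refine ⟨1 + 2 * Y ^ 2, fun z hz => ?_⟩
  obtain ⟨h, κ, s, s', hs, hs', e⟩ := P.sect (Hy z)
  have y1 := P.pos (C.lab h)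
  have y2 := P.pos (C.lab (C.f h))
  have y3 : P.x (C.lab h) ≤ Y := hY ⟨_, rfl⟩
  have y4 : P.x (C.lab (C.f h)) ≤ Y := hY ⟨_, rfl⟩
  have a1 : B (P.ν h) (Hy z) = κ * P.x (C.lab h) - s := by
    rw [e, B_sub_right, B_sub_right, B_smul_right, B_smul_right, B_smul_right, P.cen, P.unit,
      P.perp]
    ring
  have a2 : B (P.ν (C.f h)) (Hy z) = κ * P.x (C.lab (C.f h)) - s' := by
    rw [e, B_sub_right, B_sub_right, B_smul_right, B_smul_right, B_smul_right, P.cen, P.unit,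
      B_comm (P.ν (C.f h)) (P.ν h), P.perp]
    ring
  have a3 : B o0 (Hy z) = -κ - s * P.x (C.lab h) - s' * P.x (C.lab (C.f h)) := by
    rw [e, B_sub_right, B_sub_right, B_smul_right, B_smul_right, B_smul_right, o0_unit,
      B_comm o0, B_comm o0, P.cen, P.cen]
    ring
  have a4 : B (Hy z) (Hy z) =
      κ * B o0 (Hy z) - s * B (P.ν h) (Hy z) - s' * B (P.ν (C.f h)) (Hy z) := by
    nth_rewrite 1 [e]
    rw [B_sub_left, B_sub_left, B_smul_left, B_smul_left, B_smul_left]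
  have b1 := hz.2 h
  have b2 := hz.2 (C.f h)
  have c1 := mul_nonneg hs b1
  have c2 := mul_nonneg hs' b2
  rw [Hy_unit, a3] at a4
  rw [a1] at b1
  rw [a2] at b2
  have k0 : 0 ≤ κ := nonneg_of_mul_nonneg_left (by linarith) y1
  have c3 := mul_nonneg k0 (mul_nonneg hs y1.le)
  have c4 := mul_nonneg k0 (mul_nonneg hs' y2.le)
  have k1 : κ ≤ 1 := by nlinarith
  have s1 : s ≤ Y := by nlinarith
  have s2 : s' ≤ Y := by nlinarith
  have d1 := cosh_dist_eq z I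
  rw [Hy_I, B_comm, a3] at d1
  have d2 : dist z I ≤ Real.sinh (dist z I) := Real.self_le_sinh_iff.2 dist_nonneg
  have d3 := Real.sinh_lt_cosh (dist z I)
  have m1 : s * P.x (C.lab h) ≤ Y * Y := mul_le_mul s1 y3 y1.le (by linarith)
  have m2 : s' * P.x (C.lab (C.f h)) ≤ Y * Y := mul_le_mul s2 y4 y2.le (by linarith)
  nlinarith

/-- A point of the polygon near a wall is near the foot. -/
lemma dist_φ {κ : ℝ} (r : P.Rat κ) {z : ℍ} (hz : P.Q (Hy z)) (h : H) {D : ℝ}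
    (e : |B (P.ν h) (Hy z)| ≤ Real.sinh D) : dist z (pt (P.φ h)) ≤ D + κ := by
  obtain ⟨w, w1, w2, w3⟩ := exists_foot (P.unit h) z
  have d1 : dist z w ≤ D := by
    rw [w2, ← Real.arsinh_sinh D]
    exact Real.arsinh_le_arsinh.2 e
  have key : ∀ j, B (P.ν j) (P.ν h) = 0 → 0 ≤ B (P.ν j) (Hy w) := by
    intro j hj
    rw [w3, B_smul_right, B_sub_right, B_smul_right, hj, mul_zero, sub_zero]
    exact mul_nonneg (by positivity) (hz.2 j)
  have k1 := key (C.f h) (by rw [B_comm, P.perp])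
  have k2 := key (C.f⁻¹ h) (by
    have h1 := P.perp (C.f⁻¹ h)
    rwa [Poly2_r] at h1)
  obtain ⟨s, hs⟩ := wall_param (P.unit h) (P.φ_fut h) (P.φ_unit h) (Hy_fut w) (Hy_unit w)
    (P.ν_φ h) w1
  have d2 : dist (pt (P.φ h)) w = |s| :=
    VH2_dist (n := P.ν h) (by rw [Hy_pt_unit (P.φ_fut h) (P.φ_unit h)]; exact hs)
  have hs' : Hy w = Real.cosh s • P.φ h + Real.sinh s • P.m h := hs
  have p1 : B (P.φ h) (Hy w) = -Real.cosh s := by
    rw [hs', B_add_right, B_smul_right, B_smul_right, P.φ_unit, B_comm, P.m_φ]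
    ring
  have p2 : B (P.m h) (Hy w) = Real.sinh s := by
    rw [hs', B_add_right, B_smul_right, B_smul_right, P.m_φ, P.m_unit]
    ring
  rw [P.ν_f, B_sub_left, B_smul_left, B_smul_left, p1, p2] at k1
  rw [P.ν_f_inv, B_add_left, B_smul_left, B_smul_left, p1, p2] at k2
  have t1 : 0 ≤ P.T h - s := by
    rw [← Real.sinh_nonneg_iff, Real.sinh_sub]
    linarith
  have t2 : 0 ≤ P.T (C.α h) + s := by
    rw [← Real.sinh_nonneg_iff, Real.sinh_add]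
    linarith
  have t3 : |s| ≤ κ := abs_le.2 ⟨by linarith [P.T_le r (C.α h)], by linarith [P.T_le r h]⟩
  have d3 := dist_triangle z w (pt (P.φ h))
  rw [dist_comm w, d2] at d3
  linarith

end Poly

end

end Pool.Agent.P.MP_d39174_gt
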