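import Pool.Agent.P.MP_d39174_gt.CmbDef

/-! The right-angled polygon of a filling system and its side pairings: definitions. -/

namespace Pool.Agent.P.MP_d39174_gt

open UpperHalfPlane MatrixGroups

noncomputable section

open Equiv

/-- A right-angled polygon centred at `o0` with inward normals `ν h` at heights `x`. -/
structure Poly {Vx H : Type} {G : SimpleGraph Vx} (C : Cmb G H) where
  x : Vx → ℝ
  ν : H → V
  pos : ∀ v, 0 < x v
  unit : ∀ h, B (ν h) (ν h) = 1
  cen : ∀ h, B (ν h) o0 = x (C.lab h)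
  perp : ∀ h, B (ν h) (ν (C.f h)) = 0
  ori : ∀ h, 0 < det3 o0 (ν h) (ν (C.f h))
  far : ∀ h k, k ≠ h → k ≠ C.f h → h ≠ C.f k → B (ν h) (ν k) < -1
  sect : ∀ p : V, ∃ (h : H) (κ s s' : ℝ), 0 ≤ s ∧ 0 ≤ s' ∧
    p = κ • o0 - s • ν h - s' • ν (C.f h)

namespace Poly

variable {Vx H : Type} {G : SimpleGraph Vx} {C : Cmb G H} (P : Poly C)

/-- Height of a side. -/
def y (h : H) : ℝ := P.x (C.lab h)

/-- `cosh` of the distance from the centre to a side. -/
def c (h : H) : ℝ := √(1 + P.y h ^ 2)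

/-- Foot of the perpendicular from the centre to a side. -/
def φ (h : H) : V := (1 / P.c h) • (o0 - P.y h • P.ν h)

/-- Direction of a side at the foot. -/
def m (h : H) : V := cr (P.ν h) (P.φ h)

/-- Distance from the foot to the end of the side. -/
def T (h : H) : ℝ := Tt (P.y h) (P.y (C.f h))

open Classical in
/-- The side pairing. -/
def t (h : H) : SL(2, ℝ) :=
  if e : ∃ g : SL(2, ℝ), g • P.φ (C.α h) = P.φ h ∧ g • P.m (C.α h) = -P.m h then e.choose else 1

/-- The side pairing in `PSL(2, ℝ)`. -/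
def τ (h : H) : PS := ad (P.t h)

/-- The group generated by the side pairings. -/
def Γb : Subgroup PS := Subgroup.closure (Set.range P.τ)

/-- Its preimage in `SL(2, ℝ)`. -/
def Γ : Subgroup SL(2, ℝ) := P.Γb.comap ad

/-- The polygon as a cone. -/
def Q (p : V) : Prop := Fut p ∧ ∀ h, 0 ≤ B (P.ν h) p

/-- The oriented walls of the tiling. -/
def S : Set V := {n | ∃ k ∈ P.Γb, ∃ h, n = k • P.ν h}

/-- Sides whose walls are close are close along the boundary. -/
def Near (D : ℝ) (K : ℕ) : Prop :=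
  ∀ h k, -B (P.ν h) (P.ν k) ≤ D → ∃ j, j ≤ K ∧ (k = (C.f ^ j) h ∨ h = (C.f ^ j) k)

/-- All curves have half length `Λ`. -/
def Len (Λ : ℝ) : Prop := ∀ h, ∑ i ∈ Finset.range (C.per h), P.T ((C.ς ^ i) h) = Λ

/-- Heights at least one with bounded ratios. -/
def Rat (κ : ℝ) : Prop := (∀ v, 1 ≤ P.x v) ∧ ∀ v w, P.x v ≤ κ * P.x w

/-- Direction vector of an oriented arc `(k, h)` of the tiling. -/
def M (s : PS × H) : V := s.1 • P.m s.2

/-- Foot point of an oriented arc of the tiling. -/
def ft (s : PS × H) : ℍ := pt (s.1 • P.φ s.2)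

end Poly

/-- Left translation of arcs. -/
def lmul {H : Type} (g : PS) : Perm (PS × H) := Equiv.prodCongr (Equiv.mulLeft g) (Equiv.refl H)

lemma lmul_apply {H : Type} (g : PS) (s : PS × H) : lmul g s = (g * s.1, s.2) := rfl

/-- A move `(k, h) ↦ (k * a h, σ h)` on arcs. -/
def mv {H : Type} (a : H → PS) (σ : Perm H) : Perm (PS × H) where
  toFun s := (s.1 * a s.2, σ s.2)
  invFun s := (s.1 * (a (σ⁻¹ s.2))⁻¹, σ⁻¹ s.2)
  left_inv s := by simp
  right_inv s := by simp

lemma mv_apply {H : Type} (a : H → PS) (σ : Perm H) (s : PS × H) :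
    mv a σ s = (s.1 * a s.2, σ s.2) := rfl

namespace Poly

variable {Vx H : Type} {G : SimpleGraph Vx} {C : Cmb G H} (P : Poly C)

/-- Reversal of an arc of the tiling. -/
def A : Perm (PS × H) := mv P.τ C.α

/-- Turning an arc of the tiling about its initial point. -/
def R : Perm (PS × H) := mv (fun h => P.τ (C.α (C.ρ h))) C.ρ

end Poly

/-- Total weight of the straight moves. -/
def gain {H : Type} (a r : Perm H) (w : H → ℝ) : H → List ℕ → ℝ
  | _, [] => 0
  | h, j :: js => (if j % 4 = 2 then w h else 0) + gain a r w (stp a r h j) js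

end

end Pool.Agent.P.MP_d39174_gt
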