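import Pool.Agent.P.MP_d39174_gt.CmbDef

/-! Bipartite graphs given by permutations: definitions. -/

namespace Pool.Agent.P.MP_d39174_gt

open UpperHalfPlane MatrixGroups

noncomputable section

open Equiv

/-- The edge at position `q = (colour, left vertex)` joins `x` and `y`. -/
def Joins {C X : Type} (τ : C → Perm X) (q : C × X) (x y : X × Bool) : Prop :=
  (x = (q.2, false) ∧ y = (τ q.1 q.2, true)) ∨ (y = (q.2, false) ∧ x = (τ q.1 q.2, true))

/-- The bipartite graph of the edges at the positions in `P`. -/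
def Gr {C X : Type} (τ : C → Perm X) (P : Set (C × X)) : SimpleGraph (X × Bool) where
  Adj x y := ∃ q ∈ P, Joins τ q x y
  symm := ⟨fun _ _ ⟨q, hq, h⟩ => ⟨q, hq, h.symm⟩⟩
  loopless := ⟨by rintro x ⟨q, -, ⟨h, h'⟩ | ⟨h, h'⟩⟩ <;> simpa using congrArg Prod.snd (h.symm.trans h')⟩

instance {C X : Type} (τ : C → Perm X) (P : Set (C × X)) : DecidableRel (Gr τ P).Adj :=
  Classical.decRel _

/-- The edge at position `p` lies on a cycle of length at most `K + 1`. -/
def Bad {C X : Type} (τ : C → Perm X) (K : ℕ) (p : C × X) : Prop :=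
  ∃ W : (Gr τ {q | q ≠ p}).Walk (p.2, false) (τ p.1 p.2, true), W.length ≤ K

/-- Two fixed colours that form a Hamiltonian cycle, and the colours `σ`. -/
def tau {n k : ℕ} (σ : Fin k → Perm (Fin n)) : Bool ⊕ Fin k → Perm (Fin n)
  | Sum.inl false => 1
  | Sum.inl true => finRotate n
  | Sum.inr c => σ c

/-- The positions that are kept. -/
def keep (n k J : ℕ) : Set ((Bool ⊕ Fin k) × Fin n) :=
  {p | ¬ (p.1 = Sum.inl true ∧ p.2.val + 1 = n) ∧
    ¬ ∃ c : Fin k, p.1 = Sum.inr c ∧ c.val < 2 ∧ p.2.val < J}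

/-- Number of edges from `A` to `T`. -/
def ecount {n k : ℕ} (σ : Fin k → Perm (Fin n)) (A T : Finset (Fin n)) : ℕ :=
  (Finset.univ.filter fun p : Fin k × Fin n => p.2 ∈ A ∧ σ p.1 p.2 ∈ T).card

/-- Small sets span few edges. -/
def Spr {n k : ℕ} (σ : Fin k → Perm (Fin n)) (b : ℕ) : Prop :=
  ∀ A T : Finset (Fin n), A.card + T.card ≤ n →
    20 * ecount σ A T ≤ (9 * k + b) * (A.card + T.card)

/-- The bad positions of the free colours. -/
def badSet {n k : ℕ} (σ : Fin k → Perm (Fin n)) (K : ℕ) : Set (Fin k × Fin n) :=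
  {p | Bad (tau σ) K (Sum.inr p.1, p.2)}

/-- The positions where two tuples differ. -/
def diffSet {n k : ℕ} (σ σ' : Fin k → Perm (Fin n)) : Set (Fin k × Fin n) :=
  {p | σ p.1 p.2 ≠ σ' p.1 p.2}

end

end Pool.Agent.P.MP_d39174_gt
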