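import Pool.Agent.P.MP_d39174_gt.MapDef

/-! First return maps. -/

namespace Pool.Agent.P.MP_d39174_gt

open UpperHalfPlane MatrixGroups

noncomputable section

open Equiv

variable {S ι : Type} {f f' : Perm S} {e : ι → S} {c : ι → ι}

lemma Ret_aux {x y : S} {n : ℕ} (h1 : f' x = f y)
    (h2 : ∀ m, 0 < m → m < n → f' ((f ^ m) y) = f ((f ^ m) y)) :
    ∀ m, 0 < m → m ≤ n → (f' ^ m) x = (f ^ m) y := by
  intro m hm
  induction m, hm using Nat.le_induction with
  | base => intro _; simpa using h1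
  | succ m hm ih =>
    intro hmn
    rw [pow_succ', pow_succ', Perm.mul_apply, Perm.mul_apply, ih (by omega), h2 m hm (by omega)]

lemma Ret_sub {x y : S} {m n : ℕ} (h : n ≤ m) (e1 : (f ^ n) x = y) :
    (f ^ (m - n)) y = (f ^ m) x := by
  rw [← e1, ← Perm.mul_apply, ← pow_add, Nat.sub_add_cancel h]

theorem exists_ret [Finite S] (f : Perm S) (e : ι → S) : ∃ c, Ret f e c := by
  classical
  have h : ∀ i, ∃ n, 0 < n ∧ ∃ j, (f ^ n) (e i) = e j := fun i =>
    ⟨orderOf f, orderOf_pos f, i, by rw [pow_orderOf_eq_one]; rfl⟩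
  have h' : ∀ i, ∃ j, ∃ n, 0 < n ∧ (f ^ n) (e i) = e j ∧
      ∀ m, 0 < m → m < n → ∀ k, (f ^ m) (e i) ≠ e k := by
    intro i
    obtain ⟨h0, j, hj⟩ := Nat.find_spec (h i)
    exact ⟨j, _, h0, hj, fun m hm hlt k hk => Nat.find_min (h i) hlt ⟨hm, k, hk⟩⟩
  choose c hc using h'
  exact ⟨c, hc⟩

theorem Ret.inj (h : Ret f e c) (he : Function.Injective e) : Function.Injective c := by
  have key : ∀ i j n n', 0 < n → n ≤ n' → (f ^ n) (e i) = (f ^ n') (e j) →
      (∀ m, 0 < m → m < n' → ∀ k, (f ^ m) (e j) ≠ e k) → i = j := by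
    intro i j n n' hn hle e1 hmin
    have e2 : (f ^ (n' - n)) (e j) = e i := by
      apply (f ^ n).injective
      rw [e1, ← Perm.mul_apply, ← pow_add, Nat.add_sub_cancel' hle]
    rcases Nat.eq_zero_or_pos (n' - n) with h0 | h0
    · rw [h0] at e2
      exact (he e2).symm
    · exact absurd e2 (hmin _ h0 (by omega) i)
  intro i j hij
  obtain ⟨n, hn, e1, m1⟩ := h i
  obtain ⟨n', hn', e2, m2⟩ := h j
  rcases le_total n n' with hle | hle
  · exact key i j n n' hn hle (by rw [e1, e2, hij]) m2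
  · exact (key j i n' n hn' hle (by rw [e1, e2, hij]) m1).symm

theorem Ret.same_iff [Finite S] (h : Ret f e c) (he : Function.Injective e) (i j : ι) :
    f.SameCycle (e i) (e j) ↔ ∃ n : ℕ, c^[n] i = j := by
  constructor
  · intro hs
    obtain ⟨m, hm⟩ := hs.exists_nat_pow_eq
    clear hs
    induction m using Nat.strong_induction_on generalizing i with
    | _ m ih =>
    rcases Nat.eq_zero_or_pos m with rfl | h0
    · exact ⟨0, he hm⟩
    obtain ⟨n, hn, e1, m1⟩ := h i
    have hle : n ≤ m := by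
      by_contra hlt
      exact m1 m h0 (by omega) j hm
    obtain ⟨k, hk⟩ := ih (m - n) (by omega) (c i) (by rw [Ret_sub hle e1, hm])
    exact ⟨k + 1, hk⟩
  · rintro ⟨n, rfl⟩
    induction n with
    | zero => exact Perm.SameCycle.refl _ _
    | succ n ih =>
      obtain ⟨m, -, e1, -⟩ := h (c^[n] i)
      rw [Function.iterate_succ_apply']
      exact ih.trans ⟨m, by rw [zpow_natCast, e1]⟩

theorem Ret.same_iff' [Finite S] [Fintype ι] (h : Ret f e c) (he : Function.Injective e)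
    (i j : ι) : f.SameCycle (e i) (e j) ↔ ∃ n : Fin (Fintype.card ι), c^[n] i = j := by
  rw [h.same_iff he]
  refine ⟨?_, fun ⟨n, hn⟩ => ⟨n, hn⟩⟩
  rintro ⟨n, rfl⟩
  have hp := Function.minimalPeriod_pos_of_mem_periodicPts ((h.inj he).mem_periodicPts i)
  exact ⟨⟨n % Function.minimalPeriod c i,
    (Nat.mod_lt _ hp).trans_le Function.minimalPeriod_le_card⟩,
    Function.iterate_mod_minimalPeriod_eq⟩

/-- Changing `f` on the marked points. -/
theorem Ret.mul (h : Ret f e c) {q : ι → ι} (h1 : ∀ i, f' (e i) = f (e (q i)))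
    (h2 : ∀ x, (∀ i, x ≠ e i) → f' x = f x) : Ret f' e (c ∘ q) := by
  intro i
  obtain ⟨n, hn, e1, m1⟩ := h (q i)
  have key := Ret_aux (n := n) (h1 i) fun m hm hlt => h2 _ (m1 m hm hlt)
  refine ⟨n, hn, by rw [key n hn le_rfl, e1]; rfl, fun m hm hlt j => ?_⟩
  rw [key m hm hlt.le]
  exact m1 m hm hlt j

theorem Ret.swap [DecidableEq S] [DecidableEq ι] (h : Ret f e c) (he : Function.Injective e)
    (i j : ι) : Ret (f * swap (e i) (e j)) e (c ∘ swap i j) := by
  refine h.mul (fun k => ?_) fun x hx => ?_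
  · rw [Perm.mul_apply, he.swap_apply]
  · rw [Perm.mul_apply, swap_apply_of_ne_of_ne (hx i) (hx j)]

/-- Points whose cycle meets the marked points keep this property. -/
theorem cover_of_eq [Finite S] (h2 : ∀ x, (∀ i, x ≠ e i) → f' x = f x) {z : S}
    (hz : ∃ i, f.SameCycle z (e i)) : ∃ i, f'.SameCycle z (e i) := by
  obtain ⟨i, hs⟩ := hz
  obtain ⟨m, hm⟩ := hs.exists_nat_pow_eq
  clear hs
  induction m generalizing z with
  | zero => exact ⟨i, by rw [← hm]; exact Perm.SameCycle.refl _ _⟩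
  | succ m ih =>
    by_cases hz : ∃ k, z = e k
    · obtain ⟨k, rfl⟩ := hz
      exact ⟨k, Perm.SameCycle.refl _ _⟩
    · obtain ⟨k, hk⟩ := ih (z := f z) (by rw [← hm, pow_succ, Perm.mul_apply])
      rw [← h2 z fun k hk => hz ⟨k, hk⟩] at hk
      exact ⟨k, Perm.sameCycle_apply_left.1 hk⟩

lemma Ret_avoid {o nw : Fin 4 → S} (I : Ins f f' o nw) {x : S} (hx : ∀ j, x ≠ nw j) (m : ℕ) :
    ∀ j, (f ^ m) x ≠ nw j := by
  choose g hg using I.inv
  have gi : Function.Injective g := fun a b hab =>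
    I.ni (f.injective (by rw [hg, hg, hab]))
  have gs := Finite.surjective_of_injective gi
  induction m with
  | zero => exact hx
  | succ m ih =>
    intro j hj
    obtain ⟨k, rfl⟩ := gs j
    rw [pow_succ', Perm.mul_apply, ← hg] at hj
    exact ih k (f.injective hj)

/-- The return map after an insertion. -/
theorem Ret.ins {o nw : Fin 4 → S} (h : Ret f e c) (I : Ins f f' o nw)
    (hd : ∀ i j, e i ≠ nw j) {p : Fin 4 → ι} (hp : ∀ i, e (p i) = o i) {c' : ι ⊕ Fin 4 → ι ⊕ Fin 4}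
    (c1 : ∀ i, c' (Sum.inl (p i)) = Sum.inr (i + 1)) (c2 : ∀ i, c' (Sum.inr i) = Sum.inl (c (p i)))
    (c3 : ∀ j, (∀ i, e j ≠ o i) → c' (Sum.inl j) = Sum.inl (c j)) (he : Function.Injective e) :
    Ret f' (Sum.elim e nw) c' := by
  have main : ∀ (x : S) (k : ι), f' x = f (e k) → ∃ n, 0 < n ∧ (f' ^ n) x = e (c k) ∧
      ∀ m, 0 < m → m < n → ∀ j, (f' ^ m) x ≠ Sum.elim e nw j := by
    intro x k hx
    obtain ⟨n, hn, e1, m1⟩ := h k
    have key := Ret_aux (n := n) hx fun m hm hlt =>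
      I.h3 _ (fun i => by rw [← hp]; exact m1 m hm hlt _) (Ret_avoid I (hd k) m)
    refine ⟨n, hn, by rw [key n hn le_rfl, e1], fun m hm hlt j => ?_⟩
    rw [key m hm hlt.le]
    rcases j with j | j
    · exact m1 m hm hlt j
    · exact Ret_avoid I (hd k) m j
  rintro (j | i)
  · by_cases hj : ∃ i, e j = o i
    · obtain ⟨i, hi⟩ := hj
      obtain rfl : j = p i := he (hi.trans (hp i).symm)
      refine ⟨1, one_pos, ?_, fun m hm hlt => by omega⟩
      rw [c1, pow_one, Sum.elim_inl, Sum.elim_inr, hp, I.h1]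
    · have hj' : ∀ i, e j ≠ o i := fun i hi => hj ⟨i, hi⟩
      rw [c3 j hj']
      exact main (e j) j (I.h3 _ hj' (hd j))
  · rw [c2]
    exact main (nw i) (p i) (by rw [hp, I.h2])

/-- After an insertion every point of the new set lies on a cycle through a marked point. -/
theorem Ins.cover [Finite S] {o nw : Fin 4 → S} (I : Ins f f' o nw) {p : Fin 4 → ι}
    (hp : ∀ i, e (p i) = o i) {U : Set S} (hU : ∀ z ∈ U, ∃ i, f.SameCycle z (e i)) {z : S}
    (hz : z ∈ U ∪ Set.range nw) : ∃ i, f'.SameCycle z (Sum.elim e nw i) := by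
  rcases hz with hz | ⟨i, rfl⟩
  · obtain ⟨i, hi⟩ := hU z hz
    refine cover_of_eq (f := f) (fun x hx => I.h3 x (fun k => ?_) fun k => hx (Sum.inr k))
      ⟨Sum.inl i, hi⟩
    rw [← hp]
    exact hx (Sum.inl (p k))
  · exact ⟨Sum.inr i, Perm.SameCycle.refl _ _⟩

end

end Pool.Agent.P.MP_d39174_gt
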