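import Pool.Agent.P.MP_d39174_gt.Rigid2
import Pool.Agent.P.MP_d39174_gt.Bridge

/-! Two realisations of the same type are conjugate. -/

namespace Pool.Agent.P.MP_d39174_gt

open UpperHalfPlane MatrixGroups

noncomputable section

open Finset

/-- Equal values at `0`, `1 / 2` and `1`. -/
def RigidC (f : ℝ → ℝ) : Prop := f (1 / 2) = f 0 ∧ f 1 = f 0

lemma Rigid_half {f : ℝ → ℝ} (h : LC f) (e : f 1 = f 0) : f (1 / 2) ≤ f 0 := by
  have h0 : (0 : ℝ) ∈ Set.Icc (0 : ℝ) 1 := ⟨le_rfl, zero_le_one⟩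
  have h1 := h.2 0 h0 1 ⟨zero_le_one, le_rfl⟩ (1 / 2) ⟨by norm_num, by norm_num⟩
  rw [e, ← Real.rpow_add' (h.1 0 h0) (by norm_num)] at h1
  simpa using h1

lemma Rigid_split {m r : ℝ → ℝ} (hm : LC m) (hr : LC r) (h : RigidC fun t => m t + r t) :
    RigidC m ∧ RigidC r := by
  obtain ⟨h1, h2⟩ := h
  have e := (hm.split hr h1 h2).symm
  have e' : r 1 = r 0 := by linarith
  have a := Rigid_half hm e
  have b := Rigid_half hr e'
  exact ⟨⟨by linarith, e⟩, by linarith, e'⟩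

lemma Rigid_sum {s : Finset ℕ} {f : ℕ → ℝ → ℝ} (hf : ∀ i ∈ s, LC (f i))
    (h : RigidC fun t => ∑ i ∈ s, f i t) {i : ℕ} (hi : i ∈ s) : f i 1 = f i 0 := by
  simp only [← add_sum_erase s _ hi] at h
  exact (Rigid_split (hf i hi) (LC.sum fun j hj => hf j (mem_of_mem_erase hj)) h).1.2

lemma Rigid_root {a b : ℝ} (a0 : 0 < a) (a1 : a < 1) (b0 : 0 < b) (b1 : b < 1)
    (h : a + 1 / a = b + 1 / b) : a = b := by
  have h1 : (a - b) * (1 - a * b) = 0 := by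
    field_simp at h
    linear_combination -h
  have h2 : 0 < 1 - a * b := by nlinarith
  linarith [(mul_eq_zero.1 h1).resolve_right h2.ne']

lemma Rigid_two {a : ℝ} (a0 : 0 < a) (a1 : a < 1) : 2 < a + 1 / a := by
  rw [add_div' _ _ _ a0.ne', lt_div_iff₀ a0]
  nlinarith [mul_pos (sub_pos.2 a1) (sub_pos.2 a1)]

lemma Rigid_one {D : Type} {x x' : D → ℝ} (hx : ∀ d, 0 < x d) (hx' : ∀ d, 0 < x' d) :
    pth x (fun d => Real.log (x' d) - Real.log (x d)) 1 = x' := funext fun d => by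
  have := (hx d).ne'
  rw [pth, one_mul, Real.exp_sub, Real.exp_log (hx d), Real.exp_log (hx' d)]
  field_simp

lemma Rigid_rev {D : Type} (x ξ : D → ℝ) (t : ℝ) :
    pth (pth x ξ 1) (fun d => -ξ d) t = pth x ξ (1 - t) := funext fun d => by
  simp only [pth, mul_assoc, ← Real.exp_add]
  congr 2
  ring

lemma Rigid_pos {D : Type} {x : D → ℝ} (hx : ∀ d, 0 < x d) (ξ : D → ℝ) (t : ℝ) (d : D) :
    0 < pth x ξ t d := mul_pos (hx d) (Real.exp_pos _)

variable {D S : Type} [Fintype D] [Fintype S]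

omit [Fintype D] in
/-- The traces are constant along the path that joins two realisations. -/
lemma Rigid_tr (M : Mdl D S) [Nonempty D] {x y ξ η : D → ℝ} {T T' : ℝ} (h : M.Real x y T)
    (h' : M.Real (pth x ξ 1) (pth y η 1) T') (hξ : ∀ d, ξ (M.ι d) = ξ d)
    (hη : ∀ d, η (M.κ d) = η d) :
    (∀ t d, Pr M.φ (pth x ξ t) d (M.per d) = Pr M.φ x d (M.per d)) ∧
      ∀ s, M.on s → RigidC fun t => M.trW (pth x ξ t) (pth y η t) s := by
  classical
  obtain ⟨d₀⟩ := ‹Nonempty D›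
  have hX : ∀ d, Pr M.φ x d (M.per d) = Pr M.φ x d₀ (M.per d₀) := fun d =>
    Rigid_root (Pr_pos _ h.x_pos _ _) (h.lt d) (Pr_pos _ h.x_pos _ _) (h.lt d₀)
      ((h.fan d).trans (h.fan d₀).symm)
  have hX' : ∀ d, Pr M.φ (pth x ξ 1) d (M.per d) = Pr M.φ (pth x ξ 1) d₀ (M.per d₀) := fun d =>
    Rigid_root (Pr_pos _ h'.x_pos _ _) (h'.lt d) (Pr_pos _ h'.x_pos _ _) (h'.lt d₀)
      ((h'.fan d).trans (h'.fan d₀).symm)
  obtain ⟨μ, hμ⟩ : ∃ μ, ∀ d, ∑ m ∈ range (M.per d), ξ ((M.φ ^ (m + 1)) d) = μ :=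
    ⟨_, fun d => by
      have a := hX' d
      rw [Pr_pth, Pr_pth, hX d, one_mul, one_mul] at a
      exact Real.exp_injective (mul_left_cancel₀ (Pr_pos _ h.x_pos _ _).ne' a)⟩
  have hlt : ∀ t ∈ Set.Icc (0 : ℝ) 1, ∀ d, Pr M.φ (pth x ξ t) d (M.per d) < 1 := fun t ht d => by
    have a := h'.lt d
    have b := Pr_pos M.φ h.x_pos d (M.per d)
    rw [Pr_pth, hμ] at a ⊢
    rcases le_total μ 0 with c | c
    · refine lt_of_le_of_lt ?_ (h.lt d)
      exact mul_le_of_le_one_right b.le (Real.exp_le_one_iff.2 (mul_nonpos_of_nonneg_of_nonpos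
        ht.1 c))
    · exact lt_of_le_of_lt (mul_le_mul_of_nonneg_left (Real.exp_le_exp.2
        (mul_le_mul_of_nonneg_right ht.2 c)) b.le) a
  have hk := fun s => kingman (MLC.mprod (fun m => M.mlc_mat h.x_pos h.y_pos ξ η hlt (M.nx^[m] s))
    (Function.minimalPeriod M.nx s)) fun t _ => det_mprod (fun m =>
      M.det_mat (Rigid_pos h.x_pos ξ t) (Rigid_pos h.y_pos η t) _) _
  obtain ⟨c, p, e⟩ := h.crit
  obtain ⟨c', p', e'⟩ := h'.crit
  have e1 := e' (fun d => -ξ d) (fun d => -η d) (-μ) (fun d => by rw [hξ]) (fun d => by rw [hη])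
    fun d => by rw [sum_neg_distrib, hμ]
  have d1 := M.differentiableAt_trW h'.x_pos h'.y_pos (fun d => -ξ d) (fun d => -η d) h'.lt
  simp only [Rigid_rev] at e1 d1
  obtain ⟨i, hi⟩ := h.base_ex d₀
  obtain ⟨s₀, hs₀, -⟩ := h.cover _ hi
  obtain ⟨eT, e2⟩ := tr_const (s := univ.filter fun s => M.on s)
    (f := fun s t => M.trW (pth x ξ t) (pth y η t) s) (T := T) (T' := T')
    ⟨s₀, mem_filter.2 ⟨mem_univ _, hs₀⟩⟩
    (h.fan d₀ ▸ Rigid_two (Pr_pos _ h.x_pos _ _) (h.lt d₀))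
    (h'.fan d₀ ▸ Rigid_two (Pr_pos _ h'.x_pos _ _) (h'.lt d₀)) (fun s _ => (hk s).1)
    (fun s _ => (hk s).2) (fun s hs => by rw [pth_zero, pth_zero, h.tr s (mem_filter.1 hs).2])
    (fun s hs => h'.tr s (mem_filter.1 hs).2)
    (fun s _ => M.differentiableAt_trW h.x_pos h.y_pos ξ η h.lt s) (fun s _ => d1 s)
    (fun s hs => p s (mem_filter.1 hs).2) (fun s hs => p' s (mem_filter.1 hs).2)
    (e ξ η μ hξ hη hμ) e1
  have a := Rigid_root (Pr_pos _ h'.x_pos _ _) (h'.lt d₀) (Pr_pos _ h.x_pos _ _) (h.lt d₀)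
    ((h'.fan d₀).trans (eT.symm.trans (h.fan d₀).symm))
  rw [Pr_pth, hμ, one_mul, mul_eq_left₀ (Pr_pos _ h.x_pos _ _).ne', Real.exp_eq_one_iff] at a
  refine ⟨fun t d => by rw [Pr_pth, hμ, a, mul_zero, Real.exp_zero, mul_one], fun s hs => ?_⟩
  have b : M.trW (pth x ξ 0) (pth y η 0) s = T := by rw [pth_zero, pth_zero, h.tr s hs]
  exact ⟨(e2 s (mem_filter.2 ⟨mem_univ _, hs⟩)).trans b.symm,
    (h'.tr s hs).trans (eT.symm.trans b.symm)⟩

lemma Rigid_key (M : Mdl D S) {x y ξ η : D → ℝ} {T : ℝ} (h : M.Real x y T)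
    (hX : ∀ t d, Pr M.φ (pth x ξ t) d (M.per d) = Pr M.φ x d (M.per d)) {s : S} (hs : M.on s)
    (hk : M.kd s = 2) (hC : RigidC fun t => M.trW (pth x ξ t) (pth y η t) s) :
    (∀ d, M.φ.SameCycle (M.base s) d → pth x ξ 1 d = x d) ∧
      (pth x ξ 1 = x → pth y η 1 (M.base s) = y (M.base s)) := by
  classical
  have hlt : ∀ t d, Pr M.φ (pth x ξ t) d (M.per d) < 1 := fun t d => (hX t d).symm ▸ h.lt d
  have px := Rigid_pos h.x_pos ξ
  have py := Rigid_pos h.y_pos η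
  obtain ⟨q, hq⟩ := Nat.exists_eq_succ_of_ne_zero
    (Function.minimalPeriod_pos_of_mem_periodicPts (h.periodic s hs)).ne'
  obtain ⟨R, hR⟩ : ∃ R : ℝ → M2, R = fun t =>
      mprod (fun m => M.mat (pth x ξ t) (pth y η t) (M.nx^[m + 1] s)) q := ⟨_, rfl⟩
  have lR : MLC R := hR ▸ MLC.mprod (fun m =>
    M.mlc_mat h.x_pos h.y_pos ξ η (fun t _ => hlt t) (M.nx^[m + 1] s)) q
  have pR : ∀ t, 0 < R t 0 0 := fun t => hR ▸ (mprod_diag_pos
    (fun m => (M.mat_pos (px t) (py t) (hlt t) _).1)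
    (fun m => (M.mat_pos (px t) (py t) (hlt t) _).2) q).2 0
  have lA := M.mlc_mat h.x_pos h.y_pos ξ η (fun t _ => hlt t) s
  have e1 : ∀ t, M.trW (pth x ξ t) (pth y η t) s =
      M.mat (pth x ξ t) (pth y η t) s 0 0 * R t 0 0 +
        (M.mat (pth x ξ t) (pth y η t) s 0 1 * R t 1 0 +
          M.mat (pth x ξ t) (pth y η t) s 1 0 * R t 0 1 +
          M.mat (pth x ξ t) (pth y η t) s 1 1 * R t 1 1) := fun t => by
    rw [Mdl.trW, hq, mprod_succ', hR]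
    simp only [Matrix.trace_fin_two, Matrix.mul_apply, Fin.sum_univ_two, Function.iterate_zero,
      id_eq]
    ring
  simp only [e1] at hC
  have c1 := (Rigid_split ((lA 0 0).mul (lR 0 0)) ((((lA 0 1).mul (lR 1 0)).add
    ((lA 1 0).mul (lR 0 1))).add ((lA 1 1).mul (lR 1 1))) hC).1
  obtain ⟨k, hw⟩ : ∃ k, ∀ t, M.tw (pth x ξ t) (pth y η t) s = M.tw x y s * Real.exp (t * k) :=
    ⟨η (M.base s) + ∑ m ∈ range (M.oi s), ξ ((M.φ ^ (m + 1)) (M.base s)) +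
      ∑ m ∈ range (M.oj s), ξ ((M.φ ^ (m + 1)) (M.κ (M.base s))), fun t => by
        simp only [Mdl.tw, Pr_pth, mul_add, Real.exp_add]
        rw [pth]
        ring⟩
  have pw : 0 < M.tw x y s :=
    mul_pos (mul_pos (h.y_pos _) (Pr_pos _ h.x_pos _ _)) (Pr_pos _ h.x_pos _ _)
  have pG : 0 < 1 / (1 - Pr M.φ x (M.bs s) (M.per (M.bs s)) ^ 2) :=
    one_div_pos.2 (sub_pos.2 (pow_lt_one₀ (Pr_pos _ h.x_pos _ _).le (h.lt _) two_ne_zero))
  obtain ⟨A, hA⟩ : ∃ A : ℝ → ℝ, A = fun t => 1 / (1 - Pr M.φ x (M.bs s) (M.per (M.bs s)) ^ 2) *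
      (M.tw x y s * Real.exp (t * k)) * M.sg (pth x ξ t) (M.tgt s) * pth x ξ t (M.tgt s) *
        R t 0 0 := ⟨_, rfl⟩
  have lA' : LC A := hA ▸ ((((LC.const pG.le).mul (LC.exp pw.le k)).mul
    (lc_sig M.φ h.x_pos ξ fun t _ => hlt t _)).mul (LC.exp (h.x_pos _).le _)).mul (lR 0 0)
  have pA : 0 < A 0 := hA ▸ mul_pos (mul_pos (mul_pos (mul_pos pG (mul_pos pw (Real.exp_pos _)))
    (sig_pos M.φ (px 0) (hlt 0 _))) (px 0 _)) (pR 0)
  have e2 : ∀ t, M.mat (pth x ξ t) (pth y η t) s 0 0 * R t 0 0 =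
      x (M.tgt s) / M.tw x y s * Real.exp (t * (ξ (M.tgt s) - k)) * R t 0 0 +
        ∑ i ∈ range (M.per (M.bs s)), Pr M.φ (pth x ξ t) (M.bs s) i *
          Pr M.φ (pth x ξ t) (M.bs s) i * A t := fun t => by
    have a : M.sg (pth x ξ t) (M.bs s) = (∑ i ∈ range (M.per (M.bs s)),
        Pr M.φ (pth x ξ t) (M.bs s) i * Pr M.φ (pth x ξ t) (M.bs s) i) *
          (1 / (1 - Pr M.φ x (M.bs s) (M.per (M.bs s)) ^ 2)) := by
      rw [Mdl.sg, sig, hX, mul_one_div]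
      simp only [sq]
    have b : pth x ξ t (M.tgt s) / (M.tw x y s * Real.exp (t * k)) =
        x (M.tgt s) / M.tw x y s * Real.exp (t * (ξ (M.tgt s) - k)) := by
      rw [pth, mul_sub, Real.exp_sub, div_mul_div_comm]
    rw [← sum_mul, Mdl.mat, if_neg (by rw [hk]; decide), if_neg (by rw [hk]; decide), hw, a, hA,
      ← b]
    simp only [mJ, Matrix.mul_apply, Fin.sum_univ_two, Matrix.of_apply, Matrix.cons_val_zero,
      Matrix.cons_val_one, Matrix.cons_val', Matrix.cons_val_fin_one]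
    ring
  have lP : ∀ i, LC fun t => Pr M.φ (pth x ξ t) (M.bs s) i := fun i =>
    (LC.exp (Pr_pos M.φ h.x_pos (M.bs s) i).le _).congr fun t _ => Pr_pth _ _ _ _ _ _
  simp only [e2] at c1
  obtain ⟨c2, c3⟩ := Rigid_split ((LC.exp (div_pos (h.x_pos _) pw).le _).mul (lR 0 0))
    (LC.sum fun i _ => ((lP i).mul (lP i)).mul lA') c1
  have c4 := fun i (hi : i < M.per (M.bs s)) =>
    Rigid_sum (fun i _ => ((lP i).mul (lP i)).mul lA') c3 (mem_range.2 hi)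
  have p0 : 0 < M.per (M.bs s) := Nat.pos_of_ne_zero fun e => by
    have := h.lt (M.bs s)
    simp [e, Pr] at this
  have c5 : A 1 = A 0 := by simpa [Pr] using c4 0 p0
  have c6 : ∀ i ≤ M.per (M.bs s), Pr M.φ (pth x ξ 1) (M.bs s) i = Pr M.φ x (M.bs s) i :=
    fun i hi => by
      rcases hi.eq_or_lt with rfl | hi
      · exact hX _ _
      · have a := c4 i hi
        simp only [c5, pth_zero] at a
        exact (mul_self_inj_of_nonneg (Pr_pos _ (px 1) _ _).le (Pr_pos _ h.x_pos _ _).le).1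
          (mul_right_cancel₀ pA.ne' a)
  refine ⟨fun d hd => ?_, fun e => ?_⟩
  · have a : M.φ.SameCycle (M.φ (M.bs s)) d := by
      rw [Mdl.base, inv_pow, Equiv.Perm.inv_def, ← Equiv.Perm.inv_def, ← zpow_natCast,
        ← zpow_neg, Equiv.Perm.sameCycle_zpow_left] at hd
      exact Equiv.Perm.sameCycle_apply_left.2 hd
    obtain ⟨n, -, rfl⟩ := a.exists_pow_eq'
    have b : (M.φ ^ n) (M.φ (M.bs s)) = (M.φ ^ (n % M.per (M.bs s) + 1)) (M.bs s) := by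
      rw [← Equiv.Perm.mul_apply, ← pow_succ, pow_succ', pow_succ', Equiv.Perm.mul_apply,
        Equiv.Perm.mul_apply, Equiv.Perm.coe_pow, Equiv.Perm.coe_pow, Mdl.per,
        Function.iterate_mod_minimalPeriod_eq]
    have c := Nat.mod_lt n p0
    have d := c6 _ (Nat.succ_le_of_lt c)
    rw [Pr_succ, Pr_succ, c6 _ c.le] at d
    rw [b]
    exact mul_left_cancel₀ (Pr_pos _ h.x_pos _ _).ne' d
  · have a := c2.2
    have b := hw 1
    have hξ : ξ (M.tgt s) = 0 := by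
      have := congrFun e (M.tgt s)
      rwa [pth, one_mul, mul_eq_left₀ (h.x_pos _).ne', Real.exp_eq_one_iff] at this
    rw [hA] at c5
    simp only [e, pth_zero, one_mul, zero_mul, Real.exp_zero, mul_one, hξ, zero_sub] at a b c5
    have s1 := (sig_pos M.φ h.x_pos (h.lt (M.tgt s))).ne'
    have s2 := (h.x_pos (M.tgt s)).ne'
    have a1 : Real.exp (-k) * R 1 0 0 = R 0 0 0 :=
      mul_left_cancel₀ (div_pos (h.x_pos (M.tgt s)) pw).ne' (by rw [← a, mul_assoc])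
    have a2 : Real.exp k * R 1 0 0 = R 0 0 0 :=
      mul_left_cancel₀ (mul_ne_zero (mul_ne_zero (mul_ne_zero pG.ne' pw.ne') s1) s2)
        (by rw [Mdl.sg] at c5; linear_combination c5)
    have a3 := Real.exp_injective (mul_right_cancel₀ (pR 1).ne' (a1.trans a2.symm))
    have a4 : k = 0 := by linarith
    rw [a4, Real.exp_zero, mul_one, Mdl.tw, Mdl.tw] at b
    exact mul_right_cancel₀ (Pr_pos _ h.x_pos _ _).ne'
      (mul_right_cancel₀ (Pr_pos _ h.x_pos _ _).ne' b)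

theorem Mdl.rigid (M : Mdl D S) {x y x' y' : D → ℝ} {T T' : ℝ} (h : M.Real x y T)
    (h' : M.Real x' y' T') : x = x' ∧ ∀ β, M.κ β ≠ β → y β = y' β := by
  rcases isEmpty_or_nonempty D with hD | hD
  · exact ⟨funext fun d => hD.elim d, fun d => hD.elim d⟩
  have ex := Rigid_one h.x_pos h'.x_pos
  have ey := Rigid_one h.y_pos h'.y_pos
  have hξ : ∀ d, Real.log (x' (M.ι d)) - Real.log (x (M.ι d)) = Real.log (x' d) - Real.log (x d) :=
    fun d => by rw [h.x_ι, h'.x_ι]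
  have hη : ∀ d, Real.log (y' (M.κ d)) - Real.log (y (M.κ d)) = Real.log (y' d) - Real.log (y d) :=
    fun d => by rw [h.y_κ, h'.y_κ]
  obtain ⟨a, b⟩ := Rigid_tr M h (ex.symm ▸ ey.symm ▸ h') hξ hη
  have e : x' = x := funext fun d => by
    obtain ⟨i, hi⟩ := h.base_ex d
    obtain ⟨s, h1, h2, h3⟩ := h.cover _ hi
    have := (Rigid_key M h a h1 h2 (b s h1)).1 d (by
      rw [h3]
      exact Equiv.Perm.sameCycle_pow_left.2 (Equiv.Perm.SameCycle.refl _ _))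
    rwa [ex] at this
  refine ⟨e.symm, fun β hβ => ?_⟩
  obtain ⟨s, h1, h2, rfl⟩ := h.cover _ hβ
  have := (Rigid_key M h a h1 h2 (b s h1)).2 (ex.trans e)
  rw [ey] at this
  exact this.symm

omit [Fintype D] [Fintype S] in
lemma Rigid_reach (M : Mdl D S) {x y y' : D → ℝ} (e : ∀ β, M.κ β ≠ β → y β = y' β) {d₀ d : D}
    {g : SL(2, ℝ)} (h : M.Reach x y d₀ d g) : M.Reach x y' d₀ d g := by
  induction h with
  | base => exact .base
  | neg _ ih => exact .neg ih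
  | nu _ ih => exact .nu ih
  | io _ ih => exact .io ih
  | ka hd _ ih => exact e _ hd ▸ .ka hd ih

theorem Mdl.cls_eq (M : Mdl D S) [Nonempty D] {x y x' y' : D → ℝ} {T T' : ℝ} (h : M.Real x y T)
    (h' : M.Real x' y' T') {Γ Γ' : Subgroup SL(2, ℝ)} (g : M.Gen Γ x y) (g' : M.Gen Γ' x' y') :
    cls Γ = cls Γ' := by
  obtain ⟨rfl, e⟩ := M.rigid h h'
  obtain ⟨d₀⟩ := ‹Nonempty D›
  obtain ⟨F, hF⟩ := g d₀
  obtain ⟨F', hF'⟩ := g' d₀
  refine (cls_eq_of_conj (M := F' * F⁻¹) fun γ => ?_).symm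
  have : F⁻¹ * ((F' * F⁻¹)⁻¹ * γ * (F' * F⁻¹)) * F = F'⁻¹ * γ * F' := by group
  rw [hF, hF', this]
  exact ⟨Rigid_reach M fun β hβ => (e β hβ).symm, Rigid_reach M e⟩

end

end Pool.Agent.P.MP_d39174_gt
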