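import Pool.Agent.P.MP_d39174_gt.MdlDef

/-! Log-convex functions and convexity of lengths. -/

namespace Pool.Agent.P.MP_d39174_gt

open UpperHalfPlane MatrixGroups

noncomputable section

open Finset

/-- Nonnegative log-convex functions on the unit interval. -/
def LC (f : ℝ → ℝ) : Prop :=
  (∀ t ∈ Set.Icc (0 : ℝ) 1, 0 ≤ f t) ∧ ∀ a ∈ Set.Icc (0 : ℝ) 1, ∀ b ∈ Set.Icc (0 : ℝ) 1,
    ∀ θ ∈ Set.Icc (0 : ℝ) 1, f ((1 - θ) * a + θ * b) ≤ f a ^ (1 - θ) * f b ^ θ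

lemma Rigid1_mem {a b θ : ℝ} (ha : a ∈ Set.Icc (0 : ℝ) 1) (hb : b ∈ Set.Icc (0 : ℝ) 1)
    (hθ : θ ∈ Set.Icc (0 : ℝ) 1) : (1 - θ) * a + θ * b ∈ Set.Icc (0 : ℝ) 1 :=
  convex_Icc (0 : ℝ) 1 ha hb (sub_nonneg.2 hθ.2) hθ.1 (sub_add_cancel 1 θ)

lemma Rigid1_self {c : ℝ} (h : 0 ≤ c) (θ : ℝ) : c ^ (1 - θ) * c ^ θ = c := by
  rw [← Real.rpow_add' h (by simp), sub_add_cancel, Real.rpow_one]

lemma Rigid1_exp {c : ℝ} (h : 0 ≤ c) (u v θ : ℝ) :
    (c * Real.exp u) ^ (1 - θ) * (c * Real.exp v) ^ θ = c * Real.exp ((1 - θ) * u + θ * v) := by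
  rw [Real.mul_rpow h (Real.exp_pos _).le, Real.mul_rpow h (Real.exp_pos _).le, ← Real.exp_mul,
    ← Real.exp_mul, mul_mul_mul_comm, Rigid1_self h, ← Real.exp_add, mul_comm u, mul_comm v]

lemma Rigid1_holder {a b c d θ : ℝ} (ha : 0 ≤ a) (hb : 0 ≤ b) (hc : 0 ≤ c) (hd : 0 ≤ d)
    (hθ : θ ∈ Set.Icc (0 : ℝ) 1) :
    a ^ (1 - θ) * b ^ θ + c ^ (1 - θ) * d ^ θ ≤ (a + c) ^ (1 - θ) * (b + d) ^ θ := by
  rcases hθ.1.eq_or_lt with rfl | h0
  · simp
  rcases hθ.2.eq_or_lt with rfl | h1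
  · simp
  have h1' : 0 < 1 - θ := sub_pos.2 h1
  rcases (add_nonneg ha hc).eq_or_lt with hP | hP
  · obtain rfl : a = 0 := by linarith
    obtain rfl : c = 0 := by linarith
    simp [Real.zero_rpow h1'.ne']
  rcases (add_nonneg hb hd).eq_or_lt with hQ | hQ
  · obtain rfl : b = 0 := by linarith
    obtain rfl : d = 0 := by linarith
    simp [Real.zero_rpow h0.ne']
  have k1 := Real.geom_mean_le_arith_mean2_weighted h1'.le h0.le (div_nonneg ha hP.le)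
    (div_nonneg hb hQ.le) (sub_add_cancel 1 θ)
  have k2 := Real.geom_mean_le_arith_mean2_weighted h1'.le h0.le (div_nonneg hc hP.le)
    (div_nonneg hd hQ.le) (sub_add_cancel 1 θ)
  rw [Real.div_rpow ha hP.le, Real.div_rpow hb hQ.le, div_mul_div_comm] at k1
  rw [Real.div_rpow hc hP.le, Real.div_rpow hd hQ.le, div_mul_div_comm] at k2
  have e : (1 - θ) * (a / (a + c)) + θ * (b / (b + d)) +
      ((1 - θ) * (c / (a + c)) + θ * (d / (b + d))) = 1 := by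
    field_simp
    ring
  have k3 := add_le_add k1 k2
  rwa [e, ← add_div,
    div_le_one (mul_pos (Real.rpow_pos_of_pos hP _) (Real.rpow_pos_of_pos hQ _))] at k3

lemma LC.congr {f g : ℝ → ℝ} (h : LC f) (e : ∀ t ∈ Set.Icc (0 : ℝ) 1, g t = f t) : LC g := by
  refine ⟨fun t ht => e t ht ▸ h.1 t ht, fun a ha b hb θ hθ => ?_⟩
  rw [e _ (Rigid1_mem ha hb hθ), e a ha, e b hb]
  exact h.2 a ha b hb θ hθ
lemma LC.const {c : ℝ} (h : 0 ≤ c) : LC fun _ => c :=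
  ⟨fun _ _ => h, fun _ _ _ _ θ _ => (Rigid1_self h θ).ge⟩
lemma LC.exp {c : ℝ} (h : 0 ≤ c) (k : ℝ) : LC fun t => c * Real.exp (t * k) := by
  refine ⟨fun t _ => mul_nonneg h (Real.exp_pos _).le, fun a _ b _ θ _ => le_of_eq ?_⟩
  show c * Real.exp (((1 - θ) * a + θ * b) * k) = _
  rw [Rigid1_exp h, add_mul, mul_assoc, mul_assoc]
lemma LC.add {f g : ℝ → ℝ} (hf : LC f) (hg : LC g) : LC fun t => f t + g t :=
  ⟨fun t ht => add_nonneg (hf.1 t ht) (hg.1 t ht), fun a ha b hb θ hθ =>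
    (add_le_add (hf.2 a ha b hb θ hθ) (hg.2 a ha b hb θ hθ)).trans
      (Rigid1_holder (hf.1 a ha) (hf.1 b hb) (hg.1 a ha) (hg.1 b hb) hθ)⟩
lemma LC.mul {f g : ℝ → ℝ} (hf : LC f) (hg : LC g) : LC fun t => f t * g t := by
  refine ⟨fun t ht => mul_nonneg (hf.1 t ht) (hg.1 t ht), fun a ha b hb θ hθ => ?_⟩
  rw [Real.mul_rpow (hf.1 a ha) (hg.1 a ha), Real.mul_rpow (hf.1 b hb) (hg.1 b hb),
    mul_mul_mul_comm]
  exact mul_le_mul (hf.2 a ha b hb θ hθ) (hg.2 a ha b hb θ hθ) (hg.1 _ (Rigid1_mem ha hb hθ))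
    (mul_nonneg (Real.rpow_nonneg (hf.1 a ha) _) (Real.rpow_nonneg (hf.1 b hb) _))
lemma LC.sum {ι : Type*} {s : Finset ι} {f : ι → ℝ → ℝ} (h : ∀ i ∈ s, LC (f i)) :
    LC fun t => ∑ i ∈ s, f i t := by
  classical
  induction s using Finset.induction_on with
  | empty => exact (LC.const le_rfl).congr fun t _ => sum_empty
  | insert i s hi ih =>
    exact ((h i (mem_insert_self i s)).add (ih fun j hj => h j (mem_insert_of_mem hj))).congr
      fun t _ => sum_insert hi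
lemma LC.geom {c k : ℝ} (h : 0 ≤ c) (h1 : ∀ t ∈ Set.Icc (0 : ℝ) 1, c * Real.exp (t * k) < 1) :
    LC fun t => 1 / (1 - c * Real.exp (t * k)) := by
  refine ⟨fun t ht => (one_div_pos.2 (sub_pos.2 (h1 t ht))).le, fun a ha b hb θ hθ => ?_⟩
  have pa := sub_pos.2 (h1 a ha)
  have pb := sub_pos.2 (h1 b hb)
  have k1 := Rigid1_holder pa.le pb.le ((LC.exp h k).1 a ha) ((LC.exp h k).1 b hb) hθ
  have k2 := (LC.exp h k).2 a ha b hb θ hθ
  rw [sub_add_cancel, sub_add_cancel, Real.one_rpow, Real.one_rpow, mul_one] at k1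
  show 1 / _ ≤ (1 / _) ^ (1 - θ) * (1 / _) ^ θ
  rw [Real.div_rpow zero_le_one pa.le, Real.div_rpow zero_le_one pb.le, Real.one_rpow,
    Real.one_rpow, div_mul_div_comm, mul_one]
  refine one_div_le_one_div_of_le
    (mul_pos (Real.rpow_pos_of_pos pa _) (Real.rpow_pos_of_pos pb _)) ?_
  linarith
/-- In a sum of log-convex functions that takes the same value at `0`, `1/2`, `1`, every term
takes the same value at `0` and `1`. -/
lemma LC.split {m r : ℝ → ℝ} (hm : LC m) (hr : LC r) (h1 : m (1 / 2) + r (1 / 2) = m 0 + r 0)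
    (h2 : m 1 + r 1 = m 0 + r 0) : m 0 = m 1 := by
  have z0 : (0 : ℝ) ∈ Set.Icc (0 : ℝ) 1 := ⟨le_rfl, zero_le_one⟩
  have z1 : (1 : ℝ) ∈ Set.Icc (0 : ℝ) 1 := ⟨zero_le_one, le_rfl⟩
  have key : ∀ {f : ℝ → ℝ}, LC f → ∃ u v : ℝ, u * u = f 0 ∧ v * v = f 1 ∧ f (1 / 2) ≤ u * v := by
    intro f hf
    have := hf.2 0 z0 1 z1 (1 / 2) ⟨by norm_num, by norm_num⟩
    rw [show (1 : ℝ) - 1 / 2 = 1 / 2 by norm_num, mul_zero, zero_add, mul_one,
      ← Real.sqrt_eq_rpow, ← Real.sqrt_eq_rpow] at this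
    exact ⟨_, _, Real.mul_self_sqrt (hf.1 0 z0), Real.mul_self_sqrt (hf.1 1 z1), this⟩
  obtain ⟨u, v, e1, e2, e3⟩ := key hm
  obtain ⟨u', v', f1, f2, f3⟩ := key hr
  have : (u - v) ^ 2 ≤ 0 := by nlinarith [sq_nonneg (u' - v')]
  have huv : u = v := sub_eq_zero.1 (pow_eq_zero_iff two_ne_zero |>.1
    (le_antisymm this (sq_nonneg _)))
  rw [← e1, ← e2, huv]

/-- Matrix paths with log-convex entries. -/
def MLC (A : ℝ → M2) : Prop := ∀ i j, LC fun t => A t i j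

lemma MLC.one : MLC fun _ => 1 := fun i j => LC.const (by
  rw [Matrix.one_apply]
  split_ifs
  exacts [zero_le_one, le_rfl])
lemma MLC.mul {A A' : ℝ → M2} (h : MLC A) (h' : MLC A') : MLC fun t => A t * A' t :=
  fun i j => (LC.sum (s := univ) fun k _ => (h i k).mul (h' k j)).congr
    fun _ _ => Matrix.mul_apply
lemma MLC.mprod {A : ℕ → ℝ → M2} (h : ∀ m, MLC (A m)) (p : ℕ) :
    MLC fun t => mprod (fun m => A m t) p := by
  induction p with
  | zero => exact MLC.one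
  | succ p ih => exact ih.mul (h p)
lemma det_mprod {A : ℕ → M2} (h : ∀ m, (A m).det = 1) (p : ℕ) : (mprod A p).det = 1 := by
  induction p with
  | zero => exact Matrix.det_one
  | succ p ih => rw [mprod, Matrix.det_mul, ih, h, mul_one]
lemma mprod_succ' (A : ℕ → M2) (p : ℕ) :
    mprod A (p + 1) = A 0 * mprod (fun m => A (m + 1)) p := by
  induction p with
  | zero => simp [mprod]
  | succ p ih => rw [mprod, ih, mprod, mul_assoc]
lemma mprod_diag_pos {A : ℕ → M2} (h0 : ∀ m i j, 0 ≤ A m i j) (h1 : ∀ m i, 0 < A m i i) (p : ℕ) :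
    (∀ i j, 0 ≤ mprod A p i j) ∧ ∀ i, 0 < mprod A p i i := by
  induction p with
  | zero =>
    refine ⟨fun i j => ?_, fun i => by simp [mprod]⟩
    rw [mprod, Matrix.one_apply]
    split_ifs
    exacts [zero_le_one, le_rfl]
  | succ p ih =>
    refine ⟨fun i j => ?_, fun i => ?_⟩
    · rw [mprod, Matrix.mul_apply]
      exact sum_nonneg fun k _ => mul_nonneg (ih.1 i k) (h0 p k j)
    · rw [mprod, Matrix.mul_apply]
      exact sum_pos' (fun k _ => mul_nonneg (ih.1 i k) (h0 p k i))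
        ⟨i, mem_univ i, mul_pos (ih.2 i) (h1 p i)⟩

lemma Rigid1_tr_pow {A : M2} (hd : A.det = 1) {L : ℝ} (hL : A.trace = 2 * Real.cosh L) (n : ℕ) :
    (A ^ n).trace = 2 * Real.cosh (n * L) := by
  have ch : A * A = A.trace • A - 1 := by
    rw [Matrix.det_fin_two] at hd
    ext i j
    fin_cases i <;> fin_cases j <;>
      simp [Matrix.mul_apply, Fin.sum_univ_two, Matrix.trace_fin_two] <;> linarith
  induction n using Nat.twoStepInduction with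
  | zero => simp
  | one => simpa using hL
  | more n h0 h1 =>
    have e : A ^ (n + 2) = A.trace • A ^ (n + 1) - A ^ n := by
      rw [pow_succ, pow_succ, mul_assoc, ch, mul_sub, mul_one, Matrix.mul_smul]
    rw [e, Matrix.trace_sub, Matrix.trace_smul, h0, h1, hL, smul_eq_mul]
    have a1 := Real.cosh_add (((n + 1 : ℕ) : ℝ) * L) L
    have a2 := Real.cosh_sub (((n + 1 : ℕ) : ℝ) * L) L
    rw [show ((n + 1 : ℕ) : ℝ) * L + L = ((n + 2 : ℕ) : ℝ) * L by push_cast; ring] at a1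
    rw [show ((n + 1 : ℕ) : ℝ) * L - L = (n : ℝ) * L by push_cast; ring] at a2
    linarith

lemma Rigid1_cosh {x : ℝ} (hx : 0 ≤ x) :
    Real.exp x ≤ 2 * Real.cosh x ∧ 2 * Real.cosh x ≤ 2 * Real.exp x := by
  have h1 := Real.exp_pos (-x)
  have h2 : Real.exp (-x) ≤ Real.exp x := Real.exp_le_exp.2 (by linarith)
  rw [Real.cosh_eq]
  constructor <;> linarith

/-- Convexity of the translation length. -/
lemma kingman {A : ℝ → M2} (h : MLC A) (hd : ∀ t ∈ Set.Icc (0 : ℝ) 1, (A t).det = 1) :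
    (∀ t ∈ Set.Icc (0 : ℝ) 1, 2 ≤ (A t).trace) ∧
      ConvexOn ℝ (Set.Icc (0 : ℝ) 1) fun t => Real.arcosh ((A t).trace / 2) := by
  have h2 : ∀ t ∈ Set.Icc (0 : ℝ) 1, 2 ≤ (A t).trace := fun t ht => by
    have e := hd t ht
    have a := (h 0 0).1 t ht
    have d := (h 1 1).1 t ht
    have bc := mul_nonneg ((h 0 1).1 t ht) ((h 1 0).1 t ht)
    rw [Matrix.det_fin_two] at e
    rw [Matrix.trace_fin_two]
    refine le_of_sq_le_sq ?_ (add_nonneg a d)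
    nlinarith [sq_nonneg (A t 0 0 - A t 1 1)]
  have h3 : ∀ t ∈ Set.Icc (0 : ℝ) 1, 1 ≤ (A t).trace / 2 := fun t ht => by linarith [h2 t ht]
  refine ⟨h2, convex_Icc 0 1, fun a ha b hb u θ hu hθ huθ => ?_⟩
  obtain rfl : u = 1 - θ := by linarith
  have hθ' : θ ∈ Set.Icc (0 : ℝ) 1 := ⟨hθ, by linarith⟩
  have hm := Rigid1_mem ha hb hθ'
  set L : ℝ → ℝ := fun t => Real.arcosh ((A t).trace / 2) with hL
  show L ((1 - θ) * a + θ * b) ≤ (1 - θ) * L a + θ * L b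
  have L0 : ∀ (n : ℕ), ∀ t ∈ Set.Icc (0 : ℝ) 1, 0 ≤ n * L t := fun n t ht =>
    mul_nonneg n.cast_nonneg (Real.arcosh_nonneg (h3 t ht))
  have hp : ∀ n : ℕ, MLC fun t => A t ^ n := fun n => by
    induction n with
    | zero => simpa only [pow_zero] using MLC.one
    | succ n ih => simpa only [pow_succ] using ih.mul h
  have hc : ∀ n : ℕ, LC fun t => 2 * Real.cosh (n * L t) := fun n =>
    (((hp n) 0 0).add ((hp n) 1 1)).congr fun t ht => by
      rw [← Rigid1_tr_pow (hd t ht) (by rw [Real.cosh_arcosh (h3 t ht)]; ring) n,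
        Matrix.trace_fin_two]
  have key : ∀ n : ℕ, n * (L ((1 - θ) * a + θ * b) - ((1 - θ) * L a + θ * L b)) ≤ 1 := by
    intro n
    have k1 := (Rigid1_cosh (L0 n _ hm)).1.trans ((hc n).2 a ha b hb θ hθ')
    have k2 := k1.trans (mul_le_mul
      (Real.rpow_le_rpow ((hc n).1 a ha) (Rigid1_cosh (L0 n a ha)).2 hu)
      (Real.rpow_le_rpow ((hc n).1 b hb) (Rigid1_cosh (L0 n b hb)).2 hθ)
      (Real.rpow_nonneg ((hc n).1 b hb) _) (Real.rpow_nonneg (by positivity) _))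
    rw [Rigid1_exp zero_le_two] at k2
    have k3 : (2 : ℝ) ≤ Real.exp 1 := by linarith [Real.add_one_le_exp (1 : ℝ)]
    have k4 := k2.trans (mul_le_mul_of_nonneg_right k3 (Real.exp_pos _).le)
    rw [← Real.exp_add, Real.exp_le_exp] at k4
    linarith
  by_contra hlt
  have hδ := sub_pos.2 (not_le.1 hlt)
  obtain ⟨n, hn⟩ := exists_nat_gt (1 / (L ((1 - θ) * a + θ * b) - ((1 - θ) * L a + θ * L b)))
  exact absurd (key n) (not_le.2 ((div_lt_iff₀ hδ).1 hn))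

lemma Rigid1_slope {f : ℝ → ℝ} {T : ℝ} (hT : 2 < T)
    (hc : ConvexOn ℝ (Set.Icc (0 : ℝ) 1) fun t => Real.arcosh (f t / 2)) (h0 : f 0 = T)
    (d0 : DifferentiableAt ℝ f 0) {y : ℝ} (y0 : 0 < y) (y1 : y ≤ 1) :
    (√((T / 2) ^ 2 - 1))⁻¹ / 2 * deriv f 0 * y ≤ Real.arcosh (f y / 2) - Real.arcosh (T / 2) := by
  have hd : HasDerivAt (fun t => Real.arcosh (f t / 2))
      ((√((f 0 / 2) ^ 2 - 1))⁻¹ * (deriv f 0 / 2)) 0 :=
    HasDerivAt.comp (h₂ := Real.arcosh) (h := fun t => f t / 2) (0 : ℝ)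
      (Real.hasDerivAt_arcosh (x := f 0 / 2) (by rw [h0]; exact Set.mem_Ioi.2 (by linarith)))
      (d0.hasDerivAt.div_const 2)
  have := hc.le_slope_of_hasDerivAt ⟨le_rfl, zero_le_one⟩ ⟨y0.le, y1⟩ y0 hd
  rw [slope_def_field, sub_zero, le_div_iff₀ y0, h0] at this
  linarith

lemma Rigid1_pos {T : ℝ} (hT : 2 < T) : 0 < (√((T / 2) ^ 2 - 1))⁻¹ / 2 :=
  half_pos (inv_pos.2 (Real.sqrt_pos.2 (by nlinarith)))

lemma Rigid1_le {ι : Type*} {s : Finset ι} (hs : s.Nonempty) {f : ι → ℝ → ℝ} {T T' : ℝ}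
    (hT : 2 < T) (hT' : 2 < T')
    (hc : ∀ i ∈ s, ConvexOn ℝ (Set.Icc (0 : ℝ) 1) fun t => Real.arcosh (f i t / 2))
    (h0 : ∀ i ∈ s, f i 0 = T) (h1 : ∀ i ∈ s, f i 1 = T')
    (d0 : ∀ i ∈ s, DifferentiableAt ℝ (f i) 0) {c : ι → ℝ} (p : ∀ i ∈ s, 0 < c i)
    (e : ∑ i ∈ s, c i * deriv (f i) 0 = 0) : T ≤ T' := by
  by_contra hlt
  have h3 : Real.arcosh (T' / 2) < Real.arcosh (T / 2) :=
    (Real.arcosh_lt_arcosh (by linarith) (by linarith)).2 (by linarith [not_le.1 hlt])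
  refine (sum_neg (fun i hi => mul_neg_of_pos_of_neg (p i hi) ?_) hs).ne e
  have := Rigid1_slope hT (hc i hi) (h0 i hi) (d0 i hi) one_pos le_rfl
  rw [h1 i hi, mul_one] at this
  exact neg_of_mul_neg_right (this.trans_lt (sub_neg.2 h3)) (Rigid1_pos hT).le

/-- Two critical endpoints force constant traces. -/
lemma tr_const {ι : Type*} {s : Finset ι} (hs : s.Nonempty) {f : ι → ℝ → ℝ} {T T' : ℝ}
    (hT : 2 < T) (hT' : 2 < T') (h2 : ∀ i ∈ s, ∀ t ∈ Set.Icc (0 : ℝ) 1, 2 ≤ f i t)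
    (hc : ∀ i ∈ s, ConvexOn ℝ (Set.Icc (0 : ℝ) 1) fun t => Real.arcosh (f i t / 2))
    (h0 : ∀ i ∈ s, f i 0 = T) (h1 : ∀ i ∈ s, f i 1 = T')
    (d0 : ∀ i ∈ s, DifferentiableAt ℝ (f i) 0)
    (d1 : ∀ i ∈ s, DifferentiableAt ℝ (fun t => f i (1 - t)) 0)
    {c c' : ι → ℝ} (p : ∀ i ∈ s, 0 < c i) (p' : ∀ i ∈ s, 0 < c' i)
    (e : ∑ i ∈ s, c i * deriv (f i) 0 = 0)
    (e' : ∑ i ∈ s, c' i * deriv (fun t => f i (1 - t)) 0 = 0) :
    T = T' ∧ ∀ i ∈ s, f i (1 / 2) = T := by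
  have hc' : ∀ i ∈ s, ConvexOn ℝ (Set.Icc (0 : ℝ) 1) fun t => Real.arcosh (f i (1 - t) / 2) := by
    refine fun i hi => ⟨convex_Icc 0 1, fun a ha b hb u v hu hv huv => ?_⟩
    have := (hc i hi).2 (x := 1 - a) ⟨by linarith [ha.2], by linarith [ha.1]⟩ (y := 1 - b)
      ⟨by linarith [hb.2], by linarith [hb.1]⟩ hu hv huv
    rwa [show u • (1 - a) + v • (1 - b) = 1 - (u • a + v • b) by
      simp only [smul_eq_mul]; linear_combination huv] at this
  obtain rfl : T = T' := le_antisymm (Rigid1_le hs hT hT' hc h0 h1 d0 p e)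
    (Rigid1_le (f := fun i t => f i (1 - t)) hs hT' hT hc' (by simpa using h1) (by simpa using h0)
      d1 p' e')
  refine ⟨rfl, fun i hi => ?_⟩
  have hK := Rigid1_pos hT
  have hz : c i * deriv (f i) 0 = 0 := by
    refine (sum_eq_zero_iff_of_nonpos fun j hj => mul_nonpos_of_nonneg_of_nonpos (p j hj).le ?_).1
      e i hi
    have := Rigid1_slope hT (hc j hj) (h0 j hj) (d0 j hj) one_pos le_rfl
    rw [h1 j hj, mul_one, sub_self] at this
    exact nonpos_of_mul_nonpos_right this hK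
  have k1 := Rigid1_slope hT (hc i hi) (h0 i hi) (d0 i hi) one_half_pos one_half_lt_one.le
  rw [(mul_eq_zero.1 hz).resolve_left (p i hi).ne', mul_zero, zero_mul, sub_nonneg] at k1
  have k2 := (hc i hi).2 (x := 0) ⟨le_rfl, zero_le_one⟩ (y := 1) ⟨zero_le_one, le_rfl⟩
    one_half_pos.le one_half_pos.le (add_halves 1)
  simp only [smul_eq_mul, mul_zero, zero_add, mul_one, h0 i hi, h1 i hi] at k2
  have k3 := h2 i hi (1 / 2) ⟨one_half_pos.le, one_half_lt_one.le⟩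
  have k4 := (Real.arcosh_le_arcosh (by linarith) (by linarith)).1 k1
  have k5 := (Real.arcosh_le_arcosh (x := f i (1 / 2) / 2) (y := T / 2) (by linarith)
    (by linarith)).1 (by linarith)
  linarith

end

end Pool.Agent.P.MP_d39174_gt
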