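import Pool.Agent.P.MP_d39174_gt.Itin1
import Pool.Agent.P.MP_d39174_gt.Frame

/-! Step matrices of an itinerary and their products. -/

namespace Pool.Agent.P.MP_d39174_gt

open UpperHalfPlane MatrixGroups

noncomputable section

lemma Shear1_mul {P Q : ℝ → M2} {P' Q' : M2} (hP : ∀ i j, HasDerivAt (fun t => P t i j) (P' i j) 0)
    (hQ : ∀ i j, HasDerivAt (fun t => Q t i j) (Q' i j) 0) (i j : Fin 2) :
    HasDerivAt (fun t => (P t * Q t) i j) ((P' * Q 0 + P 0 * Q') i j) 0 := by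
  simp only [Matrix.add_apply, Matrix.mul_apply, Fin.sum_univ_two]
  exact (((hP i 0).fun_mul (hQ 0 j)).fun_add ((hP i 1).fun_mul (hQ 1 j))).congr_deriv (by ring)

lemma Shear1_ad (g : SL(2, ℝ)) (x : V) : (g • x).mat * g.1 = g.1 * x.mat := by
  rw [mat_ad, mul_assoc, ← Matrix.SpecialLinearGroup.coe_mul, inv_mul_cancel,
    Matrix.SpecialLinearGroup.coe_one, mul_one]

lemma Shear1_exp (x ξ : ℝ) : HasDerivAt (fun t => x * Real.exp (t * ξ)) (ξ * x) 0 :=
  (((hasDerivAt_mul_const ξ).exp).const_mul x).congr_deriv (by simp [mul_comm])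

lemma Shear1_inv {x : ℝ} (hx : 0 < x) (ξ : ℝ) :
    HasDerivAt (fun t => 1 / (x * Real.exp (t * ξ))) (-(ξ / x)) 0 := by
  refine ((hasDerivAt_const (0 : ℝ) (1 : ℝ)).fun_div (Shear1_exp x ξ)
    (by positivity)).congr_deriv ?_
  simp only [zero_mul, Real.exp_zero]
  field_simp
  ring

/-- Product rule along a chain of frames. -/
lemma hasDerivAt_mprod {A : ℕ → ℝ → M2} {F g : ℕ → SL(2, ℝ)} {X Φ : ℕ → V}
    (h0 : ∀ m, (g m).1 = A m 0) (h1 : ∀ m, PM (F m * g m) (F (m + 1)))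
    (h2 : ∀ m i j, HasDerivAt (fun t => A m t i j) (((X m).mat * A m 0) i j) 0)
    (h3 : ∀ m, Φ (m + 1) = Φ m + F m • X m) (p : ℕ) :
    ∃ G : SL(2, ℝ), G.1 = mprod (fun m => A m 0) p ∧ PM (F 0 * G) (F p) ∧
      HasDerivAt (fun t => (mprod (fun m => A m t) p).trace)
        (((Φ p - Φ 0).mat * (F 0 * G * (F 0)⁻¹).1).trace) 0 := by
  have key : ∀ p, ∃ G : SL(2, ℝ), G.1 = mprod (fun m => A m 0) p ∧ PM (F 0 * G) (F p) ∧
      ∀ i j, HasDerivAt (fun t => mprod (fun m => A m t) p i j)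
        ((((F 0)⁻¹ • (Φ p - Φ 0)).mat * G.1) i j) 0 := by
    intro p
    induction p with
    | zero =>
      refine ⟨1, rfl, by rw [mul_one]; exact PM.refl _, fun i j => ?_⟩
      rw [sub_self, smul_zero, mat_zero, zero_mul]
      exact hasDerivAt_const _ _
    | succ p ih =>
      obtain ⟨G, e1, e2, e3⟩ := ih
      refine ⟨G * g p, by rw [Matrix.SpecialLinearGroup.coe_mul, e1, h0]; rfl, ?_, fun i j => ?_⟩
      · rw [← mul_assoc]
        exact (e2.mul (PM.refl _)).trans (h1 p)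
      · refine (Shear1_mul (P := fun t => mprod (fun m => A m t) p) e3 (h2 p) i j).congr_deriv ?_
        rw [h3, add_sub_right_comm, smul_add, ← e2.ad, mul_smul, inv_smul_smul, mat_add,
          Matrix.SpecialLinearGroup.coe_mul, h0, add_mul, ← e1]
        simp only [← mul_assoc, Shear1_ad]
  obtain ⟨G, e1, e2, e3⟩ := key p
  refine ⟨G, e1, e2, ?_⟩
  have h4 := (e3 0 0).fun_add (e3 1 1)
  simp only [← Matrix.trace_fin_two] at h4
  refine h4.congr_deriv ?_
  rw [mat_ad, inv_inv, mul_assoc, mul_assoc, Matrix.trace_mul_comm]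
  simp only [Matrix.SpecialLinearGroup.coe_mul, mul_assoc]

lemma hasDerivAt_mA {x : ℝ} (hx : 0 < x) (ξ : ℝ) (i j : Fin 2) :
    HasDerivAt (fun t => mA (x * Real.exp (t * ξ)) i j)
      (((ξ • (Nm * Nm * Sm x) • w0).mat * mA x) i j) 0 := by
  have e : (ξ • (Nm * Nm * Sm x) • w0).mat * mA x = !![ξ * x, -(ξ / x); 0, -(ξ / x)] := by
    rw [mat_smul, Matrix.smul_mul, ← NNS hx.ne', Shear1_ad, NNS hx.ne']
    ext i j
    fin_cases i <;> fin_cases j <;> simp [mA, V.mat, w0, div_eq_mul_inv]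
  rw [e]
  fin_cases i <;> fin_cases j
  exacts [Shear1_exp x ξ, Shear1_inv hx ξ, hasDerivAt_const _ _, Shear1_inv hx ξ]

lemma hasDerivAt_mB {x : ℝ} (hx : 0 < x) (ξ : ℝ) (i j : Fin 2) :
    HasDerivAt (fun t => mB (x * Real.exp (t * ξ)) i j)
      (((ξ • (-(Nm * Sm x)) • w0).mat * mB x) i j) 0 := by
  have e : (ξ • (-(Nm * Sm x)) • w0).mat * mB x = !![ξ * x, 0; ξ * x, -(ξ / x)] := by
    rw [mat_smul, Matrix.smul_mul, ← NS hx.ne', Shear1_ad, NS hx.ne']
    ext i j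
    fin_cases i <;> fin_cases j <;> simp [mB, V.mat, w0, div_eq_mul_inv]
  rw [e]
  fin_cases i <;> fin_cases j
  exacts [Shear1_exp x ξ, hasDerivAt_const _ _, Shear1_exp x ξ, Shear1_inv hx ξ]

lemma hasDerivAt_mJ {s s' : ℝ → ℝ} {ds ds' x y : ℝ} (hs : HasDerivAt s ds 0)
    (hs' : HasDerivAt s' ds' 0) (hx : 0 < x) (hy : 0 < y) (ξ η : ℝ) (i j : Fin 2) :
    HasDerivAt (fun t => mJ (s t) (s' t) (y * Real.exp (t * η)) (x * Real.exp (t * ξ)) i j)
      (((ds • E0 - η • Um (s 0) • w0 - ds' • (Um (s 0) * Sm y) • E0 -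
        ξ • (Um (s 0) * Sm y * Um (-s' 0)) • w0).mat * mJ (s 0) (s' 0) y x) i j) 0 := by
  have e0 : Sm y • E0 = ⟨0, 0, -y ^ 2⟩ := by
    have a0 : Sm y 0 0 = 0 := congrFun (congrFun (Sm_apply hy.ne') 0) 0
    have a1 : Sm y 1 0 = y := congrFun (congrFun (Sm_apply hy.ne') 1) 0
    ext <;> simp [ad_a, ad_b, ad_c, E0, a0, a1]
  have e1 : (Um (s 0) * Sm y) • E0 = ⟨-(y ^ 2 * s 0), y ^ 2 * s 0 ^ 2, -y ^ 2⟩ := by
    rw [mul_smul, e0]
    ext <;> simp [ad_a, ad_b, ad_c, Um]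
  have e2 : (Um (s 0) * Sm y * Um (-s' 0)) • w0 =
      -(Um (s 0) • w0) + (2 * s' 0) • (Um (s 0) * Sm y) • E0 := by
    rw [mul_smul, Um_w0, smul_sub, ad_real, mul_smul, Sm_w0 hy.ne', smul_neg, mul_neg,
      _root_.neg_smul, sub_neg_eq_add]
  have hX := Shear1_exp x ξ
  have hY := Shear1_exp y η
  refine (Shear1_mul (P := fun t => !![1, s t; 0, 1]) (P' := !![0, ds; 0, 0])
    (Q := fun t => !![x * Real.exp (t * ξ) / (y * Real.exp (t * η)), 0;
      y * Real.exp (t * η) * s' t * (x * Real.exp (t * ξ)),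
        y * Real.exp (t * η) / (x * Real.exp (t * ξ))])
    (Q' := !![(ξ - η) * x / y, 0; (η * s' 0 + ds' + ξ * s' 0) * (y * x), (η - ξ) * y / x])
    (fun i j => ?_) (fun i j => ?_) i j).congr_deriv ?_
  · fin_cases i <;> fin_cases j
    exacts [hasDerivAt_const _ _, hs, hasDerivAt_const _ _, hasDerivAt_const _ _]
  · fin_cases i <;> fin_cases j
    · refine (hX.fun_div hY (by positivity)).congr_deriv ?_
      simp
      field_simp
    · exact hasDerivAt_const _ _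
    · refine ((hY.fun_mul hs').fun_mul hX).congr_deriv ?_
      simp
      ring
    · refine (hY.fun_div hX (by positivity)).congr_deriv ?_
      simp
      field_simp
  · rw [e2, e1, Um_w0]
    fin_cases i <;> fin_cases j <;>
      simp [mJ, V.mat, w0, E0, Matrix.mul_apply, Fin.sum_univ_two] <;> field_simp <;> ring

namespace Tr

variable {Γ : Subgroup SL(2, ℝ)} {T : Tr Γ} {w : V}

lemma F_step (hw : Per Γ w) {d : T.D} (h : Str w d) :
    ∃ g : SL(2, ℝ), g.1 = smat D.x D.s yy w d ∧ PM (d.F * g) (τ w d).F := by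
  unfold smat τ
  split_ifs with h0 h1
  · exact ⟨_, NNS (D.x_pos _).ne', F_φ d⟩
  · exact ⟨_, NS (D.x_pos _).ne', F_ψ d⟩
  · obtain ⟨h2, h3, h4, -⟩ := kind_two h (by omega)
    exact ⟨_, USUS (yy_pos _ _).ne' (D.x_pos _).ne',
      F_jump (d' := T.ι (jmp w d)) (jmp_spec hw h2 h3.1 h4).1⟩

lemma smat_pos (w : V) (d : T.D) :
    (∀ i j, 0 ≤ smat D.x D.s yy w d i j) ∧ ∀ i, 0 < smat D.x D.s yy w d i i := by
  have h1 := (T.φ d).x_pos
  have h2 := (T.ψ d).x_pos
  have h3 := (T.ι (jmp w d)).x_pos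
  have h4 := (T.ι (jmp w d)).s_pos
  have h5 := d.s_pos
  have h6 := yy_pos d (T.ι (jmp w d))
  unfold smat
  split_ifs <;> simp only [Fin.forall_fin_two, mA, mB, mJ, Matrix.mul_fin_two, Matrix.of_apply,
    Matrix.cons_val', Matrix.cons_val_zero, Matrix.cons_val_one, Matrix.cons_val_fin_one] <;>
    refine ⟨⟨⟨?_, ?_⟩, ?_, ?_⟩, ?_, ?_⟩ <;> positivity

lemma trace_word (hw : Per Γ w) {d : T.D} (h : Str w d) {l : ℝ} {γ : Γ} (e : PM (ex l w) γ)
    {p : ℕ} (hp : (τ w)^[p] d = γ • d) :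
    (mprod (fun m => smat D.x D.s yy w ((τ w)^[m] d)) p).trace = 2 * Real.cosh l := by
  have hs : ∀ m, Str w ((τ w)^[m] d) := fun m => by
    induction m with
    | zero => exact h
    | succ m ih =>
      rw [Function.iterate_succ_apply']
      exact τ_str hw ih
  choose g hg hg' using fun m => F_step hw (hs m)
  obtain ⟨G, e1, e2, -⟩ := hasDerivAt_mprod (A := fun m _ => smat D.x D.s yy w ((τ w)^[m] d))
    (F := fun m => ((τ w)^[m] d).F) (X := fun _ => 0) (Φ := fun _ => 0) hg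
    (fun m => by simpa only [Function.iterate_succ_apply'] using hg' m)
    (fun m i j => by rw [mat_zero, zero_mul]; exact hasDerivAt_const _ _)
    (fun m => by rw [smul_zero, add_zero]) p
  simp only [hp, Function.iterate_zero_apply] at e2
  have e3 := ((e2.trans (F_smul γ d).symm).mul (PM.refl d.F⁻¹)).abs_tr
  obtain ⟨-, h2⟩ := mprod_diag_pos (fun m => (smat_pos w ((τ w)^[m] d)).1)
    (fun m => (smat_pos w ((τ w)^[m] d)).2) p
  rw [tr_conj, mul_inv_cancel_right, ← e.abs_tr, tr_ex hw.1, tr_eq, e1, Matrix.trace_fin_two,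
    abs_of_pos (add_pos (h2 0) (h2 1)), abs_of_pos (by positivity)] at e3
  rwa [Matrix.trace_fin_two]

end Tr

end

end Pool.Agent.P.MP_d39174_gt
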