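import Pool.Agent.P.MP_d39174_gt.RandDef

/-! One switching. -/

namespace Pool.Agent.P.MP_d39174_gt

open UpperHalfPlane MatrixGroups

noncomputable section

open Equiv

section aux

variable {C X : Type} {τ τ' : C → Perm X} {P P' : Set (C × X)} {x y z e e' : X × Bool}
  {k k' : ℕ} {p q : C × X}

/-- There is a walk of length at most `k` along the positions in `P`. -/
def Switch1R (τ : C → Perm X) (P : Set (C × X)) (x y : X × Bool) (k : ℕ) : Prop :=
  ∃ W : (Gr τ P).Walk x y, W.length ≤ k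

lemma Switch1R.refl (τ : C → Perm X) (P : Set (C × X)) (x : X × Bool) (k : ℕ) :
    Switch1R τ P x x k := ⟨.nil, Nat.zero_le _⟩

lemma Switch1R.symm (h : Switch1R τ P x y k) : Switch1R τ P y x k := by
  obtain ⟨W, h⟩ := h
  exact ⟨W.reverse, by rwa [SimpleGraph.Walk.length_reverse]⟩

lemma Switch1R.trans (h : Switch1R τ P x y k) (h' : Switch1R τ P y z k') :
    Switch1R τ P x z (k + k') := by
  obtain ⟨W, h⟩ := h
  obtain ⟨W', h'⟩ := h'
  exact ⟨W.append W', by rw [SimpleGraph.Walk.length_append]; omega⟩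

lemma Switch1R.one (hq : q ∈ P) (h : Joins τ q x y) : Switch1R τ P x y 1 :=
  ⟨.cons ⟨q, hq, h⟩ .nil, le_rfl⟩

lemma Switch1R.mono (h : Switch1R τ P x y k) (e : ∀ q ∈ P, q ∈ P' ∧ τ' q.1 q.2 = τ q.1 q.2)
    (hk : k ≤ k') : Switch1R τ' P' x y k' := by
  obtain ⟨W, h⟩ := h
  have : Gr τ P ≤ Gr τ' P' := by
    rintro x y ⟨q, hq, h⟩
    exact ⟨q, (e q hq).1, by unfold Joins at h ⊢; rwa [(e q hq).2]⟩
  exact ⟨W.mapLe this, by simpa using h.trans hk⟩

lemma Switch1R.ind {M : X × Bool → ℕ → Prop} (h0 : ∀ k, M y k)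
    (h1 : ∀ x z k, ∀ q ∈ P, Joins τ q x z → Switch1R τ P z y k → M z k → M x (k + 1))
    (h : Switch1R τ P x y k) : M x k := by
  obtain ⟨W, h⟩ := h
  induction W generalizing k with
  | nil => exact h0 k
  | cons a W ih =>
    obtain ⟨q, hq, a⟩ := a
    rw [SimpleGraph.Walk.length_cons] at h
    obtain ⟨k, rfl⟩ : ∃ j, k = j + 1 := ⟨k - 1, by omega⟩
    exact h1 _ _ k q hq a ⟨W, by omega⟩ (ih h0 h1 (by omega))

lemma Switch1_ends (h : Joins τ q x y) (h' : Joins τ q e e') :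
    (e = x ∧ e' = y) ∨ (e = y ∧ e' = x) := by
  rcases h with ⟨rfl, rfl⟩ | ⟨rfl, rfl⟩ <;> rcases h' with ⟨rfl, rfl⟩ | ⟨rfl, rfl⟩ <;> simp

lemma Switch1R.split (h : Switch1R τ P x y k) (q : C × X) :
    Switch1R τ (P \ {q}) x y k ∨ ∃ e e' k₁ k₂, Joins τ q e e' ∧ Switch1R τ (P \ {q}) x e k₁ ∧
      Switch1R τ (P \ {q}) e' y k₂ ∧ k₁ + k₂ + 1 ≤ k := by
  refine h.ind (M := fun x k => Switch1R τ (P \ {q}) x y k ∨ ∃ e e' k₁ k₂, Joins τ q e e' ∧
    Switch1R τ (P \ {q}) x e k₁ ∧ Switch1R τ (P \ {q}) e' y k₂ ∧ k₁ + k₂ + 1 ≤ k)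
    (fun k => .inl (.refl _ _ _ _)) fun x z k q' hq' a _ ih => ?_
  by_cases hq : q' = q
  · subst hq
    rcases ih with ih | ⟨e, e', k₁, k₂, j, -, h₂, hk⟩
    · exact .inr ⟨x, z, 0, k, a, .refl _ _ _ _, ih, by omega⟩
    · rcases Switch1_ends a j with ⟨-, rfl⟩ | ⟨-, rfl⟩
      · exact .inr ⟨x, e', 0, k₂, a, .refl _ _ _ _, h₂, by omega⟩
      · exact .inl (h₂.mono (fun _ h => ⟨h, rfl⟩) (by omega))
  · have s : Switch1R τ (P \ {q}) x z 1 := .one ⟨hq', hq⟩ a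
    rcases ih with ih | ⟨e, e', k₁, k₂, j, h₁, h₂, hk⟩
    · exact .inl (add_comm 1 k ▸ s.trans ih)
    · exact .inr ⟨e, e', 1 + k₁, k₂, j, s.trans h₁, h₂, by omega⟩

lemma Switch1R.bad (h : Switch1R τ P x y k) (j : Joins τ q x y) (hq : q ∉ P) (hk : k ≤ k') :
    Bad τ k' q := by
  have h' : Switch1R τ {p | p ≠ q} x y k' :=
    h.mono (fun p hp => ⟨fun e => hq (e ▸ hp), rfl⟩) hk
  rcases j with ⟨rfl, rfl⟩ | ⟨rfl, rfl⟩
  · exact h'
  · exact h'.symm

/-- The exchange lemma. -/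
lemma Switch1R.exch (h : Switch1R τ P x y k) (j : Joins τ p x y) (hq : p ≠ q) (hb : ¬Bad τ k q) :
    Switch1R τ (P \ {q}) x y k := by
  refine (h.split q).resolve_right ?_
  rintro ⟨e, e', k₁, k₂, j', h₁, h₂, hk⟩
  have m : ∀ r ∈ P \ {q}, r ∈ {r | r ≠ q} ∧ τ r.1 r.2 = τ r.1 r.2 := fun _ h => ⟨h.2, rfl⟩
  have s : Switch1R τ {r | r ≠ q} y x 1 := .one hq j.symm
  exact hb ((((h₂.mono m le_rfl).trans s).trans (h₁.mono m le_rfl)).bad j'.symm (by simp)
    (by omega))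

lemma Switch1R.height (h : Switch1R τ P x y k) (f : X × Bool → ℕ)
    (hf : ∀ q ∈ P, f (q.2, false) ≤ f (τ q.1 q.2, true) + 1 ∧
      f (τ q.1 q.2, true) ≤ f (q.2, false) + 1) : f x ≤ f y + k := by
  refine h.ind (M := fun x k => f x ≤ f y + k) (fun k => by omega) fun x z k q hq a _ ih => ?_
  have := hf q hq
  rcases a with ⟨rfl, rfl⟩ | ⟨rfl, rfl⟩ <;> omega

/-- The neighbour along a colour. -/
def Switch1N (τ : C → Perm X) : Option C × X × Bool → X × Bool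
  | (none, y) => y
  | (some c, u, false) => (τ c u, true)
  | (some c, u, true) => ((τ c).symm u, false)

end aux

lemma ball_card {C X : Type} [Fintype C] [Finite X] (τ : C → Perm X) (x : X × Bool) (K : ℕ) :
    {y | ∃ W : (Gr τ Set.univ).Walk x y, W.length ≤ K}.ncard ≤ (Fintype.card C + 1) ^ K := by
  induction K with
  | zero =>
    refine (Set.ncard_le_ncard (t := {x}) ?_).trans (by simp)
    rintro y ⟨W, h⟩
    exact (W.eq_of_length_eq_zero (Nat.le_zero.1 h)).symm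
  | succ K ih =>
    have s : {y | ∃ W : (Gr τ Set.univ).Walk x y, W.length ≤ K + 1} ⊆ Switch1N τ ''
        (Set.univ ×ˢ {y | ∃ W : (Gr τ Set.univ).Walk x y, W.length ≤ K}) := by
      intro y hy
      refine Switch1R.ind (M := fun y k => k = K + 1 → y ∈ Switch1N τ ''
        (Set.univ ×ˢ {y | ∃ W : (Gr τ Set.univ).Walk x y, W.length ≤ K})) (fun k _ => ?_)
        (fun y z k q _ a h _ hk => ?_) (Switch1R.symm hy) rfl
      · exact ⟨(none, x), ⟨trivial, Switch1R.refl _ _ _ _⟩, rfl⟩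
      · obtain rfl : k = K := by omega
        refine ⟨(some q.1, z), ⟨trivial, h.symm⟩, ?_⟩
        rcases a with ⟨rfl, rfl⟩ | ⟨rfl, rfl⟩ <;> simp [Switch1N]
    refine (Set.ncard_le_ncard s).trans (le_trans (Set.ncard_image_le (Set.toFinite _)) ?_)
    rw [Set.ncard_prod, Set.ncard_univ, Nat.card_eq_fintype_card, Fintype.card_option, pow_succ']
    exact Nat.mul_le_mul_left _ ih

/-- A switching with a distant good position creates no short cycle. -/
theorem switch_one {C X : Type} [Fintype C] [DecidableEq C] [Finite X] [DecidableEq X]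
    (τ : C → Perm X) (K : ℕ) (c : C) (u : X) : ∃ F : Set X,
    F.ncard ≤ 4 * (Fintype.card C + 1) ^ K ∧ u ∈ F ∧ ∀ u', u' ∉ F → ¬ Bad τ K (c, u') →
      ∀ p, Bad (Function.update τ c (τ c * swap u u')) K p → Bad τ K p ∧ p ≠ (c, u) := by
  have b : ∀ (x : X × Bool) (f : X → X × Bool), Function.Injective f →
      {v | Switch1R τ Set.univ x (f v) K}.ncard ≤ (Fintype.card C + 1) ^ K := fun x f hf =>
    (Set.ncard_le_ncard_of_injOn f (fun _ h => h) hf.injOn).trans (ball_card τ x K)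
  have i₁ : Function.Injective fun v : X => (v, false) := fun _ _ h => congrArg Prod.fst h
  have i₂ : Function.Injective fun v : X => (τ c v, true) := fun _ _ h =>
    (τ c).injective (congrArg Prod.fst h)
  refine ⟨({v | Switch1R τ Set.univ (u, false) (v, false) K} ∪
      {v | Switch1R τ Set.univ (τ c u, true) (v, false) K}) ∪
      {v | Switch1R τ Set.univ (u, false) (τ c v, true) K}, ?_,
    .inl (.inl (Switch1R.refl _ _ _ _)), fun u' hu hb => ?_⟩
  · have h1 := b (u, false) _ i₁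
    have h2 := b (τ c u, true) _ i₁
    have h3 := b (u, false) _ i₂
    refine (Set.ncard_union_le _ _).trans
      ((Nat.add_le_add_right (Set.ncard_union_le _ _) _).trans ?_)
    omega
  simp only [Set.mem_union, Set.mem_setOf_eq, not_or] at hu
  obtain ⟨⟨n₁, n₂⟩, n₃⟩ := hu
  obtain ⟨τ', hτ⟩ : ∃ τ', τ' = Function.update τ c (τ c * swap u u') := ⟨_, rfl⟩
  rw [← hτ]
  have e₁ : τ' c u = τ c u' := by simp [hτ]
  have e₂ : τ' c u' = τ c u := by simp [hτ]
  have e₃ : ∀ q : C × X, q ≠ (c, u) → q ≠ (c, u') → τ q.1 q.2 = τ' q.1 q.2 := by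
    rintro ⟨d, v⟩ h₁ h₂
    by_cases hd : d = c
    · subst hd
      simp only [hτ, Function.update_self, Perm.mul_apply]
      rw [swap_apply_of_ne_of_ne (fun e => h₁ (by rw [← e])) fun e => h₂ (by rw [← e])]
    · simp only [hτ, Function.update_of_ne hd]
  have t₁ : ∀ {x y k}, Switch1R τ' ({q | q ≠ (c, u)} \ {(c, u')}) x y k → k ≤ K →
      Switch1R τ {q | q ≠ (c, u')} x y K := fun h hk =>
    h.mono (fun q hq => ⟨hq.2, e₃ q hq.1 hq.2⟩) hk
  have t₂ : ∀ {x y k}, Switch1R τ' ({q | q ≠ (c, u')} \ {(c, u)}) x y k → k ≤ K →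
      Switch1R τ {q | q ≠ (c, u')} x y K := fun h hk =>
    h.mono (fun q hq => ⟨hq.1, e₃ q hq.2 hq.1⟩) hk
  have t₃ : ∀ {x y}, Switch1R τ {q | q ≠ (c, u')} x y K → Switch1R τ Set.univ x y K := fun h =>
    h.mono (fun q _ => ⟨trivial, rfl⟩) le_rfl
  have g₁ : ¬Bad τ' K (c, u) := fun h => by
    rcases Switch1R.split h (c, u') with h | ⟨e, e', k₁, k₂, j, h₁, h₂, hk⟩
    · exact n₃ (e₁ ▸ t₃ (t₁ h le_rfl))
    · rcases j with ⟨rfl, rfl⟩ | ⟨rfl, rfl⟩
      · exact n₁ (t₃ (t₁ h₁ (by omega)))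
      · exact hb (e₁ ▸ t₁ h₂ (by omega) :)
  have g₂ : ¬Bad τ' K (c, u') := fun h => by
    rcases Switch1R.split h (c, u) with h | ⟨e, e', k₁, k₂, j, h₁, h₂, hk⟩
    · exact n₂ (e₂ ▸ t₃ (t₂ h le_rfl).symm)
    · rcases j with ⟨rfl, rfl⟩ | ⟨rfl, rfl⟩
      · exact n₁ (t₃ (t₂ h₁ (by omega)).symm)
      · exact hb (e₁ ▸ t₂ h₁ (by omega) :)
  intro p hp
  have p₁ : p ≠ (c, u) := fun e => g₁ (e ▸ hp)
  have p₂ : p ≠ (c, u') := fun e => g₂ (e ▸ hp)
  have j : Joins τ' p (p.2, false) (τ' p.1 p.2, true) := .inl ⟨rfl, rfl⟩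
  have h := (Switch1R.exch hp j p₁ g₁).exch j p₂ g₂
  rw [← e₃ p p₁ p₂] at h
  exact ⟨h.mono (fun q hq => ⟨hq.1.1, e₃ q hq.1.2 hq.2⟩) le_rfl, p₁⟩

/-- Every short cycle uses a free colour. -/
theorem not_bad_of_empty {n k K : ℕ} (σ : Fin k → Perm (Fin n)) (hn : K < n)
    (h : badSet σ K = ∅) (p : (Bool ⊕ Fin k) × Fin n) : ¬ Bad (tau σ) K p := by
  intro hp
  have fr : ∀ q : (Bool ⊕ Fin k) × Fin n, q.1.isRight → ¬Bad (tau σ) K q := by
    rintro ⟨b | c, v⟩ hq hb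
    · simp at hq
    · exact (h ▸ (hb : (c, v) ∈ badSet σ K) : (c, v) ∈ (∅ : Set _))
  have j : Joins (tau σ) p (p.2, false) (tau σ p.1 p.2, true) := .inl ⟨rfl, rfl⟩
  have s : ∀ S : Finset ((Bool ⊕ Fin k) × Fin n), (∀ q ∈ S, q.1.isRight) →
      Switch1R (tau σ) ({q | q ≠ p} \ S) (p.2, false) (tau σ p.1 p.2, true) K := by
    intro S
    induction S using Finset.induction_on with
    | empty => exact fun _ => Switch1R.mono hp (fun q hq => ⟨⟨hq, by simp⟩, rfl⟩) le_rfl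
    | insert q S _ ih =>
      intro hS
      have hq := fr q (hS q (Finset.mem_insert_self _ _))
      have ne : p ≠ q := fun e => hq (e ▸ hp)
      refine ((ih fun r hr => hS r (Finset.mem_insert_of_mem hr)).exch j ne hq).mono
        (fun r hr => ⟨⟨hr.1.1, ?_⟩, rfl⟩) le_rfl
      rw [Finset.coe_insert]
      exact fun e => e.elim hr.2 hr.1.2
  have w := s (Finset.univ.filter fun q => q.1.isRight) fun q hq => (Finset.mem_filter.1 hq).2
  obtain ⟨n, rfl⟩ : ∃ m, n = m + 1 := ⟨n - 1, by omega⟩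
  have rot : ∀ v : Fin (n + 1), ((finRotate (n + 1) v).1 = 0 ∧ v.1 = n) ∨
      ((finRotate (n + 1) v).1 = v.1 + 1 ∧ v.1 < n) := fun v => by
    rw [coe_finRotate]
    split_ifs with hv
    · exact .inl ⟨rfl, congrArg Fin.val hv⟩
    · exact .inr ⟨rfl, Fin.val_lt_last hv⟩
  obtain ⟨b | c, u⟩ := p
  swap
  · exact fr _ rfl hp
  have := w.height (fun x => if 2 * x.1.1 + (!x.2).toNat ≤ 2 * u.1 + b.toNat then
    2 * x.1.1 + (!x.2).toNat + 2 * (n + 1) else 2 * x.1.1 + (!x.2).toNat) ?_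
  have := w.symm.height (fun x => if 2 * x.1.1 + (!x.2).toNat ≤ 2 * u.1 + b.toNat then
    2 * x.1.1 + (!x.2).toNat + 2 * (n + 1) else 2 * x.1.1 + (!x.2).toNat) ?_
  · have r := rot u
    cases b <;> simp only [tau, Perm.one_apply, Bool.not_false, Bool.not_true, Bool.toNat_true,
      Bool.toNat_false] at * <;> split_ifs at * <;> omega
  all_goals
    rintro ⟨b' | c, v⟩ ⟨h₁, h₂⟩
    swap
    · exact absurd (by simp) h₂
    have r := rot v
    have hu := u.2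
    have hv := v.2
    have ne : b' = b → v.1 ≠ u.1 := fun e e' => h₁ (by rw [e, Fin.ext e'])
    cases b <;> cases b' <;> simp only [tau, Perm.one_apply, Bool.not_false, Bool.not_true,
      Bool.toNat_true, Bool.toNat_false, forall_const] at * <;> split_ifs <;> omega

end

end Pool.Agent.P.MP_d39174_gt
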