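import Pool.Agent.P.MP_d39174_gt.Gal
import Pool.Agent.P.MP_d39174_gt.Chain

/-! The walls are exactly the systoles. -/

namespace Pool.Agent.P.MP_d39174_gt

open UpperHalfPlane MatrixGroups

noncomputable section

open Equiv

lemma SysB_mem {Vx H : Type} {G : SimpleGraph Vx} {C : Cmb G H} (P : Poly C) (js : List ℕ)
    {s : PS × H} (hs : s.1 ∈ P.Γb) : (run P.A P.R s js).1 ∈ P.Γb := by
  induction js generalizing s with
  | nil => exact hs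
  | cons j js ih =>
    refine ih (s := stp P.A P.R s j) ?_
    induction j with
    | zero => exact P.Γb.mul_mem hs (P.τ_mem _)
    | succ j ih' =>
      rw [stp, pow_succ', Perm.mul_apply]
      exact P.Γb.mul_mem ih' (P.τ_mem _)

lemma SysB_core {κ Λ D D' : ℝ} {K : ℕ} {Vx H : Type} [Fintype H] {G : SimpleGraph Vx}
    {C : Cmb G H} (P : Poly C) (hκ : 1 ≤ κ) (r : P.Rat κ) (hG : NBG G K)
    (hx : ∀ v, 2 * Real.sinh D' < P.x v) (hD : D + 2 * κ * (K ^ 2 : ℕ) + 2 * κ * K ≤ D')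
    (hΛ : P.Len Λ) (h2 : 2 * κ < Λ) {γ : SL(2, ℝ)} (h1 : ad γ ≠ 1) {z : ℍ}
    (hz : dist z (γ • z) ≤ 2 * Λ) {h : H} {js : List ℕ} (d : dist z (pt (P.φ h)) ≤ D)
    (hK : js.length ≤ K) (e : run P.A P.R (1, h) js = (ad γ, h)) :
    ∃ n ∈ P.S, ∃ i : ℕ, 1 ≤ i ∧ PM (ex (i * Λ) n) γ := by
  rcases reduce C (g := lmul (ad γ)) (pr := Prod.snd) P.A_A P.R_four
    (fun s => Prod.ext (mul_assoc _ _ _).symm rfl) (fun s => Prod.ext (mul_assoc _ _ _).symm rfl)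
    (fun _ => rfl) (fun _ => rfl) (fun _ => rfl)
    (e.trans (Prod.ext (mul_one _).symm rfl)) hK with ⟨s, hs⟩ | ⟨s, ks, hr, e', k1, k2, red⟩
  · exact absurd (mul_eq_right.1 (congrArg Prod.fst hs)) h1
  have e2 : run C.α C.ρ s.2 ks = s.2 :=
    (run_map (a := P.A) (r := P.R) (F := Prod.snd) (fun _ => rfl) (fun _ => rfl) s ks).symm.trans
      ((congrArg Prod.snd e').trans rfl)
  rcases backtrack C hG (fun h => (P.T_pos h).le) (P.T_le r) hΛ e2 k2 red with h3 | h3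
  · obtain ⟨i, hi, e3⟩ := P.all_straight hΛ h3 k1 e'
    obtain ⟨ls, -, rfl⟩ := hr
    exact ⟨_, ⟨_, SysB_mem P ls P.Γb.one_mem, _, rfl⟩, i, hi, (ad_eq_iff _ _).1 e3.symm⟩
  · have h4 := P.dist_rch r hr
    have h5 : P.ft (1, h) = pt (P.φ h) := congrArg pt (one_smul PS _)
    have h6 := dist_triangle z (P.ft (1, h)) (P.ft s)
    have h7 : 2 * κ * (ks.length : ℝ) ≤ 2 * κ * K :=
      mul_le_mul_of_nonneg_left (Nat.cast_le.2 k2) (by linarith)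
    rw [← h5] at d
    have h8 := P.chain r hx red (s := s) (z := z) (by linarith)
    have h9 : P.M (lmul (ad γ) s) = γ • P.M s := mul_smul (ad γ) s.1 (P.m s.2)
    rw [e', h9, B_ad_left, ← Hy_smul] at h8
    have h10 := (le_abs_self _).trans (lip (P.M_unit s) z (γ⁻¹ • z))
    rw [← dist_smul γ, smul_inv_smul, dist_comm] at h10
    linarith

/-- Elements with a short displacement are translations along walls. -/
theorem short (κ L : ℝ) (hκ : 1 ≤ κ) (K₀ : ℕ) : ∃ (K : ℕ) (X : ℝ), ∀ (Vx H : Type) [Finite Vx]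
    [Fintype H] (G : SimpleGraph Vx) (C : Cmb G H) (P : Poly C) (Λ : ℝ), P.Rat κ →
    P.Near (Real.cosh (4 * L)) K₀ → NBG G K → (∀ v, X ≤ P.x v) → P.Len Λ → 2 * κ < Λ → Λ ≤ L →
    ∀ γ ∈ P.Γ, ∀ z : ℍ, dist z (γ • z) ≤ 2 * Λ →
      PM 1 γ ∨ ∃ n ∈ P.S, ∃ i : ℕ, 1 ≤ i ∧ PM (ex (i * Λ) n) γ := by
  obtain ⟨K, hK⟩ := gallery κ (2 * L) hκ K₀
  refine ⟨K, 2 * Real.sinh (2 * L + κ + 2 * κ * (K ^ 2 : ℕ) + 2 * κ * K) + 1,
    fun Vx H _ _ G C P Λ r near hG hx hΛ h2 hL γ hγ z hz => ?_⟩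
  obtain ⟨δ, hδ, hQ⟩ := P.cover z
  have hz' : dist (δ • z) ((δ * γ * δ⁻¹) • δ • z) ≤ 2 * Λ := by
    rwa [mul_smul, inv_smul_smul, mul_smul, dist_smul]
  by_cases h1 : ad γ = 1
  · exact Or.inl ((ad_eq_iff _ _).1 ((map_one ad).trans h1.symm))
  have h3 : ad (δ * γ * δ⁻¹) ≠ 1 := by
    rwa [map_mul, map_mul, map_inv, Ne, conj_eq_one_iff]
  obtain ⟨h, js, d, k, e⟩ := hK Vx H G C P r (by rwa [show 2 * (2 * L) = 4 * L by ring]) _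
    (P.Γ.mul_mem (P.Γ.mul_mem hδ hγ) (P.Γ.inv_mem hδ)) h3 _ hQ (by linarith)
  obtain ⟨n, hn, i, hi, e'⟩ := SysB_core P hκ r hG (fun v => (lt_add_one _).trans_le (hx v)) le_rfl
    hΛ h2 h3 hz' d k e
  refine Or.inr ⟨δ⁻¹ • n, P.S_smul hn (P.mem_Γ.1 (P.Γ.inv_mem hδ)), i, hi, ?_⟩
  have h4 := ((PM.refl δ⁻¹).mul e').mul (PM.refl δ⁻¹⁻¹)
  rw [ex_conj] at h4
  have h5 : δ⁻¹ * (δ * γ * δ⁻¹) * δ⁻¹⁻¹ = γ := by group
  rwa [h5] at h4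

namespace Poly

variable {Vx H : Type} {G : SimpleGraph Vx} {C : Cmb G H} (P : Poly C)

theorem sys_of_short [Finite Vx] [Finite H] {Λ : ℝ} (h0 : 0 < Λ) (hΛ : P.Len Λ)
    (h : ∀ γ ∈ P.Γ, ∀ z : ℍ, dist z (γ • z) ≤ 2 * Λ →
      PM 1 γ ∨ ∃ n ∈ P.S, ∃ i : ℕ, 1 ≤ i ∧ PM (ex (i * Λ) n) γ) :
    Nice P.Γ ∧ Sys P.Γ Λ ∧ SS P.Γ Λ = P.S := by
  have hi : ∀ i : ℕ, 1 ≤ i → Λ ≤ i * Λ := fun i hi =>
    le_mul_of_one_le_left h0.le (Nat.one_le_cast.2 hi)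
  have htr : ∀ γ ∈ P.Γ, γ ≠ 1 → γ ≠ -1 → 2 * Real.cosh Λ ≤ |tr γ| := fun γ hγ h1 h2 => by
    refine abs_tr_of_disp h0 fun z => not_lt.1 fun h3 => ?_
    rcases h γ hγ z h3.le with h4 | ⟨n, hn, i, h4, h5⟩
    · exact ((pm_one_iff γ).1 h4).elim h1 h2
    · have h6 := le_dist_ex (P.S_unit hn) (i * Λ) z
      rw [h5.act] at h6
      linarith [hi i h4, le_abs_self (i * Λ)]
  have hS : SS P.Γ Λ = P.S := by
    refine Set.Subset.antisymm (fun n hn => ?_) fun n hn => ⟨P.S_unit hn, ?_⟩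
    · obtain ⟨z, hz⟩ := exists_on_wall hn.1
      rcases h _ hn.2 z (by rw [dist_ex_of_wall hn.1 Λ hz, abs_of_pos h0]) with
        h4 | ⟨n', hn', i, h4, h5⟩
      · exact (((pm_one_iff _).1 h4).elim (ex_ne_one hn.1 h0.ne').1 (ex_ne_one hn.1 h0.ne').2).elim
      · have h6 := h5.abs_tr
        rw [tr_ex (P.S_unit hn'), tr_ex hn.1, abs_of_pos (mul_pos two_pos (Real.cosh_pos _)),
          abs_of_pos (mul_pos two_pos (Real.cosh_pos _))] at h6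
        have h7 : i * Λ = Λ := Real.cosh_strictMonoOn.injOn (h0.le.trans (hi i h4)) h0.le
          (mul_left_cancel₀ two_ne_zero h6)
        rw [h7] at h5
        exact ex_inj (P.S_unit hn') hn.1 h0.ne' h5 ▸ hn'
    · obtain ⟨k, hk, a, rfl⟩ := hn
      obtain ⟨g, rfl⟩ := ad_surj k
      have h1 : ex Λ (P.ν a) ∈ P.Γ := P.mem_Γ.2 (P.prodS_per hΛ a ▸ P.prodS_mem a _)
      rw [ad_smul, ← ex_conj]
      exact P.Γ.mul_mem (P.Γ.mul_mem (P.mem_Γ.2 hk) h1) (P.Γ.inv_mem (P.mem_Γ.2 hk))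
  obtain ⟨a, -⟩ := P.sect 0
  refine ⟨⟨P.neg_one_mem, P.fin, P.coc, fun γ hγ h1 h2 => lt_of_lt_of_le ?_ (htr γ hγ h1 h2)⟩,
    ⟨h0, htr, _, hS.ge ⟨1, P.Γb.one_mem, a, rfl⟩⟩, hS⟩
  linarith [Real.one_lt_cosh.2 h0.ne']

end Poly

end

end Pool.Agent.P.MP_d39174_gt
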