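import Pool.Agent.P.MP_d39174_gt.Poly2

/-! The polygon theorem by induction on the word length. -/

namespace Pool.Agent.P.MP_d39174_gt

open UpperHalfPlane MatrixGroups

noncomputable section

open Equiv

/-- Word length with respect to a family of generators. -/
def Tits_len {G' H : Type} [Group G'] (u : H → G') (g : G') : ℕ :=
  sInf {n | ∃ l : List H, l.length = n ∧ (l.map u).prod = g}

lemma Tits_le {G' H : Type} [Group G'] (u : H → G') (l : List H) :
    Tits_len u (l.map u).prod ≤ l.length :=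
  Nat.sInf_le ⟨l, rfl, rfl⟩

lemma Tits_spec {G' H : Type} [Group G'] {u : H → G'} {g : G'}
    (h : ∃ l : List H, (l.map u).prod = g) :
    ∃ l : List H, l.length = Tits_len u g ∧ (l.map u).prod = g := by
  obtain ⟨l, hl⟩ := h
  exact Nat.sInf_mem (s := {n | ∃ l : List H, l.length = n ∧ (l.map u).prod = g})
    ⟨l.length, l, rfl, hl⟩

lemma Tits_mul {G' H : Type} [Group G'] {u : H → G'} {g : G'}
    (h : ∃ l : List H, (l.map u).prod = g) (k : H) :
    ∃ l : List H, (l.map u).prod = g * u k := by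
  obtain ⟨l, hl⟩ := h
  exact ⟨l ++ [k], by simp [hl]⟩

lemma Tits_step {G' H : Type} [Group G'] {u : H → G'} {g : G'}
    (h : ∃ l : List H, (l.map u).prod = g) (k : H) :
    Tits_len u (g * u k) ≤ Tits_len u g + 1 := by
  obtain ⟨l, h1, h2⟩ := Tits_spec h
  have := Tits_le u (l ++ [k])
  simpa [h1, h2] using this

lemma Tits_last {G' H : Type} [Group G'] {u : H → G'} {g : G'}
    (h : ∃ l : List H, (l.map u).prod = g) :
    g = 1 ∨ ∃ g' k, (∃ l : List H, (l.map u).prod = g') ∧ g = g' * u k ∧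
      Tits_len u g' + 1 = Tits_len u g := by
  obtain ⟨l, h1, h2⟩ := Tits_spec h
  rcases List.eq_nil_or_concat l with rfl | ⟨l', k, rfl⟩
  · left
    simpa using h2.symm
  · right
    have e : g = (l'.map u).prod * u k := by simpa using h2.symm
    refine ⟨(l'.map u).prod, k, ⟨l', rfl⟩, e, le_antisymm ?_ ?_⟩
    · have := Tits_le u l'
      have h3 : l'.length + 1 = Tits_len u g := by simpa using h1
      omega
    · rw [e]
      exact Tits_step ⟨l', rfl⟩ k

lemma Tits_list {G' H : Type} [Group G'] {u : H → G'} {α : H → H}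
    (r1 : ∀ h, u (α h) = (u h)⁻¹) {g : G'} (hg : g ∈ Subgroup.closure (Set.range u)) :
    ∃ l : List H, (l.map u).prod = g := by
  induction hg using Subgroup.closure_induction with
  | mem x hx =>
    obtain ⟨h, rfl⟩ := hx
    exact ⟨[h], by simp⟩
  | one => exact ⟨[], by simp⟩
  | mul x y _ _ hx hy =>
    obtain ⟨l, rfl⟩ := hx
    obtain ⟨l', rfl⟩ := hy
    exact ⟨l ++ l', by simp⟩
  | inv x h0 hx =>
    obtain ⟨l, rfl⟩ := hx
    clear h0
    induction l with
    | nil => exact ⟨[], by simp⟩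
    | cons a l ih =>
      obtain ⟨l', hl'⟩ := ih
      exact ⟨l' ++ [α a], by simp [hl', r1]⟩

namespace Poly

variable {Vx H : Type} {G : SimpleGraph Vx} {C : Cmb G H} (P : Poly C)

/-- The wall `k • ν h` has the polygon on its positive side. -/
def Side (k : PS) (h : H) : Prop :=
  (∃ h', k • P.ν h = P.ν h' ∧ C.lab h' = C.lab h) ∨ ∀ p, P.Q p → 0 < B (k • P.ν h) p

lemma Tits_nonneg {k : PS} {h : H} (s : P.Side k h) {p : V} (hp : P.Q p) :
    0 ≤ B (k • P.ν h) p := by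
  rcases s with ⟨h', e, -⟩ | s
  · rw [e]
    exact hp.2 h'
  · exact (s p hp).le

lemma Tits_pos {k : PS} {h : H} (s : P.Side k h) : 0 < B (k • P.ν h) o0 := by
  rcases s with ⟨h', e, -⟩ | s
  · rw [e, P.cen]
    exact P.pos _
  · exact s _ P.Q_o0

lemma Tits_congr {k k' : PS} {h h' : H} (s : P.Side k h) (e : k' • P.ν h' = k • P.ν h)
    (e' : C.lab h = C.lab h') : P.Side k' h' := by
  rcases s with ⟨j, e1, e2⟩ | s
  · exact Or.inl ⟨j, e.trans e1, e2.trans e'⟩
  · right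
    rw [e]
    exact s

lemma Tits_flip (k : PS) (h : H) : (k * P.τ h) • P.ν (C.α h) = -(k • P.ν h) := by
  rw [mul_smul, P.τ_ν, PS.smul_neg]

lemma Tits_key {G' : Type} [Group G'] (π : G' →* PS) (u : H → G') (hu : ∀ h, π (u h) = P.τ h)
    (r1 : ∀ h, u (C.α h) = (u h)⁻¹)
    (r2 : ∀ s, u (C.f s) * u (C.ς s) = u s * u (C.f⁻¹ (C.α s))) (n : ℕ) :
    ∀ g : G', (∃ l : List H, (l.map u).prod = g) → Tits_len u g = n →
      ∀ h, Tits_len u g ≤ Tits_len u (g * u h) → P.Side (π g) h := by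
  induction n using Nat.strong_induction_on with
  | _ n ih =>
  intro g hg hn h hh
  rcases Tits_last hg with rfl | ⟨g', k, hg', e, hd⟩
  · exact Or.inl ⟨h, by rw [map_one, one_smul], rfl⟩
  have IH := ih (Tits_len u g') (by omega) g' hg' rfl
  have eπ : π g = π g' * P.τ k := by rw [e, map_mul, hu]
  have sk : P.Side (π g') k := IH k (by rw [← e]; omega)
  have red : ∀ j j', u k * u h = u j * u j' → P.Side (π g') j := by
    intro j j' ej
    refine IH j ?_
    by_contra hlt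
    have h1 := Tits_step (Tits_mul hg' j) j'
    have h2 : g * u h = g' * u j * u j' := by rw [e, mul_assoc, ej, mul_assoc]
    rw [h2] at hh
    omega
  by_cases c1 : C.α k = h
  · exfalso
    have h2 : g * u h = g' := by rw [e, ← c1, r1, mul_inv_cancel_right]
    rw [h2] at hh
    omega
  by_cases c2 : h = C.f (C.α k)
  · have h3 := r2 (C.f⁻¹ k)
    have h5 : C.f (C.f⁻¹ k) = k := by simp
    have h4 : C.ς (C.f⁻¹ k) = h := by
      rw [← C.f_α_f, h5, c2]
    rw [h5, h4] at h3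
    refine P.Tits_congr (red _ _ h3) ?_ ?_
    · rw [eπ, mul_smul, c2, P.τ_f]
    · rw [c2, C.lab_f_α]
  by_cases c3 : C.α k = C.f h
  · have h4 : C.f⁻¹ (C.α k) = h := by rw [c3]; simp
    have h3 := (r2 k).symm
    rw [h4] at h3
    refine P.Tits_congr (red _ _ h3) ?_ ?_
    · rw [eπ, mul_smul, ← h4, P.τ_f_inv]
    · rw [← h4, C.lab_f_inv_α]
  right
  intro p hp
  refine pos_of_far (m := π g • P.ν (C.α k)) (p := π g • o0) ?_ ?_ ?_ (PS.fut _ o0_fut) ?_ ?_
    hp.1 ?_
  · rw [PS.B_smul, P.unit]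
  · rw [PS.B_smul, P.unit]
  · rw [PS.B_smul]
    exact P.far _ _ c1 c3 c2
  · rw [PS.B_smul]
    exact P.Q_o0.2 _
  · rw [PS.B_smul]
    exact P.Q_o0.2 _
  · rw [eπ, P.Tits_flip, B_neg_left]
    exact neg_nonpos.2 (P.Tits_nonneg sk hp)

/-- The polygon theorem for a group `G'` over `PSL(2, ℝ)` in which the relations hold. -/
theorem tits {G' : Type} [Group G'] (π : G' →* PS) (u : H → G') (hu : ∀ h, π (u h) = P.τ h)
    (r1 : ∀ h, u (C.α h) = (u h)⁻¹)
    (r2 : ∀ s, u (C.f s) * u (C.ς s) = u s * u (C.f⁻¹ (C.α s))) {g : G'}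
    (hg : g ∈ Subgroup.closure (Set.range u)) :
    (∀ h, P.Side (π g) h ∨ P.Side (π g * P.τ h) (C.α h)) ∧
      (g = 1 ∨ ∃ h, P.Side (π g * P.τ h) (C.α h)) := by
  have hl := Tits_list r1 hg
  have other : ∀ h, Tits_len u (g * u h) ≤ Tits_len u g → P.Side (π g * P.τ h) (C.α h) := by
    intro h hh
    have := P.Tits_key π u hu r1 r2 _ (g * u h) (Tits_mul hl h) rfl (C.α h)
      (by rw [r1, mul_inv_cancel_right]; exact hh)
    rwa [map_mul, hu] at this
  refine ⟨fun h => ?_, ?_⟩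
  · rcases le_total (Tits_len u g) (Tits_len u (g * u h)) with hh | hh
    · exact Or.inl (P.Tits_key π u hu r1 r2 _ g hl rfl h hh)
    · exact Or.inr (other h hh)
  · rcases Tits_last hl with e | ⟨g', k, -, e, hd⟩
    · exact Or.inl e
    · refine Or.inr ⟨C.α k, other _ ?_⟩
      have h2 : g * u (C.α k) = g' := by rw [e, r1, mul_inv_cancel_right]
      rw [h2]
      omega

lemma Tits_PS {k : PS} (hk : k ∈ P.Γb) :
    (∀ h, P.Side k h ∨ P.Side (k * P.τ h) (C.α h)) ∧
      (k = 1 ∨ ∃ h, P.Side (k * P.τ h) (C.α h)) :=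
  P.tits (MonoidHom.id PS) P.τ (fun _ => rfl) P.τ_α P.τ_vertex hk

/-- Every wall is a side of the polygon or misses it. -/
theorem wall {k : PS} (hk : k ∈ P.Γb) (h : H) :
    (∃ h', (k • P.ν h = P.ν h' ∨ k • P.ν h = -P.ν h') ∧ C.lab h' = C.lab h) ∨
      (∀ p, P.Q p → 0 < B (k • P.ν h) p) ∨ ∀ p, P.Q p → B (k • P.ν h) p < 0 := by
  rcases (P.Tits_PS hk).1 h with (⟨j, e1, e2⟩ | s) | (⟨j, e1, e2⟩ | s)
  · exact Or.inl ⟨j, Or.inl e1, e2⟩
  · exact Or.inr (Or.inl s)
  · rw [P.Tits_flip] at e1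
    exact Or.inl ⟨j, Or.inr (neg_eq_iff_eq_neg.1 e1), e2.trans (C.labα h)⟩
  · refine Or.inr (Or.inr fun p hp => ?_)
    have := s p hp
    rw [P.Tits_flip, B_neg_left] at this
    linarith

/-- A different tile is separated from the polygon by one of its walls. -/
theorem sepa {k : PS} (hk : k ∈ P.Γb) (h1 : k ≠ 1) :
    ∃ h, B (k • P.ν h) o0 < 0 ∧ ∀ p, P.Q p → B (k • P.ν h) p ≤ 0 := by
  obtain ⟨h, s⟩ := (P.Tits_PS hk).2.resolve_left h1
  refine ⟨h, ?_, fun p hp => ?_⟩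
  · have := P.Tits_pos s
    rw [P.Tits_flip, B_neg_left] at this
    linarith
  · have := P.Tits_nonneg s hp
    rw [P.Tits_flip, B_neg_left] at this
    linarith

/-- Additive characters of the side pairings extend to the group. -/
theorem exists_hom {a : H → ℝ} (ha : a ∈ C.Z) :
    ∃ χ : Additive P.Γ →+ ℝ, ∀ h (e : P.t h ∈ P.Γ), χ (Additive.ofMul ⟨P.t h, e⟩) = a h := by
  obtain ⟨ha1, ha2⟩ : (∀ h, a (C.α h) = -a h) ∧
    ∀ h, a h + a (C.ρ h) + a (C.ρ (C.ρ h)) + a (C.ρ (C.ρ (C.ρ h))) = 0 := ha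
  let u : H → PS × Multiplicative ℝ := fun h => (P.τ h, Multiplicative.ofAdd (a h))
  let K : Subgroup (PS × Multiplicative ℝ) := Subgroup.closure (Set.range u)
  have r1 : ∀ h, u (C.α h) = (u h)⁻¹ := by
    intro h
    refine Prod.ext (P.τ_α h) ?_
    change Multiplicative.ofAdd (a (C.α h)) = (Multiplicative.ofAdd (a h))⁻¹
    rw [ha1, ofAdd_neg]
  have r2 : ∀ s, u (C.f s) * u (C.ς s) = u s * u (C.f⁻¹ (C.α s)) := by
    intro s
    refine Prod.ext (P.τ_vertex s) ?_
    change Multiplicative.ofAdd (a (C.f s)) * Multiplicative.ofAdd (a (C.ς s)) =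
      Multiplicative.ofAdd (a s) * Multiplicative.ofAdd (a (C.f⁻¹ (C.α s)))
    rw [← ofAdd_add, ← ofAdd_add, C.f_inv, ha1, C.f_eq, C.ς_eq]
    have h1 := ha2 (C.α s)
    rw [ha1] at h1
    exact congrArg _ (by linarith)
  have inj : ∀ g ∈ K, g.1 = 1 → g = 1 := by
    intro g hg h1
    rcases (P.tits (MonoidHom.fst _ _) u (fun _ => rfl) r1 r2 hg).2 with e | ⟨h, s⟩
    · exact e
    · exfalso
      have h2 := P.Tits_pos s
      rw [P.Tits_flip, B_neg_left, MonoidHom.coe_fst, h1, one_smul] at h2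
      have h3 := P.Q_o0.2 h
      linarith
  have uniq : ∀ (k : PS) (r r' : ℝ), (k, Multiplicative.ofAdd r) ∈ K →
      (k, Multiplicative.ofAdd r') ∈ K → r = r' := by
    intro k r r' h1 h2
    have h3 := inj _ (K.mul_mem (K.inv_mem h1) h2) (inv_mul_cancel k)
    have h4 := congrArg Prod.snd (inv_mul_eq_one.1 h3)
    exact Multiplicative.ofAdd.injective h4
  have ex : ∀ k ∈ P.Γb, ∃ r : ℝ, (k, Multiplicative.ofAdd r) ∈ K := by
    intro k hk
    induction hk using Subgroup.closure_induction with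
    | mem x hx =>
      obtain ⟨h, rfl⟩ := hx
      exact ⟨a h, Subgroup.subset_closure ⟨h, rfl⟩⟩
    | one => exact ⟨0, K.one_mem⟩
    | mul x y _ _ hx hy =>
      obtain ⟨r, hr⟩ := hx
      obtain ⟨r', hr'⟩ := hy
      exact ⟨r + r', K.mul_mem hr hr'⟩
    | inv x _ hx =>
      obtain ⟨r, hr⟩ := hx
      exact ⟨-r, K.inv_mem hr⟩
  choose χ hχ using ex
  refine ⟨AddMonoidHom.mk' (fun x => χ (ad (Additive.toMul x).1) (Additive.toMul x).2) ?_, ?_⟩
  · intro x y
    refine uniq _ _ _ (hχ _ _) ?_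
    have := K.mul_mem (hχ _ (Additive.toMul x).2) (hχ _ (Additive.toMul y).2)
    rw [toMul_add, Subgroup.coe_mul, map_mul]
    exact this
  · intro h e
    exact uniq _ _ _ (hχ _ e) (Subgroup.subset_closure ⟨h, rfl⟩)

lemma Tits_t_mem (h : H) : P.t h ∈ P.Γ := P.τ_mem h

lemma Tits_hom_congr (χ : Additive P.Γ →+ ℝ) {γ γ' : P.Γ} (e : ad γ.1 = ad γ'.1) :
    χ (Additive.ofMul γ) = χ (Additive.ofMul γ') := by
  rcases (ad_eq_iff _ _).1 e with e1 | e1
  · rw [Subtype.ext e1]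
  · have h1 : (γ⁻¹ * γ') * (γ⁻¹ * γ') = 1 := by
      apply Subtype.ext
      simp [e1]
    have h2 := congrArg (fun x => χ (Additive.ofMul x)) h1
    simp only [ofMul_mul, ofMul_inv, map_add, map_neg, ofMul_one, map_zero] at h2
    linarith

theorem finrank_hom [Fintype H] :
    Module.finrank ℝ (Additive P.Γ →+ ℝ) = Module.finrank ℝ C.Z := by
  let Φ : (Additive P.Γ →+ ℝ) →ₗ[ℝ] (H → ℝ) :=
    { toFun := fun χ h => χ (Additive.ofMul ⟨P.t h, P.Tits_t_mem h⟩)
      map_add' := fun _ _ => rfl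
      map_smul' := fun _ _ => rfl }
  have hΦ : ∀ χ h, Φ χ h = χ (Additive.ofMul ⟨P.t h, P.Tits_t_mem h⟩) := fun _ _ => rfl
  have inj : Function.Injective Φ := by
    rw [injective_iff_map_eq_zero]
    intro χ h0
    have key : ∀ k ∈ P.Γb, ∀ γ : P.Γ, ad γ.1 = k → χ (Additive.ofMul γ) = 0 := by
      intro k hk
      induction hk using Subgroup.closure_induction with
      | mem x hx =>
        obtain ⟨h, rfl⟩ := hx
        intro γ e
        rw [P.Tits_hom_congr χ (γ' := ⟨P.t h, P.Tits_t_mem h⟩) e, ← hΦ, h0]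
        rfl
      | one =>
        intro γ e
        rw [P.Tits_hom_congr χ (γ' := 1) (e.trans (map_one ad).symm), ofMul_one, map_zero]
      | mul x y hx hy ihx ihy =>
        intro γ e
        obtain ⟨g, rfl⟩ := ad_surj x
        obtain ⟨g', rfl⟩ := ad_surj y
        have hx' : g ∈ P.Γ := hx
        have hy' : g' ∈ P.Γ := hy
        have e1 : ad γ.1 = ad ((⟨g, hx'⟩ : P.Γ) * ⟨g', hy'⟩ : P.Γ).1 := by
          rw [e, Subgroup.coe_mul, map_mul]
        have e2 := ihx ⟨g, hx'⟩ rfl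
        have e3 := ihy ⟨g', hy'⟩ rfl
        rw [P.Tits_hom_congr χ e1, ofMul_mul, map_add, e2, e3, add_zero]
      | inv x hx ihx =>
        intro γ e
        have := ihx γ⁻¹ (by rw [Subgroup.coe_inv, map_inv, e, inv_inv])
        rw [ofMul_inv, map_neg] at this
        linarith
    ext x
    exact key _ x.2 x rfl
  have rng : LinearMap.range Φ = C.Z := by
    apply le_antisymm
    · rintro _ ⟨χ, rfl⟩
      have h1 : ∀ h, Φ χ (C.α h) = -Φ χ h := by
        intro h
        rw [hΦ, hΦ, ← map_neg, ← ofMul_inv]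
        refine P.Tits_hom_congr χ ?_
        rw [Subgroup.coe_inv, map_inv]
        exact P.τ_α h
      refine ⟨h1, fun h => ?_⟩
      have h2 : Φ χ (C.f (C.α h)) + Φ χ (C.ς (C.α h)) =
          Φ χ (C.α h) + Φ χ (C.f⁻¹ (C.α (C.α h))) := by
        rw [hΦ, hΦ, hΦ, hΦ, ← map_add χ, ← map_add χ, ← ofMul_mul, ← ofMul_mul]
        refine P.Tits_hom_congr χ ?_
        rw [Subgroup.coe_mul, Subgroup.coe_mul, map_mul, map_mul]
        exact P.τ_vertex (C.α h)
      rw [C.f_inv, h1, h1, C.f_eq, C.ς_eq, C.α2] at h2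
      linarith
    · intro a ha
      obtain ⟨χ, hχ⟩ := P.exists_hom ha
      exact ⟨χ, funext fun h => hχ h _⟩
  rw [← rng]
  exact (LinearEquiv.ofInjective Φ inj).finrank_eq

end Poly

end

end Pool.Agent.P.MP_d39174_gt
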