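import Pool.Agent.P.MP_d39174_gt.Grp2

/-! Wall systems and their spun triangulations. -/

namespace Pool.Agent.P.MP_d39174_gt

open UpperHalfPlane MatrixGroups

noncomputable section

/-- An invariant family of pairwise disjoint periodic walls with finitely many orbits. -/
structure WallSys (Γ : Subgroup SL(2, ℝ)) (A : Set V) : Prop where
  per : ∀ a ∈ A, Per Γ a
  inv : ∀ g ∈ Γ, ∀ a ∈ A, g • a ∈ A
  neg : ∀ a ∈ A, -a ∈ A
  sep : ∀ a ∈ A, ∀ b ∈ A, b ≠ a → b ≠ -a → 1 < |B a b|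
  fin : ∃ F : Finset V, ∀ a ∈ A, ∃ g ∈ Γ, ∃ m ∈ F, a = g • m
  ne : A.Nonempty

/-- `p` is at least as far from every wall of `A` as from the walls `n` with `B n p = 1`. -/
def Wit (A : Set V) (p : V) : Prop := Fut p ∧ ∀ n ∈ A, 1 ≤ |B n p|

/-- Delaunay pairs. -/
def Del (A : Set V) (a b : V) : Prop :=
  a ∈ A ∧ b ∈ A ∧ a ≠ b ∧ ∃ p, Wit A p ∧ B a p = 1 ∧ B b p = 1

/-- A triangulation of the complement of a wall system by Delaunay pairs. -/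
structure Tr (Γ : Subgroup SL(2, ℝ)) where
  A : Set V
  E : Set (V × V)
  nice : Nice Γ
  ws : WallSys Γ A
  del : ∀ d ∈ E, Del A d.1 d.2
  symm : ∀ a b, (a, b) ∈ E → (b, a) ∈ E
  inv : ∀ g ∈ Γ, ∀ a b, (a, b) ∈ E → (g • a, g • b) ∈ E
  fac : ∀ d ∈ E, Fac d.1 d.2
  ncr : ∀ d ∈ E, ∀ e ∈ E, ¬ Cr d.1 d.2 e.1 e.2
  ncw : ∀ d ∈ E, ∀ c ∈ A, ¬ Cr c (-c) d.1 d.2
  tri : ∀ a b, (a, b) ∈ E → ∃ c, (b, c) ∈ E ∧ (c, a) ∈ E ∧ 0 < ori a b c
  fin : ∃ F : Finset (V × V), ∀ d ∈ E, ∃ g ∈ Γ, ∃ e ∈ F, d = (g • e.1, g • e.2)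
  has : ∀ a ∈ A, ∃ b, (a, b) ∈ E
  conn : ∀ S : Set V, (∀ a ∈ S, -a ∈ S) → (∀ a ∈ S, ∀ b, (a, b) ∈ E → b ∈ S) →
    (∃ a ∈ A, a ∈ S) → A ⊆ S

namespace Tr

variable {Γ : Subgroup SL(2, ℝ)} (T : Tr Γ)

/-- Darts. -/
def D : Type := {d : V × V // d ∈ T.E}

variable {T}

def D.a (d : T.D) : V := d.1.1
def D.b (d : T.D) : V := d.1.2
/-- The third vertex of the triangle on the positive side of a dart. -/
def D.c (d : T.D) : V := (T.tri d.a d.b d.2).choose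

lemma D.ext {d e : T.D} (h1 : d.a = e.a) (h2 : d.b = e.b) : d = e :=
  Subtype.ext (Prod.ext h1 h2)
lemma D.mem (d : T.D) : (d.a, d.b) ∈ T.E := d.2
lemma D.mem_bc (d : T.D) : (d.b, d.c) ∈ T.E := (T.tri d.a d.b d.2).choose_spec.1
lemma D.mem_ca (d : T.D) : (d.c, d.a) ∈ T.E := (T.tri d.a d.b d.2).choose_spec.2.1
lemma D.ori_pos (d : T.D) : 0 < ori d.a d.b d.c := (T.tri d.a d.b d.2).choose_spec.2.2
lemma D.a_mem (d : T.D) : d.a ∈ T.A := (T.del d.1 d.2).1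
lemma D.b_mem (d : T.D) : d.b ∈ T.A := (T.del d.1 d.2).2.1
lemma D.c_mem (d : T.D) : d.c ∈ T.A := (T.del _ d.mem_ca).1
lemma D.a_ne_b (d : T.D) : d.a ≠ d.b := (T.del d.1 d.2).2.2.1
lemma unit {a : V} (h : a ∈ T.A) : B a a = 1 := (T.ws.per a h).1
lemma D.a_unit (d : T.D) : B d.a d.a = 1 := unit d.a_mem
lemma D.b_unit (d : T.D) : B d.b d.b = 1 := unit d.b_mem
lemma D.c_unit (d : T.D) : B d.c d.c = 1 := unit d.c_mem
lemma D.fac (d : T.D) : Fac d.a d.b := T.fac d.1 d.2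

/-- The third vertex is unique. -/
lemma D.c_eq (d : T.D) {c : V} (h1 : (d.b, c) ∈ T.E) (h2 : (c, d.a) ∈ T.E)
    (h3 : 0 < ori d.a d.b c) : c = d.c := by
  by_contra hne
  have hc : c ∈ T.A := (T.del _ h2).1
  have per := T.ws.per
  have f1 := T.nice.fin' (per _ d.a_mem) (per _ d.b_mem) d.a_ne_b
  have f2 : Fin' d.a c :=
    T.nice.fin' (per _ d.a_mem) (per _ hc) (T.del _ h2).2.2.1.symm
  have f3 : Fin' d.a d.c :=
    T.nice.fin' (per _ d.a_mem) (per _ d.c_mem) (T.del _ d.mem_ca).2.2.1.symm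
  have l1 := (ori_pos_iff d.a_unit f1 f2).1 h3
  have l2 := (ori_pos_iff d.a_unit f1 f3).1 d.ori_pos
  have l3 : crd d.a c ≠ crd d.a d.c := fun e =>
    hne (T.nice.eq_of_br (per _ hc) (per _ d.c_mem) ((crd_eq_iff d.a_unit f2 f3).1 e))
  rcases lt_or_gt_of_ne l3 with l | l
  · exact T.ncr _ (T.symm _ _ h2) _ d.mem_bc
      ((Cr_crd' d.a_unit f2 f1 f3).2 (mul_neg_of_neg_of_pos (by linarith) (by linarith)))
  · exact T.ncr _ (T.symm _ _ d.mem_ca) _ h1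
      ((Cr_crd' d.a_unit f3 f1 f2).2 (mul_neg_of_neg_of_pos (by linarith) (by linarith)))

def nuf (d : T.D) : T.D := ⟨(d.b, d.c), d.mem_bc⟩

lemma nuf_c (d : T.D) : (nuf d).c = d.a :=
  ((nuf d).c_eq d.mem_ca d.mem (by
    show 0 < ori d.b d.c d.a
    rw [ori_cyc]; exact d.ori_pos)).symm

lemma nuf3 (d : T.D) : nuf (nuf (nuf d)) = d :=
  D.ext (nuf_c d) (nuf_c (nuf d))

variable (T)

/-- Reversal of a dart. -/
def ι : Equiv.Perm T.D where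
  toFun d := ⟨(d.b, d.a), T.symm _ _ d.2⟩
  invFun d := ⟨(d.b, d.a), T.symm _ _ d.2⟩
  left_inv _ := rfl
  right_inv _ := rfl

/-- Rotation of a dart in its triangle. -/
def ν : Equiv.Perm T.D where
  toFun := nuf
  invFun d := nuf (nuf d)
  left_inv := nuf3
  right_inv := nuf3

/-- The next dart in the fan at `d.a`. -/
def φ : Equiv.Perm T.D := T.ι * T.ν * T.ν

/-- The dart with the same endpoint `d.b` on the far side of the triangle. -/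
def ψ : Equiv.Perm T.D := T.ι * T.ν

instance : MulAction Γ T.D where
  smul g d := ⟨((g : SL(2, ℝ)) • d.a, (g : SL(2, ℝ)) • d.b), T.inv g g.2 _ _ d.2⟩
  one_smul d := D.ext (one_smul SL(2, ℝ) d.a) (one_smul SL(2, ℝ) d.b)
  mul_smul g h d := D.ext (mul_smul (g : SL(2, ℝ)) h d.a) (mul_smul (g : SL(2, ℝ)) h d.b)

variable {T}

@[simp] lemma ι_a (d : T.D) : (T.ι d).a = d.b := rfl
@[simp] lemma ι_b (d : T.D) : (T.ι d).b = d.a := rfl
@[simp] lemma ι_ι (d : T.D) : T.ι (T.ι d) = d := rfl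
@[simp] lemma ν_a (d : T.D) : (T.ν d).a = d.b := rfl
@[simp] lemma ν_b (d : T.D) : (T.ν d).b = d.c := rfl
@[simp] lemma ν_c (d : T.D) : (T.ν d).c = d.a := nuf_c d
@[simp] lemma ν_ν_ν (d : T.D) : T.ν (T.ν (T.ν d)) = d := nuf3 d
lemma φ_apply (d : T.D) : T.φ d = T.ι (T.ν (T.ν d)) := rfl
lemma ψ_apply (d : T.D) : T.ψ d = T.ι (T.ν d) := rfl
@[simp] lemma φ_a (d : T.D) : (T.φ d).a = d.a := nuf_c d
@[simp] lemma φ_b (d : T.D) : (T.φ d).b = d.c := rfl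
@[simp] lemma ψ_a (d : T.D) : (T.ψ d).a = d.c := rfl
@[simp] lemma ψ_b (d : T.D) : (T.ψ d).b = d.b := rfl
@[simp] lemma smul_a (g : Γ) (d : T.D) : (g • d).a = (g : SL(2, ℝ)) • d.a := rfl
@[simp] lemma smul_b (g : Γ) (d : T.D) : (g • d).b = (g : SL(2, ℝ)) • d.b := rfl

lemma smul_c (g : Γ) (d : T.D) : (g • d).c = (g : SL(2, ℝ)) • d.c := by
  refine ((g • d).c_eq (T.inv g g.2 _ _ d.mem_bc) (T.inv g g.2 _ _ d.mem_ca) ?_).symm
  obtain ⟨k, hk, e⟩ := ori_ad g d.a_unit d.b_unit d.c_unit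
  rw [smul_a, smul_b, e]
  exact mul_pos hk d.ori_pos

lemma ι_smul (g : Γ) (d : T.D) : T.ι (g • d) = g • T.ι d := rfl
lemma ν_smul (g : Γ) (d : T.D) : T.ν (g • d) = g • T.ν d := D.ext rfl (smul_c g d)
lemma φ_smul (g : Γ) (d : T.D) : T.φ (g • d) = g • T.φ d := by
  rw [φ_apply, ν_smul, ν_smul, ι_smul, φ_apply]
lemma ψ_smul (g : Γ) (d : T.D) : T.ψ (g • d) = g • T.ψ d := by
  rw [ψ_apply, ν_smul, ι_smul, ψ_apply]

/-- Position of a dart in its fan (a negative number that increases along `φ`). -/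
def D.r (d : T.D) : ℝ := crd d.a d.b

/-- Cross ratio of two darts on the two sides of a wall. -/
def rho (d d' : T.D) : ℝ := -(crd d.a d.b / crd d.a d'.b)

/-- A choice of base pairs of darts, one orbit for each wall. -/
structure Base (T : Tr Γ) where
  S : Set (T.D × T.D)
  opp : ∀ p ∈ S, p.2.a = -p.1.a
  symm : ∀ p ∈ S, (p.2, p.1) ∈ S
  inv : ∀ g : Γ, ∀ p ∈ S, (g • p.1, g • p.2) ∈ S
  ex : ∀ a ∈ T.A, ∃ p ∈ S, p.1.a = a
  uniq : ∀ p ∈ S, ∀ q ∈ S, p.1.a = q.1.a → ∃ g : Γ, q = (g • p.1, g • p.2)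

end Tr

end

end Pool.Agent.P.MP_d39174_gt
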