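import Pool.Agent.P.MP_d39174_gt.ExType
import Pool.Agent.P.MP_d39174_gt.Rigid
import Pool.Agent.P.MP_d39174_gt.PermB

/-! Upper bound for the number of critical points with bounded systole. -/

namespace Pool.Agent.P.MP_d39174_gt

open UpperHalfPlane MatrixGroups

noncomputable section

private lemma ncard_union_bound {I X : Type} (t : Finset I) (s : I → Set X) (b : ℕ)
    (h : ∀ i ∈ t, (s i).Finite ∧ (s i).ncard ≤ b) :
    (⋃ i ∈ t, s i).Finite ∧ (⋃ i ∈ t, s i).ncard ≤ t.card * b := by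
  classical
  induction t using Finset.induction_on with
  | empty => simp
  | insert a t ha ih =>
    obtain ⟨i1, i2⟩ := ih fun i hi => h i (Finset.mem_insert_of_mem hi)
    obtain ⟨a1, a2⟩ := h a (Finset.mem_insert_self _ _)
    rw [Finset.set_biUnion_insert, Finset.card_insert_of_notMem ha]
    refine ⟨a1.union i1, (Set.ncard_union_le _ _).trans ?_⟩
    rw [add_mul, one_mul]
    omega

open Classical in
/-- The point of moduli space realised by a type. -/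
private def pointOf {D S : Type} [Fintype S] (M : Mdl D S) : Set (Subgroup SL(2, ℝ)) :=
  if h : ∃ Γ : Subgroup SL(2, ℝ), ∃ x y T, M.Real x y T ∧ M.Gen Γ x y then cls h.choose else ∅

private lemma pointOf_eq {D S : Type} [Fintype D] [Fintype S] [Nonempty D] {M : Mdl D S}
    {Γ : Subgroup SL(2, ℝ)} {x y : D → ℝ} {T : ℝ} (h : M.Real x y T) (g : M.Gen Γ x y) :
    pointOf M = cls Γ := by
  have e : ∃ Γ : Subgroup SL(2, ℝ), ∃ x y T, M.Real x y T ∧ M.Gen Γ x y := ⟨Γ, x, y, T, h, g⟩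
  obtain ⟨x', y', T', h', g'⟩ := e.choose_spec
  rw [pointOf, dif_pos e]
  exact M.cls_eq h' h g' g

private lemma term_bound {D₀ m₀ c g n r k : ℕ} (h1 : n ≤ 12 * g) (h2 : g ≤ c * k)
    (h3 : 6 * r + 12 * k = n + 12) :
    64 ^ n * n ^ (r + k) * (6 * D₀) ^ (n * D₀) * 4 ^ (D₀ * (m₀ + 1) * n + n * D₀) ≤
      ((64 * (6 * D₀) ^ D₀ * 4 ^ (D₀ * (m₀ + 1) + D₀)) ^ 12 * 576) ^ (g + 1) *
        (g + 1) ^ (2 * g - g / (c + 1)) := by
  have hk : g / (c + 1) ≤ k := Nat.div_le_of_le_mul (by nlinarith)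
  have hg : g / (c + 1) ≤ g := Nat.div_le_self _ _
  obtain ⟨E, hE⟩ : ∃ E, E = 2 * g - g / (c + 1) := ⟨_, rfl⟩
  obtain ⟨A, hA⟩ : ∃ A, A = 64 * (6 * D₀) ^ D₀ * 4 ^ (D₀ * (m₀ + 1) + D₀) := ⟨_, rfl⟩
  have e1 : 64 ^ n * n ^ (r + k) * (6 * D₀) ^ (n * D₀) * 4 ^ (D₀ * (m₀ + 1) * n + n * D₀) =
      A ^ n * n ^ (r + k) := by
    rw [hA, mul_pow (64 * (6 * D₀) ^ D₀), mul_pow 64, ← pow_mul, ← pow_mul, mul_comm D₀ n, add_mul,
      mul_comm D₀ n]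
    ring
  have hA1 : 1 ≤ A := by
    rw [hA]
    rcases Nat.eq_zero_or_pos D₀ with rfl | h
    · simp
    · exact Nat.succ_le_of_lt (by positivity)
  have hE2 : E ≤ 2 * g := hE ▸ Nat.sub_le _ _
  rw [e1, ← hA, ← hE]
  have b1 : A ^ n ≤ (A ^ 12) ^ (g + 1) := by
    rw [← pow_mul]
    exact Nat.pow_le_pow_right hA1 (by omega)
  have b2 : n ^ (r + k) ≤ (12 * (g + 1)) ^ (E + 2) :=
    (Nat.pow_le_pow_left (by omega) _).trans (Nat.pow_le_pow_right (by omega) (by omega))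
  have b3 : 12 ^ (E + 2) ≤ 144 ^ (g + 1) := by
    rw [show 144 = 12 ^ 2 from rfl, ← pow_mul]
    exact Nat.pow_le_pow_right (by omega) (by omega)
  have b4 : (g + 1) ^ 2 ≤ 4 ^ (g + 1) := by
    rw [show 4 = 2 ^ 2 from rfl, ← pow_mul, mul_comm, pow_mul]
    exact Nat.pow_le_pow_left Nat.lt_two_pow_self.le _
  calc A ^ n * n ^ (r + k) ≤ (A ^ 12) ^ (g + 1) * (12 * (g + 1)) ^ (E + 2) := Nat.mul_le_mul b1 b2
    _ = (A ^ 12) ^ (g + 1) * (12 ^ (E + 2) * (g + 1) ^ 2) * (g + 1) ^ E := by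
      rw [mul_pow]; ring
    _ ≤ (A ^ 12) ^ (g + 1) * (144 ^ (g + 1) * 4 ^ (g + 1)) * (g + 1) ^ E :=
      Nat.mul_le_mul_right _ (Nat.mul_le_mul_left _ (Nat.mul_le_mul b3 b4))
    _ = (A ^ 12 * 576) ^ (g + 1) * (g + 1) ^ E := by
      rw [← mul_pow, ← mul_pow, show 144 * 4 = 576 from rfl]

theorem upper (C : ℝ) : ∃ q K : ℕ, 1 ≤ q ∧ ∀ g : ℕ, (CritLt g C).Finite ∧
    (CritLt g C).ncard ≤ K ^ (g + 1) * (g + 1) ^ (2 * g - g / q) := by
  classical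
  obtain ⟨D₀, m₀, c, H⟩ := exists_type C
  obtain ⟨A, hA⟩ : ∃ A, A = (64 * (6 * D₀) ^ D₀ * 4 ^ (D₀ * (m₀ + 1) + D₀)) ^ 12 * 576 := ⟨_, rfl⟩
  refine ⟨c + 1, 32 ^ 3 * A, by omega, fun g => ?_⟩
  let R := Finset.range (13 * (g + 1))
  let t : Finset (ℕ × ℕ × ℕ) := (R ×ˢ R ×ˢ R).filter fun p =>
    p.1 ≤ 12 * g ∧ g ≤ c * p.2.2 ∧ 6 * p.2.1 + 12 * p.2.2 = p.1 + 12
  let s : ℕ × ℕ × ℕ → Set (Set (Subgroup SL(2, ℝ))) := fun p =>
    pointOf '' Canon p.1 D₀ p.2.1 p.2.2 (D₀ * (m₀ + 1) * p.1)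
  obtain ⟨u1, u2⟩ := ncard_union_bound t s (A ^ (g + 1) * (g + 1) ^ (2 * g - g / (c + 1)))
    fun p hp => by
      obtain ⟨h1, h2, h3⟩ := (Finset.mem_filter.1 hp).2
      obtain ⟨c1, c2⟩ := ncard_canon p.1 D₀ p.2.1 p.2.2 (D₀ * (m₀ + 1) * p.1)
      exact ⟨c1.image _, (Set.ncard_image_le c1).trans (c2.trans (hA ▸ term_bound h1 h2 h3))⟩
  have sub : CritLt g C ⊆ ⋃ p ∈ t, s p := by
    rintro _ ⟨Γ, ⟨a1, a2, a3⟩, rfl⟩
    obtain ⟨n, r, k, M, x, y, T, b1, b2, b3, b4, b5, b6, b7⟩ := H g Γ a1 a2 a3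
    have : Nonempty (Fin n) := ⟨⟨0, b1⟩⟩
    refine Set.mem_biUnion (x := (n, r, k)) (Finset.mem_coe.2 ?_) ⟨M, b5, pointOf_eq b6 b7⟩
    simp only [t, R, Finset.mem_filter, Finset.mem_product, Finset.mem_range]
    omega
  refine ⟨u1.subset sub, (Set.ncard_le_ncard sub u1).trans (u2.trans ?_)⟩
  have h1 : 13 * (g + 1) ≤ 32 ^ (g + 1) := by
    have := Nat.lt_two_pow_self (n := g + 1)
    calc 13 * (g + 1) ≤ 16 ^ (g + 1) * 2 ^ (g + 1) :=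
          Nat.mul_le_mul (le_trans (by norm_num) (Nat.le_self_pow (Nat.succ_ne_zero g) 16)) this.le
      _ = 32 ^ (g + 1) := by rw [← mul_pow, show 16 * 2 = 32 from rfl]
  have h2 : t.card ≤ (32 ^ 3) ^ (g + 1) := by
    refine (Finset.card_filter_le _ _).trans ?_
    simp only [Finset.card_product, R, Finset.card_range]
    rw [← pow_mul, mul_comm 3, pow_mul]
    calc _ = (13 * (g + 1)) ^ 3 := by ring
      _ ≤ _ := Nat.pow_le_pow_left h1 _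
  rw [mul_pow, mul_assoc]
  exact Nat.mul_le_mul_right _ h2

end

end Pool.Agent.P.MP_d39174_gt
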