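import Pool.Agent.P.MP_d39174_gt.Defs

/-! The Lie algebra `sl(2, ℝ)` as Minkowski space, plane vectors, walls, frames. -/

namespace Pool.Agent.P.MP_d39174_gt

open UpperHalfPlane MatrixGroups

noncomputable section

/-- The traceless matrix `!![a, b; c, -a]`. -/
@[ext] structure V where
  a : ℝ
  b : ℝ
  c : ℝ

namespace V

instance : Zero V := ⟨⟨0, 0, 0⟩⟩
instance : Add V := ⟨fun x y => ⟨x.a + y.a, x.b + y.b, x.c + y.c⟩⟩
instance : Neg V := ⟨fun x => ⟨-x.a, -x.b, -x.c⟩⟩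
instance : Sub V := ⟨fun x y => ⟨x.a - y.a, x.b - y.b, x.c - y.c⟩⟩
instance : SMul ℝ V := ⟨fun t x => ⟨t * x.a, t * x.b, t * x.c⟩⟩

@[simp] lemma zero_a : (0 : V).a = 0 := rfl
@[simp] lemma zero_b : (0 : V).b = 0 := rfl
@[simp] lemma zero_c : (0 : V).c = 0 := rfl
@[simp] lemma add_a (x y : V) : (x + y).a = x.a + y.a := rfl
@[simp] lemma add_b (x y : V) : (x + y).b = x.b + y.b := rfl
@[simp] lemma add_c (x y : V) : (x + y).c = x.c + y.c := rfl
@[simp] lemma neg_a (x : V) : (-x).a = -x.a := rfl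
@[simp] lemma neg_b (x : V) : (-x).b = -x.b := rfl
@[simp] lemma neg_c (x : V) : (-x).c = -x.c := rfl
@[simp] lemma sub_a (x y : V) : (x - y).a = x.a - y.a := rfl
@[simp] lemma sub_b (x y : V) : (x - y).b = x.b - y.b := rfl
@[simp] lemma sub_c (x y : V) : (x - y).c = x.c - y.c := rfl
@[simp] lemma smul_a (t : ℝ) (x : V) : (t • x).a = t * x.a := rfl
@[simp] lemma smul_b (t : ℝ) (x : V) : (t • x).b = t * x.b := rfl
@[simp] lemma smul_c (t : ℝ) (x : V) : (t • x).c = t * x.c := rfl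

instance : AddCommGroup V where
  add_assoc x y z := by ext <;> simp [add_assoc]
  zero_add x := by ext <;> simp
  add_zero x := by ext <;> simp
  add_comm x y := by ext <;> simp [add_comm]
  neg_add_cancel x := by ext <;> simp
  sub_eq_add_neg x y := by ext <;> simp [sub_eq_add_neg]
  nsmul := nsmulRec
  zsmul := zsmulRec

instance : Module ℝ V where
  one_smul x := by ext <;> simp
  mul_smul s t x := by ext <;> simp [mul_assoc]
  smul_zero t := by ext <;> simp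
  smul_add t x y := by ext <;> simp [mul_add]
  add_smul s t x := by ext <;> simp [add_mul]
  zero_smul x := by ext <;> simp

/-- The matrix of a vector. -/
def mat (x : V) : Matrix (Fin 2) (Fin 2) ℝ := !![x.a, x.b; x.c, -x.a]

/-- The traceless part of a matrix. -/
def ofMat (M : Matrix (Fin 2) (Fin 2) ℝ) : V := ⟨(M 0 0 - M 1 1) / 2, M 0 1, M 1 0⟩

end V

lemma det_eq (g : SL(2, ℝ)) : g 0 0 * g 1 1 - g 0 1 * g 1 0 = 1 := by
  have h := g.det_coe
  rwa [Matrix.det_fin_two] at h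

lemma mul_apply' (g h : SL(2, ℝ)) (i j : Fin 2) :
    (g * h) i j = g i 0 * h 0 j + g i 1 * h 1 j := by
  simp [Matrix.mul_apply, Fin.sum_univ_two]

/-- The adjoint action `g • x = g x g⁻¹`. -/
instance : SMul SL(2, ℝ) V := ⟨fun g x =>
  ⟨x.a * (g 0 0 * g 1 1 + g 0 1 * g 1 0) - x.b * (g 0 0 * g 1 0) + x.c * (g 0 1 * g 1 1),
   -2 * x.a * (g 0 0 * g 0 1) + x.b * g 0 0 ^ 2 - x.c * g 0 1 ^ 2,
   2 * x.a * (g 1 0 * g 1 1) - x.b * g 1 0 ^ 2 + x.c * g 1 1 ^ 2⟩⟩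

lemma ad_a (g : SL(2, ℝ)) (x : V) : (g • x).a =
    x.a * (g 0 0 * g 1 1 + g 0 1 * g 1 0) - x.b * (g 0 0 * g 1 0) + x.c * (g 0 1 * g 1 1) := rfl
lemma ad_b (g : SL(2, ℝ)) (x : V) : (g • x).b =
    -2 * x.a * (g 0 0 * g 0 1) + x.b * g 0 0 ^ 2 - x.c * g 0 1 ^ 2 := rfl
lemma ad_c (g : SL(2, ℝ)) (x : V) : (g • x).c =
    2 * x.a * (g 1 0 * g 1 1) - x.b * g 1 0 ^ 2 + x.c * g 1 1 ^ 2 := rfl

instance : DistribMulAction SL(2, ℝ) V where
  one_smul x := by ext <;> simp [ad_a, ad_b, ad_c]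
  mul_smul g h x := by ext <;> simp only [ad_a, ad_b, ad_c, mul_apply'] <;> ring
  smul_zero g := by ext <;> simp [ad_a, ad_b, ad_c]
  smul_add g x y := by ext <;> simp only [ad_a, ad_b, ad_c, V.add_a, V.add_b, V.add_c] <;> ring

instance : SMulCommClass SL(2, ℝ) ℝ V where
  smul_comm g t x := by
    ext <;> simp only [ad_a, ad_b, ad_c, V.smul_a, V.smul_b, V.smul_c] <;> ring

instance : SMulCommClass ℝ SL(2, ℝ) V := SMulCommClass.symm _ _ _

/-- The form `tr (x y) / 2` of signature `(+, +, -)`. -/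
def B (x y : V) : ℝ := x.a * y.a + (x.b * y.c + x.c * y.b) / 2

/-- Half of the commutator. -/
def cr (x y : V) : V :=
  ⟨(x.b * y.c - x.c * y.b) / 2, x.a * y.b - x.b * y.a, x.c * y.a - x.a * y.c⟩

/-- The invariant volume form. -/
def det3 (x y z : V) : ℝ := B (cr x y) z

/-- Future timelike vectors. -/
def Fut (p : V) : Prop := B p p < 0 ∧ 0 < p.b

/-- The point of the hyperboloid attached to `z`. -/
def Hy (z : ℍ) : V := ⟨-z.re / z.im, (z.re ^ 2 + z.im ^ 2) / z.im, -1 / z.im⟩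

open Classical in
/-- The point of `ℍ` on the ray of a future timelike vector. -/
def pt (p : V) : ℍ :=
  if h : Fut p then ⟨⟨p.a / p.c, √(-B p p) / -p.c⟩, by
    have h1 := h.1
    have h2 := h.2
    have h3 : p.c < 0 := by
      by_contra h3
      unfold B at h1
      nlinarith [mul_self_nonneg p.a, mul_nonneg h2.le (not_lt.1 h3)]
    exact div_pos (Real.sqrt_pos.2 (by linarith)) (by linarith)⟩
  else I

open Classical in
/-- `cosh t + sinh t • n` for a unit vector `n`: the translation by `2 t` along the wall. -/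
def ex (t : ℝ) (n : V) : SL(2, ℝ) :=
  if h : B n n = 1 then
    ⟨!![Real.cosh t + Real.sinh t * n.a, Real.sinh t * n.b;
        Real.sinh t * n.c, Real.cosh t - Real.sinh t * n.a], by
      rw [Matrix.det_fin_two_of]
      unfold B at h
      have := Real.cosh_sq t
      linear_combination this - Real.sinh t ^ 2 * h⟩
  else 1

/-- Trace. -/
def tr (g : SL(2, ℝ)) : ℝ := g 0 0 + g 1 1

/-- Equality up to sign. -/
def PM (g h : SL(2, ℝ)) : Prop := h = g ∨ h = -g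

/-- Plane vectors; nonzero ones represent ideal points `p / q`. -/
@[ext] structure W where
  p : ℝ
  q : ℝ

instance : SMul SL(2, ℝ) W :=
  ⟨fun g x => ⟨g 0 0 * x.p + g 0 1 * x.q, g 1 0 * x.p + g 1 1 * x.q⟩⟩

lemma act_p (g : SL(2, ℝ)) (x : W) : (g • x).p = g 0 0 * x.p + g 0 1 * x.q := rfl
lemma act_q (g : SL(2, ℝ)) (x : W) : (g • x).q = g 1 0 * x.p + g 1 1 * x.q := rfl

instance : MulAction SL(2, ℝ) W where
  one_smul x := by ext <;> simp [act_p, act_q]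
  mul_smul g h x := by ext <;> simp only [act_p, act_q, mul_apply'] <;> ring

/-- Determinant of two plane vectors. -/
def br (x y : W) : ℝ := x.p * y.q - x.q * y.p

/-- The future null vector of an ideal point. -/
def N (x : W) : V := ⟨-(x.p * x.q), x.p ^ 2, -x.q ^ 2⟩

open Classical in
/-- An eigenvector of the unit vector `n` for the eigenvalue `1`: the ideal endpoint `e(n)`. -/
def ev (n : V) : W := if n.a = -1 ∧ n.c = 0 then ⟨n.b, 1 - n.a⟩ else ⟨1 + n.a, n.c⟩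

/-- Cyclic orientation of three ideal points (only the sign matters). -/
def oriW (x y z : W) : ℝ := br x y * br y z * br z x

/-- Cyclic orientation of the endpoints of three walls. -/
def ori (a b c : V) : ℝ := oriW (ev a) (ev b) (ev c)

/-- The geodesics `e(a) e(b)` and `e(c) e(d)` cross. -/
def Cr (a b c d : V) : Prop := ori a b c * ori a b d < 0

/-- The standard wall: the imaginary axis, with `e(w0) = ∞` and `e(-w0) = 0`. -/
def w0 : V := ⟨1, 0, 0⟩

/-- The base point `Hy I`. -/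
def o0 : V := ⟨0, 1, -1⟩

/-- The nilpotent `!![0, 1; 0, 0]`. -/
def E0 : V := ⟨0, 1, 0⟩

open Classical in
/-- A frame that carries the standard wall to `n`. -/
def fr (n : V) : SL(2, ℝ) := if h : ∃ g : SL(2, ℝ), g • w0 = n then h.choose else 1

/-- Affine coordinate of an ideal point when `e(w) = ∞`, `e(-w) = 0`. -/
def crdW (w : V) (x : W) : ℝ := ((fr w)⁻¹ • x).p / ((fr w)⁻¹ • x).q

/-- Affine coordinate of `e(a)` when `e(w) = ∞`, `e(-w) = 0`. -/
def crd (w a : V) : ℝ := crdW w (ev a)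

/-- Working hypotheses on the group. -/
structure Nice (Γ : Subgroup SL(2, ℝ)) : Prop where
  neg_one_mem : -1 ∈ Γ
  fin : ∀ (z : ℍ) (R : ℝ), {γ : SL(2, ℝ) | γ ∈ Γ ∧ dist z (γ • z) ≤ R}.Finite
  coc : ∃ R : ℝ, ∀ z : ℍ, ∃ γ ∈ Γ, dist (γ • z) I ≤ R
  hyp : ∀ γ ∈ Γ, γ ≠ 1 → γ ≠ -1 → 2 < |tr γ|

/-- The oriented walls with translation `ex l n` in `Γ`. -/
def SS (Γ : Subgroup SL(2, ℝ)) (l : ℝ) : Set V := {n | B n n = 1 ∧ ex l n ∈ Γ}

/-- The systole of `Γ` is `2 l`. -/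
structure Sys (Γ : Subgroup SL(2, ℝ)) (l : ℝ) : Prop where
  pos : 0 < l
  le : ∀ γ ∈ Γ, γ ≠ 1 → γ ≠ -1 → 2 * Real.cosh l ≤ |tr γ|
  ne : (SS Γ l).Nonempty

/-- `ex t n` generates the stabiliser of `n` modulo sign. -/
structure Prim (Γ : Subgroup SL(2, ℝ)) (n : V) (t : ℝ) : Prop where
  unit : B n n = 1
  pos : 0 < t
  mem : ex t n ∈ Γ
  gen : ∀ g ∈ Γ, g • n = n → ∃ m : ℤ, PM (ex (m * t) n) g

/-- A unit vector with a period in `Γ`. -/
def Per (Γ : Subgroup SL(2, ℝ)) (n : V) : Prop := B n n = 1 ∧ ∃ t, 0 < t ∧ ex t n ∈ Γ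

/-- Cocycles with values in `V`. -/
def Coc (Γ : Subgroup SL(2, ℝ)) (u : SL(2, ℝ) → V) : Prop :=
  ∀ γ ∈ Γ, ∀ δ ∈ Γ, u (γ * δ) = u γ + γ • u δ

/-- Same unoriented wall modulo `Γ`. -/
def Eqw (Γ : Subgroup SL(2, ℝ)) (m n : V) : Prop := ∃ g ∈ Γ, n = g • m ∨ n = -(g • m)

/-- Criticality in terms of walls. -/
def CritV (Γ : Subgroup SL(2, ℝ)) (l : ℝ) : Prop :=
  ∃ T : Finset V, (∀ n ∈ T, n ∈ SS Γ l) ∧ (∀ n ∈ SS Γ l, ∃! m, m ∈ T ∧ Eqw Γ m n) ∧
    ∃ c : V → ℝ, (∀ n ∈ T, 0 < c n) ∧ ∀ u, Coc Γ u → ∑ n ∈ T, c n * B (u (ex l n)) n = 0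

/-- A family of walls is locally finite. -/
def LF (S : Set V) : Prop := ∀ (z : ℍ) (R : ℝ), {n | n ∈ S ∧ |B n (Hy z)| ≤ R}.Finite

end

end Pool.Agent.P.MP_d39174_gt
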