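import Pool.Agent.P.MP_d39174_gt.V

/-! Algebra of the form, the adjoint action and equality up to sign. -/

namespace Pool.Agent.P.MP_d39174_gt

open UpperHalfPlane MatrixGroups

noncomputable section

set_option linter.unusedSimpArgs false

lemma B_comm (x y : V) : B x y = B y x := by
  simp only [B, V.add_a, V.add_b, V.add_c, V.sub_a, V.sub_b, V.sub_c, V.neg_a, V.neg_b, V.neg_c,
    V.smul_a, V.smul_b, V.smul_c, V.zero_a, V.zero_b, V.zero_c]
  ring

@[simp] lemma B_add_left (x y z : V) : B (x + y) z = B x z + B y z := by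
  simp only [B, V.add_a, V.add_b, V.add_c, V.sub_a, V.sub_b, V.sub_c, V.neg_a, V.neg_b, V.neg_c,
    V.smul_a, V.smul_b, V.smul_c, V.zero_a, V.zero_b, V.zero_c]
  ring

@[simp] lemma B_add_right (x y z : V) : B x (y + z) = B x y + B x z := by
  simp only [B, V.add_a, V.add_b, V.add_c, V.sub_a, V.sub_b, V.sub_c, V.neg_a, V.neg_b, V.neg_c,
    V.smul_a, V.smul_b, V.smul_c, V.zero_a, V.zero_b, V.zero_c]
  ring

@[simp] lemma B_sub_left (x y z : V) : B (x - y) z = B x z - B y z := by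
  simp only [B, V.add_a, V.add_b, V.add_c, V.sub_a, V.sub_b, V.sub_c, V.neg_a, V.neg_b, V.neg_c,
    V.smul_a, V.smul_b, V.smul_c, V.zero_a, V.zero_b, V.zero_c]
  ring

@[simp] lemma B_sub_right (x y z : V) : B x (y - z) = B x y - B x z := by
  simp only [B, V.add_a, V.add_b, V.add_c, V.sub_a, V.sub_b, V.sub_c, V.neg_a, V.neg_b, V.neg_c,
    V.smul_a, V.smul_b, V.smul_c, V.zero_a, V.zero_b, V.zero_c]
  ring

@[simp] lemma B_neg_left (x y : V) : B (-x) y = -B x y := by
  simp only [B, V.add_a, V.add_b, V.add_c, V.sub_a, V.sub_b, V.sub_c, V.neg_a, V.neg_b, V.neg_c,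
    V.smul_a, V.smul_b, V.smul_c, V.zero_a, V.zero_b, V.zero_c]
  ring

@[simp] lemma B_neg_right (x y : V) : B x (-y) = -B x y := by
  simp only [B, V.add_a, V.add_b, V.add_c, V.sub_a, V.sub_b, V.sub_c, V.neg_a, V.neg_b, V.neg_c,
    V.smul_a, V.smul_b, V.smul_c, V.zero_a, V.zero_b, V.zero_c]
  ring

@[simp] lemma B_smul_left (t : ℝ) (x y : V) : B (t • x) y = t * B x y := by
  simp only [B, V.add_a, V.add_b, V.add_c, V.sub_a, V.sub_b, V.sub_c, V.neg_a, V.neg_b, V.neg_c,
    V.smul_a, V.smul_b, V.smul_c, V.zero_a, V.zero_b, V.zero_c]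
  ring

@[simp] lemma B_smul_right (t : ℝ) (x y : V) : B x (t • y) = t * B x y := by
  simp only [B, V.add_a, V.add_b, V.add_c, V.sub_a, V.sub_b, V.sub_c, V.neg_a, V.neg_b, V.neg_c,
    V.smul_a, V.smul_b, V.smul_c, V.zero_a, V.zero_b, V.zero_c]
  ring

@[simp] lemma B_zero_left (x : V) : B 0 x = 0 := by
  simp only [B, V.add_a, V.add_b, V.add_c, V.sub_a, V.sub_b, V.sub_c, V.neg_a, V.neg_b, V.neg_c,
    V.smul_a, V.smul_b, V.smul_c, V.zero_a, V.zero_b, V.zero_c]
  ring

@[simp] lemma B_zero_right (x : V) : B x 0 = 0 := by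
  simp only [B, V.add_a, V.add_b, V.add_c, V.sub_a, V.sub_b, V.sub_c, V.neg_a, V.neg_b, V.neg_c,
    V.smul_a, V.smul_b, V.smul_c, V.zero_a, V.zero_b, V.zero_c]
  ring

lemma B_sum_left {ι : Type*} (s : Finset ι) (f : ι → V) (y : V) :
    B (∑ i ∈ s, f i) y = ∑ i ∈ s, B (f i) y := by
  classical
  induction s using Finset.induction_on with
  | empty => simp
  | insert a s ha ih => rw [Finset.sum_insert ha, Finset.sum_insert ha, B_add_left, ih]

lemma B_sum_right {ι : Type*} (s : Finset ι) (f : ι → V) (y : V) :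
    B y (∑ i ∈ s, f i) = ∑ i ∈ s, B y (f i) := by
  rw [B_comm, B_sum_left]; exact Finset.sum_congr rfl fun i _ => B_comm _ _

@[simp] lemma B_ad (g : SL(2, ℝ)) (x y : V) : B (g • x) (g • y) = B x y := by
  have h : B (g • x) (g • y) = (g 0 0 * g 1 1 - g 0 1 * g 1 0) ^ 2 * B x y := by
    simp only [B, ad_a, ad_b, ad_c]; ring
  rw [h, det_eq]; ring

lemma B_ad_left (g : SL(2, ℝ)) (x y : V) : B (g • x) y = B x (g⁻¹ • y) := by
  rw [← B_ad g x (g⁻¹ • y), smul_inv_smul]

lemma B_ad_right (g : SL(2, ℝ)) (x y : V) : B x (g • y) = B (g⁻¹ • x) y := by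
  rw [← B_ad g (g⁻¹ • x) y, smul_inv_smul]

lemma eq_of_B {x y : V} (h : ∀ z, B x z = B y z) : x = y := by
  have h1 := h ⟨1, 0, 0⟩
  have h2 := h ⟨0, 1, 0⟩
  have h3 := h ⟨0, 0, 1⟩
  simp only [B] at h1 h2 h3
  ext <;> linarith

lemma ne_neg_of_unit {n : V} (h : B n n = 1) : n ≠ -n := by
  intro e
  have h1 : B n n = B n (-n) := by rw [← e]
  rw [B_neg_right, h] at h1
  norm_num at h1

@[simp] lemma B_w0 : B w0 w0 = 1 := by simp [B, w0]

@[simp] lemma B_o0 : B o0 o0 = -1 := by norm_num [B, o0]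

lemma ad_real (g : SL(2, ℝ)) (t : ℝ) (x : V) : g • (t • x) = t • (g • x) := smul_comm g t x

@[simp] lemma neg_ad (g : SL(2, ℝ)) (x : V) : (-g) • x = g • x := by
  have e : ∀ i j, (-g) i j = -g i j := fun i j => by simp
  ext <;> simp only [ad_a, ad_b, ad_c, e] <;> ring

@[simp] lemma neg_act (g : SL(2, ℝ)) (z : ℍ) : (-g) • z = g • z := by
  apply UpperHalfPlane.ext
  rw [coe_specialLinearGroup_apply, coe_specialLinearGroup_apply]
  have e : ∀ i j, (-g) i j = -g i j := fun i j => by simp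
  simp only [e, map_neg, Complex.ofReal_neg]
  rw [← neg_div_neg_eq]
  congr 1 <;> ring

lemma neg_apply' (g : SL(2, ℝ)) (i j : Fin 2) : (-g) i j = -g i j := by simp

lemma inv_apply' (g : SL(2, ℝ)) :
    g⁻¹ 0 0 = g 1 1 ∧ g⁻¹ 0 1 = -g 0 1 ∧ g⁻¹ 1 0 = -g 1 0 ∧ g⁻¹ 1 1 = g 0 0 := by
  simp [Matrix.SpecialLinearGroup.coe_inv, Matrix.adjugate_fin_two]

lemma one_ne_neg_one' : (1 : SL(2, ℝ)) ≠ -1 := by
  intro h
  have := congrArg (fun g : SL(2, ℝ) => g 0 0) h
  simp only [neg_apply'] at this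
  norm_num at this


lemma mat_ad (g : SL(2, ℝ)) (x : V) : (g • x).mat = g.1 * x.mat * (g⁻¹).1 := by
  obtain ⟨h1, h2, h3, h4⟩ := inv_apply' g
  ext i j
  fin_cases i <;> fin_cases j <;>
    simp [V.mat, Matrix.mul_apply, Fin.sum_univ_two, ad_a, ad_b, ad_c, Matrix.adjugate_fin_two] <;> ring

lemma mat_add (x y : V) : (x + y).mat = x.mat + y.mat := by
  ext i j
  fin_cases i <;> fin_cases j <;> simp [V.mat] <;> ring

lemma mat_sub (x y : V) : (x - y).mat = x.mat - y.mat := by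
  ext i j
  fin_cases i <;> fin_cases j <;> simp [V.mat] <;> ring

lemma mat_smul (t : ℝ) (x : V) : (t • x).mat = t • x.mat := by
  ext i j
  fin_cases i <;> fin_cases j <;> simp [V.mat] <;> ring

lemma mat_zero : (0 : V).mat = 0 := by
  ext i j
  fin_cases i <;> fin_cases j <;> simp [V.mat] <;> ring

lemma mat_trace (x : V) : x.mat.trace = 0 := by simp [V.mat, Matrix.trace_fin_two]

lemma ofMat_mat (x : V) : V.ofMat x.mat = x := by ext <;> simp [V.mat, V.ofMat]

lemma mat_ofMat {M : Matrix (Fin 2) (Fin 2) ℝ} (h : M.trace = 0) : (V.ofMat M).mat = M := by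
  rw [Matrix.trace_fin_two] at h
  ext i j
  fin_cases i <;> fin_cases j <;> simp [V.mat, V.ofMat] <;> linarith

lemma B_eq_trace (x y : V) : B x y = (x.mat * y.mat).trace / 2 := by
  simp [V.mat, Matrix.trace_fin_two, B]; ring

lemma tr_eq (g : SL(2, ℝ)) : tr g = g.1.trace := by rw [Matrix.trace_fin_two]; rfl

lemma tr_neg (g : SL(2, ℝ)) : tr (-g) = -tr g := by simp only [tr, neg_apply']; ring

lemma tr_inv (g : SL(2, ℝ)) : tr g⁻¹ = tr g := by
  obtain ⟨h1, h2, h3, h4⟩ := inv_apply' g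
  simp only [tr, h1, h4]; ring

lemma tr_conj (g h : SL(2, ℝ)) : tr (g * h * g⁻¹) = tr h := by
  obtain ⟨h1, h2, h3, h4⟩ := inv_apply' g
  simp only [tr, mul_apply', h1, h2, h3, h4]
  linear_combination (h 0 0 + h 1 1) * det_eq g


lemma cr_ad (g : SL(2, ℝ)) (x y : V) : g • cr x y = cr (g • x) (g • y) := by
  have h := det_eq g
  have e : cr (g • x) (g • y) = (g 0 0 * g 1 1 - g 0 1 * g 1 0) • (g • cr x y) := by
    ext <;> simp only [cr, ad_a, ad_b, ad_c, V.smul_a, V.smul_b, V.smul_c] <;> ring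
  rw [e, h, one_smul]

lemma cr_swap (x y : V) : cr y x = -cr x y := by
  ext <;> simp only [cr, B, det3, V.add_a, V.add_b, V.add_c, V.sub_a, V.sub_b, V.sub_c, V.neg_a, V.neg_b,
    V.neg_c, V.smul_a, V.smul_b, V.smul_c, V.zero_a, V.zero_b, V.zero_c] <;> ring

lemma cr_neg_left (x y : V) : cr (-x) y = -cr x y := by
  ext <;> simp only [cr, B, det3, V.add_a, V.add_b, V.add_c, V.sub_a, V.sub_b, V.sub_c, V.neg_a, V.neg_b,
    V.neg_c, V.smul_a, V.smul_b, V.smul_c, V.zero_a, V.zero_b, V.zero_c] <;> ring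

lemma cr_neg_right (x y : V) : cr x (-y) = -cr x y := by
  ext <;> simp only [cr, B, det3, V.add_a, V.add_b, V.add_c, V.sub_a, V.sub_b, V.sub_c, V.neg_a, V.neg_b,
    V.neg_c, V.smul_a, V.smul_b, V.smul_c, V.zero_a, V.zero_b, V.zero_c] <;> ring

lemma cr_add_right (x y z : V) : cr x (y + z) = cr x y + cr x z := by
  ext <;> simp only [cr, B, det3, V.add_a, V.add_b, V.add_c, V.sub_a, V.sub_b, V.sub_c, V.neg_a, V.neg_b,
    V.neg_c, V.smul_a, V.smul_b, V.smul_c, V.zero_a, V.zero_b, V.zero_c] <;> ring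

lemma cr_smul_right (t : ℝ) (x y : V) : cr x (t • y) = t • cr x y := by
  ext <;> simp only [cr, B, det3, V.add_a, V.add_b, V.add_c, V.sub_a, V.sub_b, V.sub_c, V.neg_a, V.neg_b,
    V.neg_c, V.smul_a, V.smul_b, V.smul_c, V.zero_a, V.zero_b, V.zero_c] <;> ring

lemma B_cr_left (x y : V) : B x (cr x y) = 0 := by simp only [cr, B, det3]; ring

lemma B_cr_right (x y : V) : B y (cr x y) = 0 := by simp only [cr, B, det3]; ring

lemma B_cr_cr (x y : V) : B (cr x y) (cr x y) = B x y ^ 2 - B x x * B y y := by simp only [cr, B, det3]; ring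

lemma cr_cr (x y z : V) : cr x (cr y z) = B x y • z - B x z • y := by
  ext <;> simp only [cr, B, det3, V.add_a, V.add_b, V.add_c, V.sub_a, V.sub_b, V.sub_c, V.neg_a, V.neg_b,
    V.neg_c, V.smul_a, V.smul_b, V.smul_c, V.zero_a, V.zero_b, V.zero_c] <;> ring

lemma det3_ad (g : SL(2, ℝ)) (x y z : V) : det3 (g • x) (g • y) (g • z) = det3 x y z := by rw [det3, ← cr_ad, B_ad, det3]

lemma det3_cyc (x y z : V) : det3 y z x = det3 x y z := by simp only [cr, B, det3]; ring

lemma det3_swap (x y z : V) : det3 y x z = -det3 x y z := by simp only [cr, B, det3]; ring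

lemma cramer (x y c d : V) :
    det3 y c d • x - det3 x c d • y + det3 x y d • c - det3 x y c • d = 0 := by
  ext <;> simp only [cr, B, det3, V.add_a, V.add_b, V.add_c, V.sub_a, V.sub_b, V.sub_c, V.neg_a, V.neg_b,
    V.neg_c, V.smul_a, V.smul_b, V.smul_c, V.zero_a, V.zero_b, V.zero_c] <;> ring

private lemma VA_par {c v : V} (hc : c ≠ 0) (h : cr v c = 0) : ∃ t : ℝ, v = t • c := by
  have p1 := congrArg V.a h
  have p2 := congrArg V.b h
  have p3 := congrArg V.c h
  simp only [cr, V.zero_a, V.zero_b, V.zero_c] at p1 p2 p3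
  by_cases ha : c.a = 0
  · by_cases hb : c.b = 0
    · have hcc : c.c ≠ 0 := fun e => hc (by ext <;> simp [ha, hb, e])
      refine ⟨v.c / c.c, ?_⟩
      ext <;> simp only [V.smul_a, V.smul_b, V.smul_c] <;> field_simp <;> linarith
    · refine ⟨v.b / c.b, ?_⟩
      ext <;> simp only [V.smul_a, V.smul_b, V.smul_c] <;> field_simp <;> linarith
  · refine ⟨v.a / c.a, ?_⟩
    ext <;> simp only [V.smul_a, V.smul_b, V.smul_c] <;> field_simp <;> linarith

private lemma VA_fix {k : SL(2, ℝ)} {n : V} (h : k • n = n) : cr (V.ofMat k.1) n = 0 := by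
  have hm : (k • n).mat * k.1 = k.1 * n.mat := by
    rw [mat_ad, mul_assoc, ← Matrix.SpecialLinearGroup.coe_mul, inv_mul_cancel]; simp
  rw [h] at hm
  have a := congrFun (congrFun hm 0) 0
  have b := congrFun (congrFun hm 0) 1
  have c := congrFun (congrFun hm 1) 0
  simp [V.mat, Matrix.mul_apply, Fin.sum_univ_two] at a b c
  ext <;> simp only [cr, V.ofMat, V.zero_a, V.zero_b, V.zero_c] <;> linarith

/-- A vector orthogonal to three independent vectors vanishes. -/
lemma eq_zero_of_det3 {x y z v : V} (h : det3 x y z ≠ 0) (hx : B x v = 0) (hy : B y v = 0)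
    (hz : B z v = 0) : v = 0 := by
  apply eq_of_B
  intro w
  have e := congrArg (fun u => B u v) (cramer x y z w)
  simp only [B_add_left, B_sub_left, B_smul_left, B_zero_left, hx, hy, hz] at e
  have e' : det3 x y z * B w v = 0 := by linarith
  rw [B_zero_left, B_comm]
  exact (mul_eq_zero.1 e').resolve_left h

/-- A vector orthogonal to two independent vectors is a multiple of their product. -/
lemma exists_smul_cr {x y v : V} (h : cr x y ≠ 0) (hx : B x v = 0) (hy : B y v = 0) :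
    ∃ t : ℝ, v = t • cr x y := by
  apply VA_par h
  rw [cr_cr, B_comm v x, B_comm v y, hx, hy]; simp

/-- Expansion in an orthonormal basis with one timelike vector. -/
lemma expand_on {n p : V} (hn : B n n = 1) (hp : B p p = -1) (h : B n p = 0) (v : V) :
    v = B v n • n - B v p • p + B v (cr n p) • cr n p := by
  have hc : B (cr n p) (cr n p) = 1 := by rw [B_cr_cr, h, hn, hp]; norm_num
  have hd : det3 n p (cr n p) ≠ 0 := by rw [det3, hc]; norm_num
  have h' : B p n = 0 := by rw [B_comm]; exact h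
  have a1 : B n (cr n p) = 0 := B_cr_left n p
  have a2 : B p (cr n p) = 0 := B_cr_right n p
  have a3 : B (cr n p) n = 0 := by rw [B_comm]; exact a1
  have a4 : B (cr n p) p = 0 := by rw [B_comm]; exact a2
  rw [← sub_eq_zero]
  apply eq_zero_of_det3 hd
  · simp only [B_sub_right, B_add_right, B_smul_right, hn, h, a1, B_comm n v]; ring
  · simp only [B_sub_right, B_add_right, B_smul_right, hp, h', a2, B_comm p v]; ring
  · simp only [B_sub_right, B_add_right, B_smul_right, hc, a3, a4, B_comm (cr n p) v]; ring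


lemma PM.refl (g : SL(2, ℝ)) : PM g g := Or.inl rfl

lemma PM.symm {g h : SL(2, ℝ)} (e : PM g h) : PM h g := by
  rcases e with rfl | rfl
  · exact Or.inl rfl
  · exact Or.inr (neg_neg g).symm

lemma PM.trans {g h k : SL(2, ℝ)} (e : PM g h) (e' : PM h k) : PM g k := by
  rcases e with rfl | rfl <;> rcases e' with rfl | rfl <;> simp [PM]

lemma PM.mul {g g' h h' : SL(2, ℝ)} (e : PM g g') (e' : PM h h') : PM (g * h) (g' * h') := by
  rcases e with rfl | rfl <;> rcases e' with rfl | rfl <;> simp [PM]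

lemma PM.inv {g h : SL(2, ℝ)} (e : PM g h) : PM g⁻¹ h⁻¹ := by
  rcases e with rfl | rfl
  · exact Or.inl rfl
  · exact Or.inr inv_neg

lemma PM.neg (g : SL(2, ℝ)) : PM g (-g) := Or.inr rfl

lemma PM.ad {g h : SL(2, ℝ)} (e : PM g h) (x : V) : g • x = h • x := by
  rcases e with rfl | rfl
  · rfl
  · rw [neg_ad]

lemma PM.act {g h : SL(2, ℝ)} (e : PM g h) (z : ℍ) : g • z = h • z := by
  rcases e with rfl | rfl
  · rfl
  · rw [neg_act]

lemma PM.abs_tr {g h : SL(2, ℝ)} (e : PM g h) : |tr g| = |tr h| := by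
  rcases e with rfl | rfl
  · rfl
  · rw [tr_neg, abs_neg]

lemma PM.mem {Γ : Subgroup SL(2, ℝ)} (h1 : -1 ∈ Γ) {g h : SL(2, ℝ)} (e : PM g h) (hg : g ∈ Γ) :
    h ∈ Γ := by
  rcases e with rfl | rfl
  · exact hg
  · have := Γ.mul_mem h1 hg
    rwa [neg_one_mul] at this

lemma pm_one_iff (g : SL(2, ℝ)) : PM 1 g ↔ g = 1 ∨ g = -1 := Iff.rfl

lemma pm_iff_inv_mul (g h : SL(2, ℝ)) : PM g h ↔ PM 1 (g⁻¹ * h) := by
  constructor
  · intro e
    have := PM.mul (PM.refl g⁻¹) e
    rwa [inv_mul_cancel] at this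
  · intro e
    have := PM.mul (PM.refl g) e
    rwa [mul_one, mul_inv_cancel_left] at this

/-- Two independent vectors determine a group element up to sign. -/
lemma pm_of_ad {g h : SL(2, ℝ)} {n m : V} (hc : cr n m ≠ 0) (hn : g • n = h • n)
    (hm : g • m = h • m) : PM g h := by
  rw [pm_iff_inv_mul]
  set k := g⁻¹ * h with hk
  have kn : k • n = n := by rw [hk, mul_smul, ← hn, inv_smul_smul]
  have km : k • m = m := by rw [hk, mul_smul, ← hm, inv_smul_smul]
  have c1 := VA_fix kn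
  have c2 := VA_fix km
  set u := V.ofMat k.1 with hu
  have hu0 : u = 0 := by
    have ea : u.a • cr n m = 0 ∧ u.b • cr n m = 0 ∧ u.c • cr n m = 0 := by
      have p1 := congrArg V.a c1
      have p2 := congrArg V.b c1
      have p3 := congrArg V.c c1
      have q1 := congrArg V.a c2
      have q2 := congrArg V.b c2
      have q3 := congrArg V.c c2
      simp only [cr, V.zero_a, V.zero_b, V.zero_c] at p1 p2 p3 q1 q2 q3
      refine ⟨?_, ?_, ?_⟩ <;> ext <;>
        simp only [cr, V.smul_a, V.smul_b, V.smul_c, V.zero_a, V.zero_b, V.zero_c]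
      · linear_combination (m.c / 2) * p2 + (m.b / 2) * p3 + n.a * q1
      · linear_combination n.a * q2 - m.a * p2
      · linear_combination n.a * q3 - m.a * p3
      · linear_combination n.b * q1 - m.b * p1
      · linear_combination n.b * q2 - m.b * p2
      · linear_combination m.c * p2 + 2 * m.a * p1 + n.b * q3
      · linear_combination n.c * q1 - m.c * p1
      · linear_combination m.b * p3 + 2 * m.a * p1 + n.c * q2
      · linear_combination n.c * q3 - m.c * p3
    ext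
    · exact (smul_eq_zero.1 ea.1).resolve_right hc
    · exact (smul_eq_zero.1 ea.2.1).resolve_right hc
    · exact (smul_eq_zero.1 ea.2.2).resolve_right hc
  have e1 : (k 0 0 - k 1 1) / 2 = 0 := congrArg V.a hu0
  have e2 : k 0 1 = 0 := congrArg V.b hu0
  have e3 : k 1 0 = 0 := congrArg V.c hu0
  have hd := det_eq k
  have e4 : k 1 1 = k 0 0 := by linarith
  rw [e2, e4] at hd
  have e5 : (k 0 0 - 1) * (k 0 0 + 1) = 0 := by linarith
  rcases mul_eq_zero.1 e5 with e6 | e6
  · left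
    ext i j
    fin_cases i <;> fin_cases j <;> simp [e2, e3, e4] <;> linarith
  · right
    ext i j
    fin_cases i <;> fin_cases j <;> simp [e2, e3, e4] <;> linarith

lemma tr_of_flip {g : SL(2, ℝ)} {n : V} (hn : B n n = 1) (h : g • n = -n) : tr g = 0 := by
  have hd := det_eq g
  have p1 := congrArg V.a h
  have p2 := congrArg V.b h
  have p3 := congrArg V.c h
  simp only [ad_a, ad_b, ad_c, V.neg_a, V.neg_b, V.neg_c] at p1 p2 p3
  have hm : (g • n).mat * g.1 = g.1 * n.mat := by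
    rw [mat_ad, mul_assoc, ← Matrix.SpecialLinearGroup.coe_mul, inv_mul_cancel]; simp
  rw [h] at hm
  have a := congrFun (congrFun hm 0) 0
  have b := congrFun (congrFun hm 0) 1
  have c := congrFun (congrFun hm 1) 0
  have d := congrFun (congrFun hm 1) 1
  simp [V.mat, Matrix.mul_apply, Fin.sum_univ_two] at a b c d
  unfold B at hn
  unfold tr
  linear_combination (-(g 0 0 + g 1 1)) * hn - (n.a / 2) * a - (n.c / 2) * b - (n.b / 2) * c + (n.a / 2) * d

/-- An element that fixes a timelike vector is not hyperbolic. -/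
lemma abs_tr_le_of_fix {g : SL(2, ℝ)} {p : V} (hp : B p p < 0) (h : g • p = p) :
    |tr g| ≤ 2 := by
  have c1 := VA_fix h
  have hp0 : p ≠ 0 := by
    rintro rfl
    simp at hp
  obtain ⟨t, ht⟩ := VA_par hp0 c1
  have e1 : (g 0 0 - g 1 1) / 2 = t * p.a := congrArg V.a ht
  have e2 : g 0 1 = t * p.b := congrArg V.b ht
  have e3 : g 1 0 = t * p.c := congrArg V.c ht
  have hd := det_eq g
  have : tr g ^ 2 = 4 + 4 * t ^ 2 * B p p := by
    unfold tr B
    have e4 : g 0 0 = g 1 1 + 2 * (t * p.a) := by linarith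
    rw [e2, e3, e4] at hd
    rw [e4]
    linear_combination 4 * hd
  have h2 : tr g ^ 2 ≤ 2 ^ 2 := by nlinarith [sq_nonneg t]
  exact abs_le_of_sq_le_sq' h2 (by norm_num) |> abs_le.2

/-- A cocycle vanishes on `± 1`. -/
lemma Coc.pm {Γ : Subgroup SL(2, ℝ)} (h1 : -1 ∈ Γ) {u : SL(2, ℝ) → V} (hu : Coc Γ u)
    {g h : SL(2, ℝ)} (hg : g ∈ Γ) (e : PM g h) : u h = u g := by
  rcases e with rfl | rfl
  · rfl
  · have o : u 1 = 0 := by
      have := hu 1 Γ.one_mem 1 Γ.one_mem
      rw [mul_one, one_smul] at this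
      simpa using this
    have n1 : u (-1) = 0 := by
      have := hu (-1) h1 (-1) h1
      rw [neg_mul_neg, mul_one, o, neg_ad, one_smul, ← two_smul ℝ] at this
      exact (smul_eq_zero.1 this.symm).resolve_left two_ne_zero
    have := hu g hg (-1) h1
    rw [mul_neg_one, n1, smul_zero, add_zero] at this
    exact this

lemma Coc.one {Γ : Subgroup SL(2, ℝ)} {u : SL(2, ℝ) → V} (hu : Coc Γ u) : u 1 = 0 := by
  have := hu 1 Γ.one_mem 1 Γ.one_mem
  rw [mul_one, one_smul] at this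
  simpa using this

lemma Coc.inv {Γ : Subgroup SL(2, ℝ)} {u : SL(2, ℝ) → V} (hu : Coc Γ u) {g : SL(2, ℝ)}
    (hg : g ∈ Γ) : u g⁻¹ = -(g⁻¹ • u g) := by
  have := hu g⁻¹ (Γ.inv_mem hg) g hg
  rw [inv_mul_cancel, hu.one] at this
  exact eq_neg_of_add_eq_zero_left this.symm

lemma Eqw.refl (Γ : Subgroup SL(2, ℝ)) (n : V) : Eqw Γ n n := ⟨1, Γ.one_mem, Or.inl (one_smul _ _).symm⟩

lemma Eqw.symm {Γ : Subgroup SL(2, ℝ)} {m n : V} (h : Eqw Γ m n) : Eqw Γ n m := by
  obtain ⟨g, hg, e | e⟩ := h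
  · exact ⟨g⁻¹, Γ.inv_mem hg, Or.inl (by rw [e, inv_smul_smul])⟩
  · exact ⟨g⁻¹, Γ.inv_mem hg, Or.inr (by rw [e, smul_neg, inv_smul_smul, neg_neg])⟩

lemma Eqw.trans {Γ : Subgroup SL(2, ℝ)} {k m n : V} (h : Eqw Γ k m) (h' : Eqw Γ m n) :
    Eqw Γ k n := by
  obtain ⟨g, hg, e | e⟩ := h <;> obtain ⟨g', hg', e' | e'⟩ := h'
  · exact ⟨g' * g, Γ.mul_mem hg' hg, Or.inl (by rw [e', e, mul_smul])⟩
  · exact ⟨g' * g, Γ.mul_mem hg' hg, Or.inr (by rw [e', e, mul_smul])⟩
  · exact ⟨g' * g, Γ.mul_mem hg' hg, Or.inr (by rw [e', e, mul_smul, smul_neg])⟩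
  · exact ⟨g' * g, Γ.mul_mem hg' hg, Or.inl (by rw [e', e, mul_smul, smul_neg, neg_neg])⟩


end

end Pool.Agent.P.MP_d39174_gt
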