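import Pool.Agent.P.MP_d39174_gt.VA

/-! One-parameter groups of translations along walls. -/

namespace Pool.Agent.P.MP_d39174_gt

open UpperHalfPlane MatrixGroups

noncomputable section

private lemma sl_ext {g h : SL(2, ℝ)} (h0 : g 0 0 = h 0 0) (h1 : g 0 1 = h 0 1)
    (h2 : g 1 0 = h 1 0) (h3 : g 1 1 = h 1 1) : g = h := by
  ext i j
  fin_cases i <;> fin_cases j
  exacts [h0, h1, h2, h3]

private lemma ex_of_not {n : V} (h : ¬ B n n = 1) (t : ℝ) : ex t n = 1 := by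
  unfold ex
  rw [dif_neg h]

lemma ex_apply {n : V} (h : B n n = 1) (t : ℝ) :
    ex t n 0 0 = Real.cosh t + Real.sinh t * n.a ∧ ex t n 0 1 = Real.sinh t * n.b ∧
      ex t n 1 0 = Real.sinh t * n.c ∧ ex t n 1 1 = Real.cosh t - Real.sinh t * n.a := by
  unfold ex
  rw [dif_pos h]
  exact ⟨rfl, rfl, rfl, rfl⟩
lemma ex_val {n : V} (h : B n n = 1) (t : ℝ) :
    (ex t n).1 = Real.cosh t • (1 : Matrix (Fin 2) (Fin 2) ℝ) + Real.sinh t • n.mat := by
  obtain ⟨h0, h1, h2, h3⟩ := ex_apply h t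
  ext i j
  fin_cases i <;> fin_cases j
  · simpa [V.mat] using h0
  · simpa [V.mat] using h1
  · simpa [V.mat] using h2
  · simpa [V.mat, sub_eq_add_neg] using h3
lemma ex_zero (n : V) : ex 0 n = 1 := by
  by_cases h : B n n = 1
  · obtain ⟨h0, h1, h2, h3⟩ := ex_apply h 0
    apply sl_ext
    · simpa using h0
    · simpa using h1
    · simpa using h2
    · simpa using h3
  · exact ex_of_not h 0
lemma ex_add (s t : ℝ) (n : V) : ex (s + t) n = ex s n * ex t n := by
  by_cases h : B n n = 1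
  · obtain ⟨a0, a1, a2, a3⟩ := ex_apply h s
    obtain ⟨b0, b1, b2, b3⟩ := ex_apply h t
    obtain ⟨c0, c1, c2, c3⟩ := ex_apply h (s + t)
    unfold B at h
    apply sl_ext <;>
      simp only [mul_apply', a0, a1, a2, a3, b0, b1, b2, b3, c0, c1, c2, c3, Real.cosh_add,
        Real.sinh_add]
    · linear_combination (-(Real.sinh s * Real.sinh t)) * h
    · ring
    · ring
    · linear_combination (-(Real.sinh s * Real.sinh t)) * h
  · rw [ex_of_not h, ex_of_not h, ex_of_not h, mul_one]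
lemma ex_neg (t : ℝ) (n : V) : ex (-t) n = (ex t n)⁻¹ := by
  rw [eq_inv_iff_mul_eq_one, ← ex_add, neg_add_cancel, ex_zero]
lemma ex_neg_right (t : ℝ) (n : V) : ex t (-n) = ex (-t) n := by
  by_cases h : B n n = 1
  · have h' : B (-n) (-n) = 1 := by simpa using h
    obtain ⟨a0, a1, a2, a3⟩ := ex_apply h' t
    obtain ⟨b0, b1, b2, b3⟩ := ex_apply h (-t)
    apply sl_ext <;>
      simp only [a0, a1, a2, a3, b0, b1, b2, b3, Real.cosh_neg, Real.sinh_neg, V.neg_a, V.neg_b,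
        V.neg_c] <;> ring
  · have h' : ¬ B (-n) (-n) = 1 := by simpa using h
    rw [ex_of_not h, ex_of_not h']
lemma ex_zpow (t : ℝ) (n : V) (m : ℤ) : ex t n ^ m = ex (m * t) n := by
  induction m using Int.induction_on with
  | zero => simp [ex_zero]
  | succ k ih =>
    rw [zpow_add_one, ih, ← ex_add]
    congr 1
    push_cast
    ring
  | pred k ih =>
    rw [zpow_sub_one, ih, ← ex_neg, ← ex_add]
    congr 1
    push_cast
    ring
lemma ex_pow (t : ℝ) (n : V) (m : ℕ) : ex t n ^ m = ex (m * t) n := by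
  rw [← zpow_natCast, ex_zpow, Int.cast_natCast]
lemma ex_conj (g : SL(2, ℝ)) (t : ℝ) (n : V) : g * ex t n * g⁻¹ = ex t (g • n) := by
  by_cases h : B n n = 1
  · have h' : B (g • n) (g • n) = 1 := by rw [B_ad, h]
    obtain ⟨a0, a1, a2, a3⟩ := ex_apply h t
    obtain ⟨b0, b1, b2, b3⟩ := ex_apply h' t
    obtain ⟨c0, c1, c2, c3⟩ := inv_apply' g
    have hd := det_eq g
    apply sl_ext <;>
      simp only [mul_apply', a0, a1, a2, a3, b0, b1, b2, b3, c0, c1, c2, c3, ad_a, ad_b, ad_c]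
    · linear_combination Real.cosh t * hd
    · ring
    · ring
    · linear_combination Real.cosh t * hd
  · have h' : ¬ B (g • n) (g • n) = 1 := by rwa [B_ad]
    rw [ex_of_not h, ex_of_not h', mul_one, mul_inv_cancel]
lemma tr_ex {n : V} (h : B n n = 1) (t : ℝ) : tr (ex t n) = 2 * Real.cosh t := by
  obtain ⟨a0, -, -, a3⟩ := ex_apply h t
  rw [tr, a0, a3]
  ring
lemma ex_ad_self (t : ℝ) (n : V) : ex t n • n = n := by
  by_cases h : B n n = 1
  · obtain ⟨a0, a1, a2, a3⟩ := ex_apply h t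
    have hc := Real.cosh_sq t
    unfold B at h
    ext <;> simp only [ad_a, ad_b, ad_c, a0, a1, a2, a3]
    · linear_combination n.a * hc - Real.sinh t ^ 2 * n.a * h
    · linear_combination n.b * hc - Real.sinh t ^ 2 * n.b * h
    · linear_combination n.c * hc - Real.sinh t ^ 2 * n.c * h
  · rw [ex_of_not h, one_smul]
lemma B_ex_ad (t : ℝ) (n x : V) : B (ex t n • x) n = B x n :=
  calc B (ex t n • x) n = B (ex t n • x) (ex t n • n) := by rw [ex_ad_self]
    _ = B x n := B_ad _ _ _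
lemma ex_ad_perp {n x : V} (h : B n n = 1) (hx : B n x = 0) (t : ℝ) :
    ex t n • x = Real.cosh (2 * t) • x + Real.sinh (2 * t) • cr n x := by
  obtain ⟨a0, a1, a2, a3⟩ := ex_apply h t
  unfold B at h hx
  ext <;> simp only [ad_a, ad_b, ad_c, a0, a1, a2, a3, V.add_a, V.add_b, V.add_c, V.smul_a,
    V.smul_b, V.smul_c, cr, Real.cosh_two_mul, Real.sinh_two_mul]
  · linear_combination Real.sinh t ^ 2 * x.a * h - 2 * Real.sinh t ^ 2 * n.a * hx
  · linear_combination Real.sinh t ^ 2 * x.b * h - 2 * Real.sinh t ^ 2 * n.b * hx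
  · linear_combination Real.sinh t ^ 2 * x.c * h - 2 * Real.sinh t ^ 2 * n.c * hx
private lemma ex_ne_neg {n m : V} (hn : B n n = 1) (hm : B m m = 1) (s t : ℝ) :
    ex t m ≠ -ex s n := by
  intro h
  have h1 := congrArg tr h
  rw [tr_neg, tr_ex hn, tr_ex hm] at h1
  linarith [Real.cosh_pos s, Real.cosh_pos t]

lemma ex_inj {n m : V} (hn : B n n = 1) (hm : B m m = 1) {t : ℝ} (ht : t ≠ 0)
    (h : PM (ex t n) (ex t m)) : n = m := by
  rcases h with h | h
  · obtain ⟨a0, a1, a2, -⟩ := ex_apply hn t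
    obtain ⟨b0, b1, b2, -⟩ := ex_apply hm t
    have hs : Real.sinh t ≠ 0 := Real.sinh_ne_zero.2 ht
    rw [h] at b0 b1 b2
    ext
    · exact mul_left_cancel₀ hs (by linarith)
    · exact mul_left_cancel₀ hs (by linarith)
    · exact mul_left_cancel₀ hs (by linarith)
  · exact absurd h (ex_ne_neg hn hm t t)
lemma ex_pm_inj {n : V} (hn : B n n = 1) {s t : ℝ} (h : PM (ex s n) (ex t n)) : s = t := by
  rcases h with h | h
  · obtain ⟨a0, a1, a2, a3⟩ := ex_apply hn s
    obtain ⟨b0, b1, b2, b3⟩ := ex_apply hn t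
    rw [h] at b0 b1 b2 b3
    unfold B at hn
    apply Real.sinh_injective
    linear_combination (-(Real.sinh s - Real.sinh t)) * hn
      + n.a / 2 * ((b0 - a0) - (b3 - a3)) + n.c / 2 * (b1 - a1) + n.b / 2 * (b2 - a2)
  · exact absurd h (ex_ne_neg hn hn s t)
lemma ex_ne_one {n : V} (hn : B n n = 1) {t : ℝ} (ht : t ≠ 0) : ex t n ≠ 1 ∧ ex t n ≠ -1 := by
  constructor
  · intro h
    exact ht (ex_pm_inj hn (s := 0) (Or.inl (by rw [h, ex_zero]))).symm
  · intro h
    exact ht (ex_pm_inj hn (s := 0) (Or.inr (by rw [h, ex_zero]))).symm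
private lemma one_lt_cosh_two {t : ℝ} (ht : t ≠ 0) : 1 < Real.cosh (2 * t) :=
  Real.one_lt_cosh.2 (mul_ne_zero two_ne_zero ht)

private lemma cr_cr_perp {n v : V} (hn : B n n = 1) (hv : B n v = 0) : cr n (cr n v) = v := by
  rw [cr_cr, hn, hv, one_smul, zero_smul, sub_zero]

private lemma eq_zero_of_fix {n v : V} (hn : B n n = 1) (hv : B n v = 0) {t : ℝ} (ht : t ≠ 0)
    (h : ex t n • v = v) : v = 0 := by
  rw [ex_ad_perp hn hv] at h
  have h1 := congrArg (cr n) h
  rw [cr_add_right, cr_smul_right, cr_smul_right, cr_cr_perp hn hv] at h1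
  have hc := Real.cosh_sq (2 * t)
  have hp : 2 * (Real.cosh (2 * t) - 1) ≠ 0 := by linarith [one_lt_cosh_two ht]
  have ha := congrArg V.a h
  have hb := congrArg V.b h
  have hcc := congrArg V.c h
  have ha1 := congrArg V.a h1
  have hb1 := congrArg V.b h1
  have hc1 := congrArg V.c h1
  simp only [V.add_a, V.add_b, V.add_c, V.smul_a, V.smul_b, V.smul_c] at ha hb hcc ha1 hb1 hc1
  ext
  · refine mul_left_cancel₀ hp ?_
    rw [V.zero_a]
    linear_combination Real.sinh (2 * t) * ha1 - (Real.cosh (2 * t) - 1) * ha + v.a * hc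
  · refine mul_left_cancel₀ hp ?_
    rw [V.zero_b]
    linear_combination Real.sinh (2 * t) * hb1 - (Real.cosh (2 * t) - 1) * hb + v.b * hc
  · refine mul_left_cancel₀ hp ?_
    rw [V.zero_c]
    linear_combination Real.sinh (2 * t) * hc1 - (Real.cosh (2 * t) - 1) * hcc + v.c * hc

/-- A nontrivial translation fixes only its own wall among unit vectors. -/
lemma eq_of_ex_fix {n m : V} (hn : B n n = 1) (hm : B m m = 1) {t : ℝ} (ht : t ≠ 0)
    (h : ex t n • m = m) : m = n ∨ m = -n := by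
  have hv : B n (m - B n m • n) = 0 := by simp [hn]
  have h0 : m - B n m • n = 0 := by
    refine eq_zero_of_fix hn hv ht ?_
    rw [smul_sub, ad_real, h, ex_ad_self]
  have h1 : m = B n m • n := sub_eq_zero.1 h0
  have h2 : B n m * B n m = 1 := by
    have h3 : B m m = B (B n m • n) (B n m • n) := by rw [← h1]
    rw [B_smul_left, B_smul_right, hn, hm, mul_one] at h3
    exact h3.symm
  rcases mul_self_eq_one_iff.1 h2 with h3 | h3
  · left
    rw [h1, h3, one_smul]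
  · right
    rw [h1, h3, neg_one_smul]
private lemma exists_ex_pos {g : SL(2, ℝ)} (h : 2 < tr g) :
    ∃ n t, B n n = 1 ∧ 0 < t ∧ ex t n = g := by
  have h1 : 1 < tr g / 2 := by linarith
  have ht := Real.arcosh_pos h1
  have hc := Real.cosh_arcosh h1.le
  generalize Real.arcosh (tr g / 2) = t at ht hc
  have hs : Real.sinh t ≠ 0 := Real.sinh_ne_zero.2 ht.ne'
  have hq := Real.cosh_sq t
  have hd := det_eq g
  unfold tr at hc
  have hn : B ((Real.sinh t)⁻¹ • V.ofMat g.1) ((Real.sinh t)⁻¹ • V.ofMat g.1) = 1 := by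
    have h2 : B (V.ofMat g.1) (V.ofMat g.1) = Real.sinh t * Real.sinh t := by
      change (g 0 0 - g 1 1) / 2 * ((g 0 0 - g 1 1) / 2) + (g 0 1 * g 1 0 + g 1 0 * g 0 1) / 2 = _
      rw [hc] at hq
      linear_combination hq - hd
    rw [B_smul_left, B_smul_right, h2]
    field_simp
  refine ⟨_, t, hn, ht, ?_⟩
  obtain ⟨a0, a1, a2, a3⟩ := ex_apply hn t
  have e0 : (V.ofMat g.1).a = (g 0 0 - g 1 1) / 2 := rfl
  have e1 : (V.ofMat g.1).b = g 0 1 := rfl
  have e2 : (V.ofMat g.1).c = g 1 0 := rfl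
  apply sl_ext
  · rw [a0, V.smul_a, mul_inv_cancel_left₀ hs, e0, hc]
    ring
  · rw [a1, V.smul_b, mul_inv_cancel_left₀ hs, e1]
  · rw [a2, V.smul_c, mul_inv_cancel_left₀ hs, e2]
  · rw [a3, V.smul_a, mul_inv_cancel_left₀ hs, e0, hc]
    ring

lemma exists_ex {g : SL(2, ℝ)} (h : 2 < |tr g|) :
    ∃ n t, B n n = 1 ∧ 0 < t ∧ PM (ex t n) g := by
  rcases lt_abs.1 h with h1 | h1
  · obtain ⟨n, t, hn, ht, e⟩ := exists_ex_pos h1
    exact ⟨n, t, hn, ht, Or.inl e.symm⟩
  · rw [← tr_neg] at h1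
    obtain ⟨n, t, hn, ht, e⟩ := exists_ex_pos h1
    exact ⟨n, t, hn, ht, Or.inr (by rw [e, neg_neg])⟩
private lemma stab_ex_pos {g : SL(2, ℝ)} {n : V} (hn : B n n = 1) (h : g • n = n)
    (hp : 0 ≤ tr g) : ∃ t, ex t n = g := by
  have hd := det_eq g
  have ha := congrArg V.a h
  have hb := congrArg V.b h
  have hc := congrArg V.c h
  rw [ad_a] at ha
  rw [ad_b] at hb
  rw [ad_c] at hc
  have h0 : cr n (V.ofMat g.1) = 0 := by
    ext
    · change (n.b * g 1 0 - n.c * g 0 1) / 2 = 0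
      linear_combination (-(g 0 0) / 2) * ha - g 1 0 / 2 * hb
        + (g 0 0 * n.a + g 0 1 * n.c) / 2 * hd
    · change n.a * g 0 1 - n.b * ((g 0 0 - g 1 1) / 2) = 0
      linear_combination (-(g 0 1) / 2) * ha - g 1 1 / 2 * hb
        + (g 0 0 * n.b - g 0 1 * n.a) / 2 * hd
    · change n.c * ((g 0 0 - g 1 1) / 2) - n.a * g 1 0 = 0
      linear_combination (-(g 0 0) / 2) * hc + g 1 0 / 2 * ha
        + (g 1 0 * n.a + g 1 1 * n.c) / 2 * hd
  have h1 := cr_cr n n (V.ofMat g.1)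
  rw [h0, hn, one_smul] at h1
  have h2 : cr n 0 = 0 := by
    rw [← zero_smul ℝ (0 : V), cr_smul_right, zero_smul, zero_smul]
  rw [h2] at h1
  have h3 := (sub_eq_zero.1 h1.symm)
  generalize B n (V.ofMat g.1) = β at h3
  have e0 : (g 0 0 - g 1 1) / 2 = β * n.a := congrArg V.a h3
  have e1 : g 0 1 = β * n.b := congrArg V.b h3
  have e2 : g 1 0 = β * n.c := congrArg V.c h3
  have hs := Real.sinh_arsinh β
  have hq : Real.cosh (Real.arsinh β) = tr g / 2 := by
    have h4 := Real.cosh_sq (Real.arsinh β)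
    rw [hs] at h4
    refine (sq_eq_sq₀ (Real.cosh_pos _).le (by linarith)).1 ?_
    unfold B at hn
    rw [h4, tr]
    rw [e1, e2] at hd
    linear_combination (-1 : ℝ) * hd - β ^ 2 * hn - ((g 0 0 - g 1 1) / 2 + β * n.a) * e0
  obtain ⟨a0, a1, a2, a3⟩ := ex_apply hn (Real.arsinh β)
  rw [hs] at a0 a1 a2 a3
  rw [hq, tr] at a0 a3
  refine ⟨Real.arsinh β, sl_ext ?_ ?_ ?_ ?_⟩ <;> linarith

lemma stab_ex {g : SL(2, ℝ)} {n : V} (hn : B n n = 1) (h : g • n = n) :
    ∃ t, PM (ex t n) g := by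
  rcases le_total 0 (tr g) with h1 | h1
  · obtain ⟨t, e⟩ := stab_ex_pos hn h h1
    exact ⟨t, Or.inl e.symm⟩
  · obtain ⟨t, e⟩ := stab_ex_pos (g := -g) hn (by rw [neg_ad, h]) (by rw [tr_neg]; linarith)
    exact ⟨t, Or.inr (by rw [e, neg_neg])⟩
lemma trace_mat_mul_ex {n : V} (hn : B n n = 1) (t : ℝ) (x : V) :
    (x.mat * (ex t n).1).trace = 2 * Real.sinh t * B x n := by
  rw [ex_val hn, Matrix.mul_add, Matrix.mul_smul, Matrix.mul_smul, Matrix.mul_one,
    Matrix.trace_add, Matrix.trace_smul, Matrix.trace_smul, mat_trace, B_eq_trace]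
  simp only [smul_eq_mul]
  ring
lemma exists_ad_sub {n v : V} (hn : B n n = 1) {t : ℝ} (ht : t ≠ 0) (hv : B v n = 0) :
    ∃ k : V, ex t n • k - k = v := by
  rw [B_comm] at hv
  have hw : B n (cr n v) = 0 := B_cr_left n v
  have hp : Real.cosh (2 * t) - 1 ≠ 0 := by linarith [one_lt_cosh_two ht]
  have hc := Real.cosh_sq (2 * t)
  obtain ⟨y, hy⟩ : ∃ y, 2 * (Real.cosh (2 * t) - 1) * y = Real.sinh (2 * t) :=
    ⟨Real.sinh (2 * t) / (2 * (Real.cosh (2 * t) - 1)), by field_simp⟩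
  have hz : 2 * Real.sinh (2 * t) * y = Real.cosh (2 * t) + 1 := by
    refine mul_left_cancel₀ hp ?_
    linear_combination Real.sinh (2 * t) * hy - hc
  refine ⟨(-1 / 2 : ℝ) • v + y • cr n v, ?_⟩
  rw [smul_add, ad_real, ad_real, ex_ad_perp hn hv, ex_ad_perp hn hw, cr_cr_perp hn hv]
  generalize cr n v = w
  ext <;> simp only [V.add_a, V.add_b, V.add_c, V.smul_a, V.smul_b, V.smul_c, V.sub_a, V.sub_b,
    V.sub_c]
  · linear_combination v.a / 2 * hz + w.a / 2 * hy
  · linear_combination v.b / 2 * hz + w.b / 2 * hy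
  · linear_combination v.c / 2 * hz + w.c / 2 * hy
private lemma tr_ex_mul {n m : V} (hn : B n n = 1) (hm : B m m = 1) (s t : ℝ) :
    tr (ex s n * ex t m) =
      2 * (Real.cosh s * Real.cosh t + Real.sinh s * Real.sinh t * B n m) := by
  obtain ⟨a0, a1, a2, a3⟩ := ex_apply hn s
  obtain ⟨b0, b1, b2, b3⟩ := ex_apply hm t
  simp only [tr, mul_apply', a0, a1, a2, a3, b0, b1, b2, b3, B]
  ring

private lemma B_ex_ad_self {a w : V} (ha : B a a = 1) (hw : B w w = 1) (l : ℝ) :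
    B (ex l a • w) w = 1 + 2 * Real.sinh l ^ 2 * (1 - B a w ^ 2) := by
  obtain ⟨v, hv⟩ : ∃ v, w = B a w • a + v := ⟨w - B a w • a, by abel⟩
  generalize hβ : B a w = β at hv
  have h1 : B a v = 0 := by
    rw [hv, B_add_right, B_smul_right, ha] at hβ
    linarith
  have h1' : B v a = 0 := by rw [B_comm, h1]
  have h2 : B v v = 1 - β ^ 2 := by
    rw [hv] at hw
    simp only [B_add_left, B_add_right, B_smul_left, B_smul_right, ha, h1, h1'] at hw
    linarith
  have h3 : B (cr a v) a = 0 := by rw [B_comm, B_cr_left]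
  have h4 : B (cr a v) v = 0 := by rw [B_comm, B_cr_right]
  rw [hv, smul_add, ad_real, ex_ad_self, ex_ad_perp ha h1]
  simp only [B_add_left, B_add_right, B_smul_left, B_smul_right, ha, h1, h1', h2, h3, h4,
    Real.cosh_two_mul, Real.cosh_sq]
  ring

lemma tr_comm {a w : V} (ha : B a a = 1) (hw : B w w = 1) (l : ℝ) :
    tr (ex l a * ex l w * (ex l a)⁻¹ * (ex l w)⁻¹) =
      2 - 4 * Real.sinh l ^ 4 * (1 - B a w ^ 2) := by
  have h1 : B (ex l a • w) (ex l a • w) = 1 := by rw [B_ad, hw]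
  rw [ex_conj, ← ex_neg, tr_ex_mul h1 hw, B_ex_ad_self ha hw, Real.cosh_neg, Real.sinh_neg]
  linear_combination 2 * Real.cosh_sq l
lemma exists_fr {n : V} (hn : B n n = 1) : ∃ g : SL(2, ℝ), g • w0 = n := by
  unfold B at hn
  by_cases h : 1 + n.a = 0
  · refine ⟨⟨!![n.b, -1 / 2; 2, n.c / 4], ?_⟩, ?_⟩
    · rw [Matrix.det_fin_two_of]
      linear_combination 1 / 4 * hn + (1 - n.a) / 4 * h
    · ext
      · change 1 * (n.b * (n.c / 4) + -1 / 2 * 2) - 0 * (n.b * 2) + 0 * (-1 / 2 * (n.c / 4)) = n.a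
        linear_combination 1 / 4 * hn + (1 - n.a) / 4 * h - h
      · change -2 * 1 * (n.b * (-1 / 2)) + 0 * n.b ^ 2 - 0 * (-1 / 2) ^ 2 = n.b
        ring
      · change 2 * 1 * (2 * (n.c / 4)) - 0 * 2 ^ 2 + 0 * (n.c / 4) ^ 2 = n.c
        ring
  · obtain ⟨y, hy⟩ : ∃ y, 2 * (1 + n.a) * y = -n.b := ⟨-n.b / (2 * (1 + n.a)), by field_simp⟩
    have hz : 2 * y * n.c = n.a - 1 := by
      refine mul_left_cancel₀ h ?_
      linear_combination n.c * hy - hn
    refine ⟨⟨!![1 + n.a, y; n.c, 1 / 2], ?_⟩, ?_⟩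
    · rw [Matrix.det_fin_two_of]
      linear_combination (-1 / 2 : ℝ) * hz
    · ext
      · change 1 * ((1 + n.a) * (1 / 2) + y * n.c) - 0 * ((1 + n.a) * n.c) + 0 * (y * (1 / 2)) = n.a
        linear_combination 1 / 2 * hz
      · change -2 * 1 * ((1 + n.a) * y) + 0 * (1 + n.a) ^ 2 - 0 * y ^ 2 = n.b
        linear_combination (-1 : ℝ) * hy
      · change 2 * 1 * (n.c * (1 / 2)) - 0 * n.c ^ 2 + 0 * (1 / 2) ^ 2 = n.c
        ring
lemma fr_w0 {n : V} (hn : B n n = 1) : fr n • w0 = n := by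
  have h := exists_fr hn
  unfold fr
  rw [dif_pos h]
  exact h.choose_spec

end

end Pool.Agent.P.MP_d39174_gt
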