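import Pool.Agent.P.MP_d39174_gt.VE

/-! Systolic walls, primitive periods, weights. -/

namespace Pool.Agent.P.MP_d39174_gt

open UpperHalfPlane MatrixGroups

noncomputable section

private lemma VE2_ad {Γ : Subgroup SL(2, ℝ)} {u : SL(2, ℝ) → V} (hu : Coc Γ u) {l : ℝ} {m : V}
    (hm : ex l m ∈ Γ) {g : SL(2, ℝ)} (hg : g ∈ Γ) :
    B (u (ex l (g • m))) (g • m) = B (u (ex l m)) m := by
  have hc : ex l (g • m) = g * ex l m * g⁻¹ := (ex_conj g l m).symm
  have h1 : u (ex l (g • m)) = u g + g • u (ex l m) - ex l (g • m) • u g := by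
    rw [hc, hu _ (Γ.mul_mem hg hm) _ (Γ.inv_mem hg), hu _ hg _ hm, hu.inv hg, smul_neg,
      ← mul_smul, sub_eq_add_neg]
  rw [h1, B_sub_left, B_add_left, B_ex_ad, B_ad]
  ring

private lemma VE2_neg {Γ : Subgroup SL(2, ℝ)} {u : SL(2, ℝ) → V} (hu : Coc Γ u) {l : ℝ} {m : V}
    (hm : ex l m ∈ Γ) : B (u (ex l (-m))) (-m) = B (u (ex l m)) m := by
  rw [ex_neg_right, ex_neg, hu.inv hm, B_neg_left, B_neg_right, neg_neg, ← ex_neg, B_ex_ad]

lemma SS.ad {Γ : Subgroup SL(2, ℝ)} {l : ℝ} {n : V} (hn : n ∈ SS Γ l) {g : SL(2, ℝ)}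
    (hg : g ∈ Γ) : g • n ∈ SS Γ l :=
  ⟨by rw [B_ad]; exact hn.1, by
    rw [← ex_conj]; exact Γ.mul_mem (Γ.mul_mem hg hn.2) (Γ.inv_mem hg)⟩

lemma SS.neg {Γ : Subgroup SL(2, ℝ)} {l : ℝ} {n : V} (hn : n ∈ SS Γ l) : -n ∈ SS Γ l :=
  ⟨by rw [B_neg_left, B_neg_right, neg_neg]; exact hn.1, by
    rw [ex_neg_right, ex_neg]; exact Γ.inv_mem hn.2⟩

/-- The derivative of the length of a systole along a cocycle depends only on the class. -/
lemma Coc.B_eqw {Γ : Subgroup SL(2, ℝ)} {u : SL(2, ℝ) → V} (hu : Coc Γ u) {l : ℝ} {m n : V}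
    (hm : m ∈ SS Γ l) (h : Eqw Γ m n) : B (u (ex l n)) n = B (u (ex l m)) m := by
  obtain ⟨g, hg, rfl | rfl⟩ := h
  · exact VE2_ad hu hm.2 hg
  · rw [VE2_neg hu (SS.ad hm hg).2, VE2_ad hu hm.2 hg]

lemma SS.eqw {Γ : Subgroup SL(2, ℝ)} {l : ℝ} {m n : V} (hm : m ∈ SS Γ l) (h : Eqw Γ m n) :
    n ∈ SS Γ l := by
  obtain ⟨g, hg, rfl | rfl⟩ := h
  · exact SS.ad hm hg
  · exact SS.neg (SS.ad hm hg)

lemma Prim.ad {Γ : Subgroup SL(2, ℝ)} {n : V} {t : ℝ} (h : Prim Γ n t) {g : SL(2, ℝ)}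
    (hg : g ∈ Γ) : Prim Γ (g • n) t where
  unit := by rw [B_ad]; exact h.unit
  pos := h.pos
  mem := by rw [← ex_conj]; exact Γ.mul_mem (Γ.mul_mem hg h.mem) (Γ.inv_mem hg)
  gen k hk e := by
    have e' : (g⁻¹ * k * g) • n = n := by
      rw [mul_smul, mul_smul, e, inv_smul_smul]
    obtain ⟨m, hm⟩ := h.gen _ (Γ.mul_mem (Γ.mul_mem (Γ.inv_mem hg) hk) hg) e'
    refine ⟨m, ?_⟩
    have := ((PM.refl g).mul hm).mul (PM.refl g⁻¹)
    rw [ex_conj] at this
    convert this using 1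
    group

lemma Prim.neg {Γ : Subgroup SL(2, ℝ)} {n : V} {t : ℝ} (h : Prim Γ n t) : Prim Γ (-n) t where
  unit := by rw [B_neg_left, B_neg_right, neg_neg]; exact h.unit
  pos := h.pos
  mem := by rw [ex_neg_right, ex_neg]; exact Γ.inv_mem h.mem
  gen k hk e := by
    have e' : k • n = n := by
      rw [smul_neg] at e
      exact neg_injective e
    obtain ⟨m, hm⟩ := h.gen k hk e'
    refine ⟨-m, ?_⟩
    rw [ex_neg_right]
    convert hm using 2
    push_cast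
    ring

lemma Prim.uniq {Γ : Subgroup SL(2, ℝ)} {n : V} {s t : ℝ} (h : Prim Γ n s) (h' : Prim Γ n t) :
    s = t := by
  obtain ⟨a, ha⟩ := h.gen _ h'.mem (ex_ad_self t n)
  obtain ⟨b, hb⟩ := h'.gen _ h.mem (ex_ad_self s n)
  have e1 := ex_pm_inj h.unit ha
  have e2 := ex_pm_inj h.unit hb
  have hs := h.pos
  have ht := h'.pos
  have ha1 : (1 : ℝ) ≤ a := by
    have : (0 : ℝ) < a := by
      by_contra hh
      push Not at hh
      nlinarith
    have : (0 : ℤ) < a := by exact_mod_cast this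
    exact_mod_cast this
  have hb1 : (1 : ℝ) ≤ b := by
    have : (0 : ℝ) < b := by
      by_contra hh
      push Not at hh
      nlinarith
    have : (0 : ℤ) < b := by exact_mod_cast this
    exact_mod_cast this
  apply le_antisymm <;> nlinarith

lemma Per.ad {Γ : Subgroup SL(2, ℝ)} {n : V} (h : Per Γ n) {g : SL(2, ℝ)} (hg : g ∈ Γ) :
    Per Γ (g • n) := by
  obtain ⟨h1, t, ht, hm⟩ := h
  have := SS.ad (l := t) ⟨h1, hm⟩ hg
  exact ⟨this.1, t, ht, this.2⟩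

lemma Per.neg {Γ : Subgroup SL(2, ℝ)} {n : V} (h : Per Γ n) : Per Γ (-n) := by
  obtain ⟨h1, t, ht, hm⟩ := h
  have := SS.neg (l := t) ⟨h1, hm⟩
  exact ⟨this.1, t, ht, this.2⟩

/-- Redistribution of the weights of a critical point over any finite family of systolic walls
that meets every class. -/
lemma CritV.redistribute {Γ : Subgroup SL(2, ℝ)} {l : ℝ} (h : CritV Γ l) {ι : Type*} [Fintype ι]
    (w : ι → V) (hw : ∀ i, w i ∈ SS Γ l) (hc : ∀ n ∈ SS Γ l, ∃ i, Eqw Γ (w i) n) :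
    ∃ c : ι → ℝ, (∀ i, 0 < c i) ∧
      ∀ u, Coc Γ u → ∑ i, c i * B (u (ex l (w i))) (w i) = 0 := by
  classical
  obtain ⟨T, hT, hU, c, hc0, hs⟩ := h
  choose m hm hmu using fun i => hU (w i) (hw i)
  have hsurj : ∀ n ∈ T, ∃ i, m i = n := by
    intro n hn
    obtain ⟨i, hi⟩ := hc n (hT n hn)
    exact ⟨i, (hmu i n ⟨hn, hi.symm⟩).symm⟩
  have hcard : ∀ n ∈ T, (0 : ℝ) < ((Finset.univ.filter fun j => m j = n).card : ℝ) := by
    intro n hn
    obtain ⟨i, hi⟩ := hsurj n hn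
    have : 0 < (Finset.univ.filter fun j => m j = n).card :=
      Finset.card_pos.2 ⟨i, by simp [hi]⟩
    exact_mod_cast this
  refine ⟨fun i => c (m i) / ((Finset.univ.filter fun j => m j = m i).card : ℝ),
    fun i => div_pos (hc0 _ (hm i).1) (hcard _ (hm i).1), fun u hu => ?_⟩
  rw [← hs u hu, ← Finset.sum_fiberwise_of_maps_to (s := Finset.univ) (t := T) (g := m)
    (fun i _ => (hm i).1)]
  refine Finset.sum_congr rfl fun n hn => ?_
  have : ∀ i ∈ Finset.univ.filter fun j => m j = n,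
      c (m i) / ((Finset.univ.filter fun j => m j = m i).card : ℝ) * B (u (ex l (w i))) (w i) =
        c n / ((Finset.univ.filter fun j => m j = n).card : ℝ) * B (u (ex l n)) n := by
    intro i hi
    have e : m i = n := (Finset.mem_filter.1 hi).2
    rw [hu.B_eqw (hT _ (hm i).1) (hm i).2, e]
  rw [Finset.sum_congr rfl this, Finset.sum_const, nsmul_eq_mul]
  have := (hcard n hn).ne'
  field_simp

end

end Pool.Agent.P.MP_d39174_gt
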