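import Pool.Agent.P.MP_d39174_gt.VE2

/-! The hyperboloid model. -/

namespace Pool.Agent.P.MP_d39174_gt

open UpperHalfPlane MatrixGroups

noncomputable section

lemma Hy_unit (z : ℍ) : B (Hy z) (Hy z) = -1 := by
  have := z.im_pos.ne'
  simp only [B, Hy]
  field_simp
  ring

lemma Hy_fut (z : ℍ) : Fut (Hy z) := by
  have := z.im_pos
  refine ⟨by rw [Hy_unit]; norm_num, ?_⟩
  simp only [Hy]
  positivity

lemma VH_re_im (g : SL(2, ℝ)) (z : ℍ) : ∃ D : ℝ, D ≠ 0 ∧
    D = (g 1 0 * z.re + g 1 1) ^ 2 + (g 1 0 * z.im) ^ 2 ∧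
    (g • z).re = ((g 0 0 * z.re + g 0 1) * (g 1 0 * z.re + g 1 1) + g 0 0 * g 1 0 * z.im ^ 2) / D ∧
    (g • z).im = z.im / D := by
  have hd := det_eq g
  have hy := z.im_pos
  have h0 : 0 < (g 1 0 * z.re + g 1 1) ^ 2 + (g 1 0 * z.im) ^ 2 := by
    by_cases h : g 1 0 = 0
    · have : g 1 1 ≠ 0 := fun h' => by simp [h, h'] at hd
      simp only [h, zero_mul, zero_add]
      positivity
    · positivity
  have e := coe_specialLinearGroup_apply g z
  have e1 := congrArg Complex.re e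
  have e2 := congrArg Complex.im e
  simp only [Algebra.algebraMap_self, RingHom.id_apply, Complex.div_re, Complex.div_im,
    Complex.normSq_apply, Complex.add_re, Complex.add_im, Complex.mul_re, Complex.mul_im,
    Complex.ofReal_re, Complex.ofReal_im, coe_re, coe_im, zero_mul, sub_zero, add_zero,
    ← sq, ← add_div, ← sub_div] at e1 e2
  refine ⟨_, h0.ne', rfl, e1.trans (congrArg (· / _) ?_), e2.trans (congrArg (· / _) ?_)⟩
  · ring
  · linear_combination z.im * hd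

lemma Hy_smul (g : SL(2, ℝ)) (z : ℍ) : Hy (g • z) = g • Hy z := by
  obtain ⟨D, h0, hD, h1, h2⟩ := VH_re_im g z
  have hd := det_eq g
  have hy := z.im_pos.ne'
  ext
  · simp only [ad_a, Hy, h1, h2]
    field_simp
    ring
  · simp only [ad_b, Hy, h1, h2]
    field_simp
    rw [hD]
    linear_combination (-z.im ^ 2 * (g 0 0 * g 1 1 - g 0 1 * g 1 0 + 1)) * hd
  · simp only [ad_c, Hy, h1, h2]
    field_simp
    rw [hD]
    ring

lemma Hy_I : Hy I = o0 := by
  ext <;> simp [Hy, o0]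

lemma cosh_dist_eq (z w : ℍ) : Real.cosh (dist z w) = -B (Hy z) (Hy w) := by
  have := z.im_pos.ne'
  have := w.im_pos.ne'
  rw [cosh_dist']
  simp only [B, Hy]
  field_simp
  ring

lemma VH_c_neg {p : V} (h : Fut p) : p.c < 0 := by
  have h1 := h.1
  by_contra h3
  unfold B at h1
  nlinarith [mul_self_nonneg p.a, mul_nonneg h.2.le (not_lt.1 h3)]

lemma Hy_pt {p : V} (h : Fut p) : Hy (pt p) = (1 / √(-B p p)) • p := by
  have hc := (VH_c_neg h).ne
  have h1 : 0 < -B p p := neg_pos.2 h.1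
  have h2 := Real.sq_sqrt h1.le
  have h3 := (Real.sqrt_pos.2 h1).ne'
  have e1 : (pt p).re = p.a / p.c := by rw [pt, dif_pos h]; rfl
  have e2 : (pt p).im = √(-B p p) / -p.c := by rw [pt, dif_pos h]; rfl
  ext
  · simp only [Hy, e1, e2, V.smul_a]
    field_simp
  · simp only [Hy, e1, e2, V.smul_b]
    generalize √(-B p p) = s at h2 h3 ⊢
    unfold B at h2
    field_simp
    linear_combination -h2
  · simp only [Hy, e1, e2, V.smul_c]
    field_simp

lemma Hy_pt_unit {p : V} (h : Fut p) (h1 : B p p = -1) : Hy (pt p) = p := by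
  rw [Hy_pt h, h1]
  simp

lemma Hy_inj {z w : ℍ} (h : Hy z = Hy w) : z = w := by
  have hz := z.im_pos.ne'
  have hw := w.im_pos.ne'
  have h1 : -1 / z.im = -1 / w.im := congrArg V.c h
  have h2 : -z.re / z.im = -w.re / w.im := congrArg V.a h
  have h3 : z.im = w.im := by
    field_simp at h1
    linarith
  rw [h3] at h2
  field_simp at h2
  exact ext_re_im (by linarith) h3

lemma pt_Hy (z : ℍ) : pt (Hy z) = z :=
  Hy_inj (Hy_pt_unit (Hy_fut z) (Hy_unit z))

lemma Fut.B_N {p : V} (h : Fut p) {x : W} (hx : x ≠ ⟨0, 0⟩) : B p (N x) < 0 := by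
  have h1 := h.1
  have h2 := h.2
  have e : p.b * (-2 * B p (N x)) = (p.b * x.q + p.a * x.p) ^ 2 + -B p p * x.p ^ 2 := by
    simp only [B, N]
    ring
  have h3 : 0 < (p.b * x.q + p.a * x.p) ^ 2 + -B p p * x.p ^ 2 := by
    have h4 : 0 < -B p p := neg_pos.2 h1
    by_cases hp : x.p = 0
    · have hq : x.q ≠ 0 := fun hq => hx (W.ext hp hq)
      rw [hp, mul_zero, add_zero]
      positivity
    · positivity
  have := (mul_pos_iff_of_pos_left h2).1 (e ▸ h3)
  linarith

lemma Fut.ad {p : V} (h : Fut p) (g : SL(2, ℝ)) : Fut (g • p) := by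
  refine ⟨by rw [B_ad]; exact h.1, ?_⟩
  have hd := det_eq g
  have h1 := h.B_N (x := ⟨-g 0 1, g 0 0⟩) fun e => by
    have e1 : -g 0 1 = 0 := congrArg W.p e
    have e2 : g 0 0 = 0 := congrArg W.q e
    rw [e2, neg_eq_zero.1 e1] at hd
    simp at hd
  simp only [B, N] at h1
  rw [ad_b]
  linarith

lemma pt_ad (g : SL(2, ℝ)) {p : V} (h : Fut p) : pt (g • p) = g • pt p :=
  Hy_inj (by
  rw [Hy_smul, Hy_pt h, Hy_pt (h.ad g), B_ad, ad_real])

lemma Fut.smul {p : V} (h : Fut p) {t : ℝ} (ht : 0 < t) : Fut (t • p) := by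
  refine ⟨?_, mul_pos ht h.2⟩
  rw [B_smul_left, B_smul_right]
  exact mul_neg_of_pos_of_neg ht (mul_neg_of_pos_of_neg ht h.1)

lemma VH_id (p q : V) : -2 * B p q * (p.b * q.b) =
    (q.a * p.b - p.a * q.b) ^ 2 + p.b ^ 2 * -B q q + q.b ^ 2 * -B p p := by
  unfold B
  ring

lemma VH_pos {p q : V} (h : Fut p) (hq : B q q < 0) : 0 < -2 * B p q * (p.b * q.b) := by
  have h1 := neg_pos.2 h.1
  have h2 := h.2
  have h3 := neg_pos.2 hq
  rw [VH_id]
  positivity

lemma Fut.B_neg {p q : V} (h : Fut p) (h' : Fut q) : B p q < 0 := by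
  have := (mul_pos_iff_of_pos_right (mul_pos h.2 h'.2)).1 (VH_pos h h'.1)
  linarith

lemma Fut.of_B {p q : V} (h : Fut p) (hq : B q q < 0) (hpq : B p q < 0) : Fut q :=
  ⟨hq, (mul_pos_iff_of_pos_left h.2).1
  ((mul_pos_iff_of_pos_left (by linarith)).1 (VH_pos h hq))⟩

lemma Fut.add {p q : V} (h : Fut p) (h' : Fut q) : Fut (p + q) := by
  refine ⟨?_, add_pos h.2 h'.2⟩
  simp only [B_add_left, B_add_right]
  linarith [h.1, h'.1, h.B_neg h', h'.B_neg h]

lemma Fut.comb {p q : V} (h : Fut p) (h' : Fut q) {s t : ℝ} (hs : 0 ≤ s) (ht : 0 ≤ t)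
    (hst : 0 < s + t) : Fut (s • p + t • q) := by
  rcases hs.eq_or_lt with rfl | hs'
  · rw [zero_smul, zero_add]
    exact h'.smul (by linarith)
  rcases ht.eq_or_lt with rfl | ht'
  · rw [zero_smul, add_zero]
    exact h.smul hs'
  exact (h.smul hs').add (h'.smul ht')

/-- The orthogonal complement of a timelike vector is positive definite. -/
lemma B_pos_of_perp {p v : V} (h : B p p < 0) (hv : B p v = 0) (h0 : v ≠ 0) : 0 < B v v := by
  have hc : p.c ≠ 0 := fun hc => by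
    unfold B at h
    rw [hc] at h
    nlinarith [mul_self_nonneg p.a]
  have e : p.c ^ 2 * B v v = (p.c * v.a - p.a * v.c) ^ 2 + -B p p * v.c ^ 2 := by
    unfold B at hv ⊢
    linear_combination (2 * p.c * v.c) * hv
  have h1 := neg_pos.2 h
  refine (mul_pos_iff_of_pos_left (by positivity : 0 < p.c ^ 2)).1 (e ▸ ?_)
  by_cases h2 : v.c = 0
  · have h3 : v.a ≠ 0 := fun h3 => h0 (by
      unfold B at hv
      rw [h2, h3] at hv
      refine V.ext h3 ((mul_eq_zero.1 (by linarith : p.c * v.b = 0)).resolve_left hc) h2)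
    rw [h2, mul_zero, sub_zero]
    positivity
  · positivity

lemma Fut.cs {p q : V} (h : Fut p) (h' : Fut q) : B p p * B q q ≤ B p q ^ 2 := by
  rw [← sub_nonneg, ← B_cr_cr]
  by_cases h0 : cr p q = 0
  · simp [h0]
  · exact (B_pos_of_perp h.1 (B_cr_left p q) h0).le

lemma Fut.or_neg {q : V} (hq : B q q < 0) : Fut q ∨ Fut (-q) := by
  rcases lt_trichotomy q.b 0 with h | h | h
  · exact Or.inr ⟨by simpa using hq, neg_pos.2 h⟩
  · unfold B at hq
    rw [h] at hq
    nlinarith [mul_self_nonneg q.a]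
  · exact Or.inl ⟨hq, h⟩

lemma Fut.foot {p n : V} (h : Fut p) (hn : B n n = 1) {s : ℝ} (h0 : 0 ≤ s) (h1 : s ≤ 1) :
    Fut (p - (s * B n p) • n) := by
  have h2 := mul_nonneg h0 (mul_self_nonneg (B n p))
  have h3 := mul_nonneg h2 (sub_nonneg.2 h1)
  refine h.of_B ?_ ?_ <;>
    simp only [B_sub_left, B_sub_right, B_smul_left, B_smul_right, hn, B_comm p n] <;>
    nlinarith [h.1]

lemma Fut.add_N {p : V} (h : Fut p) (x : W) {s : ℝ} (hs : 0 ≤ s) : Fut (p + s • N x) := by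
  have h1 : B p (N x) ≤ 0 := by
    by_cases hx : x = ⟨0, 0⟩
    · simp [hx, B, N]
    · exact (h.B_N hx).le
  have h2 : B (N x) (N x) = 0 := by
    simp only [B, N]
    ring
  refine ⟨?_, add_pos_of_pos_of_nonneg h.2 (mul_nonneg hs (sq_nonneg x.p))⟩
  simp only [B_add_left, B_add_right, B_smul_left, B_smul_right, h2, B_comm (N x) p]
  nlinarith [h.1, mul_nonneg hs (neg_nonneg.2 h1)]

/-- Every future null vector is a square. -/
lemma exists_N {p e : V} (h : Fut p) (he : B e e = 0) (hpe : B p e < 0) :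
    ∃ x : W, x ≠ ⟨0, 0⟩ ∧ e = N x := by
  have h1 : 0 ≤ -2 * B p e * (p.b * e.b) := by
    have := neg_pos.2 h.1
    rw [VH_id, he, neg_zero]
    positivity
  have h2 : 0 ≤ e.b := (mul_nonneg_iff_of_pos_left h.2).1
    ((mul_nonneg_iff_of_pos_left (by linarith)).1 h1)
  unfold B at he hpe
  rcases h2.eq_or_lt with h3 | h3
  · rw [← h3] at he hpe
    have h4 : e.a = 0 := mul_self_eq_zero.1 (by linarith)
    rw [h4] at hpe
    have h5 : 0 < -e.c := (mul_pos_iff_of_pos_left h.2).1 (by linarith)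
    refine ⟨⟨0, √(-e.c)⟩, fun hx => (Real.sqrt_pos.2 h5).ne' (congrArg W.q hx), ?_⟩
    ext <;> simp [N, h4, ← h3, Real.sq_sqrt h5.le]
  · have h4 := (Real.sqrt_pos.2 h3).ne'
    have h5 := Real.sq_sqrt h3.le
    refine ⟨⟨√e.b, -e.a / √e.b⟩, fun hx => h4 (congrArg W.p hx), ?_⟩
    ext
    · simp only [N]
      field_simp
    · exact h5.symm
    · simp only [N, div_pow, h5]
      field_simp
      linarith

lemma continuous_B_Hy (n : V) : Continuous fun z : ℍ => B n (Hy z) := by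
  have h1 : Continuous fun z : ℍ => (z.im)⁻¹ := continuous_im.inv₀ fun z => z.im_pos.ne'
  have h2 := continuous_re
  have h3 := continuous_im
  simp only [B, Hy, div_eq_mul_inv]
  fun_prop

lemma VH_foot {n : V} (hn : B n n = 1) (z : ℍ) : Fut (Hy z - B n (Hy z) • n) := by
  simpa using (Hy_fut z).foot hn zero_le_one le_rfl

lemma VH_B_foot {n : V} (hn : B n n = 1) (p q : V) :
    B (p - B n p • n) (q - B n q • n) = B p q - B n p * B n q := by
  simp only [B_sub_left, B_sub_right, B_smul_left, B_smul_right, hn, B_comm p n]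
  ring

/-- The signed distance to a wall is 1-Lipschitz. -/
lemma lip {n : V} (hn : B n n = 1) (z w : ℍ) :
    |Real.arsinh (B n (Hy z)) - Real.arsinh (B n (Hy w))| ≤ dist z w := by
  have h1 := (VH_foot hn z).cs (VH_foot hn w)
  have h2 := (VH_foot hn z).B_neg (VH_foot hn w)
  simp only [VH_B_foot hn, Hy_unit] at h1 h2
  rw [← abs_of_nonneg (dist_nonneg (x := z) (y := w)), ← Real.cosh_le_cosh, Real.cosh_sub,
    Real.cosh_arsinh, Real.cosh_arsinh, Real.sinh_arsinh, Real.sinh_arsinh, cosh_dist_eq,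
    ← Real.sqrt_mul (by positivity), sub_le_iff_le_add, Real.sqrt_le_left (by linarith)]
  linarith

lemma abs_B_le_sinh {n : V} (hn : B n n = 1) {z w : ℍ} (hw : B n (Hy w) = 0) {R : ℝ}
    (h : dist z w ≤ R) : |B n (Hy z)| ≤ Real.sinh R := by
  have h1 := lip hn z w
  rw [hw, Real.arsinh_zero, sub_zero] at h1
  rw [← Real.sinh_arsinh (B n (Hy z)), Real.abs_sinh, Real.sinh_le_sinh]
  exact h1.trans h

/-- The foot of the perpendicular. -/
lemma exists_foot {n : V} (hn : B n n = 1) (z : ℍ) :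
    ∃ w : ℍ, B n (Hy w) = 0 ∧ dist z w = Real.arsinh |B n (Hy z)| ∧
      Hy w = (1 / √(1 + B n (Hy z) ^ 2)) • (Hy z - B n (Hy z) • n) := by
  have h1 := Hy_pt (VH_foot hn z)
  rw [VH_B_foot hn, Hy_unit, show -(-1 - B n (Hy z) * B n (Hy z)) = 1 + B n (Hy z) ^ 2 by ring]
    at h1
  refine ⟨_, ?_, Real.cosh_injOn dist_nonneg (Real.arsinh_nonneg_iff.2 (abs_nonneg _)) ?_, h1⟩
  · simp [h1, hn]
  · have h2 : 0 < 1 + B n (Hy z) ^ 2 := by positivity
    have h3 := Real.sq_sqrt h2.le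
    have h4 := (Real.sqrt_pos.2 h2).ne'
    rw [cosh_dist_eq, h1, Real.cosh_arsinh, sq_abs, B_smul_right, B_sub_right, B_smul_right,
      Hy_unit, B_comm (Hy z) n]
    field_simp
    linarith

lemma cosh_disp {n : V} (hn : B n n = 1) (t : ℝ) (z : ℍ) :
    Real.cosh (dist z (ex t n • z)) = 1 + 2 * Real.sinh t ^ 2 * (1 + B n (Hy z) ^ 2) := by
  have h1 := VH_B_foot hn (Hy z) (Hy z)
  have h2 : B n (Hy z - B n (Hy z) • n) = 0 := by simp [hn]
  have h3 : Hy z = B n (Hy z) • n + (Hy z - B n (Hy z) • n) := by abel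
  rw [Hy_unit] at h1
  rw [cosh_dist_eq, Hy_smul]
  generalize Hy z - B n (Hy z) • n = f at h1 h2 h3
  generalize B n (Hy z) = β at h1 h3
  rw [h3, smul_add, ad_real, ex_ad_self, ex_ad_perp hn h2]
  simp only [B_add_left, B_add_right, B_smul_left, B_smul_right, hn, h1, h2, B_comm f n,
    B_cr_left, B_cr_right, Real.cosh_two_mul, Real.cosh_sq]
  ring

lemma dist_ex_of_wall {n : V} (hn : B n n = 1) (t : ℝ) {z : ℍ} (hz : B n (Hy z) = 0) :
    dist z (ex t n • z) = 2 * |t| := by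
  refine Real.cosh_injOn dist_nonneg (show 0 ≤ 2 * |t| by positivity) ?_
  rw [cosh_disp hn, hz, Real.cosh_two_mul, Real.cosh_sq, ← Real.abs_sinh, sq_abs]
  ring

lemma le_dist_ex {n : V} (hn : B n n = 1) (t : ℝ) (z : ℍ) : 2 * |t| ≤ dist z (ex t n • z) := by
  rw [← abs_of_nonneg (dist_nonneg (x := z)), ← abs_two, ← abs_mul, ← Real.cosh_le_cosh,
    cosh_disp hn, Real.cosh_two_mul, Real.cosh_sq]
  nlinarith [mul_nonneg (sq_nonneg (Real.sinh t)) (sq_nonneg (B n (Hy z)))]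

lemma len_ex {n : V} (hn : B n n = 1) (t : ℝ) : len (ex t n) = 2 * |t| := by
  obtain ⟨w, hw, -⟩ := exists_foot hn I
  refine le_antisymm ((ciInf_le ⟨0, ?_⟩ w).trans_eq (dist_ex_of_wall hn t hw))
    (le_ciInf (le_dist_ex hn t))
  rintro _ ⟨z, rfl⟩
  exact dist_nonneg

lemma len_pm {g h : SL(2, ℝ)} (e : PM g h) : len g = len h := by
  simp only [len, e.act]

end

end Pool.Agent.P.MP_d39174_gt
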