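import Pool.Agent.P.MP_d39174_gt.VH

/-! Segments, balls, pairs of walls, packing. -/

namespace Pool.Agent.P.MP_d39174_gt

open UpperHalfPlane MatrixGroups

noncomputable section

lemma VH2_pars {n p : V} (hn : B n n = 1) (hp : B p p = -1) (h : B n p = 0) (v : V) :
    B v v = B v n ^ 2 - B v p ^ 2 + B v (cr n p) ^ 2 := by
  have h1 := congrArg (B v) (expand_on hn hp h v)
  rw [B_add_right, B_sub_right, B_smul_right, B_smul_right, B_smul_right] at h1
  linarith

lemma VH2_cr_cr (x y u v : V) : B (cr x y) (cr u v) = B x v * B y u - B x u * B y v := by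
  simp only [B, cr]
  ring

lemma VH2_gram (x y v : V) : B v (cr x y) ^ 2 = B x x * B v y ^ 2 + B y y * B v x ^ 2 +
    B v v * B x y ^ 2 - B x x * B y y * B v v - 2 * B x y * B v x * B v y := by
  simp only [B, cr]
  ring

lemma VH2_param {n p q : V} (hn : B n n = 1) (hp : Fut p) (hp1 : B p p = -1) (hq : Fut q)
    (hq1 : B q q = -1) (h1 : B n p = 0) (h2 : B n q = 0) :
    ∃ s : ℝ, q = Real.cosh s • p + Real.sinh s • cr n p := by
  refine ⟨Real.arsinh (B q (cr n p)), ?_⟩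
  have h3 := VH2_pars hn hp1 h1 q
  have h4 := hq.B_neg hp
  have h5 : B q n = 0 := by rw [B_comm, h2]
  have h6 : √(1 + B q (cr n p) ^ 2) = -B q p := by
    rw [Real.sqrt_eq_iff_mul_self_eq (by positivity) (by linarith)]
    rw [hq1, h5] at h3
    linarith
  rw [Real.cosh_arsinh, Real.sinh_arsinh, h6]
  have h7 := expand_on hn hp1 h1 q
  rw [h5, zero_smul, zero_sub, ← _root_.neg_smul] at h7
  exact h7

lemma VH2_dist {n : V} {z x : ℍ} {s : ℝ}
    (h : Hy x = Real.cosh s • Hy z + Real.sinh s • cr n (Hy z)) : dist z x = |s| := by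
  have h1 : Real.cosh (dist z x) = Real.cosh |s| := by
    rw [cosh_dist_eq, h, B_add_right, B_smul_right, B_smul_right, Hy_unit, B_cr_right,
      Real.cosh_abs]
    ring
  exact Real.cosh_strictMonoOn.injOn dist_nonneg (abs_nonneg s) h1

lemma VH2_nat {K A C t : ℝ} (ht : 0 < t) (h : 0 < A + C) :
    ∃ j : ℕ, 0 < K + Real.cosh (2 * (j * t)) * A + Real.sinh (2 * (j * t)) * C := by
  obtain ⟨j, hj⟩ := exists_nat_gt ((|A - C| - K) / (t * (A + C)))
  rw [div_lt_iff₀ (by positivity)] at hj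
  refine ⟨j, ?_⟩
  rw [Real.cosh_eq, Real.sinh_eq]
  have h0 : 0 ≤ 2 * (j * t) := by positivity
  have h1 := Real.add_one_le_exp (2 * (j * t))
  have h2 : Real.exp (-(2 * (j * t))) ≤ 1 := Real.exp_le_one_iff.2 (by linarith)
  have h3 := Real.exp_pos (-(2 * (j * t)))
  have h4 := mul_le_mul_of_nonneg_right h1 h.le
  have h5 := mul_le_mul_of_nonneg_left (neg_abs_le (A - C)) h3.le
  have h6 := mul_le_mul_of_nonneg_right h2 (abs_nonneg (A - C))
  have h7 := abs_nonneg (A - C)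
  linarith

lemma VH2_int {K A C t : ℝ} (ht : 0 < t) (h : A ^ 2 < C ^ 2) :
    ∃ j : ℤ, 0 < K + Real.cosh (2 * (j * t)) * A + Real.sinh (2 * (j * t)) * C := by
  by_cases h1 : 0 < A + C
  · obtain ⟨j, hj⟩ := VH2_nat (K := K) ht h1
    exact ⟨j, by exact_mod_cast hj⟩
  · have h2 : 0 < A + -C := by
      by_contra h2
      nlinarith [mul_nonneg (neg_nonneg.2 (not_lt.1 h1)) (neg_nonneg.2 (not_lt.1 h2))]
    obtain ⟨j, hj⟩ := VH2_nat (K := K) ht h2
    refine ⟨-j, ?_⟩
    have h3 : 2 * (((-(j : ℤ) : ℤ) : ℝ) * t) = -(2 * (j * t)) := by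
      push_cast
      ring
    rw [h3, Real.cosh_neg, Real.sinh_neg]
    linarith

/-- Points of the segment from `z` to `w`. -/
lemma dist_add_of_comb {z w y : ℍ} {s t : ℝ} (hs : 0 ≤ s) (ht : 0 ≤ t)
    (h : Hy y = s • Hy z + t • Hy w) : dist z y + dist y w = dist z w := by
  have hc := cosh_dist_eq z w
  have h0 := Hy_unit y
  have h1 := cosh_dist_eq z y
  have h2 := cosh_dist_eq y w
  rw [h] at h0 h1 h2
  simp only [B_add_left, B_add_right, B_smul_left, B_smul_right, Hy_unit,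
    B_comm (Hy w) (Hy z)] at h0 h1 h2
  have hb : B (Hy z) (Hy w) = -Real.cosh (dist z w) := by linarith
  rw [hb] at h0 h1 h2
  have e0 := Real.cosh_sq (dist z w)
  have p0 : 0 ≤ Real.sinh (dist z w) := Real.sinh_nonneg_iff.2 dist_nonneg
  have e1 : Real.sinh (dist z y) = t * Real.sinh (dist z w) := by
    refine (pow_left_inj₀ (Real.sinh_nonneg_iff.2 dist_nonneg) (mul_nonneg ht p0) two_ne_zero).1 ?_
    rw [Real.sinh_sq, h1]
    linear_combination t ^ 2 * e0 - h0
  have e2 : Real.sinh (dist y w) = s * Real.sinh (dist z w) := by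
    refine (pow_left_inj₀ (Real.sinh_nonneg_iff.2 dist_nonneg) (mul_nonneg hs p0) two_ne_zero).1 ?_
    rw [Real.sinh_sq, h2]
    linear_combination s ^ 2 * e0 - h0
  refine Real.cosh_strictMonoOn.injOn (add_nonneg dist_nonneg dist_nonneg) dist_nonneg ?_
  rw [Real.cosh_add, e1, e2, h1, h2]
  linear_combination -(s * t) * e0 - Real.cosh (dist z w) * h0

/-- Strict triangle inequality at a crossing point. -/
lemma dist_lt_of_cross {a w : V} (ha : B a a = 1) (hw : B w w = 1) (h : |B a w| < 1)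
    {z x y : ℍ} (hza : B a (Hy z) = 0) (hzw : B w (Hy z) = 0) (hx : B a (Hy x) = 0)
    (hy : B w (Hy y) = 0) (hxz : x ≠ z) (hyz : y ≠ z) : dist x y < dist x z + dist z y := by
  obtain ⟨s, hs⟩ := VH2_param ha (Hy_fut z) (Hy_unit z) (Hy_fut x) (Hy_unit x) hza hx
  obtain ⟨t, ht⟩ := VH2_param hw (Hy_fut z) (Hy_unit z) (Hy_fut y) (Hy_unit y) hzw hy
  have h1 := VH2_dist hs
  have h2 := VH2_dist ht
  have h3 : 0 < Real.sinh |s| := Real.sinh_pos_iff.2 (h1 ▸ dist_pos.2 hxz.symm)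
  have h4 : 0 < Real.sinh |t| := Real.sinh_pos_iff.2 (h2 ▸ dist_pos.2 hyz.symm)
  have h5 : Real.cosh (dist x y) =
      Real.cosh s * Real.cosh t - Real.sinh s * Real.sinh t * B a w := by
    rw [cosh_dist_eq, hs, ht]
    simp only [B_add_left, B_add_right, B_smul_left, B_smul_right, Hy_unit, VH2_cr_cr, hza,
      B_cr_right, B_comm (cr a (Hy z)) (Hy z)]
    ring
  have h6 : Real.cosh (dist x y) < Real.cosh (|s| + |t|) := by
    rw [h5, Real.cosh_add, Real.cosh_abs, Real.cosh_abs]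
    have h7 := neg_abs_le (Real.sinh s * Real.sinh t * B a w)
    rw [abs_mul, abs_mul, Real.abs_sinh, Real.abs_sinh] at h7
    have h8 := mul_lt_mul_of_pos_left h (mul_pos h3 h4)
    linarith
  rw [Real.cosh_lt_cosh, abs_of_nonneg dist_nonneg, abs_of_nonneg (by positivity)] at h6
  rw [dist_comm x z, h1, h2]
  exact h6

lemma seg_zero {n : V} {z w : ℍ} (hz : B n (Hy z) ≤ 0) (hw : 0 ≤ B n (Hy w)) :
    ∃ (y : ℍ) (s t : ℝ), 0 ≤ s ∧ 0 ≤ t ∧ Hy y = s • Hy z + t • Hy w ∧ B n (Hy y) = 0 := by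
  rcases hz.eq_or_lt with h | h
  · exact ⟨z, 1, 0, zero_le_one, le_rfl, by rw [one_smul, zero_smul, add_zero], h⟩
  · have hf := (Hy_fut z).comb (Hy_fut w) hw (neg_pos.2 h).le (by linarith)
    have h1 := Hy_pt hf
    have h2 : 0 ≤ 1 / √(-B (B n (Hy w) • Hy z + -B n (Hy z) • Hy w)
      (B n (Hy w) • Hy z + -B n (Hy z) • Hy w)) := by positivity
    refine ⟨pt (B n (Hy w) • Hy z + -B n (Hy z) • Hy w), _, _, mul_nonneg h2 hw,
      mul_nonneg h2 (neg_pos.2 h).le, ?_, ?_⟩
    · rw [h1, smul_add, smul_smul, smul_smul]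
    · rw [h1, B_smul_right, B_add_right n, B_smul_right, B_smul_right]
      ring

/-- Balls are convex. -/
lemma dist_le_of_comb3 {c x y z v : ℍ} {R r s t : ℝ} (hr : 0 ≤ r) (hs : 0 ≤ s) (ht : 0 ≤ t)
    (hx : dist c x ≤ R) (hy : dist c y ≤ R) (hz : dist c z ≤ R)
    (h : Hy v = r • Hy x + s • Hy y + t • Hy z) : dist c v ≤ R := by
  have hR : 0 ≤ R := dist_nonneg.trans hx
  have hc : ∀ u : ℍ, dist c u ≤ R → -B (Hy c) (Hy u) ≤ Real.cosh R := fun u hu => by
    rw [← cosh_dist_eq, Real.cosh_le_cosh, abs_of_nonneg dist_nonneg, abs_of_nonneg hR]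
    exact hu
  have h1 : ∀ u u' : ℍ, 1 ≤ -B (Hy u) (Hy u') := fun u u' => by
    rw [← cosh_dist_eq]
    exact Real.one_le_cosh _
  have h0 := Hy_unit v
  rw [h] at h0
  simp only [B_add_left, B_add_right, B_smul_left, B_smul_right, Hy_unit, B_comm (Hy y) (Hy x),
    B_comm (Hy z) (Hy x), B_comm (Hy z) (Hy y)] at h0
  have h2 : (r + s + t) ^ 2 ≤ 1 ^ 2 := by
    have a1 := mul_le_mul_of_nonneg_left (h1 x y) (mul_nonneg hr hs)
    have a2 := mul_le_mul_of_nonneg_left (h1 x z) (mul_nonneg hr ht)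
    have a3 := mul_le_mul_of_nonneg_left (h1 y z) (mul_nonneg hs ht)
    linarith
  have h3 : r + s + t ≤ 1 := (abs_le_of_sq_le_sq' h2 zero_le_one).2
  have h4 : Real.cosh (dist c v) ≤ Real.cosh R := by
    rw [cosh_dist_eq, h, B_add_right, B_add_right, B_smul_right, B_smul_right, B_smul_right]
    have a1 := mul_le_mul_of_nonneg_left (hc x hx) hr
    have a2 := mul_le_mul_of_nonneg_left (hc y hy) hs
    have a3 := mul_le_mul_of_nonneg_left (hc z hz) ht
    have a4 := mul_le_mul_of_nonneg_right h3 (Real.cosh_pos R).le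
    linarith
  rwa [Real.cosh_le_cosh, abs_of_nonneg dist_nonneg, abs_of_nonneg hR] at h4

/-- A wall that misses a ball has constant sign on it. -/
lemma sign_const_ball {n : V} (hn : B n n = 1) {c z w : ℍ} {R : ℝ}
    (h : Real.sinh R < |B n (Hy c)|) (hz : dist c z ≤ R) (hw : dist c w ≤ R) :
    0 < B n (Hy z) * B n (Hy w) := by
  have h1 := abs_le.1 ((lip hn c z).trans hz)
  have h2 := abs_le.1 ((lip hn c w).trans hw)
  rcases lt_abs.1 h with h3 | h3
  · have h4 := Real.arsinh_lt_arsinh.2 h3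
    rw [Real.arsinh_sinh] at h4
    exact mul_pos (Real.arsinh_pos_iff.1 (by linarith)) (Real.arsinh_pos_iff.1 (by linarith))
  · have h4 := Real.arsinh_lt_arsinh.2 h3
    rw [Real.arsinh_sinh, Real.arsinh_neg] at h4
    exact mul_pos_of_neg_of_neg (Real.arsinh_neg_iff.1 (by linarith))
      (Real.arsinh_neg_iff.1 (by linarith))

lemma exists_on_wall {n : V} (hn : B n n = 1) : ∃ z : ℍ, B n (Hy z) = 0 := by
  obtain ⟨w, hw, -⟩ := exists_foot hn I
  exact ⟨w, hw⟩

lemma abs_B_le_cosh {n m : V} (hn : B n n = 1) (hm : B m m = 1) {z w : ℍ}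
    (hz : B n (Hy z) = 0) (hw : B m (Hy w) = 0) : |B n m| ≤ Real.cosh (dist z w) := by
  have h1 := VH2_pars hn (Hy_unit z) hz m
  have h2 := abs_B_le_sinh hm hw (le_refl (dist z w))
  have h3 := pow_le_pow_left₀ (abs_nonneg _) h2 2
  rw [sq_abs] at h3
  refine abs_le_of_sq_le_sq ?_ (Real.cosh_pos _).le
  rw [Real.cosh_sq, B_comm n m]
  nlinarith [sq_nonneg (B m (cr n (Hy z)))]

lemma exists_cross {n m : V} (hn : B n n = 1) (hm : B m m = 1) (h : |B n m| < 1) :
    ∃ z : ℍ, B n (Hy z) = 0 ∧ B m (Hy z) = 0 := by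
  have h1 : B (cr n m) (cr n m) < 0 := by
    rw [B_cr_cr, hn, hm]
    have := (sq_lt_one_iff_abs_lt_one _).2 h
    linarith
  rcases Fut.or_neg h1 with h2 | h2
  · refine ⟨pt (cr n m), ?_, ?_⟩
    · rw [Hy_pt h2, B_smul_right, B_cr_left, mul_zero]
    · rw [Hy_pt h2, B_smul_right, B_cr_right, mul_zero]
  · refine ⟨pt (-cr n m), ?_, ?_⟩
    · rw [Hy_pt h2, B_smul_right, B_neg_right n, B_cr_left, neg_zero, mul_zero]
    · rw [Hy_pt h2, B_smul_right, B_neg_right m, B_cr_right, neg_zero, mul_zero]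

lemma cross_of_common {n m p : V} (hn : B n n = 1) (hm : B m m = 1) (hp : B p p < 0)
    (h1 : B n p = 0) (h2 : B m p = 0) : |B n m| < 1 ∨ m = n ∨ m = -n := by
  by_cases e1 : m = n
  · exact Or.inr (Or.inl e1)
  by_cases e2 : m = -n
  · exact Or.inr (Or.inr e2)
  have h3 := B_pos_of_perp (v := m - n) hp
    (by rw [B_sub_right, B_comm p m, B_comm p n, h1, h2, sub_zero]) (sub_ne_zero.2 e1)
  have h4 := B_pos_of_perp (v := m + n) hp
    (by rw [B_add_right, B_comm p m, B_comm p n, h1, h2, add_zero])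
    (fun h => e2 (eq_neg_of_add_eq_zero_left h))
  simp only [B_add_left, B_add_right, B_sub_left, B_sub_right, hn, hm, B_comm m n] at h3 h4
  exact Or.inl (abs_lt.2 ⟨by linarith, by linarith⟩)

/-- Two distinct walls meet in at most one point. -/
lemma eq_of_two_common {n m : V} (hn : B n n = 1) (hm : B m m = 1) {z w : ℍ} (hzw : z ≠ w)
    (h1 : B n (Hy z) = 0) (h2 : B m (Hy z) = 0) (h3 : B n (Hy w) = 0) (h4 : B m (Hy w) = 0) :
    m = n ∨ m = -n := by
  have h5 : 0 < B (cr (Hy z) (Hy w)) (cr (Hy z) (Hy w)) := by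
    rw [B_cr_cr, Hy_unit, Hy_unit]
    have h6 := cosh_dist_eq z w
    have h7 := Real.one_lt_cosh.2 (dist_ne_zero.2 hzw)
    nlinarith
  have h6 : cr (Hy z) (Hy w) ≠ 0 := fun h => by
    rw [h, B_zero_left] at h5
    exact lt_irrefl _ h5
  obtain ⟨s, hs⟩ := exists_smul_cr h6 ((B_comm _ _).trans h1) ((B_comm _ _).trans h3)
  obtain ⟨t, ht⟩ := exists_smul_cr h6 ((B_comm _ _).trans h2) ((B_comm _ _).trans h4)
  rw [hs, B_smul_left, B_smul_right] at hn
  rw [ht, B_smul_left, B_smul_right] at hm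
  have h7 : t * t = s * s := mul_right_cancel₀ h5.ne' (by linarith)
  rcases mul_self_eq_mul_self_iff.1 h7 with h8 | h8
  · exact Or.inl (by rw [hs, ht, h8])
  · exact Or.inr (by rw [hs, ht, h8, _root_.neg_smul])

/-- A wall disjoint from `n` lies on one side of `n`. -/
lemma sign_const_wall {n m p q : V} (hn : B n n = 1) (hm : B m m = 1) (h : 1 ≤ |B n m|)
    (h1 : m ≠ n) (h2 : m ≠ -n) (hp : Fut p) (hq : Fut q) (hmp : B m p = 0) (hmq : B m q = 0) :
    0 < B n p * B n q := by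
  have key : ∀ r, Fut r → B m r = 0 → B n r ≠ 0 := fun r hr h3 h4 => by
    rcases cross_of_common hn hm hr.1 h4 h3 with h5 | h5 | h5
    · exact absurd h5 (not_lt.2 h)
    · exact h1 h5
    · exact h2 h5
  by_contra h3
  have h4 : 0 ≤ -(B n p * B n q) := neg_nonneg.2 (not_lt.1 h3)
  have h5 : 0 < B n q ^ 2 := sq_pos_of_ne_zero (key q hq hmq)
  refine key _ (hp.comb hq h5.le h4 (by linarith)) ?_ ?_
  · rw [B_add_right, B_smul_right, B_smul_right, hmp, hmq]
    ring
  · rw [B_add_right, B_smul_right, B_smul_right]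
    ring

/-- Opposite disjoint half-planes. -/
lemma pos_of_far {n m p q : V} (hn : B n n = 1) (hm : B m m = 1) (h : B n m < -1) (hp : Fut p)
    (hnp : 0 ≤ B n p) (hmp : 0 ≤ B m p) (hq : Fut q) (hmq : B m q ≤ 0) : 0 < B n q := by
  have h1 : B (n + m) (n + m) < 0 := by
    simp only [B_add_left, B_add_right, hn, hm, B_comm m n]
    linarith
  rcases Fut.or_neg h1 with h2 | h2
  · have h3 := h2.B_neg hp
    rw [B_add_left] at h3
    linarith
  · have h3 := h2.B_neg hq
    rw [B_neg_left, B_add_left] at h3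
    linarith

/-- Nested half-planes. -/
lemma nested_of_gt {n m : V} (hn : B n n = 1) (hm : B m m = 1) (h : 1 < B n m) :
    Fut (n - m) ∨ Fut (m - n) := by
  have h1 : B (n - m) (n - m) < 0 := by
    simp only [B_sub_left, B_sub_right, hn, hm, B_comm m n]
    linarith
  rw [← neg_sub n m]
  exact Fut.or_neg h1

lemma near_translate {n : V} (hn : B n n = 1) {t : ℝ} (ht : 0 < t) {z w : ℍ}
    (hz : B n (Hy z) = 0) (hw : B n (Hy w) = 0) :
    ∃ m : ℤ, dist z (ex (m * t) n • w) ≤ t := by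
  obtain ⟨s, hs⟩ := VH2_param hn (Hy_fut z) (Hy_unit z) (Hy_fut w) (Hy_unit w) hz hw
  refine ⟨round (-s / (2 * t)), ?_⟩
  have h1 := abs_sub_round (-s / (2 * t))
  generalize round (-s / (2 * t)) = m at h1 ⊢
  have h2 : Hy (ex (m * t) n • w) = Real.cosh (2 * (m * t) + s) • Hy z +
      Real.sinh (2 * (m * t) + s) • cr n (Hy z) := by
    rw [Hy_smul, ex_ad_perp hn hw, hs, cr_add_right, cr_smul_right, cr_smul_right, cr_cr, hn, hz,
      Real.cosh_add, Real.sinh_add]
    module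
  rw [VH2_dist h2]
  have h3 : 2 * (m * t) + s = -(2 * t) * (-s / (2 * t) - m) := by
    field_simp
    ring
  rw [h3, abs_mul, abs_neg, abs_of_pos (by positivity : 0 < 2 * t)]
  nlinarith

/-- Points of a wall in terms of a base point and the tangent vector. -/
lemma wall_param {n p q : V} (hn : B n n = 1) (hp : Fut p) (hp1 : B p p = -1) (hq : Fut q)
    (hq1 : B q q = -1) (h1 : B n p = 0) (h2 : B n q = 0) :
    ∃ s : ℝ, q = Real.cosh s • p + Real.sinh s • cr n p :=
  VH2_param hn hp hp1 hq hq1 h1 h2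

/-- The orbit of a point under a translation visits both sides of a wall crossing its axis. -/
lemma both_signs {n m p : V} (hn : B n n = 1) (hm : B m m = 1) (h : |B n m| < 1) {t : ℝ}
    (ht : 0 < t) (hp : Fut p) :
    (∃ j : ℤ, 0 < B n (ex (j * t) m • p)) ∧ ∃ j : ℤ, B n (ex (j * t) m • p) < 0 := by
  obtain ⟨q, hq⟩ : ∃ q, q = p - B m p • m := ⟨_, rfl⟩
  have h1 : B m q = 0 := by rw [hq, B_sub_right, B_smul_right, hm, mul_one, sub_self]
  have h2 : B q q < 0 := by
    have h3 := hp.1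
    have h4 := mul_self_nonneg (B m p)
    rw [hq]
    simp only [B_sub_left, B_sub_right, B_smul_left, B_smul_right, hm, B_comm p m]
    linarith
  have h3 : B n q ^ 2 < B n (cr m q) ^ 2 := by
    rw [VH2_gram, hm, hn, h1]
    have h4 := (sq_lt_one_iff_abs_lt_one _).2 h
    have h5 := mul_pos (neg_pos.2 h2) (sub_pos.2 h4)
    linarith
  have h4 : ∀ s, B n (ex s m • p) =
      B m p * B n m + Real.cosh (2 * s) * B n q + Real.sinh (2 * s) * B n (cr m q) := fun s => by
    have h5 : ex s m • p = ex s m • (B m p • m + q) := by rw [hq, add_sub_cancel]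
    rw [h5, smul_add, ad_real, ex_ad_self, ex_ad_perp hm h1, B_add_right, B_add_right,
      B_smul_right, B_smul_right, B_smul_right, add_assoc]
  simp only [h4]
  refine ⟨VH2_int ht h3, ?_⟩
  obtain ⟨j, hj⟩ := VH2_int (K := -(B m p * B n m)) (A := -B n q) (C := -B n (cr m q)) ht
    (by rwa [neg_sq, neg_sq])
  exact ⟨j, by linarith⟩

end

end Pool.Agent.P.MP_d39174_gt
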