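import Pool.Agent.P.MP_d39174_gt.VH2

/-! Packing and locally finite families of walls. -/

namespace Pool.Agent.P.MP_d39174_gt

open UpperHalfPlane MatrixGroups

noncomputable section

lemma VH3_abs (x : ℝ) : Real.arsinh |x| = |Real.arsinh x| := by
  rcases le_total 0 x with h | h
  · rw [abs_of_nonneg h, abs_of_nonneg (Real.arsinh_nonneg_iff.2 h)]
  · rw [abs_of_nonpos h, abs_of_nonpos (Real.arsinh_nonpos_iff.2 h), Real.arsinh_neg]

lemma VH3_lip {n : V} (hn : B n n = 1) (z w : ℍ) :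
    Real.arsinh |B n (Hy z)| ≤ Real.arsinh |B n (Hy w)| + dist z w := by
  rw [VH3_abs, VH3_abs]
  linarith [lip hn z w, abs_sub_abs_le_abs_sub (Real.arsinh (B n (Hy z)))
    (Real.arsinh (B n (Hy w)))]

/-- The nearest wall of a locally finite family. -/
lemma VH3_min {S : Set V} (hS : LF S) (uS : ∀ n ∈ S, B n n = 1) (nS : S.Nonempty) :
    ∃ m : ℍ → V, (∀ z, m z ∈ S ∧ ∀ n ∈ S, |B (m z) (Hy z)| ≤ |B n (Hy z)|) ∧
      (Continuous fun z => Real.arsinh |B (m z) (Hy z)|) ∧ ∃ z, |B (m z) (Hy z)| ≤ 0 := by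
  obtain ⟨n0, h0⟩ := nS
  have h : ∀ z, ∃ a ∈ S, ∀ n ∈ S, |B a (Hy z)| ≤ |B n (Hy z)| := fun z => by
    obtain ⟨a, ha, hm⟩ := Set.exists_min_image _ (fun n => |B n (Hy z)|) (hS z |B n0 (Hy z)|)
      ⟨n0, h0, le_rfl⟩
    refine ⟨a, ha.1, fun n hn => ?_⟩
    rcases le_total |B n (Hy z)| |B n0 (Hy z)| with h | h
    · exact hm n ⟨hn, h⟩
    · exact ha.2.trans h
  choose m h1 h2 using h
  refine ⟨m, fun z => ⟨h1 z, h2 z⟩, (LipschitzWith.of_le_add fun z w => ?_).continuous, ?_⟩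
  · exact (Real.arsinh_le_arsinh.2 (h2 z _ (h1 w))).trans (VH3_lip (uS _ (h1 w)) z w)
  · obtain ⟨z, hz⟩ := exists_on_wall (uS n0 h0)
    exact ⟨z, (h2 z n0 h0).trans (by rw [hz, abs_zero])⟩

/-- Uniform packing bound. -/
lemma pack (R c : ℝ) (hc : 0 < c) : ∃ M : ℕ, ∀ (z : ℍ) (s : Set ℍ), (∀ y ∈ s, dist z y ≤ R) →
    (∀ x ∈ s, ∀ y ∈ s, x ≠ y → c ≤ dist x y) → s.Finite ∧ s.ncard ≤ M := by
  obtain ⟨t, -, tf, ht⟩ := finite_cover_balls_of_compact (isCompact_closedBall (I : ℍ) R)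
    (half_pos hc)
  refine ⟨t.ncard, fun z s h1 h2 => ?_⟩
  obtain ⟨g, hg⟩ := MulAction.exists_smul_eq SL(2, ℝ) z I
  have h : ∀ y ∈ s, ∃ x ∈ t, dist (g • y) x < c / 2 := fun y hy => by
    have : g • y ∈ Metric.closedBall (I : ℍ) R := by
      rw [Metric.mem_closedBall, ← hg, dist_smul, dist_comm]
      exact h1 y hy
    simpa only [Set.mem_iUnion, Metric.mem_ball, exists_prop] using ht this
  choose! f f1 f2 using h
  have hi : Set.InjOn f s := fun x hx y hy e => by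
    by_contra hne
    have a1 := h2 x hx y hy hne
    have a2 := f2 x hx
    have a3 := f2 y hy
    have a4 := dist_triangle_right (g • x) (g • y) (f y)
    rw [e] at a2
    rw [dist_smul] at a4
    linarith
  exact ⟨Set.Finite.of_injOn f1 hi tf, Set.ncard_le_ncard_of_injOn f f1 hi tf⟩

/-- Two families of walls have an equidistant point. -/
lemma exists_equidistant {S T : Set V} (hS : LF S) (hT : LF T) (uS : ∀ n ∈ S, B n n = 1)
    (uT : ∀ n ∈ T, B n n = 1) (nS : S.Nonempty) (nT : T.Nonempty) :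
    ∃ (z : ℍ) (a b : V), a ∈ S ∧ b ∈ T ∧ |B a (Hy z)| = |B b (Hy z)| ∧
      ∀ n, n ∈ S ∨ n ∈ T → |B a (Hy z)| ≤ |B n (Hy z)| := by
  obtain ⟨a, a1, a2, x, a3⟩ := VH3_min hS uS nS
  obtain ⟨b, b1, b2, y, b3⟩ := VH3_min hT uT nT
  obtain ⟨z, hz⟩ := intermediate_value_univ₂ (a := x) (b := y) a2 b2
    (Real.arsinh_le_arsinh.2 (a3.trans (abs_nonneg _)))
    (Real.arsinh_le_arsinh.2 (b3.trans (abs_nonneg _)))
  have e := Real.arsinh_injective hz
  exact ⟨z, a z, b z, (a1 z).1, (b1 z).1, e, fun n hn =>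
    hn.elim ((a1 z).2 n) fun h => e.trans_le ((b1 z).2 n h)⟩

/-- Finitely many walls of a locally finite family come close to a segment. -/
lemma LF.finite_seg {S : Set V} (hS : LF S) (uS : ∀ n ∈ S, B n n = 1) {p q : V} (hp : Fut p)
    (hq : Fut q) (r : ℝ) :
    {n | n ∈ S ∧ ∃ s ∈ Set.Icc (0 : ℝ) 1, |B n ((1 - s) • p + s • q)| ≤ r}.Finite := by
  have p0 : 0 < -B p p := neg_pos.2 hp.1
  have q0 : 0 < -B q q := neg_pos.2 hq.1
  have m0 : 0 < min (-B p p) (-B q q) / 2 := half_pos (lt_min p0 q0)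
  refine (hS (pt p) (Real.sinh (Real.arsinh (|r| / √(min (-B p p) (-B q q) / 2)) +
    dist (pt p) (pt q)))).subset ?_
  rintro n ⟨hn, s, ⟨s0, s1⟩, hs⟩
  refine ⟨hn, ?_⟩
  have s2 : 0 ≤ 1 - s := sub_nonneg.2 s1
  have hx : Fut ((1 - s) • p + s • q) := hp.comb hq s2 s0 (by linarith)
  have hm : min (-B p p) (-B q q) / 2 ≤ -B ((1 - s) • p + s • q) ((1 - s) • p + s • q) := by
    simp only [B_add_left, B_add_right, B_smul_left, B_smul_right]
    rw [B_comm q p]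
    nlinarith [mul_le_mul_of_nonneg_left (min_le_left (-B p p) (-B q q)) (sq_nonneg (1 - s)),
      mul_le_mul_of_nonneg_left (min_le_right (-B p p) (-B q q)) (sq_nonneg s),
      mul_nonneg (mul_nonneg s0 s2) (neg_pos.2 (hp.B_neg hq)).le,
      mul_nonneg m0.le (sq_nonneg (1 - 2 * s))]
  set x := (1 - s) • p + s • q with hxd
  have r0 : 0 < √(-B x x) := Real.sqrt_pos.2 (neg_pos.2 hx.1)
  have e : Hy (pt x) = (1 / √(-B x x) * (1 - s) * √(-B p p)) • Hy (pt p) +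
      (1 / √(-B x x) * s * √(-B q q)) • Hy (pt q) := by
    rw [Hy_pt hx, Hy_pt hp, Hy_pt hq, smul_smul, smul_smul, mul_assoc _ √(-B p p),
      mul_assoc _ √(-B q q), mul_one_div_cancel (Real.sqrt_pos.2 p0).ne',
      mul_one_div_cancel (Real.sqrt_pos.2 q0).ne', mul_one, mul_one, mul_smul, mul_smul,
      ← smul_add]
  have d := dist_add_of_comb (by positivity) (by positivity) e
  have k : |B n (Hy (pt x))| ≤ |r| / √(min (-B p p) (-B q q) / 2) := by
    rw [Hy_pt hx, B_smul_right, abs_mul, abs_of_pos (by positivity), one_div, inv_mul_eq_div]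
    exact div_le_div₀ (abs_nonneg r) (hs.trans (le_abs_self r)) (Real.sqrt_pos.2 m0)
      (Real.sqrt_le_sqrt hm)
  rw [← Real.sinh_arsinh |B n (Hy (pt p))|, Real.sinh_le_sinh]
  linarith [VH3_lip (uS n hn) (pt p) (pt x), Real.arsinh_le_arsinh.2 k,
    dist_nonneg (x := pt x) (y := pt q)]

lemma LF.mono {S T : Set V} (hS : LF S) (h : T ⊆ S) : LF T :=
  fun z R => (hS z R).subset fun _ hn => ⟨h hn.1, hn.2⟩

end

end Pool.Agent.P.MP_d39174_gt
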