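import Pool.Agent.P.MP_d39174_gt.VH3

/-! Ideal points, cyclic orientation, crossing. -/

namespace Pool.Agent.P.MP_d39174_gt

open UpperHalfPlane MatrixGroups

noncomputable section

lemma br_ad (g : SL(2, ℝ)) (x y : W) : br (g • x) (g • y) = br x y := by
  simp only [br, act_p, act_q]
  linear_combination (x.p * y.q - x.q * y.p) * det_eq g
lemma br_swap (x y : W) : br y x = -br x y := by
  simp only [br]
  ring
lemma br_self (x : W) : br x x = 0 := by
  simp only [br]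
  ring
lemma N_ad (g : SL(2, ℝ)) (x : W) : N (g • x) = g • N x := by
  ext <;> simp only [N, act_p, act_q, ad_a, ad_b, ad_c] <;> ring
lemma B_N_N (x y : W) : B (N x) (N y) = -br x y ^ 2 / 2 := by
  simp only [B, N, br]
  ring
lemma oriW_ad (g : SL(2, ℝ)) (x y z : W) : oriW (g • x) (g • y) (g • z) = oriW x y z := by
  simp only [oriW, br_ad]
lemma plucker (x y c d : W) : br x y * br c d + br x c * br d y + br x d * br y c = 0 := by
  simp only [br]
  ring
lemma VW_br {n : V} (h : B n n = 1) : br (ev n) (ev (-n)) ≠ 0 := by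
  unfold B at h
  simp only [ev, br, V.neg_a, V.neg_b, V.neg_c, neg_inj, neg_eq_zero]
  split_ifs with h1 h2 h2
  · linarith [h1.1, h2.1]
  · simp only [h1.1, h1.2]
    norm_num
  · simp only [h2.1, h2.2]
    norm_num
  · intro h3
    have h4 : n.c = 0 := by linarith
    rw [h4] at h
    rcases mul_self_eq_one_iff.1 (by linarith : n.a * n.a = 1) with h5 | h5
    exacts [h2 ⟨h5, h4⟩, h1 ⟨h5, h4⟩]

lemma ev_ne {n : V} (h : B n n = 1) : ev n ≠ ⟨0, 0⟩ := by
  intro h0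
  have h1 := VW_br h
  rw [h0] at h1
  simp [br] at h1
lemma br_ev_neg {n : V} (h : B n n = 1) : br (ev n) (ev (-n)) ≠ 0 := VW_br h
/-- `ev n` is an eigenvector of `n` for the eigenvalue `1`. -/
lemma ev_eig {n : V} (h : B n n = 1) :
    n.a * (ev n).p + n.b * (ev n).q = (ev n).p ∧ n.c * (ev n).p - n.a * (ev n).q = (ev n).q := by
  unfold B at h
  unfold ev
  split_ifs with h1
  · simp only [h1.1, h1.2]
    constructor <;> ring
  · exact ⟨by linear_combination h, by ring⟩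

/-- Eigenvectors for the eigenvalue `1`. -/
def VWE (n : V) (x : W) : Prop := n.a * x.p + n.b * x.q = x.p ∧ n.c * x.p - n.a * x.q = x.q

lemma VW_prop {n : V} {x y : W} (hx : VWE n x) (hy : VWE n y) : br x y = 0 := by
  unfold br
  linear_combination (-y.q * hx.1 + y.p * hx.2 - x.p * hy.2 + x.q * hy.1) / 2

lemma VW_scale {x y : W} (h : br x y = 0) (hy : y ≠ ⟨0, 0⟩) : ∃ t : ℝ, x = ⟨t * y.p, t * y.q⟩ := by
  unfold br at h
  by_cases h1 : y.p = 0
  · have h2 : y.q ≠ 0 := fun h2 => hy (W.ext h1 h2)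
    refine ⟨x.q / y.q, W.ext ?_ (div_mul_cancel₀ _ h2).symm⟩
    rw [h1, mul_zero, sub_zero] at h
    simp only [h1, mul_zero]
    exact (mul_eq_zero.1 h).resolve_right h2
  · refine ⟨x.p / y.p, W.ext (div_mul_cancel₀ _ h1).symm ?_⟩
    field_simp
    linear_combination -h

lemma VW_of_br {n : V} (h : B n n = 1) {x : W} (hx : br x (ev n) = 0) : VWE n x := by
  obtain ⟨t, rfl⟩ := VW_scale hx (ev_ne h)
  exact ⟨by linear_combination t * (ev_eig h).1, by linear_combination t * (ev_eig h).2⟩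

lemma VW_neg {n : V} (h : B n n = 1) : B (-n) (-n) = 1 := by
  rwa [B_neg_left, B_neg_right, neg_neg]

lemma VW_co {n : V} {u v : W} (hu : VWE n u) (hv : VWE (-n) v) :
    n.a * br u v = u.p * v.q + u.q * v.p ∧ n.b * br u v = -2 * u.p * v.p ∧
      n.c * br u v = 2 * u.q * v.q := by
  obtain ⟨h1, h2⟩ := hu
  obtain ⟨h3, h4⟩ := hv
  simp only [V.neg_a, V.neg_b, V.neg_c] at h3 h4
  unfold br
  exact ⟨by linear_combination v.q * h1 + u.q * h3, by linear_combination -u.p * h3 - v.p * h1,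
    by linear_combination v.q * h2 + u.q * h4⟩

lemma VW_key {a b : V} (ha : B a a = 1) (hb : B b b = 1) :
    (1 - B a b) * (br (ev a) (ev (-a)) * br (ev b) (ev (-b))) =
      2 * (br (ev a) (ev b) * br (ev (-a)) (ev (-b))) ∧
    (1 + B a b) * (br (ev a) (ev (-a)) * br (ev b) (ev (-b))) =
      -2 * (br (ev a) (ev (-b)) * br (ev (-a)) (ev b)) := by
  obtain ⟨h1, h2, h3⟩ := VW_co (ev_eig ha) (ev_eig (VW_neg ha))
  obtain ⟨k1, k2, k3⟩ := VW_co (ev_eig hb) (ev_eig (VW_neg hb))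
  have e : B a b * (br (ev a) (ev (-a)) * br (ev b) (ev (-b))) =
      a.a * br (ev a) (ev (-a)) * (b.a * br (ev b) (ev (-b))) +
        (a.b * br (ev a) (ev (-a)) * (b.c * br (ev b) (ev (-b))) +
          a.c * br (ev a) (ev (-a)) * (b.b * br (ev b) (ev (-b)))) / 2 := by
    unfold B
    ring
  rw [h1, h2, h3, k1, k2, k3] at e
  rw [sub_mul, add_mul, e]
  unfold br
  constructor <;> ring
lemma ev_ad (g : SL(2, ℝ)) {n : V} (h : B n n = 1) :
    ∃ t : ℝ, t ≠ 0 ∧ ev (g • n) = ⟨t * (g • ev n).p, t * (g • ev n).q⟩ := by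
  have h' : B (g • n) (g • n) = 1 := by rwa [B_ad]
  obtain ⟨h1, h2⟩ := ev_eig h
  have h3 : VWE (g • n) (g • ev n) := by
    simp only [VWE, act_p, act_q, ad_a, ad_b, ad_c]
    exact ⟨by linear_combination (g 0 0 * g 1 1 - g 0 1 * g 1 0) * (g 0 0 * h1 + g 0 1 * h2) +
        (g 0 0 * (ev n).p + g 0 1 * (ev n).q) * det_eq g,
      by linear_combination (g 0 0 * g 1 1 - g 0 1 * g 1 0) * (g 1 0 * h1 + g 1 1 * h2) +
        (g 1 0 * (ev n).p + g 1 1 * (ev n).q) * det_eq g⟩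
  obtain ⟨t, ht⟩ := VW_scale (VW_prop (ev_eig h') h3) fun h0 => br_ev_neg h (by
    rw [← br_ad g, h0]
    simp [br])
  refine ⟨t, ?_, ht⟩
  rintro rfl
  exact ev_ne h' (by simpa using ht)
lemma ex_ev {n : V} (h : B n n = 1) (t : ℝ) :
    ex t n • ev n = ⟨Real.exp t * (ev n).p, Real.exp t * (ev n).q⟩ := by
  obtain ⟨h1, h2⟩ := ev_eig h
  obtain ⟨e1, e2, e3, e4⟩ := ex_apply h t
  ext
  · simp only [act_p, e1, e2, ← Real.cosh_add_sinh]
    linear_combination Real.sinh t * h1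
  · simp only [act_q, e3, e4, ← Real.cosh_add_sinh]
    linear_combination Real.sinh t * h2

lemma VW_br_mul (s t : ℝ) (x y : W) :
    br ⟨s * x.p, s * x.q⟩ ⟨t * y.p, t * y.q⟩ = s * t * br x y := by
  simp only [br]
  ring
lemma br_ev_ad (g : SL(2, ℝ)) {a b : V} (ha : B a a = 1) (hb : B b b = 1) :
    br (ev (g • a)) (ev (g • b)) = 0 ↔ br (ev a) (ev b) = 0 := by
  obtain ⟨s, hs, e1⟩ := ev_ad g ha
  obtain ⟨t, ht, e2⟩ := ev_ad g hb
  rw [e1, e2, VW_br_mul, br_ad, mul_eq_zero, or_iff_right (mul_ne_zero hs ht)]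
/-- A unit vector is determined by its two endpoints. -/
lemma eq_of_ev {a b : V} (ha : B a a = 1) (hb : B b b = 1) (h1 : br (ev a) (ev b) = 0)
    (h2 : br (ev (-a)) (ev (-b)) = 0) : a = b := by
  obtain ⟨e1, e2, e3⟩ := VW_co (ev_eig ha) (ev_eig (VW_neg ha))
  obtain ⟨k1, k2, k3⟩ := VW_co (VW_of_br hb h1) (VW_of_br (VW_neg hb) h2)
  exact V.ext (mul_right_cancel₀ (br_ev_neg ha) (e1.trans k1.symm))
    (mul_right_cancel₀ (br_ev_neg ha) (e2.trans k2.symm))
    (mul_right_cancel₀ (br_ev_neg ha) (e3.trans k3.symm))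
lemma B_eq_one_of_ev {a b : V} (ha : B a a = 1) (hb : B b b = 1) (h : br (ev a) (ev b) = 0) :
    B a b = 1 := by
  have h1 := (VW_key ha hb).1
  rw [h, zero_mul, mul_zero, mul_eq_zero,
    or_iff_left (mul_ne_zero (br_ev_neg ha) (br_ev_neg hb)), sub_eq_zero] at h1
  exact h1.symm
lemma ev_of_B_eq_one {a b : V} (ha : B a a = 1) (hb : B b b = 1) (h : B a b = 1) :
    br (ev a) (ev b) = 0 ∨ br (ev (-a)) (ev (-b)) = 0 := by
  have h1 := (VW_key ha hb).1
  rw [h, sub_self, zero_mul] at h1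
  exact mul_eq_zero.1 (by linarith)
lemma ori_ad (g : SL(2, ℝ)) {a b c : V} (ha : B a a = 1) (hb : B b b = 1) (hc : B c c = 1) :
    ∃ k : ℝ, 0 < k ∧ ori (g • a) (g • b) (g • c) = k * ori a b c := by
  obtain ⟨s, hs, e1⟩ := ev_ad g ha
  obtain ⟨t, ht, e2⟩ := ev_ad g hb
  obtain ⟨r, hr, e3⟩ := ev_ad g hc
  refine ⟨(s * t * r) ^ 2, by positivity, ?_⟩
  simp only [ori, oriW, e1, e2, e3, VW_br_mul, br_ad]
  ring
lemma ori_cyc (a b c : V) : ori b c a = ori a b c := by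
  simp only [ori, oriW, br]
  ring
lemma ori_swap (a b c : V) : ori b a c = -ori a b c := by
  simp only [ori, oriW, br]
  ring
lemma ori_swap' (a b c : V) : ori a c b = -ori a b c := by
  simp only [ori, oriW, br]
  ring
lemma ori_self (a b : V) : ori a a b = 0 := by
  simp only [ori, oriW, br]
  ring
lemma ori_ne_zero {a b c : V} (h1 : br (ev a) (ev b) ≠ 0) (h2 : br (ev b) (ev c) ≠ 0)
    (h3 : br (ev c) (ev a) ≠ 0) : ori a b c ≠ 0 :=
  mul_ne_zero (mul_ne_zero h1 h2) h3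
lemma br_ne_of_ori {a b c : V} (h : ori a b c ≠ 0) :
    br (ev a) (ev b) ≠ 0 ∧ br (ev b) (ev c) ≠ 0 ∧ br (ev c) (ev a) ≠ 0 :=
  ⟨left_ne_zero_of_mul (left_ne_zero_of_mul h), right_ne_zero_of_mul (left_ne_zero_of_mul h),
    right_ne_zero_of_mul h⟩
lemma Cr.ad {a b c d : V} (g : SL(2, ℝ)) (ha : B a a = 1) (hb : B b b = 1) (hc : B c c = 1)
    (hd : B d d = 1) : Cr (g • a) (g • b) (g • c) (g • d) ↔ Cr a b c d := by
  obtain ⟨k, hk, e1⟩ := ori_ad g ha hb hc
  obtain ⟨l, hl, e2⟩ := ori_ad g ha hb hd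
  rw [Cr, Cr, e1, e2, mul_mul_mul_comm, ← neg_pos, ← mul_neg,
    mul_pos_iff_of_pos_left (mul_pos hk hl), neg_pos]
lemma VW_cross {a b c d : V} (h1 : ori a b c < 0) (h2 : 0 < ori a b d) :
    0 < ori c d a ∧ ori c d b < 0 := by
  obtain ⟨-, h3, h4⟩ := br_ne_of_ori h1.ne
  have e1 : br (ev a) (ev b) ^ 2 * ori c d a =
      br (ev d) (ev a) ^ 2 * -ori a b c + br (ev c) (ev a) ^ 2 * ori a b d := by
    simp only [ori, oriW, br]
    ring
  have e2 : br (ev a) (ev b) ^ 2 * -ori c d b =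
      br (ev b) (ev d) ^ 2 * -ori a b c + br (ev b) (ev c) ^ 2 * ori a b d := by
    simp only [ori, oriW, br]
    ring
  have h5 := neg_pos.2 h1
  have h6 : 0 < br (ev a) (ev b) ^ 2 := sq_pos_of_ne_zero (br_ne_of_ori h1.ne).1
  rw [← neg_pos (a := ori c d b), ← mul_pos_iff_of_pos_left h6, e1,
    ← mul_pos_iff_of_pos_left (b := -ori c d b) h6, e2]
  generalize -ori a b c = t at h5
  constructor <;> positivity

lemma Cr.symm {a b c d : V} (h : Cr a b c d) : Cr c d a b := by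
  rcases mul_neg_iff.1 h with ⟨h1, h2⟩ | ⟨h1, h2⟩
  · obtain ⟨h3, h4⟩ := VW_cross h2 h1
    rw [Cr, ori_swap d c a, ori_swap d c b, neg_mul_neg]
    exact mul_neg_of_pos_of_neg h3 h4
  · exact mul_neg_of_pos_of_neg (VW_cross h1 h2).1 (VW_cross h1 h2).2
lemma Cr.swap_left {a b c d : V} (h : Cr a b c d) : Cr b a c d := by
  rwa [Cr, ori_swap a b c, ori_swap a b d, neg_mul_neg]
lemma Cr.swap_right {a b c d : V} (h : Cr a b c d) : Cr a b d c := by
  rwa [Cr, mul_comm]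
lemma Cr.ne {a b c d : V} (h : Cr a b c d) : a ≠ b ∧ c ≠ a ∧ c ≠ b ∧ d ≠ a ∧ d ≠ b ∧ c ≠ d := by
  obtain ⟨h1, h2, h3⟩ := br_ne_of_ori (left_ne_zero_of_mul (ne_of_lt h))
  obtain ⟨-, h4, h5⟩ := br_ne_of_ori (right_ne_zero_of_mul (ne_of_lt h))
  refine ⟨?_, ?_, ?_, ?_, ?_, ?_⟩ <;> rintro rfl
  exacts [h1 (br_self _), h3 (br_self _), h2 (br_self _), h5 (br_self _), h4 (br_self _),
    not_lt.2 (mul_self_nonneg _) h]
/-- The cyclic order of four points of a crossing. -/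
lemma ori_of_cross {a b c d : V} (h1 : ori a b c < 0) (h2 : 0 < ori a b d) :
    0 < ori c d a ∧ ori c d b < 0 := VW_cross h1 h2
/-- The side of an ideal point with respect to a wall. -/
lemma B_N_ev {a : V} (ha : B a a = 1) (x : W) :
    ∃ k : ℝ, 0 < k ∧ B a (N x) = k * oriW (ev a) x (ev (-a)) := by
  obtain ⟨h1, h2, h3⟩ := VW_co (ev_eig ha) (ev_eig (VW_neg ha))
  have h0 := br_ev_neg ha
  refine ⟨(br (ev a) (ev (-a)) ^ 2)⁻¹, by positivity, ?_⟩
  rw [eq_inv_mul_iff_mul_eq₀ (pow_ne_zero 2 h0)]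
  simp only [B, N, oriW, br] at h1 h2 h3 ⊢
  linear_combination ((ev a).p * (ev (-a)).q - (ev a).q * (ev (-a)).p) *
    (-(x.p * x.q) * h1 - x.q ^ 2 / 2 * h2 + x.p ^ 2 / 2 * h3)
lemma cross_iff_Cr {a w : V} (ha : B a a = 1) (hw : B w w = 1) :
    |B w a| < 1 ↔ Cr w (-w) a (-a) := by
  obtain ⟨h1, h2⟩ := VW_key hw ha
  have h3 := br_ev_neg hw
  have h4 := br_ev_neg ha
  have e : ori w (-w) a * ori w (-w) (-a) =
      -(br (ev w) (ev (-w)) ^ 4 * br (ev a) (ev (-a)) ^ 2 / 4 * (1 - B w a ^ 2)) := by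
    have e1 : ori w (-w) a * ori w (-w) (-a) = -(br (ev w) (ev (-w)) ^ 2 / 4 *
        (2 * (br (ev w) (ev a) * br (ev (-w)) (ev (-a))) *
          (-2 * (br (ev w) (ev (-a)) * br (ev (-w)) (ev a))))) := by
      simp only [ori, oriW, br]
      ring
    rw [e1, ← h1, ← h2]
    ring
  rw [Cr, e, neg_lt_zero, mul_pos_iff_of_pos_left (by positivity), sub_pos,
    sq_lt_one_iff_abs_lt_one]

end

end Pool.Agent.P.MP_d39174_gt
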