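import Pool.Agent.P.MP_d39174_gt.VWF

/-! The affine coordinate attached to a wall. -/

namespace Pool.Agent.P.MP_d39174_gt

open UpperHalfPlane MatrixGroups

noncomputable section

/-- The endpoint of `a` has a finite coordinate for `w`. -/
def Fin' (w a : V) : Prop := br (ev w) (ev a) ≠ 0

/-- The endpoint of `a` in the frame of `w`. -/
def VW2X (w a : V) : W := (fr w)⁻¹ • ev a

lemma VW2_crd (w a : V) : crd w a = (VW2X w a).p / (VW2X w a).q := rfl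
lemma VW2_brX (w a b : V) : br (ev a) (ev b) = br (VW2X w a) (VW2X w b) := (br_ad _ _ _).symm
lemma VW2_sc (g : SL(2, ℝ)) (t : ℝ) (y : W) :
    g • (⟨t * y.p, t * y.q⟩ : W) = ⟨t * (g • y).p, t * (g • y).q⟩ := by
  ext <;> simp only [act_p, act_q] <;> ring
lemma VW2_inv {w : V} (hw : B w w = 1) : (fr w)⁻¹ • w = w0 := by
  rw [inv_smul_eq_iff, fr_w0 hw]
lemma VW2_self {w : V} (hw : B w w = 1) : ∃ s : ℝ, s ≠ 0 ∧ VW2X w w = ⟨s, 0⟩ := by
  obtain ⟨t, ht, e⟩ := ev_ad (fr w) B_w0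
  rw [fr_w0 hw] at e
  refine ⟨t * 2, mul_ne_zero ht two_ne_zero, ?_⟩
  rw [VW2X, e, VW2_sc, inv_smul_smul]
  have h : ev w0 = ⟨2, 0⟩ := by
    simp only [ev, w0]
    norm_num
  rw [h, mul_zero]
lemma VW2_neg {w : V} (hw : B w w = 1) : ∃ s : ℝ, s ≠ 0 ∧ VW2X w (-w) = ⟨0, s⟩ := by
  obtain ⟨t, ht, e⟩ := ev_ad (fr w) (VW_neg B_w0)
  rw [smul_neg, fr_w0 hw] at e
  refine ⟨t * 2, mul_ne_zero ht two_ne_zero, ?_⟩
  rw [VW2X, e, VW2_sc, inv_smul_smul]
  have h : ev (-w0) = ⟨0, 2⟩ := by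
    simp only [ev, w0, V.neg_a, V.neg_b, V.neg_c]
    norm_num
  rw [h, mul_zero]
lemma VW2_brw {w : V} (hw : B w w = 1) :
    ∃ s : ℝ, s ≠ 0 ∧ ∀ a, br (ev w) (ev a) = s * (VW2X w a).q := by
  obtain ⟨s, hs, e⟩ := VW2_self hw
  refine ⟨s, hs, fun a => ?_⟩
  rw [VW2_brX w, e]
  simp only [br, zero_mul, sub_zero]
lemma VW2_q {w a : V} (hw : B w w = 1) (ha : Fin' w a) : (VW2X w a).q ≠ 0 := by
  obtain ⟨s, -, e⟩ := VW2_brw hw
  rw [Fin', e] at ha
  exact right_ne_zero_of_mul ha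
lemma VW2_p {w a : V} (hw : B w w = 1) (ha : Fin' w a) :
    (VW2X w a).p = crd w a * (VW2X w a).q := (div_mul_cancel₀ _ (VW2_q hw ha)).symm
lemma VW2_br {w a b : V} (hw : B w w = 1) (ha : Fin' w a) (hb : Fin' w b) :
    br (ev a) (ev b) = (VW2X w a).q * (VW2X w b).q * (crd w a - crd w b) := by
  rw [VW2_brX w, br, VW2_p hw ha, VW2_p hw hb]
  ring
lemma VW2_E (g : SL(2, ℝ)) {a : V} (ha : B a a = 1) : VWE (g • a) (g • ev a) := by
  refine VW_of_br (by rwa [B_ad]) ?_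
  obtain ⟨t, -, e⟩ := ev_ad g ha
  rw [e]
  simp only [br]
  ring
lemma VW2_co {w a : V} (hw : B w w = 1) (ha : B a a = 1) (h1 : Fin' w a) (h2 : Fin' w (-a)) :
    crd w a - crd w (-a) ≠ 0 ∧
      ((fr w)⁻¹ • a).a * (crd w a - crd w (-a)) = crd w a + crd w (-a) ∧
      ((fr w)⁻¹ • a).b * (crd w a - crd w (-a)) = -2 * (crd w a * crd w (-a)) ∧
      ((fr w)⁻¹ • a).c * (crd w a - crd w (-a)) = 2 := by
  have e2 := VW2_E (fr w)⁻¹ (VW_neg ha)
  rw [smul_neg] at e2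
  obtain ⟨k1, k2, k3⟩ := VW_co (u := VW2X w a) (v := VW2X w (-a)) (VW2_E (fr w)⁻¹ ha) e2
  have h0 := br_ev_neg ha
  have hq := mul_ne_zero (VW2_q hw h1) (VW2_q hw h2)
  rw [← VW2_brX, VW2_br hw h1 h2] at k1 k2 k3
  rw [VW2_br hw h1 h2] at h0
  rw [VW2_p hw h1, VW2_p hw h2] at k1 k2
  exact ⟨right_ne_zero_of_mul h0, mul_left_cancel₀ hq (by linear_combination k1),
    mul_left_cancel₀ hq (by linear_combination k2), mul_left_cancel₀ hq (by linear_combination k3)⟩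

lemma fin'_neg {w : V} (hw : B w w = 1) : Fin' w (-w) := br_ev_neg hw
lemma crd_neg_self {w : V} (hw : B w w = 1) : crd w (-w) = 0 := by
  obtain ⟨s, -, e⟩ := VW2_neg hw
  rw [VW2_crd, e, zero_div]
lemma crd_eq_iff {w a b : V} (hw : B w w = 1) (ha : Fin' w a) (hb : Fin' w b) :
    crd w a = crd w b ↔ br (ev a) (ev b) = 0 := by
  rw [VW2_br hw ha hb, mul_eq_zero, or_iff_right (mul_ne_zero (VW2_q hw ha) (VW2_q hw hb)),
    sub_eq_zero]
lemma crd_ne_zero {w a : V} (hw : B w w = 1) (ha : Fin' w a) (ha' : Fin' (-w) a) :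
    crd w a ≠ 0 := by
  intro h
  rw [← crd_neg_self hw, crd_eq_iff hw ha (fin'_neg hw)] at h
  exact ha' (by rw [br_swap, h, neg_zero])
lemma ori_crd {w a b c : V} (hw : B w w = 1) (ha : Fin' w a) (hb : Fin' w b) (hc : Fin' w c) :
    ∃ k : ℝ, 0 < k ∧
      ori a b c = k * ((crd w a - crd w b) * (crd w b - crd w c) * (crd w c - crd w a)) := by
  have h1 := VW2_q hw ha
  have h2 := VW2_q hw hb
  have h3 := VW2_q hw hc
  refine ⟨((VW2X w a).q * (VW2X w b).q * (VW2X w c).q) ^ 2, by positivity, ?_⟩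
  rw [ori, oriW, VW2_br hw ha hb, VW2_br hw hb hc, VW2_br hw hc ha]
  ring
lemma ori_crd' {w b c : V} (hw : B w w = 1) (hb : Fin' w b) (hc : Fin' w c) :
    ∃ k : ℝ, 0 < k ∧ ori w b c = k * (crd w c - crd w b) := by
  obtain ⟨s, hs, e⟩ := VW2_brw hw
  have h2 := VW2_q hw hb
  have h3 := VW2_q hw hc
  refine ⟨(s * (VW2X w b).q * (VW2X w c).q) ^ 2, by positivity, ?_⟩
  rw [ori, oriW, VW2_br hw hb hc, br_swap (ev w) (ev c), e, e]
  ring
lemma ori_pos_iff {w b c : V} (hw : B w w = 1) (hb : Fin' w b) (hc : Fin' w c) :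
    0 < ori w b c ↔ crd w b < crd w c := by
  obtain ⟨k, hk, e⟩ := ori_crd' hw hb hc
  rw [e, mul_pos_iff_of_pos_left hk, sub_pos]
lemma side_iff {w a : V} (hw : B w w = 1) (ha : Fin' w a) :
    (0 < ori w a (-w) ↔ crd w a < 0) ∧ (ori w a (-w) < 0 ↔ 0 < crd w a) := by
  obtain ⟨k, hk, e⟩ := ori_crd' hw ha (fin'_neg hw)
  rw [crd_neg_self hw, zero_sub] at e
  constructor
  · rw [e, mul_pos_iff_of_pos_left hk, neg_pos]
  · rw [e, mul_neg, neg_lt_zero, mul_pos_iff_of_pos_left hk]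
lemma Cr_crd {w a b c d : V} (hw : B w w = 1) (ha : Fin' w a) (hb : Fin' w b) (hc : Fin' w c)
    (hd : Fin' w d) : Cr a b c d ↔ crd w a ≠ crd w b ∧
      (crd w b - crd w c) * (crd w c - crd w a) * ((crd w b - crd w d) * (crd w d - crd w a))
        < 0 := by
  obtain ⟨k, hk, e1⟩ := ori_crd hw ha hb hc
  obtain ⟨l, hl, e2⟩ := ori_crd hw ha hb hd
  have e : ori a b c * ori a b d = k * l * (crd w a - crd w b) ^ 2 *
      ((crd w b - crd w c) * (crd w c - crd w a) * ((crd w b - crd w d) * (crd w d - crd w a))) := by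
    rw [e1, e2]
    ring
  rw [Cr, e]
  by_cases h : crd w a = crd w b
  · simp [h]
  · have h1 : crd w a - crd w b ≠ 0 := sub_ne_zero.2 h
    rw [and_iff_right h, ← neg_pos, ← mul_neg, mul_pos_iff_of_pos_left (by positivity), neg_pos]
lemma Cr_crd' {w b c d : V} (hw : B w w = 1) (hb : Fin' w b) (hc : Fin' w c) (hd : Fin' w d) :
    Cr w b c d ↔ (crd w c - crd w b) * (crd w d - crd w b) < 0 := by
  obtain ⟨k, hk, e1⟩ := ori_crd' hw hb hc
  obtain ⟨l, hl, e2⟩ := ori_crd' hw hb hd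
  rw [Cr, e1, e2, mul_mul_mul_comm, ← neg_pos, ← mul_neg,
    mul_pos_iff_of_pos_left (mul_pos hk hl), neg_pos]
lemma Fin'.ad {w a : V} (g : SL(2, ℝ)) (hw : B w w = 1) (ha : B a a = 1) :
    Fin' (g • w) (g • a) ↔ Fin' w a := (br_ev_ad g hw ha).not
lemma crd_ad (g : SL(2, ℝ)) {w : V} (hw : B w w = 1) :
    ∃ k : ℝ, 0 < k ∧ ∀ a, B a a = 1 → crd (g • w) (g • a) = k * crd w a := by
  have hw' : B (g • w) (g • w) = 1 := by rwa [B_ad]
  obtain ⟨h, hh⟩ : ∃ h, h = (fr (g • w))⁻¹ * g * fr w := ⟨_, rfl⟩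
  have e : h • w0 = w0 := by rw [hh, mul_smul, mul_smul, fr_w0 hw, VW2_inv hw']
  have ea := congrArg V.a e
  have eb := congrArg V.b e
  have ec := congrArg V.c e
  simp only [ad_a, ad_b, ad_c, w0] at ea eb ec
  have h1 : h 0 0 * h 1 1 = 1 := by linear_combination (ea + det_eq h) / 2
  have h2 : h 0 1 = 0 := by linear_combination -h 1 1 / 2 * eb - h 0 1 * h1
  have h3 : h 1 0 = 0 := by linear_combination h 0 0 / 2 * ec - h 1 0 * h1
  have h4 : h 0 0 ≠ 0 := left_ne_zero_of_mul (h1.trans_ne one_ne_zero)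
  have h5 : h 0 0 / h 1 1 = h 0 0 ^ 2 := by
    rw [div_eq_iff (right_ne_zero_of_mul (h1.trans_ne one_ne_zero))]
    linear_combination -h 0 0 * h1
  refine ⟨h 0 0 ^ 2, by positivity, fun a ha => ?_⟩
  obtain ⟨t, ht, e1⟩ := ev_ad g ha
  have e2 : (fr (g • w))⁻¹ • g • ev a = h • VW2X w a := by
    rw [hh, VW2X, mul_smul, mul_smul, smul_inv_smul]
  rw [VW2_crd, VW2X, e1, VW2_sc, e2, mul_div_mul_left _ _ ht, act_p, act_q, h2, h3, zero_mul,
    zero_mul, add_zero, zero_add, mul_div_mul_comm, h5, VW2_crd]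
lemma crd_ex {w a : V} (hw : B w w = 1) (ha : B a a = 1) (t : ℝ) :
    crd w (ex t w • a) = Real.exp (2 * t) * crd w a := by
  obtain ⟨s, hs, e1⟩ := ev_ad (ex t w) ha
  have e2 : (fr w)⁻¹ • ex t w • ev a = ex t w0 • VW2X w a := by
    have e3 := ex_conj (fr w) t w0
    rw [fr_w0 hw] at e3
    rw [← e3, VW2X, mul_smul, mul_smul, inv_smul_smul]
  obtain ⟨k1, k2, k3, k4⟩ := ex_apply B_w0 t
  simp only [w0, mul_one, mul_zero, Real.cosh_add_sinh, Real.cosh_sub_sinh] at k1 k2 k3 k4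
  rw [VW2_crd, VW2X, e1, VW2_sc, e2, mul_div_mul_left _ _ hs, act_p, act_q]
  simp only [w0]
  rw [k1, k2, k3, k4, zero_mul, zero_mul, add_zero, zero_add, mul_div_mul_comm, ← Real.exp_sub,
    VW2_crd, show t - -t = 2 * t by ring]
lemma crd_neg_left {w : V} (hw : B w w = 1) :
    ∃ k : ℝ, 0 < k ∧ ∀ a, Fin' w a → Fin' (-w) a → crd (-w) a = -k / crd w a := by
  obtain ⟨h, hh⟩ : ∃ h, h = (fr (-w))⁻¹ * fr w := ⟨_, rfl⟩
  have e : h • w0 = -w0 := by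
    rw [hh, mul_smul, fr_w0 hw, ← VW2_inv (VW_neg hw), smul_neg, neg_neg]
  have ea := congrArg V.a e
  have eb := congrArg V.b e
  have ec := congrArg V.c e
  simp only [ad_a, ad_b, ad_c, w0, V.neg_a, V.neg_b, V.neg_c] at ea eb ec
  have h1 : h 0 1 * h 1 0 = -1 := by linear_combination (ea - det_eq h) / 2
  have h2 : h 0 0 = 0 := by linear_combination h 1 0 / 2 * eb + h 0 0 * h1
  have h3 : h 1 1 = 0 := by linear_combination -h 0 1 / 2 * ec + h 1 1 * h1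
  have h0 : h 0 1 * h 1 0 ≠ 0 := h1.trans_ne (by norm_num)
  have h4 : h 0 1 ≠ 0 := left_ne_zero_of_mul h0
  have h5 : h 0 1 / h 1 0 = -h 0 1 ^ 2 := by
    rw [div_eq_iff (right_ne_zero_of_mul h0)]
    linear_combination h 0 1 * h1
  refine ⟨h 0 1 ^ 2, by positivity, fun a _ _ => ?_⟩
  have e2 : VW2X (-w) a = h • VW2X w a := by
    rw [hh, VW2X, VW2X, mul_smul, smul_inv_smul]
  rw [VW2_crd, e2, act_p, act_q, h2, h3, zero_mul, zero_mul, add_zero, zero_add, mul_div_mul_comm,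
    h5, VW2_crd, div_div_eq_mul_div, mul_div_assoc]
lemma B_crd {w a : V} (hw : B w w = 1) (ha : B a a = 1) (h1 : Fin' w a) (h2 : Fin' w (-a)) :
    crd w a ≠ crd w (-a) ∧ B w a = (crd w a + crd w (-a)) / (crd w a - crd w (-a)) := by
  obtain ⟨k0, k1, -, -⟩ := VW2_co hw ha h1 h2
  refine ⟨sub_ne_zero.1 k0, ?_⟩
  rw [eq_div_iff k0, ← k1, ← B_ad (fr w)⁻¹, VW2_inv hw]
  simp only [B, w0]
  ring
lemma cross_iff_crd {w a : V} (hw : B w w = 1) (ha : B a a = 1) (h1 : Fin' w a)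
    (h2 : Fin' w (-a)) : |B w a| < 1 ↔ crd w a * crd w (-a) < 0 := by
  rw [cross_iff_Cr ha hw, Cr_crd' hw (fin'_neg hw) h1 h2, crd_neg_self hw, sub_zero, sub_zero]
lemma fin'_of_cross {w a : V} (hw : B w w = 1) (ha : B a a = 1) (h : |B w a| < 1) :
    Fin' w a ∧ Fin' w (-a) ∧ Fin' (-w) a ∧ Fin' (-w) (-a) := by
  rw [cross_iff_Cr ha hw] at h
  obtain ⟨-, h2, h3⟩ := br_ne_of_ori (left_ne_zero_of_mul (ne_of_lt h))
  obtain ⟨-, h4, h5⟩ := br_ne_of_ori (right_ne_zero_of_mul (ne_of_lt h))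
  exact ⟨fun e => h3 (by rw [br_swap, e, neg_zero]), fun e => h5 (by rw [br_swap, e, neg_zero]),
    h2, h4⟩
lemma fac_iff_crd {w a : V} (hw : B w w = 1) (h1 : Fin' w a) (h2 : Fin' w (-a)) :
    (Fac w a ↔ crd w a < 0 ∧ crd w (-a) < 0) ∧
      (Fac (-w) a ↔ 0 < crd w a ∧ 0 < crd w (-a)) := by
  have e : ∀ x, ori (-w) x w = -ori w x (-w) := fun x => by
    simp only [ori, oriW, br]
    ring
  constructor
  · rw [Fac, (side_iff hw h1).1, (side_iff hw h2).1]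
  · rw [Fac, neg_neg, e, e, neg_pos, neg_pos, (side_iff hw h1).2, (side_iff hw h2).2]
/-- The point at height `y` on the wall `a`. -/
def onW (a : V) (y : ℝ) : ℍ := fr a • pt ⟨0, y, -1 / y⟩

lemma VW2_onW (a : V) {y : ℝ} (hy : 0 < y) : Hy (onW a y) = fr a • (⟨0, y, -1 / y⟩ : V) := by
  have h : B ⟨0, y, -1 / y⟩ ⟨0, y, -1 / y⟩ = -1 := by
    simp only [B]
    field_simp
    ring
  rw [onW, Hy_smul, Hy_pt_unit ⟨by rw [h]; norm_num, hy⟩ h]
lemma VW2_abs {r s : ℝ} (h : r * s < 0) : |r - s| = |r| + |s| ∧ |(|r| - |s|)| = |r + s| := by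
  rcases mul_neg_iff.1 h with ⟨h1, h2⟩ | ⟨h1, h2⟩
  · rw [abs_of_pos h1, abs_of_neg h2, abs_of_pos (by linarith : 0 < r - s), sub_neg_eq_add]
    exact ⟨by ring, rfl⟩
  · rw [abs_of_neg h1, abs_of_pos h2, abs_of_neg (by linarith : r - s < 0),
      show -r - s = -(r + s) by ring, abs_neg]
    exact ⟨by ring, rfl⟩
lemma B_onW_self {a : V} (ha : B a a = 1) {y : ℝ} (hy : 0 < y) : B a (Hy (onW a y)) = 0 := by
  rw [VW2_onW a hy, B_ad_right, VW2_inv ha]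
  simp [B, w0]
lemma B_onW {a w : V} (ha : B a a = 1) (hw : B w w = 1) (h1 : Fin' a w) (h2 : Fin' a (-w))
    {y : ℝ} (hy : 0 < y) : B w (Hy (onW a y)) =
      (crd a w * crd a (-w) / y + y) / (crd a w - crd a (-w)) := by
  obtain ⟨k0, -, k2, k3⟩ := VW2_co ha hw h1 h2
  rw [VW2_onW a hy, B_ad_right, eq_div_iff k0]
  simp only [B]
  linear_combination -1 / y / 2 * k2 + y / 2 * k3
/-- A wall crossing `a` at a definite angle has endpoints of comparable size. -/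
lemma ratio_bound (β : ℝ) (hβ : β < 1) : ∃ ρ : ℝ, 1 ≤ ρ ∧ ∀ a w : V, B a a = 1 → B w w = 1 →
    |B a w| ≤ β → |crd a w| ≤ ρ * |crd a (-w)| ∧ |crd a (-w)| ≤ ρ * |crd a w| := by
  have hb : 0 < 1 - β := sub_pos.2 hβ
  refine ⟨max 1 (2 / (1 - β)), le_max_left _ _, fun a w ha hw h => ?_⟩
  obtain ⟨h1, h2, -, -⟩ := fin'_of_cross ha hw (h.trans_lt hβ)
  obtain ⟨e1, e2⟩ := VW2_abs ((cross_iff_crd ha hw h1 h2).1 (h.trans_lt hβ))
  obtain ⟨k0, k1⟩ := B_crd ha hw h1 h2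
  rw [k1, abs_div, div_le_iff₀ (abs_pos.2 (sub_ne_zero.2 k0)), e1, ← e2, abs_le] at h
  have p1 := abs_nonneg (crd a w)
  have p2 := abs_nonneg (crd a (-w))
  generalize |crd a w| = x at *
  generalize |crd a (-w)| = y at *
  constructor
  · refine le_trans ?_ (mul_le_mul_of_nonneg_right (le_max_right _ _) p2)
    rw [div_mul_eq_mul_div, le_div_iff₀ hb]
    nlinarith [h.2, mul_nonneg hb.le p2]
  · refine le_trans ?_ (mul_le_mul_of_nonneg_right (le_max_right _ _) p1)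
    rw [div_mul_eq_mul_div, le_div_iff₀ hb]
    nlinarith [h.1, mul_nonneg hb.le p1]
/-- A wall crossing `a` at a definite angle with an endpoint of size about `y` passes close to
the point at height `y`. -/
lemma window_bound (β M : ℝ) (hβ : β < 1) (hM : 1 ≤ M) : ∃ R : ℝ, ∀ (a w : V) (y : ℝ),
    B a a = 1 → B w w = 1 → |B a w| ≤ β → 0 < y → |crd a w| ≤ M * y → y ≤ M * |crd a w| →
      |B w (Hy (onW a y))| ≤ R := by
  refine ⟨2 * M, fun a w y ha hw h hy b1 b2 => ?_⟩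
  obtain ⟨h1, h2, -, -⟩ := fin'_of_cross ha hw (h.trans_lt hβ)
  obtain ⟨e1, -⟩ := VW2_abs ((cross_iff_crd ha hw h1 h2).1 (h.trans_lt hβ))
  obtain ⟨k0, -⟩ := B_crd ha hw h1 h2
  rw [B_onW ha hw h1 h2 hy, abs_div, div_le_iff₀ (abs_pos.2 (sub_ne_zero.2 k0)), e1]
  refine (abs_add_le _ _).trans ?_
  rw [abs_div, abs_mul, abs_of_pos hy]
  have p1 := abs_nonneg (crd a w)
  have p2 := abs_nonneg (crd a (-w))
  have k : |crd a w| * |crd a (-w)| / y ≤ M * |crd a (-w)| := by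
    rw [div_le_iff₀ hy]
    nlinarith [mul_le_mul_of_nonneg_right b1 p2]
  nlinarith [mul_nonneg (zero_le_one.trans hM) p1, mul_nonneg (zero_le_one.trans hM) p2]

end

end Pool.Agent.P.MP_d39174_gt
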