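import Pool.Agent.P.MP_d39174_gt.VW

/-! Walls facing each other. -/

namespace Pool.Agent.P.MP_d39174_gt

open UpperHalfPlane MatrixGroups

noncomputable section

/-- The wall `b` lies on the positive side of `a`. -/
def Fac (a b : V) : Prop := 0 < ori a b (-a) ∧ 0 < ori a (-b) (-a)

private lemma VWF_pos {x y : ℝ} (h : 0 < x * y ^ 2) : 0 < x := by
  by_contra h0
  nlinarith [mul_nonneg (neg_nonneg.2 (not_lt.1 h0)) (sq_nonneg y)]

private lemma VWF_negB (a x : V) : B (-a) x = -B a x := by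
  unfold B
  simp only [V.neg_a, V.neg_b, V.neg_c]
  ring

private lemma VWF_iff {a b : V} (ha : B a a = 1) :
    Fac a b ↔ 0 < B a (N (ev b)) ∧ 0 < B a (N (ev (-b))) := by
  obtain ⟨k, hk, e⟩ := B_N_ev ha (ev b)
  obtain ⟨k', hk', e'⟩ := B_N_ev ha (ev (-b))
  rw [e, e', mul_pos_iff_of_pos_left hk, mul_pos_iff_of_pos_left hk']
  rfl

private lemma VWF_co {n : V} (h : B n n = 1) :
    n.a * br (ev n) (ev (-n)) = (ev n).p * (ev (-n)).q + (ev n).q * (ev (-n)).p ∧
      n.b * br (ev n) (ev (-n)) = -2 * (ev n).p * (ev (-n)).p ∧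
      n.c * br (ev n) (ev (-n)) = 2 * (ev n).q * (ev (-n)).q :=
  VW_co (VW_of_br h (br_self _)) (VW_of_br (VW_neg h) (br_self _))

private lemma VWF_key {b : V} (hb : B b b = 1) (x y : V) :
    br (ev b) (ev (-b)) ^ 2 * (B x y - B x b * B y b) =
      -2 * (B x (N (ev b)) * B y (N (ev (-b))) + B x (N (ev (-b))) * B y (N (ev b))) := by
  obtain ⟨h1, h2, h3⟩ := VWF_co hb
  generalize ev b = u at *
  generalize ev (-b) = v at *
  have e : ∀ z : V, br u v * B z b =
      z.a * (u.p * v.q + u.q * v.p) + z.b * (u.q * v.q) - z.c * (u.p * v.p) := by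
    intro z
    unfold B
    linear_combination z.a * h1 + z.b / 2 * h3 + z.c / 2 * h2
  have e2 : br u v ^ 2 * (B x b * B y b) = (br u v * B x b) * (br u v * B y b) := by ring
  rw [mul_sub, e2, e, e]
  unfold B N br
  ring

private lemma VWF_sq {a b : V} (ha : B a a = 1) (hb : B b b = 1) :
    1 < |B a b| ↔ 0 < B a (N (ev b)) * B a (N (ev (-b))) := by
  have h := VWF_key hb a a
  have hD : 0 < br (ev b) (ev (-b)) ^ 2 := sq_pos_of_ne_zero (br_ev_neg hb)
  rw [ha] at h
  rw [← one_lt_sq_iff_one_lt_abs]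
  constructor
  · intro h1
    nlinarith [mul_pos hD (sub_pos.2 h1)]
  · intro h1
    by_contra h2
    nlinarith [mul_nonneg hD.le (sub_nonneg.2 (not_lt.1 h2))]

private lemma VWF_br {a b : V} : Fac a b ↔
    0 < br (ev a) (ev (-a)) * br (ev a) (ev b) * br (ev (-a)) (ev b) ∧
    0 < br (ev a) (ev (-a)) * br (ev a) (ev (-b)) * br (ev (-a)) (ev (-b)) := by
  have e : ∀ x : W, oriW (ev a) x (ev (-a)) =
      br (ev a) (ev (-a)) * br (ev a) x * br (ev (-a)) x := by
    intro x
    unfold oriW br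
    ring
  unfold Fac ori
  rw [e, e]

private lemma VWF_br' {a b : V} : Fac b a ↔
    0 < br (ev b) (ev (-b)) * br (ev a) (ev b) * br (ev a) (ev (-b)) ∧
    0 < br (ev b) (ev (-b)) * br (ev (-a)) (ev b) * br (ev (-a)) (ev (-b)) := by
  have e : ∀ x : W, oriW (ev b) x (ev (-b)) =
      br (ev b) (ev (-b)) * br x (ev b) * br x (ev (-b)) := by
    intro x
    unfold oriW br
    ring
  unfold Fac ori
  rw [e, e]

private lemma VWF_det {a b c : V} (ha : B a a = 1) (hb : B b b = 1) (hc : B c c = 1) :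
    det3 a b c * (br (ev a) (ev (-a)) * br (ev b) (ev (-b)) * br (ev c) (ev (-c))) =
      -2 * (br (ev a) (ev (-b)) * br (ev b) (ev (-c)) * br (ev c) (ev (-a)) +
        br (ev (-a)) (ev b) * br (ev (-b)) (ev c) * br (ev (-c)) (ev a)) := by
  obtain ⟨a1, a2, a3⟩ := VWF_co ha
  obtain ⟨b1, b2, b3⟩ := VWF_co hb
  obtain ⟨c1, c2, c3⟩ := VWF_co hc
  generalize ev a = u at *
  generalize ev (-a) = u' at *
  generalize ev b = v at *
  generalize ev (-b) = v' at *
  generalize ev c = w at *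
  generalize ev (-c) = w' at *
  have e : det3 a b c * (br u u' * br v v' * br w w') =
      ((a.b * br u u') * (b.c * br v v') - (a.c * br u u') * (b.b * br v v')) / 2 *
        (c.a * br w w') +
      (((a.a * br u u') * (b.b * br v v') - (a.b * br u u') * (b.a * br v v')) *
        (c.c * br w w') +
      ((a.c * br u u') * (b.a * br v v') - (a.a * br u u') * (b.c * br v v')) *
        (c.b * br w w')) / 2 := by
    unfold det3 B cr
    ring
  rw [e, a1, a2, a3, b1, b2, b3, c1, c2, c3]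
  unfold br
  ring

lemma Fac.ad {a b : V} (g : SL(2, ℝ)) (ha : B a a = 1) (hb : B b b = 1) :
    Fac (g • a) (g • b) ↔ Fac a b := by
  obtain ⟨k, hk, e⟩ := ori_ad g ha hb (VW_neg ha)
  obtain ⟨k', hk', e'⟩ := ori_ad g ha (VW_neg hb) (VW_neg ha)
  unfold Fac
  rw [← smul_neg, ← smul_neg, e, e', mul_pos_iff_of_pos_left hk, mul_pos_iff_of_pos_left hk']
lemma Fac.neg_right {a b : V} (h : Fac a b) : Fac a (-b) := by
  refine ⟨h.2, ?_⟩
  rw [neg_neg]
  exact h.1
lemma fac_of_point {a b p : V} (ha : B a a = 1) (hb : B b b = 1) (h : 1 < |B a b|) (hp : Fut p)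
    (hbp : B b p = 0) (hap : 0 < B a p) : Fac a b := by
  have h1 := (VWF_sq ha hb).1 h
  have k := VWF_key hb a p
  have hD : 0 < br (ev b) (ev (-b)) ^ 2 := sq_pos_of_ne_zero (br_ev_neg hb)
  have p1 := hp.B_N (ev_ne hb)
  have p2 := hp.B_N (ev_ne (VW_neg hb))
  rw [B_comm p b, hbp, mul_zero, sub_zero] at k
  rw [VWF_iff ha]
  rcases mul_pos_iff.1 h1 with h2 | h2
  · exact h2
  · exfalso
    nlinarith [mul_pos hD hap, mul_pos_of_neg_of_neg h2.1 p2, mul_pos_of_neg_of_neg h2.2 p1]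
lemma Fac.pos {a b p : V} (ha : B a a = 1) (hb : B b b = 1) (h : Fac a b) (hp : Fut p)
    (hbp : B b p = 0) : 0 < B a p := by
  have k := VWF_key hb a p
  have p1 := hp.B_N (ev_ne hb)
  have p2 := hp.B_N (ev_ne (VW_neg hb))
  rw [B_comm p b, hbp, mul_zero, sub_zero] at k
  obtain ⟨h1, h2⟩ := (VWF_iff ha).1 h
  refine VWF_pos (y := br (ev b) (ev (-b))) ?_
  nlinarith [mul_pos h1 (neg_pos.2 p2), mul_pos h2 (neg_pos.2 p1)]
lemma Fac.one_lt {a b : V} (ha : B a a = 1) (hb : B b b = 1) (h : Fac a b) : 1 < |B a b| := by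
  obtain ⟨h1, h2⟩ := (VWF_iff ha).1 h
  exact (VWF_sq ha hb).2 (mul_pos h1 h2)
lemma fac_or {a b : V} (ha : B a a = 1) (hb : B b b = 1) (h : 1 < |B a b|) :
    Fac a b ∨ Fac (-a) b := by
  rw [VWF_iff ha, VWF_iff (VW_neg ha), VWF_negB, VWF_negB, neg_pos, neg_pos]
  exact mul_pos_iff.1 ((VWF_sq ha hb).1 h)
lemma Fac.lt {a b : V} (ha : B a a = 1) (hb : B b b = 1) (h : Fac a b) (h' : Fac b a) :
    B a b < -1 := by
  obtain ⟨h1, -⟩ := VWF_br.1 h
  obtain ⟨h2, -⟩ := VWF_br'.1 h'
  obtain ⟨-, k⟩ := VW_key ha hb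
  generalize br (ev a) (ev (-a)) = D at *
  generalize br (ev b) (ev (-b)) = E at *
  generalize br (ev a) (ev b) = p at *
  generalize br (ev a) (ev (-b)) = q at *
  generalize br (ev (-a)) (ev b) = r at *
  have h3 : 0 < D * E * (q * r) := VWF_pos (y := p) (by
    have := mul_pos h1 h2
    linarith [show D * p * r * (E * p * q) = D * E * (q * r) * p ^ 2 by ring])
  have h4 : 0 < -(1 + B a b) := VWF_pos (y := D * E) (by
    have : -(1 + B a b) * (D * E) ^ 2 = 2 * (D * E * (q * r)) := by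
      linear_combination (-(D * E)) * k
    linarith)
  linarith
lemma Fac.of_lt {a b : V} (ha : B a a = 1) (hb : B b b = 1) (h : B a b < -1)
    (h' : 0 < ori a b (-a)) : Fac a b ∧ Fac b a := by
  have e : ori a b (-a) = br (ev a) (ev (-a)) * br (ev a) (ev b) * br (ev (-a)) (ev b) := by
    unfold ori oriW br
    ring
  rw [e] at h'
  rw [VWF_br, VWF_br']
  obtain ⟨k1, k2⟩ := VW_key ha hb
  have hD := br_ev_neg ha
  have hE := br_ev_neg hb
  generalize br (ev a) (ev (-a)) = D at *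
  generalize br (ev b) (ev (-b)) = E at *
  generalize br (ev a) (ev b) = p at *
  generalize br (ev a) (ev (-b)) = q at *
  generalize br (ev (-a)) (ev b) = r at *
  generalize br (ev (-a)) (ev (-b)) = s at *
  have hDE : 0 < (D * E) ^ 2 := sq_pos_of_ne_zero (mul_ne_zero hD hE)
  have h1 : 0 < D * E * (q * r) := by
    have : -(1 + B a b) * (D * E) ^ 2 = 2 * (D * E * (q * r)) := by
      linear_combination (-(D * E)) * k2
    have h0 : 0 < -(1 + B a b) * (D * E) ^ 2 := mul_pos (by linarith) hDE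
    linarith
  have h2 : 0 < D * E * (p * s) := by
    have : (1 - B a b) * (D * E) ^ 2 = 2 * (D * E * (p * s)) := by
      linear_combination (D * E) * k1
    have h0 : 0 < (1 - B a b) * (D * E) ^ 2 := mul_pos (by linarith) hDE
    linarith
  refine ⟨⟨h', VWF_pos (y := D * E * p * r) ?_⟩, VWF_pos (y := D * r) ?_,
    VWF_pos (y := D * p) ?_⟩
  · have := mul_pos h' (mul_pos h1 h2)
    linarith [show D * p * r * (D * E * (q * r) * (D * E * (p * s))) =
      D * q * s * (D * E * p * r) ^ 2 by ring]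
  · have := mul_pos h' h1
    linarith [show D * p * r * (D * E * (q * r)) = E * p * q * (D * r) ^ 2 by ring]
  · have := mul_pos h' h2
    linarith [show D * p * r * (D * E * (p * s)) = E * r * s * (D * p) ^ 2 by ring]
/-- For three mutually facing walls the volume form detects the cyclic order. -/
lemma det3_ori {a b c : V} (ha : B a a = 1) (hb : B b b = 1) (hc : B c c = 1) (ab : Fac a b)
    (ba : Fac b a) (bc : Fac b c) (cb : Fac c b) (ac : Fac a c) (ca : Fac c a) :
    det3 a b c * ori a b c < 0 := by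
  obtain ⟨r1, -⟩ := VWF_br.1 ab
  obtain ⟨q1, -⟩ := VWF_br'.1 ba
  obtain ⟨r2, -⟩ := VWF_br.1 bc
  obtain ⟨q2, -⟩ := VWF_br'.1 cb
  obtain ⟨r3, -⟩ := VWF_br.1 ca
  obtain ⟨q3, -⟩ := VWF_br'.1 ac
  have k := VWF_det ha hb hc
  unfold ori oriW
  generalize br (ev a) (ev (-a)) = D at *
  generalize br (ev b) (ev (-b)) = E at *
  generalize br (ev c) (ev (-c)) = F at *
  generalize br (ev a) (ev b) = p1 at *
  generalize br (ev b) (ev c) = p2 at *
  generalize br (ev c) (ev a) = p3 at *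
  generalize br (ev a) (ev (-b)) = x1 at *
  generalize br (ev b) (ev (-c)) = x2 at *
  generalize br (ev c) (ev (-a)) = x3 at *
  generalize br (ev (-a)) (ev b) = y1 at *
  generalize br (ev (-b)) (ev c) = y2 at *
  generalize br (ev (-c)) (ev a) = y3 at *
  have hq := mul_pos q1 (mul_pos q2 q3)
  have hr := mul_pos r1 (mul_pos r2 r3)
  have h0 : 0 < -(det3 a b c * (p1 * p2 * p3)) := VWF_pos (y := D * E * F) (by
    have : -(det3 a b c * (p1 * p2 * p3)) * (D * E * F) ^ 2 =
        2 * (E * p1 * x1 * (F * p2 * x2 * (D * p3 * x3))) +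
          2 * (D * p1 * y1 * (E * p2 * y2 * (F * p3 * y3))) := by
      linear_combination (-(p1 * p2 * p3 * (D * E * F))) * k
    linarith)
  linarith
/-- Two walls facing each other across `w`. -/
lemma B_le_mul {w x y : V} (hw : B w w = 1) (hx : B x x = 1) (hy : B y y = 1) (h1 : Fac w x)
    (h2 : Fac x w) (h3 : Fac (-w) y) (h4 : Fac y w) :
    B w x < -1 ∧ 1 < B w y ∧ B x y ≤ B w x * B w y := by
  refine ⟨Fac.lt hw hx h1 h2, ?_, ?_⟩
  · have := Fac.lt (VW_neg hw) hy h3 h4.neg_right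
    rw [VWF_negB] at this
    linarith
  · have k := VWF_key hw x y
    obtain ⟨x1, x2⟩ := (VWF_iff hx).1 h2
    obtain ⟨y1, y2⟩ := (VWF_iff hy).1 h4
    have h0 : 0 < -(B x y - B x w * B y w) := VWF_pos (y := br (ev w) (ev (-w))) (by
      nlinarith [mul_pos x1 y2, mul_pos x2 y1])
    rw [B_comm w x, B_comm w y]
    linarith

end

end Pool.Agent.P.MP_d39174_gt
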